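import Pool.Agent.MP_855f4c_ag.EC.E3a

section

/-! Polynomial approximation of tubes (a finite level form of the tilting approximation lemma). -/

set_option autoImplicit false

open MvPolynomial WittVector

namespace Pool.Agent.MP_855f4c_ag.G.Apx

variable (p : ℕ) [hp : Fact p.Prime]

section ring
variable {R S : Type} [CommRing R] [CommRing S]

theorem ghost_eq (n : ℕ) (x : WittVector p R) :
    ghostComponent n x = ∑ i ∈ Finset.range (n + 1), (p : R) ^ i * x.coeff i ^ p ^ (n - i) := by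
  rw [ghostComponent_apply, aeval_wittPolynomial]

theorem ghost_succ (n : ℕ) (x : WittVector p R) :
    ghostComponent (n + 1) x = x.coeff 0 ^ p ^ (n + 1) + p * ghostComponent n (x.shift 1) := by
  rw [ghost_eq, ghost_eq, Finset.sum_range_succ', Finset.mul_sum, add_comm]
  congr 1
  · simp
  · refine Finset.sum_congr rfl fun i _ => ?_
    rw [shift_coeff, add_comm 1 i, Nat.add_sub_add_right, pow_succ]
    ring

theorem teich_aux {τ : Type} (c : MvPolynomial τ ℚ) (x : WittVector p (MvPolynomial τ ℚ)) :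
    teichmuller p c * x = WittVector.mk p fun j => c ^ p ^ j * x.coeff j := by
  apply (ghostMap.bijective_of_invertible p (MvPolynomial τ ℚ)).1
  ext1 n
  rw [ghostMap_apply, ghostMap_apply, map_mul, ghostComponent_teichmuller, ghost_eq, ghost_eq,
    Finset.mul_sum]
  refine Finset.sum_congr rfl fun i hi => ?_
  have hi' : i ≤ n := Nat.lt_succ_iff.mp (Finset.mem_range.mp hi)
  rw [coeff_mk, mul_pow, ← pow_mul, ← pow_add, Nat.add_sub_cancel' hi']
  ring

theorem teich_coeff (c : R) (x : WittVector p R) (j : ℕ) :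
    (teichmuller p c * x).coeff j = c ^ p ^ j * x.coeff j := by
  obtain ⟨c, rfl⟩ := counit_surjective R c
  obtain ⟨x, rfl⟩ := WittVector.map_surjective (p := p) (counit R : MvPolynomial R ℤ →+* R)
    (counit_surjective R) x
  have h : (teichmuller p c * x).coeff j = c ^ p ^ j * x.coeff j := by
    apply MvPolynomial.map_injective (Int.castRingHom ℚ) Int.cast_injective
    rw [← WittVector.map_coeff, map_mul, map_teichmuller, teich_aux, coeff_mk, map_mul, map_pow,
      WittVector.map_coeff]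
  have h2 := congrArg (counit R : MvPolynomial R ℤ →+* R) h
  rw [← WittVector.map_coeff, map_mul, map_teichmuller, map_mul, map_pow,
    ← WittVector.map_coeff] at h2
  exact h2

/-- One step of the reduction modulo `p - [t]`. -/
noncomputable def step (t : R) (i : ℕ) (x : WittVector p R) : WittVector p R :=
  teichmuller p (x.coeff 0 ^ p) + teichmuller p (t ^ p ^ (i + 1)) * x.shift 1

/-- The sequence of reductions. -/
noncomputable def xs (t : R) (x : WittVector p R) : ℕ → WittVector p R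
  | 0 => x
  | i + 1 => step p t i (xs t x i)

theorem map_xs (φ : R →+* S) (t : R) (x : WittVector p R) (i : ℕ) :
    WittVector.map φ (xs p t x i) = xs p (φ t) (WittVector.map φ x) i := by
  induction i with
  | zero => rfl
  | succ i ih =>
    rw [xs, xs, step, step, ← ih, map_add, map_mul, map_teichmuller, map_teichmuller, map_pow φ,
      map_pow φ, WittVector.map_coeff]
    rfl

theorem xs_mul (c t : R) (x : WittVector p R) (i : ℕ) :
    xs p t (teichmuller p c * x) i = teichmuller p (c ^ p ^ i) * xs p t x i := by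
  induction i with
  | zero => simp [xs]
  | succ i ih =>
    have h : (teichmuller p (c ^ p ^ i) * xs p t x i).shift 1 =
        teichmuller p (c ^ p ^ (i + 1)) * (xs p t x i).shift 1 := by
      ext j
      rw [shift_coeff, teich_coeff, teich_coeff, shift_coeff, ← pow_mul, ← pow_mul, ← pow_add,
        ← pow_add, add_assoc]
    rw [xs, xs, step, step, ih, h, teich_coeff, pow_zero, pow_one, mul_pow, ← pow_mul, ← pow_succ,
      map_mul]
    ring

theorem ghost_xs (t : R) (x : WittVector p R) (k : ℕ) (ht : t ^ p ^ k = p) (i : ℕ) (hi : i ≤ k) :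
    ghostComponent (k - i) (xs p t x i) = ghostComponent k x := by
  induction i with
  | zero => rfl
  | succ i ih =>
    rw [← ih (by omega), show k - i = k - (i + 1) + 1 by omega, ghost_succ, xs, step, map_add,
      map_mul, ghostComponent_teichmuller, ghostComponent_teichmuller, ← pow_mul, ← pow_mul,
      ← pow_add, ← pow_succ', show i + 1 + (k - (i + 1)) = k by omega, ht]

end ring

section val
variable {C Γ : Type} [Field C] [LinearOrderedCommGroupWithZero Γ] (v : Valuation C Γ)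

/-- The first `n + 1` coefficients are bounded by `r`. -/
def Le (n : ℕ) (r : Γ) (x : WittVector p C) : Prop :=
  ∀ j ≤ n, v (x.coeff j) ^ p ^ (n - j) ≤ r

variable {p v}

omit hp in
theorem Le.mono {n : ℕ} {r r' : Γ} {x : WittVector p C} (h : Le p v n r x) (hr : r ≤ r') :
    Le p v n r' x := fun j hj => (h j hj).trans hr

theorem Le.teich_mul {n : ℕ} {r : Γ} {x : WittVector p C} (h : Le p v n r x) (c : C) :
    Le p v n (v c ^ p ^ n * r) (teichmuller p c * x) := by
  intro j hj
  rw [teich_coeff, map_mul, map_pow, mul_pow, ← pow_mul, ← pow_add, Nat.add_sub_cancel' hj]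
  exact mul_le_mul_right (h j hj) _

theorem le_one_iff {n : ℕ} {x : WittVector p C} :
    Le p v n 1 x ↔ ∀ j ≤ n, v (x.coeff j) ≤ 1 :=
  forall₂_congr fun _ _ => pow_le_one_iff_of_nonneg zero_le (pow_ne_zero _ hp.1.ne_zero)

theorem add_one {n : ℕ} {x y : WittVector p C} (hx : Le p v n 1 x) (hy : Le p v n 1 y) :
    Le p v n 1 (x + y) := by
  rw [le_one_iff] at hx hy ⊢
  have key : ∀ z : WittVector p C, (∀ j ≤ n, v (z.coeff j) ≤ 1) →
      ∃ z' : WittVector p v.integer, WittVector.map v.integer.subtype z' = init (n + 1) z := by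
    intro z hz
    refine ⟨WittVector.mk p fun j => if h : j ≤ n then ⟨z.coeff j, hz j h⟩ else 0, ?_⟩
    ext j
    rw [WittVector.map_coeff, coeff_mk]
    simp only [init, select, coeff_mk, Nat.lt_succ_iff]
    split_ifs <;> rfl
  obtain ⟨x', hx'⟩ := key x hx
  obtain ⟨y', hy'⟩ := key y hy
  intro j hj
  have h := congrArg (fun z => z.coeff j) (init_add x y (n + 1))
  rw [← hx', ← hy', ← map_add] at h
  simp only [init, select, coeff_mk, Nat.lt_succ_iff, hj, if_true] at h
  rw [h, WittVector.map_coeff]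
  exact ((x' + y').coeff j).2

theorem Le.add [IsAlgClosed C] {n : ℕ} {d : C} (hd : d ≠ 0) {x y : WittVector p C}
    (hx : Le p v n (v d) x) (hy : Le p v n (v d) y) : Le p v n (v d) (x + y) := by
  obtain ⟨c, rfl⟩ := IsAlgClosed.exists_pow_nat_eq d (pow_pos hp.1.pos n)
  have hc : c ≠ 0 := fun h => hd (by rw [h, zero_pow (pow_ne_zero _ hp.1.ne_zero)])
  have h1 : v c⁻¹ ^ p ^ n * v (c ^ p ^ n) = 1 := by
    rw [← map_pow, ← map_mul, ← mul_pow, inv_mul_cancel₀ hc, one_pow, map_one]
  have h := (add_one (h1 ▸ hx.teich_mul c⁻¹) (h1 ▸ hy.teich_mul c⁻¹)).teich_mul c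
  rwa [← mul_add, ← mul_assoc, ← map_mul, mul_inv_cancel₀ hc, map_one, one_mul, mul_one,
    ← map_pow] at h

theorem Le.ghost {n : ℕ} {r : Γ} {x : WittVector p C} (h : Le p v n r x) :
    v (ghostComponent n x) ≤ r := by
  rw [ghost_eq]
  refine v.map_sum_le fun i hi => ?_
  rw [map_mul, map_pow, map_pow]
  have h1 : v (p : C) ≤ 1 := (p : v.integer).2
  exact (mul_le_of_le_one_left' (pow_le_one' h1 _)).trans
    (h i (Nat.lt_succ_iff.mp (Finset.mem_range.mp hi)))

theorem le_teich (n : ℕ) (a : C) : Le p v n (v a ^ p ^ n) (teichmuller p a) := by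
  have h : Le p v n 1 (1 : WittVector p C) := by
    rw [le_one_iff]
    intro j _
    rcases j with _ | j
    · simp
    · rw [one_coeff_eq_of_pos _ _ _ (Nat.succ_pos _)]; simp
  simpa using h.teich_mul a

omit hp in
theorem Le.shift {n : ℕ} {r : Γ} {x : WittVector p C} (h : Le p v (n + 1) r x) :
    Le p v n r (x.shift 1) := by
  intro j hj
  have := h (1 + j) (by omega)
  rwa [show n + 1 - (1 + j) = n - j by omega] at this

theorem le_xs [IsAlgClosed C] (h0 : (p : C) ≠ 0) (h1 : v (p : C) < 1) (t : C)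
    (x : WittVector p C) (k : ℕ) (ht : t ^ p ^ k = p) (hx : Le p v k 1 x) (i : ℕ) (hi : i ≤ k) :
    Le p v (k - i) (max (v ((xs p t x i).coeff 0) ^ p ^ (k - i)) (v (p : C) ^ i)) (xs p t x i) := by
  induction i with
  | zero => exact hx.mono (by simp)
  | succ i ih =>
    have ih := ih (by omega)
    obtain ⟨n, hn⟩ : ∃ n, k - (i + 1) = n := ⟨_, rfl⟩
    rw [show k - i = n + 1 by omega] at ih
    rw [hn, xs]
    generalize xs p t x i = z at ih ⊢
    have hz : v (t ^ p ^ (i + 1)) ^ p ^ n = v (p : C) := by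
      rw [← map_pow, ← pow_mul, ← pow_add, show i + 1 + n = k by omega, ht]
    have hA := le_teich (p := p) (v := v) n (z.coeff 0 ^ p)
    rw [map_pow, ← pow_mul, ← pow_succ'] at hA
    have hB := ih.shift.teich_mul (t ^ p ^ (i + 1))
    rw [hz] at hB
    have hp0 : 0 < v (p : C) := (v.pos_iff).mpr h0
    rcases lt_or_ge (v (p : C) * max (v (z.coeff 0) ^ p ^ (n + 1)) (v (p : C) ^ i))
      (v (z.coeff 0) ^ p ^ (n + 1)) with h | h
    · have hd : z.coeff 0 ^ p ^ (n + 1) ≠ 0 := by
        intro h'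
        rw [← map_pow, h', map_zero] at h
        exact not_lt_zero h
      have hs := Le.add hd ((map_pow v _ _).symm ▸ hA) ((map_pow v _ _).symm ▸ hB.mono h.le)
      refine hs.mono (le_max_of_le_left (le_of_eq ?_))
      have hlt : v ((teichmuller p (t ^ p ^ (i + 1)) * z.shift 1).coeff 0) <
          v (z.coeff 0 ^ p) := by
        apply lt_of_pow_lt_pow_left₀ (p ^ n) zero_le
        rw [map_pow v (z.coeff 0), ← pow_mul, ← pow_succ']
        exact (hB 0 (Nat.zero_le _)).trans_lt h
      rw [step, add_coeff_zero, teichmuller_coeff_zero, v.map_add_eq_of_lt_left hlt, map_pow,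
        map_pow, ← pow_mul, ← pow_succ']
    · have hm : max (v (z.coeff 0) ^ p ^ (n + 1)) (v (p : C) ^ i) = v (p : C) ^ i := by
        refine max_eq_right (le_of_not_gt fun h' => ?_)
        rw [max_eq_left h'.le] at h
        have h2 : 0 < v (z.coeff 0) ^ p ^ (n + 1) := lt_of_le_of_lt zero_le h'
        exact absurd h (not_le.mpr (mul_lt_of_lt_one_left h2 h1))
      rw [hm, ← pow_succ'] at h hB
      have hs := Le.add (v := v) (pow_ne_zero (i + 1) h0) (by rw [map_pow]; exact hA.mono h)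
        (by rw [map_pow]; exact hB)
      exact hs.mono (le_max_of_le_right (le_of_eq (map_pow _ _ _)))

end val

/-- Evaluation of an integral polynomial. -/
noncomputable abbrev ev {σ A : Type} [CommRing A] (y : σ → A) : MvPolynomial σ ℤ →+* A :=
  eval₂Hom (Int.castRingHom A) y

theorem map_ev {σ A B : Type} [CommRing A] [CommRing B] (φ : A →+* B) (y : σ → A)
    (f : MvPolynomial σ ℤ) : φ (ev y f) = ev (fun i => φ (y i)) f :=
  RingHom.congr_fun (MvPolynomial.ringHom_ext' (f := φ.comp (ev y)) (RingHom.ext_int _ _)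
    fun i => by simp) f

theorem ev_X {σ : Type} (f : MvPolynomial σ ℤ) : ev X f = f :=
  RingHom.congr_fun (MvPolynomial.ringHom_ext' (f := ev X) (g := RingHom.id _)
    (RingHom.ext_int _ _) fun i => by simp) f

section hom
variable {σ M : Type} [AddCommMonoid M]

theorem ev_hom {w : σ → M} {e : M} {f : MvPolynomial σ ℤ} (hf : f.IsWeightedHomogeneous w e)
    {A : Type} [CommRing A] (χ : Multiplicative M →* A) (y : σ → A) :
    ev (fun i => χ (.ofAdd (w i)) * y i) f = χ (.ofAdd e) * ev y f := by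
  rw [f.as_sum, map_sum, map_sum, Finset.mul_sum]
  refine Finset.sum_congr rfl fun m hm => ?_
  rw [eval₂Hom_monomial, eval₂Hom_monomial, ← hf (mem_support_iff.mp hm), Finsupp.weight_apply,
    Finsupp.sum, ofAdd_sum, map_prod, Finsupp.prod, Finsupp.prod, mul_left_comm,
    ← Finset.prod_mul_distrib]
  congr 1
  refine Finset.prod_congr rfl fun i _ => ?_
  rw [mul_pow, ofAdd_nsmul, map_pow]

theorem hom_of_ev {w : σ → M} {e : M} {f : MvPolynomial σ ℤ}
    (h : ev (fun i => AddMonoidAlgebra.of (MvPolynomial σ ℤ) M (.ofAdd (w i)) *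
        algebraMap (MvPolynomial σ ℤ) _ (X i)) f =
      AddMonoidAlgebra.of (MvPolynomial σ ℤ) M (.ofAdd e) * algebraMap (MvPolynomial σ ℤ) _ f) :
    f.IsWeightedHomogeneous w e := by
  classical
  intro d hd
  by_contra hne
  have h2 : ev (fun i => AddMonoidAlgebra.of (MvPolynomial σ ℤ) M (.ofAdd (w i)) *
      algebraMap (MvPolynomial σ ℤ) _ (X i)) f =
      ∑ m ∈ f.support, AddMonoidAlgebra.single (Finsupp.weight w m) (monomial m (coeff m f)) := by
    conv_lhs => rw [f.as_sum, map_sum]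
    refine Finset.sum_congr rfl fun m _ => ?_
    rw [ev_hom (isWeightedHomogeneous_monomial w m _ rfl), ← map_ev, ev_X]
    simp [AddMonoidAlgebra.single_mul_single]
  rw [h2] at h
  have h4 := congrArg (fun z : AddMonoidAlgebra (MvPolynomial σ ℤ) M =>
    coeff d (z.coeff (Finsupp.weight w d))) h
  simp [AddMonoidAlgebra.single_mul_single, Finsupp.single_apply, Ne.symm hne, coeff_sum,
    apply_ite (MvPolynomial.coeff d), coeff_monomial] at h4
  rw [Finset.sum_eq_single d (fun b _ hb => by simp [hb])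
    fun hb => absurd (mem_support_iff.mpr hd) hb] at h4
  exact hd (by simpa using h4)

end hom

/-- The approximating polynomial; the extra variable is the root of `p`. -/
noncomputable def ap {σ : Type} (f : MvPolynomial σ ℤ) (N : ℕ) : MvPolynomial (Option σ) ℤ :=
  (xs p (X none) (ev (fun i => teichmuller p (X (some i))) f) N).coeff 0

theorem ev_ap {σ A : Type} [CommRing A] (f : MvPolynomial σ ℤ) (N : ℕ) (z : Option σ → A) :
    ev z (ap p f N) = (xs p (z none) (ev (fun i => teichmuller p (z (some i))) f) N).coeff 0 := by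
  rw [ap, ← WittVector.map_coeff, map_xs, map_ev]
  simp

theorem ap_hom {σ M : Type} [AddCommMonoid M] {w : σ → M} {e : M} {f : MvPolynomial σ ℤ}
    (hf : f.IsWeightedHomogeneous w e) (N : ℕ) :
    (ap p f N).IsWeightedHomogeneous (fun o => o.elim 0 w) (p ^ N • e) := by
  apply hom_of_ev
  generalize AddMonoidAlgebra.of (MvPolynomial (Option σ) ℤ) M = χ
  generalize algebraMap (MvPolynomial (Option σ) ℤ)
    (AddMonoidAlgebra (MvPolynomial (Option σ) ℤ) M) = φ
  conv_rhs => rw [← ev_X (ap p f N), map_ev]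
  rw [ev_ap, ev_ap]
  simp only [Option.elim, map_mul, ofAdd_zero, map_one, one_mul]
  rw [show (fun i => teichmuller p (χ (.ofAdd (w i))) * teichmuller p (φ (X (some i)))) =
      fun i => ((teichmuller p).comp χ) (.ofAdd (w i)) * teichmuller p (φ (X (some i))) from rfl,
    ev_hom hf, MonoidHom.comp_apply, xs_mul, teich_coeff, pow_zero, pow_one, ofAdd_nsmul, map_pow]

theorem ap_le {σ C Γ : Type} [Field C] [IsAlgClosed C] [LinearOrderedCommGroupWithZero Γ]
    (v : Valuation C Γ) (h0 : (p : C) ≠ 0) (h1 : v (p : C) < 1) (f : MvPolynomial σ ℤ) (N k : ℕ)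
    (hk : N ≤ k) (z : Option σ → C) (hz : ∀ i, v (z (some i)) ≤ 1) (ht : z none ^ p ^ k = p) :
    v (ev (fun i => z (some i) ^ p ^ k) f) ≤
      max (v (ev z (ap p f N)) ^ p ^ (k - N)) (v (p : C) ^ N) := by
  have hx : Le p v k 1 (ev (fun i => teichmuller p (z (some i))) f) := by
    rw [le_one_iff]
    intro j _
    have h := map_ev (WittVector.map (p := p) v.integer.subtype)
      (fun i => teichmuller p (⟨z (some i), hz i⟩ : v.integer)) f
    simp only [map_teichmuller, Subring.subtype_apply] at h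
    rw [← h, WittVector.map_coeff]
    exact (WittVector.coeff _ j : v.integer).2
  have h := (le_xs h0 h1 _ _ k ht hx N hk).ghost
  rw [ghost_xs p _ _ k ht N hk, map_ev, ← ev_ap] at h
  simpa only [ghostComponent_teichmuller] using h

end Pool.Agent.MP_855f4c_ag.G.Apx

end

section

/-! Valuative criterion for integrality over arbitrary rings. -/

set_option autoImplicit false

open Polynomial

namespace Pool.Agent.MP_855f4c_ag.G

theorem vint {B S : Type} [CommRing B] [CommRing S] [Algebra B S] (x : S)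
    (h : ∀ (K : Type) [Field K] [IsAlgClosed K] (φ : S →+* K) (V : ValuationSubring K),
      (∀ b, φ (algebraMap B S b) ∈ V) → φ x ∈ V) : IsIntegral B x := by
  by_contra hx
  let M : Submonoid S :=
    { carrier := {y | ∃ P : B[X], P.Monic ∧ aeval x P = y}
      one_mem' := ⟨1, monic_one, map_one _⟩
      mul_mem' := by
        rintro _ _ ⟨P, hP, rfl⟩ ⟨Q, hQ, rfl⟩
        exact ⟨P * Q, hP.mul hQ, map_mul _ _ _⟩ }
  obtain ⟨q, hq, -, hd⟩ := Ideal.exists_le_prime_disjoint (⊥ : Ideal S) M (by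
    rw [Set.disjoint_left]
    rintro _ h0 ⟨P, hP, rfl⟩
    exact hx ⟨P, hP, h0⟩)
  let K := AlgebraicClosure (FractionRing (S ⧸ q))
  let ψ : S ⧸ q →+* K :=
    (algebraMap (FractionRing (S ⧸ q)) K).comp (algebraMap (S ⧸ q) (FractionRing (S ⧸ q)))
  have hψ : Function.Injective ψ :=
    (algebraMap (FractionRing (S ⧸ q)) K).injective.comp (IsFractionRing.injective _ _)
  let φ : S →+* K := ψ.comp (Ideal.Quotient.mk q)
  let g : B →+* K := φ.comp (algebraMap B S)
  have h1 : φ x ∈ (integralClosure (Subring.closure (Set.range g)) K).toSubring := by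
    rw [← iInf_valuationSubring_superset, Subring.mem_iInf]
    exact fun V => h K φ V.1 fun b => V.2 ⟨b, rfl⟩
  obtain ⟨P, hP, h0⟩ := h1
  have hs : Function.Surjective
      (g.codRestrict (Subring.closure (Set.range g)) fun b => Subring.subset_closure ⟨b, rfl⟩) := by
    rintro ⟨y, hy⟩
    have : Subring.closure (Set.range g) ≤ g.range := Subring.closure_le.mpr fun _ h => h
    obtain ⟨b, rfl⟩ := this hy
    exact ⟨b, rfl⟩
  obtain ⟨Q, rfl, -, hQ⟩ := lifts_and_degree_eq_and_monic
    (mem_lifts_of_surjective hs P) hP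
  rw [eval₂_map] at h0
  refine Set.disjoint_left.mp hd ?_ ⟨Q, hQ, rfl⟩
  rw [SetLike.mem_coe, ← Ideal.Quotient.eq_zero_iff_mem]
  apply hψ
  rw [map_zero, ← h0, aeval_def, hom_eval₂, hom_eval₂]
  rfl

end Pool.Agent.MP_855f4c_ag.G

end

section

/-! Henselian pairs: definitions and statements. -/

set_option autoImplicit false

open MvPolynomial

namespace Pool.Agent.MP_855f4c_ag.G

open E3

/-- The systems `μ + T(μ) = 0` with coefficients of `T` in `I` are solvable. -/
def Newt {A : Type} [CommRing A] (I : Ideal A) : Prop :=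
  ∀ (m : Type) [Fintype m] (T : m → MvPolynomial m A), (∀ i, T i ∈ I.map C) →
    ∃ μ : m → A, ∀ i, μ i + eval μ (T i) = 0

/-- `V(I D)` is connected and not empty for every domain `D` integral over `A`. -/
def HP {A : Type} [CommRing A] (I : Ideal A) : Prop :=
  ∀ (D : Type) [CommRing D] [IsDomain D] [Algebra A D] [Algebra.IsIntegral A D],
    Nontrivial (D ⧸ I.map (algebraMap A D)) ∧
      ∀ e : D ⧸ I.map (algebraMap A D), IsIdempotentElem e → e = 0 ∨ e = 1

/-- Henselisation of a pair. -/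
def HENS_s : Prop := ∀ (B : Type) [CommRing B] (I : Ideal B),
  ∃ (C : Type) (_ : CommRing C) (_ : Algebra B C), IndEt B C ∧ Newt (I.map (algebraMap B C)) ∧
    Function.Bijective (Ideal.quotientMap (I.map (algebraMap B C)) (algebraMap B C)
      Ideal.le_comap_map)

/-- `Newt` passes to integral algebras and to smaller ideals, and gives units and `HP`. -/
def NEWT_s : Prop := ∀ (A : Type) [CommRing A] (I : Ideal A), Newt I →
  (∀ (D : Type) [CommRing D] [Algebra A D] [Algebra.IsIntegral A D], Newt (I.map (algebraMap A D))) ∧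
    (∀ J ≤ I, Newt J) ∧ (∀ x ∈ I, IsUnit (1 + x)) ∧ HP I

/-- Elkik: `x` generates the smooth `K`-algebra `A` with equations `g`, `K = O[1/w]`. A point `z₀`
of `w^(-c) C` with `g(z₀)` in `w^c₁ b` lifts to a point `φ`, equal to `z₀` modulo `w^c₂ b`. -/
def ELK_s : Prop := ∀ (O K A n m : Type) [CommRing O] (w : O) [CommRing K] [Algebra O K]
  [IsLocalization.Away w K] [CommRing A] [Algebra K A] [Algebra.FormallySmooth K A] [Fintype n]
  [Fintype m] (x : n → A) (g : m → MvPolynomial n K),
    Function.Surjective (aeval x : MvPolynomial n K →ₐ[K] A) →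
    Ideal.span (Set.range g) = RingHom.ker (aeval x : MvPolynomial n K →ₐ[K] A) →
    ∀ c c₂ : ℕ, ∃ c₁ : ℕ, ∀ (C C' : Type) [CommRing C] [CommRing C'] [Algebra O C] [Algebra C C']
      [Algebra K C'] [Algebra O C'] [IsScalarTower O C C'] [IsScalarTower O K C'] (b : Ideal C),
      Newt b → ∀ z₀ : n → C', (∀ j, ∃ a : C, algebraMap O C' w ^ c * z₀ j = algebraMap C C' a) →
        (∀ i, ∃ β ∈ b, aeval z₀ (g i) = algebraMap O C' w ^ c₁ * algebraMap C C' β) →
        ∃ φ : A →ₐ[K] C', ∀ j, ∃ β ∈ b,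
          φ (x j) = z₀ j + algebraMap O C' w ^ c₂ * algebraMap C C' β

end Pool.Agent.MP_855f4c_ag.G

end

section

/-! Permanence properties of `Newt`. -/

set_option autoImplicit false

open MvPolynomial

namespace Pool.Agent.MP_855f4c_ag.G

variable {A : Type} [CommRing A] {I : Ideal A}

theorem Newt.mono (h : Newt I) {J : Ideal A} (hJ : J ≤ I) : Newt J :=
  fun m _ T hT => h m T fun i => Ideal.map_mono hJ (hT i)

theorem Newt.unit (h : Newt I) {x : A} (hx : x ∈ I) : IsUnit (1 + x) := by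
  obtain ⟨μ, hμ⟩ := h Unit (fun _ => C x * (X () + 1)) fun _ =>
    Ideal.mul_mem_right _ _ (Ideal.mem_map_of_mem _ hx)
  have := hμ ()
  simp only [map_add, map_mul, eval_C, eval_X, map_one] at this
  exact IsUnit.of_mul_eq_one (μ () + 1) (by linear_combination this)

theorem sub_const {m : Type} (Q : MvPolynomial m A) :
    Q - C (constantCoeff Q) ∈ Ideal.span (Set.range (X : m → MvPolynomial m A)) := by
  induction Q using MvPolynomial.induction_on with
  | C a => simp
  | add p q hp hq => convert Ideal.add_mem _ hp hq using 1; simp only [map_add]; ring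
  | mul_X p j _ =>
    simp only [map_mul, constantCoeff_X, mul_zero, map_zero, sub_zero]
    exact Ideal.mul_mem_left _ _ (Ideal.subset_span ⟨j, rfl⟩)

theorem sub_const_mem {m : Type} {Q : MvPolynomial m A}
    (h : Q ∈ I.map C ⊔ Ideal.span (Set.range (X : m → MvPolynomial m A)) ^ 2) :
    constantCoeff Q ∈ I ∧ Q - C (constantCoeff Q) ∈
      (I.map C ⊔ Ideal.span (Set.range X)) * Ideal.span (Set.range (X : m → MvPolynomial m A)) := by
  obtain ⟨a, ha, b, hb, rfl⟩ := Submodule.mem_sup.mp h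
  have hb0 : constantCoeff b = 0 := by
    have : Ideal.span (Set.range (X : m → MvPolynomial m A)) ≤ RingHom.ker constantCoeff := by
      rw [Ideal.span_le]; rintro _ ⟨i, rfl⟩; simp
    exact this (Ideal.pow_le_self two_ne_zero hb)
  have h1 : ∀ q : MvPolynomial m A, constantCoeff (q * a) ∈ I ∧ q * a - C (constantCoeff (q * a)) ∈
      I.map C * Ideal.span (Set.range (X : m → MvPolynomial m A)) := by
    refine Submodule.span_induction (p := fun a _ => ∀ q : MvPolynomial m A,
      constantCoeff (q * a) ∈ I ∧ q * a - C (constantCoeff (q * a)) ∈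
        I.map C * Ideal.span (Set.range (X : m → MvPolynomial m A))) ?_ ?_ ?_ ?_ ha
    · rintro _ ⟨x, hx, rfl⟩ q
      refine ⟨by simpa using I.mul_mem_left _ hx, ?_⟩
      convert Ideal.mul_mem_mul (Ideal.mem_map_of_mem C hx) (sub_const q) using 1
      simp only [map_mul, constantCoeff_C]; ring
    · simp
    · intro x y _ _ hx hy q
      refine ⟨by simpa only [mul_add, map_add] using I.add_mem (hx q).1 (hy q).1, ?_⟩
      convert Ideal.add_mem _ (hx q).2 (hy q).2 using 1
      simp only [mul_add, map_add]; ring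
    · intro r x _ hx q
      simpa only [smul_eq_mul, mul_assoc] using hx (q * r)
  have h2 := h1 1
  rw [one_mul] at h2
  rw [map_add, hb0, add_zero]
  refine ⟨h2.1, ?_⟩
  rw [add_sub_right_comm]
  refine Ideal.add_mem _ (Ideal.mul_mono_left le_sup_left h2.2) ?_
  rw [pow_two] at hb
  exact Ideal.mul_mono_left le_sup_right hb

theorem Newt.strong (h : Newt I) {m : Type} [Fintype m] (T : m → MvPolynomial m A)
    (hT : ∀ i, T i ∈ I.map C ⊔ Ideal.span (Set.range X) ^ 2) :
    ∃ μ : m → A, (∀ i, μ i ∈ I) ∧ ∀ i, μ i + eval μ (T i) = 0 := by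
  classical
  let c : m → A := fun i => constantCoeff (T i)
  have hc : ∀ i, c i ∈ I := fun i => (sub_const_mem (hT i)).1
  let s : MvPolynomial m A →ₐ[A] MvPolynomial (m × m) A :=
    aeval fun i => (∑ j, X (i, j) * C (c j)) - C (c i)
  let K : Ideal (MvPolynomial (m × m) A) := Ideal.span (Set.range fun j => C (c j))
  have hK : K ≤ I.map C := by
    rw [Ideal.span_le]; rintro _ ⟨j, rfl⟩; exact Ideal.mem_map_of_mem _ (hc j)
  have h1 : (Ideal.span (Set.range X)).map s ≤ K := by
    rw [Ideal.map_span, Ideal.span_le]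
    rintro _ ⟨_, ⟨i, rfl⟩, rfl⟩
    rw [aeval_X]
    exact K.sub_mem (K.sum_mem fun j _ => K.mul_mem_left _ (Ideal.subset_span ⟨j, rfl⟩))
      (Ideal.subset_span ⟨i, rfl⟩)
  have h2 : (I.map C).map s ≤ I.map C := by
    rw [Ideal.map_le_iff_le_comap, Ideal.map_le_iff_le_comap]
    intro x hx
    rw [Ideal.mem_comap, Ideal.mem_comap, aeval_C]
    exact Ideal.mem_map_of_mem _ hx
  have h3 : ∀ i, ∃ Θ : m → MvPolynomial (m × m) A, (∀ j, Θ j ∈ I.map C) ∧
      ∑ j, Θ j * C (c j) = s (T i) - C (c i) := fun i => by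
    have h4 := Ideal.mem_map_of_mem s (sub_const_mem (hT i)).2
    rw [Ideal.map_mul, Ideal.map_sup, map_sub, aeval_C] at h4
    obtain ⟨a, ha, h5⟩ := (Submodule.mem_ideal_smul_span_iff_exists_sum (I.map C) _ _).mp
      (Ideal.mul_mono (sup_le h2 (h1.trans hK)) h1 h4)
    exact ⟨a, ha, by rw [Finsupp.sum_fintype _ _ (by simp)] at h5; exact h5⟩
  choose Θ hΘ hs using h3
  obtain ⟨U, hU⟩ := h (m × m) (fun ij => Θ ij.1 ij.2) fun ij => hΘ _ _
  refine ⟨fun i => eval U (s (X i)), fun i => ?_, fun i => ?_⟩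
  · simp only [s, aeval_X, map_sub, map_sum, map_mul, eval_C]
    exact I.sub_mem (I.sum_mem fun j _ => I.mul_mem_left _ (hc j)) (hc i)
  · have h4 : eval (fun i => eval U (s (X i))) (T i) = eval U (s (T i)) := by
      have := comp_aeval_apply (aeval U : MvPolynomial (m × m) A →ₐ[A] A)
        (f := fun i => (∑ j, X (i, j) * C (c j)) - C (c i)) (T i)
      simp only [s, aeval_X]
      exact this.symm
    have h5 := congrArg (eval U) (hs i)
    rw [h4, ← sub_add_cancel (eval U (s (T i))) (eval U (C (c i))), ← map_sub, ← hs]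
    simp only [s, aeval_X, map_sub, map_sum, map_mul, eval_C, eval_X]
    have h6 : ∑ j, (U (i, j) + eval U (Θ i j)) * c j = 0 :=
      Finset.sum_eq_zero fun j _ => by rw [hU (i, j), zero_mul]
    simp only [add_mul, Finset.sum_add_distrib] at h6
    linear_combination h6

variable {D : Type} [CommRing D] [Algebra A D]

theorem expand0 {k σ : Type} [Fintype k] (g : k → D) (hg : Submodule.span A (Set.range g) = ⊤)
    (Q : MvPolynomial σ D) : ∃ P : k → MvPolynomial σ A,
      Q = ∑ a, C (g a) * map (algebraMap A D) (P a) := by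
  induction Q using MvPolynomial.induction_on with
  | C d =>
    obtain ⟨c, hc⟩ := (Submodule.mem_span_range_iff_exists_fun A).mp (hg ▸ Submodule.mem_top (x := d))
    refine ⟨fun a => C (c a), ?_⟩
    rw [← hc, map_sum]
    exact Finset.sum_congr rfl fun a _ => by rw [map_C, ← map_mul, Algebra.smul_def, mul_comm]
  | add p q hp hq =>
    obtain ⟨P, rfl⟩ := hp
    obtain ⟨Q, rfl⟩ := hq
    exact ⟨P + Q, by simp only [Pi.add_apply, map_add, mul_add, Finset.sum_add_distrib]⟩
  | mul_X p j hp =>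
    obtain ⟨P, rfl⟩ := hp
    exact ⟨fun a => P a * X j, by simp only [map_mul, map_X, Finset.sum_mul, mul_assoc]⟩

theorem expand1 {k σ : Type} [Fintype k] (g : k → D) (hg : Submodule.span A (Set.range g) = ⊤)
    {Q : MvPolynomial σ D} (hQ : Q ∈ (I.map (algebraMap A D)).map C) :
    ∃ P : k → MvPolynomial σ A, (∀ a, P a ∈ I.map C) ∧
      Q = ∑ a, C (g a) * map (algebraMap A D) (P a) := by
  rw [Ideal.map_map] at hQ
  rw [← one_mul Q]
  generalize (1 : MvPolynomial σ D) = q
  revert q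
  refine Submodule.span_induction (p := fun Q _ => ∀ q, ∃ P : k → MvPolynomial σ A,
    (∀ a, P a ∈ I.map C) ∧ q * Q = ∑ a, C (g a) * map (algebraMap A D) (P a)) ?_ ?_ ?_ ?_ hQ
  · rintro _ ⟨x, hx, rfl⟩ q
    obtain ⟨P, rfl⟩ := expand0 g hg q
    exact ⟨fun a => P a * C x, fun a => Ideal.mul_mem_left _ _ (Ideal.mem_map_of_mem _ hx), by
      simp only [map_mul, map_C, Finset.sum_mul, mul_assoc, RingHom.comp_apply]⟩
  · exact fun q => ⟨0, by simp, by simp⟩
  · intro x y _ _ hx hy q
    obtain ⟨P, hP, h1⟩ := hx q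
    obtain ⟨Q, hQ, h2⟩ := hy q
    exact ⟨P + Q, fun a => Ideal.add_mem _ (hP a) (hQ a), by
      simp only [Pi.add_apply, map_add, mul_add, Finset.sum_add_distrib, h1, h2]⟩
  · intro r x _ hx q
    simpa only [smul_eq_mul, mul_assoc] using hx (q * r)

theorem Newt.finite (h : Newt I) [Module.Finite A D] : Newt (I.map (algebraMap A D)) := by
  intro m _ T hT
  obtain ⟨k, g, hg⟩ := Module.Finite.exists_fin (R := A) (M := D)
  let s : MvPolynomial m D →ₐ[D] MvPolynomial (m × Fin k) D := aeval fun i => ∑ a, C (g a) * X (i, a)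
  have h1 : ∀ i, s (T i) ∈ (I.map (algebraMap A D)).map C := fun i => by
    have h2 : ((I.map (algebraMap A D)).map C).map s ≤ (I.map (algebraMap A D)).map C := by
      rw [Ideal.map_le_iff_le_comap, Ideal.map_le_iff_le_comap]
      intro x hx
      rw [Ideal.mem_comap, Ideal.mem_comap, aeval_C]
      exact Ideal.mem_map_of_mem _ hx
    exact h2 (Ideal.mem_map_of_mem s (hT i))
  choose P hP hs using fun i => expand1 g hg (h1 i)
  obtain ⟨μ, hμ⟩ := h (m × Fin k) (fun ia => P ia.1 ia.2) fun ia => hP _ _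
  refine ⟨fun i => ∑ a, g a * algebraMap A D (μ (i, a)), fun i => ?_⟩
  have h2 : eval (fun i => ∑ a, g a * algebraMap A D (μ (i, a))) (T i) =
      eval (fun ia => algebraMap A D (μ ia)) (s (T i)) := by
    have := comp_aeval_apply (aeval fun ia => algebraMap A D (μ ia) :
      MvPolynomial (m × Fin k) D →ₐ[D] D) (f := fun i => ∑ a, C (g a) * X (i, a)) (T i)
    simp only [map_sum, map_mul, aeval_C, aeval_X] at this
    exact this.symm
  rw [h2, hs, map_sum, ← Finset.sum_add_distrib]
  refine Finset.sum_eq_zero fun a _ => ?_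
  have h3 := congrArg (algebraMap A D) (hμ (i, a))
  rw [map_add, map_zero, map_eval] at h3
  rw [map_mul, eval_C, ← mul_add]
  exact mul_eq_zero_of_right _ h3

theorem Newt.integral (h : Newt I) [Algebra.IsIntegral A D] : Newt (I.map (algebraMap A D)) := by
  classical
  intro m _ T hT
  have h1 : ∀ x ∈ (I.map (algebraMap A D)).map (C (σ := m)), ∃ S : Finset D,
      ∀ D₀ : Subalgebra A D, (S : Set D) ⊆ D₀ →
        ∃ y ∈ (I.map (algebraMap A D₀)).map (C (σ := m)), map D₀.val.toRingHom y = x := by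
    intro x hx
    rw [Ideal.map_map] at hx
    refine Submodule.span_induction (p := fun x _ => ∃ S : Finset D,
      ∀ D₀ : Subalgebra A D, (S : Set D) ⊆ D₀ →
        ∃ y ∈ (I.map (algebraMap A D₀)).map (C (σ := m)), map D₀.val.toRingHom y = x)
      ?_ ?_ ?_ ?_ hx
    · rintro _ ⟨a, ha, rfl⟩
      exact ⟨∅, fun D₀ _ => ⟨_, Ideal.mem_map_of_mem _ (Ideal.mem_map_of_mem _ ha), map_C _ _⟩⟩
    · exact ⟨∅, fun D₀ _ => ⟨0, Ideal.zero_mem _, map_zero _⟩⟩
    · rintro x y _ _ ⟨S, hS⟩ ⟨S', hS'⟩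
      refine ⟨S ∪ S', fun D₀ h0 => ?_⟩
      rw [Finset.coe_union, Set.union_subset_iff] at h0
      obtain ⟨a, ha, rfl⟩ := hS D₀ h0.1
      obtain ⟨b, hb, rfl⟩ := hS' D₀ h0.2
      exact ⟨a + b, Ideal.add_mem _ ha hb, map_add _ _ _⟩
    · rintro r x _ ⟨S, hS⟩
      refine ⟨S ∪ r.coeffs, fun D₀ h0 => ?_⟩
      rw [Finset.coe_union, Set.union_subset_iff] at h0
      obtain ⟨a, ha, rfl⟩ := hS D₀ h0.1
      obtain ⟨b, rfl⟩ : r ∈ Set.range (map D₀.val.toRingHom) :=
        mem_range_map_iff_coeffs_subset.mpr fun z hz => ⟨⟨z, h0.2 hz⟩, rfl⟩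
      exact ⟨b * a, Ideal.mul_mem_left _ _ ha, map_mul _ _ _⟩
  choose S hS using fun i => h1 _ (hT i)
  let D₀ := Algebra.adjoin A ((Finset.univ.biUnion S : Finset D) : Set D)
  have : Module.Finite A D₀ := Algebra.finite_adjoin_of_finite_of_isIntegral
    (Finset.finite_toSet _) fun x _ => Algebra.IsIntegral.isIntegral x
  choose T₀ h2 h3 using fun i => hS i D₀ fun x hx => Algebra.subset_adjoin
    (Finset.mem_coe.mpr (Finset.mem_biUnion.mpr ⟨i, Finset.mem_univ _, hx⟩))
  obtain ⟨μ, hμ⟩ := h.finite m T₀ h2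
  refine ⟨fun i => μ i, fun i => ?_⟩
  have h4 := congrArg D₀.val.toRingHom (hμ i)
  rw [map_add, map_zero, map_eval, h3] at h4
  exact h4

theorem Newt.idem (h : Newt I) {x : A} (hx : x * x - x ∈ I) :
    ∃ y, IsIdempotentElem y ∧ y - x ∈ I := by
  obtain ⟨μ, h1, h2⟩ := h.strong (m := Unit)
    (fun _ => C (x * x - x) * (1 + 4 * X ()) + C ((2 * x - 1) ^ 2) * X () ^ 2) fun _ =>
      Submodule.add_mem_sup (Ideal.mul_mem_right _ _ (Ideal.mem_map_of_mem _ hx))
        (Ideal.mul_mem_left _ _ (Ideal.pow_mem_pow (Ideal.subset_span (Set.mem_range_self ())) 2))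
  refine ⟨x + (2 * x - 1) * μ (), ?_, by simpa using I.mul_mem_left _ (h1 ())⟩
  have := h2 ()
  simp only [map_add, map_mul, eval_C, eval_X, map_one, map_pow, map_ofNat] at this
  rw [IsIdempotentElem]
  linear_combination this

theorem Newt.hp (h : Newt I) : HP I := by
  intro D _ _ _ _
  have h1 := h.integral (D := D)
  refine ⟨Ideal.Quotient.nontrivial_iff.mpr fun h2 => ?_, fun e he => ?_⟩
  · simpa using h1.unit (x := -1) (h2 ▸ Submodule.mem_top)
  · obtain ⟨x, rfl⟩ := Ideal.Quotient.mk_surjective e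
    obtain ⟨y, h2, h3⟩ := h1.idem (x := x) (Ideal.Quotient.eq.mp he)
    rw [← Ideal.Quotient.eq.mpr h3]
    rcases IsIdempotentElem.iff_eq_zero_or_one.mp h2 with rfl | rfl
    · exact .inl (map_zero _)
    · exact .inr (map_one _)

theorem newt : NEWT_s := fun _ _ _ h =>
  ⟨fun _ _ _ _ => h.integral, fun _ => h.mono, fun _ => h.unit, h.hp⟩

end Pool.Agent.MP_855f4c_ag.G

end

section

/-! Model-free algebra: weighted Nullstellensatz, coefficients, square-zero variables. -/

set_option autoImplicit false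

open MvPolynomial

namespace Pool.Agent.MP_855f4c_ag.G.La

section wt
variable {K σ M : Type*} [CommRing K] [AddCommGroup M] (w : σ → M)

theorem comp_mul {v : MvPolynomial σ K} {m : M} (hv : v.IsWeightedHomogeneous w m) (n : M)
    (c : MvPolynomial σ K) :
    weightedHomogeneousComponent w (n + m) (c * v) = weightedHomogeneousComponent w n c * v := by
  classical
  induction c using MvPolynomial.induction_on' with
  | monomial d r =>
    have h := isWeightedHomogeneous_monomial w d r rfl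
    rw [weightedHomogeneousComponent_of_mem (h.mul hv), weightedHomogeneousComponent_of_mem h]
    simp
  | add p q hp hq => rw [add_mul, map_add, hp, hq, map_add, add_mul]

theorem comp_mem {ι : Type*} {r : ι → MvPolynomial σ K} {ρ : ι → M}
    (hr : ∀ i, (r i).IsWeightedHomogeneous w (ρ i)) (n : M) {y : MvPolynomial σ K}
    (hy : y ∈ Ideal.span (Set.range r)) :
    weightedHomogeneousComponent w n y ∈ Ideal.span (Set.range r) := by
  suffices h : ∀ c, weightedHomogeneousComponent w n (c * y) ∈ Ideal.span (Set.range r) by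
    simpa using h 1
  induction hy using Submodule.span_induction with
  | mem _ h =>
    obtain ⟨i, rfl⟩ := h
    intro c
    rw [← sub_add_cancel n (ρ i), comp_mul w (hr i)]
    exact Ideal.mul_mem_left _ _ (Ideal.subset_span ⟨i, rfl⟩)
  | zero => simp
  | add _ _ _ _ h h' => exact fun c => by rw [mul_add, map_add]; exact add_mem (h c) (h' c)
  | smul a _ _ h => exact fun c => by rw [smul_eq_mul, ← mul_assoc]; exact h _

/-- A homogeneous element of the ideal `(r, v)` has homogeneous coefficients modulo `r`. -/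
theorem comp_sum {ι α : Type*} [Fintype α] {r : ι → MvPolynomial σ K} {ρ : ι → M}
    (hr : ∀ i, (r i).IsWeightedHomogeneous w (ρ i)) {v : α → MvPolynomial σ K} {m : α → M}
    (hv : ∀ a, (v a).IsWeightedHomogeneous w (m a)) {g : MvPolynomial σ K} {n : M}
    (hg : g.IsWeightedHomogeneous w n)
    (h : g ∈ Ideal.span (Set.range r) ⊔ Ideal.span (Set.range v)) :
    ∃ lam : α → MvPolynomial σ K, (∀ a, (lam a).IsWeightedHomogeneous w (n - m a)) ∧
      ∑ a, lam a * v a - g ∈ Ideal.span (Set.range r) := by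
  obtain ⟨y, hy, z, hz, e⟩ := Submodule.mem_sup.1 h
  obtain ⟨c, rfl⟩ := Ideal.mem_span_range_iff_exists_fun.1 hz
  refine ⟨fun a => weightedHomogeneousComponent w (n - m a) (c a),
    fun a => weightedHomogeneousComponent_isWeightedHomogeneous _ _, ?_⟩
  have e' := congrArg (weightedHomogeneousComponent w n) e
  rw [weightedHomogeneousComponent_eq_self hg, map_add, map_sum] at e'
  have e2 (a) : weightedHomogeneousComponent w n (c a * v a) =
      weightedHomogeneousComponent w (n - m a) (c a) * v a := by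
    rw [← comp_mul w (hv a), sub_add_cancel]
  rw [← e', Finset.sum_congr rfl fun a _ => e2 a, sub_add_cancel_right]
  exact neg_mem (comp_mem w hr n hy)

/-- Substitution of homogeneous polynomials. -/
theorem subst {τ N : Type*} [AddCommMonoid N] {u : τ → N} (φ : N →+ M) {g : τ → MvPolynomial σ K}
    (hg : ∀ t, (g t).IsWeightedHomogeneous w (φ (u t))) {F : MvPolynomial τ K} {n : N}
    (hF : F.IsWeightedHomogeneous u n) : (aeval g F).IsWeightedHomogeneous w (φ n) := by
  induction hF using IsWeightedHomogeneous.induction_on with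
  | zero => simpa using isWeightedHomogeneous_zero K w _
  | add _ _ _ _ h h' => simpa using h.add h'
  | monomial d r hr =>
    rw [aeval_monomial, ← hr, Finsupp.weight_apply, Finsupp.sum, map_sum]
    exact (IsWeightedHomogeneous.prod _ _ _ fun t _ => by
      rw [map_nsmul]; exact (hg t).pow _).C_mul r

/-- The coefficients of a product of linear forms. -/
noncomputable def vec {S J : Type*} [CommRing S] [Fintype J] (x y : J → S) (a : ℕ) : S :=
  (∏ j, (Polynomial.C (x j) + Polynomial.C (y j) * Polynomial.X)).coeff a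

theorem vec_map {S T J : Type*} [CommRing S] [CommRing T] [Fintype J] (φ : S →+* T) (x y : J → S)
    (a : ℕ) : φ (vec x y a) = vec (fun j => φ (x j)) (fun j => φ (y j)) a := by
  simp [vec, ← Polynomial.coeff_map, Polynomial.map_prod]

theorem vec_hom {J : Type*} [Fintype J] {x y : J → MvPolynomial σ K} {e : J → M}
    (hx : ∀ j, (x j).IsWeightedHomogeneous w (e j)) (hy : ∀ j, (y j).IsWeightedHomogeneous w (e j))
    (a : ℕ) : (vec x y a).IsWeightedHomogeneous w (∑ j, e j) := by
  classical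
  unfold vec
  induction (Finset.univ : Finset J) using Finset.induction_on generalizing a with
  | empty =>
    rw [Finset.prod_empty, Finset.sum_empty, Polynomial.coeff_one]
    split_ifs
    exacts [isWeightedHomogeneous_one K w, isWeightedHomogeneous_zero K w _]
  | insert j s hj ih =>
    rw [Finset.prod_insert hj, Finset.sum_insert hj, add_mul, mul_assoc, Polynomial.coeff_add,
      Polynomial.coeff_C_mul, Polynomial.coeff_C_mul]
    refine ((hx j).mul (ih a)).add ((hy j).mul ?_)
    cases a with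
    | zero => simpa using isWeightedHomogeneous_zero K w _
    | succ a => rw [Polynomial.coeff_X_mul]; exact ih a

end wt

theorem vec_ne {S J : Type*} [CommRing S] [IsDomain S] [Fintype J] {x y : J → S}
    (h : ∀ j, x j ≠ 0 ∨ y j ≠ 0) : ∃ a ≤ Fintype.card J, vec x y a ≠ 0 := by
  have h0 : ∏ j, (Polynomial.C (x j) + Polynomial.C (y j) * Polynomial.X) ≠ 0 :=
    Finset.prod_ne_zero_iff.2 fun j _ e => (h j).elim
      (fun h => h (by simpa using congrArg (Polynomial.coeff · 0) e))
      fun h => h (by simpa using congrArg (Polynomial.coeff · 1) e)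
  refine ⟨_, (Polynomial.natDegree_prod_le _ _).trans ?_, Polynomial.leadingCoeff_ne_zero.2 h0⟩
  rw [← Finset.card_univ, Finset.card_eq_sum_ones]
  exact Finset.sum_le_sum fun j _ => by rw [add_comm]; exact Polynomial.natDegree_linear_le

section ns
variable {K σ ι : Type*} (Ω : Type*) [Field K] [Field Ω] [IsAlgClosed Ω] [Algebra K Ω] [Finite σ]

/-- Nullstellensatz. -/
theorem ns (r : ι → MvPolynomial σ K) (g : MvPolynomial σ K)
    (h : ∀ x : σ → Ω, (∀ i, aeval x (r i) = 0) → aeval x g = 0) :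
    ∃ N : ℕ, g ^ N ∈ Ideal.span (Set.range r) := by
  have : g ∈ (Ideal.span (Set.range r)).radical := by
    rw [← vanishingIdeal_zeroLocus_eq_radical (K := Ω), mem_vanishingIdeal_iff]
    exact fun x hx => h x fun i => hx _ (Ideal.subset_span ⟨i, rfl⟩)
  exact this

/-- Weighted Nullstellensatz. -/
theorem wns {M α : Type*} [AddCommGroup M] [Fintype α] (w : σ → M) {r : ι → MvPolynomial σ K}
    {ρ : ι → M} (hr : ∀ i, (r i).IsWeightedHomogeneous w (ρ i)) {v : α → MvPolynomial σ K}
    {m : α → M} (hv : ∀ a, (v a).IsWeightedHomogeneous w (m a))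
    (h : ∀ x : σ → Ω, (∀ i, aeval x (r i) = 0) → ∃ a, aeval x (v a) ≠ 0) :
    ∃ lam : α → MvPolynomial σ K, (∀ a, (lam a).IsWeightedHomogeneous w (-m a)) ∧
      ∑ a, lam a * v a - 1 ∈ Ideal.span (Set.range r) := by
  obtain ⟨N, hN⟩ := ns Ω (Sum.elim r v) 1 fun x hx =>
    (h x fun i => hx (.inl i)).elim fun a ha => (ha (hx (.inr a))).elim
  rw [one_pow, Set.Sum.elim_range, Ideal.span_union] at hN
  simpa using comp_sum w hr hv (isWeightedHomogeneous_one K w) hN

end ns

/-- A unitriangular pairing makes the vectors independent. -/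
theorem tri {Ω I V : Type*} [Ring Ω] [AddCommGroup V] [Module Ω V] [Fintype I] [LinearOrder I]
    (v : I → V) (lam : I → V →ₗ[Ω] Ω) (h1 : ∀ i, lam i (v i) = 1)
    (h0 : ∀ i j, i < j → lam i (v j) = 0) : LinearIndependent Ω v := by
  refine Fintype.linearIndependent_iff.2 fun c hc i => ?_
  induction i using WellFoundedLT.induction with
  | ind i ih =>
    have e := congrArg (lam i) hc
    rw [map_sum, map_zero, Finset.sum_eq_single i (fun j _ hj => ?_) (by simp)] at e
    · simpa [h1] using e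
    · rcases lt_or_gt_of_ne hj with h | h
      · simp [ih j h]
      · simp [h0 i j h]

section coef
variable {R κ Λ : Type*} [CommRing R] [Fintype κ] [DecidableEq Λ] (π : κ → Λ)

/-- The substitution `X_l ↦ ∑_(π k = l) X_k`. -/
noncomputable def sg : MvPolynomial Λ R →ₐ[R] MvPolynomial κ R :=
  aeval fun l => ∑ k ∈ Finset.univ.filter fun k => π k = l, X k

theorem pd_sg (k : κ) (P : MvPolynomial Λ R) : pderiv k (sg π P) = sg π (pderiv (π k) P) := by
  classical
  induction P using MvPolynomial.induction_on with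
  | C a => simp [sg]
  | add p q hp hq => simp only [map_add, hp, hq]
  | mul_X p l hp =>
    have : pderiv k (sg π (X l : MvPolynomial Λ R)) = sg π (pderiv (π k) (X l)) := by
      by_cases h : π k = l
      · subst h
        simp [sg, pderiv_X, Pi.single_apply]
      · rw [pderiv_X_of_ne (Ne.symm h), map_zero, sg, aeval_X, map_sum]
        refine Finset.sum_eq_zero fun j hj => pderiv_X_of_ne ?_
        rintro rfl
        exact h (Finset.mem_filter.1 hj).2
    rw [map_mul, pderiv_mul, pderiv_mul, hp, this, map_add, map_mul, map_mul]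

theorem coef_aux [Fintype Λ] (s : Finset κ) (P : MvPolynomial Λ R) :
    coeff (∑ k ∈ s, Finsupp.single k 1) (sg π P) =
      (∏ l, ((∑ k ∈ s, Finsupp.single (π k) 1 : Λ →₀ ℕ) l).factorial : ℕ) *
        coeff (∑ k ∈ s, Finsupp.single (π k) 1) P := by
  classical
  induction s using Finset.induction_on generalizing P with
  | empty =>
    have : (constantCoeff : MvPolynomial κ R →+* R).comp (sg (R := R) π).toRingHom =
        constantCoeff := MvPolynomial.ringHom_ext (fun r => by simp [sg]) fun l => by simp [sg]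
    simpa [constantCoeff_eq] using RingHom.congr_fun this P
  | insert k s hk ih =>
    have h0 : (∑ j ∈ s, Finsupp.single j 1 : κ →₀ ℕ) k = 0 := by
      rw [Finsupp.finsetSum_apply]
      exact Finset.sum_eq_zero fun j hj => Finsupp.single_eq_of_ne fun e => hk (e ▸ hj)
    have h1 := coeff_pderiv (i := k) (sg π P) (∑ j ∈ s, Finsupp.single j 1)
    rw [h0, pd_sg, ih, coeff_pderiv] at h1
    rw [Finset.sum_insert hk, Finset.sum_insert hk, add_comm (Finsupp.single k 1),
      add_comm (Finsupp.single (π k) 1)]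
    generalize (∑ j ∈ s, Finsupp.single (π j) 1 : Λ →₀ ℕ) = d at h1 ⊢
    have h2 : ∏ l, ((d + Finsupp.single (π k) 1 : Λ →₀ ℕ) l).factorial =
        (∏ l, (d l).factorial) * (d (π k) + 1) := by
      rw [← Finset.mul_prod_erase _ _ (Finset.mem_univ (π k)),
        ← Finset.mul_prod_erase _ (fun l => (d l).factorial) (Finset.mem_univ (π k)),
        Finset.prod_congr rfl (g := fun l => (d l).factorial) fun l hl => by
          simp [Finsupp.single_eq_of_ne (Finset.ne_of_mem_erase hl)]]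
      simp [Nat.factorial_succ]
      ring
    rw [h2]
    push_cast at h1 ⊢
    linear_combination -h1

/-- The coefficient of `∏ X_k` after the substitution. -/
theorem coef [Fintype Λ] (n : Λ →₀ ℕ)
    (hn : ∀ l, (Finset.univ.filter fun k => π k = l).card = n l) (P : MvPolynomial Λ R) :
    coeff (∑ k, Finsupp.single k 1) (sg π P) = (∏ l, (n l).factorial : ℕ) * coeff n P := by
  have : (∑ k, Finsupp.single (π k) 1 : Λ →₀ ℕ) = n := by
    ext l
    rw [← hn, Finsupp.finsetSum_apply, Finset.card_filter]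
    exact Finset.sum_congr rfl fun k _ => Finsupp.single_apply
  rw [coef_aux, this]

end coef

section perm
variable {κ : Type*} [Fintype κ]

theorem deg_one : (∑ k : κ, Finsupp.single k 1 : κ →₀ ℕ).degree = Fintype.card κ := by
  simp [map_sum]

theorem one_apply (j : κ) : (∑ k : κ, Finsupp.single k 1 : κ →₀ ℕ) j = 1 := by
  classical
  simp [Finsupp.finsetSum_apply, Finsupp.single_apply]

theorem perm_comm {R A : Type*} [CommRing A] [CommRing R] [Algebra A R] (x : κ → R)
    (h2 : ∀ k, x k * x k = 0) {P : MvPolynomial κ A} (hP : P.IsHomogeneous (Fintype.card κ)) :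
    aeval x P = coeff (∑ k, Finsupp.single k 1) P • ∏ k, x k := by
  classical
  induction hP using IsWeightedHomogeneous.induction_on with
  | zero => simp
  | add _ _ _ _ h h' => rw [map_add, h, h', coeff_add, add_smul]
  | monomial d r hr =>
    rw [aeval_monomial, coeff_monomial, Finsupp.prod_fintype _ _ (by simp)]
    split_ifs with h
    · simp [h, one_apply, Algebra.smul_def]
    · obtain ⟨k, hk⟩ : ∃ k, 2 ≤ d k := by
        by_contra! H
        refine h (Finsupp.ext fun j => ?_)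
        rw [one_apply]
        have hr' : d.degree = Fintype.card κ := by rw [Finsupp.degree_eq_weight_one]; exact hr
        rw [Finsupp.degree_eq_sum, ← Finset.card_univ, Finset.card_eq_sum_ones] at hr'
        exact (Finset.sum_eq_sum_iff_of_le fun i _ => Nat.lt_succ_iff.1 (H i)).1 hr' j
          (Finset.mem_univ j)
      rw [Finset.prod_eq_zero (f := fun k => x k ^ d k) (Finset.mem_univ k)
        (pow_eq_zero_of_le hk (by rw [sq, h2])), mul_zero, zero_smul]

theorem lin_hom (ℓ : List (κ → ℤ)) :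
    (ℓ.map fun a => ∑ k, a k • (X k : MvPolynomial κ ℤ)).prod.IsHomogeneous ℓ.length := by
  induction ℓ with
  | nil => exact isHomogeneous_one _ _
  | cons a ℓ ih =>
    rw [List.map_cons, List.prod_cons, List.length_cons, add_comm]
    refine IsHomogeneous.mul (IsHomogeneous.sum _ _ _ fun k _ => ?_) ih
    rw [← C_mul']
    exact (isHomogeneous_X _ k).C_mul _

/-- A nonzero coefficient forces the number of factors. -/
theorem len_eq (ℓ : List (κ → ℤ)) (h : coeff (∑ k, Finsupp.single k 1)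
    (ℓ.map fun a => ∑ k, a k • (X k : MvPolynomial κ ℤ)).prod ≠ 0) :
    ℓ.length = Fintype.card κ := by
  by_contra e
  exact h ((lin_hom ℓ).coeff_eq_zero (by rw [deg_one]; exact Ne.symm e))

/-- Products of linear forms in commuting elements of square zero. -/
theorem perm {R : Type*} [Ring R] (x : κ → R) (hc : ∀ i j, Commute (x i) (x j))
    (h2 : ∀ k, x k * x k = 0) (ℓ : List (κ → ℤ)) (hl : ℓ.length = Fintype.card κ) (o : List κ)
    (ho : o.Nodup) (ho' : ∀ k, k ∈ o) :
    (ℓ.map fun a => ∑ k, a k • x k).prod = coeff (∑ k, Finsupp.single k 1)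
      (ℓ.map fun a => ∑ k, a k • (X k : MvPolynomial κ ℤ)).prod • (o.map x).prod := by
  classical
  have := Algebra.isMulCommutative_adjoin ℤ (s := Set.range x) (by
    rintro _ ⟨i, rfl⟩ _ ⟨j, rfl⟩
    exact hc i j)
  let : CommRing (Algebra.adjoin ℤ (Set.range x)) :=
    { (inferInstance : Ring (Algebra.adjoin ℤ (Set.range x))) with
      mul_comm := fun a b => this.is_comm.comm a b }
  let y : κ → Algebra.adjoin ℤ (Set.range x) := fun k => ⟨x k, Algebra.subset_adjoin ⟨k, rfl⟩⟩
  have h := perm_comm y (fun k => Subtype.ext (h2 k)) (hl ▸ lin_hom ℓ)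
  have e : ∏ k, y k = (o.map y).prod := by
    rw [← List.prod_toFinset y ho, Finset.eq_univ_of_forall fun k => List.mem_toFinset.2 (ho' k)]
  have h' := congrArg (Algebra.adjoin ℤ (Set.range x)).val h
  rw [e, map_zsmul, map_list_prod, map_list_prod, map_list_prod] at h'
  simpa [List.map_map, Function.comp_def, y] using h'

end perm

end Pool.Agent.MP_855f4c_ag.G.La

end

section

/-! h12g, row YJ, part 1 (helper9): points of `Proj` with values in a ring. -/

set_option autoImplicit false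

open CategoryTheory Limits AlgebraicGeometry HomogeneousLocalization

namespace Pool.Agent.MP_855f4c_ag.T.YJ

variable {σ : Type} {A : Type} [CommRing A] [SetLike σ A] [AddSubgroupClass σ A] (𝒜 : ℕ → σ)
  [GradedRing 𝒜] {C C' : Type} [CommRing C] [CommRing C']

/-- Evaluation of degree zero fractions. -/
noncomputable def ev (Φ : A →+* C) (f : A) (h : IsUnit (Φ f)) : Away 𝒜 f →+* C :=
  (Localization.awayLift Φ f h).comp (algebraMap (Away 𝒜 f) (Localization.Away f))

theorem ev_mk (Φ : A →+* C) {f : A} (h : IsUnit (Φ f)) {d : ℕ} (hf : f ∈ 𝒜 d) (n : ℕ) (a : A)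
    (ha : a ∈ 𝒜 (n • d)) : ev 𝒜 Φ f h (Away.mk 𝒜 hf n a ha) * Φ f ^ n = Φ a := by
  simp only [ev, RingHom.comp_apply, HomogeneousLocalization.algebraMap_apply, Away.val_mk,
    Localization.awayLift]
  rw [Localization.mk_eq_mk', ← map_pow]
  have := IsLocalization.mk'_spec (Localization.Away f) a (⟨f ^ n, n, rfl⟩ : Submonoid.powers f)
  have h2 := congrArg (IsLocalization.Away.lift (S := Localization.Away f) f h) this
  rw [map_mul, IsLocalization.Away.lift_eq, IsLocalization.Away.lift_eq] at h2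
  exact h2

theorem ev_ext (Φ : A →+* C) {f : A} (h : IsUnit (Φ f)) {d : ℕ} (hf : f ∈ 𝒜 d)
    (g : Away 𝒜 f →+* C) (hg : ∀ n a ha, g (Away.mk 𝒜 hf n a ha) * Φ f ^ n = Φ a) :
    g = ev 𝒜 Φ f h := by
  ext1 z
  obtain ⟨n, a, ha, rfl⟩ := Away.mk_surjective 𝒜 hf z
  exact (h.pow n).mul_right_cancel ((hg n a ha).trans (ev_mk 𝒜 Φ h hf n a ha).symm)

variable {f g : A} {d e : ℕ}

/-- The point with homogeneous coordinates `Φ`, in the chart of `f`. -/
noncomputable def sp (Φ : A →+* C) (hf : f ∈ 𝒜 d) (hd : 0 < d) (h : IsUnit (Φ f)) :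
    Spec (.of C) ⟶ Proj 𝒜 :=
  Spec.map (CommRingCat.ofHom (ev 𝒜 Φ f h)) ≫ Proj.awayι 𝒜 f hf hd

theorem ev_comp (Φ : A →+* C) (ψ : C →+* C') (hf : f ∈ 𝒜 d) (h : IsUnit (Φ f)) :
    ψ.comp (ev 𝒜 Φ f h) = ev 𝒜 (ψ.comp Φ) f (h.map ψ) :=
  ev_ext 𝒜 _ _ hf _ fun n a ha => by
    simp only [RingHom.comp_apply]
    rw [← map_pow, ← map_mul, ev_mk]

theorem sp_comp (Φ : A →+* C) (ψ : C →+* C') (hf : f ∈ 𝒜 d) (hd : 0 < d) (h : IsUnit (Φ f)) :
    Spec.map (CommRingCat.ofHom ψ) ≫ sp 𝒜 Φ hf hd h = sp 𝒜 (ψ.comp Φ) hf hd (h.map ψ) := by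
  rw [sp, sp, ← Spec.map_comp_assoc, ← CommRingCat.ofHom_comp, ev_comp 𝒜 Φ ψ hf h]

theorem sp_mul (Φ : A →+* C) (hf : f ∈ 𝒜 d) (hd : 0 < d) (h : IsUnit (Φ f)) (hg : g ∈ 𝒜 e)
    {x : A} (hx : x = f * g) (h' : IsUnit (Φ x)) :
    sp 𝒜 Φ hf hd h = sp 𝒜 Φ (hx ▸ SetLike.mul_mem_graded hf hg : x ∈ 𝒜 (d + e))
      (hd.trans_le (d.le_add_right e)) h' := by
  have hu : IsUnit (Φ g) := by
    rw [hx, map_mul] at h'; exact isUnit_of_mul_isUnit_right h'
  have : (ev 𝒜 Φ x h').comp (awayMap 𝒜 hg hx) = ev 𝒜 Φ f h :=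
    ev_ext 𝒜 _ _ hf _ fun n a ha => by
      rw [RingHom.comp_apply, awayMap_mk]
      refine (hu.pow n).mul_right_cancel ?_
      rw [mul_assoc, ← mul_pow, ← map_mul, ← congrArg Φ hx, ev_mk, map_mul, map_pow]
  rw [sp, sp, ← this, CommRingCat.ofHom_comp, Spec.map_comp_assoc, Proj.SpecMap_awayMap_awayι]

theorem sp_congr (Φ : A →+* C) (hf : f ∈ 𝒜 d) (hd : 0 < d) (h : IsUnit (Φ f)) {d' : ℕ}
    (hf' : f ∈ 𝒜 d') (e : d = d') : sp 𝒜 Φ hf hd h = sp 𝒜 Φ hf' (e ▸ hd) h := by
  subst e; rfl

/-- Change of chart. -/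
theorem sp_chart (Φ : A →+* C) (hf : f ∈ 𝒜 d) (hd : 0 < d) (h : IsUnit (Φ f)) (hg : g ∈ 𝒜 e)
    (he : 0 < e) (h' : IsUnit (Φ g)) : sp 𝒜 Φ hf hd h = sp 𝒜 Φ hg he h' := by
  have hu : IsUnit (Φ (f * g)) := by rw [map_mul]; exact h.mul h'
  rw [sp_mul 𝒜 Φ hf hd h hg rfl hu, sp_mul 𝒜 Φ hg he h' hf (mul_comm _ _) hu]
  exact sp_congr 𝒜 Φ _ _ _ _ (add_comm _ _)

/-- Scaling. -/
theorem sp_scale (Φ Φ' : A →+* C) (u : C) (hu : ∀ n, ∀ a ∈ 𝒜 n, Φ' a = Φ a * u ^ n) (hf : f ∈ 𝒜 d)
    (hd : 0 < d) (h : IsUnit (Φ f)) (h' : IsUnit (Φ' f)) : sp 𝒜 Φ hf hd h = sp 𝒜 Φ' hf hd h' := by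
  have : ev 𝒜 Φ f h = ev 𝒜 Φ' f h' := ev_ext 𝒜 _ _ hf _ fun n a ha => by
    rw [hu _ _ hf, hu _ _ ha, mul_pow, ← mul_assoc, ev_mk, ← pow_mul, smul_eq_mul, mul_comm d n]
  rw [sp, sp, this]

theorem sp_inj (Φ Φ' : A →+* C) (hf : f ∈ 𝒜 d) (hd : 0 < d) (h : IsUnit (Φ f)) (h' : IsUnit (Φ' f))
    (H : sp 𝒜 Φ hf hd h = sp 𝒜 Φ' hf hd h') : ev 𝒜 Φ f h = ev 𝒜 Φ' f h' :=
  congrArg CommRingCat.Hom.hom (Spec.map_injective ((cancel_mono _).1 H))

theorem sp_mem (Φ : A →+* C) (hf : f ∈ 𝒜 d) (hd : 0 < d) (h : IsUnit (Φ f)) (hg : g ∈ 𝒜 e)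
    (he : 0 < e) (x : Spec (.of C)) :
    sp 𝒜 Φ hf hd h x ∈ Proj.basicOpen 𝒜 g ↔ Φ g ∉ x.asIdeal := by
  have h1 : sp 𝒜 Φ hf hd h x ∈ Proj.basicOpen 𝒜 g ↔
      ev 𝒜 Φ f h (Away.isLocalizationElem hf hg) ∉ x.asIdeal := by
    rw [← Scheme.Hom.mem_preimage, sp, Scheme.Hom.comp_preimage,
      Proj.awayι_preimage_basicOpen 𝒜 hf hd hg he]
    rfl
  rw [h1, ← x.isPrime.pow_mem_iff_mem (r := Φ g) d hd, ← map_pow,
    ← ev_mk 𝒜 Φ h hf e (g ^ d) (by convert! SetLike.pow_mem_graded d hg using 2; exact mul_comm _ _),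
    Ideal.mul_unit_mem_iff_mem _ (h.pow e)]

theorem sp_over (Φ : A →+* C) (hf : f ∈ 𝒜 d) (hd : 0 < d) (h : IsUnit (Φ f)) :
    sp 𝒜 Φ hf hd h ≫ Proj.toSpecZero 𝒜 =
      Spec.map (CommRingCat.ofHom (Φ.comp (algebraMap (𝒜 0) A))) := by
  rw [sp, Category.assoc, Proj.awayι_toSpecZero, ← Spec.map_comp, ← CommRingCat.ofHom_comp]
  congr 2
  ext1 a
  have := ev_mk 𝒜 Φ h hf 0 a (by simp)
  rw [pow_zero, mul_one] at this
  refine Eq.trans (congrArg (ev 𝒜 Φ f h) ?_) this
  apply val_injective
  rw [Away.val_mk]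
  exact congrArg (Localization.mk (a : A)) (Subtype.ext (pow_zero f).symm)

end Pool.Agent.MP_855f4c_ag.T.YJ

end

section

/-! h12g, row YJ, part 2 (helper9): points of projective space, lines given by idempotents. -/

set_option autoImplicit false
set_option backward.isDefEq.respectTransparency false

open CategoryTheory Limits AlgebraicGeometry HomogeneousLocalization MvPolynomial

namespace Pool.Agent.MP_855f4c_ag.T.YJ

attribute [local instance] MvPolynomial.gradedAlgebra

variable {K ν : Type} [CommRing K] {C D : Type} [CommRing C] [CommRing D]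

theorem xm (K : Type) [CommRing K] (i : ν) : (X i : MvPolynomial ν K) ∈ homogeneousSubmodule ν K 1 :=
  isHomogeneous_X _ _

theorem hom_scale (χ : K →+* C) (v : ν → C) (u : C) {n : ℕ} {a : MvPolynomial ν K}
    (ha : a ∈ homogeneousSubmodule ν K n) :
    eval₂Hom χ (fun k => v k * u) a = eval₂Hom χ v a * u ^ n := by
  have ha' : a.IsHomogeneous n := ha
  conv_lhs => rw [a.as_sum]
  conv_rhs => rw [a.as_sum]
  rw [map_sum, map_sum, Finset.sum_mul]
  refine Finset.sum_congr rfl fun s hs => ?_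
  rw [eval₂Hom_monomial, eval₂Hom_monomial, ha'.degree_eq_sum_deg_support hs]
  simp only [Finsupp.prod, mul_pow, Finset.prod_mul_distrib, Finset.prod_pow_eq_pow_sum, mul_assoc]

theorem unit_X (χ : K →+* C) {v : ν → C} {i : ν} (h : IsUnit (v i)) :
    IsUnit (eval₂Hom χ v (X i)) := by simpa using h

/-- The point with homogeneous coordinates `v`. -/
noncomputable def pt (χ : K →+* C) (v : ν → C) (i : ν) (h : IsUnit (v i)) :
    Spec (.of C) ⟶ Proj (homogeneousSubmodule ν K) :=
  sp _ (eval₂Hom χ v) (xm K i) one_pos (unit_X χ h)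

theorem pt_comp (χ : K →+* C) (v : ν → C) (i : ν) (h : IsUnit (v i)) (ψ : C →+* D) :
    Spec.map (CommRingCat.ofHom ψ) ≫ pt χ v i h = pt (ψ.comp χ) (fun k => ψ (v k)) i (h.map ψ) := by
  rw [pt, pt, sp_comp]
  congr 1
  exact comp_eval₂Hom _ _ _

theorem pt_eq (χ : K →+* C) {v w : ν → C} {i j : ν} (h : IsUnit (v i)) (h' : IsUnit (w j))
    (H : ∀ k, v k * w j = w k * v j) : pt χ v i h = pt χ w j h' := by
  obtain ⟨u, hu⟩ := h'.exists_right_inv
  have e : v = fun k => w k * (v j * u) := funext fun k => by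
    rw [← mul_assoc, ← H, mul_assoc, hu, mul_one]
  have hi : IsUnit (w i) := isUnit_of_mul_isUnit_left (congrFun e i ▸ h)
  rw [pt, pt, sp_chart _ _ (xm K j) one_pos _ (xm K i) one_pos (unit_X χ hi)]
  refine (sp_scale _ _ _ (v j * u) (fun n a ha => ?_) _ _ _ _).symm
  rw [← hom_scale χ w _ ha, ← e]

theorem pt_mem (χ : K →+* C) (v : ν → C) (i : ν) (h : IsUnit (v i)) {g : MvPolynomial ν K} {e : ℕ}
    (hg : g.IsHomogeneous e) (he : 0 < e) (x : Spec (.of C)) :
    pt χ v i h x ∈ Proj.basicOpen (homogeneousSubmodule ν K) g ↔ eval₂ χ v g ∉ x.asIdeal :=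
  sp_mem _ _ _ _ _ hg he x

theorem pt_over (χ : K →+* C) (v : ν → C) (i : ν) (h : IsUnit (v i)) :
    pt χ v i h ≫ Proj.toSpecZero _ ≫
      Spec.map (CommRingCat.ofHom (algebraMap K (homogeneousSubmodule ν K 0))) =
      Spec.map (CommRingCat.ofHom χ) := by
  rw [pt, ← Category.assoc, sp_over, ← Spec.map_comp, ← CommRingCat.ofHom_comp]
  congr 2
  ext1 a
  exact eval₂Hom_C χ v a

/-- The fraction `X k / X j`. -/
noncomputable def fr (K : Type) [CommRing K] (j k : ν) : Away (homogeneousSubmodule ν K) (X j) :=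
  Away.mk _ (xm K j) 1 (X k) (by simpa using xm K k)

/-- Constants. -/
noncomputable def kB (K : Type) [CommRing K] (j : ν) : K →+* Away (homogeneousSubmodule ν K) (X j) :=
  (fromZeroRingHom _ _).comp (algebraMap K (homogeneousSubmodule ν K 0))

theorem ev_fr (χ : K →+* C) (v : ν → C) {j : ν} (h : IsUnit (v j)) (k : ν) :
    ev _ (eval₂Hom χ v) (X j) (unit_X χ h) (fr K j k) * v j = v k := by
  simpa [fr] using ev_mk _ (eval₂Hom χ v) (unit_X χ h) (xm K j) 1 (X k) (by simpa using xm K k)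

theorem kB_eq (j : ν) (c : K) : kB K j c = Away.mk _ (xm K j) 0 (MvPolynomial.C c)
    (isHomogeneous_C ν c) := by
  apply val_injective
  rw [Away.val_mk]
  exact congrArg (Localization.mk (MvPolynomial.C c)) (Subtype.ext (pow_zero _).symm)

theorem ev_kB (χ : K →+* C) (v : ν → C) {j : ν} (h : IsUnit (v j)) (c : K) :
    ev _ (eval₂Hom χ v) (X j) (unit_X χ h) (kB K j c) = χ c := by
  have := ev_mk _ (eval₂Hom χ v) (unit_X χ h) (xm K j) 0 (MvPolynomial.C c)
    (isHomogeneous_C ν c)
  rw [kB_eq]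
  simpa using this

theorem mk_eq (j : ν) (n : ℕ) (a : MvPolynomial ν K) (ha : a ∈ homogeneousSubmodule ν K (n • 1)) :
    Away.mk _ (xm K j) n a ha = eval₂Hom (kB K j) (fr K j) a := by
  apply val_injective
  let L := Localization.Away (X j : MvPolynomial ν K)
  let u : L := IsLocalization.Away.invSelf (X j : MvPolynomial ν K)
  have hu : algebraMap _ L (X j : MvPolynomial ν K) * u = 1 := IsLocalization.Away.mul_invSelf _
  have mk_eq : ∀ (m : ℕ) (b : MvPolynomial ν K), (Localization.mk b ⟨X j ^ m, m, rfl⟩ : L) =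
      algebraMap _ L b * u ^ m := by
    intro m b
    have h1 := IsLocalization.mk'_spec L b
      (⟨X j ^ m, m, rfl⟩ : Submonoid.powers (X j : MvPolynomial ν K))
    rw [Localization.mk_eq_mk', ← h1, mul_assoc]
    simp only [map_pow]
    rw [← mul_pow, hu, one_pow, mul_one]
  have e0 : eval₂Hom ((algebraMap (MvPolynomial ν K) L).comp MvPolynomial.C)
      (fun k => algebraMap (MvPolynomial ν K) L (X k)) = algebraMap _ L := by
    refine MvPolynomial.ringHom_ext (fun r => ?_) (fun k => ?_) <;> simp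
  have e1 : (algebraMap (Away (homogeneousSubmodule ν K) (X j)) L).comp
      (eval₂Hom (kB K j) (fr K j)) = eval₂Hom ((algebraMap (MvPolynomial ν K) L).comp MvPolynomial.C)
      (fun k => algebraMap (MvPolynomial ν K) L (X k) * u) := by
    refine MvPolynomial.ringHom_ext (fun r => ?_) (fun k => ?_)
    · simp only [RingHom.comp_apply, eval₂Hom_C, kB_eq]
      exact (mk_eq 0 (MvPolynomial.C r)).trans (by rw [pow_zero, mul_one])
    · simp only [RingHom.comp_apply, eval₂Hom_X']
      exact (mk_eq 1 (X k)).trans (by rw [pow_one])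
  refine Eq.trans ?_ (DFunLike.congr_fun e1 a).symm
  rw [hom_scale _ _ _ ha, e0, Away.val_mk, mk_eq]
  simp

theorem fr_self (j : ν) : fr K j j = 1 := by
  apply val_injective
  rw [fr, Away.val_mk, val_one]
  exact (congrArg (Localization.mk (X j)) (Subtype.ext (pow_one _))).trans
    (Localization.mk_self (⟨X j, 1, pow_one _⟩ : Submonoid.powers (X j : MvPolynomial ν K)))

/-- Every homomorphism from the ring of a chart is an evaluation. -/
theorem eq_ev {j : ν} (g : Away (homogeneousSubmodule ν K) (X j) →+* C) (v : ν → C) (h : IsUnit (v j))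
    (hv : ∀ k, v k = g (fr K j k) * v j) :
    g = ev _ (eval₂Hom (g.comp (kB K j)) v) (X j) (unit_X _ h) :=
  ev_ext _ _ _ (xm K j) _ fun n a ha => by
    rw [mk_eq, ← RingHom.comp_apply, comp_eval₂Hom, eval₂Hom_X']
    conv_rhs => rw [funext hv, hom_scale _ _ _ ha]
    simp

theorem pt_inj (χ χ' : K →+* C) {v w : ν → C} {i j : ν} (h : IsUnit (v i)) (h' : IsUnit (w j))
    (H : pt χ v i h = pt χ' w j h') (k : ν) : v k * w i = w k * v i := by
  have hi : IsUnit (w i) := by
    by_contra hn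
    obtain ⟨m, hm, hw⟩ := exists_max_ideal_of_mem_nonunits hn
    have a := (pt_mem χ v i h (xm K i) one_pos ⟨m, hm.isPrime⟩).2 (by
      rw [eval₂_X]; exact fun hv => hm.ne_top (Ideal.eq_top_of_isUnit_mem _ hv h))
    rw [H, pt_mem χ' w j h' (xm K i) one_pos, eval₂_X] at a
    exact a hw
  rw [pt_eq χ' h' hi fun _ => rfl] at H
  have e := sp_inj _ _ _ _ _ _ _ H
  rw [← ev_fr χ v h k, ← ev_fr χ' w hi k, e]
  ring

theorem spec_ext {ι : Type} (s : ι → C) (hs : Ideal.span (Set.range s) = ⊤) {Y : Scheme.{0}}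
    (a b : Spec (.of C) ⟶ Y) (h : ∀ i, Spec.map (CommRingCat.ofHom
      (algebraMap C (Localization.Away (s i)))) ≫ a =
      Spec.map (CommRingCat.ofHom (algebraMap C (Localization.Away (s i)))) ≫ b) : a = b :=
  (Scheme.affineOpenCoverOfSpanRangeEqTop (R := .of C) s hs).openCover.hom_ext _ _ h

variable [Fintype ν]

/-- Idempotent matrices of rank one. -/
def RK (e : ν × ν → C) : Prop :=
  ∑ i, e (i, i) = 1 ∧ ∀ k l m n, e (k, l) * e (m, n) = e (k, n) * e (m, l)

theorem RK.map {e : ν × ν → C} (h : RK e) (ψ : C →+* D) : RK fun p => ψ (e p) :=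
  ⟨by rw [← map_sum, h.1, map_one], fun k l m n => by rw [← map_mul, ← map_mul, h.2]⟩

theorem RK.span {e : ν × ν → C} (h : RK e) : Ideal.span (Set.range fun i => e (i, i)) = ⊤ :=
  (Ideal.eq_top_iff_one _).2 (h.1 ▸ Ideal.sum_mem _ fun i _ => Ideal.subset_span ⟨i, rfl⟩)

theorem RK.of (v μ : ν → C) (h : ∑ i, μ i * v i = 1) : RK fun p : ν × ν => v p.1 * μ p.2 :=
  ⟨by simpa only [mul_comm] using h, fun _ _ _ _ => by ring⟩

/-- The image of an idempotent of rank one. -/
theorem ex_line (χ : K →+* C) {e : ν × ν → C} (he : RK e) :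
    ∃ t : Spec (.of C) ⟶ Proj (homogeneousSubmodule ν K), ∀ (D : Type) [CommRing D] (ψ : C →+* D)
      (v : ν → D) (i : ν) (h : IsUnit (v i)), (∀ k, ∑ l, ψ (e (k, l)) * v l = v k) →
      Spec.map (CommRingCat.ofHom ψ) ≫ t = pt (ψ.comp χ) v i h := by
  let L := fun j => Localization.Away (e (j, j))
  have hu : ∀ j, IsUnit (algebraMap C (L j) (e (j, j))) := fun j =>
    IsLocalization.Away.algebraMap_isUnit _
  let 𝒰 := (Scheme.affineOpenCoverOfSpanRangeEqTop (R := .of C) _ he.span).openCover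
  let f : ∀ j, Spec (.of (L j)) ⟶ Proj (homogeneousSubmodule ν K) := fun j =>
    pt ((algebraMap C (L j)).comp χ) (fun k => algebraMap C (L j) (e (k, j))) j (hu j)
  have key : ∀ (D : Type) [CommRing D] (j : ν) (a : L j →+* D) (v : ν → D) (i : ν) (h : IsUnit (v i)),
      (∀ k, ∑ l, a (algebraMap C _ (e (k, l))) * v l = v k) → Spec.map (CommRingCat.ofHom a) ≫ f j =
        pt ((a.comp (algebraMap C _)).comp χ) v i h := by
    intro D _ j a v i h hv
    rw [pt_comp]
    refine (pt_eq _ h _ fun k => ?_).symm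
    conv_lhs => rw [← hv k]
    conv_rhs => rw [← hv j]
    rw [Finset.sum_mul, Finset.mul_sum]
    refine Finset.sum_congr rfl fun l _ => ?_
    rw [mul_right_comm, ← mul_assoc, ← map_mul, ← map_mul, ← map_mul, ← map_mul, he.2]
  have col : ∀ (D : Type) [CommRing D] (ψ : C →+* D) (j k : ν),
      ∑ l, ψ (e (k, l)) * ψ (e (l, j)) = ψ (e (k, j)) := by
    intro D _ ψ j k
    simp only [← map_mul, ← map_sum, he.2 k _ _ j, ← Finset.mul_sum, he.1, mul_one]
  have two : ∀ (D : Type) [CommRing D] (x y : ν) (a : L x →+* D) (b : L y →+* D),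
      a.comp (algebraMap C (L x)) = b.comp (algebraMap C (L y)) →
      Spec.map (CommRingCat.ofHom a) ≫ f x = Spec.map (CommRingCat.ofHom b) ≫ f y := by
    intro D _ x y a b c
    rw [key D x a (fun k => a (algebraMap C (L x) (e (k, x)))) x ((hu x).map a)
        (col D (a.comp (algebraMap C (L x))) x),
      key D y b (fun k => a (algebraMap C (L x) (e (k, x)))) x ((hu x).map a) fun k =>
        (Finset.sum_congr rfl fun l _ => congrArg (· * _) (DFunLike.congr_fun c _).symm).trans
          (col D (a.comp (algebraMap C (L x))) x k), c]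
  have hf : ∀ x y, pullback.fst (𝒰.f x) (𝒰.f y) ≫ f x = pullback.snd _ _ ≫ f y := by
    intro x y
    have : IsAffine (pullback (𝒰.f x) (𝒰.f y)) :=
      inferInstanceAs (IsAffine (pullback (Spec.map _) (Spec.map _)))
    rw [← cancel_epi (pullback (𝒰.f x) (𝒰.f y)).isoSpec.inv, ← Category.assoc, ← Category.assoc]
    obtain ⟨a, ha⟩ := Spec.map_surjective (R := .of (L x))
      ((pullback (𝒰.f x) (𝒰.f y)).isoSpec.inv ≫ pullback.fst (𝒰.f x) (𝒰.f y))
    obtain ⟨b, hb⟩ := Spec.map_surjective (R := .of (L y))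
      ((pullback (𝒰.f x) (𝒰.f y)).isoSpec.inv ≫ pullback.snd (𝒰.f x) (𝒰.f y))
    have c : Spec.map a ≫ 𝒰.f x = Spec.map b ≫ 𝒰.f y := by
      rw [ha, hb, Category.assoc, Category.assoc, pullback.condition]
    have c' : a.hom.comp (algebraMap C (L x)) = b.hom.comp (algebraMap C (L y)) :=
      congrArg CommRingCat.Hom.hom (Spec.map_injective
        ((Spec.map_comp _ _).trans (c.trans (Spec.map_comp _ _).symm)))
    rw [← ha, ← hb]
    exact two _ x y a.hom b.hom c'
  refine ⟨𝒰.glueMorphisms f hf, fun D _ ψ v i h hv => ?_⟩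
  refine spec_ext _ (he.map ψ).span _ _ fun j => ?_
  obtain ⟨a, ha⟩ : ∃ a : L j →+* Localization.Away (ψ (e (j, j))),
      a.comp (algebraMap C (L j)) = (algebraMap D _).comp ψ :=
    ⟨_, IsLocalization.Away.lift_comp (S := L j) (e (j, j))
      (IsLocalization.Away.algebraMap_isUnit (S := Localization.Away (ψ (e (j, j)))) (ψ (e (j, j))))⟩
  rw [pt_comp, ← Spec.map_comp_assoc, ← CommRingCat.ofHom_comp, ← ha, CommRingCat.ofHom_comp,
    Spec.map_comp_assoc]
  refine (congrArg _ (𝒰.ι_glueMorphisms f hf j)).trans 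
    ((key _ j a (fun k => algebraMap D _ (v k)) i (h.map _) fun k => ?_).trans ?_)
  · simp only [← RingHom.comp_apply a, ha]
    simp only [RingHom.comp_apply, ← map_mul, ← map_sum, hv]
  · rw [ha]; rfl

end Pool.Agent.MP_855f4c_ag.T.YJ

end

section

/-! h12g, row YJ, part 3 (helper9): the affine model of a closed subscheme of projective space. -/

set_option autoImplicit false
set_option backward.isDefEq.respectTransparency false

open CategoryTheory Limits AlgebraicGeometry HomogeneousLocalization MvPolynomial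

namespace Pool.Agent.MP_855f4c_ag.T.YJ

attribute [local instance] MvPolynomial.gradedAlgebra

variable {K ν : Type} [Fintype ν]

theorem RK.col {C : Type} [CommRing C] {e : ν × ν → C} (h : RK e) (j k : ν) :
    ∑ l, e (k, l) * e (l, j) = e (k, j) := by
  rw [Finset.sum_congr rfl fun l _ => h.2 k l l j, ← Finset.mul_sum, h.1, mul_one]

theorem fs_chart [CommRing K] {L : Type} [CommRing L] (χ : K →+* L) {e : ν × ν → L} (he : RK e) (j : ν)
    (hj : IsUnit (e (j, j)))
    (ex : ∀ (D : Type) [CommRing D] (χ' : K →+* D) (e' : ν × ν → D), RK e' → IsUnit (e' (j, j)) →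
      ∃ φ : L →+* D, φ.comp χ = χ' ∧ ∀ p, φ (e p) = e' p)
    (ext : ∀ (D : Type) [CommRing D] (φ φ' : L →+* D), φ.comp χ = φ'.comp χ →
      (∀ p, φ (e p) = φ' (e p)) → φ = φ') :
    (ev (homogeneousSubmodule ν K) (eval₂Hom χ fun k => e (k, j)) (X j) (unit_X χ hj)).FormallySmooth := by
  let := (ev (homogeneousSubmodule ν K) (eval₂Hom χ fun k => e (k, j)) (X j) (unit_X χ hj)).toAlgebra
  refine Algebra.FormallySmooth.of_comp_surjective fun D _ _ I hI φ => ?_
  let B := Away (homogeneousSubmodule ν K) (X j)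
  let π := Ideal.Quotient.mk I
  have nil : IsNilpotent I := ⟨2, hI⟩
  have hφ : RK fun p => φ (e p) := he.map (φ : L →+* D ⧸ I)
  have u : IsUnit (φ (e (j, j))) := hj.map φ
  have ht : ∀ k, π (algebraMap B D (fr K j k)) * φ (e (j, j)) = φ (e (k, j)) := fun k => by
    rw [← ev_fr χ (fun k => e (k, j)) hj k, map_mul]
    exact congrArg (· * _) (φ.commutes (fr K j k)).symm
  have hm : ∀ k l, π (algebraMap B D (fr K j k)) * φ (e (j, l)) = φ (e (k, l)) := fun k l =>
    u.mul_right_cancel (by rw [mul_right_comm, ht, hφ.2])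
  choose μ hμ using fun l => Ideal.Quotient.mk_surjective (I := I) (φ (e (j, l)))
  have hs : π (∑ l, μ l * algebraMap B D (fr K j l)) = 1 := by
    rw [map_sum, ← hφ.1]
    exact Finset.sum_congr rfl fun l _ => by rw [map_mul, hμ, mul_comm, hm]
  obtain ⟨w, hw⟩ := ((IsNilpotent.isUnit_quotient_mk_iff nil).1 (hs ▸ isUnit_one)).exists_right_inv
  have w1 : π w = 1 := by simpa [hs] using congrArg π hw
  have red : ∀ p : ν × ν, π (algebraMap B D (fr K j p.1) * (μ p.2 * w)) = φ (e p) := fun p => by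
    rw [map_mul, map_mul, w1, mul_one, hμ, hm]
  obtain ⟨ψ, h1, h2⟩ := ex D ((algebraMap B D).comp (kB K j))
    (fun p => algebraMap B D (fr K j p.1) * (μ p.2 * w))
    (RK.of (fun k => algebraMap B D (fr K j k)) (fun l => μ l * w) (by
      rw [← hw, Finset.sum_mul]; exact Finset.sum_congr rfl fun l _ => mul_right_comm _ _ _))
    ((IsNilpotent.isUnit_quotient_mk_iff nil).1 (red (j, j) ▸ u))
  have com : ψ.comp (algebraMap B L) = algebraMap B D := by
    have a := ev_comp _ (eval₂Hom χ fun k => e (k, j)) ψ (xm K j) (unit_X χ hj)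
    have b := eq_ev (algebraMap B D) (fun k => ψ (e (k, j))) (hj.map ψ) fun k =>
      (h2 (k, j)).trans (congrArg _ (by rw [h2, fr_self, map_one, one_mul]))
    refine a.trans (Eq.trans ?_ b.symm)
    congr 1
    rw [comp_eval₂Hom, h1]
  refine ⟨⟨ψ, fun r => DFunLike.congr_fun com r⟩, AlgHom.coe_ringHom_injective
    (ext _ (π.comp ψ) φ ?_ fun p => ?_)⟩
  · rw [RingHom.comp_assoc, h1]
    ext1 c
    rw [RingHom.comp_apply, RingHom.comp_apply, RingHom.comp_apply, ← ev_kB χ (fun k => e (k, j)) hj c]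
    exact (φ.commutes (kB K j c)).symm
  · rw [RingHom.comp_apply, h2]; exact red p

/-- The equations of the idempotents of rank one. -/
noncomputable def I0 (K ν : Type) [CommRing K] [Fintype ν] : Ideal (MvPolynomial (ν × ν) K) :=
  Ideal.span (insert (∑ i, X (i, i) - 1) (Set.range fun q : ν × ν × ν × ν =>
    X (q.1, q.2.1) * X (q.2.2.1, q.2.2.2) - X (q.1, q.2.2.2) * X (q.2.2.1, q.2.1)))

theorem I0_le [CommRing K] {D : Type} [CommRing D] (φ : MvPolynomial (ν × ν) K →+* D) :
    I0 K ν ≤ RingHom.ker φ ↔ RK fun p => φ (X p) := by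
  simp only [I0, Ideal.span_le, Set.insert_subset_iff, Set.range_subset_iff, SetLike.mem_coe,
    RingHom.mem_ker, map_sub, map_sum, map_mul, map_one, sub_eq_zero, RK, Prod.forall]

theorem kB_ft [CommRing K] (j : ν) : (kB K j).FiniteType := by
  have h : Function.Surjective (eval₂Hom (kB K j) (fr K j)) := fun z => by
    obtain ⟨n, a, ha, rfl⟩ := Away.mk_surjective _ (xm K j) z
    exact ⟨a, (mk_eq j n a ha).symm⟩
  rw [← eval₂Hom_comp_C (kB K j) (fr K j)]
  exact RingHom.FiniteType.comp_surjective (RingHom.finiteType_algebraMap.2 inferInstance) h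

omit [Fintype ν] in
theorem ev_comp_kB [CommRing K] {C : Type} [CommRing C] (χ : K →+* C) (v : ν → C) {j : ν}
    (h : IsUnit (v j)) : (ev _ (eval₂Hom χ v) (X j) (unit_X χ h)).comp (kB K j) = χ :=
  RingHom.ext (ev_kB χ v h)

theorem ex_rho (K ν : Type) [Field K] [Fintype ν] :
    ∃ t : Spec (.of (MvPolynomial (ν × ν) K ⧸ I0 K ν)) ⟶ Proj (homogeneousSubmodule ν K), Smooth t ∧
      ∀ (D : Type) [CommRing D] (ψ : MvPolynomial (ν × ν) K ⧸ I0 K ν →+* D) (v : ν → D) (i : ν)
        (h : IsUnit (v i)), (∀ k, ∑ l, ψ (Ideal.Quotient.mk _ (X (k, l))) * v l = v k) →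
        Spec.map (CommRingCat.ofHom ψ) ≫ t = pt (ψ.comp (algebraMap K _)) v i h := by
  have he : RK fun p : ν × ν => Ideal.Quotient.mk (I0 K ν) (X p) := (I0_le _).1 Ideal.mk_ker.ge
  obtain ⟨t, ht⟩ := ex_line (algebraMap K _) he
  refine ⟨t, IsZariskiLocalAtSource.of_openCover (P := @Smooth)
    (Scheme.affineOpenCoverOfSpanRangeEqTop (R := .of _) _ he.span).openCover fun j : ν => ?_, ht⟩
  let J := MvPolynomial (ν × ν) K ⧸ I0 K ν
  let L := Localization.Away (Ideal.Quotient.mk (I0 K ν) (X (j, j)))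
  have hL := he.map (algebraMap J L)
  have hj : IsUnit (algebraMap J L (Ideal.Quotient.mk _ (X (j, j)))) :=
    IsLocalization.Away.algebraMap_isUnit _
  have e := ht L (algebraMap J L) (fun k => algebraMap J L (Ideal.Quotient.mk _ (X (k, j)))) j hj
    (hL.col j)
  change Smooth (Spec.map (CommRingCat.ofHom (algebraMap J L)) ≫ t)
  rw [e, pt, sp]
  refine @smooth_comp _ _ _ _ _ ((HasRingHomProperty.Spec_iff (P := @Smooth)).2
    (RingHom.smooth_def.2 ⟨fs_chart _ hL j hj (fun D _ χ' e' h1 h2 => ?_) fun D _ φ φ' h1 h2 => ?_,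
      RingHom.FinitePresentation.of_comp_finiteType (kB K j) ?_ (kB_ft j)⟩)) inferInstance
  · let a : J →+* D := Ideal.Quotient.lift _ (eval₂Hom χ' e') ((I0_le _).2 (by simpa using h1))
    have ha : ∀ p, a (Ideal.Quotient.mk _ (X p)) = e' p := fun p => eval₂Hom_X' _ _ _
    refine ⟨IsLocalization.Away.lift (S := L) _ (g := a) (ha (j, j) ▸ h2), ?_, fun p => ?_⟩
    · rw [← RingHom.comp_assoc, IsLocalization.Away.lift_comp]
      ext1 c
      exact eval₂Hom_C _ _ _
    · rw [IsLocalization.Away.lift_eq, ha]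
  · refine IsLocalization.ringHom_ext (Submonoid.powers (Ideal.Quotient.mk (I0 K ν) (X (j, j))))
      (Ideal.Quotient.ringHom_ext (MvPolynomial.ringHom_ext (fun c => ?_) h2))
    exact DFunLike.congr_fun h1 c
  · have h1 : (algebraMap K J).FinitePresentation :=
      RingHom.FinitePresentation.of_finiteType.1 (RingHom.finiteType_algebraMap.2 inferInstance)
    have h2 : (algebraMap J L).FinitePresentation := RingHom.finitePresentation_algebraMap.2
      (IsLocalization.Away.finitePresentation (Ideal.Quotient.mk (I0 K ν) (X (j, j))))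
    exact (congrArg RingHom.FinitePresentation (ev_comp_kB ((algebraMap J L).comp (algebraMap K J))
      (fun k => algebraMap J L (Ideal.Quotient.mk _ (X (k, j)))) hj)).mpr (h2.comp h1)

theorem line_over [CommRing K] {C : Type} [CommRing C] (χ : K →+* C) {e : ν × ν → C} (he : RK e)
    (t : Spec (.of C) ⟶ Proj (homogeneousSubmodule ν K)) (ht : ∀ (D : Type) [CommRing D]
      (ψ : C →+* D) (v : ν → D) (i : ν) (h : IsUnit (v i)), (∀ k, ∑ l, ψ (e (k, l)) * v l = v k) →
      Spec.map (CommRingCat.ofHom ψ) ≫ t = pt (ψ.comp χ) v i h) : t ≫ Proj.toSpecZero _ ≫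
      Spec.map (CommRingCat.ofHom (algebraMap K (homogeneousSubmodule ν K 0))) =
      Spec.map (CommRingCat.ofHom χ) := by
  refine spec_ext _ he.span _ _ fun j => ?_
  rw [← Category.assoc, ht _ _ (fun k => algebraMap C (Localization.Away (e (j, j))) (e (k, j))) j
    (IsLocalization.Away.algebraMap_isUnit _) ((he.map _).col j), pt_over,
    ← Spec.map_comp, ← CommRingCat.ofHom_comp]

omit [Fintype ν] in
theorem pt_mem_closed [CommRing K] {Ω : Type} [Field Ω] (χ : K →+* Ω) (v : ν → Ω) (i : ν)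
    (hi : IsUnit (v i)) (Z : Set (Proj (homogeneousSubmodule ν K))) (hZ : IsClosed Z)
    (h2 : ∀ (G : MvPolynomial ν K) (n : ℕ), 0 < n → G.IsHomogeneous n →
      (∀ y ∈ Z, y ∉ Proj.basicOpen (homogeneousSubmodule ν K) G) → eval₂ χ v G = 0)
    (x : Spec (.of Ω)) : pt χ v i hi x ∈ Z := by
  by_contra hn
  obtain ⟨_, ⟨G, rfl⟩, h3, h4⟩ := TopologicalSpace.Opens.isBasis_iff_nbhd.1
    (Proj.isBasis_basicOpen (homogeneousSubmodule ν K)) (U := ⟨Zᶜ, hZ.isOpen_compl⟩) hn
  rw [Proj.basicOpen_eq_iSup_proj] at h3 h4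
  obtain ⟨n, h5⟩ := TopologicalSpace.Opens.mem_iSup.1 h3
  have h6 : (GradedRing.proj (homogeneousSubmodule ν K) n G * X i).IsHomogeneous (n + 1) :=
    IsHomogeneous.mul (DirectSum.decompose (homogeneousSubmodule ν K) G n).2 (xm K i)
  refine (pt_mem χ v i hi h6 n.succ_pos x).1 ?_
    (h2 _ _ n.succ_pos h6 (fun y hZ hy => ?_) ▸ zero_mem _)
  · rw [Proj.basicOpen_mul]
    exact ⟨h5, (pt_mem χ v i hi (xm K i) one_pos x).2 (by
      rw [eval₂_X]; exact fun h => x.isPrime.ne_top (Ideal.eq_top_of_isUnit_mem _ h hi))⟩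
  · rw [Proj.basicOpen_mul] at hy
    exact h4 (TopologicalSpace.Opens.mem_iSup.2 ⟨n, hy.1⟩) hZ

/-- The affine model. -/
theorem core (K ν : Type) [Field K] [Fintype ν] {Y : Scheme.{0}} (f : Y ⟶ Spec (.of K)) [Smooth f]
    (ι : Y ⟶ Proj (homogeneousSubmodule ν K)) [IsClosedImmersion ι]
    (hι : ι ≫ Proj.toSpecZero _ ≫
      Spec.map (CommRingCat.ofHom (algebraMap K (homogeneousSubmodule ν K 0))) = f) :
    ∃ (a : Ideal (MvPolynomial (ν × ν) K)) (r : Spec (.of (MvPolynomial (ν × ν) K ⧸ a)) ⟶ Y),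
      Algebra.Smooth K (MvPolynomial (ν × ν) K ⧸ a) ∧ I0 K ν ≤ a ∧
      r ≫ f = Spec.map (CommRingCat.ofHom (algebraMap K _)) ∧
      (∀ (D : Type) [CommRing D] (ψ : MvPolynomial (ν × ν) K ⧸ a →+* D) (v : ν → D) (i : ν)
        (h : IsUnit (v i)), (∀ k, ∑ l, ψ (Ideal.Quotient.mk _ (X (k, l))) * v l = v k) →
        Spec.map (CommRingCat.ofHom ψ) ≫ r ≫ ι = pt (ψ.comp (algebraMap K _)) v i h) ∧
      ∀ (Ω : Type) [Field Ω] (χ : K →+* Ω) (v μ : ν → Ω), ∑ i, μ i * v i = 1 →
        (∀ (G : MvPolynomial ν K) (n : ℕ), 0 < n → G.IsHomogeneous n →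
          (∀ y, ι y ∉ Proj.basicOpen (homogeneousSubmodule ν K) G) → eval₂ χ v G = 0) →
        ∀ g ∈ a, eval₂ χ (fun p : ν × ν => v p.1 * μ p.2) g = 0 := by
  obtain ⟨t, hs, ht⟩ := ex_rho K ν
  let q := Spec.map (CommRingCat.ofHom (Ideal.Quotient.mk (I0 K ν)))
  have hq : IsClosedImmersion q := IsClosedImmersion.spec_of_surjective _ Ideal.Quotient.mk_surjective
  obtain ⟨a, e, he⟩ := IsClosedImmersion.Spec_iff.1
    (inferInstance : IsClosedImmersion (pullback.snd ι t ≫ q))
  obtain ⟨m, hm⟩ := Spec.map_surjective (R := .of (MvPolynomial (ν × ν) K ⧸ I0 K ν))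
    (S := .of (MvPolynomial (ν × ν) K ⧸ a)) (e.inv ≫ pullback.snd ι t)
  have hma : m.hom.comp (Ideal.Quotient.mk _) = Ideal.Quotient.mk a := by
    have : Spec.map (CommRingCat.ofHom (Ideal.Quotient.mk (I0 K ν)) ≫ m) =
        Spec.map (CommRingCat.ofHom (Ideal.Quotient.mk a)) := by
      rw [Spec.map_comp, hm, Category.assoc, he, e.inv_hom_id_assoc]
    exact congrArg CommRingCat.Hom.hom (Spec.map_injective this)
  have hX : ∀ g, m.hom (Ideal.Quotient.mk _ g) = Ideal.Quotient.mk a g := DFunLike.congr_fun hma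
  have hK : m.hom.comp (algebraMap K _) = algebraMap K _ := RingHom.ext fun c => hX (C c)
  have he0 : RK fun p : ν × ν => Ideal.Quotient.mk (I0 K ν) (X p) := (I0_le _).1 Ideal.mk_ker.ge
  have ov : t ≫ Proj.toSpecZero _ ≫
      Spec.map (CommRingCat.ofHom (algebraMap K (homogeneousSubmodule ν K 0))) =
      Spec.map (CommRingCat.ofHom (algebraMap K _)) := line_over _ he0 t ht
  have rι : (e.inv ≫ pullback.fst ι t) ≫ ι = Spec.map m ≫ t := by
    rw [hm, Category.assoc, Category.assoc, pullback.condition]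
  have rf : (e.inv ≫ pullback.fst ι t) ≫ f = Spec.map (CommRingCat.ofHom (algebraMap K _)) := by
    rw [← hι, ← Category.assoc, rι, Category.assoc, ov, ← Spec.map_comp, ← hK]; rfl
  refine ⟨a, e.inv ≫ pullback.fst ι t, ?_, fun g hg => ?_, rf, fun D _ ψ v i h hv => ?_,
    fun Ω _ χ v μ h1 h2 g hg => ?_⟩
  · have : Smooth ((e.inv ≫ pullback.fst ι t) ≫ f) := inferInstance
    rw [rf] at this
    exact RingHom.smooth_algebraMap.1 ((HasRingHomProperty.Spec_iff (P := @Smooth)).1 this)
  · rw [← Ideal.Quotient.eq_zero_iff_mem, ← hX, Ideal.Quotient.eq_zero_iff_mem.2 hg, map_zero]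
  · rw [rι, ← Category.assoc, ← Spec.map_comp]
    refine (ht D (ψ.comp m.hom) v i h (by simpa only [RingHom.comp_apply, hX] using hv)).trans ?_
    rw [RingHom.comp_assoc, hK]
  · obtain ⟨i, hi⟩ : ∃ i, v i ≠ 0 := by
      by_contra hc
      push Not at hc
      simp [hc] at h1
    let ψ : MvPolynomial (ν × ν) K ⧸ I0 K ν →+* Ω := Ideal.Quotient.lift _
      (eval₂Hom χ fun p => v p.1 * μ p.2) ((I0_le _).2 (by simpa using RK.of v μ h1))
    have hψ : ∀ g, ψ (Ideal.Quotient.mk _ g) = eval₂ χ (fun p : ν × ν => v p.1 * μ p.2) g :=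
      fun _ => rfl
    have e1 := ht Ω ψ v i hi.isUnit fun k => by
      simp only [hψ, eval₂_X, mul_assoc, ← Finset.mul_sum, h1, mul_one]
    have e2 : ψ.comp (algebraMap K _) = χ := RingHom.ext fun c => (hψ (C c)).trans (eval₂_C _ _ _)
    rw [e2] at e1
    let x : Spec (.of Ω) := (⟨⊥, Ideal.isPrime_bot⟩ : PrimeSpectrum Ω)
    have hx := pt_mem_closed χ v i hi.isUnit _ ι.isClosedEmbedding.isClosed_range
      (fun G n hn hG h => h2 G n hn hG fun y => h _ ⟨y, rfl⟩) x
    rw [← e1, Scheme.Hom.comp_apply] at hx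
    obtain ⟨z, hz⟩ : Spec.map (CommRingCat.ofHom ψ) x ∈ Set.range (pullback.snd ι t) := by
      rw [Scheme.Pullback.range_snd]; exact hx
    have h7 : Spec.map (CommRingCat.ofHom ψ) x = Spec.map m (e.hom z) := by
      rw [hm, ← Scheme.Hom.comp_apply, e.hom_inv_id_assoc, hz]
    have h8 : Ideal.Quotient.mk (I0 K ν) g ∈ (Spec.map m (e.hom z)).asIdeal := by
      change m.hom _ ∈ (e.hom z).asIdeal
      rw [hX, Ideal.Quotient.eq_zero_iff_mem.2 hg]; exact zero_mem _
    rw [← h7] at h8
    exact h8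

end Pool.Agent.MP_855f4c_ag.T.YJ

end
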