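import Pool.Agent.MP_855f4c_ag.EC.E3a
import Pool.Agent.MP_855f4c_ag.EC.F1a
import Pool.Agent.MP_855f4c_ag.LP.Lisse
import Pool.Agent.MP_855f4c_ag.EC.F1b
import Pool.Agent.MP_855f4c_ag.TC.Ta

section

/-! h12g: definitions and statements without cohomology. -/

set_option autoImplicit false

open MvPolynomial

namespace Pool.Agent.MP_855f4c_ag.T

open E3 E

/-! ### Coordinates -/

/-- Homogeneous coordinates of a product of projective lines. -/
abbrev XV (κ : Type) : Type := κ × Fin 2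

/-- Coordinates (left) and covectors (right). -/
abbrev XY (κ : Type) : Type := XV κ ⊕ XV κ

/-- Entries of the idempotent matrices. -/
abbrev EV (κ : Type) : Type := κ × Fin 2 × Fin 2

section
variable {κ : Type} [Fintype κ] [DecidableEq κ]

/-- The weights. -/
def wt : XY κ → κ → ℤ := Sum.elim (fun v => Pi.single v.1 1) fun v => Pi.single v.1 (-1)

/-- Homogeneous of weight `n`. -/
abbrev Hg {A : Type} [CommRing A] (n : κ → ℤ) (P : MvPolynomial (XY κ) A) : Prop :=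
  IsWeightedHomogeneous wt P n

/-- The covectors take the value one on the coordinates. -/
def Rel {D : Type} [CommRing D] (a : XY κ → D) : Prop :=
  ∀ k, ∑ i, a (.inr (k, i)) * a (.inl (k, i)) = 1

/-- The matrices `x y^T`. -/
def emat {D : Type} [CommRing D] (a : XY κ → D) : EV κ → D :=
  fun v => a (.inl (v.1, v.2.1)) * a (.inr (v.1, v.2.2))

/-- Matrices of trace one and determinant zero. -/
def JP {D : Type} [CommRing D] (e : EV κ → D) : Prop :=
  ∀ k, e (k, 0, 0) + e (k, 1, 1) = 1 ∧ e (k, 0, 0) * e (k, 1, 1) = e (k, 0, 1) * e (k, 1, 0)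

/-- Indices of the monomials of multidegrees `e a`. -/
abbrev MI {c : ℕ} (e : Fin c → κ → ℕ) : Type := Σ a : Fin c, ∀ k, Fin (e a k + 1)

/-- The monomial with index `j`. -/
def mon {D : Type} [CommRing D] {e : κ → ℕ} (j : ∀ k, Fin (e k + 1)) (x : XV κ → D) : D :=
  ∏ k, x (k, 0) ^ (e k - j k) * x (k, 1) ^ (j k : ℕ)

/-- The value at `x` of the form with coefficients `cf`. -/
def gen {D : Type} [CommRing D] {c : ℕ} {e : Fin c → κ → ℕ} (cf : MI e → D) (a : Fin c)
    (x : XV κ → D) : D := ∑ j : ∀ k, Fin (e a k + 1), cf ⟨a, j⟩ * mon j x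

/-- The columns `σ`. -/
def col {D : Type} (e : EV κ → D) (σ : κ → Fin 2) : XV κ → D := fun v => e (v.1, v.2, σ v.1)

/-- The ideal of the affine model. -/
noncomputable def JI {A : Type} [CommRing A] {c : ℕ} {e : Fin c → κ → ℕ} (cf : MI e → A) :
    Ideal (MvPolynomial (EV κ) A) :=
  Ideal.span ({P | ∃ k, P = X (k, 0, 0) + X (k, 1, 1) - 1} ∪
    {P | ∃ k, P = X (k, 0, 0) * X (k, 1, 1) - X (k, 0, 1) * X (k, 1, 0)} ∪
    {P | ∃ a σ, P = gen (fun i => C (cf i)) a (col X σ)})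

/-- The affine model of the zero locus. -/
abbrev JB {A : Type} [CommRing A] {c : ℕ} {e : Fin c → κ → ℕ} (cf : MI e → A) : Type :=
  MvPolynomial (EV κ) A ⧸ JI cf

/-- The universal matrices. -/
noncomputable def je {A : Type} [CommRing A] {c : ℕ} {e : Fin c → κ → ℕ} (cf : MI e → A) :
    EV κ → JB cf := fun v => Ideal.Quotient.mk _ (X v)

/-- `I` is the ideal of the zeros of `s` in all trivialisations of `e`. -/
def Zer {D : Type} [CommRing D] (e : EV κ → D) (s : MvPolynomial (XY κ) D) (I : Ideal D) : Prop :=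
  ∀ (D' : Type) [CommRing D'] (ψ : D →+* D') (a : XY κ → D'), emat a = ψ ∘ e →
    I.map ψ = Ideal.span {eval₂ ψ a s}

/-- The linear form with coefficients `n`. -/
noncomputable def lin (n : κ → ℤ) : MvPolynomial κ ℤ := ∑ k, C (n k) * X k

/-- The coefficient of the product of all variables. -/
noncomputable def top (P : MvPolynomial κ ℤ) : ℤ := coeff (Finsupp.equivFunOnFinite.symm 1) P

end

/-! ### Henselian pairs -/

section
variable (A : Type) [CommRing A] (I : Ideal A)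

/-- Sections modulo `I` of etale algebras lift. -/
def Hens : Prop := ∀ (E : Type) [CommRing E] [Algebra A E] [Algebra.Etale A E]
  (σ : E →ₐ[A] A ⧸ I), ∃ τ : E →ₐ[A] A, (Ideal.Quotient.mkₐ A I).comp τ = σ

/-- Fixed point equations with coefficients in `I` can be solved. -/
def Newt : Prop := ∀ (ν : Type) [Finite ν] (Θ : ν → MvPolynomial ν A),
  (∀ i m, (Θ i).coeff m ∈ I) → ∃ u : ν → A, ∀ i, u i + eval u (Θ i) = 0

/-- The zero set of `I` is connected and nonempty in every integral domain over `A`. -/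
def HP : Prop := ∀ (D : Type) [CommRing D] [IsDomain D] (ψ : A →+* D), ψ.IsIntegral →
  I.map ψ ≠ ⊤ ∧ ∀ x : D, x * x - x ∈ I.map ψ → x ∈ I.map ψ ∨ x - 1 ∈ I.map ψ

end

/-- Ind-etale and bijective on geometric points over the zero set of `I`. -/
def Exs (C C₁ : Type) [CommRing C] [CommRing C₁] [Algebra C C₁] (I : Ideal C) : Prop :=
  IndEt C C₁ ∧ ∀ (k : Type) [Field k] [IsAlgClosed k] (ψ : C →+* k), I ≤ RingHom.ker ψ →
    ∃! ψ₁ : C₁ →+* k, ψ₁.comp (algebraMap C C₁) = ψ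

/-- `B / I → C / I C` is bijective. -/
def QIso (B C : Type) [CommRing B] [CommRing C] [Algebra B C] (I : Ideal B) : Prop :=
  Function.Bijective (Ideal.quotientMap (I.map (algebraMap B C)) (algebraMap B C) Ideal.le_comap_map)

def HENS_s : Prop := ∀ (B : Type) [CommRing B] (I : Ideal B),
  ∃ (C : Type) (_ : CommRing C) (_ : Algebra B C), IndEt B C ∧ Hens C (I.map (algebraMap B C)) ∧
    QIso B C I

def NEWT_s : Prop :=
  (∀ (A : Type) [CommRing A] (I : Ideal A), Hens A I → Newt A I) ∧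
  (∀ (A F : Type) [CommRing A] [CommRing F] (ψ : A →+* F) (I : Ideal A), ψ.Finite → Newt A I →
    Newt F (I.map ψ)) ∧
  ∀ (A : Type) [CommRing A] (I : Ideal A), Newt A I → ∀ b ∈ I, IsUnit (1 + b)

def HP_s : Prop :=
  (∀ (A : Type) [CommRing A] (I : Ideal A), Hens A I → HP A I) ∧
  ∀ (A A' : Type) [CommRing A] [CommRing A'] (ψ : A →+* A') (I : Ideal A) (I' : Ideal A'),
    ψ.IsIntegral → (I.map ψ).radical = I'.radical → HP A I → HP A' I'

def EXS_s : Prop :=
  (∀ (B C B' C' : Type) [CommRing B] [CommRing C] [CommRing B'] [CommRing C'] [Algebra B C]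
    [Algebra B B'] [Algebra B C'] [Algebra C C'] [Algebra B' C'] [IsScalarTower B C C']
    [IsScalarTower B B' C'] [Algebra.IsPushout B C B' C'] (I : Ideal B) (J : Ideal B'),
      I.map (algebraMap B B') ≤ J → IndEt B C → QIso B C I → IndEt B' C' ∧ QIso B' C' J) ∧
  ∀ (B C : Type) [CommRing B] [CommRing C] [Algebra B C] (I : Ideal B), IndEt B C → QIso B C I →
    Exs B C I

def ELK_s : Prop := ∀ (O K : Type) [CommRing O] [CommRing K] [Algebra O K] (ϖ : O)
  [IsLocalization.Away ϖ K] (ν ρ : Type) [Finite ν] [Finite ρ] (g : ρ → MvPolynomial ν K),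
    Algebra.FormallySmooth K (MvPolynomial ν K ⧸ Ideal.span (Set.range g)) → ∀ c c₂ : ℕ,
    ∃ c₁ : ℕ, ∀ (C C' : Type) [CommRing C] [CommRing C'] [Algebra O C] [Algebra C C']
      [IsLocalization.Away (algebraMap O C ϖ) C'] (χ : K →+* C') (𝔟 : Ideal C) (z₀ : ν → C'),
      (∀ o, χ (algebraMap O K o) = algebraMap C C' (algebraMap O C o)) → Newt C 𝔟 →
      (∀ j, ∃ w : C, χ (algebraMap O K ϖ) ^ c * z₀ j = algebraMap C C' w) →
      (∀ i, ∃ b ∈ 𝔟, eval₂ χ z₀ (g i) = χ (algebraMap O K ϖ) ^ c₁ * algebraMap C C' b) →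
      ∃ z : ν → C', (∀ j, ∃ b ∈ 𝔟, z j - z₀ j = χ (algebraMap O K ϖ) ^ c₂ * algebraMap C C' b) ∧
        ∀ i, eval₂ χ z (g i) = 0

def INTG_s : Prop := ∀ (A A' : Type) [CommRing A] [CommRing A'] [Algebra A A'] (ϖ : A)
  [IsLocalization.Away ϖ A'] (w : A'),
    (∀ (L : Type) [Field L] (W : ValuationSubring L) (ψ : A' →+* L),
      (∀ a, ψ (algebraMap A A' a) ∈ W) → ψ w ∈ W) → IsIntegral A w

/-! ### Weights -/

def W0_s : Prop := ∀ (κ : Type) [Fintype κ] [DecidableEq κ] (A : Type) [CommRing A],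
  (∀ P : MvPolynomial (XY κ) A, Hg 0 P → ∃ P' : MvPolynomial (EV κ) A, aeval (emat X) P' = P) ∧
  (∀ (e : EV κ → A) (n : κ → ℤ) (s : MvPolynomial (XY κ) A), JP e → Hg n s →
    ∃ I : Ideal A, I.FG ∧ Zer e s I) ∧
  (∀ (e : EV κ → A) (σ : κ → Fin 2), JP e → (∀ k, IsUnit (e (k, σ k, σ k))) →
    ∃ a : XY κ → A, emat a = e) ∧
  (∀ (n : κ → ℤ) (s : MvPolynomial (XY κ) A) (D : Type) [CommRing D] (ψ : A →+* D)
    (a : XY κ → D) (u : κ → Dˣ), Hg n s →
      eval₂ ψ (Sum.elim (fun v => a (.inl v) * u v.1) fun v => a (.inr v) * ((u v.1)⁻¹ : Dˣ)) s =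
        (∏ k, u k ^ n k : Dˣ) * eval₂ ψ a s) ∧
  ∀ (N : ℕ), 0 < N → ∃ Φ : XY κ → MvPolynomial (XY κ) ℤ, (∀ v, Φ (.inl v) = X (.inl v) ^ N) ∧
    (∀ v, Hg ((N : ℤ) • wt v) (Φ v)) ∧
    (∀ (n : κ → ℤ) (s : MvPolynomial (XY κ) A), Hg n s →
      Hg ((N : ℤ) • n) (aeval (fun v => map (Int.castRingHom A) (Φ v)) s)) ∧
    ∀ (D : Type) [CommRing D] (a : XY κ → D), Rel a → Rel fun v => aeval a (Φ v)

/-! ### Approximation -/

def APX0_s : Prop := ∀ (p : ℕ) [Fact p.Prime] (κ : Type) [Fintype κ] [DecidableEq κ]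
  (e : κ → ℕ) (n : ℕ), ∃ r₀ : ℕ, ∀ r ≥ r₀,
    ∃ y : (∀ k, Fin (p ^ r * e k + 1)) → MvPolynomial (Option (∀ k, Fin (e k + 1))) ℤ,
      ∀ M ≥ r + n, ∀ (W : Type) [CommRing W] [IsDomain W] [ValuationRing W]
        (t : Option (∀ k, Fin (e k + 1)) → W) (x : XV κ → W), t none ^ p ^ M = p →
        (p : W) ^ n ∣ (∑ j, aeval t (y j) * mon (e := fun k => p ^ r * e k) j x) ^ p ^ (M - r) →
        (p : W) ^ n ∣ ∑ j, t (some j) ^ p ^ M * mon j fun v => x v ^ p ^ M

def APX_s : Prop := ∀ (p : ℕ) [Fact p.Prime] (κ : Type) [Fintype κ] [DecidableEq κ] (c : ℕ)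
  (e : Fin c → κ → ℕ) (cf : MI e → PadicAlgCl p), (∀ i, ‖cf i‖ ≤ 1) → ∀ n : ℕ, ∃ r : ℕ,
    ∀ Δ : MvPolynomial (MI fun a k => p ^ r * e a k) ℤ, map (Int.castRingHom (ZMod p)) Δ ≠ 0 →
    ∀ ρ : ℝ, ρ < 1 → ∃ (N : ℕ) (E : Finset (PadicAlgCl p)), (∀ z ∈ E, ‖z‖ ≤ 1) ∧
      ∀ O : Subring (PadicAlgCl p), (∀ z ∈ E, z ∈ O) →
        ∃ (c₀ : MI e → O) (c' : (MI fun a k => p ^ r * e a k) → O), (∀ i, (c₀ i : PadicAlgCl p) = cf i) ∧
          ρ < ‖aeval (fun i => (c' i : PadicAlgCl p)) Δ‖ ∧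
          ∀ (W : Type) [CommRing W] [IsDomain W] [ValuationRing W] (ψ : O →+* W) (x : XV κ → W),
            (∀ a, gen (ψ ∘ c') a x = 0) → ∀ a, (p : W) ^ n ∣ gen (ψ ∘ c₀) a fun v => x v ^ p ^ N

/-! ### The generic member is nonsingular -/

/-- The affine equation in the chart where the coordinate `σ k` is one. -/
noncomputable def aff {κ : Type} [Fintype κ] [DecidableEq κ] {A : Type} [CommRing A] {c : ℕ}
    {e : Fin c → κ → ℕ} (cf : MI e → A) (σ : κ → Fin 2) (a : Fin c) : MvPolynomial κ A :=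
  gen (fun i => C (cf i)) a fun v => if v.2 = σ v.1 then 1 else X v.1

def CNT_s : Prop := ∀ (κ : Type) [Fintype κ] [DecidableEq κ] (c : ℕ) (e : Fin c → κ → ℕ)
  (F k : Type) [Field F] [Field k] [Algebra F k] (cf : MI e → k), AlgebraicIndependent F cf →
    ∀ (σ : κ → Fin 2) (t : κ → k) (lam : Fin c → k), (∀ a, eval t (aff cf σ a) = 0) →
      (∀ j, ∑ a, lam a * eval t (pderiv j (aff cf σ a)) = 0) → lam = 0

/-- The gradients are independent at all zeros. -/
def JC {κ : Type} [Fintype κ] [DecidableEq κ] {k : Type} [Field k] {c : ℕ} {e : Fin c → κ → ℕ}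
    (cf : MI e → k) : Prop :=
  ∀ (σ : κ → Fin 2) (t : κ → k) (lam : Fin c → k), (∀ a, eval t (aff cf σ a) = 0) →
    (∀ j, ∑ a, lam a * eval t (pderiv j (aff cf σ a)) = 0) → lam = 0

def BERT_s : Prop := ∀ (p : ℕ) [Fact p.Prime] (κ : Type) [Fintype κ] [DecidableEq κ] (c : ℕ)
  (e : Fin c → κ → ℕ), ∃ Δ : MvPolynomial (MI e) ℤ, map (Int.castRingHom (ZMod p)) Δ ≠ 0 ∧
    ∀ (k : Type) [Field k] (cf : MI e → k), aeval cf Δ ≠ 0 → JC cf

/-! ### Nullstellensatz -/

def NULL_s : Prop := ∀ (K Ω : Type) [Field K] [Field Ω] [IsAlgClosed Ω] [Algebra K Ω]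
  (κ : Type) [Fintype κ] [DecidableEq κ] (ι τ : Type) [Fintype ι] [Fintype τ]
  (f : τ → MvPolynomial (XY κ) K) (n : τ → κ → ℤ), (∀ t, Hg (n t) (f t)) →
    (∀ (q : ι → MvPolynomial (XY κ) K) (m : κ → ℤ), (∀ i, Hg m (q i)) →
      (∀ a : XY κ → Ω, Rel a → (∀ t, aeval a (f t) = 0) → ∃ i, aeval a (q i) ≠ 0) →
      ∃ (lam : ι → MvPolynomial (XY κ) K) (b : τ → MvPolynomial (XY κ) K), (∀ i, Hg (-m) (lam i)) ∧
        ∀ (D : Type) [CommRing D] (χ : K →+* D) (a : XY κ → D), Rel a →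
          ∑ i, eval₂ χ a (lam i) * eval₂ χ a (q i) = 1 + ∑ t, eval₂ χ a (b t) * eval₂ χ a (f t)) ∧
    ∀ P : MvPolynomial (XY κ) K,
      (∀ a : XY κ → Ω, Rel a → (∀ t, aeval a (f t) = 0) → aeval a P = 0) →
      ∃ (N : ℕ) (b : τ → MvPolynomial (XY κ) K), 0 < N ∧
        ∀ (D : Type) [CommRing D] (χ : K →+* D) (a : XY κ → D), Rel a →
          eval₂ χ a P ^ N = ∑ t, eval₂ χ a (b t) * eval₂ χ a (f t)

/-! ### Linear algebra -/

/-- `Mw` for vector spaces over `ℚ_l`. -/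
def MwV {l : ℕ} [Fact l.Prime] {H : Type 1} [AddCommGroup H] [Module ℚ_[l] H] (q : ℕ) (i : ℤ)
    (φ u : Module.End ℚ_[l] H) : Prop :=
  ∃ m > 0, ∃ M : ℤ → Submodule ℚ_[l] H, Monotone M ∧ (∃ a, M a = ⊥) ∧ (∃ a, M a = ⊤) ∧
    (∀ a, ∀ v ∈ M a, (u ^ m - 1) v ∈ M (a - 2)) ∧
    (∀ r : ℕ, (∀ v ∈ M r, ((u ^ m - 1) ^ r) v ∈ M (-r - 1) → v ∈ M (r - 1)) ∧
      ∀ w ∈ M (-r), ∃ v ∈ M r, w - ((u ^ m - 1) ^ r) v ∈ M (-r - 1)) ∧
    ∀ a, (∀ v ∈ M a, φ v ∈ M a) ∧ ∃ P : Polynomial ℚ, P ≠ 0 ∧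
      (∀ z : ℂ, Polynomial.aeval z P = 0 → ‖z‖ ^ 2 = (q : ℝ) ^ (a + i)) ∧
        ∀ v ∈ M a, Polynomial.aeval φ (P.map (algebraMap ℚ ℚ_[l])) v ∈ M (a - 1)

def LIN_s : Prop := ∀ (l : ℕ) [Fact l.Prime] (Q d T : ℕ) (E M N : ℕ → Type 1)
  [∀ i, AddCommGroup (E i)] [∀ i, AddCommGroup (M i)] [∀ i, AddCommGroup (N i)]
  (φE uE : ∀ i, E i →+ E i) (φM uM : ∀ i, M i →+ M i) (φN uN : ∀ i, N i →+ N i)
  (τ : ∀ i, E i →+ QZ l →+ M i) (ε : ∀ i, E i →+ QZ l →+ N i)
  (ϖ : ∀ i j, j + i = 2 * d → E i →+ M j →+ QZ l), 1 < Q →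
    (∀ i, Cof l (M i)) → (∀ i, Cof l (N i)) → (∀ i, 2 * d < i → ∀ x : M i, x = 0) →
    (∀ i x a, τ i (φE i x) a = φM i (τ i x a)) → (∀ i x a, τ i (uE i x) a = uM i (τ i x a)) →
    (∀ i x a, φN i (ε i x a) = Q ^ T • ε i (φE i x) a) → (∀ i x a, uN i (ε i x a) = ε i (uE i x) a) →
    (∀ i j h, Function.Bijective (ϖ i j h)) →
    (∀ i j h x y, ϖ i j h (φE i x) (φM j y) = Q ^ d • ϖ i j h x y) →
    (∀ i, ∃ n : ℕ, ∀ x, τ i x = 0 → l ^ n • x = 0) → (∀ i x, ε i x = 0 → τ i x = 0) →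
    (∀ i, MwV Q ((i + 2 * T : ℕ) : ℤ) (Vm l (φN i)) (Vm l (uN i))) →
    ∀ i : ℕ, MwV Q i (Vm l (φM i)) (Vm l (uM i))

def ENDQ_s : Prop := ∀ (l : ℕ) [Fact l.Prime],
  (∀ w w' : QZ l →+ QZ l, w ≠ 0 → ∃ (a : ℕ) (ρ : QZ l →+ QZ l), ρ.comp w = l ^ a • w') ∧
  (∀ (M : Type 1) [AddCommGroup M], (∀ m : M, ∃ n : ℕ, l ^ n • m = 0) → ∀ y : M, y ≠ 0 →
    ∃ χ : M →+ QZ l, χ y ≠ 0) ∧
  (∀ (n : ℤ) (a : QZ l), n ≠ 0 → ∃ b, n • b = a) ∧
  (∀ w : QZ l →+ QZ l, w ≠ 0 → Function.Surjective w) ∧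
  ∀ (M M' : Type 1) [AddCommGroup M] [AddCommGroup M'], (∀ m : M, l • m = 0) →
    (∀ m : M', l • m = 0) → Nonempty ((M →+ QZ l) ≃ M') → Nonempty ((M' →+ QZ l) ≃ M) → Finite M

def PERM_s : Prop := ∀ (κ : Type) [Fintype κ] [DecidableEq κ] (R : Type 1) [Ring R] (x : κ → R),
  (∀ i j, x i * x j = x j * x i) → (∀ i, x i * x i = 0) → ∀ (L : List (κ → ℤ)) (K : List κ),
    K.Nodup → (∀ k, k ∈ K) → top (L.map lin).prod ≠ 0 → L.length = K.length ∧
      (L.map fun n => ∑ k, n k • x k).prod = top (L.map lin).prod • (K.map x).prod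

open LP in
def POW_s : Prop := ∀ (p l : ℕ) [Fact p.Prime] [Fact l.Prime], l ≠ p →
  (∀ (Q : ℕ) (g : PadicAlgCl p ≃+* PadicAlgCl p), 0 < Q → Frob ℤ_[p] Q g →
    (∀ (ζ : PadicAlgCl p) (n : ℕ), ζ ^ l ^ n = 1 → g ζ ^ Q = ζ) ∧ (∀ z, ‖g z‖ = ‖z‖) ∧
    (∀ m : ℕ, Frob ℤ_[p] (Q ^ m) (g ^ m : PadicAlgCl p ≃+* PadicAlgCl p)) ∧
    ∀ E : Finset (PadicAlgCl p), ∃ m : ℕ, 0 < m ∧ ∀ z ∈ E, (g ^ m) z = z) ∧
  (∀ (u : PadicAlgCl p ≃+* PadicAlgCl p) (m : ℕ), 0 < m → Frob ℤ_[p] 1 u →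
    (∃ (n : ℕ) (r : PadicAlgCl p) (o : ℤ_[p]), r ^ l ^ n = algebraMap _ _ o ∧ u r ≠ r) →
    ∃ (n : ℕ) (r : PadicAlgCl p) (o : ℤ_[p]), r ^ l ^ n = algebraMap _ _ o ∧ (u ^ m) r ≠ r) ∧
  ∀ z : PadicAlgCl p, ‖z‖ ≤ 1 ↔ IsIntegral ℤ_[p] z

end Pool.Agent.MP_855f4c_ag.T

end

section

/-! Row TEL, abstract part: `Ext` out of a coproduct, and two devissages in the coefficient
group of an exact functor `Φ : Ab ⥤ A` that commutes with coproducts. -/

set_option autoImplicit false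
set_option backward.isDefEq.respectTransparency false

open CategoryTheory Limits Abelian Function

namespace Pool.Agent.MP_855f4c_ag.T.Tel

open E

universe w t v u

variable {A B : Type u} [Category.{v} A] [Abelian A] [HasExt.{w} A] [EnoughInjectives A]
  [Category.{v} B] [Abelian B] [HasExt.{w} B] [EnoughInjectives B]

/-- `Ext` out of a coproduct is the product. -/
theorem sigma_bij {ι : Type t} {Q : Discrete ι ⥤ A} {c : Cocone Q} (hc : IsColimit c) (n : ℕ)
    (Y : A) : Bijective fun (x : Ext.{w} c.pt Y n) (i : Discrete ι) => pre (c.ι.app i) Y n x := by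
  induction n generalizing Y with
  | zero =>
    refine ⟨fun x y h => ?_, fun z => ?_⟩
    · obtain ⟨f, rfl⟩ := (Ext.mk₀_bijective _ _).2 x
      obtain ⟨g, rfl⟩ := (Ext.mk₀_bijective _ _).2 y
      refine congrArg _ (hc.hom_ext fun i => (Ext.mk₀_bijective _ _).1 ?_)
      simpa only [pre_apply, Ext.mk₀_comp_mk₀] using congrFun h i
    · choose g hg using fun i => (Ext.mk₀_bijective _ _).2 (z i)
      refine ⟨Ext.mk₀ (hc.desc ⟨Y, Discrete.natTrans g⟩), funext fun i => ?_⟩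
      exact (Ext.mk₀_comp_mk₀ _ _).trans ((congrArg _ (hc.fac _ i)).trans (hg i))
  | succ n ih =>
    let S := ShortComplex.mk _ _ (cokernel.condition (Injective.ι Y))
    have hS : S.ShortExact := { exact := ShortComplex.exact_cokernel _ }
    have : Injective S.X₂ := Injective.injective_under Y
    have sur (T : A) (x : Ext.{w} T Y (n + 1)) : ∃ y, dl T hS n y = x :=
      ((cov_les _ hS).e₁ n x).1 (Ext.eq_zero_of_injective _)
    refine ⟨fun x x' h => ?_, fun z => ?_⟩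
    · obtain ⟨y, hy⟩ := sur _ (x - x')
      choose z hz using fun i => ((cov_les (Q.obj i) hS).e₃ n (pre (c.ι.app i) _ n y)).1
        ((pre_dl _ hS y).symm.trans (by rw [hy, map_sub]; exact sub_eq_zero.2 (congrFun h i)))
      obtain ⟨z', rfl⟩ := (ih S.X₂).2 z
      obtain rfl : post _ S.g n z' = y := (ih S.X₃).1 (funext fun i => (pre_post _ _ _).trans (hz i))
      exact sub_eq_zero.1 (hy.symm.trans (((cov_les _ hS).e₃ n).apply_apply_eq_zero _))
    · choose y hy using fun i => sur _ (z i)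
      obtain ⟨y', rfl⟩ := (ih S.X₃).2 y
      exact ⟨dl _ hS n y', funext fun i => (pre_dl _ hS y').trans (hy i)⟩

/-- An additive functor on abelian groups that is exact and commutes with coproducts. -/
structure Good (Φ : Ab.{t} ⥤ A) [Φ.Additive] : Prop where
  ex : ∀ S : ShortComplex Ab.{t}, S.ShortExact → (S.map Φ).ShortExact
  sum : ∀ ι : Type t, PreservesColimitsOfShape (Discrete ι) Φ

/-- The kernel sequence of a family of maps whose images cover `M`. -/
lemma cover {M : Ab.{t}} {Q : M → Ab.{t}} (f : ∀ m, Q m ⟶ M) (h : ∀ m, ∃ x, f m x = m) :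
    (ShortComplex.mk _ _ (kernel.condition (Sigma.desc f))).ShortExact :=
  have : Epi (Sigma.desc f) := (AddCommGrpCat.epi_iff_surjective _).2 fun m => by
    obtain ⟨x, hx⟩ := h m
    exact ⟨Sigma.ι Q m x, by rw [← ConcreteCategory.comp_apply, Sigma.ι_desc, hx]⟩
  { exact := ShortComplex.exact_kernel _ }

/-- Every element is killed by a power of `l`. -/
def Prim (l : ℕ) (M : Ab.{t}) : Prop := ∀ m : M, ∃ n : ℕ, l ^ n • m = 0

lemma prim_sigma {l : ℕ} {ι : Type t} {Q : ι → Ab.{t}} (h : ∀ i, Prim l (Q i)) :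
    Prim l (∐ Q) := by
  let K : AddSubgroup (∐ Q : Ab.{t}) :=
    { carrier := {m | ∃ n : ℕ, l ^ n • m = 0}
      zero_mem' := ⟨0, smul_zero _⟩
      add_mem' := by
        rintro a b ⟨n, hn⟩ ⟨k, hk⟩
        exact ⟨n + k, by
          rw [smul_add, pow_add, mul_smul _ _ b, hk, mul_comm, mul_smul, hn, smul_zero, smul_zero,
            add_zero]⟩
      neg_mem' := by
        rintro a ⟨n, hn⟩
        exact ⟨n, by rw [smul_neg, hn, neg_zero]⟩ }
  have : AddCommGrpCat.ofHom (QuotientAddGroup.mk' K) = 0 := Sigma.hom_ext _ _ fun i => by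
    ext x
    obtain ⟨n, hn⟩ := h i x
    exact (QuotientAddGroup.eq_zero_iff (N := K) (Sigma.ι Q i x)).2
      ⟨n, by rw [← map_nsmul, hn, map_zero]⟩
  exact fun m => (QuotientAddGroup.eq_zero_iff (N := K) m).1 (ConcreteCategory.congr_hom this m)

omit [EnoughInjectives A] in
lemma ext_kill {N : ℕ} {T D : A} (hT : N • 𝟙 T = 0) [IsIso (N • 𝟙 D)] {q : ℕ}
    (x : Ext.{w} T D q) : x = 0 := by
  refine (post_bij T (N • 𝟙 D) q).1 ?_
  have e (Z : A) : Ext.mk₀.{w} (N • 𝟙 Z) = N • Ext.mk₀ (𝟙 Z) :=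
    map_nsmul (Ext.addEquiv₀ (X := Z) (Y := Z)).symm N (𝟙 Z)
  have e1 : post T (N • 𝟙 D) q x = N • x := by
    rw [post_apply, e]
    exact (map_nsmul (x.precomp D (add_zero q)) N _).trans (congrArg _ (Ext.comp_mk₀_id x))
  have e2 : pre (N • 𝟙 T) D q x = N • x := by
    rw [pre_apply, e]
    exact (map_nsmul (x.postcomp T (zero_add q)) N _).trans (congrArg _ (Ext.mk₀_id_comp x))
  rw [e1, ← e2, hT, map_zero, pre_apply, Ext.mk₀_zero, Ext.zero_comp]

/-- **TEL**, vanishing: `l`-primary groups against uniquely `l`-divisible objects. -/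
theorem tel0 {Φ : Ab.{t} ⥤ A} [Φ.Additive] (hΦ : Good Φ) (l : ℕ) (D : A) [IsIso (l • 𝟙 D)]
    (q : ℕ) (M : Ab.{t}) (hM : Prim l M) (x : Ext.{w} (Φ.obj M) D q) : x = 0 := by
  have hD (n : ℕ) : IsIso (l ^ n • 𝟙 D) := by
    induction n with
    | zero => rw [pow_zero, one_smul]; infer_instance
    | succ n ih =>
      rw [show l ^ (n + 1) • 𝟙 D = (l ^ n • 𝟙 D) ≫ (l • 𝟙 D) by
        rw [Preadditive.comp_nsmul, Category.comp_id, smul_smul, pow_succ']]
      infer_instance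
  have key (M : Ab.{t}) (hM : Prim l M) : ∃ S : ShortComplex Ab.{t}, S.ShortExact ∧ S.X₃ = M ∧
      Prim l S.X₁ ∧ ∀ (q : ℕ) (y : Ext.{w} (Φ.obj S.X₂) D q), y = 0 := by
    let Q : M → Ab.{t} := fun m => .of (AddSubgroup.zmultiples m)
    have hQ (m : M) : ∃ n : ℕ, ∀ x : Q m, l ^ n • x = 0 := (hM m).imp fun n hn x => by
      obtain ⟨_, k, rfl⟩ := x
      exact Subtype.ext ((smul_comm _ k m).trans (by rw [hn, smul_zero]; rfl))
    have hS := cover (Q := Q) (fun m => AddCommGrpCat.ofHom (AddSubgroup.subtype _))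
      fun m => ⟨⟨m, AddSubgroup.mem_zmultiples m⟩, rfl⟩
    refine ⟨_, hS, rfl, fun x => ?_, fun q y => ?_⟩
    · obtain ⟨n, hn⟩ := prim_sigma (fun m x => (hQ m).imp fun _ h => h x) (kernel.ι (Sigma.desc
        fun m => AddCommGrpCat.ofHom (AddSubgroup.zmultiples m).subtype) x)
      exact ⟨n, (AddCommGrpCat.mono_iff_injective _).1 hS.mono_f
        ((map_nsmul _ _ _).trans (hn.trans (map_zero _).symm))⟩
    · have := hΦ.sum M
      refine (sigma_bij (isColimitOfPreserves Φ (colimit.isColimit (Discrete.functor Q))) q D).1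
        (funext fun m => ?_)
      obtain ⟨n, hn⟩ := hQ m.as
      have := hD n
      have h0 : l ^ n • 𝟙 (Φ.obj (Q m.as)) = 0 := by
        rw [← Φ.map_id, ← Φ.map_nsmul, show l ^ n • 𝟙 (Q m.as) = 0 from by ext x : 2; exact hn x,
          Φ.map_zero]
      exact (ext_kill h0 _).trans (ext_kill h0 _).symm
  induction q generalizing M with
  | zero =>
    obtain ⟨S, hS, rfl, -, h⟩ := key M hM
    exact (con_les (hΦ.ex S hS) D).inj ((h _ _).trans (h _ _).symm)
  | succ q ih =>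
    obtain ⟨S, hS, rfl, h1, h⟩ := key M hM
    obtain ⟨y, rfl⟩ := ((con_les (hΦ.ex S hS) D).e₁ q x).1 (h _ _)
    rw [ih _ h1 y, map_zero]

/-- **TEL**, comparison: from the coefficient group `ℤ` to all coefficient groups. -/
theorem telc {Φ : Ab.{t} ⥤ A} [Φ.Additive] (hΦ : Good Φ) {Ψ : Ab.{t} ⥤ B} [Ψ.Additive]
    (hΨ : Good Ψ) (P : A ⥤ B) [P.Additive] [PreservesFiniteLimits P] [PreservesFiniteColimits P]
    (a : Ψ ⟶ Φ ⋙ P) (G : A) (h : ∀ q, Bijective (E.cmp.{w, w} P (a.app (.of (ULift ℤ))) G q))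
    (M : Ab.{t}) (q : ℕ) : Bijective (E.cmp.{w, w} P (a.app M) G q) := by
  have sq {M N : Ab.{t}} (f : M ⟶ N) (q : ℕ) (x : Ext.{w} (Φ.obj N) G q) :
      pre (Ψ.map f) _ q (E.cmp P (a.app N) G q x) = E.cmp P (a.app M) G q (pre (Φ.map f) G q x) := by
    rw [pre_apply (Φ.map f), cmp_pre, cmp_apply, cmp_apply, ← pre_apply, pre_pre, a.naturality]
    rfl
  have key (M : Ab.{t}) : ∃ S : ShortComplex Ab.{t}, S.ShortExact ∧ S.X₃ = M ∧
      ∀ q, Bijective (E.cmp.{w, w} P (a.app S.X₂) G q) := by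
    let Q : M → Ab.{t} := fun _ => .of (ULift ℤ)
    refine ⟨_, cover (Q := Q) (fun m => AddCommGrpCat.ofHom
      ((zmultiplesHom M m).comp (AddEquiv.ulift (α := ℤ)).toAddMonoidHom))
      fun m => ⟨⟨1⟩, one_zsmul m⟩,
      rfl, fun q => ?_⟩
    have := hΦ.sum M
    have := hΨ.sum M
    rw [← Bijective.of_comp_iff'
      (sigma_bij (isColimitOfPreserves Ψ (colimit.isColimit (Discrete.functor Q))) q (P.obj G))]
    exact (congrArg Bijective (funext fun x => funext fun i => sq _ q x)).mpr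
      ((Bijective.piMap fun _ : Discrete M => h q).comp
        (sigma_bij (isColimitOfPreserves Φ (colimit.isColimit (Discrete.functor Q))) q G))
  have hd {S : ShortComplex Ab.{t}} (hS : S.ShortExact) (q : ℕ) (x : Ext.{w} (Φ.obj S.X₁) G q) :
      dr (hΨ.ex S hS) (P.obj G) q (E.cmp P (a.app S.X₁) G q x) =
        E.cmp P (a.app S.X₃) G (q + 1) (dr (hΦ.ex S hS) G q x) := by
    rw [cmp_apply, cmp_apply, map_dr]
    exact (pre_dr (hΨ.ex S hS) ((hΦ.ex S hS).map_of_exact P) (S.mapNatTrans a) _).symm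
  have hi (q : ℕ) : ∀ M, Injective (E.cmp.{w, w} P (a.app M) G q) := by
    induction q with
    | zero =>
      intro M
      obtain ⟨S, hS, rfl, h2⟩ := key M
      exact (con_les (hΦ.ex S hS) G).inj₁_zero (f' := pre (Ψ.map S.g) _) (E.cmp P (a.app _) G)
        (E.cmp P (a.app _) G) (sq S.g) (h2 0).1
    | succ q ih =>
      intro M
      obtain ⟨S, hS, rfl, h2⟩ := key M
      exact (con_les (hΦ.ex S hS) G).inj₁_succ (con_les (hΨ.ex S hS) _) (E.cmp P (a.app _) G)
        (E.cmp P (a.app _) G) (E.cmp P (a.app _) G) (sq S.g) (sq S.f) (hd hS) q (h2 _).2 (ih _) (h2 _).1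
  refine ⟨hi q M, ?_⟩
  induction q generalizing M with
  | zero =>
    obtain ⟨S, hS, rfl, h2⟩ := key M
    exact (con_les (hΦ.ex S hS) G).surj₁_zero (con_les (hΨ.ex S hS) _) (E.cmp P (a.app _) G)
      (E.cmp P (a.app _) G) (E.cmp P (a.app _) G) (sq S.g) (sq S.f) (h2 0).2 (hi _ _)
  | succ q ih =>
    obtain ⟨S, hS, rfl, h2⟩ := key M
    exact (con_les (hΦ.ex S hS) G).surj₁_succ (con_les (hΨ.ex S hS) _) (E.cmp P (a.app _) G)
      (E.cmp P (a.app _) G) (E.cmp P (a.app _) G) (sq S.g) (sq S.f) (hd hS) q (ih _) (h2 _).2 (hi _ _)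

end Pool.Agent.MP_855f4c_ag.T.Tel

end

section

/-! h12g: the chain of henselisations (algebra of section T). -/

set_option autoImplicit false

open MvPolynomial TensorProduct

namespace Pool.Agent.MP_855f4c_ag.T

open E3

/-- `D` is obtained from `C` by passing successively to ind-etale neighbourhoods of the ideals. -/
inductive Twr (O : Type) [CommRing O] : ∀ (C : Type) [CommRing C] [Algebra O C], List (Ideal C) →
    ∀ (D : Type) [CommRing D] [Algebra O D], (C →ₐ[O] D) → Prop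
  | nil (C : Type) [CommRing C] [Algebra O C] : Twr O C [] C (AlgHom.id O C)
  | cons (C C₁ D : Type) [CommRing C] [CommRing C₁] [CommRing D] [Algebra O C] [Algebra O C₁]
      [Algebra O D] [Algebra C C₁] [IsScalarTower O C C₁] (I : Ideal C) (L : List (Ideal C))
      (f : C₁ →ₐ[O] D) : IndEt C C₁ → QIso C C₁ I →
      Twr O C₁ (L.map (Ideal.map (algebraMap C C₁))) D f →
      Twr O C (I :: L) D (f.comp (IsScalarTower.toAlgHom O C C₁))

/-- One step. -/
def CST_s : Prop := ∀ (K : Type) [CommRing K] (ν ρ : Type) [Finite ν] [Finite ρ]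
  (g : ρ → MvPolynomial ν K),
    Algebra.FormallySmooth K (MvPolynomial ν K ⧸ Ideal.span (Set.range g)) →
    ∀ (C : Type) [CommRing C] (χ : K →+* C) (I J : Ideal C) (z₀ : ν → C) (u : MvPolynomial ν C),
      (∀ i, eval₂ χ z₀ (g i) ∈ I + J) → IsUnit (Ideal.Quotient.mk (I + J) (eval z₀ u)) →
      ∃ (C₁ : Type) (_ : CommRing C₁) (_ : Algebra C C₁) (z : ν → C₁), IndEt C C₁ ∧ QIso C C₁ I ∧
        (∀ i, eval₂ ((algebraMap C C₁).comp χ) z (g i) ∈ J.map (algebraMap C C₁)) ∧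
        IsUnit (Ideal.Quotient.mk (J.map (algebraMap C C₁)) (eval₂ (algebraMap C C₁) z u)) ∧
        ∀ j, z j - algebraMap C C₁ (z₀ j) ∈ (I + J).map (algebraMap C C₁)

/-- The whole chain. -/
def CHAIN_s : Prop := ∀ (O K : Type) [CommRing O] [CommRing K] (ν ρ : Type) [Finite ν] [Finite ρ]
  (g : ρ → MvPolynomial ν K),
    Algebra.FormallySmooth K (MvPolynomial ν K ⧸ Ideal.span (Set.range g)) →
    ∀ (C : Type) [CommRing C] [Algebra O C] (χ : K →+* C) (L : List (Ideal C)) (z₀ : ν → C)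
      (u : MvPolynomial ν C), (∀ i, eval₂ χ z₀ (g i) ∈ L.sum) →
      IsUnit (Ideal.Quotient.mk L.sum (eval z₀ u)) →
      ∃ (D : Type) (_ : CommRing D) (_ : Algebra O D) (f : C →ₐ[O] D) (z : ν → D), Twr O C L D f ∧
        (∀ i, eval₂ (f.toRingHom.comp χ) z (g i) = 0) ∧ IsUnit (eval₂ f.toRingHom z u) ∧
        ∀ j, z j - f (z₀ j) ∈ L.sum.map f.toRingHom

namespace Cha

theorem ev_sub {ν A B : Type} [CommRing A] [CommRing B] (f : A →+* B) (b : Ideal B) (z z' : ν → B)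
    (h : ∀ j, z j - z' j ∈ b) (u : MvPolynomial ν A) : eval₂ f z u - eval₂ f z' u ∈ b := by
  rw [← Ideal.Quotient.eq, eval₂_comp_left, eval₂_comp_left]
  congr 1
  exact funext fun j => Ideal.Quotient.eq.2 (h j)

theorem sum_im {A B : Type} [CommRing A] [CommRing B] (f : A →+* B) (L : List (Ideal A)) :
    (L.map (Ideal.map f)).sum = L.sum.map f := by
  induction L with
  | nil => simp
  | cons I L ih => simp [ih, Ideal.map_sup]

theorem unit_congr {A : Type} [CommRing A] {I J : Ideal A} (h : I = J) {x : A}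
    (hx : IsUnit (Ideal.Quotient.mk J x)) : IsUnit (Ideal.Quotient.mk I x) := by
  subst h; exact hx

end Cha

open Cha

theorem cstA (hH : HENS_s) (hN : NEWT_s) (hE : ELK_s) : CST_s := by
  intro K _ ν ρ _ _ g hg C _ χ I J z₀ u h0 hu
  obtain ⟨C₁, _, _, h1, h2, h3⟩ := hH C I
  set a := algebraMap C C₁ with ha
  set π := Ideal.Quotient.mk (J.map a) with hπ
  have πs : Function.Surjective π := Ideal.Quotient.mk_surjective
  have nw := hN.2.1 _ _ π _ (RingHom.Finite.of_surjective π πs) (hN.1 _ _ h2)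
  have mem : ∀ x ∈ I + J, π (a x) ∈ (I.map a).map π := fun x hx => by
    obtain ⟨y, hy, w, hw, rfl⟩ := Submodule.mem_sup.1 hx
    rw [map_add, map_add, show π (a w) = 0 from
      Ideal.Quotient.eq_zero_iff_mem.2 (Ideal.mem_map_of_mem a hw), add_zero]
    exact Ideal.mem_map_of_mem _ (Ideal.mem_map_of_mem _ hy)
  have : IsLocalization.Away (1 : K) K :=
    IsLocalization.away_of_isUnit_of_bijective K isUnit_one Function.bijective_id
  obtain ⟨c₁, H⟩ := hE K K 1 ν ρ g hg 0 0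
  let : Algebra K (C₁ ⧸ J.map a) := (π.comp (a.comp χ)).toAlgebra
  have : IsLocalization.Away (algebraMap K (C₁ ⧸ J.map a) 1) (C₁ ⧸ J.map a) :=
    IsLocalization.away_of_isUnit_of_bijective _ (by simp) Function.bijective_id
  obtain ⟨z, z1, z2⟩ := H (C₁ ⧸ J.map a) (C₁ ⧸ J.map a) (π.comp (a.comp χ)) ((I.map a).map π)
    (fun j => π (a (z₀ j))) (fun _ => rfl) nw (fun j => ⟨π (a (z₀ j)), by simp⟩) (fun i => by
      refine ⟨_, mem _ (h0 i), ?_⟩
      have := eval₂_comp_left (π.comp a) χ z₀ (g i)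
      simpa [RingHom.comp_assoc, Function.comp_def] using this.symm)
  choose w hw using fun j => πs (z j)
  have zz : ∀ j, π (w j) - π (a (z₀ j)) ∈ (I.map a).map π := fun j => by
    obtain ⟨b, hb, e⟩ := z1 j
    rw [hw, e]; simpa using hb
  refine ⟨C₁, inferInstance, inferInstance, w, h1, h3, fun i => ?_, ?_, fun j => ?_⟩
  · rw [← Ideal.Quotient.eq_zero_iff_mem, ← hπ, eval₂_comp_left, ← z2 i]
    congr 1
    exact funext hw
  · obtain ⟨v, hv⟩ := hu.exists_right_inv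
    obtain ⟨v, rfl⟩ := Ideal.Quotient.mk_surjective v
    rw [← map_mul, ← map_one (Ideal.Quotient.mk (I + J)), Ideal.Quotient.eq] at hv
    have e1 := mem _ hv
    have e2 := ev_sub (π.comp a) _ _ _ zz u
    have e3 : eval₂ (π.comp a) (fun j => π (a (z₀ j))) u = π (a (eval z₀ u)) := by
      have := eval₂_comp_left (π.comp a) (RingHom.id C) z₀ u
      simpa [Function.comp_def] using this.symm
    have e4 : π (eval₂ a w u) = eval₂ (π.comp a) (fun j => π (w j)) u := eval₂_comp_left π a w u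
    have := hN.2.2 _ _ nw _ (Ideal.add_mem _ e1 (Ideal.mul_mem_right (π (a v)) _ e2))
    rw [← e4, e3] at this
    refine isUnit_of_mul_isUnit_left (y := π (a v)) ?_
    convert this using 1
    simp only [map_sub, map_mul, map_one]; ring
  · have := zz j
    rw [← map_sub, hπ, Ideal.mem_quotient_iff_mem_sup, ← Ideal.map_sup] at this
    exact this

theorem chain (hS : CST_s) : CHAIN_s := by
  intro O K _ _ ν ρ _ _ g hg C _ _ χ L
  induction hn : L.length generalizing C with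
  | zero =>
    intro z₀ u h0 hu
    obtain rfl := List.length_eq_zero_iff.1 hn
    refine ⟨C, inferInstance, inferInstance, AlgHom.id O C, z₀, Twr.nil C, fun i => ?_, ?_,
      fun j => by simp⟩
    · simpa using h0 i
    · exact hu.map (RingEquiv.quotientBot C)
  | succ n ih =>
    intro z₀ u h0 hu
    obtain ⟨I, L, rfl⟩ := List.exists_cons_of_length_eq_add_one hn
    obtain ⟨C₁, _, _, w, h1, h2, h3, h4, h5⟩ := hS K ν ρ g hg C χ I L.sum z₀ u h0 hu
    let : Algebra O C₁ := ((algebraMap C C₁).comp (algebraMap O C)).toAlgebra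
    have : IsScalarTower O C C₁ := IsScalarTower.of_algebraMap_eq fun _ => rfl
    obtain ⟨D, _, _, f, z, k1, k2, k3, k4⟩ := ih C₁ ((algebraMap C C₁).comp χ)
      (L.map (Ideal.map (algebraMap C C₁))) (by simpa using hn) w (map (algebraMap C C₁) u)
      (by rw [sum_im]; exact h3) (unit_congr (sum_im _ L) (by rw [eval_map]; exact h4))
    refine ⟨D, inferInstance, inferInstance, f.comp (IsScalarTower.toAlgHom O C C₁), z,
      Twr.cons C C₁ D I L f h1 h2 k1, k2, by rwa [eval₂_map] at k3, fun j => ?_⟩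
    have e : (f.comp (IsScalarTower.toAlgHom O C C₁)).toRingHom =
      f.toRingHom.comp (algebraMap C C₁) := rfl
    rw [e, ← Ideal.map_map, List.sum_cons]
    have k5 := k4 j
    rw [sum_im] at k5
    have := Ideal.add_mem _ (Ideal.map_mono (Ideal.map_mono (le_sup_right (a := I))) k5)
      (Ideal.mem_map_of_mem f.toRingHom (h5 j))
    have e2 : z j - f (algebraMap C C₁ (z₀ j)) =
        z j - f (w j) + f.toRingHom (w j - algebraMap C C₁ (z₀ j)) := by simp
    exact e2 ▸ this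

/-- A step of the chain after a base change. -/
theorem exs_bc (hX : EXS_s) (O Ω C C₁ C' C₁' : Type) [CommRing O] [CommRing Ω] [CommRing C]
    [CommRing C₁] [CommRing C'] [CommRing C₁'] [Algebra O Ω] [Algebra O C] [Algebra O C₁]
    [Algebra O C'] [Algebra O C₁'] [Algebra C C₁] [Algebra Ω C'] [Algebra Ω C₁'] [Algebra C C']
    [Algebra C₁ C₁'] [Algebra C' C₁'] [Algebra C C₁'] [IsScalarTower O C C₁] [IsScalarTower O Ω C']
    [IsScalarTower O C C'] [IsScalarTower O Ω C₁'] [IsScalarTower O C₁ C₁'] [IsScalarTower O C' C₁']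
    [IsScalarTower Ω C' C₁'] [IsScalarTower C C₁ C₁'] [IsScalarTower C C' C₁']
    [Algebra.IsPushout O C Ω C'] [h : Algebra.IsPushout O C₁ Ω C₁'] (I : Ideal C)
    (h1 : IndEt C C₁) (h2 : QIso C C₁ I) : Exs C' C₁' (I.map (algebraMap C C')) := by
  have : Algebra.IsPushout C C₁ C' C₁' := (Algebra.IsPushout.comp_iff O C Ω C').1 h
  obtain ⟨a, b⟩ := hX.1 C C₁ C' C₁' I _ le_rfl h1 h2
  exact hX.2 _ _ _ a b

/-- The same for tensor products. -/
theorem exs_tensor (hX : EXS_s) (O Ω C C₁ : Type) [CommRing O] [CommRing Ω] [CommRing C]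
    [CommRing C₁] [Algebra O Ω] [Algebra O C] [Algebra O C₁] [Algebra C C₁] [IsScalarTower O C C₁]
    (I : Ideal C) (h1 : IndEt C C₁) (h2 : QIso C C₁ I) :
    @Exs (Ω ⊗[O] C) (Ω ⊗[O] C₁) _ _ (Algebra.TensorProduct.map (AlgHom.id Ω Ω)
      (IsScalarTower.toAlgHom O C C₁)).toRingHom.toAlgebra
      (I.map (Algebra.TensorProduct.includeRight (R := O) (A := Ω)).toRingHom) := by
  let : Algebra (Ω ⊗[O] C) (Ω ⊗[O] C₁) := (Algebra.TensorProduct.map (AlgHom.id Ω Ω)
    (IsScalarTower.toAlgHom O C C₁)).toRingHom.toAlgebra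
  let : Algebra C (Ω ⊗[O] C) := Algebra.TensorProduct.rightAlgebra
  let : Algebra C₁ (Ω ⊗[O] C₁) := Algebra.TensorProduct.rightAlgebra
  let : Algebra C (Ω ⊗[O] C₁) := ((algebraMap C₁ (Ω ⊗[O] C₁)).comp (algebraMap C C₁)).toAlgebra
  have : IsScalarTower C C₁ (Ω ⊗[O] C₁) := .of_algebraMap_eq fun _ => rfl
  have : IsScalarTower C (Ω ⊗[O] C) (Ω ⊗[O] C₁) := .of_algebraMap_eq fun _ => rfl
  have : IsScalarTower Ω (Ω ⊗[O] C) (Ω ⊗[O] C₁) := .of_algebraMap_eq fun x =>
    ((Algebra.TensorProduct.map (AlgHom.id Ω Ω) (IsScalarTower.toAlgHom O C C₁)).commutes x).symm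
  have : IsScalarTower O (Ω ⊗[O] C) (Ω ⊗[O] C₁) := .of_algebraMap_eq fun x =>
    (((Algebra.TensorProduct.map (AlgHom.id Ω Ω)
      (IsScalarTower.toAlgHom O C C₁)).restrictScalars O).commutes x).symm
  have : Algebra.IsPushout O C Ω (Ω ⊗[O] C) := Algebra.IsPushout.symm inferInstance
  have : Algebra.IsPushout O C₁ Ω (Ω ⊗[O] C₁) := Algebra.IsPushout.symm inferInstance
  exact exs_bc hX O Ω C C₁ (Ω ⊗[O] C) (Ω ⊗[O] C₁) I h1 h2

end Pool.Agent.MP_855f4c_ag.T

end

section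

/-! Tools for the algebraic part of the main argument. -/

set_option autoImplicit false

open MvPolynomial

namespace Pool.Agent.MP_855f4c_ag.T.M0

section
variable (p : ℕ) [Fact p.Prime] (K : Type) [Field K] [Algebra K (PadicAlgCl p)]

/-- The integers of `K`. -/
noncomputable def OK : Subring K :=
  (Valued.v : Valuation (PadicAlgCl p) NNReal).integer.comap (algebraMap K (PadicAlgCl p))

variable {p K} in
lemma mem_OK {x : K} : x ∈ OK p K ↔ ‖algebraMap K (PadicAlgCl p) x‖ ≤ 1 := Iff.rfl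

lemma p_ne : (p : K) ≠ 0 := fun h => (Nat.cast_ne_zero.2 (Fact.out : p.Prime).ne_zero :
  (p : PadicAlgCl p) ≠ 0) (by rw [← map_natCast (algebraMap K _), h, map_zero])

variable {K} in
lemma ex_pow (x : K) : ∃ n : ℕ, ∀ m ≥ n, (p : K) ^ m * x ∈ OK p K := by
  have hp : ‖(p : PadicAlgCl p)‖ < 1 := by
    rw [← map_natCast (algebraMap ℚ_[p] _)]
    exact (PadicAlgCl.norm_extends p _).trans_lt Padic.norm_p_lt_one
  have := ((tendsto_pow_atTop_nhds_zero_of_lt_one (norm_nonneg _) hp).mul_const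
    ‖algebraMap K (PadicAlgCl p) x‖).eventually_le_const (show (0 : ℝ) * _ < 1 by simp)
  obtain ⟨n, hn⟩ := Filter.eventually_atTop.1 this
  exact ⟨n, fun m hm => by simpa [mem_OK] using hn m hm⟩

instance away : IsLocalization.Away (p : OK p K) K :=
  .mk _ (by simpa using p_ne p K) (fun x => by
    obtain ⟨n, hn⟩ := ex_pow p x
    exact ⟨n, ⟨_, hn n le_rfl⟩, by rw [map_natCast, mul_comm]; rfl⟩)
    fun a b h => ⟨0, by rw [Subtype.ext h]⟩

variable {K} in
/-- Bounded denominators. -/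
lemma den {σ : Type} (P : MvPolynomial σ K) : ∃ c : ℕ, ∀ m ≥ c, ∀ (L : Type) [CommRing L]
    (W : Subring L) (ψ : K →+* L) (a : σ → L), (∀ o ∈ OK p K, ψ o ∈ W) → (∀ v, a v ∈ W) →
      (p : L) ^ m * eval₂ ψ a P ∈ W := by
  induction P using MvPolynomial.induction_on with
  | C x =>
    obtain ⟨n, hn⟩ := ex_pow p x
    exact ⟨n, fun m hm L _ W ψ a h _ => by simpa using h _ (hn m hm)⟩
  | add P Q hP hQ =>
    obtain ⟨c, hc⟩ := hP
    obtain ⟨d, hd⟩ := hQ
    refine ⟨max c d, fun m hm L _ W ψ a h h' => ?_⟩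
    rw [eval₂_add, mul_add]
    exact add_mem (hc m (le_of_max_le_left hm) L W ψ a h h')
      (hd m (le_of_max_le_right hm) L W ψ a h h')
  | mul_X P j hP =>
    obtain ⟨c, hc⟩ := hP
    refine ⟨c, fun m hm L _ W ψ a h h' => ?_⟩
    rw [eval₂_mul, eval₂_X, ← mul_assoc]
    exact mul_mem (hc m hm L W ψ a h h') (h' j)

variable {K} in
lemma dens {σ τ : Type} [Finite τ] (P : τ → MvPolynomial σ K) : ∃ c : ℕ, ∀ t, ∀ (L : Type)
    [CommRing L] (W : Subring L) (ψ : K →+* L) (a : σ → L), (∀ o ∈ OK p K, ψ o ∈ W) →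
      (∀ v, a v ∈ W) → (p : L) ^ c * eval₂ ψ a (P t) ∈ W := by
  choose c hc using fun t => den p (P t)
  obtain ⟨d, hd⟩ := (Set.finite_range c).bddAbove
  exact ⟨d, fun t => hc t d (hd ⟨t, rfl⟩)⟩

variable {K} in
/-- Ring maps out of `K` are determined on the integers. -/
lemma hom_ext {D : Type} [CommRing D] {f g : K →+* D} (h : ∀ o ∈ OK p K, f o = g o) : f = g :=
  IsLocalization.ringHom_ext (Submonoid.powers (p : OK p K)) (RingHom.ext fun o => h o o.2)

/-- Existence of the structure map. -/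
lemma ex_chi (O : Subring (PadicAlgCl p)) (hO : ∀ x ∈ OK p K, algebraMap K _ x ∈ O) {D : Type}
    [CommRing D] (ψ : O →+* D) (hp : IsUnit (p : D)) :
    ∃ χ : K →+* D, ∀ (x : K) (o : O), algebraMap K _ x = (o : PadicAlgCl p) → χ x = ψ o := by
  let ω : OK p K →+* O :=
    ((algebraMap K _).comp (OK p K).subtype).codRestrict O fun x => hO x x.2
  let χ : K →+* D := IsLocalization.Away.lift (p : OK p K) (g := ψ.comp ω) (by simpa using hp)
  refine ⟨χ, fun x o e => ?_⟩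
  obtain ⟨n, hn⟩ := ex_pow p x
  have h1 : χ ((p : K) ^ n * x) = ψ (ω ⟨_, hn n le_rfl⟩) :=
    IsLocalization.Away.lift_eq (p : OK p K) _ ⟨_, hn n le_rfl⟩
  have h2 : ω ⟨_, hn n le_rfl⟩ = (p : O) ^ n * o := Subtype.ext (by
    change algebraMap K _ (_ * _) = _
    simp [e])
  rw [h2] at h1
  exact (hp.pow n).mul_left_cancel (by simpa using h1)

end

section
variable {κ : Type} [Fintype κ] [DecidableEq κ] {c : ℕ} {e : Fin c → κ → ℕ}

lemma map_gen {D D' : Type} [CommRing D] [CommRing D'] (ψ : D →+* D') (cf : MI e → D) (b : Fin c)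
    (x : XV κ → D) : ψ (gen cf b x) = gen (ψ ∘ cf) b (ψ ∘ x) := by
  simp [gen, mon]

lemma gen_smul {D : Type} [CommRing D] (u : D) (cf : MI e → D) (b : Fin c) (x : XV κ → D) :
    gen (fun i => u * cf i) b x = u * gen cf b x := by
  simp [gen, Finset.mul_sum, mul_assoc]

lemma gen_scal {D : Type} [CommRing D] (u : κ → D) (cf : MI e → D) (b : Fin c) (x : XV κ → D) :
    gen cf b (fun v => x v * u v.1) = (∏ k, u k ^ e b k) * gen cf b x := by
  simp only [gen, mon, Finset.mul_sum]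
  refine Finset.sum_congr rfl fun j _ => ?_
  rw [mul_left_comm, ← Finset.prod_mul_distrib]
  refine congrArg _ (Finset.prod_congr rfl fun k _ => ?_)
  rw [mul_pow, mul_pow, ← pow_sub_mul_pow (u k) (Nat.le_of_lt_succ (j k).2)]
  ring

lemma gen_hg {A : Type} [CommRing A] (cf : MI e → A) (b : Fin c) :
    Hg (fun k => (e b k : ℤ)) (gen (fun i => C (cf i)) b fun v => X (.inl v)) := by
  refine IsWeightedHomogeneous.sum _ _ _ fun j _ => IsWeightedHomogeneous.C_mul ?_ _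
  have h := IsWeightedHomogeneous.prod (w := wt) Finset.univ
    (fun k => (X (.inl (k, 0)) ^ (e b k - j k) * X (.inl (k, 1)) ^ (j k : ℕ) :
      MvPolynomial (XY κ) A)) _
    fun k _ => ((isWeightedHomogeneous_X A wt _).pow _).mul ((isWeightedHomogeneous_X A wt _).pow _)
  refine (congrArg (Hg · _) (funext fun k => ?_)).mp h
  have := Nat.le_of_lt_succ (j k).2
  simp [wt, Finset.sum_apply, Pi.single_apply, Finset.sum_add_distrib, this]

omit [Fintype κ] in
lemma hg_map {A B : Type} [CommRing A] [CommRing B] (ψ : A →+* B) {n : κ → ℤ}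
    {P : MvPolynomial (XY κ) A} (h : Hg n P) : Hg n (map ψ P) :=
  fun _ hd => h fun h0 => hd (by rw [coeff_map, h0, map_zero])

lemma jp_je {A : Type} [CommRing A] (cf : MI e → A) : JP (je cf) := fun k => by
  have h1 := (Ideal.Quotient.eq_zero_iff_mem (I := JI cf)).2
    (Ideal.subset_span (Or.inl (Or.inl ⟨k, rfl⟩)))
  have h2 := (Ideal.Quotient.eq_zero_iff_mem (I := JI cf)).2
    (Ideal.subset_span (Or.inl (Or.inr ⟨k, rfl⟩)))
  rw [map_sub, map_add, map_one, sub_eq_zero] at h1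
  rw [map_sub, map_mul, map_mul, sub_eq_zero] at h2
  exact ⟨h1, h2⟩

omit [Fintype κ] [DecidableEq κ] in
lemma JP.map {D D' : Type} [CommRing D] [CommRing D'] (ψ : D →+* D') {E : EV κ → D} (h : JP E) :
    JP (ψ ∘ E) := fun k =>
  ⟨by simpa using congrArg ψ (h k).1, by simpa using congrArg ψ (h k).2⟩

lemma gen_je {A : Type} [CommRing A] (cf : MI e → A) (b : Fin c) (σ : κ → Fin 2) :
    gen (algebraMap A (JB cf) ∘ cf) b (col (je cf) σ) = 0 :=
  (map_gen (Ideal.Quotient.mk (JI cf)) (fun i => C (cf i)) b (col X σ)).symm.trans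
    (Ideal.Quotient.eq_zero_iff_mem.2 (Ideal.subset_span (Or.inr ⟨b, σ, rfl⟩)))

omit [Fintype κ] [DecidableEq κ] in
lemma rel_of {D : Type} [CommRing D] {a : XY κ → D} (h : JP (emat a)) : Rel a := fun k => by
  simpa [emat, mul_comm] using (h k).1

/-- Points of the affine model in a local domain. -/
lemma ex_triv (hW : W0_s) {A D : Type} [CommRing A] [CommRing D] [IsDomain D] [IsLocalRing D]
    (cf : MI e → A) (φ : JB cf →+* D) : ∃ a : XY κ → D, emat a = φ ∘ je cf ∧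
      ∀ b, gen ((φ.comp (algebraMap A _)) ∘ cf) b (fun v => a (.inl v)) = 0 := by
  have hJ := JP.map φ (jp_je cf)
  have h (k : κ) : ∃ i, IsUnit ((φ ∘ je cf) (k, i, i)) :=
    (IsLocalRing.isUnit_or_isUnit_of_add_one (hJ k).1).elim (⟨0, ·⟩) (⟨1, ·⟩)
  choose σ hσ using h
  obtain ⟨a, ha⟩ := (hW κ D).2.2.1 _ σ hJ hσ
  refine ⟨a, ha, fun b => ?_⟩
  have h0 := congrArg φ (gen_je cf b σ)
  rw [map_gen, map_zero, show φ ∘ col (je cf) σ = col (φ ∘ je cf) σ from rfl, ← ha] at h0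
  refine (mul_eq_zero.1 ((gen_scal (fun k => a (.inr (k, σ k))) _ b _).symm.trans h0)).resolve_left
    (Finset.prod_ne_zero_iff.2 fun k _ => pow_ne_zero _ ?_)
  rw [← ha] at hσ
  exact right_ne_zero_of_mul (hσ k).ne_zero

end

/-- The finite modification and the lifting step. -/
lemma lift (hN : NEWT_s) {O K B C ν ρ : Type} [CommRing O] [CommRing K] [Algebra O K] [CommRing B]
    [CommRing C] [Algebra B C] [Fintype ν] [Finite ρ] (p : ℕ) (g : ρ → MvPolynomial ν K)
    (c c₁ : ℕ) (h : ∀ (C C' : Type) [CommRing C] [CommRing C'] [Algebra O C] [Algebra C C']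
      [IsLocalization.Away (algebraMap O C p) C'] (χ : K →+* C') (𝔟 : Ideal C) (z₀ : ν → C'),
      (∀ o, χ (algebraMap O K o) = algebraMap C C' (algebraMap O C o)) → Newt C 𝔟 →
      (∀ j, ∃ w : C, χ (algebraMap O K p) ^ c * z₀ j = algebraMap C C' w) →
      (∀ i, ∃ b ∈ 𝔟, eval₂ χ z₀ (g i) = χ (algebraMap O K p) ^ c₁ * algebraMap C C' b) →
      ∃ z : ν → C', (∀ j, ∃ b ∈ 𝔟, z j - z₀ j = χ (algebraMap O K p) ^ c * algebraMap C C' b) ∧
        ∀ i, eval₂ χ z (g i) = 0)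
    (ω : O →+* B) (χ : K →+* C) (hχ : ∀ o, χ (algebraMap O K o) = algebraMap B C (ω o))
    (π : C) (hπ : p * π = 1) (hs : ∀ x : C, ∃ (n : ℕ) (b : B), x * p ^ n = algebraMap B C b)
    (hB : Newt B (Ideal.span {(p : B)})) (z₀ : ν → C) (w : ν → ν)
    (h₁ : ∀ j, IsIntegral B (p ^ c * z₀ j))
    (h₂ : ∀ i, IsIntegral B (π ^ (c₁ + 1) * eval₂ χ z₀ (g i)))
    (h₃ : IsIntegral B (π * (∑ j, z₀ j * z₀ (w j) - 1))) :
    ∃ z : ν → C, (∀ i, eval₂ χ z (g i) = 0) ∧ IsUnit (∑ j, z j * z₀ (w j)) := by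
  let S : Set C := (Set.range (fun j => p ^ c * z₀ j) ∪
    Set.range fun i => π ^ (c₁ + 1) * eval₂ χ z₀ (g i)) ∪ {π * (∑ j, z₀ j * z₀ (w j) - 1)}
  let A := Algebra.adjoin B S
  have : Module.Finite B A := Algebra.finite_adjoin_of_finite_of_isIntegral
    (((Set.finite_range _).union (Set.finite_range _)).union (Set.finite_singleton _))
    (by rintro _ ((⟨j, rfl⟩ | ⟨i, rfl⟩) | rfl); exacts [h₁ j, h₂ i, h₃])
  let 𝔟 := (Ideal.span {(p : B)}).map (algebraMap B A)
  have hA : Newt A 𝔟 := hN.2.1 B A _ _ (RingHom.finite_algebraMap.2 this) hB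
  have hp : (p : A) ∈ 𝔟 := map_natCast (algebraMap B A) p ▸
    Ideal.mem_map_of_mem _ (Ideal.mem_span_singleton_self _)
  let _ : Algebra O A := ((algebraMap B A).comp ω).toAlgebra
  have : IsLocalization.Away (algebraMap O A p) C := by
    rw [map_natCast]
    refine .mk _ (by simpa using IsUnit.of_mul_eq_one _ hπ) (fun x => ?_)
      fun a b h => ⟨0, by rw [Subtype.ext h]⟩
    obtain ⟨n, b, e⟩ := hs x
    exact ⟨n, algebraMap B A b, by simpa using e⟩
  let u (j : ν) : A := ⟨_, Algebra.subset_adjoin (Or.inl (Or.inl ⟨j, rfl⟩))⟩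
  let v (i : ρ) : A := ⟨_, Algebra.subset_adjoin (Or.inl (Or.inr ⟨i, rfl⟩))⟩
  let t : A := ⟨_, Algebra.subset_adjoin (Or.inr rfl)⟩
  obtain ⟨z, hz, hg⟩ := h A C χ 𝔟 z₀ hχ hA (fun j => ⟨u j, by simp [u]⟩) fun i =>
    ⟨p * v i, 𝔟.mul_mem_right _ hp, by
      have : (p : C) ^ (c₁ + 1) * π ^ (c₁ + 1) = 1 := by rw [← mul_pow, hπ, one_pow]
      simp only [map_natCast, map_mul, v, Subalgebra.algebraMap_apply]
      linear_combination (-eval₂ χ z₀ (g i)) * this⟩
  choose b hb hb' using hz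
  have := (hN.2.2 A 𝔟 hA (p * t + ∑ j, b j * u (w j)) (add_mem (𝔟.mul_mem_right _ hp)
    (sum_mem fun j _ => 𝔟.mul_mem_right _ (hb j)))).map (algebraMap A C)
  refine ⟨z, hg, ?_⟩
  convert this using 1
  simp only [map_natCast, Subalgebra.algebraMap_apply] at hb'
  simp only [map_add, map_one, map_mul, map_natCast, map_sum, t, u, Subalgebra.algebraMap_apply,
    ← mul_assoc, hπ, one_mul, add_sub_cancel, ← add_assoc, ← Finset.sum_add_distrib]
  exact Finset.sum_congr rfl fun j _ => by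
    linear_combination z₀ (w j) * hb' j

end Pool.Agent.MP_855f4c_ag.T.M0

end

section

/-! Algebra of rank one idempotents: weight zero descent, trivialisations, power maps. -/

set_option autoImplicit false

namespace Pool.Agent.MP_855f4c_ag.T.Ja

open MvPolynomial

section weights

variable {σ τ M M' R : Type} [CommRing R] [AddCommGroup M] [AddCommGroup M']

/-- A substitution that transforms the weights of the variables by `φ` does so on polynomials. -/
theorem aeval_hom (w : σ → M) (w' : τ → M') (φ : M →+ M') (g : σ → MvPolynomial τ R)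
    (hg : ∀ s, (g s).IsWeightedHomogeneous w' (φ (w s))) {P : MvPolynomial σ R} {n : M}
    (hP : P.IsWeightedHomogeneous w n) : (aeval g P).IsWeightedHomogeneous w' (φ n) := by
  induction hP using IsWeightedHomogeneous.induction_on with
  | zero => rw [map_zero]; exact isWeightedHomogeneous_zero _ _ _
  | add p q _ _ hp hq => rw [map_add]; exact hp.add hq
  | monomial d r hd =>
    rw [aeval_monomial, ← hd, Finsupp.weight_apply, Finsupp.sum, map_sum, Finsupp.prod]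
    refine IsWeightedHomogeneous.C_mul (IsWeightedHomogeneous.prod _ _ _ fun s _ => ?_) r
    rw [map_nsmul]
    exact (hg s).pow _

/-- Scaling the coordinates by a character scales the value by the character of the weight. -/
theorem eval_scale {D : Type} [CommRing D] (w : σ → M) (χ : Multiplicative M →* Dˣ) (f : R →+* D)
    (z : σ → D) {P : MvPolynomial σ R} {n : M} (hP : P.IsWeightedHomogeneous w n) :
    eval₂ f (fun s => χ (.ofAdd (w s)) * z s) P = χ (.ofAdd n) * eval₂ f z P := by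
  induction hP using IsWeightedHomogeneous.induction_on with
  | zero => simp
  | add p q _ _ hp hq => rw [eval₂_add, eval₂_add, hp, hq, mul_add]
  | monomial d r hd =>
    rw [eval₂_monomial, eval₂_monomial, ← hd, Finsupp.weight_apply, Finsupp.sum, ofAdd_sum,
      map_prod, Units.coe_prod, Finsupp.prod, Finsupp.prod, mul_left_comm, ← Finset.prod_mul_distrib]
    congr 1
    refine Finset.prod_congr rfl fun s _ => ?_
    rw [mul_pow, ofAdd_nsmul, map_pow, Units.val_pow_eq_pow_val]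

/-- The character `n ↦ ∏ u_k ^ n_k`. -/
noncomputable def chi {κ D : Type} [Fintype κ] [CommRing D] (u : κ → Dˣ) :
    Multiplicative (κ → ℤ) →* Dˣ where
  toFun n := ∏ k, u k ^ n.toAdd k
  map_one' := by simp
  map_mul' a b := by simp [zpow_add, Finset.prod_mul_distrib]

theorem chi_apply {κ D : Type} [Fintype κ] [CommRing D] (u : κ → Dˣ) (n : κ → ℤ) :
    chi u (.ofAdd n) = ∏ k, u k ^ n k := rfl

theorem chi_single {κ D : Type} [Fintype κ] [DecidableEq κ] [CommRing D] (u : κ → Dˣ) (k : κ) :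
    chi u (.ofAdd (Pi.single k 1)) = u k := by
  rw [chi_apply, Finset.prod_eq_single k (fun l _ h => by simp [Pi.single_eq_of_ne h]) (by simp)]
  simp

theorem chi_neg_single {κ D : Type} [Fintype κ] [DecidableEq κ] [CommRing D] (u : κ → Dˣ) (k : κ) :
    chi u (.ofAdd (-Pi.single k 1)) = (u k)⁻¹ := by
  rw [ofAdd_neg, map_inv, chi_single]

/-- Variables `x_(k,i)` of weight `ε_k` and `y_(k,j)` of weight `-ε_k`, the `ε_k` independent. -/
structure Pr {κ ν : Type} (w : σ → M) (xv yv : κ → ν → σ) (ε : κ → M) : Prop where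
  all : ∀ s, (∃ k i, s = xv k i) ∨ ∃ k j, s = yv k j
  wx : ∀ k i, w (xv k i) = ε k
  wy : ∀ k j, w (yv k j) = -ε k
  ind : ∀ k, ∃ c : M →+ ℤ, c (ε k) = 1 ∧ ∀ l, l ≠ k → c (ε l) = 0

theorem Pr.symm {κ ν : Type} {w : σ → M} {xv yv : κ → ν → σ} {ε : κ → M} (h : Pr w xv yv ε) :
    Pr w yv xv fun k => -ε k :=
  ⟨fun s => (h.all s).symm, h.wy, fun k j => by rw [h.wx, neg_neg], fun k => by
    obtain ⟨c, h1, h2⟩ := h.ind k
    exact ⟨-c, by simp [h1], fun l hl => by simp [h2 l hl]⟩⟩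

theorem Pr.partner {κ ν : Type} {w : σ → M} {xv yv : κ → ν → σ} {ε : κ → M} (h : Pr w xv yv ε)
    (d : σ →₀ ℕ) (hd : Finsupp.weight w d = 0) (k : κ) (i : ν) (hi : xv k i ∈ d.support) :
    ∃ j, yv k j ∈ d.support ∧ yv k j ≠ xv k i := by
  obtain ⟨c, h1, h2⟩ := h.ind k
  by_contra hn
  have h3 : ∀ j, yv k j ≠ xv k i := fun j hj => by
    have := h.wy k j
    rw [hj, h.wx] at this
    have := congrArg c this
    rw [map_neg, h1] at this
    omega
  have h4 : ∀ s ∈ d.support, 0 ≤ c (d s • w s) := fun s hs => by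
    rw [map_nsmul]
    refine nsmul_nonneg ?_ _
    rcases h.all s with ⟨l, a, rfl⟩ | ⟨l, a, rfl⟩
    · rw [h.wx]
      by_cases hl : l = k
      · rw [hl, h1]; exact zero_le_one
      · rw [h2 l hl]
    · by_cases hl : l = k
      · exact absurd ⟨a, hl ▸ hs, h3 a⟩ hn
      · rw [h.wy, map_neg, h2 l hl, neg_zero]
  have h5 := congrArg c hd
  rw [Finsupp.weight_apply, Finsupp.sum, map_sum, map_zero] at h5
  have h6 := (Finset.sum_eq_zero_iff_of_nonneg h4).mp h5 _ hi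
  rw [map_nsmul, h.wx, h1, nsmul_eq_mul, mul_one, Nat.cast_eq_zero] at h6
  exact Finsupp.mem_support_iff.mp hi h6

/-- W0: a polynomial of weight zero is a polynomial in the products `x_(k,i) y_(k,j)`. -/
theorem Pr.w0 {κ ν : Type} {w : σ → M} {xv yv : κ → ν → σ} {ε : κ → M} (h : Pr w xv yv ε)
    {P : MvPolynomial σ R} (hP : P.IsWeightedHomogeneous w 0) :
    ∃ P' : MvPolynomial (κ × ν × ν) R,
      aeval (fun t : κ × ν × ν => X (xv t.1 t.2.1) * X (yv t.1 t.2.2)) P' = P := by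
  classical
  let E : MvPolynomial (κ × ν × ν) R →ₐ[R] MvPolynomial σ R :=
    aeval fun t : κ × ν × ν => X (xv t.1 t.2.1) * X (yv t.1 t.2.2)
  have key : ∀ (n : ℕ) (d : σ →₀ ℕ), d.degree = n → Finsupp.weight w d = 0 → ∀ r : R,
      ∃ P', E P' = monomial d r := fun n => by
    induction n using Nat.strong_induction_on with
    | _ n ih =>
      intro d hn hd r
      have step : ∀ k i j, xv k i ∈ d.support → yv k j ∈ d.support → yv k j ≠ xv k i →
          ∃ P', E P' = monomial d r := fun k i j hi hj hij => by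
        have hle : Finsupp.single (xv k i) 1 + Finsupp.single (yv k j) 1 ≤ d := fun s => by
          have h1 := Finsupp.mem_support_iff.mp hi
          have h2 := Finsupp.mem_support_iff.mp hj
          rw [Finsupp.add_apply, Finsupp.single_apply, Finsupp.single_apply]
          split_ifs with h3 h4 h4
          · exact absurd (h4.trans h3.symm) hij
          · rw [← h3]; omega
          · rw [← h4]; omega
          · omega
        obtain ⟨d', rfl⟩ := exists_add_of_le hle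
        rw [map_add, map_add, Finsupp.weight_single, Finsupp.weight_single, h.wx, h.wy, one_smul,
          one_smul, add_neg_cancel, zero_add] at hd
        rw [map_add, map_add, Finsupp.degree_single, Finsupp.degree_single] at hn
        obtain ⟨P', hP'⟩ := ih _ (by omega) d' rfl hd r
        refine ⟨X (k, i, j) * P', ?_⟩
        rw [map_mul, hP', aeval_X, X, X, monomial_mul, monomial_mul, one_mul, one_mul]
      rcases eq_or_ne d 0 with rfl | h0
      · exact ⟨C r, E.commutes r⟩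
      · obtain ⟨s, hs⟩ := Finsupp.support_nonempty_iff.mpr h0
        rcases h.all s with ⟨k, i, rfl⟩ | ⟨k, j, rfl⟩
        · obtain ⟨j, h1, h2⟩ := h.partner d hd k i hs
          exact step k i j hs h1 h2
        · obtain ⟨i, h1, h2⟩ := h.symm.partner d hd k j hs
          exact step k i j h1 hs h2.symm
  change ∃ P', E P' = P
  induction hP using IsWeightedHomogeneous.induction_on with
  | zero => exact ⟨0, map_zero _⟩
  | add p q _ _ hp hq =>
    obtain ⟨p', rfl⟩ := hp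
    obtain ⟨q', rfl⟩ := hq
    exact ⟨p' + q', map_add _ _ _⟩
  | monomial d r hd => exact key _ d rfl hd r

/-- W0, evaluated: the value at `(x, y)` is the value of one polynomial at `e = x y`. -/
theorem Pr.w0_eval {κ ν : Type} {w : σ → M} {xv yv : κ → ν → σ} {ε : κ → M} (h : Pr w xv yv ε)
    {P : MvPolynomial σ R} (hP : P.IsWeightedHomogeneous w 0) :
    ∃ P' : MvPolynomial (κ × ν × ν) R, ∀ (D : Type) [CommRing D] (f : R →+* D) (z : σ → D)
      (e : κ × ν × ν → D), (∀ k i j, z (xv k i) * z (yv k j) = e (k, i, j)) →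
      eval₂ f z P = eval₂ f e P' := by
  obtain ⟨P', rfl⟩ := h.w0 hP
  refine ⟨P', fun D _ f z e he => ?_⟩
  have : (eval₂Hom f z).comp (aeval (R := R) fun t : κ × ν × ν =>
      (X (xv t.1 t.2.1) * X (yv t.1 t.2.2) : MvPolynomial σ R)).toRingHom = eval₂Hom f e :=
    ringHom_ext (fun r => by simp) fun t => by simp [he]
  exact RingHom.congr_fun this P'

theorem pr_wt (κ : Type) [DecidableEq κ] :
    Pr (wt (κ := κ)) (fun k i => .inl (k, i)) (fun k j => .inr (k, j)) fun k => Pi.single k 1 :=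
  ⟨fun s => s.casesOn (fun t => .inl ⟨t.1, t.2, rfl⟩) fun t => .inr ⟨t.1, t.2, rfl⟩,
    fun _ _ => rfl, fun k _ => Pi.single_neg (f := fun _ => ℤ) k 1,
    fun k => ⟨Pi.evalAddMonoidHom _ k, by simp, fun l hl => by simp [Pi.single_eq_of_ne hl.symm]⟩⟩

/-- FR: a covector for the `N`-th powers. -/
theorem fr_ex (w : σ → M) (a b : Fin 2 → σ) (ε : M) (ha : ∀ i, w (a i) = ε)
    (hb : ∀ j, w (b j) = -ε) (N : ℕ) :
    ∃ y' : Fin 2 → MvPolynomial σ R, (∀ j, (y' j).IsWeightedHomogeneous w (N • -ε)) ∧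
      ∑ i, X (a i) ^ N * y' i = (∑ i, X (a i) * X (b i)) ^ (2 * N - 1) := by
  let S : Subring (MvPolynomial σ R) :=
    { carrier := {P | P.IsWeightedHomogeneous w 0}
      mul_mem' := fun h1 h2 => by simpa using IsWeightedHomogeneous.mul h1 h2
      one_mem' := isWeightedHomogeneous_one _ _
      add_mem' := fun h1 h2 => IsWeightedHomogeneous.add h1 h2
      zero_mem' := isWeightedHomogeneous_zero _ _ _
      neg_mem' := fun h1 => IsWeightedHomogeneous.neg h1 }
  have h0 : ∀ i, X (a i) * X (b i) ∈ S := fun i => by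
    have := (isWeightedHomogeneous_X R w (a i)).mul (isWeightedHomogeneous_X R w (b i))
    rwa [ha, hb, add_neg_cancel] at this
  let u : Fin 2 → S := fun i => ⟨_, h0 i⟩
  obtain ⟨A, B, hAB⟩ := Ideal.mem_span_pair.mp
    ((Ideal.span {u 0 ^ N, u 1 ^ N}).add_pow_mem_of_pow_mem_of_le (a := u 0) (b := u 1)
      (k := 2 * N - 1)
      (Ideal.subset_span (by simp)) (Ideal.subset_span (by simp)) (by omega : N + N ≤ 2 * N - 1 + 1))
  have h1 : ∀ (C : S) (i : Fin 2), (C.1 * X (b i) ^ N).IsWeightedHomogeneous w (N • -ε) :=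
    fun C i => by
      have := IsWeightedHomogeneous.mul C.2 ((isWeightedHomogeneous_X R w (b i)).pow N)
      rwa [hb, zero_add] at this
  refine ⟨![A.1 * X (b 0) ^ N, B.1 * X (b 1) ^ N], Fin.forall_fin_two.mpr ⟨h1 A 0, h1 B 1⟩, ?_⟩
  have h2 := congrArg Subtype.val hAB
  simp only [u, Subring.coe_add, Subring.coe_mul, Subring.coe_pow] at h2
  simp only [Fin.sum_univ_two, Matrix.cons_val_zero, Matrix.cons_val_one]
  rw [← h2]
  ring

theorem hom_map {S : Type} [CommRing S] (f : R →+* S) {w : σ → M} {P : MvPolynomial σ R} {n : M}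
    (h : P.IsWeightedHomogeneous w n) : (map f P).IsWeightedHomogeneous w n :=
  fun d hd => h fun h0 => hd (by rw [coeff_map, h0, map_zero])

end weights

section triv

variable {D ν : Type} [CommRing D]

/-- `e = x y` with `x` a column and `y` a row. -/
def Triv (e : ν → ν → D) (x y : ν → D) : Prop := ∀ i j, x i * y j = e i j

theorem Triv.dot [Fintype ν] {e : ν → ν → D} {x y : ν → D} (h : Triv e x y) : ∑ i, x i * y i = ∑ i, e i i :=
  Finset.sum_congr rfl fun i _ => h i i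

/-- Two trivialisations differ by a unit. -/
theorem Triv.unit [Fintype ν] {e : ν → ν → D} {x y x' y' : ν → D} (h : Triv e x y)
    (h' : Triv e x' y') (ht : ∑ i, e i i = 1) : ∃ u : Dˣ, (u : D) = ∑ j, y j * x' j ∧ (∀ i, x' i = u * x i) ∧
      ∀ j, y' j = (u⁻¹ : Dˣ) * y j := by
  have key : ∀ {x y x' y' : ν → D}, Triv e x y → Triv e x' y' →
      (∀ i, x' i = (∑ j, y j * x' j) * x i) ∧ ∀ j, y' j = (∑ i, y' i * x i) * y j :=
    fun {x y x' y'} h h' => by
      have h1 := h'.dot.trans ht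
      refine ⟨fun i => ?_, fun j => ?_⟩
      · rw [← one_mul (x' i), ← h1, Finset.sum_mul, Finset.sum_mul]
        refine Finset.sum_congr rfl fun j _ => ?_
        linear_combination x' j * (h' i j) - x' j * (h i j)
      · rw [← one_mul (y' j), ← h1, Finset.sum_mul, Finset.sum_mul]
        refine Finset.sum_congr rfl fun i _ => ?_
        linear_combination y' i * (h' i j) - y' i * (h i j)
  obtain ⟨a1, a2⟩ := key h h'
  have h2 : (∑ j, y j * x' j) * ∑ i, y' i * x i = 1 := by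
    rw [← h'.dot.trans ht, Finset.mul_sum]
    refine Finset.sum_congr rfl fun i _ => ?_
    linear_combination -(y' i * a1 i)
  exact ⟨⟨_, _, h2, (mul_comm _ _).trans h2⟩, rfl, a1, a2⟩

/-- A trivialisation where a diagonal entry is a unit (any size, all `2 × 2` minors zero). -/
theorem triv_of_unit {e : ν → ν → D} (hm : ∀ i j k l, e i j * e k l = e i l * e k j) (a : ν)
    (v : D) (hv : e a a * v = 1) : Triv e (fun i => e i a) fun j => v * e a j := fun i j => by
  linear_combination e i j * hv + v * hm i a a j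

theorem minors_two {e : Fin 2 → Fin 2 → D} (hd : e 0 0 * e 1 1 = e 0 1 * e 1 0) (i j k l : Fin 2) :
    e i j * e k l = e i l * e k j := by
  fin_cases i <;> fin_cases j <;> fin_cases k <;> fin_cases l <;>
    first | rfl | exact mul_comm _ _ | exact hd | exact hd.symm
          | exact (mul_comm _ _).trans (hd.trans (mul_comm _ _))
          | exact (mul_comm _ _).trans (hd.symm.trans (mul_comm _ _))

/-- Over a local ring there is a trivialisation. -/
theorem triv_local [Fintype ν] [IsLocalRing D] {e : ν → ν → D}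
    (hm : ∀ i j k l, e i j * e k l = e i l * e k j) (ht : ∑ i, e i i = 1) : ∃ x y, Triv e x y := by
  obtain ⟨a, -, ha⟩ := IsLocalRing.exists_of_isUnit_sum (ht ▸ isUnit_one : IsUnit (∑ i, e i i))
  obtain ⟨v, hv⟩ := ha.exists_right_inv
  exact ⟨_, _, triv_of_unit hm a v hv⟩

theorem Triv.minors {e : ν → ν → D} {x y : ν → D} (h : Triv e x y) (i j k l : ν) :
    e i j * e k l = e i l * e k j := by
  rw [← h, ← h, ← h, ← h]; ring

theorem Triv.map {D' : Type} [CommRing D'] (f : D →+* D') {e : ν → ν → D} {x y : ν → D}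
    (h : Triv e x y) : Triv (fun i j => f (e i j)) (fun i => f (x i)) fun j => f (y j) :=
  fun i j => by rw [← map_mul, h]

end triv

section parts

variable {κ : Type} [Fintype κ] [DecidableEq κ] {A : Type} [CommRing A]

omit [Fintype κ] [DecidableEq κ] in
theorem rel_of_jp {a : XY κ → A} (h : JP (emat a)) : Rel a := fun k => by
  rw [Fin.sum_univ_two, ← (h k).1]
  simp only [emat]
  ring

omit [Fintype κ] [DecidableEq κ] in
theorem jp_of_rel {a : XY κ → A} (h : Rel a) : JP (emat a) := fun k => by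
  have := h k
  rw [Fin.sum_univ_two] at this
  simp only [emat]
  exact ⟨by linear_combination this, by ring⟩

omit [Fintype κ] [DecidableEq κ] in
theorem jp_map {D : Type} [CommRing D] (ψ : A →+* D) {e : EV κ → A} (h : JP e) : JP (ψ ∘ e) :=
  fun k => ⟨by simpa using congrArg ψ (h k).1, by simpa using congrArg ψ (h k).2⟩

omit [Fintype κ] in
theorem p1 (P : MvPolynomial (XY κ) A) (h : Hg 0 P) :
    ∃ P' : MvPolynomial (EV κ) A, aeval (emat X) P' = P := (pr_wt κ).w0 h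

/-- The monomial of weight `-n` in the chart `σ`. -/
noncomputable def mu {D : Type} [CommRing D] (n : κ → ℤ) (σ : κ → Fin 2) (a : XY κ → D) : D :=
  ∏ k, a (.inr (k, σ k)) ^ (n k).toNat * a (.inl (k, σ k)) ^ (-n k).toNat

theorem mu_hom (n : κ → ℤ) (σ : κ → Fin 2) : Hg (-n) (mu n σ X : MvPolynomial (XY κ) A) := by
  have h := IsWeightedHomogeneous.prod (w := wt (κ := κ)) Finset.univ
    (fun k => (X (.inr (k, σ k)) ^ (n k).toNat * X (.inl (k, σ k)) ^ (-n k).toNat :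
      MvPolynomial (XY κ) A)) (fun k => Pi.single k (-n k)) fun k _ => by
    have := ((isWeightedHomogeneous_X A (wt (κ := κ)) (.inr (k, σ k))).pow (n k).toNat).mul
      ((isWeightedHomogeneous_X A (wt (κ := κ)) (.inl (k, σ k))).pow (-n k).toNat)
    convert this using 1
    funext l
    by_cases hl : l = k
    · subst hl
      simp only [wt, Sum.elim_inl, Sum.elim_inr, Pi.add_apply, Pi.smul_apply, Pi.single_eq_same]
      simp only [nsmul_eq_mul]
      omega
    · simp [wt, Pi.single_eq_of_ne hl]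
  rwa [show ∑ k, Pi.single k (-n k) = -n from Finset.univ_sum_single (-n)] at h

omit [DecidableEq κ] in
theorem mu_span {D : Type} [CommRing D] (n : κ → ℤ) {a : XY κ → D} (h : Rel a) :
    Ideal.span (Set.range fun σ => mu n σ a) = ⊤ := by
  by_contra hne
  obtain ⟨m, hm, hle⟩ := Ideal.exists_le_maximal _ hne
  have hp := hm.isPrime
  have h1 : ∀ k, ∃ i, a (.inr (k, i)) * a (.inl (k, i)) ∉ m := fun k => by
    by_contra hc
    push Not at hc
    exact hp.ne_top ((Ideal.eq_top_iff_one _).mpr (h k ▸ m.sum_mem fun i _ => hc i))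
  choose σ hσ using h1
  obtain ⟨k, -, hk⟩ := Ideal.IsPrime.prod_mem_iff.mp (hle (Ideal.subset_span ⟨σ, rfl⟩))
  rcases hp.mem_or_mem hk with h2 | h2
  · exact hσ k (m.mul_mem_right _ (hp.mem_of_pow_mem _ h2))
  · exact hσ k (m.mul_mem_left _ (hp.mem_of_pow_mem _ h2))

theorem p2 (e : EV κ → A) (n : κ → ℤ) (s : MvPolynomial (XY κ) A) (he : JP e) (hs : Hg n s) :
    ∃ I : Ideal A, I.FG ∧ Zer e s I := by
  have key : ∀ σ : κ → Fin 2, ∃ b : A, ∀ (D : Type) [CommRing D] (ψ : A →+* D) (a : XY κ → D),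
      emat a = ψ ∘ e → ψ b = mu n σ a * eval₂ ψ a s := fun σ => by
    have h0 := (mu_hom (A := A) n σ).mul hs
    rw [neg_add_cancel] at h0
    obtain ⟨P', hP'⟩ := (pr_wt κ).w0_eval h0
    refine ⟨eval e P', fun D _ ψ a ha => ?_⟩
    have h1 := hP' D ψ a (ψ ∘ e) fun k i j => congrFun ha (k, i, j)
    have h2 : eval₂ ψ a (mu n σ X : MvPolynomial (XY κ) A) = mu n σ a := by
      simp only [mu, eval₂_prod, eval₂_mul, eval₂_pow, eval₂_X]
    rw [eval₂_mul, h2] at h1
    rw [h1, ← eval₂_id, eval₂_comp_left, RingHom.comp_id]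
  choose b hb using key
  refine ⟨Ideal.span (Set.range b), Submodule.fg_span (Set.finite_range b), fun D _ ψ a ha => ?_⟩
  rw [Ideal.map_span]
  refine le_antisymm (Ideal.span_le.mpr ?_) ((Ideal.span_singleton_le_iff_mem _).mpr ?_)
  · rintro _ ⟨_, ⟨σ, rfl⟩, rfl⟩
    rw [hb σ D ψ a ha]
    exact Ideal.mul_mem_left _ _ (Ideal.mem_span_singleton_self _)
  · obtain ⟨c, hc⟩ := Ideal.mem_span_range_iff_exists_fun.mp
      ((Ideal.eq_top_iff_one _).mp (mu_span n (rel_of_jp (ha ▸ jp_map ψ he))))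
    rw [← one_mul (eval₂ ψ a s), ← hc, Finset.sum_mul]
    refine Ideal.sum_mem _ fun σ _ => ?_
    rw [mul_assoc, ← hb σ D ψ a ha]
    exact Ideal.mul_mem_left _ _ (Ideal.subset_span ⟨_, ⟨σ, rfl⟩, rfl⟩)

omit [Fintype κ] [DecidableEq κ] in
theorem p3 (e : EV κ → A) (σ : κ → Fin 2) (he : JP e) (hu : ∀ k, IsUnit (e (k, σ k, σ k))) :
    ∃ a : XY κ → A, emat a = e := by
  choose v hv using fun k => (hu k).exists_right_inv
  exact ⟨Sum.elim (fun t => e (t.1, t.2, σ t.1)) fun t => v t.1 * e (t.1, σ t.1, t.2),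
    funext fun t => triv_of_unit (e := fun i j => e (t.1, i, j)) (minors_two (he t.1).2) (σ t.1)
      (v t.1) (hv t.1) t.2.1 t.2.2⟩

theorem p4 (n : κ → ℤ) (s : MvPolynomial (XY κ) A) (D : Type) [CommRing D] (ψ : A →+* D)
    (a : XY κ → D) (u : κ → Dˣ) (hs : Hg n s) :
    eval₂ ψ (Sum.elim (fun v => a (.inl v) * u v.1) fun v => a (.inr v) * ((u v.1)⁻¹ : Dˣ)) s =
      (∏ k, u k ^ n k : Dˣ) * eval₂ ψ a s := by
  rw [← chi_apply, ← eval_scale wt (chi u) ψ a hs]
  congr 1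
  funext t
  rcases t with t | t
  · rw [Sum.elim_inl, (pr_wt κ).wx t.1 t.2, chi_single, mul_comm]
  · rw [Sum.elim_inr, (pr_wt κ).wy t.1 t.2, chi_neg_single, mul_comm]

omit [Fintype κ] in
theorem p5 (N : ℕ) : ∃ Φ : XY κ → MvPolynomial (XY κ) ℤ, (∀ v, Φ (.inl v) = X (.inl v) ^ N) ∧
    (∀ v, Hg ((N : ℤ) • wt v) (Φ v)) ∧
    (∀ (n : κ → ℤ) (s : MvPolynomial (XY κ) A), Hg n s →
      Hg ((N : ℤ) • n) (aeval (fun v => map (Int.castRingHom A) (Φ v)) s)) ∧
    ∀ (D : Type) [CommRing D] (a : XY κ → D), Rel a → Rel fun v => aeval a (Φ v) := by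
  have key := fun k : κ => fr_ex (R := ℤ) (wt (κ := κ)) (fun i => .inl (k, i))
    (fun j => .inr (k, j)) (Pi.single k 1) ((pr_wt κ).wx k) ((pr_wt κ).wy k) N
  choose y' h1 h2 using key
  have hex : ∀ (f : XV κ → MvPolynomial (XY κ) ℤ) (g : κ → Fin 2 → MvPolynomial (XY κ) ℤ),
      ∃ Φ : XY κ → MvPolynomial (XY κ) ℤ, (∀ v, Φ (.inl v) = f v) ∧ ∀ k j, Φ (.inr (k, j)) = g k j :=
    fun f g => ⟨Sum.elim f fun t => g t.1 t.2, fun _ => rfl, fun _ _ => rfl⟩
  obtain ⟨Φ, hl, hr⟩ := hex (fun t => X (.inl t) ^ N) y'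
  have h3 : ∀ v, Hg ((N : ℤ) • wt v) (Φ v) := fun v => by
    rw [natCast_zsmul]
    rcases v with t | ⟨k, j⟩
    · rw [hl]
      exact (isWeightedHomogeneous_X ℤ (wt (κ := κ)) (.inl t)).pow N
    · rw [hr, (pr_wt κ).wy k j]
      exact h1 k j
  refine ⟨Φ, hl, h3, fun n s hs => aeval_hom wt wt (zsmulAddGroupHom (N : ℤ)) _
    (fun v => hom_map _ (h3 v)) hs, fun D _ a ha k => ?_⟩
  have h4 := congrArg (aeval a) (h2 k)
  have h5 : ∑ i, a (.inl (k, i)) * a (.inr (k, i)) = 1 := by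
    rw [← ha k]; exact Finset.sum_congr rfl fun i _ => mul_comm _ _
  simp only [map_sum, map_mul, map_pow, aeval_X, h5, one_pow] at h4
  rw [← h4]
  refine Finset.sum_congr rfl fun i _ => ?_
  simp only [hl, hr, map_pow, aeval_X]
  exact mul_comm _ _

end parts

end Pool.Agent.MP_855f4c_ag.T.Ja

end

section

/-! h12g: excision squares from isomorphisms modulo an ideal. -/

set_option autoImplicit false

namespace Pool.Agent.MP_855f4c_ag.T

open E3

namespace Exq

variable {B C : Type} [CommRing B] [CommRing C] [Algebra B C] {I : Ideal B}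

theorem qiso_iff : QIso B C I ↔ (∀ b, algebraMap B C b ∈ I.map (algebraMap B C) → b ∈ I) ∧
    ∀ c : C, ∃ b, c - algebraMap B C b ∈ I.map (algebraMap B C) := by
  refine and_congr ⟨fun h b hb => ?_, fun h => ?_⟩ ⟨fun h c => ?_, fun h c => ?_⟩
  · refine Ideal.Quotient.eq_zero_iff_mem.1 (h ?_)
    rw [map_zero, Ideal.quotientMap_mk]
    exact Ideal.Quotient.eq_zero_iff_mem.2 hb
  · refine (injective_iff_map_eq_zero _).2 fun x hx => ?_
    obtain ⟨b, rfl⟩ := Ideal.Quotient.mk_surjective x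
    rw [Ideal.quotientMap_mk] at hx
    exact Ideal.Quotient.eq_zero_iff_mem.2 (h b (Ideal.Quotient.eq_zero_iff_mem.1 hx))
  · obtain ⟨x, hx⟩ := h (Ideal.Quotient.mk _ c)
    obtain ⟨b, rfl⟩ := Ideal.Quotient.mk_surjective x
    rw [Ideal.quotientMap_mk] at hx
    exact ⟨b, Ideal.Quotient.eq.1 hx.symm⟩
  · obtain ⟨c, rfl⟩ := Ideal.Quotient.mk_surjective c
    obtain ⟨b, hb⟩ := h c
    exact ⟨Ideal.Quotient.mk _ b, by
      rw [Ideal.quotientMap_mk]; exact (Ideal.Quotient.eq.2 hb).symm⟩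

/-- A ring map killing `I` extends uniquely. -/
theorem ext (h : QIso B C I) {D : Type} [CommRing D] (ψ : B →+* D) (hψ : I ≤ RingHom.ker ψ) :
    ∃! ψ₁ : C →+* D, ψ₁.comp (algebraMap B C) = ψ := by
  let e := RingEquiv.ofBijective _ h
  have key : ∀ (χ : C →+* D), χ.comp (algebraMap B C) = ψ → ∀ c b,
      c - algebraMap B C b ∈ I.map (algebraMap B C) → χ c = ψ b := fun χ hχ c b hb => by
    have h1 : I.map (algebraMap B C) ≤ RingHom.ker χ :=
      Ideal.map_le_iff_le_comap.2 (by rw [RingHom.comap_ker, hχ]; exact hψ)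
    have h2 := h1 hb
    rw [RingHom.mem_ker, map_sub, sub_eq_zero] at h2
    rw [h2, ← hχ]; rfl
  have h0 : (((Ideal.Quotient.lift I ψ fun _ ha => hψ ha).comp e.symm.toRingHom).comp
      (Ideal.Quotient.mk _)).comp (algebraMap B C) = ψ := by
    ext b
    have : e.symm (Ideal.Quotient.mk _ (algebraMap B C b)) = Ideal.Quotient.mk _ b :=
      e.symm_apply_eq.2 (Ideal.quotientMap_mk (H := Ideal.le_comap_map)).symm
    exact (congrArg (Ideal.Quotient.lift I ψ fun _ ha => hψ ha) this).trans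
      (Ideal.Quotient.lift_mk _ _ _)
  refine ⟨_, h0, fun χ hχ => RingHom.ext fun c => ?_⟩
  obtain ⟨b, hb⟩ := (qiso_iff.1 h).2 c
  exact (key χ hχ c b hb).trans (key _ h0 c b hb).symm

theorem bc {B' C' : Type} [CommRing B'] [CommRing C'] [Algebra B B'] [Algebra B C']
    [Algebra C C'] [Algebra B' C'] [IsScalarTower B C C'] [IsScalarTower B B' C']
    [Algebra.IsPushout B C B' C'] {J : Ideal B'} (hJ : I.map (algebraMap B B') ≤ J)
    (h : QIso B C I) : QIso B' C' J := by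
  have hI : ∀ i ∈ I, algebraMap B B' i ∈ J := fun i hi => hJ (Ideal.mem_map_of_mem _ hi)
  refine qiso_iff.2 ⟨fun b hb => ?_, fun c => ?_⟩
  · obtain ⟨χ, hχ, -⟩ := ext h (algebraMap B (B' ⧸ J)) fun i hi =>
      Ideal.Quotient.eq_zero_iff_mem.2 (hI i hi)
    let χ' : C →ₐ[B] B' ⧸ J := { χ with commutes' := fun r => RingHom.congr_fun hχ r }
    let θ : C' →ₐ[B] B' ⧸ J := Algebra.pushoutDesc C' χ' (Ideal.Quotient.mkₐ B J)
      fun _ _ => mul_comm _ _
    have hθ : ∀ x, θ (algebraMap B' C' x) = Ideal.Quotient.mk J x := fun x =>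
      Algebra.pushoutDesc_right C' χ' (Ideal.Quotient.mkₐ B J) (fun _ _ => mul_comm _ _) x
    have h1 : J.map (algebraMap B' C') ≤ RingHom.ker θ.toRingHom :=
      Ideal.map_le_iff_le_comap.2 fun x hx => (hθ x).trans (Ideal.Quotient.eq_zero_iff_mem.2 hx)
    exact Ideal.Quotient.eq_zero_iff_mem.1 ((hθ b).symm.trans (h1 hb))
  · refine (Algebra.IsPushout.out (R := B) (S := C) (R' := B') (S' := C')).inductionOn c
      (fun c => ∃ b, c - algebraMap B' C' b ∈ J.map (algebraMap B' C')) ⟨0, by simp⟩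
      (fun m => ⟨m, by simp⟩) (fun s n ⟨b, hb⟩ => ?_) fun x y ⟨a, ha⟩ ⟨b, hb⟩ =>
        ⟨a + b, by rw [map_add, add_sub_add_comm]; exact add_mem ha hb⟩
    obtain ⟨a, ha⟩ := (qiso_iff.1 h).2 s
    have h1 : (I.map (algebraMap B C)).map (algebraMap C C') ≤ J.map (algebraMap B' C') := by
      rw [Ideal.map_map, ← IsScalarTower.algebraMap_eq, IsScalarTower.algebraMap_eq B B' C',
        ← Ideal.map_map]
      exact Ideal.map_mono hJ
    have h2 := h1 (Ideal.mem_map_of_mem _ ha)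
    rw [map_sub, ← IsScalarTower.algebraMap_apply, IsScalarTower.algebraMap_apply B B' C'] at h2
    refine ⟨algebraMap B B' a * b, ?_⟩
    have h3 := add_mem (Ideal.mul_mem_left _ (algebraMap C C' s) hb)
      (Ideal.mul_mem_right (algebraMap B' C' b) _ h2)
    rw [Algebra.smul_def, map_mul]
    have h4 : algebraMap C C' s * n - algebraMap B' C' (algebraMap B B' a) * algebraMap B' C' b =
        algebraMap C C' s * (n - algebraMap B' C' b) + (algebraMap C C' s -
          algebraMap B' C' (algebraMap B B' a)) * algebraMap B' C' b := by ring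
    rw [h4]
    exact h3

end Exq

theorem exs : EXS_s :=
  ⟨fun B C B' C' _ _ _ _ _ _ _ _ _ _ _ h _ _ hJ h1 h2 =>
    have : Algebra.IsPushout B B' C C' := h.symm
    ⟨h1.of_isPushout B' C', Exq.bc hJ h2⟩,
    fun _ _ _ _ _ _ h1 h2 => ⟨h1, fun _ _ _ ψ hψ => Exq.ext h2 ψ hψ⟩⟩

end Pool.Agent.MP_855f4c_ag.T

end

section

/-! The algebraic part of the main argument. -/

set_option autoImplicit false

open MvPolynomial

namespace Pool.Agent.MP_855f4c_ag.T

def M0_s : Prop := ∀ (p : ℕ) [Fact p.Prime] (K Ω : Type) [Field K] [Field Ω] [IsAlgClosed Ω]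
  [Algebra K Ω] [Algebra K (PadicAlgCl p)] (κ : Type) [Fintype κ] [DecidableEq κ] (c : ℕ)
  (e : Fin c → κ → ℕ) (cf : MI e → K) (τ ι ρ : Type) [Fintype τ] [Fintype ι] [Finite ρ]
  (s : τ → MvPolynomial (XY κ) K) (n : τ → κ → ℤ) (q : ι → MvPolynomial (XY κ) K) (m : κ → ℤ)
  (g : ρ → MvPolynomial (ι × ι) K), (∀ t, Hg (n t) (s t)) → (∀ i, Hg m (q i)) →
    Algebra.FormallySmooth K (MvPolynomial (ι × ι) K ⧸ Ideal.span (Set.range g)) →
    (∀ a : XY κ → Ω, Rel a → (∀ b, gen (algebraMap K Ω ∘ cf) b (fun v => a (.inl v)) = 0) →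
      (∀ t, aeval a (s t) = 0) → (∃ i, aeval a (q i) ≠ 0) ∧ ∀ lam : ι → Ω,
        ∑ i, lam i * aeval a (q i) = 1 →
        ∀ j, aeval (fun v : ι × ι => aeval a (q v.1) * lam v.2) (g j) = 0) →
    ∃ r : ℕ, ∀ Δ : MvPolynomial (MI fun a k => p ^ r * e a k) ℤ,
      map (Int.castRingHom (ZMod p)) Δ ≠ 0 → ∀ ε : ℝ, ε < 1 →
      ∃ (N : ℕ) (E : Finset (PadicAlgCl p)) (s' : τ → MvPolynomial (XY κ) K)
        (q' lam' : ι → MvPolynomial (XY κ) K), (∀ z ∈ E, ‖z‖ ≤ 1) ∧
        (∀ t, Hg (((p ^ N : ℕ) : ℤ) • n t) (s' t)) ∧ (∀ i, Hg (((p ^ N : ℕ) : ℤ) • m) (q' i)) ∧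
        (∀ i, Hg (((p ^ N : ℕ) : ℤ) • -m) (lam' i)) ∧
        ∀ O : Subring (PadicAlgCl p), (∀ z ∈ E, z ∈ O) →
          (∀ x : K, ‖algebraMap K (PadicAlgCl p) x‖ ≤ 1 → algebraMap K _ x ∈ O) →
          ∃ c' : (MI fun a k => p ^ r * e a k) → O,
            ε < ‖aeval (fun i => (c' i : PadicAlgCl p)) Δ‖ ∧
            ∀ (B C₀ : Type) [CommRing B] [CommRing C₀] [Algebra B C₀]
              [IsLocalization.Away (p : B) C₀] (β : JB c' →+* B) (χ : K →+* C₀),
              Newt B (Ideal.span {(p : B)}) →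
              (∀ (x : K) (o : O), algebraMap K _ x = (o : PadicAlgCl p) →
                χ x = algebraMap B C₀ (β (algebraMap O _ o))) →
              ∃ (I : τ → Ideal C₀) (e₀ z : ι × ι → C₀),
                (∀ t, (I t).FG ∧ Zer (algebraMap B C₀ ∘ β ∘ je c') (map χ (s' t)) (I t)) ∧
                (∀ (D : Type) [CommRing D] (ψ : C₀ →+* D) (a : XY κ → D),
                  emat a = ψ ∘ algebraMap B C₀ ∘ β ∘ je c' → ∀ v, ψ (e₀ v) =
                    eval₂ (ψ.comp χ) a (q' v.1) * eval₂ (ψ.comp χ) a (lam' v.2)) ∧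
                (∀ j, eval₂ χ z (g j) ∈ ∑ t, I t) ∧
                IsUnit (Ideal.Quotient.mk (∑ t, I t) (∑ v, z v * e₀ v.swap))

namespace M0

lemma ev_aeval {σ σ' K D : Type} [CommRing K] [CommRing D] (χ : K →+* D) (a : σ' → D)
    (Φ : σ → MvPolynomial σ' K) (P : MvPolynomial σ K) :
    eval₂ χ a (aeval Φ P) = eval₂ χ (fun v => eval₂ χ a (Φ v)) P :=
  eval₂Hom_bind₁ χ a Φ P

lemma ev_int {σ K D : Type} [CommRing K] [CommRing D] (χ : K →+* D) (a : σ → D)
    (P : MvPolynomial σ ℤ) : eval₂ χ a (map (Int.castRingHom K) P) = aeval a P := by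
  rw [eval₂_map, aeval_def, Subsingleton.elim (χ.comp _) (algebraMap ℤ D)]

lemma of_pow {L : Type} [Field L] (W : ValuationSubring L) {x : L} {N : ℕ} (hN : 0 < N)
    (h : x ^ N ∈ W) : x ∈ W := by
  rw [← W.valuation_le_one_iff] at h ⊢
  rwa [map_pow, pow_le_one_iff hN.ne'] at h

lemma est {L ι : Type} [Field L] [Fintype ι] (W : ValuationSubring L) {p : ℕ} {π : L}
    (hπ : p * π = 1) (b f : ι → L) {c d n : ℕ} (hn : c + d ≤ n) (hb : ∀ i, (p : L) ^ c * b i ∈ W)
    (hf : ∀ i, ∃ w ∈ W, f i = p ^ n * w) : π ^ d * ∑ i, b i * f i ∈ W := by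
  obtain ⟨k, rfl⟩ := Nat.exists_eq_add_of_le hn
  rw [Finset.mul_sum]
  refine sum_mem fun i _ => ?_
  obtain ⟨w, hw, e⟩ := hf i
  have : (p : L) ^ d * π ^ d = 1 := by rw [← mul_pow, hπ, one_pow]
  convert mul_mem (mul_mem (hb i) hw) (pow_mem (natCast_mem W p) k) using 1
  rw [e]
  linear_combination (p ^ c * b i * w * p ^ k) * this

end M0

open M0 in
theorem m0 (hNu : NULL_s) (hW : W0_s) (hA : APX_s) (hN : NEWT_s) (hE : ELK_s) : M0_s := by
  intro p _ K Ω _ _ _ _ _ κ _ _ c e cf τ ι ρ _ _ _ s n q m g hs hq hg h1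
  have := Fintype.ofFinite ρ
  obtain ⟨j₀, hj₀⟩ := dens p fun i => (C (cf i) : MvPolynomial Unit K)
  let cf₁ : MI e → K := fun i => p ^ j₀ * cf i
  have hcf (i) : cf₁ i ∈ OK p K := by
    simpa using hj₀ i K (OK p K) (RingHom.id K) 0 (fun _ h => h) fun _ => zero_mem _
  let F (b : Fin c) : MvPolynomial (XY κ) K := gen (fun i => C (cf₁ i)) b fun v => X (.inl v)
  have hF {D : Type} [CommRing D] (χ : K →+* D) (a : XY κ → D) (b) :
      eval₂ χ a (F b) = gen (χ ∘ cf₁) b fun v => a (.inl v) :=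
    (map_gen (eval₂Hom χ a) _ b _).trans (by congr 1 <;> ext <;> simp)
  obtain ⟨n1, n2⟩ := hNu K Ω κ ι (Fin c ⊕ τ) (Sum.elim F s) (Sum.elim (fun b k => e b k) n)
    (by rintro (b | t); exacts [gen_hg _ b, hs t])
  have h1' (a : XY κ → Ω) (ha : Rel a) (h : ∀ t, aeval a (Sum.elim F s t) = 0) :=
    h1 a ha (fun b => by
      have h0 := (hF (algebraMap K Ω) a b).symm.trans (h (.inl b))
      rw [show algebraMap K Ω ∘ cf₁ = fun i => algebraMap K Ω (p ^ j₀) * (algebraMap K Ω ∘ cf) i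
        from funext fun i => map_mul _ _ _, gen_smul] at h0
      exact (mul_eq_zero.1 h0).resolve_left ((map_ne_zero _).2 (pow_ne_zero _ (p_ne p K))))
      fun t => h (.inr t)
  obtain ⟨lam, b₀, hlam, hb₀⟩ := n1 q m hq fun a ha h => (h1' a ha h).1
  choose N b hN0 hb using fun j => n2 (aeval (fun v : ι × ι => q v.1 * lam v.2) (g j))
    fun a ha h => by
      have h2 : ∑ i, aeval a (lam i) * aeval a (q i) = 1 := (hb₀ Ω _ a ha).trans
        (add_eq_left.2 (Finset.sum_eq_zero fun t _ => mul_eq_zero_of_right _ (h t)))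
      refine (ev_aeval _ a _ _).trans ?_
      simp only [eval₂_mul]
      exact (h1' a ha h).2 _ h2 j
  obtain ⟨c₀, hc₀⟩ := dens p fun v : ι × ι => q v.1 * lam v.2
  obtain ⟨c₁, hc₁⟩ := hE (OK p K) K p (ι × ι) ρ g hg c₀ c₀
  obtain ⟨c₃, hc₃⟩ := dens p fun x : Option ρ × Fin c => x.1.elim b₀ b (.inl x.2)
  obtain ⟨r, hr⟩ := hA p κ c e (algebraMap K _ ∘ cf₁) hcf (c₃ + (1 + ∑ j, (c₁ + 1) * N j))
  refine ⟨r, fun Δ hΔ ε hε => ?_⟩
  obtain ⟨M, E, hE1, hE2⟩ := hr Δ hΔ ε hε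
  obtain ⟨Φ, hΦ1, -, hΦ3, hΦ4⟩ := (hW κ K).2.2.2.2 (p ^ M) (pow_pos (Fact.out : p.Prime).pos _)
  let T : MvPolynomial (XY κ) K →ₐ[K] _ := aeval fun v => map (Int.castRingHom K) (Φ v)
  have hT {D : Type} [CommRing D] (χ : K →+* D) (a : XY κ → D) (P) :
      eval₂ χ a (T P) = eval₂ χ (fun v => aeval a (Φ v)) P := by
    simp only [T, ev_aeval, ev_int]
  refine ⟨M, E, fun t => T (s t), fun i => T (q i), fun i => T (lam i), hE1,
    fun t => hΦ3 _ _ (hs t), fun i => hΦ3 _ _ (hq i), fun i => hΦ3 _ _ (hlam i), fun O hO hO' => ?_⟩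
  obtain ⟨c₀', c', hc₀', hΔ', hap⟩ := hE2 O hO
  refine ⟨c', hΔ', fun B C₀ _ _ _ _ β χ hB hχ => ?_⟩
  let β' := (algebraMap B C₀).comp β
  choose I hI using fun t => (hW κ C₀).2.1 _ _ _ (JP.map β' (jp_je c')) (hg_map χ (hΦ3 _ _ (hs t)))
  choose P hP using fun v : ι × ι => (hW κ K).1 (T (q v.1) * T (lam v.2))
    (by simpa only [smul_neg, add_neg_cancel] using (hΦ3 _ _ (hq v.1)).mul (hΦ3 _ _ (hlam v.2)))
  let e₀ (v : ι × ι) : C₀ := eval₂ χ (β' ∘ je c') (P v)
  have he {D : Type} [CommRing D] (ψ : C₀ →+* D) (a : XY κ → D) (h : emat a = ψ ∘ β' ∘ je c') (v) :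
      ψ (e₀ v) = eval₂ (ψ.comp χ) a (T (q v.1)) * eval₂ (ψ.comp χ) a (T (lam v.2)) := by
    rw [← eval₂_mul, ← hP, ev_aeval, eval₂_comp_left, ← h]
    congr 1
    ext x
    simp [emat]
  let mk := Ideal.Quotient.mk (∑ t, I t)
  let ω : OK p K →+* O :=
    ((algebraMap K _).comp (OK p K).subtype).codRestrict O fun x => hO' x x.2
  let π := mk (χ (p : K)⁻¹)
  have hπ : p * π = 1 := by
    have := (map_mul (mk.comp χ) (p : K) (p : K)⁻¹).symm
    rwa [map_natCast, mul_inv_cancel₀ (p_ne p K), map_one] at this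
  have hπ' {L : Type} [Field L] (ψ : C₀ ⧸ ∑ t, I t →+* L) : p * ψ π = 1 := by
    rw [← map_natCast ψ, ← map_mul, hπ, map_one]
  have val (L : Type) [Field L] (ψ : C₀ ⧸ ∑ t, I t →+* L) (W : ValuationSubring L)
      (hψ : ∀ x, ψ (algebraMap B _ x) ∈ W) : ∃ a : XY κ → L,
        (∀ v, ψ (mk (e₀ v)) = eval₂ ((ψ.comp mk).comp χ) a (q v.1 * lam v.2)) ∧
        (∀ v : ι × ι, (p : L) ^ c₀ * eval₂ ((ψ.comp mk).comp χ) a (q v.1 * lam v.2) ∈ W) ∧ Rel a ∧
        ∀ (x : Option ρ) (d : ℕ), d ≤ 1 + ∑ j, (c₁ + 1) * N j →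
          ψ π ^ d * ∑ t, eval₂ ((ψ.comp mk).comp χ) a (x.elim b₀ b t) *
            eval₂ ((ψ.comp mk).comp χ) a (Sum.elim F s t) ∈ W := by
    set χ' := (ψ.comp mk).comp χ
    let φ : JB c' →+* W := ((ψ.comp mk).comp β').codRestrict W fun x => hψ (β x)
    obtain ⟨a, ha, h0⟩ := ex_triv hW c' φ
    have ha' : emat (W.subtype ∘ a) = (ψ.comp mk) ∘ β' ∘ je c' :=
      funext fun v => congrArg W.subtype (congrFun ha v)
    let a' : XY κ → L := fun v => aeval (W.subtype ∘ a) (Φ v)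
    have hm (v) : a' v ∈ W.toSubring := by
      rw [show a' v = W.subtype (aeval a (Φ v)) from
        (comp_aeval_apply a W.subtype.toIntAlgHom _).symm]
      exact Subtype.prop _
    have hO'' : ∀ o ∈ OK p K, χ' o ∈ W.toSubring := fun o ho => by
      change ψ (mk (χ o)) ∈ W
      rw [hχ o (ω ⟨o, ho⟩) rfl]
      exact hψ _
    refine ⟨a', fun v => by rw [eval₂_mul, ← hT, ← hT]; exact he (ψ.comp mk) _ ha' v,
      fun v => hc₀ v L _ χ' a' hO'' hm, hΦ4 L _ (rel_of (ha' ▸ JP.map _ (JP.map β' (jp_je c')))),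
      fun x d hd => ?_⟩
    have hs0 (t) : eval₂ χ' a' (s t) = 0 := by
      have := (hI t).2 L (ψ.comp mk) _ ha'
      rw [eval₂_map, hT, (Ideal.map_eq_bot_iff_le_ker _).2 fun y hy => ?_, eq_comm,
        Ideal.span_singleton_eq_bot] at this
      · exact this
      · change ψ (mk y) = 0
        rw [Ideal.Quotient.eq_zero_iff_mem.2
          ((Finset.single_le_sum (f := I) (fun _ _ => bot_le) (Finset.mem_univ t) :) hy), map_zero]
    rw [Fintype.sum_sum_type]
    simp only [Sum.elim_inr, hs0, mul_zero, Finset.sum_const_zero, add_zero, Sum.elim_inl]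
    refine est W (hπ' ψ) _ _ (Nat.add_le_add_left hd c₃)
      (fun i => hc₃ (x, i) L _ χ' a' hO'' hm) fun i => ?_
    obtain ⟨w, hw⟩ := hap W (φ.comp (algebraMap O _)) _ h0 i
    refine ⟨w, w.2, ?_⟩
    have := congrArg W.subtype hw
    rw [map_gen] at this
    refine (hF χ' a' i).trans (Eq.trans ?_ (this.trans (by simp)))
    congr 1
    · exact funext fun x => congrArg (ψ ∘ mk) (hχ _ _ (hc₀' x).symm)
    · ext v
      simp [a', hΦ1]
  obtain ⟨z, hz, hu⟩ := lift hN p g c₀ c₁ hc₁ ((β.comp (algebraMap O _)).comp ω) (mk.comp χ)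
    (fun o => congrArg mk (hχ _ (ω o) rfl)) π hπ (fun x => by
      obtain ⟨x, rfl⟩ := Ideal.Quotient.mk_surjective x
      obtain ⟨k, y, h⟩ := IsLocalization.Away.surj (p : B) x
      have := congrArg mk h
      rw [map_mul, map_pow, map_natCast, map_natCast] at this
      exact ⟨k, y, this⟩) hB (fun v => mk (e₀ v)) Prod.swap
    (fun v => G.vint _ fun L _ _ ψ W hψ => by
      obtain ⟨a, h₁, h₂, -⟩ := val L ψ W hψ
      simpa only [map_mul, map_pow, map_natCast, h₁] using h₂ v)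
    (fun j => G.vint _ fun L _ _ ψ W hψ => by
      obtain ⟨a, h₁, -, h₃, h₄⟩ := val L ψ W hψ
      have := h₄ (some j) _ ((Finset.single_le_sum (f := fun j => (c₁ + 1) * N j)
        (fun _ _ => Nat.zero_le _) (Finset.mem_univ j)).trans (Nat.le_add_left _ 1))
      rw [Option.elim_some, ← hb j L _ a h₃, pow_mul, ← mul_pow, ev_aeval] at this
      rw [map_mul, map_pow, eval₂_comp_left]
      simpa only [Function.comp_def, h₁, RingHom.comp_assoc] using of_pow W (hN0 j) this)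
    (G.vint _ fun L _ _ ψ W hψ => by
      obtain ⟨a, h₁, -, h₃, h₄⟩ := val L ψ W hψ
      have h5 := h₄ none 1 (Nat.le_add_right _ _)
      have h6 := hb₀ L ((ψ.comp mk).comp χ) a h₃
      rw [Option.elim_none, pow_one] at h5
      generalize ∑ t, eval₂ _ a (b₀ t) * eval₂ _ a (Sum.elim F s t) = y at h5 h6
      convert mul_mem h5 (add_mem (natCast_mem W 2) (mul_mem (natCast_mem W p) h5)) using 1
      simp only [map_mul, map_sub, map_sum, map_one, h₁, eval₂_mul, Prod.fst_swap, Prod.snd_swap]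
      rw [Fintype.sum_prod_type, Finset.sum_congr rfl fun i _ => Finset.sum_congr rfl fun j _ =>
        (by ring : _ = (eval₂ _ a (lam i) * eval₂ _ a (q i)) * (eval₂ _ a (lam j) * eval₂ _ a (q j))),
        ← Finset.sum_mul_sum, h6]
      push_cast
      linear_combination (-ψ π * y ^ 2) * hπ' ψ)
  choose z' hz' using fun v => Ideal.Quotient.mk_surjective (z v)
  refine ⟨I, e₀, z', hI, fun D _ => he, fun j => Ideal.Quotient.eq_zero_iff_mem.1 ?_, ?_⟩
  · rw [eval₂_comp_left]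
    simpa only [Function.comp_def, hz'] using hz j
  · simpa only [map_sum, map_mul, hz'] using hu

end Pool.Agent.MP_855f4c_ag.T

end
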