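import Pool.Agent.MP_855f4c_ag.TC.Te
import Pool.Agent.MP_855f4c_ag.EC.Pa
import Pool.Agent.MP_855f4c_ag.TC.Tb
import Pool.Agent.MP_855f4c_ag.TC.Ta
import Pool.Agent.MP_855f4c_ag.EC.F2b
import Pool.Agent.MP_855f4c_ag.EC.F2e

section

/-! h12g section K: statements. -/

set_option autoImplicit false
set_option backward.isDefEq.respectTransparency false

open CategoryTheory Limits Abelian Opposite AlgebraicGeometry Function

namespace Pool.Agent.MP_855f4c_ag.T

open E E3 E4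

/-- The duality map of the trace `t`. -/
noncomputable abbrev dm {l : ℕ} [Fact l.Prime] {T : Scheme.{0}} {N : ℕ} (t : HH l T N →+ QZ l)
    (A : Sh (Scheme.etaleTopology.over T)) {i j : ℕ} (h : j + i = N) (x : Ext A (Linf l T) i) :
    Ext.{1} (Zs T) A j →+ QZ l := t.comp (x.postcomp (Zs T) h)

/-- Duality for the trace `t`. -/
def PDh {l : ℕ} [Fact l.Prime] {T : Scheme.{0}} {N : ℕ} (t : HH l T N →+ QZ l) : Prop :=
  ∀ A : Sh (Scheme.etaleTopology.over T), Tc l A → ∀ (i j : ℕ) (h : j + i = N), Bijective (dm t A h)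

/-- Quasi-compact and separated. -/
def Qcs (T : Scheme.{0}) : Prop := CompactSpace T ∧ T.IsSeparated

/-- The groups `HH` are the cohomology groups of section E. -/
def ZB_s : Prop :=
  (∀ T : Scheme.{0}, Nonempty ((fr (Scheme.etaleTopology.over T)).obj (E.top T) ≅ Zs T)) ∧
  ∀ (l : ℕ) [Fact l.Prime] (X : Scheme.{0}) (n : ℕ),
    ∃ Θ : ∀ U : Over X, H U (Linf l X) n ≃+ HH l U.left n,
      ∀ (U' U : Over X) (g : U' ⟶ U) x, Θ U' (res g _ n x) = hpb l g.left n (Θ U x)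

/-- Degree zero, torsion, finite levels. -/
def KH_s : Prop := ∀ (l : ℕ) [Fact l.Prime] (T : Scheme.{0}),
  (ConnectedSpace T → Bijective fun a => (Ext.mk₀ (ta l T a) : HH l T 0)) ∧
  (Qcs T → ∀ (n : ℕ) (y : HH l T n), ∃ m : ℕ, l ^ m • y = 0) ∧
  (ConnectedSpace T → Qcs T → ∀ (n : ℕ) (y : HH l T n) (φ : Linf l T ⟶ Linf l T),
    ∃ c : ℕ, post _ φ n y = c • y)

/-- Finiteness from duality. -/
def KCOF_s : Prop := ∀ (l : ℕ) [Fact l.Prime] (T : Scheme.{0}) (N : ℕ) (t : HH l T N →+ QZ l),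
  Qcs T → PDh t → ∀ i ≤ N, Cof l (HH l T i)

/-- The trace is injective; top classes with nonzero `tau`; complementary classes. -/
def KTOP_s : Prop := ∀ (l : ℕ) [Fact l.Prime] (T : Scheme.{0}) (N : ℕ) (t : HH l T N →+ QZ l),
  Qcs T → ConnectedSpace T → PDh t → Injective t ∧
    (∀ x : EE l T N, (∃ a, tau x a ≠ 0) → Surjective (tau x)) ∧
    ∀ (i j : ℕ) (h : i + j = N) (α : EE l T i) (η : EE l T N), (∃ a, tau α a ≠ 0) →
      ∃ (m : ℕ) (α' : EE l T j), α.comp α' h = l ^ m • η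

/-- Cohomology of the quotient `AU` is cohomology of the closed complement. -/
def CLZ_s : Prop := ∀ (l : ℕ) [Fact l.Prime] (D T : Scheme.{0}) (i : D ⟶ T) (O : T.Opens),
  IsClosedImmersion i → (∀ x : T, x ∈ O ↔ x ∉ Set.range i) → Linv l T → Tc l (AU l O) ∧
    ∀ n : ℕ, ∃ Ψ : Ext.{1} (Zs T) (AU l O) n ≃+ HH l D n,
      ∀ y : HH l T n, Ψ (post _ (πU l O) n y) = hpb l i n y

/-- Pull-back calculus used in section K. -/
def KPB_s : Prop := ∀ (l : ℕ) [Fact l.Prime] (T' T : Scheme.{0}) (g : T' ⟶ T),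
  (∀ (i j n : ℕ) (h : i + j = n) (y : HH l T i) (x : EE l T j),
    hpb l g n (y.comp x h) = (hpb l g i y).comp (epb l g j x) h) ∧
  (∀ (n : ℕ) (x : EE l T n) a, hpb l g n (tau x a) = tau (epb l g n x) a) ∧
  (∀ L : List (EE l T 2), ∀ h, epb l g _ (pw L) = (one l T').comp (pw (L.map (epb l g 2))) h) ∧
  ∀ (Ω : Type) [Field Ω] (Ch : Chern l Ω) (hP : P1L_s) (t : T ⟶ Spec (.of Ω)) (z : T ⟶ P1),
    epb l g 2 (Ch.x hP t z) = Ch.x hP (g ≫ t) (g ≫ z)

/-- The section at infinity and the first coordinate. -/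
def KSEC_s : Prop := ∀ (hP : P1L_s) (S : Scheme.{0}) (L : PL S),
  ∃ (i : S ⟶ L.P) (O : L.P.Opens), i ≫ L.π = 𝟙 S ∧ IsClosedImmersion i ∧
    (∀ x : L.P, x ∈ O ↔ x ∉ Set.range i) ∧ Nonempty (Sec (hP L.P L.q).coc O)

/-- The product of the classes of a power of the projective line is not zero. -/
def TOP_s : Prop := ∀ (l : ℕ) [Fact l.Prime] (Ω : Type) [Field Ω] [IsAlgClosed Ω] [CharZero Ω]
  (Ch : Chern l Ω) (hP : P1L_s) (κ : Type) [Fintype κ] [DecidableEq κ] (K : List κ), K.Nodup →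
    (∀ k, k ∈ K) → ∃ (P : Scheme.{0}) (g : P ⟶ Spec (.of Ω)) (z : κ → (P ⟶ P1)),
      D.TwN K.length g ∧ ZL g z (noEq κ Ω) ∧
      (∀ (T : Scheme.{0}) (t : T ⟶ Spec (.of Ω)) (y : κ → (T ⟶ P1)),
        ∃! w : T ⟶ P, w ≫ g = t ∧ ∀ k, w ≫ z k = y k) ∧
      Surjective (tau (pw (K.map fun k => Ch.x hP g (z k)))) ∧
      ∃ a, tau (pw (K.map fun k => Ch.x hP g (z k))) a ≠ 0

/-- Duality on the geometric fibre. -/
def KPD_s : Prop := ∀ (l : ℕ) [Fact l.Prime] (K Ω : Type) [Field K] [Field Ω] [IsAlgClosed Ω]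
  [CharZero Ω] (τ : K →+* Ω) (X : Scheme.{0}) (f : X ⟶ Spec (.of K)) [Smooth f] [IsProper f]
  (d : ℕ), D.Chart d f → IrreducibleSpace (fbr f (spc τ)).left →
    (∀ i, Cof l (HH l (fbr f (spc τ)).left i)) ∧
    (∀ i, 2 * d < i → ∀ x : HH l (fbr f (spc τ)).left i, x = 0) ∧
    (∀ i, ∃ n : ℕ, ∀ x : EE l (fbr f (spc τ)).left i, (∀ a, tau x a = 0) → l ^ n • x = 0) ∧
    (∀ (i j : ℕ) (h : i + j = 2 * d) (α : EE l (fbr f (spc τ)).left i) η, (∃ a, tau α a ≠ 0) →
      ∃ (m : ℕ) (α' : EE l _ j), α.comp α' h = l ^ m • η) ∧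
    ∃ ϖ : ∀ i j, j + i = 2 * d →
        EE l (fbr f (spc τ)).left i →+ HH l (fbr f (spc τ)).left j →+ QZ l,
      (∀ i j h, Bijective (ϖ i j h)) ∧
      ∀ (ψ : Ω →+* Ω) (hψ : spc ψ ≫ spc τ = spc τ) (Q : ℕ), Tw l ψ Q → ∀ i j h x y,
        ϖ i j h (epb l (fa f ψ hψ) i x) (hpb l (fa f ψ hψ) j y) = Q ^ d • ϖ i j h x y

end Pool.Agent.MP_855f4c_ag.T

end

section

/-! h12g section J: statements. -/

set_option autoImplicit false
set_option backward.isDefEq.respectTransparency false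

open CategoryTheory Limits Abelian Opposite AlgebraicGeometry Function

namespace Pool.Agent.MP_855f4c_ag.T

open E E3 E4

/-- The product of the classes is not zero on the affine model without equations. -/
def TOPJ_s : Prop := ∀ (l : ℕ) [Fact l.Prime] (Ω : Type) [Field Ω] [IsAlgClosed Ω] [CharZero Ω]
  (Ch : Chern l Ω) (hP : P1L_s) (κ : Type) [Fintype κ] [DecidableEq κ] (K : List κ), K.Nodup →
    (∀ k, k ∈ K) → ∀ z : κ → (Spec (.of (JB (noEq κ Ω))) ⟶ P1), Ad (je (noEq κ Ω)) z →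
      ∃ a, tau (pw (K.map fun k =>
        Ch.x hP (spc (algebraMap Ω (JB (noEq κ Ω)))) (z k))) a ≠ 0

/-- Relations on an affine point: squares vanish, classes commute, sections give supports. -/
def JXB_s : Prop := ∀ (l : ℕ) [Fact l.Prime] (Ω : Type) [Field Ω] [IsAlgClosed Ω] [CharZero Ω]
  (Ch : Chern l Ω) (hP : P1L_s) (κ : Type) [Fintype κ] [DecidableEq κ] (D : Type) [CommRing D]
  (t : Spec (.of D) ⟶ Spec (.of Ω)) (e : EV κ → D) (z : κ → (Spec (.of D) ⟶ P1)), JP e → Ad e z →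
    (∀ k, (Ch.x hP t (z k)).comp (Ch.x hP t (z k)) (rfl : 2 + 2 = 4) = 0) ∧
    (∀ i j, (Ch.x hP t (z i)).comp (Ch.x hP t (z j)) (rfl : 2 + 2 = 4) =
      (Ch.x hP t (z j)).comp (Ch.x hP t (z i)) rfl) ∧
    ∀ (n : κ → ℤ) (s : MvPolynomial (XY κ) D) (I : Ideal D), Hg n s → Zer e s I →
      ∃ θ : Ext (AU l (opI I)) (Linf l _) 2, pre (πU l (opI I)) _ 2 θ = Ch.cl hP t z n

/-- Bezout on the affine model. -/
def BEZ_s : Prop := ∀ (l : ℕ) [Fact l.Prime] (Ω : Type) [Field Ω] [IsAlgClosed Ω] [CharZero Ω]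
  (Ch : Chern l Ω) (hP : P1L_s) (κ : Type) [Fintype κ] [DecidableEq κ] (c : ℕ)
  (e : Fin c → κ → ℕ) (cf : MI e → Ω) (z : κ → (Spec (.of (JB cf)) ⟶ P1)), Ad (je cf) z →
    ∀ (L : List (κ → ℤ)) (N : ℤ), N ≠ 0 →
      top ((L.map lin).prod * ∏ a, lin fun k => (e a k : ℤ)) ≠ 0 →
      ∃ a, tau (N • pw (L.map (Ch.cl hP (spc (algebraMap Ω (JB cf))) z))) a ≠ 0

/-- Bezout on the zero locus. -/
def BEZZ_s : Prop := ∀ (l : ℕ) [Fact l.Prime] (Ω : Type) [Field Ω] [IsAlgClosed Ω] [CharZero Ω]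
  (Ch : Chern l Ω) (hP : P1L_s) (κ : Type) [Fintype κ] [DecidableEq κ] (c : ℕ)
  (e : Fin c → κ → ℕ) (cf : MI e → Ω) (Z : Scheme.{0}) (f : Z ⟶ Spec (.of Ω))
  (z : κ → (Z ⟶ P1)), ZL f z cf → ∀ (L : List (κ → ℤ)) (N : ℤ), N ≠ 0 →
    top ((L.map lin).prod * ∏ a, lin fun k => (e a k : ℤ)) ≠ 0 →
      ∃ a, tau (N • pw (L.map (Ch.cl hP f z))) a ≠ 0

end Pool.Agent.MP_855f4c_ag.T

end

section

/-! h12g: affine points, coordinates on the projective line, products of lines. -/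

set_option autoImplicit false
set_option backward.isDefEq.respectTransparency false

open CategoryTheory Limits AlgebraicGeometry

namespace Pool.Agent.MP_855f4c_ag.T.ZP

open E

section pts
variable {X Y Z P : Scheme.{0}}

theorem ext_pts {f g : X ⟶ Y}
    (h : ∀ (C : Type) [CommRing C] (x : Spec (.of C) ⟶ X), x ≫ f = x ≫ g) : f = g :=
  X.affineCover.hom_ext _ _ fun i => h _ (X.affineOpenCover.f i)

theorem ext_cov {f g : X ⟶ Y} (h : ∀ p : X, ∃ (C : Type) (_ : CommRing C) (x : Spec (.of C) ⟶ X),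
    IsOpenImmersion x ∧ p ∈ Set.range x ∧ x ≫ f = x ≫ g) : f = g := by
  choose C _ x h1 h2 h3 using h
  exact Scheme.Cover.hom_ext (.mkOfCovers X _ x (fun p => ⟨p, h2 p⟩) h1) _ _ h3

theorem exists_spc {C D : Type} [CommRing C] [CommRing D] (x : Spec (.of D) ⟶ Spec (.of C)) :
    ∃ φ : C →+* D, x = spc φ := let ⟨φ, h⟩ := Spec.map_surjective x; ⟨φ.hom, h.symm⟩

theorem spc_spc {A B C : Type} [CommRing A] [CommRing B] [CommRing C] (φ : A →+* B) (ψ : B →+* C) :
    spc ψ ≫ spc φ = spc (ψ.comp φ) := (Spec.map_comp _ _).symm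

theorem spc_inj {A B : Type} [CommRing A] [CommRing B] {φ ψ : A →+* B} (h : spc φ = spc ψ) :
    φ = ψ := congrArg (·.hom) (Spec.map_injective h)

/-- A morphism that is described on small affine points. -/
theorem glue (R : ∀ (C : Type) [CommRing C], (Spec (.of C) ⟶ X) → (Spec (.of C) ⟶ Y) → Prop)
    (uniq : ∀ (C : Type) [CommRing C] x y y', R C x y → R C x y' → y = y')
    (nat : ∀ (C D : Type) [CommRing C] [CommRing D] (φ : C →+* D) x y, R C x y →
      R D (spc φ ≫ x) (spc φ ≫ y))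
    (loc : ∀ p : X, ∃ (C : Type) (_ : CommRing C) (x : Spec (.of C) ⟶ X) (y : Spec (.of C) ⟶ Y),
      IsOpenImmersion x ∧ p ∈ Set.range x ∧ R C x y) :
    ∃ f : X ⟶ Y, ∀ (C : Type) [CommRing C] x y, R C x y → x ≫ f = y := by
  choose C _ x y h1 h2 h3 using loc
  have key : ∀ (C D : Type) [CommRing C] [CommRing D] x y x' y', R C x y → R D x' y' →
      pullback.fst x x' ≫ y = pullback.snd x x' ≫ y' := fun C D _ _ x y x' y' h h' =>
    ext_pts fun E _ p => by
      obtain ⟨φ, hφ⟩ := exists_spc (p ≫ pullback.fst x x')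
      obtain ⟨ψ, hψ⟩ := exists_spc (p ≫ pullback.snd x x')
      have e : spc φ ≫ x = spc ψ ≫ x' := by
        rw [← hφ, ← hψ, Category.assoc, Category.assoc, pullback.condition]
      rw [reassoc_of% hφ, reassoc_of% hψ]
      exact uniq _ _ _ _ (nat _ _ φ _ _ h) (e ▸ nat _ _ ψ _ _ h')
  let 𝒰 : X.OpenCover := .mkOfCovers X _ x (fun p => ⟨p, h2 p⟩) h1
  refine ⟨𝒰.glueMorphisms y fun p q => key _ _ _ _ _ _ (h3 p) (h3 q), fun D _ x' y' h => ?_⟩
  refine Scheme.Cover.hom_ext (𝒰.pullback₁ x') _ _ fun p => ?_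
  refine Eq.trans ?_ (key _ _ _ _ _ _ h (h3 p)).symm
  exact (pullback.condition_assoc _).trans (congrArg _ (𝒰.ι_glueMorphisms _ _ p))

theorem isIso_of_pts (f : X ⟶ Y)
    (inj : ∀ (C : Type) [CommRing C] (x x' : Spec (.of C) ⟶ X), x ≫ f = x' ≫ f → x = x')
    (sur : ∀ (C : Type) [CommRing C] (y : Spec (.of C) ⟶ Y), ∃ x, x ≫ f = y) : IsIso f := by
  obtain ⟨g, hg⟩ := glue (fun C _ y x => x ≫ f = y) (fun C _ y x x' h h' => inj C _ _ (h.trans h'.symm))
    (fun C D _ _ φ y x h => by rw [Category.assoc, h]) fun p => by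
      obtain ⟨i, q, hq⟩ := Y.affineCover.exists_eq p
      obtain ⟨x, hx⟩ := sur _ (Y.affineOpenCover.f i)
      exact ⟨_, _, _, x, inferInstance, ⟨q, hq⟩, hx⟩
  refine ⟨g, ext_pts fun C _ x => ?_, ext_pts fun C _ y => ?_⟩
  · rw [← Category.assoc, hg C _ x rfl, Category.comp_id]
  · obtain ⟨x, hx⟩ := sur C y
    rw [← Category.assoc, hg C _ x hx, hx, Category.comp_id]

theorem isPullback_of_pts {a : P ⟶ X} {b : P ⟶ Y} {f : X ⟶ Z} {g : Y ⟶ Z} (w : a ≫ f = b ≫ g)
    (h : ∀ (C : Type) [CommRing C] (x : Spec (.of C) ⟶ X) (y : Spec (.of C) ⟶ Y), x ≫ f = y ≫ g →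
      ∃! p, p ≫ a = x ∧ p ≫ b = y) : IsPullback a b f g := by
  have : IsIso (pullback.lift a b w) := isIso_of_pts _
    (fun C _ p p' e => (h C (p ≫ a) (p ≫ b) (by simp [w])).unique ⟨rfl, rfl⟩
      ⟨by simpa using e.symm =≫ pullback.fst f g, by simpa using e.symm =≫ pullback.snd f g⟩)
    fun C _ q => by
      obtain ⟨p, hp, -⟩ := h C (q ≫ pullback.fst f g) (q ≫ pullback.snd f g)
        (by simp [pullback.condition])
      exact ⟨p, pullback.hom_ext (by simp [hp.1]) (by simp [hp.2])⟩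
  exact .of_iso_pullback ⟨w⟩ (asIso (pullback.lift a b w)) (by simp) (by simp)

theorem open_of_pts (c : Y ⟶ X) (U : X.Opens) (h0 : ∀ y, c y ∈ U)
    (inj : ∀ (C : Type) [CommRing C] (x x' : Spec (.of C) ⟶ Y), x ≫ c = x' ≫ c → x = x')
    (sur : ∀ (C : Type) [CommRing C] (q : Spec (.of C) ⟶ X), (∀ p, q p ∈ U) → ∃ x, x ≫ c = q) :
    IsOpenImmersion c ∧ ∀ p ∈ U, p ∈ Set.range c := by
  have H : Set.range c ⊆ Set.range U.ι := by rintro _ ⟨y, rfl⟩; simpa using h0 y
  have e := IsOpenImmersion.lift_fac U.ι c H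
  have : IsIso (IsOpenImmersion.lift U.ι c H) := isIso_of_pts _
    (fun C _ x x' h => inj C _ _ (by rw [← e, reassoc_of% h])) fun C _ q =>
      let ⟨x, hx⟩ := sur C (q ≫ U.ι) fun p => (q p).2
      ⟨x, by rw [← cancel_mono U.ι, Category.assoc, e, hx]⟩
  refine ⟨e ▸ inferInstance, fun p hp => ?_⟩
  obtain ⟨y, hy⟩ := (IsOpenImmersion.lift U.ι c H).surjective ⟨p, hp⟩
  exact ⟨y, by rw [← e, Scheme.Hom.comp_apply, hy]; rfl⟩

/-- The chart of a scheme-theoretic image. -/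
theorem image_chart {W W' U : Scheme.{0}} (ρ : W ⟶ P) [QuasiCompact ρ] (c : U ⟶ P)
    [IsOpenImmersion c] (i : Z ⟶ U) [IsClosedImmersion i] {p : W' ⟶ Z} {s : Z ⟶ W'}
    (hs : s ≫ p = 𝟙 _) {w : W' ⟶ W} (h : IsPullback w (p ≫ i) ρ c) :
    IsPullback i (s ≫ w ≫ ρ.toImage) c ρ.imageι := by
  have : IsOpenImmersion w := MorphismProperty.of_isPullback h.flip ‹_›
  refine isPullback_of_isClosedImmersion _ _ _ _ (by simp [h.w, reassoc_of% hs]) ?_
  have e : i.ker = (p ≫ i).ker := (p.le_ker_comp i).antisymm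
    ((s.le_ker_comp _).trans (by rw [reassoc_of% hs]))
  rw [e, Scheme.IdealSheafData.ker_subschemeι]
  ext1
  funext V
  rw [Scheme.IdealSheafData.ideal_comap_of_isOpenImmersion,
    Scheme.ker_ideal_of_isPullback_of_isOpenImmersion ρ _ w c h.flip]

end pts

section line
variable {C D : Type} [CommRing C] [CommRing D]

/-- The point with affine coordinate `t` in the chart `i`. -/
noncomputable def pts (i : Fin 2) (t : C) : Spec (.of C) ⟶ P1 := if i = 0 then pt1 t else pt2 t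

/-- Its coordinate vector. -/
def vc (i : Fin 2) (t : C) : Fin 2 → C := fun j => if j = i then 1 else t

/-- The chart `i`. -/
noncomputable def op1 (i : Fin 2) : P1.Opens := if i = 0 then P1D.ι₁.opensRange else P1D.ι₂.opensRange

theorem map_pts (φ : C →+* D) (i : Fin 2) (t : C) : spc φ ≫ pts i t = pts i (φ t) := by
  unfold pts; split_ifs; exacts [map_pt1 _ _, map_pt2 _ _]

theorem map_vc (φ : C →+* D) (i : Fin 2) (t : C) (j : Fin 2) : φ (vc i t j) = vc i (φ t) j := by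
  simp [vc, apply_ite φ]

theorem pts_inj {i : Fin 2} {t t' : C} (h : pts i t = pts i t') : t = t' := by
  unfold pts at h; split_ifs at h; exacts [pt1_inj.1 h, pt2_inj.1 h]

theorem pts_mem (i : Fin 2) (t : C) (p : Spec (.of C)) : pts i t p ∈ op1 i := by
  unfold pts op1; split_ifs; exacts [pt1_mem₁ _ _, pt2_mem₂ _ _]

theorem exists_pts (i : Fin 2) (z : Spec (.of C) ⟶ P1) (h : ∀ p, z p ∈ op1 i) : ∃ t, z = pts i t := by
  unfold pts; unfold op1 at h; split_ifs at h ⊢; exacts [exists_pt1 z h, exists_pt2 z h]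

theorem op1_cov (p : P1) : ∃ i, p ∈ op1 i := (P1D.cov p).elim (⟨0, ·⟩) (⟨1, ·⟩)

theorem coA_map {z : Spec (.of C) ⟶ P1} {x : Fin 2 → C} (h : CoA z x) (φ : C →+* D) :
    CoA (spc φ ≫ z) (φ ∘ x) := fun D' _ ψ => by
  rw [← Category.assoc, spc_spc]; exact h D' (ψ.comp φ)

theorem coA_eq {z : Spec (.of C) ⟶ P1} {x : Fin 2 → C} (h : CoA z x) {i : Fin 2} {t : C}
    (hu : IsUnit (x i)) (ht : x i.rev = x i * t) : z = pts i t := by
  have := h C (.id _)
  rw [show spc (RingHom.id C) = 𝟙 _ from Spec.map_id _, Category.id_comp] at this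
  fin_cases i
  exacts [this.1 t hu ht, this.2 t hu ht]

theorem coA_pts (i : Fin 2) (t u : C) : CoA (pts i t) fun j => vc i t j * u := fun D _ ψ => by
  rw [map_pts]
  fin_cases i <;> refine ⟨fun a h e => ?_, fun a h e => ?_⟩ <;> simp [vc, pts] at h e ⊢
  · rw [h.mul_left_cancel ((mul_comm _ _).trans e)]
  · exact pt1_eq_pt2.2 (h.2.mul_left_cancel (by linear_combination -e))
  · exact (pt1_eq_pt2.2 (h.2.mul_left_cancel (by linear_combination -e))).symm
  · rw [h.mul_left_cancel ((mul_comm _ _).trans e)]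

theorem coA_unit {i j : Fin 2} {t : C} {x : Fin 2 → C} (h : CoA (pts i t) x) (hu : IsUnit (x j))
    (a : Fin 2) : x a = vc i t a * x i := by
  obtain ⟨v, hv⟩ := hu.exists_right_inv
  have e := coA_eq h hu (t := x j.rev * v) (by linear_combination -x j.rev * hv)
  fin_cases i <;> fin_cases j <;> simp [pts, pt1_inj, pt2_inj, pt1_eq_pt2] at e hv <;>
    fin_cases a <;> simp [vc]
  · rw [e]; linear_combination -x 1 * hv
  · linear_combination -x 1 * e + t * x 0 * hv
  · have := pt1_eq_pt2.1 e.symm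
    linear_combination -x 0 * this + t * x 1 * hv
  · rw [e]; linear_combination -x 0 * hv

theorem away_cov {r : Fin 2 → C} (h : r 0 + r 1 = 1) (p : Spec (.of C)) : ∃ j,
    p ∈ Set.range (spc (algebraMap C (Localization.Away (r j)))) := by
  by_contra! H
  have H' := fun j => not_not.1 (mt (mem_range_away (r j) p).2 (H j))
  exact p.isPrime.ne_top ((Ideal.eq_top_iff_one _).2 (h ▸ add_mem (H' 0) (H' 1)))

variable {m : Fin 2 → Fin 2 → C}

theorem col_eq (h2 : m 0 0 * m 1 1 = m 0 1 * m 1 0) {i : Fin 2} {t : C} (hu : IsUnit (m i i))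
    (ht : m i.rev i = m i i * t) (a b : Fin 2) : m a b = vc i t a * m i b := by
  refine hu.mul_left_cancel ?_
  fin_cases i <;> fin_cases a <;> fin_cases b <;> simp [vc] at ht ⊢ <;> grind

theorem ad_uniq (h1 : m 0 0 + m 1 1 = 1) {z z' : Spec (.of C) ⟶ P1}
    (h : ∀ j, CoA z fun i => m i j) (h' : ∀ j, CoA z' fun i => m i j) : z = z' :=
  ext_cov fun p => by
    obtain ⟨j, hj⟩ := away_cov (r := fun j => m j j) h1 p
    have hu := IsLocalization.Away.algebraMap_isUnit (S := Localization.Away (m j j)) (m j j)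
    obtain ⟨t, ht⟩ := hu.dvd (a := algebraMap C _ (m j.rev j))
    exact ⟨_, _, _, .of_isLocalization (m j j), hj,
      (coA_eq (coA_map (h j) _) hu ht).trans (coA_eq (coA_map (h' j) _) hu ht).symm⟩

theorem ad_exists (h1 : m 0 0 + m 1 1 = 1) (h2 : m 0 0 * m 1 1 = m 0 1 * m 1 0) :
    ∃ z : Spec (.of C) ⟶ P1, ∀ j, CoA z fun i => m i j := by
  have ex : ∀ (D : Type) [CommRing D] (φ : C →+* D) (j), IsUnit (φ (m j j)) →
      ∃ y, ∀ j, CoA y (φ ∘ fun i => m i j) := fun D _ φ j hu => by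
    obtain ⟨t, ht⟩ := hu.dvd (a := φ (m j.rev j))
    refine ⟨pts j t, fun b => ?_⟩
    rw [show (φ ∘ fun i => m i b) = _ from funext fun a =>
      col_eq (m := fun a b => φ (m a b)) (by simpa using congrArg φ h2) hu ht a b]
    exact coA_pts _ _ _
  obtain ⟨z, hz⟩ := glue (X := Spec (.of C))
    (fun D _ x y => ∃ φ : C →+* D, x = spc φ ∧ ∀ j, CoA y (φ ∘ fun i => m i j))
    (fun D _ x y y' ⟨φ, e, h⟩ ⟨φ', e', h'⟩ => ad_uniq (m := fun a b => φ (m a b))
      (by simpa using congrArg φ h1) h (spc_inj (e.symm.trans e') ▸ h'))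
    (fun D D' _ _ ψ x y ⟨φ, e, h⟩ => ⟨ψ.comp φ, e ▸ spc_spc _ _, fun j => coA_map (h j) ψ⟩)
    fun p => by
      obtain ⟨j, hj⟩ := away_cov (r := fun j => m j j) h1 p
      obtain ⟨y, hy⟩ := ex _ _ j
        (IsLocalization.Away.algebraMap_isUnit (S := Localization.Away (m j j)) (m j j))
      exact ⟨_, _, _, y, .of_isLocalization (m j j), hj, _, rfl, hy⟩
  have key : ∀ (j i) (D : Type) [CommRing D] (ψ : C →+* D) (a : D), IsUnit (ψ (m i j)) →
      ψ (m i.rev j) = ψ (m i j) * a → spc ψ ≫ z = pts i a := fun j i D _ ψ a hu e =>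
    ext_cov fun p => by
      obtain ⟨k, hk⟩ := away_cov (r := fun j => ψ (m j j)) (by simpa using congrArg ψ h1) p
      obtain ⟨y, hy⟩ := ex _ ((algebraMap D _).comp ψ) k
        (IsLocalization.Away.algebraMap_isUnit (S := Localization.Away (ψ (m k k))) (ψ (m k k)))
      refine ⟨_, _, _, .of_isLocalization (ψ (m k k)), hk, ?_⟩
      rw [← Category.assoc, spc_spc, hz _ _ y ⟨_, rfl, hy⟩, map_pts]
      exact coA_eq (hy j) (hu.map (algebraMap D _))
        ((congrArg (algebraMap D _) e).trans (map_mul (algebraMap D _) _ _))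
  exact ⟨z, fun j D _ ψ => ⟨key j 0 D ψ, key j 1 D ψ⟩⟩

theorem eq_of_loc {a b : C} (h : ∀ (D : Type) [CommRing D] [IsLocalRing D] (φ : C →+* D),
    φ a = φ b) : a = b :=
  sub_eq_zero.1 (eq_zero_of_localization _ fun J _ => by rw [map_sub, h, sub_self])

theorem ad_pts (h1 : m 0 0 + m 1 1 = 1) (h2 : m 0 0 * m 1 1 = m 0 1 * m 1 0) {i : Fin 2} {t : C}
    (h : ∀ j, CoA (pts i t) fun a => m a j) (a b : Fin 2) : m a b = vc i t a * m i b :=
  eq_of_loc fun D _ _ φ => by
    obtain ⟨j, hu⟩ : ∃ j, IsUnit (φ (m j j)) :=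
      (IsLocalRing.isUnit_or_isUnit_of_add_one (by simpa using congrArg φ h1)).elim (⟨0, ·⟩) (⟨1, ·⟩)
    have e := fun a => coA_unit (map_pts φ i t ▸ coA_map (h j) φ) (j := j) hu a
    have h2 := congrArg φ h2
    rw [map_mul, map_vc]
    refine hu.mul_left_cancel ?_
    have e0 := e 0
    have e1 := e 1
    fin_cases i <;> fin_cases j <;> fin_cases a <;> fin_cases b <;> simp [vc] at e0 e1 h2 ⊢ <;> grind

end line

/-- Products of projective lines. -/
theorem exists_prod (κ : Type) [Finite κ] (S : Scheme.{0}) :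
    ∃ (P : Scheme.{0}) (π : P ⟶ S) (z : κ → (P ⟶ P1)), D.TwN (Nat.card κ) π ∧ IsProper π ∧
      ∀ (T : Scheme.{0}) (t : T ⟶ S) (y : κ → (T ⟶ P1)), ∃! x, x ≫ π = t ∧ ∀ k, x ≫ z k = y k := by
  induction κ using Finite.induction_empty_option with
  | of_equiv e ih =>
    obtain ⟨P, π, z, h1, h2, h3⟩ := ih
    refine ⟨P, π, z ∘ e.symm, Nat.card_congr e ▸ h1, h2, fun T t y => ?_⟩
    simpa [e.forall_congr_right.symm] using h3 T t (y ∘ e)
  | h_empty =>
    exact ⟨S, 𝟙 _, PEmpty.elim, by simpa using .iso _ inferInstance, inferInstance, by simp⟩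
  | h_option ih =>
    obtain ⟨P, π, z, h1, h2, h3⟩ := ih
    let L := PL.std P
    refine ⟨L.P, L.π ≫ π, fun o => o.elim L.q fun k => L.π ≫ z k,
      by rw [Finite.card_option]; exact .step L π h1, inferInstance, fun T t y => ?_⟩
    obtain ⟨x, hx, hu⟩ := h3 T t fun k => y (some k)
    refine ⟨L.pnt x (y none), ⟨by simp [hx.1], by rintro (_ | k) <;> simp [hx.2]⟩, fun x' h => ?_⟩
    exact L.pnt_ext (by simpa using hu _ ⟨by simpa using h.1, fun k => by simpa using h.2 (some k)⟩)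
      (by simpa using h.2 none)

end Pool.Agent.MP_855f4c_ag.T.ZP

end

section

/-! h12g: coordinates of maps to the projective line. -/

set_option autoImplicit false
set_option backward.isDefEq.respectTransparency false

open CategoryTheory Limits Opposite AlgebraicGeometry

namespace Pool.Agent.MP_855f4c_ag.T

open E

namespace P1L

section ev
variable {C D D' : Type} [CommRing C] [CommRing D] [CommRing D'] {U U' : Scheme.{0}}

lemma ev_comp (v : Spec (.of D) ⟶ U') (w : U' ⟶ U) (s : Γ(U, ⊤)) :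
    ev (v ≫ w) s = ev v (gam w s) := by simp [ev, gam]

lemma ev_spc (ψ : D →+* D') (w : Spec (.of D) ⟶ U) (s : Γ(U, ⊤)) :
    ev (spc ψ ≫ w) s = ψ (ev w s) := by
  have := Scheme.ΓSpecIso_naturality (CommRingCat.ofHom ψ)
  simp only [ev, spc, Scheme.Hom.comp_appTop, Category.assoc, this]
  simp

lemma gam_str (w : U' ⟶ U) (h : U ⟶ Spec (.of C)) (c : C) : gam w (str h c) = str (w ≫ h) c := by
  simp [str, gam]

lemma ev_id_str (c : C) : ev (𝟙 (Spec (.of C))) (str (𝟙 _) c) = c := by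
  simp [ev, str]

lemma ev_str (w : Spec (.of D) ⟶ U) (h : U ⟶ Spec (.of C)) (ψ : C →+* D) (e : w ≫ h = spc ψ)
    (c : C) : ev w (str h c) = ψ c := by
  have h1 : ev (w ≫ h) (str (𝟙 _) c) = ev w (str h c) := by
    rw [ev_comp, gam_str, Category.comp_id]
  rw [← h1, e, ← Category.comp_id (spc ψ), ev_spc, ev_id_str]

lemma ex_spc (w : Spec (.of D) ⟶ Spec (.of C)) : ∃ ψ : C →+* D, w = spc ψ := by
  obtain ⟨ψ, hψ⟩ := Spec.map_surjective w
  exact ⟨ψ.hom, hψ.symm⟩

/-- Functions that agree at all points with values in local rings agree. -/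
lemma ev_ext {s t : Γ(U, ⊤)} (h : ∀ (D : Type) [CommRing D] [IsLocalRing D]
    (w : Spec (.of D) ⟶ U), ev w s = ev w t) : s = t := by
  refine TopCat.Presheaf.section_ext U.sheaf ⊤ s t fun x hx => ?_
  have key (a : Γ(U, ⊤)) : ev (D := U.presheaf.stalk x) (U.fromSpecStalk x) a =
      U.presheaf.germ ⊤ x trivial a := by
    have : (U.fromSpecStalk x).appTop ≫ (Scheme.ΓSpecIso (U.presheaf.stalk x)).hom =
        U.presheaf.germ ⊤ x trivial := by
      rw [Scheme.fromSpecStalk_appTop]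
      simp
    exact congr($this a)
  exact (key s).symm.trans ((h _ _).trans (key t))

end ev

section pt
variable {D D' : Type} [CommRing D] [CommRing D'] {z : Spec (.of D) ⟶ P1} {x y x' y' : Fin 2 → D}

lemma pt_one (a : D) : Pt (pt1 a) ![1, a] :=
  ⟨fun b _ h => by simpa using congrArg pt1 (by simpa using h),
    fun b _ h => pt1_eq_pt2.2 (by simpa using h.symm)⟩

lemma pt_two (b : D) : Pt (pt2 b) ![b, 1] :=
  ⟨fun a _ h => (pt1_eq_pt2.2 (by simpa [mul_comm] using h.symm)).symm,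
    fun a _ h => by simpa using congrArg pt2 (by simpa using h)⟩

lemma pt_smul (h : Pt z x) (u : D) : Pt z fun i => u * x i :=
  ⟨fun a hu e => h.1 a (isUnit_of_mul_isUnit_right hu)
      ((isUnit_of_mul_isUnit_left hu).mul_left_cancel (e.trans (mul_assoc _ _ _))),
    fun a hu e => h.2 a (isUnit_of_mul_isUnit_right hu)
      ((isUnit_of_mul_isUnit_left hu).mul_left_cancel (e.trans (mul_assoc _ _ _)))⟩

lemma cov_unit [IsLocalRing D] (h : Cov x y) : IsUnit (x 0) ∨ IsUnit (x 1) := by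
  rw [Cov, Fin.sum_univ_two] at h
  exact (IsLocalRing.isUnit_or_isUnit_of_add_one h).imp isUnit_of_mul_isUnit_right
    isUnit_of_mul_isUnit_right

lemma pt_ex (h : Pt z x) (hu : IsUnit (x 0) ∨ IsUnit (x 1)) :
    (∃ a, x 1 = x 0 * a ∧ z = pt1 a) ∨ ∃ b, x 0 = x 1 * b ∧ z = pt2 b := by
  refine hu.imp (fun u => ?_) fun u => ?_
  · obtain ⟨a, ha⟩ := u.dvd (a := x 1)
    exact ⟨a, ha, h.1 a u ha⟩
  · obtain ⟨a, ha⟩ := u.dvd (a := x 0)
    exact ⟨a, ha, h.2 a u ha⟩

lemma pt_min (h : Pt z x) (h' : Pt z x') (hu : IsUnit (x 0) ∨ IsUnit (x 1))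
    (hu' : IsUnit (x' 0) ∨ IsUnit (x' 1)) : x 0 * x' 1 = x 1 * x' 0 := by
  rcases pt_ex h hu with ⟨a, e, r⟩ | ⟨a, e, r⟩ <;> rcases pt_ex h' hu' with ⟨b, e', r'⟩ | ⟨b, e', r'⟩
  · rw [e, e', pt1_inj.1 (r.symm.trans r')]; ring
  · rw [e, e']; linear_combination (-(x 0 * x' 1)) * pt1_eq_pt2.1 (r.symm.trans r')
  · rw [e, e']; linear_combination (x 1 * x' 0) * pt1_eq_pt2.1 (r'.symm.trans r)
  · rw [e, e', pt2_inj.1 (r.symm.trans r')]; ring

lemma min_two {R : Type} [CommRing R] {x x' : Fin 2 → R} (h : x 0 * x' 1 = x 1 * x' 0) (i j : Fin 2) :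
    x i * x' j = x j * x' i := by
  fin_cases i <;> fin_cases j
  exacts [rfl, h, h.symm, rfl]

lemma cov_map {ι R S : Type} [Fintype ι] [CommRing R] [CommRing S] (ψ : R →+* S) {x y : ι → R}
    (h : Cov x y) : Cov (ψ ∘ x) (ψ ∘ y) := by
  simpa [Cov] using congrArg ψ h

end pt

end P1L

open P1L

section coa
variable {D D' : Type} [CommRing D] [CommRing D'] {z z' : Spec (.of D) ⟶ P1}
  {x y x' y' : Fin 2 → D}

lemma CoA.pt (h : CoA z x) : Pt z x := by
  simpa [spc] using h D (RingHom.id D)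

lemma CoA.map (h : CoA z x) (ψ : D →+* D') : CoA (spc ψ ≫ z) (ψ ∘ x) := fun D'' _ χ => by
  have := h D'' (χ.comp ψ)
  rwa [spc, CommRingCat.ofHom_comp, Spec.map_comp, Category.assoc] at this

lemma coA_pt1 (a : D) : CoA (pt1 a) ![1, a] := fun D' _ ψ => by
  have : ψ ∘ ![1, a] = ![1, ψ a] := funext fun i => by fin_cases i <;> simp
  rw [map_pt1, this]
  exact pt_one _

lemma coA_pt2 (b : D) : CoA (pt2 b) ![b, 1] := fun D' _ ψ => by
  have : ψ ∘ ![b, 1] = ![ψ b, 1] := funext fun i => by fin_cases i <;> simp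
  rw [map_pt2, this]
  exact pt_two _

lemma CoA.smul (h : CoA z x) (u : D) : CoA z fun i => u * x i := fun D' _ ψ => by
  have : (ψ ∘ fun i => u * x i) = fun i => ψ u * (ψ ∘ x) i := funext fun i => map_mul _ _ _
  rw [this]
  exact pt_smul (h D' ψ) _

/-- Two unimodular systems of coordinates are proportional. -/
lemma CoA.min (h : CoA z x) (h' : CoA z x') (c : Cov x y) (c' : Cov x' y') (i j : Fin 2) :
    x i * x' j = x j * x' i := by
  refine min_two ?_ i j
  refine Module.eq_of_localization_maximal (R := D) (fun P _ => Localization.AtPrime P)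
    (fun P _ => Algebra.linearMap D _) _ _ fun P _ => ?_
  simpa using pt_min (h _ (algebraMap D (Localization.AtPrime P))) (h' _ _)
    (cov_unit (cov_map _ c)) (cov_unit (cov_map _ c'))

/-- A vector that is proportional to unimodular coordinates is a vector of coordinates. -/
lemma CoA.of_min (h : CoA z x) (c : Cov x y) (hm : ∀ i j, x i * x' j = x j * x' i) : CoA z x' := by
  have : x' = fun i => (∑ j, y j * x' j) * x i := funext fun i => by
    rw [Cov, Fin.sum_univ_two] at c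
    rw [Fin.sum_univ_two]
    linear_combination (-x' i) * c - y 0 * hm i 0 - y 1 * hm i 1
  rw [this]
  exact h.smul _

/-- Unimodular coordinates determine the point. -/
lemma CoA.ext (h : CoA z x) (h' : CoA z' x) (c : Cov x y) : z = z' := by
  have hs : Ideal.span (Set.range x) = ⊤ := by
    rw [Ideal.eq_top_iff_one, ← show _ = (1 : D) from c]
    exact Ideal.sum_mem _ fun i _ => Ideal.mul_mem_left _ _ (Ideal.subset_span ⟨i, rfl⟩)
  refine (Scheme.affineOpenCoverOfSpanRangeEqTop (R := .of D) x hs).openCover.hom_ext _ _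
    fun i : Fin 2 => ?_
  let ψ := algebraMap D (Localization.Away (x i))
  have u : IsUnit (ψ (x i)) := IsLocalization.Away.algebraMap_isUnit _
  change spc ψ ≫ z = spc ψ ≫ z'
  fin_cases i
  · obtain ⟨a, ha⟩ := u.dvd (a := ψ (x 1))
    exact ((h _ ψ).1 a u ha).trans ((h' _ ψ).1 a u ha).symm
  · obtain ⟨a, ha⟩ := u.dvd (a := ψ (x 0))
    exact ((h _ ψ).2 a u ha).trans ((h' _ ψ).2 a u ha).symm

end coa

section co1
variable {T : Scheme.{0}} {z : T ⟶ P1} {U : Over T} {D : Type} [CommRing D]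

lemma co1.coA {x : Fin 2 → Γ(U.left, ⊤)} (h : co1 z U x) (w : Spec (.of D) ⟶ U.left) :
    CoA (w ≫ U.hom ≫ z) (ev w ∘ x) := fun D' _ ψ => by
  have e : ev (spc ψ ≫ w) ∘ x = ψ ∘ ev w ∘ x := funext fun i => ev_spc _ _ _
  have := h D' (spc ψ ≫ w)
  rwa [e, Category.assoc] at this

/-- Coordinates that come from an affine scheme. -/
lemma CoA.co1 {z₀ : Spec (.of D) ⟶ P1} {x : Fin 2 → D} (h : CoA z₀ x) (g : U.left ⟶ Spec (.of D))
    (e : U.hom ≫ z = g ≫ z₀) : co1 z U (str g ∘ x) := fun D' _ w => by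
  obtain ⟨ψ, hψ⟩ := ex_spc (w ≫ g)
  have e' : ev w ∘ str g ∘ x = ψ ∘ x := funext fun i => ev_str w g ψ hψ _
  rw [e', e, ← Category.assoc, hψ]
  exact h D' ψ

end co1

theorem p1l : P1L_s := fun T z => by
  refine ⟨fun {U' U} w x h D _ v => ?_, fun U x y x' y' h h' c c' i j => ?_, fun U u => ?_⟩
  · have e : ev (v ≫ w.left) ∘ x = ev v ∘ gam w.left ∘ x := funext fun i => ev_comp _ _ _
    have := h D (v ≫ w.left)
    rwa [e, Category.assoc, Over.w_assoc] at this
  · refine ev_ext fun D _ _ w => ?_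
    simpa using (h.coA w).min (h'.coA w) (cov_map _ c) (cov_map _ c') i j
  · have key {V : Scheme.{0}} (ι : V ⟶ P1) [IsOpenImmersion ι] (hu : (U.hom ≫ z) u ∈ Set.range ι)
        (H : ∀ (C : Type) [CommRing C] (p : Spec (.of C) ⟶ P1), (∀ t, p t ∈ Set.range ι) →
          ∃ x y, CoA p x ∧ Cov x y) : ∃ (W : Over T) (w : W ⟶ U), IsOpenImmersion w.left ∧
          u ∈ Set.range w.left ∧ ∃ x y, co1 z W x ∧ Cov x y := by
      obtain ⟨R, f, h1, h2, h3⟩ := Scheme.exists_affine_mem_range_and_range_subset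
        (U := (U.hom ≫ z) ⁻¹ᵁ ι.opensRange) hu
      obtain ⟨x, y, h4, h5⟩ := H R (f ≫ U.hom ≫ z) fun t => by
        rw [Scheme.Hom.comp_apply]
        exact h3 ⟨t, rfl⟩
      exact ⟨Over.mk (f ≫ U.hom), Over.homMk f, h1, h2, _, _,
        h4.co1 (U := Over.mk (f ≫ U.hom)) (𝟙 _) (by simp), cov_map _ h5⟩
    rcases P1D.cov ((U.hom ≫ z) u) with hu | hu
    · refine key _ hu fun C _ p hp => ?_
      obtain ⟨a, rfl⟩ := exists_pt1 p hp
      exact ⟨_, ![1, 0], coA_pt1 a, by simp [Cov]⟩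
    · refine key _ hu fun C _ p hp => ?_
      obtain ⟨a, rfl⟩ := exists_pt2 p hp
      exact ⟨_, ![0, 1], coA_pt2 a, by simp [Cov]⟩

end Pool.Agent.MP_855f4c_ag.T

end

section

/-! h12g section C: the final statement. -/

set_option autoImplicit false

namespace Pool.Agent.MP_855f4c_ag.T

/-- Chern classes exist. -/
def CHERN_s : Prop := ∀ (l : ℕ) [Fact l.Prime] (Ω : Type) [Field Ω] [IsAlgClosed Ω],
  (l : Ω) ≠ 0 → Nonempty (Chern l Ω)

end Pool.Agent.MP_855f4c_ag.T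

end

section

/-! h12g: the structure map from `K`. -/

set_option autoImplicit false

namespace Pool.Agent.MP_855f4c_ag.T

/-- The structure map from `K` to an `O`-algebra in which `p` is a unit. -/
def CHI_s : Prop := ∀ (p : ℕ) [Fact p.Prime] (K : Type) [Field K] [Algebra K (PadicAlgCl p)]
  (O : Subring (PadicAlgCl p)) (C : Type) [CommRing C] [Algebra O C],
    (∀ x : K, ‖algebraMap K (PadicAlgCl p) x‖ ≤ 1 → algebraMap K _ x ∈ O) → IsUnit (p : C) →
    ∃ χ : K →+* C, (∀ (x : K) (o : O), algebraMap K _ x = (o : PadicAlgCl p) →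
      χ x = algebraMap O C o) ∧
      (iR O (PadicAlgCl p) C).comp χ = (iL O (PadicAlgCl p) C).comp (algebraMap K _)

theorem chi : CHI_s := by
  intro p _ K _ _ O C _ _ hO hp
  obtain ⟨χ, h⟩ := M0.ex_chi p K O hO (algebraMap O C) hp
  refine ⟨χ, h, M0.hom_ext p fun x hx => ?_⟩
  rw [RingHom.comp_apply, h x ⟨_, hO x hx⟩ rfl]
  exact ((Algebra.TensorProduct.includeRight (R := O) (A := PadicAlgCl p) (B := C)).commutes _)

end Pool.Agent.MP_855f4c_ag.T

end

section

/-! h12g: charts of a morphism that is smooth of relative dimension `d`. -/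

set_option autoImplicit false
set_option backward.isDefEq.respectTransparency false

open CategoryTheory Limits Opposite AlgebraicGeometry

namespace Pool.Agent.MP_855f4c_ag.T

open E E3

theorem chart_of (hT : D.TWF_s) (K : Type) [CommRing K] (X : Scheme.{0}) (f : X ⟶ Spec (.of K))
    (d : ℕ) [SmoothOfRelativeDimension d f] : D.Chart d f := by
  intro x
  obtain ⟨A, u, _, p, rfl⟩ := X.exists_Spec_apply_eq x
  obtain ⟨φ, hφ⟩ := Spec.map_surjective (u ≫ f)
  have h1 : SmoothOfRelativeDimension (0 + d) (Spec.map φ) := by rw [hφ]; infer_instance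
  rw [zero_add] at h1
  obtain ⟨s, hs, h2⟩ := (HasRingHomProperty.Spec_iff (P := @SmoothOfRelativeDimension d)).1 h1
  obtain ⟨t, ht, htp⟩ : ∃ t ∈ s, t ∉ p.asIdeal := by
    by_contra! h
    exact p.2.ne_top (top_le_iff.1 (hs ▸ Ideal.span_le.2 h))
  obtain ⟨g, hg, he⟩ := (h2 t ht).exists_etale_mvPolynomial
  obtain ⟨P, q, j, hq, _, hj⟩ := hT.2.1 d K
  have : Etale (spc g) := (HasRingHomProperty.Spec_iff (P := @Etale)).2 he
  refine ⟨_, P, Spec.map (CommRingCat.ofHom (algebraMap A (Localization.Away t))) ≫ u, q,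
    spc g ≫ j, inferInstance, inferInstance, hq, inferInstance, ?_, ?_⟩
  · rw [Category.assoc, Category.assoc, hj, ← hφ, ← Spec.map_comp, ← Spec.map_comp]
    exact congrArg (fun y => Spec.map (CommRingCat.ofHom y)) hg.symm
  · obtain ⟨y, hy⟩ := (Set.ext_iff.1 (PrimeSpectrum.localization_away_comap_range
      (Localization.Away t) t) p).2 htp
    exact ⟨y, by rw [Scheme.Hom.comp_apply]; exact congrArg u hy⟩

end Pool.Agent.MP_855f4c_ag.T

end

section

/-! h12g section M: statements. -/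

set_option autoImplicit false
set_option backward.isDefEq.respectTransparency false

open CategoryTheory Limits Abelian Opposite AlgebraicGeometry TensorProduct MvPolynomial

namespace Pool.Agent.MP_855f4c_ag.T

open E E3 E4 LP

attribute [local instance] MvPolynomial.gradedAlgebra

/-- The ring of integers fixed by powers of the two automorphisms. -/
def OPR_s : Prop := ∀ (p l : ℕ) [Fact p.Prime] [Fact l.Prime], l ≠ p →
  ∀ (K : Type) [Field K] [Algebra K (PadicAlgCl p)] (φ u : PadicAlgCl p ≃ₐ[K] PadicAlgCl p) (Q : ℕ)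
    (E : Finset (PadicAlgCl p)), 1 < Q → Frob ℤ_[p] Q φ → Frob ℤ_[p] 1 u →
    (∃ (n : ℕ) (r : PadicAlgCl p) (o : ℤ_[p]), r ^ l ^ n = algebraMap _ _ o ∧ u r ≠ r) →
    (∀ z ∈ E, ‖z‖ ≤ 1) → ∃ (m : ℕ) (O : Subring (PadicAlgCl p))
      (σ υ : PadicAlgCl p ≃ₐ[O] PadicAlgCl p), 0 < m ∧ (∀ z ∈ O, ‖z‖ ≤ 1) ∧ (∀ z ∈ E, z ∈ O) ∧
      (∀ o : ℤ_[p], algebraMap _ (PadicAlgCl p) o ∈ O) ∧
      (∀ x : K, ‖algebraMap K (PadicAlgCl p) x‖ ≤ 1 → algebraMap K _ x ∈ O) ∧
      (∀ z, σ z = (φ ^ m) z) ∧ (∀ z, υ z = (u ^ m) z) ∧ Frob ℤ_[p] (Q ^ m) σ ∧ Frob ℤ_[p] 1 υ ∧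
      (∃ (n : ℕ) (r : PadicAlgCl p) (o : ℤ_[p]), r ^ l ^ n = algebraMap _ _ o ∧ υ r ≠ r) ∧
      Tw l (σ : PadicAlgCl p →+* PadicAlgCl p) (Q ^ m) ∧ Tw l (υ : PadicAlgCl p →+* PadicAlgCl p) 1

def COFZ_s : Prop := ∀ (l : ℕ) [Fact l.Prime] (R Ω : Type) [CommRing R] [Algebra.FiniteType ℤ R]
  [Field Ω] [IsAlgClosed Ω] [CharZero Ω] (τ : R →+* Ω) (X : Scheme.{0}) (f : X ⟶ Spec (.of R))
  [IsProper f] (i : ℕ), Cof l (HH l (fbr f (spc τ)).left i)

/-- The theorem for products of projective lines. -/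
def Q_s : Prop := ∀ (p l : ℕ) [Fact p.Prime] [Fact l.Prime], l ≠ p →
  ∀ (K : Type) [Field K] [Algebra K (PadicAlgCl p)] (X : Scheme.{0}) (f : X ⟶ Spec (.of K))
    [IsProper f] (d : ℕ) [SmoothOfRelativeDimension d f] (ν : Type) [Fintype ν]
    (ι : X ⟶ Proj (homogeneousSubmodule ν K)) [IsClosedImmersion ι] (κ : Type) [Fintype κ]
    [DecidableEq κ] (c : ℕ) (e : Fin c → κ → ℕ) (cf : MI e → K) (τ : Type) [Fintype τ]
    (s : τ → MvPolynomial (XY κ) K) (n : τ → κ → ℤ) (q : ν → MvPolynomial (XY κ) K) (m : κ → ℤ),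
    ι ≫ Proj.toSpecZero _ ≫ spc (algebraMap K (homogeneousSubmodule ν K 0)) = f →
    IrreducibleSpace (fbr f (spc (algebraMap K (PadicAlgCl p)))).left →
    (∀ t, Hg (n t) (s t)) → (∀ i, Hg m (q i)) →
    (∀ a : XY κ → PadicAlgCl p, Rel a →
      (∀ b, gen (algebraMap K (PadicAlgCl p) ∘ cf) b (a ∘ .inl) = 0) → (∀ t, aeval a (s t) = 0) →
      (∃ i, aeval a (q i) ≠ 0) ∧ ∀ (G : MvPolynomial ν K) (k : ℕ), G.IsHomogeneous k →
        (∀ x : X, G ∈ (ι x).asHomogeneousIdeal) → aeval (fun i => aeval a (q i)) G = 0) →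
    top ((∏ t, lin (n t)) ^ 2 * lin m ^ d * ∏ a, lin fun k => (e a k : ℤ)) ≠ 0 →
    ∀ (i : ℕ) (φ u : PadicAlgCl p ≃ₐ[K] PadicAlgCl p) (Q : ℕ), 1 < Q →
      Frob ℤ_[p] Q φ → Frob ℤ_[p] 1 u →
      (∃ (n : ℕ) (r : PadicAlgCl p) (o : ℤ_[p]), r ^ l ^ n = algebraMap _ _ o ∧ u r ≠ r) →
      Mw Q i (E.gal f l i φ) (E.gal f l i u)

end Pool.Agent.MP_855f4c_ag.T

end

section

/-! Row END: statement. -/

set_option autoImplicit false
set_option backward.isDefEq.respectTransparency false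

open CategoryTheory Limits Abelian Function AlgebraicGeometry

namespace Pool.Agent.MP_855f4c_ag.T

open E

def END_s : Prop := ∀ (l : ℕ) [Fact l.Prime] (K R Ω : Type) [Field K] [CommRing R]
  [Algebra.FiniteType ℤ R] [Field Ω] [IsAlgClosed Ω] [CharZero Ω] [Algebra K Ω] [Algebra R Ω]
  (X X' : Scheme.{0}) (f : X ⟶ Spec (.of K)) [Smooth f] [IsProper f] (f' : X' ⟶ Spec (.of R))
  [IsProper f'] (d T k Q m M M' : ℕ) (φ u : Ω ≃ₐ[K] Ω) (φ' u' : Ω ≃ₐ[R] Ω) (ψ v : Ω →+* Ω)
  (hψ : spc ψ ≫ spc (algebraMap K Ω) = spc (algebraMap K Ω))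
  (hv : spc v ≫ spc (algebraMap K Ω) = spc (algebraMap K Ω))
  (hψ' : spc ψ ≫ spc (algebraMap R Ω) = spc (algebraMap R Ω))
  (hv' : spc v ≫ spc (algebraMap R Ω) = spc (algebraMap R Ω)),
  D.Chart d f → IrreducibleSpace (fbr f (spc (algebraMap K Ω))).left → 1 < Q → 0 < m →
    k = 2 * T → M = (Q ^ m) ^ T → M' = 1 → (∀ z, ψ z = (φ ^ m) z) → (∀ z, v z = (u ^ m) z) →
    (∀ z, ψ z = φ' z) → (∀ z, v z = u' z) → Tw l ψ (Q ^ m) →
    (∀ i : ℕ, Mw (Q ^ m) i (E.gal f' l i φ') (E.gal f' l i u')) →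
    ∀ ε : ∀ i, EE l (fbr f (spc (algebraMap K Ω))).left i →+ QZ l →+
        HH l (fbr f' (spc (algebraMap R Ω))).left (i + k),
      (∀ i α, ε i α = 0 → ∀ x, tau α x = 0) →
      (∀ i α x, hpb l (fa f' ψ hψ') _ (ε i α x) = M • ε i (epb l (fa f ψ hψ) i α) x) →
      (∀ i α x, hpb l (fa f' v hv') _ (ε i α x) = M' • ε i (epb l (fa f v hv) i α) x) →
      ∀ i : ℕ, Mw Q i (E.gal f l i φ) (E.gal f l i u)

end Pool.Agent.MP_855f4c_ag.T

end

section

/-! h12g: the universal family near good reduction, statement. -/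

set_option autoImplicit false
set_option backward.isDefEq.respectTransparency false

open CategoryTheory AlgebraicGeometry MvPolynomial

namespace Pool.Agent.MP_855f4c_ag.T

open E

open LP in
/-- A smooth proper family of zero loci whose members with discriminant near one are mw pure. -/
def FAM_s : Prop := ∀ (p l : ℕ) [Fact p.Prime] [Fact l.Prime], l ≠ p →
  ∀ (κ : Type) [Fintype κ] [DecidableEq κ] (c : ℕ) (e : Fin c → κ → ℕ),
    ∃ Δ : MvPolynomial (MI e) ℤ, map (Int.castRingHom (ZMod p)) Δ ≠ 0 ∧ ∃ ρ : ℝ, ρ < 1 ∧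
      ∃ (R : Type) (_ : CommRing R) (_ : Algebra.FiniteType ℤ R) (X : Scheme.{0})
        (f : X ⟶ Spec (.of R)) (z : κ → (X ⟶ P1)) (cf : MI e → R), Smooth f ∧ IsProper f ∧
        ZL f z cf ∧ ∀ c' : MI e → PadicAlgCl p, (∀ i, ‖c' i‖ ≤ 1) → ρ < ‖aeval c' Δ‖ →
          ∃ _ : Algebra R (PadicAlgCl p), (∀ i, algebraMap R (PadicAlgCl p) (cf i) = c' i) ∧
            (∀ g : PadicAlgCl p →+* PadicAlgCl p, (∀ i, g (c' i) = c' i) →
              ∀ a, g (algebraMap R _ a) = algebraMap R _ a) ∧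
            ∀ (i : ℕ) (φ u : PadicAlgCl p ≃ₐ[R] PadicAlgCl p) (Q : ℕ), 1 < Q →
              Frob ℤ_[p] Q φ → Frob ℤ_[p] 1 u →
              (∃ (n : ℕ) (r : PadicAlgCl p) (o : ℤ_[p]), r ^ l ^ n = algebraMap _ _ o ∧ u r ≠ r) →
              Mw Q i (E.gal f l i φ) (E.gal f l i u)

end Pool.Agent.MP_855f4c_ag.T

end

section

/-! h12g row KSEC: the section at infinity and the first coordinate. -/

set_option autoImplicit false
set_option backward.isDefEq.respectTransparency false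

open CategoryTheory Limits Opposite AlgebraicGeometry

namespace Pool.Agent.MP_855f4c_ag.T

open E P1L

namespace Ksec

lemma ev_stalk {U : Scheme.{0}} (x : U) (a : Γ(U, ⊤)) :
    ev (D := U.presheaf.stalk x) (U.fromSpecStalk x) a = U.presheaf.germ ⊤ x trivial a := by
  have : (U.fromSpecStalk x).appTop ≫ (Scheme.ΓSpecIso (U.presheaf.stalk x)).hom =
      U.presheaf.germ ⊤ x trivial := by
    rw [Scheme.fromSpecStalk_appTop]
    simp
  exact congr($this a)

/-- A function that is a unit at all affine points is a unit. -/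
lemma unit_of_ev {U : Scheme.{0}} {s : Γ(U, ⊤)} (h : ∀ (D : Type) [CommRing D] [IsLocalRing D]
    (w : Spec (.of D) ⟶ U), IsUnit (ev w s)) : IsUnit s :=
  U.toRingedSpace.isUnit_of_isUnit_germ ⊤ s fun x _ => ev_stalk x s ▸ h _ _

variable {D : Type} [CommRing D] {z : Spec (.of D) ⟶ P1} {x y : Fin 2 → D}

/-- In the first chart the first coordinate is a unit. -/
lemma unit_zero (h : CoA z x) (c : Cov x y) (hz : ∀ t, z t ∈ Set.range P1D.ι₁) : IsUnit (x 0) := by
  obtain ⟨a, rfl⟩ := exists_pt1 z hz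
  have m := h.min (coA_pt1 a) c (y' := ![1, 0]) (by simp [Cov]) 0 1
  rw [Cov, Fin.sum_univ_two] at c
  refine IsUnit.of_mul_eq_one (y 0 + y 1 * a) ?_
  simp only [Matrix.cons_val_zero, Matrix.cons_val_one] at m
  linear_combination c + y 1 * m

/-- In the second chart the second coordinate is a unit. -/
lemma unit_one (h : CoA z x) (c : Cov x y) (hz : ∀ t, z t ∈ Set.range P1D.ι₂) : IsUnit (x 1) := by
  obtain ⟨a, rfl⟩ := exists_pt2 z hz
  have m := h.min (coA_pt2 a) c (y' := ![0, 1]) (by simp [Cov]) 0 1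
  rw [Cov, Fin.sum_univ_two] at c
  refine IsUnit.of_mul_eq_one (y 0 * a + y 1) ?_
  simp only [Matrix.cons_val_zero, Matrix.cons_val_one] at m
  linear_combination c - y 0 * m

/-- The point at infinity over `S`. -/
noncomputable def inf (S : Scheme.{0}) : S ⟶ P1 := specZIsTerminal.from S ≫ pt2 (0 : ℤ)

lemma comp_inf {S : Scheme.{0}} (w : Spec (.of D) ⟶ S) : w ≫ inf S = pt2 (0 : D) := by
  rw [inf, ← Category.assoc, specZIsTerminal.hom_ext (w ≫ _) (spc (Int.castRingHom D)), map_pt2,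
    map_zero]

lemma mem_inf {S : Scheme.{0}} (L : PL S) (x : L.P) :
    L.q x ∈ Set.range P1D.ι₁ ↔ x ∉ Set.range (L.pnt (𝟙 S) (inf S)) := by
  constructor
  · rintro h ⟨s, rfl⟩
    rw [L.q_pnt, inf, Scheme.Hom.comp_apply, pt2_mem₁] at h
    exact h (zero_mem _)
  · intro h
    obtain ⟨t, ht⟩ : x ∈ Set.range (L.P.fromSpecResidueField x) := by simp
    rcases L.pnt_field (k := L.P.residueField x) (L.P.fromSpecResidueField x) with ⟨a, e⟩ | e
    · rw [← ht, e, L.q_pnt]
      exact pt1_mem₁ _ _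
    · refine (h ⟨(L.P.fromSpecResidueField x ≫ L.π) t, ?_⟩).elim
      rw [← Scheme.Hom.comp_apply, L.comp_pnt, Category.comp_id,
        comp_inf (D := L.P.residueField x), ← e, ht]

/-- The first coordinate as a section. -/
noncomputable def sec0 {T : Scheme.{0}} (z : T ⟶ P1) (h : IsLin (co1 z)) :
    Sec h.coc (z ⁻¹ᵁ P1D.ι₁.opensRange) where
  s U a := a.1.1 0
  res _ _ := rfl
  tr U a b := by
    have m := h.min U _ _ _ _ a.2.1 b.2.1 a.2.2 b.2.2 0 1
    have c := a.2.2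
    rw [Cov, Fin.sum_univ_two] at c
    change b.1.1 0 = (∑ i, a.1.2 i * b.1.1 i) * a.1.1 0
    rw [Fin.sum_univ_two]
    linear_combination (-b.1.1 0) * c - a.1.2 1 * m
  unit U a hU := unit_of_ev fun D _ _ w =>
    unit_zero (a.2.1.coA w) (cov_map _ a.2.2) fun t => by
      rw [Scheme.Hom.comp_apply, Scheme.Hom.comp_apply]
      exact hU _

end Ksec

open Ksec in
theorem ksec : KSEC_s := fun hP S L =>
  ⟨L.pnt (𝟙 S) (inf S), L.q ⁻¹ᵁ P1D.ι₁.opensRange, L.pnt_π _ _, inferInstance, mem_inf L,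
    ⟨sec0 L.q (hP _ _)⟩⟩

end Pool.Agent.MP_855f4c_ag.T

end

section

/-! h12g, row YJ, part 4 (helper9): homogeneous coordinates on a projective scheme. -/

set_option autoImplicit false
set_option backward.isDefEq.respectTransparency false

open CategoryTheory Limits AlgebraicGeometry HomogeneousLocalization MvPolynomial

namespace Pool.Agent.MP_855f4c_ag.T.YJ

open E P1L

attribute [local instance] MvPolynomial.gradedAlgebra

variable {K ν : Type} [CommRing K] {Y : Scheme.{0}}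

theorem away_pt {C : Type} [CommRing C] {j : ν} (g : Away (homogeneousSubmodule ν K) (X j) →+* C)
    (h : IsUnit (g (fr K j j))) :
    spc g ≫ Proj.awayι _ _ (xm K j) one_pos = pt (g.comp (kB K j)) (fun k => g (fr K j k)) j h := by
  rw [pt, sp, ← eq_ev g (fun k => g (fr K j k)) h fun k => by rw [fr_self, map_one, mul_one]]

theorem cov_X (z : Proj (homogeneousSubmodule ν K)) :
    ∃ j, z ∈ Proj.basicOpen (homogeneousSubmodule ν K) (X j) := by
  refine TopologicalSpace.Opens.mem_iSup.mp ((Proj.iSup_basicOpen_eq_top' _ (X : ν → MvPolynomial ν K)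
    (fun i => ⟨1, xm K i⟩) ?_).ge (Set.mem_univ z))
  rw [eq_top_iff]
  rintro x -
  induction x using MvPolynomial.induction_on with
  | C a => exact Subalgebra.algebraMap_mem _ (⟨C a, isHomogeneous_C _ _⟩ : homogeneousSubmodule ν K 0)
  | add p q hp hq => exact add_mem hp hq
  | mul_X p n hp => exact mul_mem hp (Algebra.subset_adjoin ⟨n, rfl⟩)

/-- Homogeneous coordinates. -/
def coP (f : Y ⟶ Spec (.of K)) (ι : Y ⟶ Proj (homogeneousSubmodule ν K)) (U : Over Y)
    (x : ν → Γ(U.left, ⊤)) : Prop :=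
  ∀ (D : Type) [CommRing D] (w : Spec (.of D) ⟶ U.left) (χ : K →+* D) (i : ν)
    (h : IsUnit (T.ev w (x i))), w ≫ U.hom ≫ f = spc χ →
    w ≫ U.hom ≫ ι = pt χ (fun k => T.ev w (x k)) i h

theorem pt_congr {C : Type} [CommRing C] (χ : K →+* C) {v w : ν → C} (e : v = w) (i : ν)
    (h : IsUnit (v i)) : pt χ v i h = pt χ w i (e ▸ h) := by
  subst e; rfl

variable [Fintype ν]

theorem isLin (f : Y ⟶ Spec (.of K)) (ι : Y ⟶ Proj (homogeneousSubmodule ν K))
    (hι : ι ≫ Proj.toSpecZero _ ≫ spc (algebraMap K (homogeneousSubmodule ν K 0)) = f) :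
    IsLin (coP f ι) where
  res {U' U} v x hx D _ w χ i h hχ := by
    have e : (fun k => T.ev w ((gam v.left ∘ x) k)) = fun k => T.ev (w ≫ v.left) (x k) :=
      funext fun k => (P1L.ev_comp _ _ _).symm
    rw [pt_congr χ e, ← hx D (w ≫ v.left) χ i _ (by rw [← hχ, Category.assoc, Over.w_assoc]),
      Category.assoc, Over.w_assoc]
  min U x y x' y' hx hx' c c' i j := by
    refine P1L.ev_ext fun D _ _ w => ?_
    obtain ⟨χ, hχ⟩ := ex_spc (w ≫ U.hom ≫ f)
    obtain ⟨a, -, ha⟩ := IsLocalRing.exists_of_isUnit_sum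
      ((show ∑ _, _ = _ from cov_map (T.ev w) c) ▸ isUnit_one)
    obtain ⟨b, -, hb⟩ := IsLocalRing.exists_of_isUnit_sum
      ((show ∑ _, _ = _ from cov_map (T.ev w) c') ▸ isUnit_one)
    have ua : IsUnit (T.ev w (x a)) := isUnit_of_mul_isUnit_right ha
    have ub : IsUnit (T.ev w (x' b)) := isUnit_of_mul_isUnit_right hb
    have H := pt_inj χ χ (v := fun k => T.ev w (x k)) (w := fun k => T.ev w (x' k)) ua ub
      ((hx D w χ a ua hχ).symm.trans (hx' D w χ b ub hχ))
    refine ua.mul_right_cancel ?_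
    rw [map_mul, map_mul, mul_assoc, mul_assoc, ← H i, ← H j]
    ring
  loc U u := by
    classical
    obtain ⟨j, hj⟩ := cov_X ((U.hom ≫ ι) u)
    obtain ⟨V, hV, hu, hle⟩ := TopologicalSpace.Opens.isBasis_iff_nbhd.1 U.left.isBasis_affineOpens
      (U := (U.hom ≫ ι) ⁻¹ᵁ Proj.basicOpen (homogeneousSubmodule ν K) (X j)) (x := u) hj
    replace hV : IsAffineOpen V := hV
    have hr : Set.range (hV.fromSpec ≫ U.hom ≫ ι) ⊆
        Set.range (Proj.awayι (homogeneousSubmodule ν K) _ (xm K j) one_pos) := by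
      rintro _ ⟨z, rfl⟩
      change _ ∈ (Proj.awayι (homogeneousSubmodule ν K) _ (xm K j) one_pos).opensRange
      rw [Proj.opensRange_awayι, Scheme.Hom.comp_apply]
      exact hle (hV.range_fromSpec.le ⟨z, rfl⟩)
    obtain ⟨g, hg⟩ := ex_spc (D := Γ(U.left, V)) (IsOpenImmersion.lift _ _ hr)
    have e := IsOpenImmersion.lift_fac _ _ hr
    rw [hg] at e
    refine ⟨Over.mk (hV.fromSpec ≫ U.hom), Over.homMk hV.fromSpec rfl, inferInstanceAs
      (IsOpenImmersion hV.fromSpec), hV.range_fromSpec.ge hu,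
      fun k => str (D := Γ(U.left, V)) (𝟙 _) (g (fr K j k)), Pi.single j 1, ?_, ?_⟩
    · intro D _ w χ i h hχ
      obtain ⟨ψ, rfl⟩ := ex_spc (C := Γ(U.left, V)) w
      have e1 : (fun k => T.ev (spc ψ) (str (D := Γ(U.left, V)) (𝟙 _) (g (fr K j k)))) =
          fun k => (ψ.comp g) (fr K j k) := funext fun k => ev_str _ _ ψ (Category.comp_id _) _
      have u1 : IsUnit ((ψ.comp g) (fr K j j)) := by rw [fr_self, map_one]; exact isUnit_one
      have e2 : spc ψ ≫ (hV.fromSpec ≫ U.hom) ≫ ι =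
          pt ((ψ.comp g).comp (kB K j)) (fun k => (ψ.comp g) (fr K j k)) j u1 := by
        rw [Category.assoc, ← e, ← away_pt, spc, spc, spc, CommRingCat.ofHom_comp, Spec.map_comp_assoc]
      have e3 : (ψ.comp g).comp (kB K j) = χ := by
        have := pt_over ((ψ.comp g).comp (kB K j)) (fun k => (ψ.comp g) (fr K j k)) j u1
        rw [← e2, Category.assoc, Category.assoc, hι] at this
        exact congrArg CommRingCat.Hom.hom (Spec.map_injective (this.symm.trans hχ))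
      subst e3
      exact e2.trans ((pt_eq _ _ _ fun _ => rfl).trans (pt_congr _ e1 i h).symm)
    · simp [Cov, Pi.single_apply, fr_self]

/-- Vectors fixed by the idempotent are coordinates. -/
theorem coP_of (f : Y ⟶ Spec (.of K)) (ι : Y ⟶ Proj (homogeneousSubmodule ν K)) {J : Type}
    [CommRing J] (χ : K →+* J) (e : ν × ν → J) (r : Spec (.of J) ⟶ Y) (hr : r ≫ f = spc χ)
    (h : ∀ (D : Type) [CommRing D] (ψ : J →+* D) (v : ν → D) (i : ν) (h : IsUnit (v i)),
      (∀ k, ∑ l, ψ (e (k, l)) * v l = v k) → spc ψ ≫ r ≫ ι = pt (ψ.comp χ) v i h)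
    (U : Over Y) (s : U.left ⟶ Spec (.of J)) (hs : s ≫ r = U.hom) (v : ν → Γ(U.left, ⊤))
    (hv : ∀ k, ∑ l, str s (e (k, l)) * v l = v k) : coP f ι U v := by
  intro D _ w χ' i hi hχ
  obtain ⟨ψ, hψ⟩ := ex_spc (w ≫ s)
  have e1 : ψ.comp χ = χ' := by
    rw [← hs, Category.assoc, hr, ← Category.assoc, hψ, ← Spec.map_comp] at hχ
    exact congrArg CommRingCat.Hom.hom (Spec.map_injective hχ)
  rw [← hs, Category.assoc, ← Category.assoc, hψ, ← e1]
  refine h D ψ _ i hi fun k => ?_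
  rw [← hv k, map_sum]
  exact Finset.sum_congr rfl fun l _ => by rw [map_mul, ev_str w s ψ hψ]

/-- The affine model with its equations and the coordinates. -/
theorem main (K ν : Type) [Field K] [Fintype ν] (Y : Scheme.{0}) (f : Y ⟶ Spec (.of K)) [Smooth f]
    (ι : Y ⟶ Proj (homogeneousSubmodule ν K)) [IsClosedImmersion ι]
    (hι : ι ≫ Proj.toSpecZero _ ≫ spc (algebraMap K (homogeneousSubmodule ν K 0)) = f) :
    ∃ (n : ℕ) (g : Fin n → MvPolynomial (ν × ν) K)
      (r : Spec (.of (MvPolynomial (ν × ν) K ⧸ Ideal.span (Set.range g))) ⟶ Y)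
      (co : ∀ U : Over Y, (ν → Γ(U.left, ⊤)) → Prop), IsLin co ∧
      Algebra.Smooth K (MvPolynomial (ν × ν) K ⧸ Ideal.span (Set.range g)) ∧
      r ≫ f = spc (algebraMap K _) ∧
      (∀ (D : Type) [CommRing D] (χ : K →+* D) (z : ν × ν → D), (∀ j, eval₂ χ z (g j) = 0) → RK z) ∧
      (∀ (U : Over Y) (s : U.left ⟶ Spec (.of (MvPolynomial (ν × ν) K ⧸ Ideal.span (Set.range g)))),
        s ≫ r = U.hom → ∀ v : ν → Γ(U.left, ⊤),
        (∀ k, ∑ l, str s (Ideal.Quotient.mk _ (X (k, l))) * v l = v k) → co U v) ∧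
      ∀ (Ω : Type) [Field Ω] (χ : K →+* Ω) (v μ : ν → Ω), ∑ i, μ i * v i = 1 →
        (∀ (G : MvPolynomial ν K) (n : ℕ), 0 < n → G.IsHomogeneous n →
          (∀ y, ι y ∉ Proj.basicOpen (homogeneousSubmodule ν K) G) → eval₂ χ v G = 0) →
        ∀ j, eval₂ χ (fun p : ν × ν => v p.1 * μ p.2) (g j) = 0 := by
  obtain ⟨a, r, h1, h2, h3, h4, h5⟩ := core K ν f ι hι
  obtain ⟨n, g, hg⟩ : ∃ (n : ℕ) (g : Fin n → MvPolynomial (ν × ν) K), Ideal.span (Set.range g) = a :=
    Submodule.fg_iff_exists_fin_generating_family.1 (IsNoetherian.noetherian a)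
  subst hg
  refine ⟨n, g, r, coP f ι, isLin f ι hι, h1, h3, fun D _ χ z hz => ?_,
    fun U s hs v hv => coP_of f ι (algebraMap K _) (fun p => Ideal.Quotient.mk _ (X p)) r h3 h4
      U s hs v hv,
    fun Ω _ χ v μ a b j => h5 Ω χ v μ a b _ (Ideal.subset_span ⟨j, rfl⟩)⟩
  simpa using (I0_le (eval₂Hom χ z)).1 (h2.trans (Ideal.span_le.2 (Set.range_subset_iff.2 hz)))

end Pool.Agent.MP_855f4c_ag.T.YJ

end

section

/-! h12g, row YO (helper9): points of the geometric fibre given by idempotent matrices. -/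

set_option autoImplicit false
set_option backward.isDefEq.respectTransparency false

open CategoryTheory Limits AlgebraicGeometry MvPolynomial

namespace Pool.Agent.MP_855f4c_ag.T

open E P1L

/-- Coordinates pull back. -/
theorem IsLin.pb {T T' : Scheme.{0}} {ι : Type} [Fintype ι]
    {co : ∀ U : Over T, (ι → Γ(U.left, ⊤)) → Prop} (h : IsLin co) (g : T' ⟶ T) :
    IsLin (copb g co) where
  res w x hx := h.res ((Over.map g).map w) x hx
  min U := h.min ((Over.map g).obj U)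
  loc U u := by
    obtain ⟨W, w, h1, h2, x, y, h3, h4⟩ := h.loc ((Over.map g).obj U) u
    refine ⟨Over.mk (w.left ≫ U.hom), Over.homMk w.left rfl, h1, h2, x, y, ?_, h4⟩
    have e : (w.left ≫ U.hom) ≫ g = W.hom := (Category.assoc _ _ _).trans (Over.w w)
    have := h.res (U' := (Over.map g).obj (Over.mk (w.left ≫ U.hom)))
      (Over.homMk (𝟙 W.left) ((Category.id_comp _).trans e.symm)) x h3
    exact (funext fun i => gam_id _ (x i) : gam (𝟙 W.left) ∘ x = x) ▸ this

lemma YJ.str_spc {C D : Type} [CommRing C] [CommRing D] {U : Scheme.{0}} (h : U ⟶ Spec (.of D))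
    (ψ : C →+* D) (c : C) : str (h ≫ spc ψ) c = str h (ψ c) := by
  have := Scheme.ΓSpecIso_inv_naturality (CommRingCat.ofHom ψ)
  rw [str, Scheme.Hom.comp_appTop, ← Category.assoc, ← this]
  rfl

attribute [local instance] MvPolynomial.gradedAlgebra in
def YO_s : Prop := ∀ (K Ω ν : Type) [Field K] [CommRing Ω] [Fintype ν] (τ : K →+* Ω)
  (X : Scheme.{0}) (f : X ⟶ Spec (.of K)) [Smooth f] (ι : X ⟶ Proj (homogeneousSubmodule ν K))
  [IsClosedImmersion ι],
    ι ≫ Proj.toSpecZero _ ≫ spc (algebraMap K (homogeneousSubmodule ν K 0)) = f →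
    ∃ (n : ℕ) (g : Fin n → MvPolynomial (ν × ν) K)
      (co : ∀ U : Over (fbr f (spc τ)).left, (ν → Γ(U.left, ⊤)) → Prop), IsLin co ∧
      Algebra.FormallySmooth K (MvPolynomial (ν × ν) K ⧸ Ideal.span (Set.range g)) ∧
      (∀ (L : Type) [Field L] [Algebra K L] (v μ : ν → L), ∑ i, μ i * v i = 1 →
        (∀ (G : MvPolynomial ν K) (n : ℕ), 0 < n → G.IsHomogeneous n →
          (∀ y, ι y ∉ Proj.basicOpen (homogeneousSubmodule ν K) G) → aeval v G = 0) →
        ∀ j, aeval (fun p : ν × ν => v p.1 * μ p.2) (g j) = 0) ∧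
      ∀ (D : Type) [CommRing D] (ω : Ω →+* D) (z : ν × ν → D),
        (∀ j, eval₂ (ω.comp τ) z (g j) = 0) → YJ.RK z ∧
        ∃ r : Spec (.of D) ⟶ (fbr f (spc τ)).left, r ≫ pullback.fst _ _ = spc ω ∧
          (∀ (σ : Ω →+* Ω) (h : spc σ ≫ spc τ = spc τ) (θ : D →+* D), θ.comp ω = ω.comp σ →
            (∀ p, θ (z p) = z p) → spc θ ≫ r = r ≫ fa f σ h) ∧
          ∀ (U : Over (Spec (.of D))) (v : ν → Γ(U.left, ⊤)),
            (∀ k, ∑ l, str U.hom (z (k, l)) * v l = v k) → copb r co U v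

theorem yo : YO_s := by
  intro K Ω ν _ _ _ τ X f _ ι _ hι
  obtain ⟨n, g, r, co, h1, h2, h3, h4, h5, h6⟩ := YJ.main K ν X f ι hι
  refine ⟨n, g, _, h1.pb (fbr f (spc τ)).hom, h2.formallySmooth,
    fun L _ _ v μ a b => h6 L _ v μ a b, fun D _ ω z hz => ⟨h4 D _ z hz, ?_⟩⟩
  let ψ : MvPolynomial (ν × ν) K ⧸ Ideal.span (Set.range g) →+* D :=
    Ideal.Quotient.lift _ (eval₂Hom (ω.comp τ) z)
      (Ideal.span_le (I := RingHom.ker _).2 (Set.range_subset_iff.2 hz))
  have hX : ∀ p, ψ (Ideal.Quotient.mk _ (MvPolynomial.X p)) = z p := fun p => eval₂Hom_X' _ _ _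
  have hC : ψ.comp (algebraMap K _) = ω.comp τ := RingHom.ext fun c => eval₂Hom_C _ _ _
  have sq : spc ω ≫ spc τ = (spc ψ ≫ r) ≫ f := by
    rw [Category.assoc, h3, ← Spec.map_comp, ← Spec.map_comp, ← CommRingCat.ofHom_comp,
      ← CommRingCat.ofHom_comp, hC]
  obtain ⟨ρ, e1, e2⟩ : ∃ ρ : Spec (.of D) ⟶ (fbr f (spc τ)).left,
      ρ ≫ pullback.fst (Over.mk (spc τ)).hom f = spc ω ∧
      ρ ≫ pullback.snd (Over.mk (spc τ)).hom f = spc ψ ≫ r :=
    ⟨_, pullback.lift_fst _ _ sq, pullback.lift_snd _ _ sq⟩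
  refine ⟨ρ, e1, fun σ h θ a b => ?_, fun U v hv => ?_⟩
  · have hτ : σ.comp τ = τ :=
      congrArg CommRingCat.Hom.hom (Spec.map_injective ((Spec.map_comp _ _).trans h))
    have hθ : θ.comp ψ = ψ := by
      refine Ideal.Quotient.ringHom_ext (MvPolynomial.ringHom_ext (fun c => ?_) fun p => ?_)
      · exact DFunLike.congr_fun (show (θ.comp ψ).comp (algebraMap K _) = ψ.comp (algebraMap K _) by
          rw [RingHom.comp_assoc, hC, ← RingHom.comp_assoc, a, RingHom.comp_assoc, hτ]) c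
      · exact (congrArg θ (hX p)).trans ((b p).trans (hX p).symm)
    refine pullback.hom_ext ?_ ?_
    · have : fa f σ h ≫ pullback.fst _ _ = pullback.fst _ _ ≫ spc σ := pullback.lift_fst _ _ _
      rw [Category.assoc, Category.assoc, this, e1, ← Category.assoc, e1, ← Spec.map_comp,
        ← Spec.map_comp, ← CommRingCat.ofHom_comp, ← CommRingCat.ofHom_comp, a]
    · have : fa f σ h ≫ pullback.snd _ _ = pullback.snd _ _ := pullback.lift_snd _ _ _
      rw [Category.assoc, Category.assoc, this, e2, ← Category.assoc, ← Spec.map_comp,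
        ← CommRingCat.ofHom_comp, hθ]
  · refine h5 ((Over.map (fbr f (spc τ)).hom).obj ((Over.map ρ).obj U)) (U.hom ≫ spc ψ) ?_ v
      fun k => ?_
    · exact ((Category.assoc _ _ _).trans (congrArg _ e2.symm)).trans (Category.assoc _ _ _).symm
    · refine Eq.trans (Finset.sum_congr rfl fun l _ => congrArg (· * v l) ?_) (hv k)
      rw [← hX]
      exact YJ.str_spc _ _ _

end Pool.Agent.MP_855f4c_ag.T

end

section

/-! h12g row TOP: the product of the classes on a power of the projective line. -/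

set_option autoImplicit false
set_option backward.isDefEq.respectTransparency false

open CategoryTheory Limits Abelian Opposite AlgebraicGeometry Function

namespace Pool.Agent.MP_855f4c_ag.T

open E E3 E4

namespace Top

variable {l : ℕ} [Fact l.Prime] {T : Scheme.{0}}

lemma pdh (zb : ZB_s) {N : ℕ} (h : D.PD l T N) : ∃ t : HH l T N →+ QZ l, PDh t := by
  obtain ⟨t, ht⟩ := h
  obtain ⟨e⟩ := zb.1 T
  refine ⟨t.comp (pre e.hom _ N), fun A hA i j h => ?_⟩
  let ε := AddEquiv.ofBijective _ (pre_bij e.hom A j)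
  have : dm (t.comp (pre e.hom _ N)) A h =
      (fun χ => χ.comp ε.toAddMonoidHom) ∘ D.phi l t A h := funext fun x => AddMonoidHom.ext fun y =>
    congrArg t (Ext.comp_assoc _ y x (zero_add j) h (by omega)).symm
  rw [this]
  exact ε.symm.addMonoidHomCongrLeft.bijective.comp (ht A hA i j h)

lemma pw_snoc (L : List (EE l T 2)) (x : EE l T 2) (h) : pw (L ++ [x]) = (pw L).comp x h := by
  induction L with
  | nil => exact (Ext.comp_mk₀_id x).trans (Ext.mk₀_id_comp x).symm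
  | cons y L ih =>
    exact (congrArg (fun z => y.comp z _) (ih (by simp only [List.length_append]; rfl))).trans
      (Ext.comp_assoc _ _ _ _ _ (by simp only [List.length_append, List.length_cons,
        List.append_eq, List.length_nil]; omega)).symm

lemma sur_one {m n : ℕ} (y : EE l T m) (h : 0 + m = n) (hy : Surjective (tau y)) :
    Surjective (tau ((one l T).comp y h)) := by
  obtain rfl : m = n := (zero_add m).symm.trans h
  rwa [Ext.mk₀_id_comp]

lemma geo (twf : D.TWF_s) {Ω : Type} [Field Ω] {n : ℕ} {g : T ⟶ Spec (.of Ω)} (h : D.TwN n g) :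
    Qcs T ∧ ConnectedSpace T := by
  obtain ⟨_, -, hP, -⟩ := twf.1 n T _ g h
  have := hP inferInstance
  exact ⟨⟨QuasiCompact.compactSpace_of_compactSpace g,
    ⟨by rw [← terminal.comp_from g]; infer_instance⟩⟩, inferInstance⟩

lemma core (pdt : D.PDT_s) (twf : D.TWF_s) (zb : ZB_s) (kh : KH_s) (kt : KTOP_s) (cl : CLZ_s)
    (kp : KPB_s) (ks : KSEC_s) {Ω : Type} [Field Ω] [IsAlgClosed Ω] [CharZero Ω] (Ch : Chern l Ω)
    (hP : P1L_s) (n : ℕ) : ∃ (P : Scheme.{0}) (g : P ⟶ Spec (.of Ω)) (zs : List (P ⟶ P1)),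
      zs.length = n ∧ D.TwN n g ∧
      (∀ (T : Scheme.{0}) (t : T ⟶ Spec (.of Ω)) (ys : List (T ⟶ P1)), ys.length = n →
        ∃! w : T ⟶ P, w ≫ g = t ∧ zs.map (w ≫ ·) = ys) ∧
      Surjective (tau (pw (zs.map (Ch.x hP g)))) ∧ ∃ a, tau (pw (zs.map (Ch.x hP g))) a ≠ 0 := by
  have sur {P : Scheme.{0}} {g : P ⟶ Spec (.of Ω)} {n : ℕ} (hg : D.TwN n g) (L : List (EE l P 2))
      (hl : L.length = n) (h : ∃ a, tau (pw L) a ≠ 0) : Surjective (tau (pw L)) := by
    subst hl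
    obtain ⟨t, ht⟩ := pdh zb (pdt l Ω _ P g hg)
    exact (kt l P _ t (geo twf hg).1 (geo twf hg).2 ht).2.1 _ h
  induction n with
  | zero =>
    have h0 : ∃ a, tau (pw (([] : List (Spec (.of Ω) ⟶ P1)).map (Ch.x hP (𝟙 _)))) a ≠ 0 := by
      by_contra! h
      have k (a) : (Ext.mk₀ (ta l (Spec (.of Ω)) a) : HH l _ 0) = 0 :=
        (Ext.comp_mk₀_id _).symm.trans (h a)
      have := ((kh l _).1 inferInstance).1 ((k (QuotientAddGroup.mk (l : ℚ_[l])⁻¹)).trans (k 0).symm)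
      rw [QZ.mk_zero, norm_inv, Padic.norm_p, inv_inv] at this
      exact this.not_gt l_gt
    exact ⟨_, 𝟙 _, [], rfl, .iso _ inferInstance, fun T t ys h => ⟨t, ⟨Category.comp_id _,
      (List.length_eq_zero_iff.1 h).symm⟩, fun w hw => (Category.comp_id _).symm.trans hw.1⟩,
      sur (.iso (𝟙 _) inferInstance) _ rfl h0, h0⟩
  | succ n ih =>
    obtain ⟨P, g, zs, h1, h2, h3, h4, -⟩ := ih
    let L := PL.std P
    have h2' := D.TwN.step L g h2
    have h0 : ∃ a, tau (pw ((zs.map (L.π ≫ ·) ++ [L.q]).map (Ch.x hP (L.π ≫ g)))) a ≠ 0 := by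
      by_contra! h
      obtain ⟨i, O, e1, e2, e3, ⟨s⟩⟩ := ks hP P L
      have hL : Linv l (Spec (.of Ω)) :=
        .spec (Nat.cast_ne_zero.2 (Fact.out : l.Prime).ne_zero : (l : Ω) ≠ 0).isUnit
      obtain ⟨c1, c2⟩ := cl l P L.P i O e2 e3 (hL.of_hom (L.π ≫ g))
      rw [List.map_append] at h
      generalize hA : (zs.map (L.π ≫ ·)).map (Ch.x hP (L.π ≫ g)) = A at h
      have hl : A.length = n := by rw [← hA, List.length_map, List.length_map, h1]
      have hB : zs.map (Ch.x hP g) = A.map (epb l i 2) := by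
        rw [← hA, List.map_map, List.map_map]
        refine List.map_congr_left fun z _ => ?_
        simp only [comp_apply]
        rw [(kp l _ _ i).2.2.2, reassoc_of% e1, reassoc_of% e1]
      rw [hB] at h4
      subst hl
      have hd : 2 * A.length + 2 = 2 * (A ++ [Ch.x hP (L.π ≫ g) L.q]).length := by
        rw [List.length_append]; rfl
      obtain ⟨t, ht⟩ := pdh zb (pdt l Ω (A ++ [Ch.x hP (L.π ≫ g) L.q]).length _ _
        (by rwa [List.length_append]))
      obtain ⟨Ψ, hΨ⟩ := c2 (2 * A.length)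
      have hth : Ch.th (L.π ≫ g) s = 0 := (ht _ c1 2 _ hd).1 (AddMonoidHom.ext fun y => by
        obtain ⟨a, ha⟩ := sur_one _ (by rw [List.length_map, zero_add]) h4 (Ψ y)
        rw [← (kp l _ _ i).2.2.1, ← (kp l _ _ i).2.1, ← hΨ] at ha
        obtain rfl := Ψ.injective ha
        refine congrArg t (Eq.trans ?_ ((h a).trans (Ext.comp_zero _ _ _ _ hd).symm))
        refine Eq.trans ?_ (congrArg (tau · a) (pw_snoc A _ hd).symm)
        refine (Ext.comp_assoc _ _ _ (add_zero _) (zero_add 2) (by omega)).trans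
          (Eq.trans ?_ (Ext.comp_assoc _ _ _ (zero_add _) hd (by omega)))
        exact congrArg (fun x => (tau (pw A) a).comp x hd) (Ch.th_c _ s))
      have hx : Ch.x hP (L.π ≫ g) L.q = 0 := by rw [Chern.x, ← Ch.th_c _ s, hth, map_zero]
      obtain ⟨p, ⟨hp, -⟩, -⟩ := h3 _ (𝟙 _) (List.replicate _ (pt1 0)) List.length_replicate
      let L₀ := PL.std (Spec (.of Ω))
      have := (kp l _ _ (L.pnt (L₀.π ≫ p) L₀.q)).2.2.2 Ω Ch hP (L.π ≫ g) L.q
      rw [hx, map_zero, ← Category.assoc, L.pnt_π, L.pnt_q, Category.assoc, hp,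
        Category.comp_id] at this
      exact Ch.ne L₀ _ this.symm
    have hl : (zs.map (L.π ≫ ·) ++ [L.q]).length = n + 1 := by simp [h1]
    refine ⟨L.P, L.π ≫ g, _, hl, h2', fun T t ys h => ?_,
      sur h2' _ ((List.length_map _).trans hl) h0, h0⟩
    obtain ⟨ys, y, rfl⟩ := (List.eq_nil_or_concat' ys).resolve_left (by rintro rfl; simp at h)
    obtain ⟨w, ⟨w1, w2⟩, w3⟩ := h3 T t ys (by simpa using h)
    refine ⟨L.pnt w y, ⟨by rw [← Category.assoc, L.pnt_π, w1], ?_⟩, fun v ⟨v1, v2⟩ => ?_⟩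
    · simp [← w2, comp_def, ← Category.assoc, L.pnt_π, L.pnt_q]
    · simp only [List.map_append, List.map_map, List.map_cons, List.map_nil,
        List.append_singleton_inj] at v2
      refine L.pnt_ext ((w3 _ ⟨by simpa using v1, ?_⟩).trans (L.pnt_π _ _).symm)
        (v2.2.trans (L.pnt_q _ _).symm)
      simpa [comp_def] using v2.1

end Top

theorem topT (pdt : D.PDT_s) (twf : D.TWF_s) (zb : ZB_s) (kh : KH_s) (kt : KTOP_s) (cl : CLZ_s)
    (kp : KPB_s) (ks : KSEC_s) : TOP_s := by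
  intro l _ Ω _ _ _ Ch hP κ _ _ K hK hk
  obtain ⟨P, g, zs, h1, h2, h3, h4⟩ := Top.core pdt twf zb kh kt cl kp ks Ch hP K.length
  let z (k : κ) : P ⟶ P1 := zs[K.idxOf k]'(h1 ▸ List.idxOf_lt_length_of_mem (hk k))
  have hz : K.map z = zs := List.ext_getElem (by simp [h1]) fun i _ _ => by
    simp [z, hK.idxOf_getElem]
  have hu (T : Scheme.{0}) (t : T ⟶ Spec (.of Ω)) (y : κ → (T ⟶ P1)) :
      ∃! w : T ⟶ P, w ≫ g = t ∧ ∀ k, w ≫ z k = y k := by
    refine (existsUnique_congr fun w => and_congr_right fun _ => ?_).1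
      (h3 T t (K.map y) (List.length_map _))
    rw [← hz, List.map_map, List.map_inj_left]
    exact ⟨fun h k => h k (hk k), fun h k _ => h k⟩
  refine ⟨P, g, z, h2, ⟨fun D _ w w' a b => (hu _ (w' ≫ g) _).unique ⟨a, b⟩ ⟨rfl, fun _ => rfl⟩,
    fun D _ τ y => ⟨fun _ _ _ _ _ _ a => a.elim0, fun _ => (hu _ _ y).exists⟩⟩, hu, ?_⟩
  rw [← hz, List.map_map] at h4
  exact h4

end Pool.Agent.MP_855f4c_ag.T

end

section

/-! h12g: the groups `HH` and the cohomology of objects of a slice. -/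

set_option autoImplicit false
set_option backward.isDefEq.respectTransparency false

open CategoryTheory Limits Abelian Opposite AlgebraicGeometry Function

namespace Pool.Agent.MP_855f4c_ag.T

open E E3 E4

namespace Hb

section nat
variable {C D B : Type 2} [Category.{1} C] [Abelian C] [Category.{1} D] [Abelian D] [HasExt.{1} C]
  [HasExt.{1} D] [Category.{1} B] [Abelian B] [HasExt.{1} B] [EnoughInjectives C] (L : C ⥤ D)
  (Q : D ⥤ B) (K : C ⥤ B) [L.Additive] [Q.Additive] [K.Additive]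
  [PreservesFiniteLimits L] [PreservesFiniteColimits L] [PreservesFiniteLimits Q]
  [PreservesFiniteColimits Q] [PreservesFiniteLimits K] [PreservesFiniteColimits K]

lemma ext_nat (η : ∀ A : C, K.obj A ⟶ Q.obj (L.obj A))
    (hη : ∀ {A B : C} (f : A ⟶ B), η A ≫ Q.map (L.map f) = K.map f ≫ η B) {A : C} (n : ℕ) (F : C)
    (x : Ext A F n) :
    (Ext.mk₀ (η A)).comp ((x.mapExactFunctor L).mapExactFunctor Q) (zero_add n) =
      (x.mapExactFunctor K).comp (Ext.mk₀ (η F)) (add_zero n) := by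
  induction n generalizing F with
  | zero =>
    obtain ⟨x, rfl⟩ := (Ext.mk₀_bijective _ _).2 x
    rw [Ext.mapExactFunctor_mk₀, Ext.mapExactFunctor_mk₀, Ext.mapExactFunctor_mk₀,
      Ext.mk₀_comp_mk₀, Ext.mk₀_comp_mk₀, hη]
  | succ n ih =>
    let P : InjectivePresentation F := Classical.arbitrary _
    let S := ShortComplex.mk _ _ (cokernel.condition P.f)
    have hS : S.ShortExact := { exact := ShortComplex.exact_cokernel P.f }
    have := P.injective
    obtain ⟨y, rfl⟩ := Ext.covariant_sequence_exact₁ _ hS x (Ext.eq_zero_of_injective _) rfl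
    have h := (hS.map_of_exact K).extClass_naturality ((hS.map_of_exact L).map_of_exact Q)
      ⟨η _, η _, η _, hη _, hη _⟩
    rw [Ext.mapExactFunctor_comp, Ext.mapExactFunctor_comp, Ext.mapExactFunctor_comp,
      Ext.mapExactFunctor_extClass, Ext.mapExactFunctor_extClass, Ext.mapExactFunctor_extClass,
      ← Ext.comp_assoc _ _ _ (zero_add n) rfl (by omega), ih,
      Ext.comp_assoc _ _ _ (add_zero n) (zero_add 1) (by omega),
      Ext.comp_assoc _ _ _ rfl (add_zero 1) (by omega)]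
    exact congrArg ((y.mapExactFunctor K).comp · rfl) h.symm

end nat

variable (l : ℕ) [Fact l.Prime] {X : Scheme.{0}}

/-- The comparison arrow. -/
noncomputable def ar {T' T : Over X} (g : T' ⟶ T) (U : Over T'.left) :
    (Over.map T.hom).obj ((Over.map g.left).obj U) ⟶ (Over.map T'.hom).obj U :=
  Over.homMk (𝟙 U.left) (by simp)

/-- Composition of pull-backs. -/
noncomputable def eta {T' T : Over X} (g : T' ⟶ T) (A : Sh (Scheme.etaleTopology.over X)) :
    (pbe T'.hom).obj A ⟶ (pbe g.left).obj ((pbe T.hom).obj A) :=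
  ⟨{ app U := A.obj.map (ar g U.unop).op
     naturality U V f := ((A.obj.map_comp _ _).symm.trans (congrArg A.obj.map
       (Quiver.Hom.unop_inj (Over.OverMorphism.ext (by simp [ar]))))).trans (A.obj.map_comp _ _) }⟩

lemma eta_nat {T' T : Over X} (g : T' ⟶ T) {A B : Sh (Scheme.etaleTopology.over X)} (f : A ⟶ B) :
    eta g A ≫ (pbe g.left).map ((pbe T.hom).map f) = (pbe T'.hom).map f ≫ eta g B :=
  ObjectProperty.hom_ext _ (NatTrans.ext (funext fun U => f.hom.naturality (ar g U.unop).op))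

lemma cst_ext {M : Ab.{1}} {F : Sh (Scheme.etaleTopology.over X)} {a b : (cst X).obj M ⟶ F}
    (h : ∀ T m, a.hom.app (op T) (cstι M T m) = b.hom.app (op T) (cstι M T m)) : a = b :=
  ObjectProperty.hom_ext _ (sheafify_hom_ext (Scheme.etaleTopology.over X) _ _ F.property (NatTrans.ext
    (funext fun T => AddCommGrpCat.hom_ext (AddMonoidHom.ext fun m => h T.unop m))))

lemma cstPb_app {Y : Scheme.{0}} (g : Y ⟶ X) (M : Ab.{1}) (T : Over Y) (m : M) :
    ((M2.cstPb g).hom.app M).hom.app (op T) (cstι M ((Over.map g).obj T) m) = cstι M T m := by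
  have h := congr(($((cstIso Y).hom_inv_id_app M)).hom.app (op T) (cstι M T m))
  refine Eq.trans ?_ h
  exact congrArg (((cstIso Y).inv.app M).hom.app (op T))
    ((cstIso_app X M ((Over.map g).obj T) m).trans (cstIso_app Y M T m).symm)

lemma cstPb_inv {Y : Scheme.{0}} (g : Y ⟶ X) (M : Ab.{1}) (T : Over Y) (m : M) :
    ((M2.cstPb g).inv.app M).hom.app (op T) (cstι M T m) = cstι M ((Over.map g).obj T) m :=
  (congrArg _ (cstPb_app g M T m).symm).trans
    congr(($((M2.cstPb g).hom_inv_id_app M)).hom.app (op T) _)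

lemma eta_cst {T' T : Over X} (g : T' ⟶ T) (M : Ab.{1}) :
    eta g ((cst X).obj M) ≫ (pbe g.left).map ((M2.cstPb T.hom).hom.app M) ≫
      (M2.cstPb g.left).hom.app M = (M2.cstPb T'.hom).hom.app M := by
  rw [← cancel_epi ((M2.cstPb T'.hom).inv.app M), Iso.inv_hom_id_app]
  refine cst_ext fun U m => ?_
  refine Eq.trans ?_ (cstPb_app g.left M U m)
  refine congrArg (((M2.cstPb g.left).hom.app M).hom.app (op U)) ?_
  refine Eq.trans ?_ (cstPb_app T.hom M ((Over.map g.left).obj U) m)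
  refine congrArg (((M2.cstPb T.hom).hom.app M).hom.app (op ((Over.map g.left).obj U))) ?_
  exact (congrArg _ (cstPb_inv T'.hom M U m)).trans (cstι_res M (ar g U) m)

/-- The group `ℤ`. -/
abbrev Zu : Ab.{1} := AddCommGrpCat.uliftFunctor.{1}.obj (.of ℤ)

/-- The free presheaf on the final object. -/
noncomputable def z0 (Y : Scheme.{0}) : frP.obj (E.top Y) ⟶ (Functor.const _).obj Zu :=
  (frPEquiv _ _).symm (ULift.up (1 : ℤ))

lemma z0_bas (Y : Scheme.{0}) (U : Over Y) (x : U ⟶ E.top Y) :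
    (z0 Y).app (op U) (bas x) = ULift.up (1 : ℤ) := by
  have h := nat (z0 Y) x (bas (𝟙 _))
  rw [map_bas, Category.comp_id] at h
  exact h.trans ((frPEquiv (E.top Y) ((Functor.const _).obj Zu)).apply_symm_apply _)

instance (Y : Scheme.{0}) : IsIso (z0 Y) := by
  have : ∀ U, IsIso ((z0 Y).app U) := fun U => by
    let x : U.unop ⟶ E.top Y := Over.mkIdTerminal.from _
    have h (n : ℤ) : (z0 Y).app U (n • bas x) = ULift.up n := by
      rw [map_zsmul, z0_bas]
      exact ULift.ext _ _ (mul_one n)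
    have h2 (s : (frP.obj (E.top Y)).obj U) : ∃ n : ℤ, s = n • bas x := by
      refine ⟨(show ULift.{1} (U.unop ⟶ E.top Y) →₀ ℤ from s) ⟨x⟩, Finsupp.ext fun y => ?_⟩
      obtain rfl : y = ⟨x⟩ := ULift.ext _ _ (Over.mkIdTerminal.hom_ext _ _)
      exact ((mul_one _).symm.trans (congrArg _ Finsupp.single_eq_same.symm))
    refine (ConcreteCategory.isIso_iff_bijective _).2 ⟨fun s t e => ?_, fun n => ⟨_, h n.down⟩⟩
    obtain ⟨a, rfl⟩ := h2 s
    obtain ⟨b, rfl⟩ := h2 t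
    rw [h, h] at e
    rw [ULift.up_injective e]
  exact NatIso.isIso_of_isIso_app _

/-- The generator of `ℤ`. -/
noncomputable def z1 (Y : Scheme.{0}) : (fr (Scheme.etaleTopology.over Y)).obj (E.top Y) ⟶ Zs Y :=
  (presheafToSheaf (Scheme.etaleTopology.over Y) Ab.{1}).map (z0 Y)

instance (Y : Scheme.{0}) : IsIso (z1 Y) :=
  inferInstanceAs (IsIso ((presheafToSheaf (Scheme.etaleTopology.over Y) Ab.{1}).map (z0 Y)))

lemma z1_eq (Y : Scheme.{0}) : frEquiv _ _ (z1 Y) = cstι Zu (E.top Y) (ULift.up (1 : ℤ)) :=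
  (congr($(congr_app (toSheafify_naturality (Scheme.etaleTopology.over Y) (z0 Y)) (op (E.top Y))) (bas (𝟙 _))).symm.trans
    (congrArg (cstι Zu (E.top Y)) (z0_bas Y _ _)) :)

/-- The object `T` seen from its own slice. -/
noncomputable def th (T : Over X) : (Over.map T.hom).obj (E.top T.left) ⟶ T :=
  Over.homMk (𝟙 T.left) (by simp)

instance (T : Over X) : IsIso (th T) := isIso_homMk _ (inferInstanceAs (IsIso (𝟙 T.left)))

/-- The tautological section. -/
noncomputable def aT (T : Over X) : Zs T.left ⟶ (pbe T.hom).obj ((fr (Scheme.etaleTopology.over X)).obj T) :=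
  inv (z1 T.left) ≫ frPs (Over.map T.hom) _ _ _ ≫ (pbe T.hom).map ((fr (Scheme.etaleTopology.over X)).map (th T))

lemma aT_bij (T : Over X) (n : ℕ) : Bijective (gpb l T.hom (aT T) n) := by
  have e (x : H T (Linf l X) n) : gpb l T.hom (aT T) n x = post _ (lpb l T.hom).hom n
      (pre (inv (z1 T.left)) _ n (slH T.hom _ _ n (res (th T) _ n x))) :=
    congrArg (post _ (lpb l T.hom).hom n) ((Ext.mk₀_comp_mk₀_assoc _ _ _).symm.trans
      (congrArg (pre (inv (z1 T.left)) _ n) (cmp_pre _ _ _ x).symm))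
  rw [show ⇑(gpb l T.hom (aT T) n) = _ from funext e]
  exact (post_bij _ _ n).comp ((pre_bij _ _ n).comp ((slH_bij _ _ _ n).comp (pre_bij _ _ n)))

lemma aT_app (T : Over X) (U : Over T.left) :
    (aT T).hom.app (op U) (cstι Zu U (ULift.up (1 : ℤ))) =
      frEquiv _ _ ((fr (Scheme.etaleTopology.over X)).map (Over.homMk U.hom : (Over.map T.hom).obj U ⟶ T)) := by
  let u : U ⟶ E.top T.left := Over.homMk U.hom
  have h1 : frEquiv _ _ (z1 T.left ≫ aT T) = frEquiv _ _ ((fr (Scheme.etaleTopology.over X)).map (th T)) := by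
    rw [aT, IsIso.hom_inv_id_assoc]
    exact frEquiv_frPs _ _ _ _ _
  rw [frEquiv_post, z1_eq] at h1
  refine (congrArg _ (cstι_res Zu u _).symm).trans ((nat (aT T).hom u _).trans ?_)
  rw [h1]
  refine (frEquiv_pre ((Over.map T.hom).map u) _).symm.trans (congrArg _ ?_)
  rw [← Functor.map_comp]
  exact congrArg _ (Over.OverMorphism.ext (Category.comp_id _))

lemma zs_ext {F : Sh (Scheme.etaleTopology.over X)} {a b : Zs X ⟶ F} (h : ∀ U, a.hom.app (op U)
    (cstι Zu U (ULift.up (1 : ℤ))) = b.hom.app (op U) (cstι Zu U (ULift.up (1 : ℤ)))) : a = b :=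
  cst_ext (M := Zu) fun U m => by
    have : m = m.down • ULift.up (1 : ℤ) := ULift.ext _ _ (mul_one _).symm
    rw [this, map_zsmul, map_zsmul, map_zsmul]
    exact congrArg _ (h U)

lemma aT_nat {T' T : Over X} (g : T' ⟶ T) : (zpb g.left).inv ≫ (pbe g.left).map (aT T) =
    aT T' ≫ (pbe T'.hom).map ((fr (Scheme.etaleTopology.over X)).map g) ≫ eta g _ := by
  refine zs_ext fun U => ?_
  refine ((congrArg ((aT T).hom.app (op ((Over.map g.left).obj U))) (cstPb_inv g.left Zu U _)).trans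
    (aT_app T _)).trans (Eq.symm ?_)
  refine (congrArg (fun s => ((fr (Scheme.etaleTopology.over X)).obj T).obj.map (ar g U).op
    (((fr (Scheme.etaleTopology.over X)).map g).hom.app _ s)) (aT_app T' U)).trans ?_
  rw [← frEquiv_post, ← frEquiv_pre, ← Functor.map_comp, ← Functor.map_comp]
  exact congrArg (fun a => frEquiv _ _ ((fr (Scheme.etaleTopology.over X)).map a))
    (Over.OverMorphism.ext (Category.id_comp _))

lemma aT_res {T' T : Over X} (g : T' ⟶ T) (n : ℕ) (x : H T (Linf l X) n) :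
    gpb l T'.hom (aT T') n (res g _ n x) = hpb l g.left n (gpb l T.hom (aT T) n x) := by
  have h := ext_nat (pbe T.hom) (pbe g.left) (pbe T'.hom) (eta g) (eta_nat g) n _ x
  have e : eta g (Linf l X) ≫ (pbe g.left).map (lpb l T.hom).hom ≫ (lpb l g.left).hom =
    (lpb l T'.hom).hom := eta_cst g _
  simp only [hpb, gpb, AddMonoidHom.comp_apply, post_apply]
  rw [show res g (Linf l X) n x = (Ext.mk₀ _).comp x (zero_add n) from rfl, cmp_pre, cmp_comp,
    cmp_apply (pbe T.hom), cmp_pre, aT_nat, ← e, ← Category.assoc (aT T'), cmp_apply, cmp_apply,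
    ← Ext.mk₀_comp_mk₀_assoc _ (eta g _)]
  erw [h]
  simp only [Ext.mapExactFunctor_mk₀, Ext.comp_assoc_of_second_deg_zero,
    Ext.comp_assoc_of_third_deg_zero, Ext.mk₀_comp_mk₀, Category.assoc]

end Hb

theorem zb : ZB_s := ⟨fun T => ⟨asIso (Hb.z1 T)⟩, fun l _ _ n =>
  ⟨fun U => AddEquiv.ofBijective _ (Hb.aT_bij l U n), fun _ _ g x => Hb.aT_res l g n x⟩⟩

end Pool.Agent.MP_855f4c_ag.T

end
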