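import Pool.Agent.MP_855f4c_ag.TC.Te
import Pool.Agent.MP_855f4c_ag.EC.F2d
import Pool.Agent.MP_855f4c_ag.EC.Sc
import Pool.Agent.MP_855f4c_ag.TC.Tb
import Pool.Agent.MP_855f4c_ag.EC.F2f

section

/-! The calculus of pull-backs of classes. -/

set_option autoImplicit false
set_option backward.isDefEq.respectTransparency false

open CategoryTheory Limits Abelian Opposite AlgebraicGeometry Function

namespace Pool.Agent.MP_855f4c_ag.T

open E E3 E4

namespace Pbc

section abs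
variable {C D D' : Type 2} [Category.{1} C] [Abelian C] [Category.{1} D] [Abelian D]
  [Category.{1} D'] [Abelian D'] [HasExt.{1} C] [HasExt.{1} D] [HasExt.{1} D'] [EnoughInjectives C]

lemma ext_ind (A : C) (p : ∀ (B : C) (n : ℕ), Ext A B n → Prop)
    (h0 : ∀ B (f : A ⟶ B), p B 0 (Ext.mk₀ f))
    (h1 : ∀ (S : ShortComplex C) (hS : S.ShortExact) (n : ℕ) (y : Ext A S.X₃ n), p S.X₃ n y →
      p S.X₁ (n + 1) (y.comp hS.extClass rfl)) (n : ℕ) (B : C) (x : Ext A B n) : p B n x := by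
  induction n generalizing B with
  | zero =>
    obtain ⟨x, rfl⟩ := (Ext.mk₀_bijective _ _).2 x
    exact h0 _ _
  | succ n ih =>
    let P : InjectivePresentation B := Classical.arbitrary _
    let S := ShortComplex.mk _ _ (cokernel.condition P.f)
    have hS : S.ShortExact := { exact := ShortComplex.exact_cokernel P.f }
    have := P.injective
    obtain ⟨y, rfl⟩ := Ext.covariant_sequence_exact₁ _ hS x (Ext.eq_zero_of_injective _) rfl
    exact h1 S hS n y (ih _ _)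

variable (F : C ⥤ D) (G : D ⥤ D') (K : C ⥤ D') (E : C ⥤ C) [F.Additive] [G.Additive] [K.Additive]
  [E.Additive] [PreservesFiniteLimits F] [PreservesFiniteColimits F] [PreservesFiniteLimits G]
  [PreservesFiniteColimits G] [PreservesFiniteLimits K] [PreservesFiniteColimits K]
  [PreservesFiniteLimits E] [PreservesFiniteColimits E]

lemma nat_comp (η : ∀ A : C, G.obj (F.obj A) ⟶ K.obj A)
    (hη : ∀ {A B : C} (f : A ⟶ B), G.map (F.map f) ≫ η B = η A ≫ K.map f) {A B : C} {n : ℕ}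
    (x : Ext A B n) : post _ (η B) n ((x.mapExactFunctor F).mapExactFunctor G) =
      pre (η A) _ n (x.mapExactFunctor K) := by
  refine ext_ind A (fun B n x => post _ (η B) n ((x.mapExactFunctor F).mapExactFunctor G) =
      pre (η A) _ n (x.mapExactFunctor K)) (fun B f => ?_) (fun S hS n y ih => ?_) n B x
  · simp only [post_apply, pre_apply, Ext.mapExactFunctor_mk₀, Ext.mk₀_comp_mk₀, hη]
  · change post _ _ _ (((dl A hS n y).mapExactFunctor F).mapExactFunctor G) =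
      pre _ _ _ ((dl A hS n y).mapExactFunctor K)
    rw [map_dl, map_dl, map_dl]
    refine Eq.trans ?_ (pre_dl _ (hS.map_of_exact K) _).symm
    exact (post_dl ((hS.map_of_exact F).map_of_exact G) (hS.map_of_exact K)
      ⟨η _, η _, η _, (hη _).symm, (hη _).symm⟩ _).trans (congrArg _ ih)

lemma nat_id (η : ∀ A : C, E.obj A ⟶ A) (hη : ∀ {A B : C} (f : A ⟶ B), E.map f ≫ η B = η A ≫ f)
    {A B : C} {n : ℕ} (x : Ext A B n) :
    post _ (η B) n (x.mapExactFunctor E) = pre (η A) _ n x := by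
  refine ext_ind A (fun B n x => post _ (η B) n (x.mapExactFunctor E) = pre (η A) _ n x)
    (fun B f => ?_) (fun S hS n y ih => ?_) n B x
  · simp only [post_apply, pre_apply, Ext.mapExactFunctor_mk₀, Ext.mk₀_comp_mk₀, hη]
  · change post _ _ _ ((dl A hS n y).mapExactFunctor E) = pre _ _ _ (dl A hS n y)
    rw [map_dl, pre_dl, ← ih]
    exact post_dl (hS.map_of_exact E) hS ⟨η _, η _, η _, (hη _).symm, (hη _).symm⟩ _

omit [EnoughInjectives C] in
lemma pre_comp {A' A B B' : C} (a : A' ⟶ A) {i j n : ℕ} (x : Ext A B i) (y : Ext B B' j)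
    (h : i + j = n) : pre a _ n (x.comp y h) = (pre a _ i x).comp y h :=
  (Ext.comp_assoc _ _ _ (zero_add i) h (by omega)).symm

omit [EnoughInjectives C] in
lemma post_comp {A B B' B'' : C} (a : B' ⟶ B'') {i j n : ℕ} (x : Ext A B i) (y : Ext B B' j)
    (h : i + j = n) : post _ a n (x.comp y h) = x.comp (post _ a j y) h :=
  Ext.comp_assoc _ _ _ h (add_zero j) (by omega)

omit [EnoughInjectives C] in
lemma comp_pre {A B B' B'' : C} (a : B ⟶ B') {i j n : ℕ} (x : Ext A B i) (y : Ext B' B'' j)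
    (h : i + j = n) : x.comp (pre a _ j y) h = (post _ a i x).comp y h :=
  (Ext.comp_assoc _ _ _ (add_zero i) (zero_add j) h).symm

omit [HasExt.{1} C] [EnoughInjectives C] in
lemma iso₃ {S S' : ShortComplex C} (φ : S ⟶ S') (h : S.ShortExact) (h' : S'.ShortExact)
    [IsIso φ.τ₁] [IsIso φ.τ₂] : IsIso φ.τ₃ := by
  have := h.epi_g
  have := h'.epi_g
  obtain ⟨b, hb⟩ := h'.exact.desc' (inv φ.τ₂ ≫ S.g) (by
    rw [← cancel_epi φ.τ₁, φ.comm₁₂_assoc, IsIso.hom_inv_id_assoc, S.zero, comp_zero])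
  refine ⟨b, ?_, ?_⟩
  · rw [← cancel_epi S.g, ← φ.comm₂₃_assoc, hb, IsIso.hom_inv_id_assoc, Category.comp_id]
  · rw [← cancel_epi S'.g, reassoc_of% hb, ← φ.comm₂₃, IsIso.inv_hom_id_assoc, Category.comp_id]

end abs

variable {T T' T'' : Scheme.{0}}

/-- Pull-back along a composite. -/
noncomputable def pc (g' : T'' ⟶ T') (g : T' ⟶ T) (A : Sh (Scheme.etaleTopology.over T)) :
    (pbe g').obj ((pbe g).obj A) ≅ (pbe (g' ≫ g)).obj A :=
  (Scheme.etaleTopology.overMapPullbackComp Ab.{1} g' g).app A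

/-- Pull-back along the identity. -/
noncomputable def pi (A : Sh (Scheme.etaleTopology.over T)) : (pbe (𝟙 T)).obj A ≅ A :=
  (Scheme.etaleTopology.overMapPullbackId Ab.{1} T).app A

lemma pc_nat (g' : T'' ⟶ T') (g : T' ⟶ T) {A B : Sh (Scheme.etaleTopology.over T)} (f : A ⟶ B) :
    (pbe g').map ((pbe g).map f) ≫ (pc g' g B).hom = (pc g' g A).hom ≫ (pbe (g' ≫ g)).map f :=
  (Scheme.etaleTopology.overMapPullbackComp Ab.{1} g' g).hom.naturality f

lemma pi_nat {A B : Sh (Scheme.etaleTopology.over T)} (f : A ⟶ B) :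
    (pbe (𝟙 T)).map f ≫ (pi B).hom = (pi A).hom ≫ f :=
  (Scheme.etaleTopology.overMapPullbackId Ab.{1} T).hom.naturality f

lemma cstPb_inv (g : T' ⟶ T) (M : Ab.{1}) (U : Over T') (m : M) :
    ((M2.cstPb g).inv.app M).hom.app (op U) (cstι M U m) = cstι M ((Over.map g).obj U) m :=
  (congrArg _ (Ze.cstPb_app g M U m).symm).trans
    congr(($((M2.cstPb g).hom_inv_id_app M)).hom.app (op U) _)

lemma cst_pc (g' : T'' ⟶ T') (g : T' ⟶ T) (M : Ab.{1}) :
    (M2.cstPb g').inv.app M ≫ (pbe g').map ((M2.cstPb g).inv.app M) ≫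
      (pc g' g ((cst T).obj M)).hom = (M2.cstPb (g' ≫ g)).inv.app M := by
  refine Ze.cst_ext fun U m => ?_
  refine Eq.trans ?_ (cstPb_inv (g' ≫ g) M U m).symm
  refine Eq.trans ?_ (cstι_res M ((Over.mapComp g' g).hom.app U) m)
  refine congrArg (((cst T).obj M).obj.map ((Over.mapComp g' g).hom.app U).op) ?_
  exact (congrArg _ (cstPb_inv g' M U m)).trans (cstPb_inv g M _ m)

lemma cst_pi (M : Ab.{1}) : (M2.cstPb (𝟙 T)).inv.app M ≫ (pi ((cst T).obj M)).hom = 𝟙 _ := by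
  refine Ze.cst_ext fun U m => ?_
  refine Eq.trans ?_ (cstι_res M ((Over.mapId T).inv.app U) m)
  exact congrArg (((cst T).obj M).obj.map ((Over.mapId T).inv.app U).op) (cstPb_inv (𝟙 T) M U m)

variable {l : ℕ} [Fact l.Prime]

lemma lpb_pc (g' : T'' ⟶ T') (g : T' ⟶ T) : (lpb l g').inv ≫ (pbe g').map (lpb l g).inv ≫
    (pc g' g (Linf l T)).hom = (lpb l (g' ≫ g)).inv := cst_pc g' g _

lemma zpb_pc (g' : T'' ⟶ T') (g : T' ⟶ T) : (zpb g').inv ≫ (pbe g').map (zpb g).inv ≫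
    (pc g' g (Zs T)).hom = (zpb (g' ≫ g)).inv := cst_pc g' g _

lemma lpb_pi : (lpb l (𝟙 T)).inv ≫ (pi (Linf l T)).hom = 𝟙 _ := cst_pi _

lemma zpb_pi : (zpb (𝟙 T)).inv ≫ (pi (Zs T)).hom = 𝟙 _ := cst_pi _

lemma ta_pb (g : T' ⟶ T) (a : QZ l) :
    ta l T' a ≫ (lpb l g).inv = (zpb g).inv ≫ (pbe g).map (ta l T a) :=
  (M2.cstPb g).inv.naturality _

variable {A B : Sh (Scheme.etaleTopology.over T)} {A' B' : Sh (Scheme.etaleTopology.over T')} {A'' : Sh (Scheme.etaleTopology.over T'')}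

lemma gpb_apply (g : T' ⟶ T) (a : A' ⟶ (pbe g).obj A) {n : ℕ} (x : Ext A (Linf l T) n) :
    gpb l g a n x = post _ (lpb l g).hom n (pre a _ n (x.mapExactFunctor (pbe g))) := rfl

/-- Compatibility with maps in the first variable. -/
lemma gpb_pre (g : T' ⟶ T) {a : A' ⟶ (pbe g).obj A} {b : B' ⟶ (pbe g).obj B} {u : B ⟶ A}
    {u' : B' ⟶ A'} (h : u' ≫ a = b ≫ (pbe g).map u) {n : ℕ} (x : Ext A (Linf l T) n) :
    pre u' _ n (gpb l g a n x) = gpb l g b n (pre u _ n x) := by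
  rw [gpb_apply, gpb_apply, map_pre, pre_post, pre_pre, pre_pre, h]

/-- Multiplicativity. -/
lemma gpb_mul (g : T' ⟶ T) (a : A' ⟶ (pbe g).obj A) {i j n : ℕ} (x : Ext A (Linf l T) i)
    (z : EE l T j) (h : i + j = n) :
    gpb l g a n (x.comp z h) = (gpb l g a i x).comp (epb l g j z) h := by
  rw [epb, gpb_apply, gpb_apply, gpb_apply, Ext.mapExactFunctor_comp, pre_comp, post_comp,
    ← pre_post (lpb l g).inv, comp_pre, post_post, Iso.hom_inv_id, post_id]

lemma gpb_gpb (g' : T'' ⟶ T') (g : T' ⟶ T) (a' : A'' ⟶ (pbe g').obj A') (a : A' ⟶ (pbe g).obj A)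
    {n : ℕ} (x : Ext A (Linf l T) n) : gpb l g' a' n (gpb l g a n x) =
      gpb l (g' ≫ g) (a' ≫ (pbe g').map a ≫ (pc g' g A).hom) n x := by
  have h : (pbe g').map (lpb l g).hom ≫ (lpb l g').hom =
      (pc g' g (Linf l T)).hom ≫ (lpb l (g' ≫ g)).hom := by
    rw [← Iso.comp_inv_eq, ← lpb_pc, Category.assoc, Iso.hom_inv_id_assoc, ← Functor.map_comp_assoc,
      Iso.hom_inv_id, CategoryTheory.Functor.map_id, Category.id_comp]
  rw [gpb_apply, gpb_apply, gpb_apply, map_post, map_pre, pre_post, post_post, pre_pre, h,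
    ← post_post, ← pre_post, nat_comp (pbe g) (pbe g') (pbe (g' ≫ g)) (fun A => (pc g' g A).hom)
      (pc_nat g' g), pre_pre, Category.assoc]

lemma gpb_id {A₀ : Sh (Scheme.etaleTopology.over T)} (a : A₀ ⟶ (pbe (𝟙 T)).obj A) {n : ℕ} (x : Ext A (Linf l T) n) :
    gpb l (𝟙 T) a n x = pre (a ≫ (pi A).hom) _ n x := by
  have h : (lpb l (𝟙 T)).hom = (pi (Linf l T)).hom := by
    rw [← Category.comp_id (lpb l (𝟙 T)).hom, ← lpb_pi, Iso.hom_inv_id_assoc]
  rw [gpb_apply, ← pre_post, h, nat_id (pbe (𝟙 T)) (fun A => (pi A).hom) pi_nat, pre_pre]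

lemma epb_mul (g : T' ⟶ T) {i j n : ℕ} (x : EE l T i) (z : EE l T j) (h : i + j = n) :
    epb l g n (x.comp z h) = (epb l g i x).comp (epb l g j z) h := gpb_mul g _ x z h

lemma hpb_mul (g : T' ⟶ T) {i j n : ℕ} (x : HH l T i) (z : EE l T j) (h : i + j = n) :
    hpb l g n (x.comp z h) = (hpb l g i x).comp (epb l g j z) h := gpb_mul g _ x z h

lemma epb_comp (g' : T'' ⟶ T') (g : T' ⟶ T) {n : ℕ} (x : EE l T n) :
    epb l (g' ≫ g) n x = epb l g' n (epb l g n x) := by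
  rw [epb, epb, epb, gpb_gpb, lpb_pc]

lemma hpb_comp (g' : T'' ⟶ T') (g : T' ⟶ T) {n : ℕ} (x : HH l T n) :
    hpb l (g' ≫ g) n x = hpb l g' n (hpb l g n x) := by
  rw [hpb, hpb, hpb, gpb_gpb, zpb_pc]

lemma epb_id {n : ℕ} (x : EE l T n) : epb l (𝟙 T) n x = x := by
  rw [epb, gpb_id, lpb_pi, pre_id]

lemma hpb_id {n : ℕ} (x : HH l T n) : hpb l (𝟙 T) n x = x := by
  rw [hpb, gpb_id, zpb_pi, pre_id]

lemma epb_one (g : T' ⟶ T) : epb l g 0 (one l T) = one l T' := by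
  rw [epb, gpb_apply, Ext.mapExactFunctor_mk₀, pre_apply, post_apply, Ext.mk₀_comp_mk₀,
    Ext.mk₀_comp_mk₀, CategoryTheory.Functor.map_id, Category.comp_id, Iso.inv_hom_id]

lemma tau_pb (g : T' ⟶ T) {n : ℕ} (x : EE l T n) (a : QZ l) :
    hpb l g n (tau x a) = tau (epb l g n x) a := (gpb_pre g (ta_pb g a) x).symm

lemma tau_mul {i j n : ℕ} (x : EE l T i) (z : EE l T j) (h : i + j = n) (a : QZ l) :
    tau (x.comp z h) a = (tau x a).comp z h := pre_comp _ x z h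

lemma epb_bij (g : T' ⟶ T) [IsIso g] (n : ℕ) : Bijective (epb l g n) :=
  bijective_iff_has_inverse.2 ⟨epb l (inv g) n,
    fun x => by rw [← epb_comp, IsIso.inv_hom_id, epb_id],
    fun x => by rw [← epb_comp, IsIso.hom_inv_id, epb_id]⟩

lemma hpb_bij (g : T' ⟶ T) [IsIso g] (n : ℕ) : Bijective (hpb l g n) :=
  bijective_iff_has_inverse.2 ⟨hpb l (inv g) n,
    fun x => by rw [← hpb_comp, IsIso.inv_hom_id, hpb_id],
    fun x => by rw [← hpb_comp, IsIso.hom_inv_id, hpb_id]⟩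

/-! ### The quotients -/

variable {O : T.Opens} {O' : T'.Opens} {O'' : T''.Opens}

instance (O : T.Opens) : Epi (πU l O) := coequalizer.π_epi

lemma ez_π (O : T.Opens) : (ezι O).app (Linf l T) ≫ πU l O = 0 := cokernel.condition _

lemma πU_exact (O : T.Opens) : (ShortComplex.mk _ _ (ez_π (l := l) O)).ShortExact :=
  (Tel.isQ O).ex _

lemma Rp_uniq {g : T' ⟶ T} {a b : AU l O' ⟶ (pbe g).obj (AU l O)} (ha : Rp l g O' O a)
    (hb : Rp l g O' O b) : a = b := (cancel_epi (πU l O')).1 (ha.trans hb.symm)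

/-- The projection vanishes on schemes that map into `O`. -/
lemma pb_πU (g : T' ⟶ T) (h : ∀ t, g t ∈ O) : (pbe g).map (πU l O) = 0 := by
  have : IsIso ((pbe g).map ((ezι O).app (Linf l T))) := Ez.isIso_of_bij _ fun U =>
    ezι_bij O _ fun t => h (U.hom t)
  rw [← cancel_epi ((pbe g).map ((ezι O).app (Linf l T))), ← Functor.map_comp, ez_π,
    Functor.map_zero, comp_zero]

lemma exRp (g : T' ⟶ T) (h : O' ≤ g ⁻¹ᵁ O) : ∃ a, Rp l g O' O a :=
  (Tel.isQ O').desc _ (by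
    rw [Functor.map_comp, ← cancel_mono (pc O'.ι g _).hom, Category.assoc, pc_nat,
      pb_πU (O'.ι ≫ g) fun t => h t.2]
    simp)

lemma Rp_comp {g' : T'' ⟶ T'} {g : T' ⟶ T} {a' : AU l O'' ⟶ (pbe g').obj (AU l O')}
    {a : AU l O' ⟶ (pbe g).obj (AU l O)} (h' : Rp l g' O'' O' a') (h : Rp l g O' O a) :
    Rp l (g' ≫ g) O'' O (a' ≫ (pbe g').map a ≫ (pc g' g _).hom) := by
  rw [Rp] at h h' ⊢
  rw [reassoc_of% h', ← Functor.map_comp_assoc, h, Functor.map_comp_assoc, pc_nat, ← lpb_pc]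
  simp only [Category.assoc]

lemma Rp_id (O : T.Opens) : Rp l (𝟙 T) O O (pi _).inv := by
  rw [Rp, Iso.comp_inv_eq, Category.assoc, pi_nat, reassoc_of% lpb_pi]

lemma gpb_Rp {g' : T'' ⟶ T'} {g : T' ⟶ T} {g'' : T'' ⟶ T} (e : g' ≫ g = g'')
    {a' : AU l O'' ⟶ (pbe g').obj (AU l O')} {a : AU l O' ⟶ (pbe g).obj (AU l O)}
    {a'' : AU l O'' ⟶ (pbe g'').obj (AU l O)} (h' : Rp l g' O'' O' a') (h : Rp l g O' O a)
    (h'' : Rp l g'' O'' O a'') {n : ℕ} (x : Ext (AU l O) (Linf l T) n) :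
    gpb l g' a' n (gpb l g a n x) = gpb l g'' a'' n x := by
  subst e
  rw [gpb_gpb, Rp_uniq (Rp_comp h' h) h'']

lemma pre_gpb {g : T' ⟶ T} {a : AU l O' ⟶ (pbe g).obj (AU l O)} (h : Rp l g O' O a) {n : ℕ}
    (x : Ext (AU l O) (Linf l T) n) :
    pre (πU l O') _ n (gpb l g a n x) = epb l g n (pre (πU l O) _ n x) := gpb_pre g h x

lemma Rp_isIso {g : T' ⟶ T} {a : AU l (g ⁻¹ᵁ O) ⟶ (pbe g).obj (AU l O)}
    (h : Rp l g (g ⁻¹ᵁ O) O a) : IsIso a := by
  obtain ⟨e, he⟩ := ez_pb O g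
  have h1 := πU_exact (l := l) (g ⁻¹ᵁ O)
  have h2 := (πU_exact (l := l) O).map_of_exact (pbe g)
  let φ : ShortComplex.mk _ _ (ez_π (l := l) (g ⁻¹ᵁ O)) ⟶
      (ShortComplex.mk _ _ (ez_π (l := l) O)).map (pbe g) :=
    ⟨(ez (g ⁻¹ᵁ O)).map (lpb l g).inv ≫ e.inv.app _, (lpb l g).inv, a, by
      change (_ ≫ _) ≫ (pbe g).map _ = _
      rw [← he, Category.assoc, Iso.inv_hom_id_app_assoc]
      exact (ezι (g ⁻¹ᵁ O)).naturality _, h.symm⟩
  have : IsIso φ.τ₁ := by dsimp only [φ]; infer_instance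
  have : IsIso φ.τ₂ := by dsimp only [φ]; infer_instance
  exact iso₃ φ h1 h2

instance (O : T.Opens) : PreservesFiniteLimits (ez O) :=
  (Functor.preservesFiniteLimits_iff_forall_exact_map_and_mono _).2 fun _ hS =>
    ⟨(ez_shortExact O hS).exact, (ez_shortExact O hS).mono_f⟩

instance (O : T.Opens) : PreservesFiniteColimits (ez O) :=
  (Functor.preservesFiniteColimits_iff_forall_exact_map_and_epi _).2 fun _ hS =>
    ⟨(ez_shortExact O hS).exact, (ez_shortExact O hS).epi_g⟩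

/-- A product with a class supported off `O` is supported off `O`. -/
lemma supp_mul (O : T.Opens) {i j n : ℕ} (β : EE l T i) (w : Ext (AU l O) (Linf l T) j)
    (h : i + j = n) : ∃ y : Ext (AU l O) (Linf l T) n,
      pre (πU l O) _ n y = β.comp (pre (πU l O) _ j w) h := by
  refine ((con_les (πU_exact (l := l) O) (Linf l T)).e₂ n _).1 ?_
  change pre ((ezι O).app (Linf l T)) _ n _ = 0
  have h1 := nat_id (ez O) (fun A => (ezι O).app A) (fun f => (ezι O).naturality f) β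
  refine (pre_comp _ _ _ h).trans ((congrArg (Ext.comp · _ h) h1.symm).trans ?_)
  refine (comp_pre _ _ _ h).symm.trans ?_
  rw [pre_pre, ez_π]
  simp

end Pbc

end Pool.Agent.MP_855f4c_ag.T

end

section

/-! h12g section C: definitions and rows. -/

set_option autoImplicit false
set_option backward.isDefEq.respectTransparency false

open CategoryTheory Limits Abelian Opposite AlgebraicGeometry

namespace Pool.Agent.MP_855f4c_ag.T

open E E3 E4

variable {T T' : Scheme.{0}}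

/-- The quotient of `ℤ` by the part supported on `O`. -/
noncomputable def ZU (O : T.Opens) : Sh (Scheme.etaleTopology.over T) := cokernel ((ezι O).app (Zs T))

/-- The projection. -/
noncomputable def πZ (O : T.Opens) : Zs T ⟶ ZU O := cokernel.π ((ezι O).app (Zs T))

/-- `a` is the comparison map of the quotients. -/
def RpZ (g : T' ⟶ T) (O' : T'.Opens) (O : T.Opens) (a : ZU O' ⟶ (pbe g).obj (ZU O)) : Prop :=
  πZ O' ≫ a = (zpb g).inv ≫ (pbe g).map (πZ O)

/-- The section `1`. -/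
noncomputable def un (U : Over T) : sec (Zs T) U := cstι (.of (ULift.{1} ℤ)) U (ULift.up 1)

/-- A unit as a section of `Gm`. -/
noncomputable def gs {U : Over T} (x : Γ(U.left, ⊤)ˣ) : sec (Gm T) U := (GmTop U).symm (Additive.ofMul x)

lemma unit_bot (U : Over T) (h : ∀ u, U.hom u ∈ (⊥ : T.Opens)) (x : Γ(U.left, ⊤)) : IsUnit x := by
  have : IsEmpty U.left := ⟨fun u => h u⟩
  have : Subsingleton Γ(U.left, ⊤) := by
    rw [show (⊤ : U.left.Opens) = ⊥ from Subsingleton.elim _ _]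
    infer_instance
  exact isUnit_of_subsingleton x

/-- The zero section. -/
noncomputable def Coc.sec0 {𝒯 : Trv T} (γ : Coc 𝒯) : Sec γ ⊥ where
  s _ _ := 0
  res _ _ := (map_zero _).symm
  tr _ _ _ := (mul_zero _).symm
  unit U _ h := unit_bot U h _

/-- The class of a cocycle with a section in `Ext^1(ℤ / ℤ_O, Gm)`, with its universal property. -/
structure Lam where
  lam : ∀ {T : Scheme.{0}} {𝒯 : Trv T} {γ : Coc 𝒯} {O : T.Opens} (_ : Sec γ O),
    Ext.{1} (ZU O) (Gm T) 1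
  recog : ∀ {T : Scheme.{0}} {𝒯 : Trv T} {γ : Coc 𝒯} {O : T.Opens} (s : Sec γ O)
    (S : ShortComplex (Sh (Scheme.etaleTopology.over T))) (hS : S.ShortExact) (w : S.X₁ ⟶ Gm T) (κ : ZU O ⟶ S.X₃)
    (e : ∀ U : Over T, 𝒯.tr U → sec S.X₂ U),
    (∀ {U' U : Over T} (v : U' ⟶ U) (a : 𝒯.tr U), e U' (𝒯.res v a) = rsec v S.X₂ (e U a)) →
    (∀ U a, S.g.hom.app (op U) (e U a) = (πZ O ≫ κ).hom.app (op U) (un U)) →
    (∀ U a b x, S.f.hom.app (op U) x = e U b - e U a → w.hom.app (op U) x = gs (γ.g U a b)) →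
    (∀ U a (h : ∀ u, U.hom u ∈ O) x, S.f.hom.app (op U) x = e U a →
      w.hom.app (op U) x = gs (s.unit U a h).unit) →
    lam s = pre κ _ 1 (post _ w 1 hS.extClass)
  nat : ∀ {T' T : Scheme.{0}} (g : T' ⟶ T) {𝒯' : Trv T'} {𝒯 : Trv T}
    {γ' : Coc 𝒯'} {γ : Coc 𝒯} {O' : T'.Opens} {O : T.Opens} (s' : Sec γ' O') (s : Sec γ O)
    (m : CHom g γ' γ) (a : ZU O' ⟶ (pbe g).obj (ZU O)), O' ≤ g ⁻¹ᵁ O → RpZ g O' O a →
    (∀ U b, s'.s U b = s.s ((Over.map g).obj U) (m.m U b)) →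
    post _ (pbGm g).hom 1 (cmp (pbe g) a (Gm T) 1 (lam s)) = lam s'
  bot : ∀ {T : Scheme.{0}} {𝒯 : Trv T} {γ : Coc 𝒯} {O : T.Opens} (s : Sec γ O)
    (κ : ZU ⊥ ⟶ ZU O), πZ ⊥ ≫ κ = πZ O → pre κ _ 1 (lam s) = lam γ.sec0
  add : ∀ {T : Scheme.{0}} {𝒯 : Trv T} (γ γ₁ γ₂ : Coc 𝒯),
    (∀ U a b, γ.g U a b = γ₁.g U a b * γ₂.g U a b) → lam γ.sec0 = lam γ₁.sec0 + lam γ₂.sec0

def LAM_s : Prop := Nonempty Lam

variable (l : ℕ) [Fact l.Prime]

/-- The class of `0 → ℤ → ℤ[1/l] → ℚ_l / ℤ_l → 0` on the complement of `O`. -/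
structure Bet where
  b : ∀ {T : Scheme.{0}} (O : T.Opens), Ext.{1} (AU l O) (ZU O) 1
  nat : ∀ {T' T : Scheme.{0}} (g : T' ⟶ T) (O' : T'.Opens) (O : T.Opens)
    (a : AU l O' ⟶ (pbe g).obj (AU l O)) (a' : ZU O' ⟶ (pbe g).obj (ZU O)), O' ≤ g ⁻¹ᵁ O →
    Rp l g O' O a → RpZ g O' O a' → post _ a' 1 (b O') = cmp (pbe g) a (ZU O) 1 (b O)
  bot : ∀ {T : Scheme.{0}} (O : T.Opens) (κ : AU l ⊥ ⟶ AU l O) (κ' : ZU ⊥ ⟶ ZU O),
    πU l ⊥ ≫ κ = πU l O → πZ ⊥ ≫ κ' = πZ O → post _ κ' 1 (b ⊥) = pre κ _ 1 (b O)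
  div : ∀ {T : Scheme.{0}} (O : T.Opens) (G : Sh (Scheme.etaleTopology.over T)) (x : Ext.{1} (ZU O) G 1),
    (b O).comp x (rfl : 1 + 1 = 2) = 0 → ∃ y, x = l • y

def BET_s : Prop := ∀ (l : ℕ) [Fact l.Prime], Nonempty (Bet l)

/-- The comparison maps exist. -/
def RP_s : Prop := ∀ (l : ℕ) [Fact l.Prime] (T' T : Scheme.{0}) (g : T' ⟶ T) (O' : T'.Opens)
  (O : T.Opens), O' ≤ g ⁻¹ᵁ O → (∃ a, Rp l g O' O a) ∧ ∃ a, RpZ g O' O a

/-- `Ext` from `A_O` into uniquely divisible sheaves vanishes. -/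
def TELA_s : Prop := ∀ (l : ℕ) [Fact l.Prime] (T : Scheme.{0}) (O : T.Opens) (D : Sh (Scheme.etaleTopology.over T)),
  IsIso (l • 𝟙 D) → ∀ (n : ℕ) (x : Ext.{1} (AU l O) D n), x = 0

/-- The class of `O(1)` on the projective line is not divisible by `l`. -/
def NEL_s : Prop := ∀ (Λ : Lam) (l : ℕ) [Fact l.Prime] (Ω : Type) [Field Ω] [IsAlgClosed Ω],
  (l : Ω) ≠ 0 → ∀ (L : PL (Spec (.of Ω))) (h : IsLin (co1 L.q)) (y), Λ.lam h.coc.sec0 ≠ l • y

end Pool.Agent.MP_855f4c_ag.T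

end

section

/-! h12g section C, row LAM: the class of a cocycle with a section. -/

set_option autoImplicit false
set_option backward.isDefEq.respectTransparency false

open CategoryTheory Limits Abelian Opposite AlgebraicGeometry

namespace Pool.Agent.MP_855f4c_ag.T

open E E3 E4

namespace CL

variable {T : Scheme.{0}} (𝒯 : Trv T)

/-- Formal sums of trivialisations. -/
abbrev FA (U : Over T) : Type 1 := FreeAbelianGroup (ULift.{1} (𝒯.tr U))

variable {𝒯} in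
/-- A generator. -/
abbrev ge {U : Over T} (a : 𝒯.tr U) : FA 𝒯 U := FreeAbelianGroup.of ⟨a⟩

variable {𝒯} in
lemma fa_ext {U : Over T} {M : Type*} [AddCommGroup M] {f g : FA 𝒯 U →+ M}
    (h : ∀ a, f (ge a) = g (ge a)) : f = g := FreeAbelianGroup.lift_ext _ _ fun a => h a.down

variable {𝒯} in
/-- The additive map with given values. -/
def li {U : Over T} {M : Type*} [AddCommGroup M] (f : 𝒯.tr U → M) : FA 𝒯 U →+ M :=
  FreeAbelianGroup.lift fun a => f a.down

variable {𝒯} in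
@[simp] lemma li_ge {U : Over T} {M : Type*} [AddCommGroup M] (f : 𝒯.tr U → M) (a : 𝒯.tr U) :
    li f (ge a) = f a := FreeAbelianGroup.lift_apply_of _ _

variable {𝒯} in
/-- Restriction of formal sums. -/
def rs {U' U : Over T} (v : U' ⟶ U) : FA 𝒯 U →+ FA 𝒯 U' := li fun a => ge (𝒯.res v a)

variable {𝒯} in
@[simp] lemma rs_ge {U' U : Over T} (v : U' ⟶ U) (a : 𝒯.tr U) : rs v (ge a) = ge (𝒯.res v a) :=
  li_ge _ a

/-- The presheaf of formal sums. -/
def PP : PSh T where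
  obj U := AddCommGrpCat.of (FA 𝒯 U.unop)
  map v := AddCommGrpCat.ofHom (rs v.unop)
  map_id U := AddCommGrpCat.hom_ext (fa_ext fun a => (rs_ge _ a).trans (congrArg ge (𝒯.res_id _ a)))
  map_comp v w := AddCommGrpCat.hom_ext (fa_ext fun a => by
    change rs (w.unop ≫ v.unop) (ge a) = rs w.unop (rs v.unop (ge a))
    rw [rs_ge, rs_ge, rs_ge, 𝒯.res_comp])

variable {𝒯} in
/-- Maps out of it. -/
def liP {Q : PSh T} (e : ∀ U : Over T, 𝒯.tr U → Q.obj (op U))
    (he : ∀ {U' U : Over T} (v : U' ⟶ U) (a : 𝒯.tr U), e U' (𝒯.res v a) = Q.map v.op (e U a)) :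
    PP 𝒯 ⟶ Q where
  app U := AddCommGrpCat.ofHom (li (e U.unop))
  naturality U U' v := AddCommGrpCat.hom_ext (fa_ext fun a => by
    change li (e U'.unop) (rs v.unop (ge a)) = Q.map v.unop.op (li (e U.unop) (ge a))
    rw [rs_ge, li_ge, li_ge, he])

variable {𝒯} in
/-- The degree. -/
def dg {U : Over T} : FA 𝒯 U →+ ℤ := li fun _ => 1

lemma dg_res {U' U : Over T} (v : U' ⟶ U) (x : FA 𝒯 U) : dg (rs v x) = dg x :=
  DFunLike.congr_fun (fa_ext (f := dg.comp (rs v)) (g := dg) fun a => by simp [dg]) x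

variable (O : T.Opens)

/-- Sums of degree zero, all sums over `O`. -/
def NS (U : Over T) : AddSubgroup (FA 𝒯 U) where
  carrier := {x | dg x = 0 ∨ (ovU O).mem U}
  zero_mem' := .inl (map_zero _)
  add_mem' ha hb := ha.elim (fun h1 => hb.imp_left fun h2 => by rw [map_add, h1, h2, add_zero]) .inr
  neg_mem' ha := ha.imp_left fun h => by rw [map_neg, h, neg_zero]

/-- They form a presheaf. -/
def NP : PSh T where
  obj U := AddCommGrpCat.of (NS 𝒯 O U.unop)
  map v := AddCommGrpCat.ofHom (((rs v.unop).comp (AddSubgroup.subtype _)).codRestrict _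
    fun s => s.2.imp (fun h => (dg_res 𝒯 v.unop s.1).trans h) ((ovU O).down v.unop))
  map_id U := by ext s; exact res_id (PP 𝒯) s.1
  map_comp f g := by ext s; exact (res_res (PP 𝒯) g.unop f.unop s.1).symm

/-- The inclusion. -/
def ιP : NP 𝒯 O ⟶ PP 𝒯 where
  app U := AddCommGrpCat.ofHom (AddSubgroup.subtype _)

variable {𝒯} in
/-- A difference of generators. -/
def df {U : Over T} (a b : 𝒯.tr U) : NS 𝒯 O U := ⟨ge b - ge a, .inl (by simp [dg])⟩

variable {𝒯 O} in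
lemma ns_ext {U : Over T} {M : Type*} [AddCommGroup M] {f g : NS 𝒯 O U →+ M}
    (h1 : ∀ a b, f (df O a b) = g (df O a b))
    (h2 : ∀ a (h : (ovU O).mem U), f ⟨ge a, .inr h⟩ = g ⟨ge a, .inr h⟩) : f = g := by
  refine AddMonoidHom.ext fun x => ?_
  rcases x.2 with h | h
  · rcases isEmpty_or_nonempty (𝒯.tr U) with he | ⟨⟨a⟩⟩
    · have : x = 0 := Subtype.ext (DFunLike.congr_fun
        (fa_ext (f := AddMonoidHom.id _) (g := 0) fun a => he.elim a) x.1)
      rw [this, map_zero, map_zero]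
    · let r : FA 𝒯 U →+ NS 𝒯 O U := li fun b => df O a b
      have hr : (AddSubgroup.subtype _).comp r = AddMonoidHom.id _ - (zmultiplesHom _ (ge a)).comp dg :=
        fa_ext fun b => by simp [r, df, dg]
      have hx : r x.1 = x := Subtype.ext ((DFunLike.congr_fun hr x.1).trans (by simp [h]))
      rw [← hx]
      exact DFunLike.congr_fun (fa_ext (f := f.comp r) (g := g.comp r) fun b => by
        simpa [r] using h1 a b) x.1
  · let r : FA 𝒯 U →+ NS 𝒯 O U := (AddMonoidHom.id _).codRestrict _ fun _ => .inr h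
    exact DFunLike.congr_fun (fa_ext (f := f.comp r) (g := g.comp r) fun b => h2 b h) x.1

/-- The degree as a section of `ℤ`. -/
noncomputable def au : PP 𝒯 ⟶ (Zs T).obj := liP (fun U _ => un U) fun v _ => (cstι_res _ v _).symm

/-- Constant sections. -/
noncomputable def cz (U : Over T) : ℤ →+ sec (Zs T) U :=
  AddMonoidHom.mk' (fun n => cstι (.of (ULift.{1} ℤ)) U (ULift.up n))
    fun a b => map_add (cstι (.of (ULift.{1} ℤ)) U).hom (ULift.up a) (ULift.up b)

lemma au_app (U : Over T) (x : FA 𝒯 U) : (au 𝒯).app (op U) x = cz U (dg x) :=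
  DFunLike.congr_fun (fa_ext (f := li fun _ => un U) (g := (cz U).comp dg)
    fun a => (li_ge _ a).trans (congrArg (cz U) (li_ge (fun _ => (1 : ℤ)) a).symm)) x

/-- Sheafification. -/
noncomputable abbrev sh : PSh T ⥤ Sh (Scheme.etaleTopology.over T) := presheafToSheaf (Scheme.etaleTopology.over T) Ab.{1}

/-- Maps out of a sheafification. -/
noncomputable def ls {P : PSh T} {F : Sh (Scheme.etaleTopology.over T)} (φ : P ⟶ F.obj) : sh.obj P ⟶ F :=
  ⟨sheafifyLift (Scheme.etaleTopology.over T) φ F.property⟩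

lemma ls_app {P : PSh T} {F : Sh (Scheme.etaleTopology.over T)} (φ : P ⟶ F.obj) (U : Over T) (x : P.obj (op U)) :
    (ls φ).hom.app (op U) ((toSheafify (Scheme.etaleTopology.over T) P).app (op U) x) = φ.app (op U) x :=
  congr($(toSheafify_sheafifyLift (Scheme.etaleTopology.over T) φ F.property).app (op U) x)

lemma sh_app {P Q : PSh T} (φ : P ⟶ Q) (U : Over T) (x : P.obj (op U)) :
    (sh.map φ).hom.app (op U) ((toSheafify (Scheme.etaleTopology.over T) P).app (op U) x) =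
      (toSheafify (Scheme.etaleTopology.over T) Q).app (op U) (φ.app (op U) x) :=
  congr($(toSheafify_naturality (Scheme.etaleTopology.over T) φ).app (op U) x).symm

lemma sh_ext {P : PSh T} {F : Sh (Scheme.etaleTopology.over T)} {a b : sh.obj P ⟶ F}
    (h : ∀ U x, a.hom.app (op U) ((toSheafify (Scheme.etaleTopology.over T) P).app (op U) x) =
      b.hom.app (op U) ((toSheafify (Scheme.etaleTopology.over T) P).app (op U) x)) : a = b :=
  ObjectProperty.hom_ext _ (sheafify_hom_ext (Scheme.etaleTopology.over T) _ _ F.property (NatTrans.ext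
    (funext fun U => AddCommGrpCat.hom_ext (AddMonoidHom.ext fun m => h U.unop m))))

lemma π_zero (U : Over T) (z : sec (Zs T) U) :
    (πZ O).hom.app (op U) z = 0 ↔ z ∈ ezSub (Scheme.etaleTopology.over T) (ovU O) (Zs T).obj U :=
  ⟨fun h => by
    obtain ⟨y, rfl⟩ := (Ez.sec_exact (ShortComplex.exact_cokernel ((ezι O).app (Zs T))) U).2 z h
    exact y.2,
  fun h => congr(($(cokernel.condition ((ezι O).app (Zs T)))).hom.app (op U) ⟨z, h⟩)⟩

/-- The extension of `ℤ / ℤ_O`. -/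
noncomputable def sc : ShortComplex (Sh (Scheme.etaleTopology.over T)) :=
  ShortComplex.mk (sh.map (ιP 𝒯 O)) (ls (au 𝒯) ≫ πZ O) (sh_ext fun U x => by
    refine Eq.trans (congrArg (fun y => (πZ O).hom.app (op U) ((ls (au 𝒯)).hom.app (op U) y))
      (sh_app (ιP 𝒯 O) U x)) ?_
    rw [ls_app]
    refine (π_zero O U _).2 (Ez.mem_of _ _ _ (x.2.imp_left fun h => ?_))
    refine (au_app 𝒯 U x.1).trans ?_
    rw [h]
    exact map_zero _)

lemma au_epi : Epi (ls (au 𝒯)) := by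
  refine (Preadditive.epi_iff_cancel_zero _).2 fun F φ h => Ze.cst_ext fun U m => ?_
  refine sepP F.property _ ⟨fun Y _ => Nonempty (𝒯.tr Y), fun h g => h.map (𝒯.res g)⟩
    (mem_Jov_of _ fun u => ?_) fun Y y ⟨a⟩ => ?_
  · obtain ⟨W, w, h1, h2, h3⟩ := 𝒯.loc U u
    exact ⟨W, w, inferInstance, h3, h2⟩
  · have h1 := congr(($h).hom.app (op Y) ((toSheafify (Scheme.etaleTopology.over T) (PP 𝒯)).app (op Y) (m.down • ge a)))
    refine (nat φ.hom y _).symm.trans (Eq.trans (congrArg _ ?_) h1)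
    refine (cstι_res _ y m).trans (Eq.symm ((ls_app _ _ _).trans ((au_app 𝒯 Y _).trans ?_)))
    exact congrArg (cz Y) (by simp [dg] : dg (m.down • ge a) = m.down)

theorem sc_exact : (sc 𝒯 O).ShortExact := by
  have h0 (U) : Mono ((ιP 𝒯 O).app U) := (AddCommGrpCat.mono_iff_injective _).2 Subtype.val_injective
  have h1 : Mono (ιP 𝒯 O) := NatTrans.mono_of_mono_app _
  have h2 : Mono (sc 𝒯 O).f := inferInstanceAs (Mono (sh.map (ιP 𝒯 O)))
  have := au_epi 𝒯
  have : Epi (πZ O) := inferInstanceAs (Epi (cokernel.π _))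
  have h3 : Epi (sc 𝒯 O).g := inferInstanceAs (Epi (ls (au 𝒯) ≫ πZ O))
  refine ⟨(ShortComplex.exact_iff_epi_kernel_lift _).2
    ((Sheaf.isLocallySurjective_iff_epi' Ab.{1} _).1 ⟨fun {U} x => ?_⟩)⟩
  let k := kernel.ι (sc 𝒯 O).g
  have hk (Y : Over T) : Function.Injective (k.hom.app (op Y)) :=
    (Ez.sec_exact (ShortComplex.exact_kernel (sc 𝒯 O).g) Y).1
  refine (Scheme.etaleTopology.over T).transitive (Presheaf.imageSieve_mem (Scheme.etaleTopology.over T) (toSheafify (Scheme.etaleTopology.over T) (PP 𝒯))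
    (k.hom.app (op U) x)) _ ?_
  rintro Y y ⟨p, hp⟩
  have key : ∀ (Z : Over T) (z : Z ⟶ Y), (PP 𝒯).map z.op p ∈ NS 𝒯 O Z →
      (Presheaf.imageSieve (kernel.lift (sc 𝒯 O).g (sc 𝒯 O).f (sc 𝒯 O).zero).hom x).pullback y z := by
    intro Z z hz
    refine ⟨(toSheafify (Scheme.etaleTopology.over T) (NP 𝒯 O)).app (op Z) ⟨_, hz⟩, hk Z ?_⟩
    refine (congr(($(kernel.lift_ι (sc 𝒯 O).g (sc 𝒯 O).f (sc 𝒯 O).zero)).hom.app (op Z) _)).trans ?_
    refine (sh_app (ιP 𝒯 O) Z _).trans ((nat (toSheafify (Scheme.etaleTopology.over T) (PP 𝒯)) z p).trans ?_)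
    rw [hp, res_res]
    exact (nat k.hom (z ≫ y) x).symm
  have hz : (au 𝒯).app (op Y) p ∈ ezSub (Scheme.etaleTopology.over T) (ovU O) (Zs T).obj Y := by
    refine (π_zero O Y _).1 ((congrArg ((πZ O).hom.app (op Y)) ((ls_app (au 𝒯) Y p).symm.trans
      (congrArg ((ls (au 𝒯)).hom.app (op Y)) (hp.trans (nat k.hom y x).symm)))).trans ?_)
    exact congr(($(kernel.condition (sc 𝒯 O).g)).hom.app (op Y) _)
  refine (Scheme.etaleTopology.over T).transitive hz _ fun Z z hz => hz.elim (fun hz => ?_) fun hz => ?_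
  · have h4 : cstι (.of (ULift.{1} ℤ)) Z (ULift.up (dg p)) = cstι (.of (ULift.{1} ℤ)) Z 0 := by
      rw [au_app] at hz
      exact (cstι_res _ z _).symm.trans (hz.trans (map_zero _).symm)
    refine (Scheme.etaleTopology.over T).superset_covering (fun W w hw => key W (w ≫ z) (.inl ?_))
      (Presheaf.equalizerSieve_mem (Scheme.etaleTopology.over T) (toSheafify (Scheme.etaleTopology.over T) _) _ _ h4)
    exact (dg_res 𝒯 _ p).trans (congrArg ULift.down hw)
  · exact (Scheme.etaleTopology.over T).superset_covering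
      (fun W w _ => key W (w ≫ z) (.inr ((ovU O).down w hz))) ((Scheme.etaleTopology.over T).top_mem Z)

variable {𝒯 O} {γ : Coc 𝒯} (s : Sec γ O)

lemma gs_mul {U : Over T} (x y : Γ(U.left, ⊤)ˣ) : gs (x * y) = gs x + gs y :=
  map_add (GmTop U).symm (Additive.ofMul x) (Additive.ofMul y)

lemma gs_res {U' U : Over T} (v : U' ⟶ U) (x : Γ(U.left, ⊤)ˣ) (y : Γ(U'.left, ⊤)ˣ)
    (h : (y : Γ(U'.left, ⊤)) = gam v.left x) : (Gm T).obj.map v.op (gs x) = gs y := Gm_ext h.symm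

lemma gs_coc (γ : Coc 𝒯) {U : Over T} (a b c : 𝒯.tr U) :
    gs (γ.g U c b) - gs (γ.g U c a) = gs (γ.g U a b) := by
  rw [← γ.mul U c a b, gs_mul, add_sub_cancel_left]

lemma ex_nu (U : Over T) : ∃ n : FA 𝒯 U →+ sec (Gm T) U,
    (∀ a b, n (ge b - ge a) = gs (γ.g U a b)) ∧
      ∀ a (h : (ovU O).mem U), n (ge a) = gs (s.unit U a h).unit := by
  by_cases h : (ovU O).mem U
  · refine ⟨li fun a => gs (s.unit U a h).unit, fun a b => ?_, fun a _ => li_ge _ a⟩
    rw [map_sub, li_ge, li_ge, sub_eq_iff_eq_add, ← gs_mul]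
    exact congrArg gs (Units.ext (s.tr U a b))
  · rcases isEmpty_or_nonempty (𝒯.tr U) with he | ⟨⟨c⟩⟩
    · exact ⟨0, fun a => he.elim a, fun a => he.elim a⟩
    · exact ⟨li fun a => gs (γ.g U c a), fun a b => by rw [map_sub, li_ge, li_ge, gs_coc],
        fun _ h' => (h h').elim⟩

/-- The map given by the cocycle and the section. -/
noncomputable def nu : NP 𝒯 O ⟶ (Gm T).obj where
  app U := AddCommGrpCat.ofHom ((ex_nu s U.unop).choose.comp (AddSubgroup.subtype _))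
  naturality U U' v := AddCommGrpCat.hom_ext (ns_ext (fun a b => by
      have h1 : ((NP 𝒯 O).map v (df O a b)).1 = ge (𝒯.res v.unop b) - ge (𝒯.res v.unop a) :=
        (map_sub (rs v.unop) _ _).trans (congrArg₂ (· - ·) (rs_ge _ b) (rs_ge _ a))
      refine (congrArg (ex_nu s U'.unop).choose h1).trans (((ex_nu s _).choose_spec.1 _ _).trans ?_)
      exact (gs_res v.unop _ _ (γ.res v.unop a b)).symm.trans
        (congrArg ((Gm T).obj.map v) ((ex_nu s _).choose_spec.1 a b).symm))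
    fun a h => by
      refine (congrArg (ex_nu s U'.unop).choose (rs_ge v.unop a)).trans
        (((ex_nu s _).choose_spec.2 _ ((ovU O).down v.unop h)).trans ?_)
      exact (gs_res v.unop _ _ (s.res v.unop a)).symm.trans
        (congrArg ((Gm T).obj.map v) ((ex_nu s _).choose_spec.2 a h).symm))

lemma nu_df (U : Over T) (a b : 𝒯.tr U) : (nu s).app (op U) (df O a b) = gs (γ.g U a b) :=
  (ex_nu s U).choose_spec.1 a b

lemma nu_ge (U : Over T) (a : 𝒯.tr U) (h : (ovU O).mem U) :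
    (nu s).app (op U) (⟨ge a, .inr h⟩ : NS 𝒯 O U) = gs (s.unit U a h).unit :=
  (ex_nu s U).choose_spec.2 a h

/-- The class. -/
noncomputable def lam : Ext.{1} (ZU O) (Gm T) 1 := post _ (ls (nu s)) 1 (sc_exact 𝒯 O).extClass

theorem recog (S : ShortComplex (Sh (Scheme.etaleTopology.over T))) (hS : S.ShortExact) (w : S.X₁ ⟶ Gm T)
    (κ : ZU O ⟶ S.X₃) (e : ∀ U : Over T, 𝒯.tr U → sec S.X₂ U)
    (he : ∀ {U' U : Over T} (v : U' ⟶ U) (a : 𝒯.tr U), e U' (𝒯.res v a) = rsec v S.X₂ (e U a))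
    (h1 : ∀ U a, S.g.hom.app (op U) (e U a) = (πZ O ≫ κ).hom.app (op U) (un U))
    (h2 : ∀ U a b x, S.f.hom.app (op U) x = e U b - e U a → w.hom.app (op U) x = gs (γ.g U a b))
    (h3 : ∀ U a (h : ∀ u, U.hom u ∈ O) x, S.f.hom.app (op U) x = e U a →
      w.hom.app (op U) x = gs (s.unit U a h).unit) :
    lam s = pre κ _ 1 (post _ w 1 hS.extClass) := by
  have := hS.mono_f
  let p : (sc 𝒯 O).X₂ ⟶ S.X₂ := ls (liP e he)
  have hp (U : Over T) (x : FA 𝒯 U) :
      p.hom.app (op U) ((toSheafify (Scheme.etaleTopology.over T) (PP 𝒯)).app (op U) x) = li (e U) x :=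
    ls_app (liP e he) U x
  have c3 : p ≫ S.g = (sc 𝒯 O).g ≫ κ := sh_ext fun U x => by
    refine (congrArg (S.g.hom.app (op U)) (hp U x)).trans (Eq.trans ?_
      (congrArg ((πZ O ≫ κ).hom.app (op U)) (ls_app (au 𝒯) U x).symm))
    exact DFunLike.congr_fun (fa_ext (f := (S.g.hom.app (op U)).hom.comp (li (e U)))
      (g := ((πZ O ≫ κ).hom.app (op U)).hom.comp ((au 𝒯).app (op U)).hom) fun a =>
        (congrArg (S.g.hom.app (op U)) (li_ge _ a)).trans ((h1 U a).trans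
          (congrArg ((πZ O ≫ κ).hom.app (op U)) (li_ge (fun _ => un U) a).symm))) x
  obtain ⟨n, hn⟩ := hS.exact.lift' ((sc 𝒯 O).f ≫ p) (by
    rw [Category.assoc, c3, ← Category.assoc, (sc 𝒯 O).zero, zero_comp])
  have hn' (U : Over T) (x : NS 𝒯 O U) : S.f.hom.app (op U) (n.hom.app (op U)
      ((toSheafify (Scheme.etaleTopology.over T) (NP 𝒯 O)).app (op U) x)) = li (e U) x.1 :=
    congr(($hn).hom.app (op U) ((toSheafify (Scheme.etaleTopology.over T) (NP 𝒯 O)).app (op U) x)).trans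
      ((congrArg (p.hom.app (op U)) (sh_app (ιP 𝒯 O) U x)).trans (hp U x.1))
  have c1 : ls (nu s) = n ≫ w := sh_ext fun U x => (ls_app _ U x).trans <|
    DFunLike.congr_fun (ns_ext (f := ((nu s).app (op U)).hom)
      (g := ((n ≫ w).hom.app (op U)).hom.comp ((toSheafify (Scheme.etaleTopology.over T) (NP 𝒯 O)).app (op U)).hom)
      (fun a b => (nu_df s U a b).trans (h2 U a b _ ((hn' U _).trans ((map_sub (li (e U)) _ _).trans
        (congrArg₂ (· - ·) (li_ge _ b) (li_ge _ a))))).symm)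
      fun a h => (nu_ge s U a h).trans (h3 U a h _ ((hn' U _).trans (li_ge _ a))).symm) x
  have h := ShortComplex.ShortExact.extClass_naturality (sc_exact 𝒯 O) hS
    (ShortComplex.homMk n p κ hn c3)
  rw [lam, c1, ← post_post, pre_post]
  exact congrArg (post _ w 1) h

/-- The generators as sections. -/
noncomputable def gS (U : Over T) (a : 𝒯.tr U) : sec (sc 𝒯 O).X₂ U :=
  (toSheafify (Scheme.etaleTopology.over T) (PP 𝒯)).app (op U) (ge a)

lemma gS_res {U' U : Over T} (v : U' ⟶ U) (a : 𝒯.tr U) :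
    gS (O := O) U' (𝒯.res v a) = rsec v (sc 𝒯 O).X₂ (gS U a) :=
  (congrArg ((toSheafify (Scheme.etaleTopology.over T) (PP 𝒯)).app (op U')) (rs_ge v a).symm).trans
    (nat (toSheafify (Scheme.etaleTopology.over T) (PP 𝒯)) v (ge a))

lemma gS_g (U : Over T) (a : 𝒯.tr U) :
    (sc 𝒯 O).g.hom.app (op U) (gS U a) = (πZ O).hom.app (op U) (un U) :=
  congrArg ((πZ O).hom.app (op U)) ((ls_app (au 𝒯) U _).trans (li_ge (fun _ => un U) a))

lemma nu_of (U : Over T) (y : NS 𝒯 O U) (x : sec (sc 𝒯 O).X₁ U)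
    (h : (sc 𝒯 O).f.hom.app (op U) x = (toSheafify (Scheme.etaleTopology.over T) (PP 𝒯)).app (op U) y.1) :
    (ls (nu s)).hom.app (op U) x = (nu s).app (op U) y := by
  have := (sc_exact 𝒯 O).mono_f
  exact (congrArg _ ((Ez.sec_exact (sc_exact 𝒯 O).exact U).1
    (h.trans (sh_app (ιP 𝒯 O) U y).symm))).trans (ls_app (nu s) U y)

lemma nu_sub (U : Over T) (a b : 𝒯.tr U) (x : sec (sc 𝒯 O).X₁ U)
    (h : (sc 𝒯 O).f.hom.app (op U) x = gS U b - gS U a) :
    (ls (nu s)).hom.app (op U) x = gs (γ.g U a b) :=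
  (nu_of s U (df O a b) x (h.trans (map_sub _ _ _).symm)).trans (nu_df s U a b)

theorem lam_bot (κ : ZU ⊥ ⟶ ZU O) (h : πZ ⊥ ≫ κ = πZ O) : pre κ _ 1 (lam s) = lam γ.sec0 :=
  (recog γ.sec0 _ (sc_exact 𝒯 O) (ls (nu s)) κ gS gS_res (fun U a => h ▸ gS_g U a) (nu_sub s)
    fun U _ h _ _ => Gm_ext (by
      have : IsEmpty U.left := ⟨fun u => h u⟩
      have : Subsingleton Γ(U.left, ⊤) := by
        rw [show (⊤ : U.left.Opens) = ⊥ from Subsingleton.elim _ _]
        infer_instance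
      exact Subsingleton.elim _ _)).symm

theorem lam_add (γ γ₁ γ₂ : Coc 𝒯) (h : ∀ U a b, γ.g U a b = γ₁.g U a b * γ₂.g U a b) :
    lam γ.sec0 = lam γ₁.sec0 + lam γ₂.sec0 := by
  have e : ls (nu γ.sec0) = ls (nu γ₁.sec0) + ls (nu γ₂.sec0) := sh_ext fun U x => by
    refine (ls_app _ U x).trans (Eq.trans ?_ (congrArg₂ (· + ·) (ls_app _ U x) (ls_app _ U x)).symm)
    refine DFunLike.congr_fun (ns_ext (f := ((nu γ.sec0).app (op U)).hom)
      (g := ((nu γ₁.sec0).app (op U)).hom + ((nu γ₂.sec0).app (op U)).hom) (fun a b => ?_)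
      fun a hU => Gm_ext ?_) x
    · exact (nu_df _ U a b).trans (((congrArg gs (h U a b)).trans (gs_mul _ _)).trans
        (congrArg₂ (· + ·) (nu_df _ U a b) (nu_df _ U a b)).symm)
    · have : IsEmpty U.left := ⟨fun u => hU u⟩
      have : Subsingleton Γ(U.left, ⊤) := by
        rw [show (⊤ : U.left.Opens) = ⊥ from Subsingleton.elim _ _]
        infer_instance
      exact Subsingleton.elim _ _
  rw [lam, e, post_apply, Ext.mk₀_add, Ext.comp_add]
  rfl

lemma zpb_un {T' : Scheme.{0}} (g : T' ⟶ T) (U : Over T') :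
    (zpb g).inv.hom.app (op U) (un U) = un ((Over.map g).obj U) :=
  (congrArg ((zpb g).inv.hom.app (op U)) (Ze.cstPb_app g _ U _).symm).trans
    congr(($((zpb g).hom_inv_id)).hom.app (op U) (un ((Over.map g).obj U)))

theorem lam_nat {T' : Scheme.{0}} (g : T' ⟶ T) {𝒯' : Trv T'} {γ' : Coc 𝒯'} {O' : T'.Opens}
    (s' : Sec γ' O') (m : CHom g γ' γ) (a : ZU O' ⟶ (pbe g).obj (ZU O)) (hO : O' ≤ g ⁻¹ᵁ O)
    (ha : RpZ g O' O a) (hs : ∀ U b, s'.s U b = s.s ((Over.map g).obj U) (m.m U b)) :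
    post _ (pbGm g).hom 1 (cmp (pbe g) a (Gm T) 1 (lam s)) = lam s' := by
  rw [recog s' _ ((sc_exact 𝒯 O).map_of_exact (pbe g)) ((pbe g).map (ls (nu s)) ≫ (pbGm g).hom) a
    (fun U b => gS ((Over.map g).obj U) (m.m U b))
    (fun v b => (congrArg _ (m.res v b)).trans (gS_res _ _)) (fun U b => ?_)
    (fun U b c x h => Gm_ext ?_) fun U b h x hx => Gm_ext ?_]
  · rw [← post_post, pre_post, lam, post_apply (ls (nu s)), cmp_apply, Ext.mapExactFunctor_comp,
      Ext.mapExactFunctor_mk₀, Ext.mapExactFunctor_extClass]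
    rfl
  · rw [show πZ O' ≫ a = _ from ha]
    refine (gS_g _ _).trans (congrArg ((πZ O).hom.app (op ((Over.map g).obj U))) (zpb_un g U).symm)
  · exact (congrArg (fun y => (GmTop ((Over.map g).obj U) y).toMul.val)
      (nu_sub s _ _ _ x h)).trans (congrArg Units.val (m.g U b c).symm)
  · have h' : (ovU O).mem ((Over.map g).obj U) := fun u => hO (h u)
    exact (congrArg (fun y => (GmTop ((Over.map g).obj U) y).toMul.val)
      ((nu_of s _ ⟨ge (m.m U b), .inr h'⟩ x hx).trans (nu_ge s _ _ h'))).trans (hs U b).symm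

end CL

theorem lam : LAM_s :=
  ⟨⟨CL.lam, CL.recog, fun g _ _ _ _ _ _ s' s => CL.lam_nat s g s', CL.lam_bot, CL.lam_add⟩⟩

end Pool.Agent.MP_855f4c_ag.T

end

section

/-! h12g section C: assembly of the Chern classes. -/

set_option autoImplicit false
set_option backward.isDefEq.respectTransparency false

open CategoryTheory Limits Abelian Opposite AlgebraicGeometry Function

namespace Pool.Agent.MP_855f4c_ag.T

open E E3 E4

namespace CAs

lemma π_iso {T : Scheme.{0}} (F : Sh (Scheme.etaleTopology.over T)) : IsIso (cokernel.π ((ezι (⊥ : T.Opens)).app F)) := by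
  have h : (ezι (⊥ : T.Opens)).app F = 0 := by
    refine ObjectProperty.hom_ext _ (NatTrans.ext (funext fun U =>
      AddCommGrpCat.hom_ext (AddMonoidHom.ext fun x => ?_)))
    exact sepP F.property x.1 _ x.2 fun Y y hy => hy.elim id fun h =>
      sepP F.property _ ⊥ (mem_Jov_of _ fun u => (h u).elim) fun _ _ h => h.elim
  exact cokernel.π_of_zero h

section
universe w v u
variable {C : Type u} [Category.{v} C] [Abelian C] [HasExt.{w} C] {A' A B B' G G' : C}

lemma pre_c (a : A' ⟶ A) (x : Ext.{w} A B 1) (y : Ext.{w} B G 1) :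
    pre a G 2 (x.comp y (rfl : 1 + 1 = 2)) = (pre a B 1 x).comp y (rfl : 1 + 1 = 2) :=
  (Ext.comp_assoc (Ext.mk₀ a) x y (zero_add 1) (rfl : 1 + 1 = 2) (by omega)).symm

lemma mid_c (a : B ⟶ B') (x : Ext.{w} A B 1) (y : Ext.{w} B' G 1) :
    (post A a 1 x).comp y (rfl : 1 + 1 = 2) = x.comp (pre a G 1 y) rfl :=
  Ext.comp_assoc _ _ _ (add_zero 1) (zero_add 1) rfl

lemma post_c (a : G ⟶ G') (x : Ext.{w} A B 1) (y : Ext.{w} B G 1) :
    post A a 2 (x.comp y rfl) = x.comp (post B a 1 y) rfl :=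
  Ext.comp_assoc _ _ _ rfl (add_zero 1) rfl

lemma post_smul (a : G ⟶ G') (Q : ℕ) {n : ℕ} (x : Ext.{w} A G n) :
    post A (Q • a) n x = Q • post A a n x := by
  induction Q with
  | zero => simp
  | succ Q ih => rw [succ_nsmul, succ_nsmul, ← ih, post_apply, Ext.mk₀_add, Ext.comp_add]; rfl

end

end CAs

open CAs in
theorem chern (hL : LAM_s) (hB : BET_s) (hR : RP_s) (hT : TELA_s) (hN : NEL_s) (l : ℕ)
    [Fact l.Prime] (Ω : Type) [Field Ω] [IsAlgClosed Ω] (hl : (l : Ω) ≠ 0) :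
    Nonempty (Chern l Ω) := by
  obtain ⟨Λ⟩ := hL
  obtain ⟨B⟩ := hB l
  obtain ⟨f, hf⟩ := Ze.exSys l Ω hl
  have bij {T : Scheme.{0}} (t : T ⟶ Spec (.of Ω)) (O : T.Opens) :
      Bijective (post (AU l O) (Ze.ze f t) 2) := Ze.ze_bij t hf hl _ (hT l T O) 2
  have ex : ∀ (T : Scheme.{0}) (t : T ⟶ Spec (.of Ω)) (𝒯 : Trv T) (γ : Coc 𝒯) (O : T.Opens)
      (s : Sec γ O), ∃ x, post (AU l O) (Ze.ze f t) 2 x = (B.b O).comp (Λ.lam s) rfl :=
    fun T t _ _ O s => (bij t O).2 _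
  choose th hth using ex
  have nat {T' T : Scheme.{0}} (g : T' ⟶ T) (t : T ⟶ Spec (.of Ω)) {𝒯' : Trv T'} {𝒯 : Trv T}
      {γ' : Coc 𝒯'} {γ : Coc 𝒯} {O' : T'.Opens} {O : T.Opens} (s' : Sec γ' O') (s : Sec γ O)
      (m : CHom g γ' γ) (a : AU l O' ⟶ (pbe g).obj (AU l O)) (hO : O' ≤ g ⁻¹ᵁ O)
      (ha : Rp l g O' O a) (hs : ∀ U b, s'.s U b = s.s ((Over.map g).obj U) (m.m U b)) :
      gpb l g a 2 (th _ t _ _ _ s) = th _ (g ≫ t) _ _ _ s' := by
    obtain ⟨a', ha'⟩ := (hR l _ _ g O' O hO).2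
    refine (bij (g ≫ t) O').1 ?_
    have h1 : cmp (pbe g) a (Gm T) 2 (post _ (Ze.ze f t) 2 (th _ t _ _ _ s)) =
        post _ ((pbe g).map (Ze.ze f t)) 2 (cmp (pbe g) a _ 2 (th _ t _ _ _ s)) :=
      (cmp_comp _ _ _ _ (add_zero 2)).trans (by rw [Ext.mapExactFunctor_mk₀]; rfl)
    rw [hth, cmp_comp, ← B.nat g O' O a a' hO ha ha', mid_c] at h1
    rw [hth, ← Λ.nat g s' s m a' hO ha' hs, ← post_c, cmp_apply, ← pre_apply, h1, post_post,
      Ze.ze_pb]
    exact post_post _ _ _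
  have (T : Scheme.{0}) : IsIso (πU l (⊥ : T.Opens)) := π_iso _
  have (T : Scheme.{0}) : IsIso (πZ (⊥ : T.Opens)) := π_iso _
  refine ⟨⟨fun t _ γ => pre (πU l ⊥) _ 2 (th _ t _ _ _ γ.sec0), fun t _ _ _ s => th _ t _ _ _ s,
    fun {T} t _ γ O s => ?_, fun g t _ _ γ' γ m => ?_, nat, fun t _ γ γ₁ γ₂ h => ?_,
    fun t _ _ O s σ Q h => (bij (t ≫ spc σ) O).1 ?_, fun L h h0 => ?_⟩⟩
  · have h1 : pre (inv (πU l ⊥) ≫ πU l O) _ 2 (th _ t _ _ _ s) = th _ t _ _ _ γ.sec0 := by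
      refine (bij t ⊥).1 ?_
      rw [← pre_post, hth, hth, pre_c, ← B.bot O _ (inv (πZ ⊥) ≫ πZ O) (by simp) (by simp), mid_c,
        Λ.bot s _ (by simp)]
    rw [← h1, pre_pre, IsIso.hom_inv_id_assoc]
  · obtain ⟨a, ha⟩ := (hR l _ _ g ⊥ ⊥ bot_le).1
    rw [← nat g t γ'.sec0 γ.sec0 m a bot_le ha fun _ _ => rfl]
    refine (congrArg (post _ (lpb l g).hom 2) (cmp_pre _ _ _ _)).trans ?_
    rw [← show πU l ⊥ ≫ a = _ from ha, cmp_apply, ← pre_apply, ← pre_pre, ← pre_post]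
    rfl
  · rw [← map_add]
    refine congrArg _ ((bij t ⊥).1 ?_)
    rw [map_add, hth, hth, hth, Λ.add γ γ₁ γ₂ h, Ext.comp_add]
  · rw [map_nsmul, ← post_smul, Ze.ze_spc f t f σ Q (Ze.sys_pow f h), hth, hth]
  · have h1 : th _ L.π _ _ _ h.coc.sec0 = 0 := (pre_bij _ _ 2).1 (h0.trans (map_zero _).symm)
    obtain ⟨y, hy⟩ := B.div ⊥ _ (Λ.lam h.coc.sec0) (by rw [← hth _ L.π, h1, map_zero])
    exact hN Λ l Ω hl L h y hy

end Pool.Agent.MP_855f4c_ag.T

end

section

/-! Rows BET, RP, TELA. -/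

set_option autoImplicit false
set_option backward.isDefEq.respectTransparency false

open CategoryTheory Limits Abelian Opposite AlgebraicGeometry Function

namespace Pool.Agent.MP_855f4c_ag.T

open E E3 E4 Tel

namespace Cb

section grp
variable (l : ℕ) [Fact l.Prime]

/-- The group `ℤ[1/l]`. -/
def ZI : AddSubgroup ℚ_[l] where
  carrier := {x | ∃ (n : ℕ) (k : ℤ), (l : ℚ_[l]) ^ n * x = k}
  add_mem' := fun {x y} ⟨n, k, h⟩ ⟨m, j, h'⟩ => ⟨n + m, l ^ m * k + l ^ n * j, by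
    push_cast
    rw [← h, ← h']
    ring⟩
  zero_mem' := ⟨0, 0, by simp⟩
  neg_mem' := fun {x} ⟨n, k, h⟩ => ⟨n, -k, by rw [mul_neg, h, Int.cast_neg]⟩

lemma l0 : (l : ℚ_[l]) ≠ 0 := Nat.cast_ne_zero.2 (Fact.out : l.Prime).ne_zero

/-- The inclusion of the integers. -/
noncomputable def zi : ℤ →+ ZI l :=
  (Int.castAddHom ℚ_[l]).codRestrict _ fun k => ⟨0, k, by simp⟩

/-- The projection. -/
noncomputable def zp : ZI l →+ QZ l := (QuotientAddGroup.mk' _).comp (ZI l).subtype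

/-- Division by `l`. -/
noncomputable def zd : ZI l →+ ZI l :=
  ((AddMonoidHom.mulLeft (l : ℚ_[l])⁻¹).comp (ZI l).subtype).codRestrict _
    fun ⟨x, n, k, h⟩ => ⟨n + 1, k, by
      rw [← h, pow_succ, mul_assoc]
      exact congrArg _ (mul_inv_cancel_left₀ (l0 l) x)⟩

lemma zp_zi (k : ℤ) : zp l (zi l k) = 0 :=
  (QuotientAddGroup.eq_zero_iff _).2 (Padic.norm_int_le_one k)

/-- The sequence `ℤ → ℤ[1/l] → ℚ_l / ℤ_l`. -/
noncomputable def S0 : ShortComplex Ab.{0} :=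
  .mk (AddCommGrpCat.ofHom (zi l)) (AddCommGrpCat.ofHom (zp l))
    (AddCommGrpCat.ext fun k => zp_zi l k)

lemma S0_ex : (S0 l).ShortExact where
  mono_f := (AddCommGrpCat.mono_iff_injective _).2 fun _ _ h =>
    Int.cast_injective (α := ℚ_[l]) (congrArg Subtype.val h)
  epi_g := (AddCommGrpCat.epi_iff_surjective _).2 fun x => by
    obtain ⟨n, hn⟩ := prim_QZ l ⟨x⟩
    obtain ⟨x, rfl⟩ := QuotientAddGroup.mk_surjective x
    have h : ‖l ^ n • x‖ ≤ 1 :=
      (QuotientAddGroup.eq_zero_iff (l ^ n • x)).1 (congrArg ULift.down hn)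
    obtain ⟨y, hy⟩ := Ideal.mem_span_singleton.1 (PadicInt.appr_spec n ⟨_, h⟩)
    have hy' : ((l ^ n : ℕ) • x - (PadicInt.appr ⟨_, h⟩ n : ℕ) : ℚ_[l]) = l ^ n * y := by
      simpa using congrArg Subtype.val hy
    have h0 := pow_ne_zero n (l0 l)
    refine ⟨⟨x - y, n, PadicInt.appr ⟨_, h⟩ n, ?_⟩, QuotientAddGroup.eq.2 ?_⟩
    · have e : (l ^ n : ℕ) • x = (l : ℚ_[l]) ^ n * x := by rw [nsmul_eq_mul, Nat.cast_pow]
      rw [Int.cast_natCast]
      linear_combination hy' - e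
    · change ‖-(x - y) + x‖ ≤ 1
      simpa using y.2
  exact := (ShortComplex.ab_exact_iff _).2 fun ⟨x, n, k, h⟩ hx => by
    have h1 : ‖x‖ ≤ 1 := (QuotientAddGroup.eq_zero_iff x).1 hx
    obtain ⟨j, rfl⟩ := (Padic.norm_int_le_pow_iff_dvd (p := l) k n).1 (by
      rw [← h, norm_mul, Padic.norm_p_pow]
      exact mul_le_of_le_one_right (by positivity) h1)
    refine ⟨j, Subtype.ext (mul_left_cancel₀ (pow_ne_zero n (l0 l)) (h.trans ?_).symm)⟩
    push_cast
    rfl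

/-- The same sequence in the large universe. -/
noncomputable def S1 : ShortComplex Ab.{1} := (S0 l).map AddCommGrpCat.uliftFunctor.{1}

lemma S1_ex : (S1 l).ShortExact := (S0_ex l).map_of_exact _

lemma S1_div : ∃ d : (S1 l).X₂ ⟶ (S1 l).X₂, l • d = 𝟙 _ :=
  ⟨AddCommGrpCat.uliftFunctor.{1}.map (AddCommGrpCat.ofHom (zd l)), AddCommGrpCat.ext fun _ =>
    ULift.ext _ _ (Subtype.ext ((nsmul_eq_mul _ _).trans (mul_inv_cancel_left₀ (l0 l) _)))⟩

end grp

variable {T T' : Scheme.{0}}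

/-- The projection. -/
noncomputable def pr (O : T.Opens) (F : Sh (Scheme.etaleTopology.over T)) : F ⟶ (QU O).obj F := (Tel.πU O).app F

instance (O : T.Opens) (F : Sh (Scheme.etaleTopology.over T)) : Epi (pr O F) := (isQ O).epi F

@[reassoc]
lemma pr_nat (O : T.Opens) {F G : Sh (Scheme.etaleTopology.over T)} (u : F ⟶ G) :
    pr O F ≫ (QU O).map u = u ≫ pr O G := ((Tel.πU O).naturality u).symm

lemma pb_π (O : T.Opens) (F : Sh (Scheme.etaleTopology.over T)) (g : T' ⟶ T) (h : ∀ t, g t ∈ O) :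
    (pbe g).map (pr O F) = 0 := by
  have : IsIso ((pbe g).map ((ezι O).app F)) := Ez.isIso_of_bij _ fun U =>
    ezι_bij O _ fun t => h (U.hom t)
  rw [← cancel_epi ((pbe g).map ((ezι O).app F)), ← Functor.map_comp,
    show (ezι O).app F ≫ pr O F = 0 from (isQ O).w F, Functor.map_zero, comp_zero]

lemma exR (g : T' ⟶ T) {O' : T'.Opens} {O : T.Opens} (h : O' ≤ g ⁻¹ᵁ O) (M : Ab.{1}) :
    ∃ a : (QU O').obj ((cst T').obj M) ⟶ (pbe g).obj ((QU O).obj ((cst T).obj M)),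
      pr O' _ ≫ a = (M2.cstPb g).inv.app M ≫ (pbe g).map (pr O ((cst T).obj M)) :=
  (isQ O').desc _ (by
    have e : (pbe O'.ι).map ((pbe g).map (pr O ((cst T).obj M))) = 0 := by
      rw [← cancel_mono (Pbc.pc O'.ι g _).hom, Pbc.pc_nat, pb_π O _ (O'.ι ≫ g) fun t => h t.2,
        comp_zero, zero_comp]
    exact (Functor.map_comp _ _ _).trans ((congrArg (_ ≫ ·) e).trans comp_zero))

lemma sqR (g : T' ⟶ T) {O' : T'.Opens} {O : T.Opens} {M N : Ab.{1}} (u : M ⟶ N)
    {a : (QU O').obj ((cst T').obj M) ⟶ (pbe g).obj ((QU O).obj ((cst T).obj M))}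
    {b : (QU O').obj ((cst T').obj N) ⟶ (pbe g).obj ((QU O).obj ((cst T).obj N))}
    (ha : pr O' _ ≫ a = (M2.cstPb g).inv.app M ≫ (pbe g).map (pr O ((cst T).obj M)))
    (hb : pr O' _ ≫ b = (M2.cstPb g).inv.app N ≫ (pbe g).map (pr O ((cst T).obj N))) :
    a ≫ (pbe g).map ((QU O).map ((cst T).map u)) = (QU O').map ((cst T').map u) ≫ b := by
  rw [← cancel_epi (pr O' _), reassoc_of% ha, pr_nat_assoc, hb, ← Functor.map_comp, pr_nat,
    Functor.map_comp]
  exact ((M2.cstPb g).inv.naturality_assoc u _).symm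

lemma sqB {O' O : T.Opens} {F G : Sh (Scheme.etaleTopology.over T)} (u : F ⟶ G) {a : (QU O').obj F ⟶ (QU O).obj F}
    {b : (QU O').obj G ⟶ (QU O).obj G} (ha : pr O' F ≫ a = pr O F) (hb : pr O' G ≫ b = pr O G) :
    a ≫ (QU O).map u = (QU O').map u ≫ b := by
  rw [← cancel_epi (pr O' _), reassoc_of% ha, pr_nat_assoc, hb, pr_nat]

end Cb

open Cb

theorem rp : RP_s := fun _ _ _ _ g _ _ h => ⟨Pbc.exRp g h, exR g h _⟩

theorem tela : TELA_s := fun l _ _ O D _ n x => (isQ O).van l D n x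

theorem bet : BET_s := fun l _ => ⟨{
  b := fun O => ((good_QU O).ex _ (S1_ex l)).extClass
  nat := fun g O' O a a' h ha ha' => by
    obtain ⟨c, hc⟩ := exR g h (S1 l).X₂
    refine Eq.trans ?_ (congrArg (pre a _ 1) (Ext.mapExactFunctor_extClass (pbe g)
      ((good_QU O).ex _ (S1_ex l))).symm)
    exact ((good_QU O').ex _ (S1_ex l)).extClass_naturality
      (((good_QU O).ex _ (S1_ex l)).map_of_exact (pbe g))
      ⟨a', c, a, sqR g _ ha' hc, sqR g _ hc ha⟩
  bot := fun {T} O κ κ' h h' => by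
    obtain ⟨c, hc⟩ := (isQ ⊥).desc (pr O ((cst T).obj (S1 l).X₂))
      (pb_π O _ _ fun t => t.2.elim)
    exact ((good_QU ⊥).ex _ (S1_ex l)).extClass_naturality ((good_QU O).ex _ (S1_ex l))
      ⟨κ', c, κ, sqB _ h' hc, sqB _ hc h⟩
  div := fun {T} O G x hx => by
    obtain ⟨z, rfl⟩ := ((con_les ((good_QU O).ex _ (S1_ex l)) G).e₃ 1 x).1 hx
    obtain ⟨d, hd⟩ := S1_div l
    refine ⟨pre ((S1 l).map (cst T ⋙ QU O)).f G 1 (pre ((cst T ⋙ QU O).map d) G 1 z),
      (congrArg _ ?_).trans (map_nsmul _ l _)⟩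
    have e : Ext.mk₀.{1} ((cst T ⋙ QU O).map (l • d)) = l • Ext.mk₀ ((cst T ⋙ QU O).map d) := by
      rw [Functor.map_nsmul]
      exact map_nsmul Ext.addEquiv₀.symm l _
    refine Eq.trans ?_ (map_nsmul (z.postcomp _ (zero_add 1)) l _)
    rw [← e, hd, CategoryTheory.Functor.map_id]
    exact (Ext.mk₀_id_comp z).symm }⟩

end Pool.Agent.MP_855f4c_ag.T

end

section

/-! Row INJ: the end of section M. -/

set_option autoImplicit false
set_option backward.isDefEq.respectTransparency false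

open CategoryTheory Limits Abelian Function AlgebraicGeometry

namespace Pool.Agent.MP_855f4c_ag.T

open E

def INJ_s : Prop := ∀ (l : ℕ) [Fact l.Prime] (X W Y Z : Scheme.{0}) (ρ : W ⟶ X) (r : W ⟶ Y)
  (s : X ⟶ Z) (k k' N : ℕ) (c : EE l X k) (c' : EE l X k') (tr : Tr ρ c c') (η : EE l Y N)
  (η' : EE l X N), epb l r N η = epb l ρ N η' → (∀ i, N < i → ∀ x : HH l Y i, x = 0) →
    (∀ (i j : ℕ) (h : i + j = N) (α : EE l Y i), (∃ a, tau α a ≠ 0) →
      ∃ (m : ℕ) (α' : EE l Y j), α.comp α' h = l ^ m • η) →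
    (∀ m : ℕ, ∃ a, tau (l ^ m • (c.comp η' rfl).comp c' rfl) a ≠ 0) →
    (∀ n, Bijective (hpb l s n)) →
    ∃ ε : ∀ i, EE l Y i →+ QZ l →+ HH l Z (i + k),
      (∀ i α a, hpb l s _ (ε i α a) = tau (tr.ext i _ rfl (epb l r i α)) a) ∧
      (∀ i α, ε i α = 0 → ∀ a, tau α a = 0) ∧
      ∀ (gX : X ⟶ X) (gW : W ⟶ W) (gY : Y ⟶ Y) (gZ : Z ⟶ Z) (M : ℕ), gX ≫ s = s ≫ gZ →
        gW ≫ r = r ≫ gY → tr.Eqv gX gW M →
        ∀ i α a, hpb l gZ _ (ε i α a) = M • ε i (epb l gY i α) a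

namespace Inj

variable {l : ℕ} [Fact l.Prime] {T : Scheme.{0}}

lemma ta_add (a b : QZ l) : ta l T (a + b) = ta l T a + ta l T b := by
  have : (con T).Additive := by
    unfold con cst constantSheaf
    infer_instance
  rw [ta, ta, ta, ← Functor.map_add]
  exact congrArg _ (AddCommGrpCat.ext fun n => smul_add n a b)

variable (l T) in
/-- `tau` as a biadditive map. -/
noncomputable def tauH (n : ℕ) : EE l T n →+ QZ l →+ HH l T n :=
  AddMonoidHom.mk' (fun x => AddMonoidHom.mk' (tau x) fun a b => by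
    rw [tau, ta_add, pre_apply, Ext.mk₀_add, Ext.add_comp]
    rfl) fun _ _ => AddMonoidHom.ext fun _ => map_add (pre _ _ n) _ _

lemma tauH_apply {n : ℕ} (x : EE l T n) (a : QZ l) : tauH l T n x a = tau x a := rfl

lemma nsmul_comp {i j n : ℕ} (h : i + j = n) (m : ℕ) (x : EE l T i) (y : EE l T j) :
    (m • x).comp y h = m • x.comp y h := map_nsmul (y.postcomp _ h) m x

end Inj

open Inj in
theorem inj : INJ_s := by
  intro l _ X W Y Z ρ r s k k' N c c' tr η η' hη top ha nv hs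
  let ω (n : ℕ) := AddEquiv.ofBijective (hpb l s n) (hs n)
  let ε (i : ℕ) : EE l Y i →+ QZ l →+ HH l Z (i + k) :=
    (AddMonoidHom.compHom (ω _).symm.toAddMonoidHom).comp
      ((tauH l X _).comp ((tr.ext i _ rfl).comp (epb l r i)))
  have hε (i α a) : hpb l s _ (ε i α a) = tau (tr.ext i _ rfl (epb l r i α)) a :=
    (ω _).apply_symm_apply _
  refine ⟨ε, hε, fun i α h0 => ?_, fun gX gW gY gZ M e1 e2 eq i α a => (hs _).1 ?_⟩
  · by_contra! h1
    rcases Nat.lt_or_ge N i with hi | hi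
    · exact h1.elim fun a h => h (top i hi _)
    obtain ⟨j, rfl⟩ := Nat.exists_eq_add_of_le hi
    obtain ⟨m, α', e⟩ := ha i j rfl α h1
    obtain ⟨a, h2⟩ := nv m
    obtain ⟨y, hy⟩ := tr.lift j _ rfl (epb l r j α')
    have q1 := tr.mul i (j + k') (i + k) (i + j + k') (k + (i + j) + k') rfl (by omega) (by omega)
      (by omega) (epb l r i α) y
    have q2 := tr.mul (i + j) k' (k + (i + j)) (i + j + k') (k + (i + j) + k') (by omega)
      (by omega) rfl rfl (epb l ρ _ η') c'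
    have q3 := tr.mul 0 (i + j) k (i + j) (k + (i + j)) (zero_add k) (by omega) (zero_add _) rfl
      (one l W) η'
    rw [Ext.mk₀_id_comp, tr.one] at q3
    rw [hy, ← Ext.comp_assoc _ _ _ rfl rfl (by omega), ← Pbc.epb_mul, e, map_nsmul, hη, nsmul_comp,
      map_nsmul, q2, q3] at q1
    apply h2
    rw [q1, Pbc.tau_mul, ← hε, h0, AddMonoidHom.zero_apply, map_zero, Ext.zero_comp]
  · rw [← Pbc.hpb_comp, ← e1, Pbc.hpb_comp, hε, Pbc.tau_pb, eq, map_nsmul, hε, ← Pbc.epb_comp, e2,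
      Pbc.epb_comp]
    exact DFunLike.congr_fun (map_nsmul (tauH l X _) M _) a

end Pool.Agent.MP_855f4c_ag.T

end

section

/-! h12g, section G (comparison): definitions and statements. -/

set_option autoImplicit false
set_option backward.isDefEq.respectTransparency false

open CategoryTheory Limits Abelian Opposite AlgebraicGeometry Polynomial IsLocalRing TensorProduct
open Function

namespace Pool.Agent.MP_855f4c_ag.T.GG

open E E3 E4 E.SA

/-- `ρ` is an affine space locally on the base. -/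
def AffB {W X : Scheme.{0}} (ρ : W ⟶ X) : Prop :=
  ∀ x : X, ∃ (A : Type) (_ : CommRing A) (j : Spec (.of A) ⟶ X) (σ : Type) (_ : Finite σ)
    (w : Spec (.of (MvPolynomial σ A)) ⟶ W), IsOpenImmersion j ∧ x ∈ Set.range j ∧
      IsPullback w (spc (algebraMap A (MvPolynomial σ A))) ρ j

/-- Gabber's affine base change theorem. -/
def GAB_s : Prop := ∀ (l : ℕ) [Fact l.Prime] (X : Scheme.{0}) (A A' : Type) [CommRing A]
  [CommRing A'] [Algebra A A'] (u : Spec (.of A) ⟶ X) (F : Sh (Scheme.etaleTopology.over X)), IsUnit (l : A) →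
    Surjective (algebraMap A A') → T.HP A (RingHom.ker (algebraMap A A')) → Tc l F →
    HB (hm u (Algebra.ofId A A')) F

/-- Homotopy invariance. -/
def A1_s : Prop := ∀ (l : ℕ) [Fact l.Prime] (X : Scheme.{0}) (A σ : Type) [CommRing A] [Finite σ]
  (u : Spec (.of A) ⟶ X) (F : Sh (Scheme.etaleTopology.over X)), IsUnit (l : A) → Tc l F →
    HB (hm u (Algebra.ofId A (MvPolynomial σ A))) F

/-- Affine space bundles: base change, and invariance of cohomology. -/
def ABU_s : Prop :=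
  (∀ (W X W' X' : Scheme.{0}) (ρ : W ⟶ X) (ρ' : W' ⟶ X') (w : W' ⟶ W) (a : X' ⟶ X),
    IsPullback w ρ' ρ a → AffB ρ → AffB ρ') ∧
  ∀ (l : ℕ) [Fact l.Prime] (W X : Scheme.{0}) (ρ : W ⟶ X) (F : Sh (Scheme.etaleTopology.over X)), AffB ρ →
    CompactSpace X → X.IsSeparated → Linv l X → Tc l F → HB (tp ρ) F

/-- Proper base change along a local map of strictly henselian rings. -/
def PBL_s : Prop := ∀ (l : ℕ) [Fact l.Prime] (R A A' : Type) [CommRing R] [IsNoetherianRing R]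
  [CommRing A] [SHL A] [CommRing A'] [SHL A'] (φ : A →+* A') [IsLocalHom φ] (Z₀ Z Z' : Scheme.{0})
  (f₀ : Z₀ ⟶ Spec (.of R)) [IsProper f₀] (f : Z ⟶ Spec (.of A)) (a : Z ⟶ Z₀)
  (b : Spec (.of A) ⟶ Spec (.of R)) (f' : Z' ⟶ Spec (.of A')) (a' : Z' ⟶ Z) (F : Sh (Scheme.etaleTopology.over Z)),
    IsPullback a f f₀ b → IsPullback a' f' f (spc φ) → IsUnit (l : A) → Tc l F → HB (tp a') F

/-- Excision: from the whole to the open part. -/
def EXO_s : Prop := ∀ (X : Scheme.{0}) (B B' C C' : Type) [CommRing B] [CommRing B'] [CommRing C]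
  [CommRing C'] [Algebra B B'] [Algebra B C] [Algebra B C'] [Algebra B' C'] [IsScalarTower B B' C']
  (p : B) [IsLocalization.Away p C] [IsLocalization.Away (algebraMap B B' p) C']
  (ψ : C →ₐ[B] C') (u : Spec (.of B) ⟶ X) (F : Sh (Scheme.etaleTopology.over X)), Exs B B' (Ideal.span {p}) →
    LFP F.obj →
    HB (hm u (Algebra.ofId B B')) F → HB (hm u ψ) F

/-- The sandwich: the generic fibre of the henselisation has the cohomology of `Z'`. -/
def SAND_s : Prop := ∀ (l : ℕ) [Fact l.Prime] (R V K B B' C : Type) [CommRing R]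
  [IsNoetherianRing R] [CommRing V] [SHL V] [CommRing K] [CommRing B] [CommRing B'] [CommRing C]
  [Algebra V K] [Algebra V B] [Algebra B B'] [Algebra B' C] (p : V) [IsLocalization.Away p K]
  [IsLocalization.Away (algebraMap B B' (algebraMap V B p)) C] (Z₀ Z Z' : Scheme.{0})
  (f₀ : Z₀ ⟶ Spec (.of R)) [IsProper f₀] (f : Z ⟶ Spec (.of V)) (a : Z ⟶ Z₀)
  (b : Spec (.of V) ⟶ Spec (.of R)) (f' : Z' ⟶ Spec (.of K)) (a' : Z' ⟶ Z)
  (ρ : Spec (.of B) ⟶ Z) (g : Spec (.of C) ⟶ Z') (M : Ab.{1}),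
    IsPullback a f f₀ b → IsPullback a' f' f (spc (algebraMap V K)) →
    ρ ≫ f = spc (algebraMap V B) → AffB ρ →
    g ≫ a' = spc ((algebraMap B' C).comp (algebraMap B B')) ≫ ρ →
    ¬ IsUnit p → IsUnit (l : V) → IndEt B B' → QIso B B' (Ideal.span {algebraMap V B p}) →
    T.HP B' ((Ideal.span {algebraMap V B p}).map (algebraMap B B')) →
    (∀ m : M, ∃ n : ℕ, l ^ n • m = 0) → AB M g

end Pool.Agent.MP_855f4c_ag.T.GG

end

section

/-! h12g, section G: proper base change along a local map of strictly henselian rings. -/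

set_option autoImplicit false
set_option backward.isDefEq.respectTransparency false

open CategoryTheory Limits Abelian Opposite AlgebraicGeometry IsLocalRing Function

namespace Pool.Agent.MP_855f4c_ag.T.GG

open E E3 E4 E.SA

theorem pbl (hP : PBCX_s) : PBL_s := by
  intro l _ R A A' _ _ _ _ _ _ φ _ Z₀ Z Z' f₀ _ f a b f' a' F h1 h2 hl hF
  let k := AlgebraicClosure (ResidueField A')
  let ψ : A' →+* k := (algebraMap (ResidueField A') k).comp (residue A')
  have hR := fun q => (Rq_Rig_iff f F q).1 (hP l R Z₀ Z _ f₀ f a b h1 F q hF).1.2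
  have e : spc (ψ.comp φ) = spc ψ ≫ spc φ := by
    rw [← Spec.map_comp, ← CommRingCat.ofHom_comp]
  have e0 : spc φ ≫ 𝟙 _ = spc φ := Category.comp_id _
  have e1 : spc ψ ≫ spc φ = spc ψ ≫ spc φ := rfl
  have e2 : spc (ψ.comp φ) ≫ 𝟙 _ = spc ψ ≫ spc φ := (Category.comp_id _).trans e
  have c1 : HB ((Over.pullback f).map (sph ψ e1)) F := fun q =>
    hR q A' k ψ _ _ e1 (by simpa using hl.map φ)
  have c2 : HB ((Over.pullback f).map (sph (ψ.comp φ) e2)) F := fun q =>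
    hR q A k (ψ.comp φ) _ _ e2 hl
  have e3 : sph (ψ.comp φ) e2 = sph ψ e1 ≫ sph φ e0 := Over.OverMorphism.ext e
  rw [e3, Functor.map_comp] at c2
  let i : fbr f (spc φ) ⟶ Over.mk a' := Over.homMk h2.flip.isoPullback.inv (by simp)
  let j : fbr f (𝟙 _) ⟶ E.top Z := Over.homMk (pullback.snd (𝟙 _) f)
  have : IsIso i := by
    have : IsIso ((Over.forget _).map i) := inferInstanceAs (IsIso h2.flip.isoPullback.inv)
    exact isIso_of_reflects_iso i (Over.forget _)
  have : IsIso j := by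
    have : IsIso ((Over.forget _).map j) := inferInstanceAs (IsIso (pullback.snd (𝟙 _) f))
    exact isIso_of_reflects_iso j (Over.forget _)
  exact (hb_of_sq _ _ i j (Over.OverMorphism.ext (by simp [i, j, tp]))).1 (c2.of_comp_left c1)

end Pool.Agent.MP_855f4c_ag.T.GG

end

section

/-! h12g: products of lists of classes, composition of transfers. -/

set_option autoImplicit false
set_option backward.isDefEq.respectTransparency false

open CategoryTheory Limits Abelian Opposite AlgebraicGeometry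

namespace Pool.Agent.MP_855f4c_ag.T

open E E3 E4 Pbc

attribute [local irreducible] Ext.comp Ext.mk₀ Ext.mapExactFunctor ShortComplex.ShortExact.extClass

variable {T T' : Scheme.{0}} {l : ℕ} [Fact l.Prime]

lemma one_comp {n : ℕ} (x : EE l T n) : (one l T).comp x (zero_add n) = x := Ext.mk₀_id_comp x

lemma comp_one {A : Sh (Scheme.etaleTopology.over T)} {n : ℕ} (x : Ext A (Linf l T) n) :
    x.comp (one l T) (add_zero n) = x := Ext.comp_mk₀_id x

lemma epb_pw (g : T' ⟶ T) (L : List (EE l T 2)) :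
    epb l g _ (pw L) = (pw (L.map (epb l g 2))).comp (one l T') (by simp) := by
  induction L with
  | nil => exact (epb_one g).trans (comp_one _).symm
  | cons x L ih =>
    rw [pw, epb_mul, ih]
    exact (Ext.comp_assoc _ _ _ _ _ (by simp only [List.length_cons, List.length_map]; omega)).symm

lemma pw_append (L L' : List (EE l T 2)) :
    pw (L ++ L') = (pw L).comp (pw L') (by simp only [List.length_append]; omega) := by
  induction L with
  | nil => exact (one_comp _).symm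
  | cons x L ih =>
    refine (congrArg (fun y => x.comp y _) ih).trans ?_
    exact (Ext.comp_assoc _ _ _ _ _
      (by simp only [List.length_cons, List.length_append, List.append_eq]; omega)).symm

/-! ### Transfers -/

variable {X W W' : Scheme.{0}}

variable (l) in
/-- The unit class. -/
noncomputable abbrev eun (T : Scheme.{0}) : EE l T 0 := one l T

/-- The identity transfer. -/
noncomputable def Tr.refl (X : Scheme.{0}) : Tr (𝟙 X) (eun l X) (eun l X) where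
  ext i n h := (eun l X).postcomp _ h
  mul i j n i' n' h h' hi hn γ z := by
    obtain rfl : i = n := h
    obtain rfl : i' = n' := h'
    exact (comp_one _).trans ((congrArg (γ.comp · hi) (epb_id z)).trans
      (congrArg (Ext.comp · z hn) (comp_one γ).symm))
  one := comp_one _
  lift i n h β := ⟨β.comp (eun l X) h, by rw [epb_id, epb_id]⟩

lemma Tr.refl_eqv (g : X ⟶ X) : (Tr.refl (l := l) X).Eqv g g 1 := fun _ _ h γ =>
  (epb_mul g γ _ h).trans ((congrArg (Ext.comp _ · h) (epb_one g)).trans (one_smul _ _).symm)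

section
variable {ρ : W ⟶ X} {ρ' : W' ⟶ W} {k k' j j' : ℕ} {c : EE l X k} {c' : EE l X k'}
  {d : EE l X j} {d' : EE l X j'} {e : EE l W j} {e' : EE l W j'}

/-- Transfers compose. -/
noncomputable def Tr.comp (τ : Tr ρ c c') (τ' : Tr ρ' e e') (he : epb l ρ j d = e)
    (he' : epb l ρ j' d' = e') {K K' : ℕ} (hK : k + j = K) (hK' : j' + k' = K') :
    Tr (ρ' ≫ ρ) (c.comp d hK) (d'.comp c' hK') where
  ext i n h := (τ.ext (i + j) n (by omega)).comp (τ'.ext i (i + j) rfl)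
  mul i m n i' n' h h' hi hn γ z := by
    rw [AddMonoidHom.comp_apply, AddMonoidHom.comp_apply, epb_comp,
      τ'.mul i m (i + j) i' (i' + j) rfl rfl hi (by omega)]
    exact τ.mul _ _ _ _ _ _ _ _ _ _ _
  one := by
    have h1 : τ'.ext 0 (0 + j) rfl (eun l W') =
        (eun l W).comp (epb l ρ j d) rfl := by
      have (n : ℕ) (h : 0 + j = n) :
          τ'.ext 0 n h (eun l W') = (eun l W).comp (epb l ρ j d) h := by
        obtain rfl : j = n := by omega
        rw [τ'.one, one_comp, he]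
      exact this _ rfl
    rw [AddMonoidHom.comp_apply, h1, τ.mul 0 j k (0 + j) K (zero_add k) _ rfl hK, τ.one]
  lift i n h β := by
    obtain ⟨y, hy⟩ := τ'.lift i (i + j') rfl β
    obtain ⟨z, hz⟩ := τ.lift (i + j') n (by omega) y
    refine ⟨z, ?_⟩
    rw [epb_comp, hz, epb_mul, hy, epb_comp, epb_mul, epb_mul, he']
    exact Ext.comp_assoc _ _ _ _ _ (by omega)

lemma Tr.comp_eqv (τ : Tr ρ c c') (τ' : Tr ρ' e e') (he : epb l ρ j d = e)
    (he' : epb l ρ j' d' = e') {K K' : ℕ} (hK : k + j = K) (hK' : j' + k' = K')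
    {g : X ⟶ X} {g' : W ⟶ W} {g'' : W' ⟶ W'} {N N' : ℕ} (h : τ.Eqv g g' N)
    (h' : τ'.Eqv g' g'' N') : (τ.comp τ' he he' hK hK').Eqv g g'' (N * N') := fun i n hi γ => by
  refine (h (i + j) n (by omega) _).trans ?_
  rw [h' i (i + j) rfl, map_nsmul, smul_smul]
  rfl

/-- Change of the data along equalities. -/
def Tr.cast (τ : Tr ρ c c') {ρ₁ : W ⟶ X} {c₁ : EE l X k} {c₁' : EE l X k'} (h : ρ = ρ₁)
    (hc : c = c₁) (hc' : c' = c₁') : Tr ρ₁ c₁ c₁' where
  ext := τ.ext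
  mul := h ▸ τ.mul
  one := hc ▸ τ.one
  lift := h ▸ hc' ▸ τ.lift

end

end Pool.Agent.MP_855f4c_ag.T

end

section

/-! One step of the transfer. -/

set_option autoImplicit false
set_option backward.isDefEq.respectTransparency false

open CategoryTheory Limits Abelian Opposite AlgebraicGeometry Function

namespace Pool.Agent.MP_855f4c_ag.T

open E E3 E4 Pbc

namespace Stp

variable {l : ℕ} [Fact l.Prime] {X W : Scheme.{0}} {ρ : W ⟶ X} {O : X.Opens} {O₁ : W.Opens}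
  {a : AU l O₁ ⟶ (pbe ρ).obj (AU l O)} (ha : Rp l ρ O₁ O a) (hb : ∀ n, Bijective (gpb l ρ a n))
  {k : ℕ} (θ : Ext (AU l O) (Linf l X) k)

/-- The inverse of the excision map. -/
noncomputable def exi (n : ℕ) : Ext (AU l O₁) (Linf l W) n →+ Ext (AU l O) (Linf l X) n :=
  (AddEquiv.ofBijective _ (hb n)).symm.toAddMonoidHom

lemma gpb_exi {n : ℕ} (y : Ext (AU l O₁) (Linf l W) n) : gpb l ρ a n (exi hb n y) = y :=
  (AddEquiv.ofBijective _ (hb n)).apply_symm_apply y

/-- The transfer with supports. -/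
noncomputable def exs (i n : ℕ) (h : i + k = n) : EE l W i →+ Ext (AU l O) (Linf l X) n :=
  (exi hb n).comp ((gpb l ρ a k θ).precomp _ ((add_comm k i).trans h))

lemma gpb_exs {i n : ℕ} (h : i + k = n) (γ : EE l W i) :
    gpb l ρ a n (exs hb θ i n h γ) = (gpb l ρ a k θ).comp γ ((add_comm k i).trans h) :=
  gpb_exi hb _

/-- One step of the transfer. -/
noncomputable def step : Tr ρ (pre (πU l O) _ k θ) (pre (πU l O) _ k θ) where
  ext i n h := (pre (πU l O) _ n).comp (exs hb θ i n h)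
  mul i j n i' n' h h' hi hn γ z := by
    refine Eq.trans ?_ (pre_comp _ _ z hn)
    refine congrArg (pre (πU l O) _ n') ((hb n').1 ?_)
    rw [gpb_mul, gpb_exs, gpb_exs]
    exact (Ext.comp_assoc _ _ _ _ hi (by omega)).symm
  one := congrArg (pre (πU l O) _ k) ((hb k).1 ((gpb_exs hb θ _ _).trans (Ext.comp_mk₀_id _)))
  lift i n h β := by
    obtain ⟨y, hy⟩ := supp_mul O₁ β (gpb l ρ a k θ) h
    exact ⟨pre (πU l O) _ n (exi hb n y), by rw [← pre_gpb ha, ← pre_gpb ha, gpb_exi, hy]⟩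

/-- Equivariance of one step. -/
theorem step_eqv {g : X ⟶ X} {g' : W ⟶ W} (hg : g' ≫ ρ = ρ ≫ g) (h₁ : O₁ ≤ g' ⁻¹ᵁ O₁)
    {b : AU l O ⟶ (pbe g).obj (AU l O)} (hR : Rp l g O O b) {N : ℕ} (hθ : gpb l g b k θ = N • θ) :
    (step ha hb θ).Eqv g g' N := fun i n h γ => by
  obtain ⟨b', hb'⟩ := exRp (l := l) g' h₁
  have key {m : ℕ} (x : Ext (AU l O) (Linf l X) m) :
      gpb l ρ a m (gpb l g b m x) = gpb l g' b' m (gpb l ρ a m x) :=
    (gpb_Rp rfl ha hR (Rp_comp ha hR) x).trans (gpb_Rp hg hb' ha (Rp_comp ha hR) x).symm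
  refine (pre_gpb hR _).symm.trans ((congrArg (pre (πU l O) _ n) ((hb n).1 ?_)).trans
    (map_nsmul _ N (exs hb θ i n h (epb l g' i γ))))
  rw [key, gpb_exs, gpb_mul, ← key, hθ, map_nsmul, map_nsmul, gpb_exs]
  exact map_nsmul (Ext.postcomp (epb l g' i γ) _ ((add_comm k i).trans h)) N _

end Stp

end Pool.Agent.MP_855f4c_ag.T

end
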