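import Pool.Agent.MP_855f4c_ag.TC.Tb
import Pool.Agent.MP_855f4c_ag.TC.Ta

section

/-! Row APX0: approximation of one form. -/

set_option autoImplicit false

open MvPolynomial

namespace Pool.Agent.MP_855f4c_ag.T

open G.Apx

namespace Apx0

variable {κ J : Type} [Fintype κ] [DecidableEq κ]

/-- The multidegree in the coordinates. -/
def w (J : Type) : J ⊕ XV κ → κ → ℕ := Sum.elim 0 fun v => Pi.single v.1 1

/-- The point with parameters `t` and coordinates `x`. -/
def pt {W : Type} (t : Option J → W) (x : XV κ → W) : Option (J ⊕ XV κ) → W :=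
  fun o => o.elim (t none) (Sum.elim (fun j => t (some j)) x)

theorem expand [Fintype J] {E : κ → ℕ} {P : MvPolynomial (Option (J ⊕ XV κ)) ℤ}
    (hP : P.IsWeightedHomogeneous (fun o => o.elim 0 (w J)) E) :
    ∃ y : (∀ k, Fin (E k + 1)) → MvPolynomial (Option J) ℤ, ∀ (W : Type) [CommRing W]
      (t : Option J → W) (x : XV κ → W), ev (pt t x) P = ∑ j, aeval t (y j) * mon j x := by
  rw [P.as_sum]
  refine Finset.sum_induction _ (fun Q => ∃ y : (∀ k, Fin (E k + 1)) → MvPolynomial (Option J) ℤ,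
    ∀ (W : Type) [CommRing W] (t : Option J → W) (x : XV κ → W),
      ev (pt t x) Q = ∑ j, aeval t (y j) * mon j x) ?_ ⟨0, by simp⟩ fun m hm => ?_
  · rintro a b ⟨y, hy⟩ ⟨y', hy'⟩
    exact ⟨y + y', fun W _ t x => by
      simp only [map_add, hy, hy', Pi.add_apply, add_mul, Finset.sum_add_distrib]⟩
  have h : ∀ k, m (some (.inr (k, 0))) + m (some (.inr (k, 1))) = E k := fun k => by
    have := congrFun (hP (mem_support_iff.1 hm)) k
    rw [Finsupp.weight_apply, Finsupp.sum_fintype _ _ (by simp)] at this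
    simpa [Fintype.sum_option, Fintype.sum_sum_type, Fintype.sum_prod_type, w, Pi.single_apply,
      Finset.sum_add_distrib] using this
  refine ⟨Pi.single (fun k => ⟨m (some (.inr (k, 1))), by have := h k; omega⟩)
    (C (coeff m P) * X none ^ m none * ∏ j, X (some j) ^ m (some (.inl j))), fun W _ t x => ?_⟩
  rw [Finset.sum_eq_single_of_mem _ (Finset.mem_univ _) fun j _ hj => by
    rw [Pi.single_eq_of_ne hj, map_zero, zero_mul], Pi.single_eq_same, eval₂Hom_monomial,
    Finsupp.prod_fintype _ _ (by simp)]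
  simp [Fintype.prod_option, Fintype.prod_sum_type, Fintype.prod_prod_type, pt, mon, ← h, mul_assoc]

theorem gen_hom (e : κ → ℕ) : IsWeightedHomogeneous (w (∀ k, Fin (e k + 1)))
    (∑ j, X (.inl j) * mon j fun v => X (.inr v) : MvPolynomial _ ℤ) e := by
  refine IsWeightedHomogeneous.sum _ _ _ fun j _ => ?_
  have h := (isWeightedHomogeneous_X ℤ (w (κ := κ) _) (.inl j)).mul
    (IsWeightedHomogeneous.prod Finset.univ _ _ fun k _ =>
      ((isWeightedHomogeneous_X ℤ (w _) (.inr (k, 0))).pow (e k - j k)).mul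
        ((isWeightedHomogeneous_X ℤ (w _) (.inr (k, 1))).pow (j k)))
  refine (congrArg _ (funext fun k => ?_)).mp h
  have := (j k).2
  simp [w, Pi.single_apply, Finset.sum_add_distrib]
  omega

theorem dvd_iff {W C : Type} [CommRing W] [IsDomain W] [ValuationRing W] [Field C] {f : W →+* C}
    (hf : Function.Injective f) {A : ValuationSubring C} {h : ∀ x, f x ∈ A.toSubring}
    (hl : IsLocalHom (f.codRestrict A.toSubring h)) (a b : W) :
    A.valuation (f a) ≤ A.valuation (f b) ↔ b ∣ a := by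
  refine ⟨fun hv => ?_, ?_⟩
  · rcases ValuationRing.dvd_total b a with h1 | ⟨c, rfl⟩
    · exact h1
    by_cases ha : a = 0
    · simp [ha]
    have h0 : 0 < A.valuation (f a) := (Valuation.pos_iff _).2 ((map_ne_zero_iff f hf).2 ha)
    rw [map_mul, map_mul, le_mul_iff_one_le_right h0] at hv
    have hc : IsUnit c := hl.1 c ((A.valuation_eq_one_iff ⟨f c, h c⟩).2
      (le_antisymm (A.valuation_le_one ⟨f c, h c⟩) hv))
    exact hc.mul_right_dvd.2 dvd_rfl
  · rintro ⟨c, rfl⟩
    rw [map_mul, map_mul]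
    exact mul_le_of_le_one_right' (A.valuation_le_one ⟨f c, h c⟩)

theorem ap_dvd (p : ℕ) [Fact p.Prime] {σ W : Type} [CommRing W] [IsDomain W] [ValuationRing W]
    (f : MvPolynomial σ ℤ) {n N k : ℕ} (hn : n ≤ N) (hk : N ≤ k) (z : Option σ → W)
    (ht : z none ^ p ^ k = p) (h : (p : W) ^ n ∣ ev z (ap p f N) ^ p ^ (k - N)) :
    (p : W) ^ n ∣ ev (fun i => z (some i) ^ p ^ k) f := by
  by_cases h0 : (p : W) = 0
  · have g := ghost_xs p _ (ev (fun i => WittVector.teichmuller p (z (some i))) f) k ht N hk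
    rw [map_ev, ghost_eq, Finset.sum_range_succ', ← ev_ap] at g
    simp only [WittVector.ghostComponent_teichmuller] at g
    rw [← g]
    simpa [h0] using h
  by_cases h1 : IsUnit (p : W)
  · exact (h1.pow n).dvd
  let ψ := algebraMap (FractionRing W) (AlgebraicClosure (FractionRing W))
  let φ := ψ.comp (algebraMap W _)
  have hφ : Function.Injective φ := ψ.injective.comp (IsFractionRing.injective W (FractionRing W))
  obtain ⟨A, hA, hl⟩ := IsLocalRing.exists_factor_valuationRing φ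
  have hv := dvd_iff hφ hl
  have p1 : A.valuation (φ p) < 1 := not_le.1 fun h2 =>
    h1 (isUnit_of_dvd_one ((hv 1 p).1 (by simpa using h2)))
  have g := ap_le p A.valuation (by simpa using (map_ne_zero_iff φ hφ).2 h0) (by simpa using p1)
    f N k hk (fun o => φ (z o)) (fun i => A.valuation_le_one ⟨_, hA _⟩)
    (by rw [← map_pow, ht, map_natCast])
  rw [← hv] at h ⊢
  simp only [map_ev, map_pow, map_natCast] at h p1 ⊢
  exact g.trans (max_le h (pow_le_pow_right_of_le_one' p1.le hn))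

end Apx0

open Apx0 in
theorem apx0 : APX0_s := by
  intro p _ κ _ _ e n
  refine ⟨n, fun r hr => ?_⟩
  obtain ⟨y, hy⟩ := expand (E := fun k => p ^ r * e k) (ap_hom p (gen_hom e) r)
  refine ⟨y, fun M hM W _ _ _ t x ht h => ?_⟩
  rw [← hy] at h
  simpa [pt, mon] using ap_dvd p _ hr (by omega) (pt t x) ht h

end Pool.Agent.MP_855f4c_ag.T

end

section

/-! Elkik's lifting theorem for henselian pairs. -/

set_option autoImplicit false

open MvPolynomial

namespace Pool.Agent.MP_855f4c_ag.G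

namespace Elk

variable {O S n m : Type} [CommRing O] [CommRing S] [Algebra O S] [Fintype n] [Fintype m]

omit [Fintype n] in
theorem taylor1 (J : Ideal S) (u v : n → S) (hv : ∀ j, v j ∈ J) (g : MvPolynomial n O) :
    aeval (u + v) g - aeval u g ∈ J := by
  induction g using MvPolynomial.induction_on with
  | C a => simp
  | add p q hp hq => convert J.add_mem hp hq using 1; simp only [map_add]; ring
  | mul_X p j hp =>
    convert J.add_mem (J.mul_mem_right (u j + v j) hp) (J.mul_mem_left (aeval u p) (hv j)) using 1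
    simp only [map_mul, aeval_X, Pi.add_apply]; ring

theorem taylor2 (J : Ideal S) (u v : n → S) (hv : ∀ j, v j ∈ J) (g : MvPolynomial n O) :
    aeval (u + v) g - aeval u g - ∑ j, aeval u (pderiv j g) * v j ∈ J ^ 2 := by
  classical
  induction g using MvPolynomial.induction_on with
  | C a => simp
  | add p q hp hq =>
    convert (J ^ 2).add_mem hp hq using 1
    simp only [map_add, add_mul, Finset.sum_add_distrib]; ring
  | mul_X p j hp =>
    have h1 : (∑ k, aeval u (pderiv k p) * v k) * v j ∈ J ^ 2 := by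
      rw [pow_two]
      exact Ideal.mul_mem_mul (J.sum_mem fun k _ => J.mul_mem_left _ (hv k)) (hv j)
    convert (J ^ 2).add_mem ((J ^ 2).mul_mem_right (u j + v j) hp) h1 using 1
    have h2 : ∑ k, aeval u (pderiv k (p * X j)) * v k =
        (∑ k, aeval u (pderiv k p) * v k) * u j + aeval u p * v j := by
      simp only [Derivation.leibniz, smul_eq_mul, map_add, map_mul, aeval_X, add_mul,
        Finset.sum_add_distrib, pderiv_X, Pi.single_apply]
      rw [add_comm, Finset.sum_mul]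
      congr 1
      · exact Finset.sum_congr rfl fun k _ => by ring
      · rw [Finset.sum_eq_single j (fun k _ hk => by simp [Ne.symm hk]) (by simp)]
        simp
    rw [h2]
    simp only [map_mul, aeval_X, Pi.add_apply]; ring

omit [Fintype n] in
theorem pderiv_sq (I : Ideal (MvPolynomial n O)) (j : n) {g : MvPolynomial n O} (hg : g ∈ I ^ 2) :
    pderiv j g ∈ I := by
  rw [pow_two] at hg
  refine Submodule.mul_induction_on hg (fun a ha b hb => ?_) fun a b ha hb => ?_
  · rw [Derivation.leibniz, smul_eq_mul, smul_eq_mul]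
    exact I.add_mem (I.mul_mem_right _ ha) (I.mul_mem_right _ hb)
  · rw [map_add]; exact I.add_mem ha hb

/-- The matrix `J M`. -/
noncomputable def EE (f : m → MvPolynomial n O) (M : n → m → MvPolynomial n O) (i k : m) :
    MvPolynomial n O := ∑ j, pderiv j (f i) * M j k

theorem EE_sq (f : m → MvPolynomial n O) (M : n → m → MvPolynomial n O) (δ : O)
    (h : ∀ i, C δ * f i - ∑ k, EE f M i k * f k ∈ Ideal.span (Set.range f) ^ 2) (i l : m) :
    C δ * EE f M i l - ∑ k, EE f M i k * EE f M k l ∈ Ideal.span (Set.range f) := by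
  have h1 : ∀ j, C δ * pderiv j (f i) - ∑ k, EE f M i k * pderiv j (f k) ∈
      Ideal.span (Set.range f) := by
    intro j
    have h2 : ∑ k, f k * pderiv j (EE f M i k) ∈ Ideal.span (Set.range f) :=
      Ideal.sum_mem _ fun k _ => Ideal.mul_mem_right _ _ (Ideal.subset_span ⟨k, rfl⟩)
    convert Ideal.add_mem _ (pderiv_sq _ j (h i)) h2 using 1
    simp only [map_sub, map_sum, Derivation.leibniz, smul_eq_mul, pderiv_C, mul_zero, add_zero,
      Finset.sum_add_distrib]
    ring
  have h3 := Ideal.sum_mem _ fun j (_ : j ∈ Finset.univ) => Ideal.mul_mem_right (M j l) _ (h1 j)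
  convert h3 using 1
  simp only [sub_mul, Finset.sum_sub_distrib]
  congr 1
  · rw [EE, Finset.mul_sum]; exact Finset.sum_congr rfl fun j _ => by ring
  · conv_lhs => enter [2, k]; rw [show EE f M k l = ∑ j, pderiv j (f k) * M j l from rfl,
      Finset.mul_sum]
    rw [Finset.sum_comm]
    refine Finset.sum_congr rfl fun j _ => ?_
    rw [Finset.sum_mul]
    exact Finset.sum_congr rfl fun k _ => by ring

omit [Fintype n] [Fintype m] in
theorem map_mem (f : m → MvPolynomial n O) (z : n → S) (e : ℕ) {g : MvPolynomial n O}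
    (hg : g ∈ Ideal.span (Set.range f) ^ e) :
    aeval z g ∈ Ideal.span (Set.range fun k => aeval z (f k)) ^ e := by
  have := Ideal.mem_map_of_mem (aeval z : MvPolynomial n O →ₐ[O] S) hg
  rwa [Ideal.map_pow, Ideal.map_span, ← Set.range_comp] at this

theorem elk0 {B : Type} [CommRing B] [Algebra O B] (f : m → MvPolynomial n O)
    (M : n → m → MvPolynomial n O) (δ : O)
    (h : ∀ i, C δ * f i - ∑ k, EE f M i k * f k ∈ Ideal.span (Set.range f) ^ 2)
    (I : Ideal B) (ε : B) (hI : Newt I) (hε : algebraMap O B δ ^ 2 ∣ ε) (a : n → B)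
    (ha : ∀ i, ∃ b ∈ I, aeval a (f i) = ε * algebraMap O B δ ^ 2 * b) :
    ∃ a' : n → B, (∀ j, ∃ b ∈ I, a' j - a j = ε * b) ∧
      ∀ i, algebraMap O B δ ^ 2 * aeval a' (f i) = 0 := by
  classical
  set d := algebraMap O B δ with hd
  obtain ⟨e, he⟩ := hε
  choose b hbI hb using ha
  let u : n → MvPolynomial m B := fun j => C (a j)
  let v : n → MvPolynomial m B := fun j => C ε * ∑ k, aeval u (M j k) * X k
  let J : Ideal (MvPolynomial m B) := Ideal.span (Set.range X)
  have hX : ∀ k, X k ∈ J := fun k => Ideal.subset_span ⟨k, rfl⟩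
  have hv : ∀ j, v j ∈ Ideal.span {(C ε : MvPolynomial m B)} * J := fun j =>
    Ideal.mul_mem_mul (Ideal.mem_span_singleton_self _)
      (J.sum_mem fun k _ => J.mul_mem_left _ (hX k))
  have hR : ∀ i, ∃ R ∈ J ^ 2, C ε ^ 2 * R = aeval (u + v) (f i) - aeval u (f i) -
      ∑ j, aeval u (pderiv j (f i)) * v j := fun i => by
    have := taylor2 _ u v hv (f i)
    rwa [mul_pow, Ideal.span_singleton_pow, Ideal.mem_span_singleton_mul] at this
  have hS : ∀ i k, ∃ R ∈ J, C ε * R = aeval (u + v) (EE f M i k) - aeval u (EE f M i k) :=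
    fun i k => Ideal.mem_span_singleton_mul.mp (taylor1 _ u v hv _)
  choose R hRJ hR using hR
  choose T hTJ hT using hS
  obtain ⟨μ, hμI, hμ⟩ := hI.strong (fun i => ∑ k, aeval (u + v) (EE f M i k) *
    (C (b k) + C e * (R k - ∑ l, T k l * X l))) fun i =>
      Ideal.sum_mem _ fun k _ => Ideal.mul_mem_left _ _ (Submodule.add_mem_sup
        (Ideal.mem_map_of_mem _ (hbI k)) (Ideal.mul_mem_left _ _ (Ideal.sub_mem _ (hRJ k)
          (Ideal.sum_mem _ fun l _ => pow_two J ▸ Ideal.mul_mem_mul (hTJ k l) (hX l)))))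
  have hJ : ∀ g ∈ J, eval μ g ∈ I := fun g hg =>
    (Ideal.span_le (I := I.comap (eval μ))).mpr (by rintro _ ⟨k, rfl⟩; simpa using hμI k) hg
  let φ : MvPolynomial m B →ₐ[O] B := (aeval μ : MvPolynomial m B →ₐ[B] B).restrictScalars O
  have hφ : ∀ g, φ g = eval μ g := fun g => rfl
  have hu : ∀ g : MvPolynomial n O, eval μ (aeval u g) = aeval a g := fun g => by
    rw [← hφ, comp_aeval_apply]; simp [hφ, u]
  obtain ⟨a', ha'⟩ : ∃ a' : n → B, a' = fun j => eval μ ((u + v) j) := ⟨_, rfl⟩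
  have hw : ∀ g : MvPolynomial n O, eval μ (aeval (u + v) g) = aeval a' g := fun g => by
    rw [← hφ, comp_aeval_apply, ha']; rfl
  have hv' : ∀ j, eval μ (v j) = ε * ∑ k, aeval a (M j k) * μ k := fun j => by
    simp only [v, map_mul, map_sum, eval_C, eval_X, hu]
  have hF : ∀ i, aeval a' (f i) = ε * d ^ 2 * b i +
      ε * ∑ l, aeval a (EE f M i l) * μ l + ε ^ 2 * eval μ (R i) := fun i => by
    have h1 := congrArg (eval μ) (hR i)
    simp only [map_sub, map_sum, map_mul, map_pow, eval_C, hu, hw, hv', hb] at h1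
    have h2 : ∑ j, aeval a (pderiv j (f i)) * (ε * ∑ k, aeval a (M j k) * μ k) =
        ε * ∑ l, aeval a (EE f M i l) * μ l := by
      simp only [EE, map_sum, map_mul, Finset.mul_sum, Finset.sum_mul]
      rw [Finset.sum_comm]
      exact Finset.sum_congr rfl fun _ _ => Finset.sum_congr rfl fun _ _ => by ring
    rw [h2] at h1
    linear_combination -h1
  have hE : ∀ i k, aeval a (EE f M i k) = aeval a' (EE f M i k) - ε * eval μ (T i k) :=
    fun i k => by
      have h1 := congrArg (eval μ) (hT i k)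
      simp only [map_sub, map_mul, eval_C, hu, hw] at h1
      linear_combination h1
  obtain ⟨E, hEd⟩ : ∃ E : Matrix m m B, E = Matrix.of fun i k => aeval a' (EE f M i k) := ⟨_, rfl⟩
  have hEa : ∀ i k, aeval a' (EE f M i k) = E i k := fun i k => by rw [hEd]; rfl
  obtain ⟨F, hFd⟩ : ∃ F : m → B, F = fun i => aeval a' (f i) := ⟨_, rfl⟩
  have hFa : ∀ i, aeval a' (f i) = F i := fun i => by rw [hFd]
  have hG : E.mulVec F + ε • (d ^ 2 • μ - E.mulVec (E.mulVec μ)) = 0 := by
    ext i
    have h1 := hμ i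
    simp only [map_sum, map_mul, map_add, map_sub, eval_C, eval_X, hw, hEa] at h1
    have h2 : ∀ k, F k = ε * (E.mulVec μ) k +
        ε * d ^ 2 * (b k + e * (eval μ (R k) - ∑ l, eval μ (T k l) * μ l)) := fun k => by
      rw [← hFa, hF]
      simp only [hE, hEa, sub_mul, Finset.sum_sub_distrib, Matrix.mulVec, dotProduct, mul_assoc ε,
        ← Finset.mul_sum]
      linear_combination ε * (eval μ (R k) - ∑ l, eval μ (T k l) * μ l) * he
    have h3 : E.mulVec F i = ε * E.mulVec (E.mulVec μ) i + ε * d ^ 2 *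
        ∑ k, E i k * (b k + e * (eval μ (R k) - ∑ l, eval μ (T k l) * μ l)) := by
      rw [Matrix.mulVec, dotProduct, Matrix.mulVec, dotProduct, Finset.mul_sum, Finset.mul_sum,
        ← Finset.sum_add_distrib]
      exact Finset.sum_congr rfl fun k _ => by rw [h2]; ring
    simp only [Pi.add_apply, Pi.smul_apply, Pi.sub_apply, smul_eq_mul, Pi.zero_apply, h3]
    linear_combination ε * d ^ 2 * h1
  refine ⟨a', fun j => ⟨∑ k, aeval a (M j k) * μ k, I.sum_mem fun k _ => I.mul_mem_left _ (hμI k),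
    by rw [ha', ← hv']; simp [u]⟩, ?_⟩
  simp only [hFa]
  obtain ⟨N, hN⟩ : ∃ N, N = Ideal.span (Set.range F) := ⟨_, rfl⟩
  have hFN : ∀ i, F i ∈ N := fun i => hN ▸ Ideal.subset_span ⟨i, rfl⟩
  have hNe : N ≤ Ideal.span {ε} * I := by
    rw [hN, Ideal.span_le]
    rintro _ ⟨i, rfl⟩
    rw [SetLike.mem_coe, Ideal.mem_span_singleton_mul, ← hFa, hF]
    exact ⟨d ^ 2 * b i + ∑ l, aeval a (EE f M i l) * μ l + ε * eval μ (R i),
      I.add_mem (I.add_mem (I.mul_mem_left _ (hbI i)) (I.sum_mem fun k _ => I.mul_mem_left _ (hμI k)))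
        (I.mul_mem_left _ (hJ _ (Ideal.pow_le_self two_ne_zero (hRJ i)))), by ring⟩
  have h1 : ∀ i, (d • F - E.mulVec F) i ∈ Ideal.span {ε} * I * N := fun i => by
    have := map_mem f a' 2 (h i)
    simp only [map_sub, map_mul, map_sum, aeval_C, hEa, hFa, ← hd, ← hN] at this
    rw [pow_two] at this
    exact Ideal.mul_mono_left hNe this
  have h2 : ∀ i l, (d • E - E * E) i l ∈ N := fun i l => by
    have := map_mem f a' 1 (by rw [pow_one]; exact EE_sq f M δ h i l)
    simp only [map_sub, map_mul, map_sum, aeval_C, hEa, hFa, ← hd, ← hN, pow_one] at this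
    exact this
  have h3 : d ^ 2 • F = d • (d • F - E.mulVec F) + E.mulVec (d • F - E.mulVec F) -
      ε • (d • E - E * E).mulVec (d • μ + E.mulVec μ) := by
    have := congrArg E.mulVec hG
    simp only [Matrix.mulVec_add, Matrix.mulVec_sub, Matrix.mulVec_smul, Matrix.mulVec_zero,
      Matrix.sub_mulVec, Matrix.smul_mulVec, ← Matrix.mulVec_mulVec] at this ⊢
    linear_combination (norm := module) this
  have h4 : ∀ i, d ^ 2 * F i ∈ Ideal.span {ε} * I * N := fun i => by
    have := congrFun h3 i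
    simp only [Pi.add_apply, Pi.smul_apply, Pi.sub_apply (_ + _), smul_eq_mul] at this
    rw [this]
    refine Ideal.sub_mem _ (Ideal.add_mem _ (Ideal.mul_mem_left _ _ (h1 i)) ?_) ?_
    · exact Ideal.sum_mem _ fun k _ => Ideal.mul_mem_left _ _ (h1 k)
    · rw [mul_assoc, mul_comm I]
      exact Ideal.mul_mem_mul (Ideal.mem_span_singleton_self _)
        (Ideal.sum_mem _ fun k _ => Ideal.mul_mem_mul (h2 i k) (I.add_mem
          (I.mul_mem_left _ (hμI k)) (I.sum_mem fun l _ => I.mul_mem_left _ (hμI l))))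
  have h5 : Ideal.span {d ^ 2} * N ≤ I • (Ideal.span {d ^ 2} * N) := by
    have h6 : Ideal.span {ε} * I * N ≤ I • (Ideal.span {d ^ 2} * N) := by
      rw [smul_eq_mul, ← mul_assoc, mul_comm I]
      exact Ideal.mul_mono_left (Ideal.mul_mono_left
        (Ideal.span_singleton_le_span_singleton.mpr ⟨e, he⟩))
    refine le_trans ?_ h6
    conv_lhs => rw [hN, Ideal.span_mul_span']
    rw [Ideal.span_le]
    rintro _ ⟨_, rfl, _, ⟨i, rfl⟩, rfl⟩
    exact h4 i
  obtain ⟨r, hr, hr0⟩ := Submodule.exists_sub_one_mem_and_smul_eq_zero_of_fg_of_le_smul _ _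
    (Submodule.FG.mul (Submodule.fg_span_singleton _)
      (hN ▸ Submodule.fg_span (Set.finite_range F))) h5
  intro i
  have := hr0 _ (Ideal.mul_mem_mul (Ideal.mem_span_singleton_self _) (hFN i))
  rwa [smul_eq_mul, ← add_sub_cancel 1 r, (hI.unit hr).mul_right_eq_zero] at this

theorem data {K A : Type} [CommRing K] [CommRing A] [Algebra K A] [Algebra.FormallySmooth K A]
    (x : n → A) (hx : Function.Surjective (aeval x : MvPolynomial n K →ₐ[K] A))
    (f : m → MvPolynomial n K)
    (hf : Ideal.span (Set.range f) = RingHom.ker (aeval x : MvPolynomial n K →ₐ[K] A)) :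
    ∃ M : n → m → MvPolynomial n K,
      ∀ i, f i - ∑ k, EE f M i k * f k ∈ Ideal.span (Set.range f) ^ 2 := by
  obtain ⟨g, hg⟩ := (Algebra.FormallySmooth.iff_split_surjection _ hx).mp inferInstance
  choose y hy using fun j => Ideal.Quotient.mk_surjective (g (x j))
  have h1 : ∀ j, X j - y j ∈ Ideal.span (Set.range f) := fun j => by
    have h := DFunLike.congr_fun hg (x j)
    rw [AlgHom.comp_apply, ← hy] at h
    rw [hf, RingHom.mem_ker, map_sub, aeval_X, sub_eq_zero]
    exact h.symm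
  choose M hM using fun j => Ideal.mem_span_range_iff_exists_fun.mp (h1 j)
  refine ⟨M, fun i => ?_⟩
  have h2 := taylor2 _ X (fun j => -(X j - y j)) (fun j => neg_mem (h1 j)) (f i)
  have h3 : aeval (X + fun j => -(X j - y j)) (f i) ∈ Ideal.span (Set.range f) ^ 2 := by
    have h4 : (X + fun j => -(X j - y j)) = y := by ext1 j; simp
    have h5 : aeval x (f i) = 0 := by
      rw [← RingHom.mem_ker, ← hf]; exact Ideal.subset_span ⟨i, rfl⟩
    have h6 : (Ideal.Quotient.mkₐ K _).comp (aeval y) = g.comp (aeval x) :=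
      MvPolynomial.algHom_ext fun j => by
        rw [AlgHom.comp_apply, AlgHom.comp_apply, aeval_X, aeval_X]; exact hy j
    have h7 := DFunLike.congr_fun h6 (f i)
    rw [AlgHom.comp_apply, AlgHom.comp_apply, h5, map_zero] at h7
    rw [h4, hf]
    exact Ideal.Quotient.eq_zero_iff_mem.mp h7
  convert Ideal.sub_mem _ h3 h2 using 1
  simp only [aeval_X_left_apply, ← hM, EE, Finset.sum_mul, Finset.mul_sum, mul_neg,
    Finset.sum_neg_distrib, mul_assoc]
  rw [Finset.sum_comm]
  ring

end Elk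

open Elk in
/-- Elkik: approximate solutions of the equations of a generically smooth algebra lift. -/
theorem elk {O K A n m : Type} [CommRing O] (π : O) [CommRing K] [Algebra O K]
    [IsLocalization.Away π K] [CommRing A] [Algebra K A] [Algebra.FormallySmooth K A] [Fintype n]
    [Fintype m] (x : n → A) (hx : Function.Surjective (aeval x : MvPolynomial n K →ₐ[K] A))
    (f : m → MvPolynomial n O)
    (hf : Ideal.span (Set.range fun i => map (algebraMap O K) (f i)) =
      RingHom.ker (aeval x : MvPolynomial n K →ₐ[K] A)) :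
    ∃ h : ℕ, ∀ (B : Type) [CommRing B] [Algebra O B] (I : Ideal B), Newt I →
      ∀ r : ℕ, h ≤ r → ∀ a : n → B,
        (∀ i, ∃ b ∈ I, aeval a (f i) = algebraMap O B π ^ (r + h) * b) →
        ∃ a' : n → B, (∀ j, ∃ b ∈ I, a' j - a j = algebraMap O B π ^ r * b) ∧
          ∀ i, algebraMap O B π ^ h * aeval a' (f i) = 0 := by
  classical
  obtain ⟨M, hM⟩ := data x hx _ hf
  let _ := (algebraMvPolynomial : Algebra (MvPolynomial n O) (MvPolynomial n K))
  have hL : IsLocalization (Submonoid.powers (C π : MvPolynomial n O)) (MvPolynomial n K) := by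
    have := MvPolynomial.isLocalization (σ := n) (Submonoid.powers π) K
    rwa [Submonoid.map_powers] at this
  have ha : ∀ g, algebraMap (MvPolynomial n O) (MvPolynomial n K) g = map (algebraMap O K) g :=
    fun _ => rfl
  obtain ⟨⟨_, s, rfl⟩, hs⟩ := IsLocalization.exist_integer_multiples_of_finite
    (Submonoid.powers (C π : MvPolynomial n O)) fun jk : n × m => M jk.1 jk.2
  choose M₁ hM₁ using hs
  have h1 : ∀ i, ∃ t : ℕ, C π ^ t * (C π ^ s * f i - ∑ k, EE f (fun j k => M₁ (j, k)) i k * f k) ∈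
      Ideal.span (Set.range f) ^ 2 := fun i => by
    have h2 : algebraMap (MvPolynomial n O) (MvPolynomial n K)
        (C π ^ s * f i - ∑ k, EE f (fun j k => M₁ (j, k)) i k * f k) ∈
        (Ideal.span (Set.range f) ^ 2).map (algebraMap _ (MvPolynomial n K)) := by
      rw [Ideal.map_pow, Ideal.map_span, ← Set.range_comp]
      have h3 : algebraMap (MvPolynomial n O) (MvPolynomial n K)
          (C π ^ s * f i - ∑ k, EE f (fun j k => M₁ (j, k)) i k * f k) =
          algebraMap (MvPolynomial n O) (MvPolynomial n K) (C π ^ s) * (map (algebraMap O K) (f i) -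
            ∑ k, EE (fun i => map (algebraMap O K) (f i)) M i k * map (algebraMap O K) (f k)) := by
        rw [map_sub, map_mul, map_sum, mul_sub, Finset.mul_sum, ha (f i)]
        refine congrArg _ (Finset.sum_congr rfl fun k _ => ?_)
        rw [map_mul, ha (f k), ← mul_assoc, EE, EE, map_sum, Finset.mul_sum]
        refine congrArg (· * _) (Finset.sum_congr rfl fun j _ => ?_)
        rw [map_mul, hM₁, Algebra.smul_def, ha (pderiv _ _), pderiv_map, mul_left_comm]
      rw [h3]
      exact Ideal.mul_mem_left _ _ (hM i)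
    obtain ⟨_, ⟨t, rfl⟩, ht⟩ := (IsLocalization.algebraMap_mem_map_algebraMap_iff
      (Submonoid.powers (C π : MvPolynomial n O)) _ _ _).mp h2
    exact ⟨t, ht⟩
  choose t ht using h1
  obtain ⟨t₀, ht₀⟩ := (Set.finite_range t).bddAbove
  have h2 : ∀ i, C (π ^ (t₀ + s)) * f i -
      ∑ k, EE f (fun j k => C π ^ t₀ * M₁ (j, k)) i k * f k ∈ Ideal.span (Set.range f) ^ 2 := by
    intro i
    obtain ⟨c, hc⟩ := Nat.exists_eq_add_of_le (ht₀ ⟨i, rfl⟩)
    convert Ideal.mul_mem_left _ (C π ^ c) (ht i) using 1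
    simp only [hc, EE, map_pow, mul_sub, Finset.mul_sum, Finset.sum_mul]
    congr 1
    · ring
    · exact Finset.sum_congr rfl fun _ _ => Finset.sum_congr rfl fun _ _ => by ring
  refine ⟨2 * (t₀ + s), fun B _ _ I hB r hr a hd => ?_⟩
  have h3 : algebraMap O B (π ^ (t₀ + s)) ^ 2 = algebraMap O B π ^ (2 * (t₀ + s)) := by
    rw [map_pow]; ring
  rw [← h3]
  exact elk0 f _ _ h2 I (algebraMap O B π ^ r) hB (h3 ▸ pow_dvd_pow _ hr) a
    fun i => by rw [h3, ← pow_add]; exact hd i

theorem newt_of {A : Type} [CommRing A] {I : Ideal A} (h : T.Newt A I) : Newt I :=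
  fun m _ Θ hΘ => h m Θ fun i => mem_map_C_iff.mp (hΘ i)

end Pool.Agent.MP_855f4c_ag.G

end

section

/-! Elkik's lifting theorem, rescaled. -/

set_option autoImplicit false

open MvPolynomial


namespace Pool.Agent.MP_855f4c_ag.T

/-- Scaling of the variables. -/
noncomputable def scl (n : Type) {K : Type} [CommRing K] (a : K) :
    MvPolynomial n K →ₐ[K] MvPolynomial n K := aeval fun j => C a * X j

theorem scl_scl {n K : Type} [CommRing K] {a b : K} (h : a * b = 1) (P : MvPolynomial n K) :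
    scl n b (scl n a P) = P :=
  DFunLike.congr_fun (MvPolynomial.algHom_ext (f := (scl n b).comp (scl n a)) (g := AlgHom.id _ _)
    fun j => by
      rw [AlgHom.comp_apply, scl, scl, aeval_X, map_mul, aeval_X, aeval_C, algebraMap_eq,
        ← mul_assoc, ← map_mul, h, map_one, one_mul, AlgHom.id_apply]) P

theorem elkA : ELK_s := by
  intro O K _ _ _ π _ n m _ _ g hg c c₂
  have := Fintype.ofFinite n
  have := Fintype.ofFinite m
  obtain ⟨u, hu⟩ : IsUnit (algebraMap O K π ^ c) := (IsLocalization.Away.algebraMap_isUnit π).pow c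
  let σ := scl n (u : K)
  let σ' := scl n (↑u⁻¹ : K)
  have h1 : ∀ P, σ (σ' P) = P := scl_scl u.inv_mul
  have h2 : ∀ P, σ' (σ P) = P := scl_scl u.mul_inv
  let x : n → MvPolynomial n K ⧸ Ideal.span (Set.range g) :=
    fun j => Ideal.Quotient.mkₐ K _ (C (u : K) * X j)
  have h3 : ∀ P : MvPolynomial n K, aeval x P = Ideal.Quotient.mk _ (σ P) := fun P => by
    rw [← Ideal.Quotient.mkₐ_eq_mk K, ← comp_aeval_apply]; rfl
  let _ := (algebraMvPolynomial : Algebra (MvPolynomial n O) (MvPolynomial n K))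
  have hL : IsLocalization (Submonoid.powers (C π : MvPolynomial n O)) (MvPolynomial n K) := by
    have := MvPolynomial.isLocalization (σ := n) (Submonoid.powers π) K
    rwa [Submonoid.map_powers] at this
  obtain ⟨⟨_, s, rfl⟩, hs⟩ := IsLocalization.exist_integer_multiples_of_finite
    (Submonoid.powers (C π : MvPolynomial n O)) fun i => σ' (g i)
  choose f hf using hs
  have hf' : ∀ i, map (algebraMap O K) (f i) = C (algebraMap O K π ^ s) * σ' (g i) := fun i => by
    have e1 : map (algebraMap O K) (f i) = map (algebraMap O K) (C π ^ s) * σ' (g i) :=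
      (hf i).trans (Algebra.smul_def _ _)
    rw [e1, map_pow, map_C, map_pow]
  have hs : IsUnit (algebraMap O K π ^ s) := (IsLocalization.Away.algebraMap_isUnit π).pow s
  obtain ⟨h, H⟩ := G.elk π x (fun y => by
      obtain ⟨P, rfl⟩ := Ideal.Quotient.mk_surjective y
      exact ⟨σ' P, by rw [h3, h1]⟩) f (by
    refine le_antisymm ?_ fun P hP => ?_
    · rw [Ideal.span_le]
      rintro _ ⟨i, rfl⟩
      simp only [SetLike.mem_coe, RingHom.mem_ker, hf', h3]
      rw [map_mul, h1, Ideal.Quotient.eq_zero_iff_mem]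
      exact Ideal.mul_mem_left _ _ (Ideal.subset_span ⟨i, rfl⟩)
    · rw [RingHom.mem_ker, h3, Ideal.Quotient.eq_zero_iff_mem] at hP
      have e1 : Ideal.span (Set.range g) ≤
          (Ideal.span (Set.range fun i => map (algebraMap O K) (f i))).comap σ' := by
        rw [Ideal.span_le]
        rintro _ ⟨i, rfl⟩
        rw [SetLike.mem_coe, Ideal.mem_comap, ← Ideal.unit_mul_mem_iff_mem _ (hs.map C), ← hf']
        exact Ideal.subset_span ⟨i, rfl⟩
      have e2 := e1 hP
      rwa [Ideal.mem_comap, h2] at e2)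
  refine ⟨h + c + c₂ + h, fun B B' _ _ _ _ _ χ I z hχ hI hz hgz => ?_⟩
  choose w hw using hz
  let ι := RingHom.kerLift (algebraMap B B')
  have hιi : Function.Injective ι := RingHom.kerLift_injective _
  have hι : ∀ b, ι (algebraMap B _ b) = algebraMap B B' b := fun b => rfl
  have hι' : ∀ o, ι (algebraMap O _ o) = χ (algebraMap O K o) := fun o => (hχ o).symm
  have h4 : ∀ (a : n → B ⧸ RingHom.ker (algebraMap B B')) (i : m), ι (aeval a (f i)) =
      χ (algebraMap O K π) ^ s * eval₂ χ (fun j => χ ↑u⁻¹ * ι (a j)) (g i) := fun a i => by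
    have e1 : ∀ P : MvPolynomial n O, ι (aeval a P) =
        eval₂Hom χ (fun j => ι (a j)) (map (algebraMap O K) P) := fun P => by
      rw [map_aeval, eval₂Hom_map_hom]
      exact eval₂Hom_congr (RingHom.ext hι') rfl rfl
    have e2 : ∀ P, eval₂Hom χ (fun j => ι (a j)) (σ' P) =
        eval₂Hom χ (fun j => χ ↑u⁻¹ * ι (a j)) P := fun P => by
      rw [show σ' P = aeval (fun j => C (↑u⁻¹ : K) * X j) P from rfl, map_aeval]
      exact eval₂Hom_congr (RingHom.ext fun k => by simp) (funext fun j => by simp) rfl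
    rw [e1, hf', map_mul, e2, eval₂Hom_C, map_pow]
    rfl
  have h5 : χ ↑u⁻¹ * χ (algebraMap O K π) ^ c = 1 := by
    rw [← map_pow, ← hu, ← map_mul, Units.inv_mul, map_one]
  have h6 : ∀ j, χ ↑u⁻¹ * ι (algebraMap B _ (w j)) = z j := fun j => by
    rw [hι, ← hw, ← mul_assoc, h5, one_mul]
  obtain ⟨a, h7, h8⟩ := H (B ⧸ RingHom.ker (algebraMap B B')) _ (G.newt_of hI).finite (h + c + c₂)
    (by omega) (fun j => algebraMap B _ (w j)) fun i => by
      obtain ⟨b, hb, e⟩ := hgz i
      refine ⟨algebraMap O _ π ^ s * algebraMap B _ b,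
        Ideal.mul_mem_left _ _ (Ideal.mem_map_of_mem _ hb), hιi ?_⟩
      rw [h4, funext h6, e, map_mul, map_mul, map_pow, map_pow, hι', hι]
      ring
  refine ⟨fun j => χ ↑u⁻¹ * ι (a j), fun j => ?_, fun i => ?_⟩
  · obtain ⟨b', hb', e⟩ := h7 j
    obtain ⟨b, hb, rfl⟩ := (Ideal.mem_map_iff_of_surjective _ Ideal.Quotient.mk_surjective).mp hb'
    refine ⟨algebraMap O B π ^ h * b, I.mul_mem_left _ hb, ?_⟩
    have e1 := congrArg ι e
    rw [map_sub, map_mul, map_pow, hι', RingHom.kerLift_mk] at e1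
    rw [← h6, ← mul_sub, e1, map_mul, map_pow, ← hχ]
    linear_combination χ (algebraMap O K π) ^ (h + c₂) * algebraMap B B' b * h5
  · have e1 := congrArg ι (h8 i)
    have hπ : IsUnit (χ (algebraMap O K π)) := (IsLocalization.Away.algebraMap_isUnit π).map χ
    rwa [map_mul, map_pow, hι', h4, map_zero, (hπ.pow h).mul_right_eq_zero,
      (hπ.pow s).mul_right_eq_zero] at e1

end Pool.Agent.MP_855f4c_ag.T

end

section

/-! Rows NULL and PERM. -/

set_option autoImplicit false

open MvPolynomial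

namespace Pool.Agent.MP_855f4c_ag.T

open G.La

namespace Np

variable {κ : Type} [Fintype κ] [DecidableEq κ] (K : Type) [CommRing K]

/-- The relations. -/
noncomputable def rl (k : κ) : MvPolynomial (XY κ) K :=
  ∑ i, X (.inr (k, i)) * X (.inl (k, i)) - 1

omit [Fintype κ] in
theorem rl_hg (k : κ) : Hg 0 (rl K k) := by
  refine (IsWeightedHomogeneous.sum _ _ _ fun i _ => ?_).sub (isWeightedHomogeneous_one K _)
  have := (isWeightedHomogeneous_X K wt (.inr (k, i) : XY κ)).mul
    (isWeightedHomogeneous_X K wt (.inl (k, i)))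
  rwa [show wt (.inr (k, i) : XY κ) + wt (.inl (k, i)) = 0 by simp [wt, ← Pi.single_add]] at this

variable {K}

omit [Fintype κ] [DecidableEq κ] in
theorem rl_ev {D : Type} [CommRing D] (χ : K →+* D) (a : XY κ → D) :
    (∀ k, eval₂Hom χ a (rl K k) = 0) ↔ Rel a := by
  simp [rl, Rel, sub_eq_zero]

omit [DecidableEq κ] in
theorem mem {τ : Type} [Fintype τ] {f : τ → MvPolynomial (XY κ) K} {g : MvPolynomial (XY κ) K}
    (h : g ∈ Ideal.span (Set.range (Sum.elim (rl K) f))) :
    ∃ b : τ → MvPolynomial (XY κ) K, ∀ (D : Type) [CommRing D] (χ : K →+* D) (a : XY κ → D),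
      Rel a → eval₂Hom χ a g = ∑ t, eval₂ χ a (b t) * eval₂ χ a (f t) := by
  obtain ⟨c, rfl⟩ := Ideal.mem_span_range_iff_exists_fun.1 h
  refine ⟨fun t => c (.inr t), fun D _ χ a ha => ?_⟩
  simp only [Fintype.sum_sum_type, map_add, map_sum, map_mul, Sum.elim_inl, Sum.elim_inr,
    (rl_ev χ a).2 ha, mul_zero, Finset.sum_const_zero, zero_add, coe_eval₂Hom]

omit [DecidableEq κ] in
theorem ones : (Finsupp.equivFunOnFinite.symm 1 : κ →₀ ℕ) = ∑ k, Finsupp.single k 1 :=
  Finsupp.ext fun k => (one_apply k).symm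

omit [DecidableEq κ] in
theorem lin_eq : (lin : (κ → ℤ) → _) = fun a => ∑ k, a k • (X k : MvPolynomial κ ℤ) :=
  funext fun _ => Finset.sum_congr rfl fun _ _ => C_mul'

end Np

open Np

theorem null : NULL_s := by
  intro K Ω _ _ _ _ κ _ _ ι τ _ _ f n hf
  have z (a : XY κ → Ω) (h : ∀ i, aeval a (Sum.elim (rl K) f i) = 0) :
      Rel a ∧ ∀ t, aeval a (f t) = 0 :=
    ⟨(rl_ev (algebraMap K Ω) a).1 fun k => h (.inl k), fun t => h (.inr t)⟩
  refine ⟨fun q m hq h => ?_, fun P h => ?_⟩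
  · obtain ⟨lam, h1, h2⟩ := wns Ω wt (r := Sum.elim (rl K) f) (ρ := Sum.elim 0 n)
      (fun i => by cases i; exacts [rl_hg K _, hf _]) hq fun a ha => h a (z a ha).1 (z a ha).2
    obtain ⟨b, hb⟩ := mem h2
    refine ⟨lam, b, h1, fun D _ χ a ha => ?_⟩
    rw [← hb D χ a ha]
    simp
  · obtain ⟨N, hN⟩ := ns Ω (Sum.elim (rl K) f) P fun a ha => h a (z a ha).1 (z a ha).2
    obtain ⟨b, hb⟩ := mem (Ideal.mul_mem_right P _ hN)
    refine ⟨N + 1, b, N.succ_pos, fun D _ χ a ha => ?_⟩
    rw [← hb D χ a ha]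
    simp [pow_succ]

theorem perm : PERM_s := by
  intro κ _ _ R _ x hc h2 L K hK hK' h
  rw [top, ones, lin_eq] at h ⊢
  have e : K.length = Fintype.card κ := by
    rw [← List.toFinset_card_of_nodup hK,
      Finset.eq_univ_of_forall fun k => List.mem_toFinset.2 (hK' k), Finset.card_univ]
  exact ⟨(len_eq L h).trans e.symm, G.La.perm x hc h2 L (len_eq L h) K hK hK'⟩

end Pool.Agent.MP_855f4c_ag.T

end

section

/-! Row L, algebraic part: from blocks of independent vectors to a product of projective lines. -/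

set_option autoImplicit false

open MvPolynomial

namespace Pool.Agent.MP_855f4c_ag.T.Lr

open G.La

section genf
variable {κ : Type} [Fintype κ] [DecidableEq κ] {K : Type} [CommRing K]

/-- A multihomogeneous polynomial is a combination of the monomials `mon`. -/
theorem genf {e : κ → ℕ} {f : MvPolynomial (XV κ) K}
    (hf : f.IsWeightedHomogeneous (fun v => (Pi.single v.1 1 : κ → ℤ)) fun k => e k) :
    ∃ cf : (∀ k, Fin (e k + 1)) → K, ∀ (D : Type) [CommRing D] (χ : K →+* D) (x : XV κ → D),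
      eval₂Hom χ x f = ∑ j, χ (cf j) * mon j x := by
  induction hf using IsWeightedHomogeneous.induction_on with
  | zero => exact ⟨0, fun D _ χ x => by simp⟩
  | add _ _ _ _ h h' =>
    obtain ⟨c, h⟩ := h
    obtain ⟨c', h'⟩ := h'
    exact ⟨c + c', fun D _ χ x => by
      simp only [map_add, h, h', Pi.add_apply, add_mul, Finset.sum_add_distrib]⟩
  | monomial d r hr =>
    have h (k) : d (k, 0) + d (k, 1) = e k := by
      have := congrFun hr k
      rw [Finsupp.weight_apply, Finsupp.sum_fintype _ _ (by simp), Finset.sum_apply] at this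
      simp only [Pi.smul_apply, Pi.single_apply, Fintype.sum_prod_type, Fin.sum_univ_two,
        smul_ite, smul_zero, Finset.sum_add_distrib, Finset.sum_ite_eq, Finset.mem_univ, if_true,
        nsmul_one] at this
      exact_mod_cast this
    let j₀ : ∀ k, Fin (e k + 1) := fun k => ⟨d (k, 1), by have := h k; omega⟩
    refine ⟨Pi.single j₀ r, fun D _ χ x => ?_⟩
    rw [Finset.sum_eq_single j₀ (fun j _ hj => by simp [Pi.single_eq_of_ne hj]) (by simp),
      Pi.single_eq_same, eval₂Hom_monomial, Finsupp.prod_fintype _ _ (by simp),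
      Fintype.prod_prod_type, mon]
    refine congrArg _ (Finset.prod_congr rfl fun k _ => ?_)
    rw [Fin.prod_univ_two, show e k - j₀ k = d (k, 0) by have := h k; simp only [j₀]; omega]

omit [DecidableEq κ] in
theorem sg_lin {Λ : Type} [Fintype Λ] [DecidableEq Λ] (π : κ → Λ) (n : Λ → ℤ) :
    sg π (lin n) = lin fun k => n (π k) := by
  simp only [lin, map_sum, map_mul, sg, aeval_X, aeval_C, algebraMap_eq, Finset.mul_sum]
  rw [← Finset.sum_fiberwise Finset.univ π]
  exact Finset.sum_congr rfl fun l _ => Finset.sum_congr rfl fun k hk => by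
    rw [(Finset.mem_filter.1 hk).2]

theorem lin_sub (i j : κ) : lin (Pi.single j 1 - Pi.single i 1) = X j - X i := by
  simp [lin, Pi.single_apply, sub_mul]

end genf

section
variable {β : Type} (k n : β → ℕ)

/-- The vectors. -/
abbrev LL : Type := Σ b, Fin (k b)

/-- Their coordinates. -/
abbrev VV : Type := Σ l : LL k, Fin (n l.1 + 1)

/-- The projective lines. -/
abbrev KK : Type := Σ l : LL k, Fin (n l.1)

/-- The pairs `i < j` in one block. -/
abbrev TT : Type := Σ b, Σ i : Fin (k b), Finset.Ioi i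

variable {k n}

/-- The coefficients of the products of the linear forms. -/
noncomputable def V {D : Type} [CommRing D] (x : XV (KK k n) → D) (t : VV k n) : D :=
  vec (fun j => x (⟨t.1, j⟩, 0)) (fun j => x (⟨t.1, j⟩, 1)) t.2

theorem V_map {D E : Type} [CommRing D] [CommRing E] (φ : D →+* E) (x : XV (KK k n) → D)
    (t : VV k n) : φ (V x t) = V (fun v => φ (x v)) t := vec_map φ _ _ _

/-- Weights on the lines from weights on the vectors. -/
def wφ : (LL k → ℕ) →+ (KK k n → ℤ) where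
  toFun e := fun j => e j.1
  map_zero' := rfl
  map_add' _ _ := funext fun _ => Nat.cast_add _ _

variable [DecidableEq β]

theorem V_hom {K σ : Type} [CommRing K] (w : σ → KK k n → ℤ) (g : XV (KK k n) → σ)
    (hg : ∀ v, w (g v) = Pi.single v.1 1) (t : VV k n) :
    (V (fun v => (X (g v) : MvPolynomial σ K)) t).IsWeightedHomogeneous w
      (wφ (Pi.single t.1 1)) := by
  have : wφ (Pi.single t.1 1) = ∑ j : Fin (n t.1.1), (Pi.single ⟨t.1, j⟩ 1 : KK k n → ℤ) := by
    funext ⟨l, i⟩
    obtain ⟨l', a⟩ := t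
    by_cases h : l = l'
    · subst h
      simp [wφ, Pi.single_apply]
    · simp [wφ, h]
  rw [this]
  exact vec_hom w (fun j => hg (⟨t.1, j⟩, 0) ▸ isWeightedHomogeneous_X K w _)
    (fun j => hg (⟨t.1, j⟩, 1) ▸ isWeightedHomogeneous_X K w _) _

variable [Fintype β]

theorem card_fib (l : LL k) :
    (Finset.univ.filter fun j : KK k n => j.1 = l).card = n l.1 := by
  rw [Finset.card_filter, Fintype.sum_sigma, Finset.sum_eq_single l (by simp +contextual) (by simp)]
  simp

theorem lred (K Ω : Type) [Field K] [Field Ω] [IsAlgClosed Ω] [Algebra K Ω] {c : ℕ} {ι : Type}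
    (F : Fin c → MvPolynomial (VV k n) K) (e : Fin c → LL k → ℕ)
    (q : ι → MvPolynomial (VV k n) K) (m : LL k → ℕ)
    (hF : ∀ a, (F a).IsWeightedHomogeneous (fun t => Pi.single t.1 1) (e a))
    (hq : ∀ i, (q i).IsWeightedHomogeneous (fun t => Pi.single t.1 1) m) (P : (ι → Ω) → Prop)
    (H1 : ∀ v : VV k n → Ω, (∀ b, LinearIndependent Ω fun (i : Fin (k b)) (a : Fin (n b + 1)) =>
      v ⟨⟨b, i⟩, a⟩) →
      (∀ a, aeval v (F a) = 0) → P fun i => aeval v (q i)) (d : ℕ)
    (H2 : coeff (Finsupp.equivFunOnFinite.symm fun l : LL k => n l.1)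
      ((∏ b, ∏ i : Fin (k b), ∏ j ∈ Finset.Ioi i, (X ⟨b, j⟩ - X ⟨b, i⟩)) ^ 2 *
        lin (fun l => m l) ^ d * ∏ a, lin fun l => e a l) ≠ 0) :
    ∃ (e' : Fin c → KK k n → ℕ) (cf : MI e' → K) (s : TT k → MvPolynomial (XY (KK k n)) K)
      (ns : TT k → KK k n → ℤ) (q' : ι → MvPolynomial (XY (KK k n)) K) (m' : KK k n → ℤ),
      (∀ t, Hg (ns t) (s t)) ∧ (∀ i, Hg m' (q' i)) ∧
      (∀ a : XY (KK k n) → Ω, Rel a → (∀ j, gen (algebraMap K Ω ∘ cf) j (a ∘ Sum.inl) = 0) →
        (∀ t, aeval a (s t) = 0) → P fun i => aeval a (q' i)) ∧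
      top ((∏ t, lin (ns t)) ^ 2 * lin m' ^ d * ∏ a, lin fun j => e' a j) ≠ 0 := by
  let v : VV k n → MvPolynomial (XY (KK k n)) K := V fun x => X (.inl x)
  have hv (t) : Hg (wφ (Pi.single t.1 1)) (v t) := V_hom wt Sum.inl (fun _ => rfl) t
  have ev (a : XY (KK k n) → Ω) (t) : aeval a (v t) = V (a ∘ Sum.inl) t :=
    (V_map (aeval a : _ →ₐ[K] Ω).toRingHom _ t).trans (congrArg (V · t) (funext fun _ => by simp))
  choose lam _ hl hl' using fun l : LL k => (null K Ω (KK k n) (Fin (n l.1 + 1)) Empty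
    (fun t => t.elim) (fun t => t.elim) fun t => t.elim).1 (fun a => v ⟨l, a⟩)
    (wφ (Pi.single l 1)) (fun a => hv ⟨l, a⟩) fun a ha _ => by
      obtain ⟨i, hi, h⟩ := vec_ne (x := fun j => a (.inl (⟨l, j⟩, 0)))
        (y := fun j => a (.inl (⟨l, j⟩, 1))) fun j => by
          by_contra! h
          simpa [h.1, h.2] using ha ⟨l, j⟩
      exact ⟨⟨i, by simpa using Nat.lt_succ_of_le hi⟩, by rwa [ev]⟩
  choose cf hcf using fun a => genf (e := fun j : KK k n => e a j.1)
    (subst _ wφ (V_hom (K := K) _ id fun _ => rfl) (hF a))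
  refine ⟨fun a j => e a j.1, fun i => cf i.1 i.2,
    fun t => ∑ a, lam ⟨t.1, t.2.1⟩ a * v ⟨⟨t.1, t.2.2⟩, a⟩,
    fun t j => (Pi.single ⟨t.1, t.2.2⟩ 1 - Pi.single ⟨t.1, t.2.1⟩ 1 : LL k → ℤ) j.1,
    fun i => aeval v (q i), wφ m, fun t => IsWeightedHomogeneous.sum _ _ _ fun a _ => ?_,
    fun i => subst _ wφ hv (hq i), fun a ha hf hs => ?_, ?_⟩
  · convert (hl ⟨t.1, t.2.1⟩ a).mul (hv ⟨⟨t.1, t.2.2⟩, a⟩) using 1
    funext j
    simp [wφ, Pi.single_apply, neg_add_eq_sub]
  · have e1 (G : MvPolynomial (VV k n) K) : aeval a (aeval v G) = aeval (V (a ∘ Sum.inl)) G := by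
      rw [← AlgHom.comp_apply, comp_aeval, funext (ev a)]
    simp only [e1]
    refine H1 _ (fun b => tri _ (fun i => ∑ x, aeval a (lam ⟨b, i⟩ x) • LinearMap.proj x)
      (fun i => ?_) fun i j h => ?_) fun j => ?_
    · simpa [← ev, aeval_def] using hl' ⟨b, i⟩ Ω (algebraMap K Ω) a ha
    · simpa [← ev] using hs ⟨b, i, j, Finset.mem_Ioi.2 h⟩
    · refine Eq.trans ?_ ((hcf j Ω (algebraMap K Ω) (a ∘ Sum.inl)).trans (hf j))
      rw [← aeval_eq_eval₂Hom, ← AlgHom.comp_apply, comp_aeval]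
      exact congrArg (aeval · (F j)) (funext fun t => ((V_map (aeval (a ∘ Sum.inl) :
        _ →ₐ[K] Ω).toRingHom _ t).trans (congrArg (V · t) (funext fun _ => by simp))).symm)
  · have h := coef (fun j : KK k n => j.1) (Finsupp.equivFunOnFinite.symm fun l : LL k => n l.1)
      card_fib ((∏ b, ∏ i : Fin (k b), ∏ j ∈ Finset.Ioi i, (X ⟨b, j⟩ - X ⟨b, i⟩)) ^ 2 *
        lin (fun l => m l) ^ d * ∏ a, lin fun l => e a l)
    simp only [← lin_sub, map_mul, map_pow, map_prod, sg_lin] at h
    simp only [← lin_sub] at H2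
    rw [top, Np.ones, Fintype.prod_sigma]
    simp only [Fintype.prod_sigma]
    refine fun h0 => mul_ne_zero (Nat.cast_ne_zero.2 (Finset.prod_ne_zero_iff.2 fun _ _ =>
      Nat.factorial_ne_zero _)) H2 (h.symm.trans (Eq.trans ?_ h0))
    congr 4
    refine Finset.prod_congr rfl fun b _ => Finset.prod_congr rfl fun i _ => ?_
    exact (Finset.prod_coe_sort _ _).symm

end

end Pool.Agent.MP_855f4c_ag.T.Lr

end

section

/-! Conditions on zeros do not depend on the algebraically closed field. -/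

set_option autoImplicit false

open MvPolynomial

namespace Pool.Agent.MP_855f4c_ag.T.Lr

open G.La

variable {K : Type} (Ω Ω' : Type) [Field K] [Field Ω] [IsAlgClosed Ω] [Algebra K Ω] [Field Ω']
  [Algebra K Ω']

theorem tr0 {σ τ : Type} [Finite σ] (r : τ → MvPolynomial σ K) (g : MvPolynomial σ K)
    (h : ∀ x : σ → Ω, (∀ t, aeval x (r t) = 0) → aeval x g = 0) (x : σ → Ω')
    (hx : ∀ t, aeval x (r t) = 0) : aeval x g = 0 := by
  obtain ⟨N, hN⟩ := ns Ω r g h
  have : Ideal.span (Set.range r) ≤ RingHom.ker (aeval x : _ →ₐ[K] Ω') :=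
    Ideal.span_le.2 (Set.range_subset_iff.2 hx)
  exact eq_zero_of_pow_eq_zero ((map_pow _ g N).symm.trans (this hN))

theorem tr1 {σ τ ι : Type} [Finite σ] (r : τ → MvPolynomial σ K) (q : ι → MvPolynomial σ K)
    (S : MvPolynomial ι K → Prop)
    (h : ∀ x : σ → Ω, (∀ t, aeval x (r t) = 0) → (∃ i, aeval x (q i) ≠ 0) ∧
      ∀ G, S G → aeval (fun i => aeval x (q i)) G = 0) (x : σ → Ω')
    (hx : ∀ t, aeval x (r t) = 0) :
    (∃ i, aeval x (q i) ≠ 0) ∧ ∀ G, S G → aeval (fun i => aeval x (q i)) G = 0 := by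
  refine ⟨by_contra fun H => one_ne_zero ((map_one (aeval x : _ →ₐ[K] Ω')).symm.trans
    (tr0 Ω Ω' (Sum.elim r q) 1 (fun y hy => ?_) x fun t => ?_)), fun G hG => ?_⟩
  · obtain ⟨i, hi⟩ := (h y fun t => hy (.inl t)).1
    exact (hi (hy (.inr i))).elim
  · cases t with
    | inl t => exact hx t
    | inr i => exact by_contra fun e => H ⟨i, e⟩
  · have := tr0 Ω Ω' r (aeval q G) (fun y hy => by
      rw [← AlgHom.comp_apply, comp_aeval]; exact (h y hy).2 G hG) x hx
    rwa [← AlgHom.comp_apply, comp_aeval] at this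

/-- The condition (H1') passes from `Ω` to `Ω'`. -/
theorem tr2 {κ τ ι : Type} [Fintype κ] [DecidableEq κ] {c : ℕ} {e : Fin c → κ → ℕ} (cf : MI e → K)
    (s : τ → MvPolynomial (XY κ) K) (q : ι → MvPolynomial (XY κ) K) (S : MvPolynomial ι K → Prop)
    (h : ∀ a : XY κ → Ω, Rel a → (∀ j, gen (algebraMap K Ω ∘ cf) j (a ∘ Sum.inl) = 0) →
      (∀ t, aeval a (s t) = 0) → (∃ i, aeval a (q i) ≠ 0) ∧
      ∀ G, S G → aeval (fun i => aeval a (q i)) G = 0) (a : XY κ → Ω') (h1 : Rel a)
    (h2 : ∀ j, gen (algebraMap K Ω' ∘ cf) j (a ∘ Sum.inl) = 0) (h3 : ∀ t, aeval a (s t) = 0) :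
    (∃ i, aeval a (q i) ≠ 0) ∧ ∀ G, S G → aeval (fun i => aeval a (q i)) G = 0 := by
  have e1 (D : Type) [CommRing D] [Algebra K D] (a : XY κ → D) (j) :
      aeval a (gen (C ∘ cf) j (X ∘ Sum.inl) : MvPolynomial (XY κ) K) =
        gen (algebraMap K D ∘ cf) j (a ∘ Sum.inl) := by simp [gen, mon]
  refine tr1 Ω Ω' (Sum.elim (Np.rl K) (Sum.elim (fun j => gen (C ∘ cf) j (X ∘ Sum.inl)) s)) q S
    (fun y hy => h y ((Np.rl_ev (algebraMap K Ω) y).1 fun k => hy (.inl k))
      (fun j => (e1 Ω y j).symm.trans (hy (.inr (.inl j)))) fun t => hy (.inr (.inr t))) a ?_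
  rintro (k | j | t)
  exacts [(Np.rl_ev (algebraMap K Ω') a).2 h1 k, (e1 Ω' a j).trans (h2 j), h3 t]

end Pool.Agent.MP_855f4c_ag.T.Lr

end

section

/-! Translation of the valuative criterion and of Elkik's theorem to the texts of `A0`. -/

set_option autoImplicit false

open MvPolynomial

namespace Pool.Agent.MP_855f4c_ag.T

theorem intg : INTG_s := fun _ _ _ _ _ _ _ w h => G.vint w fun L _ _ ψ W hW => h L W ψ hW

theorem HBR2.newt {A : Type} [CommRing A] {I : Ideal A} (h : Newt A I) : G.Newt I :=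
  fun m _ T hT => h m T fun i n => mem_map_C_iff.1 (hT i) n

theorem elk (h : G.ELK_s) : ELK_s := by
  intro O K _ _ _ ϖ _ ν ρ _ _ g hs c c₂
  have := Fintype.ofFinite ν
  have := Fintype.ofFinite ρ
  have e : (aeval fun j => Ideal.Quotient.mk (Ideal.span (Set.range g)) (X j) :
      MvPolynomial ν K →ₐ[K] _) = Ideal.Quotient.mkₐ K (Ideal.span (Set.range g)) :=
    algHom_ext fun j => by simp
  obtain ⟨c₁, h₁⟩ := h O K (MvPolynomial ν K ⧸ Ideal.span (Set.range g)) ν ρ ϖ
    (fun j => Ideal.Quotient.mk _ (X j)) g (by rw [e]; exact Ideal.Quotient.mkₐ_surjective K _)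
    (by rw [e]; exact (Ideal.Quotient.mkₐ_ker K _).symm) c c₂
  refine ⟨c₁, fun C C' _ _ _ _ _ χ 𝔟 z₀ hχ hN h0 hg => ?_⟩
  let _ : Algebra K C' := χ.toAlgebra
  let _ : Algebra O C' := ((algebraMap C C').comp (algebraMap O C)).toAlgebra
  have : IsScalarTower O C C' := .of_algebraMap_eq fun _ => rfl
  have : IsScalarTower O K C' := .of_algebraMap_eq fun o => (hχ o).symm
  have hw : algebraMap O C' ϖ = χ (algebraMap O K ϖ) := (hχ ϖ).symm
  obtain ⟨φ, hφ⟩ := h₁ C C' 𝔟 (HBR2.newt hN) z₀ (by rw [hw]; exact h0) (by rw [hw]; exact hg)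
  refine ⟨fun j => φ (Ideal.Quotient.mk _ (X j)), fun j => ?_, fun i => ?_⟩
  · obtain ⟨b, hb, e⟩ := hφ j
    exact ⟨b, hb, by rw [← hw]; exact sub_eq_of_eq_add' e⟩
  · have e' : (aeval fun j => φ (Ideal.Quotient.mk _ (X j)) : MvPolynomial ν K →ₐ[K] C') =
        φ.comp (Ideal.Quotient.mkₐ K (Ideal.span (Set.range g))) := algHom_ext fun j => by simp
    have h0 : Ideal.Quotient.mkₐ K (Ideal.span (Set.range g)) (g i) = 0 :=
      Ideal.Quotient.eq_zero_iff_mem.2 (Ideal.subset_span ⟨i, rfl⟩)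
    change aeval _ (g i) = 0
    rw [e', AlgHom.comp_apply, h0, map_zero]

end Pool.Agent.MP_855f4c_ag.T

end

section

/-! Rows NEWT and HP in the texts of `A0`. -/

set_option autoImplicit false

open MvPolynomial

namespace Pool.Agent.MP_855f4c_ag.T

namespace HBR

variable {A : Type} [CommRing A] {I : Ideal A}

theorem ofG (h : G.Newt I) : Newt A I := fun ν _ Θ hΘ =>
  let _ := Fintype.ofFinite ν
  h ν Θ fun i => mem_map_C_iff.2 (hΘ i)

theorem aeval0 {ν : Type} {P : MvPolynomial ν A} (h : P ∈ I.map C) (x : ν → A ⧸ I) :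
    aeval x P = 0 := by
  refine (Ideal.map_le_iff_le_comap.2 fun a ha => ?_ : I.map C ≤ RingHom.ker (aeval x)) h
  rw [Ideal.mem_comap, RingHom.mem_ker, aeval_C]
  exact Ideal.Quotient.eq_zero_iff_mem.2 ha

theorem newt (h : Hens A I) : Newt A I := by
  classical
  intro σ _ Θ hΘ
  let _ := Fintype.ofFinite σ
  let F : σ → MvPolynomial σ A := fun i => X i + Θ i
  let S0 := MvPolynomial σ A ⧸ Ideal.span (Set.range F)
  let P : Algebra.PreSubmersivePresentation A S0 σ σ :=
    Algebra.PreSubmersivePresentation.naive (v := F) id Function.injective_id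
  let S := Localization.Away P.jacobian
  let Q : Algebra.SubmersivePresentation A S (Unit ⊕ σ) (Unit ⊕ σ) :=
    { toPreSubmersivePresentation :=
        (Algebra.PreSubmersivePresentation.localizationAway S P.jacobian).comp P
      jacobian_isUnit := by
        rw [Algebra.PreSubmersivePresentation.comp_jacobian_eq_jacobian_smul_jacobian,
          Algebra.PreSubmersivePresentation.localizationAway_jacobian, Algebra.smul_def]
        exact (IsLocalization.Away.algebraMap_isUnit _).mul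
          (IsLocalization.Away.algebraMap_isUnit _) }
  have : Algebra.IsStandardSmoothOfRelativeDimension 0 A S :=
    Q.isStandardSmoothOfRelativeDimension (Nat.sub_self _)
  have : Algebra.Etale A S := Algebra.Etale.iff_isStandardSmoothOfRelativeDimension_zero.2 this
  let x : σ → A ⧸ I := fun _ => 0
  let φ0 : S0 →ₐ[A] A ⧸ I := Ideal.Quotient.liftₐ _ (aeval x) (by
    intro a ha
    refine (Ideal.span_le (I := RingHom.ker (aeval x)).2 ?_) ha
    rintro _ ⟨i, rfl⟩
    change aeval x (X i + Θ i) = 0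
    rw [map_add, aeval_X, aeval0 (mem_map_C_iff.2 (hΘ i)), add_zero])
  have hu : IsUnit (φ0 P.jacobian) := by
    rw [P.jacobian_eq_jacobiMatrix_det]
    have : φ0 (algebraMap P.Ring S0 P.jacobiMatrix.det) = aeval x P.jacobiMatrix.det := by
      have e : ∀ p : MvPolynomial σ A, algebraMap P.Ring S0 p = Ideal.Quotient.mk _ p := by
        intro p
        rw [Algebra.Generators.algebraMap_apply]
        induction p using MvPolynomial.induction_on with
        | C a => rw [aeval_C]; rfl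
        | add p q hp hq => rw [map_add, map_add, hp, hq]
        | mul_X p i hp => rw [map_mul, map_mul, hp, aeval_X]; rfl
      rw [e]; rfl
    rw [this, AlgHom.map_det]
    convert (Matrix.det_one (n := σ) (R := A ⧸ I)).symm ▸ isUnit_one
    ext i j
    refine (congrArg (aeval x) (P.jacobiMatrix_apply i j)).trans ?_
    change aeval x (pderiv i (X j + Θ j)) = _
    have h0 : pderiv i (Θ j) ∈ I.map C := mem_map_C_iff.2 fun m => by
      rw [coeff_pderiv]; exact I.mul_mem_right _ (hΘ j _)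
    rw [map_add, map_add, aeval0 h0, add_zero, pderiv_X, Matrix.one_apply, Pi.single_apply]
    by_cases hij : i = j
    · simp [hij]
    · simp [hij, Ne.symm hij]
  obtain ⟨s, -⟩ := h S (IsLocalization.Away.liftAlgHom (S := S) P.jacobian hu)
  let ψ : MvPolynomial σ A →ₐ[A] A :=
    (s.comp (IsScalarTower.toAlgHom A S0 S)).comp (Ideal.Quotient.mkₐ A _)
  refine ⟨fun i => ψ (X i), fun i => ?_⟩
  have h1 : aeval (fun i => ψ (X i)) = ψ := algHom_ext fun i => aeval_X _ _
  rw [← coe_aeval_eq_eval]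
  change ψ (X i) + aeval (fun i => ψ (X i)) (Θ i) = 0
  rw [h1, ← map_add]
  change s (algebraMap S0 S (Ideal.Quotient.mk _ (F i))) = 0
  rw [Ideal.Quotient.eq_zero_iff_mem.2 (Ideal.subset_span (Set.mem_range_self i)), map_zero,
    map_zero]

theorem hpG (h : G.HP I) : HP A I := by
  intro D _ _ ψ hψ
  let _ : Algebra A D := ψ.toAlgebra
  have : Algebra.IsIntegral A D := ⟨hψ⟩
  obtain ⟨h1, h2⟩ := h D
  refine ⟨Ideal.Quotient.nontrivial_iff.1 h1, fun x hx => ?_⟩
  refine (h2 (Ideal.Quotient.mk _ x) (Ideal.Quotient.eq.2 hx)).imp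
    Ideal.Quotient.eq_zero_iff_mem.1 fun e => Ideal.Quotient.eq.1 e

theorem idem_rad {y : A} (h : y * y - y ∈ I) (h' : y ∈ I.radical) : y ∈ I := by
  obtain ⟨m, hm⟩ := h'
  have e : IsIdempotentElem (Ideal.Quotient.mk I y) := Ideal.Quotient.eq.2 h
  rw [← Ideal.Quotient.eq_zero_iff_mem, ← e.pow_succ_eq m, ← map_pow,
    Ideal.Quotient.eq_zero_iff_mem, pow_succ]
  exact I.mul_mem_right _ hm

theorem conn {J : Ideal A} (e : I.radical = J.radical)
    (h : ∀ x : A, x * x - x ∈ I → x ∈ I ∨ x - 1 ∈ I) (x : A) (hx : x * x - x ∈ J) :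
    x ∈ J ∨ x - 1 ∈ J := by
  obtain ⟨n, hn⟩ : x * x - x ∈ I.radical := e ▸ J.le_radical hx
  have h0 : x ^ n * (x - 1) ^ n ∈ I := by
    rw [← mul_pow]; convert hn using 2; ring
  obtain ⟨a, b, hab⟩ : IsCoprime (x ^ n) ((x - 1) ^ n) := IsCoprime.pow ⟨1, -1, by ring⟩
  rcases h (a * x ^ n) (by
    convert I.mul_mem_left (-(a * b)) h0 using 1
    linear_combination a * x ^ n * hab) with h1 | h1
  · refine Or.inl (idem_rad hx (e ▸ ⟨n, ?_⟩))
    convert I.add_mem (I.mul_mem_left (x ^ n) h1) (I.mul_mem_left b h0) using 1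
    linear_combination -x ^ n * hab
  · refine Or.inr ?_
    rw [← neg_sub, neg_mem_iff]
    refine idem_rad (by convert hx using 1; ring) ?_
    rw [← neg_sub, neg_mem_iff]
    refine e ▸ ⟨n, ?_⟩
    convert I.sub_mem (I.mul_mem_left a h0) (I.mul_mem_left ((x - 1) ^ n) h1) using 1
    ring

end HBR

theorem newt : NEWT_s :=
  ⟨fun _ _ _ => HBR.newt, fun A F _ _ ψ _ hψ h =>
    let _ : Algebra A F := ψ.toAlgebra
    have : Module.Finite A F := hψ
    HBR.ofG (HBR2.newt h).finite, fun _ _ _ h _ => (HBR2.newt h).unit⟩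

theorem hp : HP_s := by
  refine ⟨fun _ _ _ h => HBR.hpG (HBR2.newt (HBR.newt h)).hp, ?_⟩
  intro A A' _ _ ψ I I' hψ e h D _ _ χ hχ
  obtain ⟨h1, h2⟩ := h D (χ.comp ψ) (hψ.trans _ _ hχ)
  have e' : (I.map (χ.comp ψ)).radical = (I'.map χ).radical := by
    rw [← Ideal.map_map]
    refine le_antisymm (Ideal.radical_le_radical_iff.2 ?_) (Ideal.radical_le_radical_iff.2 ?_)
    · exact (Ideal.map_mono (Ideal.le_radical.trans e.le)).trans (Ideal.map_radical_le χ)
    · exact (Ideal.map_mono (Ideal.le_radical.trans e.ge)).trans (Ideal.map_radical_le χ)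
  refine ⟨fun t => h1 ?_, HBR.conn e' h2⟩
  rw [← Ideal.radical_eq_top, e', t, Ideal.radical_top]

end Pool.Agent.MP_855f4c_ag.T

end

section

/-! The weight-monodromy property passes to subspaces that are dual to each other. -/

set_option autoImplicit false

open Module Polynomial

namespace Pool.Agent.MP_855f4c_ag.T

namespace Linv

variable {F V V' Z : Type*} [Field F] [AddCommGroup V] [Module F V] [AddCommGroup V'] [Module F V']
  [AddCommGroup Z] [Module F Z]

theorem rk [FiniteDimensional F V] (f : V →ₗ[F] V) {A A' B' : Submodule F V} (h : A' ≤ A)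
    (e : ∀ v ∈ A, f v ∈ B' ↔ v ∈ A') :
    finrank F (A.map (B'.mkQ ∘ₗ f)) + finrank F A' = finrank F A := by
  rw [← LinearMap.finrank_range_add_finrank_ker ((B'.mkQ ∘ₗ f).domRestrict A), LinearMap.range_domRestrict,
    ← (Submodule.comapSubtypeEquivOfLe h).finrank_eq,
    show A'.comap A.subtype = LinearMap.ker ((B'.mkQ ∘ₗ f).domRestrict A) from
      Submodule.ext fun v => by simp [e v v.2]]

theorem gr [FiniteDimensional F V] (f : V →ₗ[F] V) {A A' B B' : Submodule F V} (h : A' ≤ A) (h' : B' ≤ B)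
    (m : ∀ v ∈ A, f v ∈ B) (e : ∀ v ∈ A, f v ∈ B' ↔ v ∈ A') :
    finrank F A + finrank F B' ≤ finrank F A' + finrank F B ∧
      (finrank F A' + finrank F B ≤ finrank F A + finrank F B' → ∀ w ∈ B, ∃ v ∈ A, w - f v ∈ B') := by
  have e1 := rk f h e
  have e2 := rk LinearMap.id h' fun _ _ => Iff.rfl
  have le : A.map (B'.mkQ ∘ₗ f) ≤ B.map (B'.mkQ ∘ₗ LinearMap.id) := by
    rintro _ ⟨v, hv, rfl⟩
    exact ⟨f v, m v hv, rfl⟩
  refine ⟨by have := Submodule.finrank_mono le; omega, fun u w hw => ?_⟩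
  obtain ⟨v, hv, r⟩ := (Submodule.eq_of_le_of_finrank_le le (by omega)).ge ⟨w, hw, rfl⟩
  exact ⟨v, hv, (Submodule.Quotient.eq _).1 r.symm⟩

theorem orth [FiniteDimensional F V'] (B : V →ₗ[F] V' →ₗ[F] F) (hB : ∀ x, (∀ y, B x y = 0) → x = 0)
    {A : Submodule F V} {A' : Submodule F V'} (h : ∀ x ∈ A, ∀ y ∈ A', B x y = 0) :
    finrank F A + finrank F A' ≤ finrank F V' := by
  have i : Function.Injective B := (injective_iff_map_eq_zero B).2 fun x e => hB x fun y => by simp [e]
  have le : A.map B ≤ A'.dualAnnihilator := by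
    rintro _ ⟨x, hx, rfl⟩
    exact (Submodule.mem_dualAnnihilator _).2 (h x hx)
  have := Submodule.finrank_mono le
  rw [← (A.equivMapOfInjective B i).finrank_eq] at this
  exact (Nat.add_le_add_right this _).trans_eq
    ((add_comm _ _).trans (Subspace.finrank_add_finrank_dualAnnihilator_eq A'))

theorem comm_pow {j : V →ₗ[F] Z} {u : End F V} {w : End F Z} (h : ∀ v, w (j v) = j (u v)) (n : ℕ) :
    ∀ v, (w ^ n) (j v) = j ((u ^ n) v) := by
  induction n with
  | zero => exact fun _ => rfl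
  | succ n ih => exact fun v => by rw [pow_succ, pow_succ, End.mul_apply, End.mul_apply, h, ih]

theorem comm_aeval {j : V →ₗ[F] Z} {u : End F V} {w : End F Z} (h : ∀ v, w (j v) = j (u v)) (P : F[X])
    (v : V) : aeval w P (j v) = j (aeval u P v) := by
  simp [aeval_eq_sum_range, LinearMap.sum_apply, comm_pow h]

variable [Algebra ℚ F]

/-- pure of weight `a + i` on the graded pieces -/
def Pu (q : ℕ) (i : ℤ) (φ : End F V) (M : ℤ → Submodule F V) : Prop :=
  ∀ a, (∀ v ∈ M a, φ v ∈ M a) ∧ ∃ P : ℚ[X], P ≠ 0 ∧ (∀ z : ℂ, aeval z P = 0 → ‖z‖ ^ 2 = (q : ℝ) ^ (a + i)) ∧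
    ∀ v ∈ M a, aeval φ (P.map (algebraMap ℚ F)) v ∈ M (a - 1)

theorem zero {Q d : ℕ} {i i' : ℤ} (hQ : 1 < Q) (hi : i + i' = 2 * d) {φ : End F V} {φ' : End F V'}
    {M : ℤ → Submodule F V} {M' : ℤ → Submodule F V'} (m : Monotone M) (m' : Monotone M')
    (b : ∃ a, M a = ⊥) (b' : ∃ a, M' a = ⊥) (p : Pu Q i φ M) (p' : Pu Q i' φ' M')
    (B : V →ₗ[F] V' →ₗ[F] F) (hB : ∀ x y, B (φ x) (φ' y) = (Q : F) ^ d * B x y) (a a' : ℤ)
    (h : a + a' < 0) : ∀ x ∈ M a, ∀ y ∈ M' a', B x y = 0 := by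
  obtain ⟨a0, b⟩ := b
  obtain ⟨a0', b'⟩ := b'
  suffices s : ∀ (k : ℕ) (a a' : ℤ), a + a' ≤ a0 + a0' + k → a + a' < 0 → ∀ x ∈ M a, ∀ y ∈ M' a', B x y = 0 from
    s (a + a' - (a0 + a0')).toNat a a' (by omega) h
  intro k
  induction k with
  | zero =>
    intro a a' u _ x hx y hy
    rcases le_or_gt a a0 with r | r
    · rw [show x = 0 from (Submodule.mem_bot F).1 (b.le (m r hx)), map_zero, LinearMap.zero_apply]
    · rw [show y = 0 from (Submodule.mem_bot F).1 (b'.le (m' (by omega : a' ≤ a0') hy)), map_zero]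
  | succ k ih =>
    intro a a' u h x hx y hy
    obtain ⟨-, P, -, r, e⟩ := p a
    obtain ⟨s', P', -, r', e'⟩ := p' a'
    have st : ∀ (R : F[X]), ∀ y ∈ M' a', aeval φ' R y ∈ M' a' := fun R y hy =>
      aeval_apply_smul_mem_of_le_comap hy R φ' s'
    obtain ⟨n, hn⟩ : ∃ n, P.natDegree < n + 1 := ⟨_, Nat.lt_succ_self _⟩
    set R : ℚ[X] := ∑ k ∈ Finset.range (n + 1), C (P.coeff k * ((Q : ℚ) ^ d) ^ k) * X ^ (n - k) with hR
    have Q0 : (0 : ℝ) < Q := by positivity
    have co : IsCoprime R P' := (isCoprime_iff_aeval_ne_zero_of_isAlgClosed ℚ ℂ R P').2 fun z => by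
      by_contra c
      rw [not_or, not_not, not_not] at c
      have c' := r' z c.2
      have z0 : z ≠ 0 := by
        rintro rfl
        have := zpow_pos Q0 (a' + i')
        simp [← c'] at this
      have : aeval z R = z ^ n * aeval ((Q : ℂ) ^ d / z) P := by
        rw [hR, map_sum, aeval_eq_sum_range' hn, Finset.mul_sum]
        refine Finset.sum_congr rfl fun k hk => ?_
        obtain ⟨t, ht⟩ := Nat.exists_eq_add_of_le (Nat.le_of_lt_succ (Finset.mem_range.1 hk))
        rw [ht, Nat.add_sub_cancel_left, Algebra.smul_def, div_pow, pow_add]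
        simp only [map_mul, aeval_C, map_pow, aeval_X, map_natCast]
        field_simp
      have c1 := r _ ((mul_eq_zero.1 (this ▸ c.1)).resolve_left (pow_ne_zero _ z0))
      rw [norm_div, div_pow, c', norm_pow, Complex.norm_natCast, div_eq_iff (zpow_pos Q0 _).ne',
        ← zpow_add₀ Q0.ne', ← pow_mul, ← zpow_natCast] at c1
      have := zpow_right_injective₀ Q0 (by exact_mod_cast hQ.ne') c1
      push_cast at this
      omega
    have hp : ∀ (k : ℕ) x y, B ((φ ^ k) x) ((φ' ^ k) y) = ((Q : F) ^ d) ^ k * B x y := fun k => by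
      induction k with
      | zero => simp
      | succ k ih =>
        intro x y
        rw [pow_succ', pow_succ', End.mul_apply, End.mul_apply, hB, ih, pow_succ', mul_assoc]
    have z1 : ∀ y ∈ M' a', B x (aeval φ' (R.map (algebraMap ℚ F)) y) = 0 := fun y hy => by
      rw [← ih (a - 1) a' (by omega) (by omega) _ (e x hx) _ (st (X ^ n) y hy),
        aeval_eq_sum_range' (natDegree_map_le.trans_lt hn), hR, Polynomial.map_sum, map_sum]
      simp only [LinearMap.sum_apply, map_sum]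
      refine Finset.sum_congr rfl fun k hk => ?_
      obtain ⟨t, ht⟩ := Nat.exists_eq_add_of_le (Nat.le_of_lt_succ (Finset.mem_range.1 hk))
      rw [ht, Nat.add_sub_cancel_left, Polynomial.map_mul, map_C, map_mul, aeval_C, End.mul_apply,
        Module.algebraMap_end_apply, map_mul, map_pow, map_pow, map_natCast]
      simp [pow_add, hp, mul_assoc]
    obtain ⟨α, β, c⟩ := co.map (mapRingHom (algebraMap ℚ F))
    have : y = aeval φ' (R.map (algebraMap ℚ F)) (aeval φ' α y) +
        aeval φ' (P'.map (algebraMap ℚ F)) (aeval φ' β y) := by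
      rw [← End.mul_apply, ← End.mul_apply, ← map_mul, ← map_mul, ← LinearMap.add_apply, ← map_add,
        mul_comm _ α, mul_comm _ β]
      exact .trans (by simp) (congrArg (fun S => aeval φ' S y) c).symm
    rw [this, map_add, z1 _ (st _ _ hy), ih a (a' - 1) (by omega) (by omega) x hx _ (e' _ (st _ _ hy)),
      add_zero]

/-- the conditions without surjectivity -/
structure Hf (q : ℕ) (i : ℤ) (φ N : End F V) (M : ℤ → Submodule F V) : Prop where
  mono : Monotone M
  bot : ∃ a, M a = ⊥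
  top : ∃ a, M a = ⊤
  sh : ∀ a, ∀ v ∈ M a, N v ∈ M (a - 2)
  inj : ∀ r : ℕ, ∀ v ∈ M r, (N ^ r) v ∈ M (-r - 1) → v ∈ M (r - 1)
  pu : Pu q i φ M

theorem Hf.pull {Q T : ℕ} {i : ℤ} (hQ : 1 < Q) {φ N : End F V} {ψ N' : End F Z} {M : ℤ → Submodule F Z}
    (j : V →ₗ[F] Z) (hj : Function.Injective j) (h1 : ∀ v, ψ (j v) = (Q : F) ^ T • j (φ v))
    (h2 : ∀ v, N' (j v) = j (N v)) (h : Hf Q (i + 2 * T) ψ N' M) : Hf Q i φ N fun a => (M a).comap j := by
  have : CharZero F := algebraRat.charZero F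
  have c0 : (Q : F) ^ T ≠ 0 := pow_ne_zero _ (Nat.cast_ne_zero.2 (by omega))
  have Q0 : (0 : ℝ) < Q := by positivity
  refine ⟨fun a b r => Submodule.comap_mono (h.mono r), h.bot.imp fun a e => ?_, h.top.imp fun a e => ?_,
    fun a v hv => ?_, fun r v hv e => h.inj r _ hv ?_, fun a => ?_⟩
  · rw [e, Submodule.comap_bot, LinearMap.ker_eq_bot.2 hj]
  · rw [e, Submodule.comap_top]
  · exact Submodule.mem_comap.2 (h2 v ▸ h.sh a _ hv)
  · rwa [comm_pow h2]
  obtain ⟨s, P, P0, r, e⟩ := h.pu a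
  refine ⟨fun v hv => ((M a).smul_mem_iff c0).1 (h1 v ▸ s _ hv), P.comp (C ((Q : ℚ) ^ T) * X), ?_,
    fun z hz => ?_, fun v hv => ?_⟩
  · exact mt (comp_C_mul_X_eq_zero_iff (mem_nonZeroDivisors_of_ne_zero (by positivity))).1 P0
  · rw [aeval_comp] at hz
    have := r _ hz
    simp only [map_mul, map_pow, map_natCast, aeval_X, norm_mul, norm_pow, Complex.norm_natCast] at this
    rw [← add_assoc, zpow_add₀ Q0.ne', mul_pow, mul_comm, ← pow_mul, mul_comm T,
      show (2 * T : ℤ) = (2 * T : ℕ) by push_cast; rfl, zpow_natCast] at this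
    exact mul_right_cancel₀ (by positivity) this
  · have := e _ hv
    rw [comm_aeval (u := (Q : F) ^ T • φ) fun v => by simp [h1]] at this
    rw [map_comp, aeval_comp, Polynomial.map_mul, map_C, map_X, map_mul, aeval_C, aeval_X, ← Algebra.smul_def,
      map_pow, map_natCast]
    exact this

variable [FiniteDimensional F V] {q : ℕ} {i : ℤ} {φ N : End F V} {M : ℤ → Submodule F V}

theorem Hf.step (h : Hf q i φ N M) (r : ℕ) :
    finrank F (M r) + finrank F (M (-r - 1)) ≤ finrank F (M (r - 1)) + finrank F (M (-r)) ∧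
      (finrank F (M (r - 1)) + finrank F (M (-r)) ≤ finrank F (M r) + finrank F (M (-r - 1)) →
        ∀ w ∈ M (-r), ∃ v ∈ M r, w - (N ^ r) v ∈ M (-r - 1)) := by
  have p : ∀ (n : ℕ) (a : ℤ), ∀ v ∈ M a, (N ^ n) v ∈ M (a - 2 * n) := fun n => by
    induction n with
    | zero => exact fun a v hv => by simpa using hv
    | succ n ih =>
      intro a v hv
      rw [pow_succ, End.mul_apply, show a - 2 * (n + 1 : ℕ) = a - 2 - 2 * n by push_cast; ring]
      exact ih _ _ (h.sh a v hv)
  refine gr (N ^ r) (h.mono (by omega)) (h.mono (by omega)) (fun v hv => ?_) fun v hv =>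
    ⟨h.inj r v hv, fun u => ?_⟩
  · exact (by ring : (r : ℤ) - 2 * r = -r) ▸ p r _ v hv
  · exact (by ring : (r : ℤ) - 1 - 2 * r = -r - 1) ▸ p r _ v u

theorem Hf.ge (h : Hf q i φ N M) (r : ℕ) : finrank F V ≤ finrank F (M (r - 1)) + finrank F (M (-r)) := by
  obtain ⟨a, t⟩ := h.top
  suffices s : ∀ k r : ℕ, a + 1 ≤ r + k → finrank F V ≤ finrank F (M (r - 1)) + finrank F (M (-r)) from
    s (a + 1).toNat r (by omega)
  intro k
  induction k with
  | zero =>
    intro r u
    have := Submodule.finrank_mono (t.ge.trans (h.mono (by omega : a ≤ r - 1)))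
    rw [finrank_top] at this
    omega
  | succ k ih =>
    intro r u
    have := ih (r + 1) (by omega)
    rw [show ((r + 1 : ℕ) : ℤ) - 1 = r by omega, show -((r + 1 : ℕ) : ℤ) = -r - 1 by omega] at this
    exact this.trans (h.step r).1

end Linv

open Linv in
theorem linv {l : ℕ} [Fact l.Prime] {Q T d : ℕ} {i i' : ℤ} (hQ : 1 < Q) (hi : i + i' = 2 * d)
    {V V' Z Z' : Type 1} [AddCommGroup V] [Module ℚ_[l] V] [AddCommGroup V'] [Module ℚ_[l] V']
    [AddCommGroup Z] [Module ℚ_[l] Z] [AddCommGroup Z'] [Module ℚ_[l] Z']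
    [FiniteDimensional ℚ_[l] V] [FiniteDimensional ℚ_[l] V']
    (φ u : End ℚ_[l] V) (φ' u' : End ℚ_[l] V') (ψ w : End ℚ_[l] Z) (ψ' w' : End ℚ_[l] Z')
    (j : V →ₗ[ℚ_[l]] Z) (j' : V' →ₗ[ℚ_[l]] Z') (hj : Function.Injective j) (hj' : Function.Injective j')
    (h1 : ∀ v, ψ (j v) = (Q : ℚ_[l]) ^ T • j (φ v)) (h2 : ∀ v, w (j v) = j (u v))
    (h1' : ∀ v, ψ' (j' v) = (Q : ℚ_[l]) ^ T • j' (φ' v)) (h2' : ∀ v, w' (j' v) = j' (u' v))
    (B : V →ₗ[ℚ_[l]] V' →ₗ[ℚ_[l]] ℚ_[l]) (hB : ∀ x, (∀ y, B x y = 0) → x = 0)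
    (hB' : ∀ y, (∀ x, B x y = 0) → y = 0) (hφ : ∀ x y, B (φ x) (φ' y) = (Q : ℚ_[l]) ^ d * B x y)
    (H : MwV Q (i + 2 * T) ψ w) (H' : MwV Q (i' + 2 * T) ψ' w') : MwV Q i φ u := by
  obtain ⟨m, m0, M, a1, a2, a3, a4, a5, a6⟩ := H
  obtain ⟨m', -, M', b1, b2, b3, b4, b5, b6⟩ := H'
  have A := Hf.pull (N := u ^ m - 1) hQ j hj h1 (fun v => by simp [comm_pow h2])
    ⟨a1, a2, a3, a4, fun r => (a5 r).1, a6⟩
  have A' := Hf.pull (N := u' ^ m' - 1) hQ j' hj' h1' (fun v => by simp [comm_pow h2'])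
    ⟨b1, b2, b3, b4, fun r => (b5 r).1, b6⟩
  have z := zero hQ hi A.mono A'.mono A.bot A'.bot A.pu A'.pu B hφ
  refine ⟨m, m0, _, A.mono, A.bot, A.top, A.sh, fun r => ⟨A.inj r, (A.step r).2 ?_⟩, A.pu⟩
  have c1 := orth B hB (z (r - 1) (-r) (by omega))
  have c2 := orth B.flip hB' fun y hy x hx => z (-r) (r - 1) (by omega) x hx y hy
  have c3 := A'.ge r
  have c4 := A.ge (r + 1)
  rw [show ((r + 1 : ℕ) : ℤ) - 1 = r by omega, show -((r + 1 : ℕ) : ℤ) = -r - 1 by omega] at c4
  omega

end Pool.Agent.MP_855f4c_ag.T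

end

section

/-! The Jacobian criterion at field-valued points. -/

set_option autoImplicit false

open MvPolynomial

namespace Pool.Agent.MP_855f4c_ag.T.Smj

/-- A matrix whose rows are independent at all points has a right inverse. -/
theorem rinv {A κ ρ : Type} [CommRing A] [Fintype κ] [Fintype ρ] [DecidableEq ρ] (J : ρ → κ → A)
    (h : ∀ (m : Ideal A) [m.IsMaximal] (lam : ρ → A ⧸ m),
      (∀ j, ∑ a, lam a * Ideal.Quotient.mk m (J a j) = 0) → lam = 0) :
    ∃ L : ρ → κ → A, ∀ a b, ∑ j, J a j * L b j = if a = b then 1 else 0 := by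
  classical
  have hN : LinearMap.range (Matrix.of J).mulVecLin = ⊤ := by
    by_contra hne
    obtain ⟨M, hM, hle⟩ := (eq_top_or_exists_le_coatom _).resolve_left hne
    obtain ⟨m, hm, ⟨e⟩⟩ := isSimpleModule_iff_quot_maximal.1 (isSimpleModule_iff_isCoatom.2 hM)
    let f : (ρ → A) →ₗ[A] A ⧸ m := e.toLinearMap.comp M.mkQ
    have hf (w : ρ → A) : f w = ∑ a, f (Pi.single a 1) * Ideal.Quotient.mk m (w a) := by
      conv_lhs => rw [pi_eq_sum_univ' w, map_sum]
      exact Finset.sum_congr rfl fun a _ => by rw [map_smul, Algebra.smul_def, mul_comm]; rfl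
    have h0 := h m (fun a => f (Pi.single a 1)) fun j => by
      refine (hf fun a => J a j).symm.trans ?_
      have : (fun a => J a j) ∈ M := hle ⟨Pi.single j 1, by ext a; simp⟩
      simp [f, (Submodule.Quotient.mk_eq_zero M).2 this]
    refine hM.1 (eq_top_iff.2 fun w _ => (Submodule.Quotient.mk_eq_zero M).1 (e.injective ?_))
    rw [map_zero]
    exact (hf w).trans (Finset.sum_eq_zero fun a _ => by rw [congrFun h0 a, Pi.zero_apply, zero_mul])
  choose L hL using fun b : ρ => LinearMap.range_eq_top.1 hN (Pi.single b 1)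
  exact ⟨L, fun a b => (congrFun (hL b) a).trans (Pi.single_apply _ _ _)⟩

theorem taylor {R B κ : Type} [CommRing R] [CommRing B] [Algebra R B] [Fintype κ] (u v : κ → B)
    (hv : ∀ i j, v i * v j = 0) (g : MvPolynomial κ R) :
    aeval (u + v) g = aeval u g + ∑ j, aeval u (pderiv j g) * v j := by
  classical
  induction g using MvPolynomial.induction_on with
  | C a => simp
  | add p q hp hq => simp only [map_add, hp, hq, add_mul, Finset.sum_add_distrib]; ring
  | mul_X p j hp =>
    have h1 : (∑ k, aeval u (pderiv k p) * v k) * v j = 0 := by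
      simp only [Finset.sum_mul, mul_assoc, hv, mul_zero, Finset.sum_const_zero]
    have h2 : ∑ k, aeval u (pderiv k (p * X j)) * v k =
        (∑ k, aeval u (pderiv k p) * v k) * u j + aeval u p * v j := by
      simp [Derivation.leibniz, Finset.sum_add_distrib, pderiv_X, Pi.single_apply, add_comm,
        mul_comm, mul_left_comm, Finset.mul_sum, mul_add, apply_ite (aeval u)]
    rw [map_mul, map_mul, aeval_X, aeval_X, hp, h2, Pi.add_apply]
    linear_combination h1

end Pool.Agent.MP_855f4c_ag.T.Smj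

namespace Pool.Agent.MP_855f4c_ag.T

open Smj in
/-- Jacobian criterion. -/
theorem smj {R κ ρ : Type} [CommRing R] [Finite κ] [Fintype ρ] (g : ρ → MvPolynomial κ R)
    (h : ∀ (k : Type) [Field k] (ψ : R →+* k) (t : κ → k) (lam : ρ → k),
      (∀ a, eval₂ ψ t (g a) = 0) → (∀ j, ∑ a, lam a * eval₂ ψ t (pderiv j (g a)) = 0) → lam = 0) :
    Algebra.Smooth R (MvPolynomial κ R ⧸ Ideal.span (Set.range g)) := by
  classical
  have := Fintype.ofFinite κ
  set 𝔞 := Ideal.span (Set.range g)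
  have hg (a : ρ) : Ideal.Quotient.mk 𝔞 (g a) = 0 :=
    Ideal.Quotient.eq_zero_iff_mem.2 (Ideal.subset_span ⟨a, rfl⟩)
  obtain ⟨L, hL⟩ := rinv (fun a j => Ideal.Quotient.mk 𝔞 (pderiv j (g a))) fun m _ lam hl => by
    let := Ideal.Quotient.field m
    let π := (Ideal.Quotient.mk m).comp (Ideal.Quotient.mk 𝔞)
    have e (P : MvPolynomial κ R) : eval₂ (π.comp C) (fun j => π (X j)) P = π P :=
      (eval₂_comp_left π C X P).symm.trans (congrArg π (eval₂_eta P))
    exact h _ (π.comp C) (fun j => π (X j)) lam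
      (fun a => (e _).trans (by rw [RingHom.comp_apply, hg, map_zero])) fun j => by
        simp only [e]; exact hl j
  refine ⟨.of_comp_surjective fun B _ _ I hI φ => ?_,
    .quotient (Submodule.fg_span (Set.finite_range g))⟩
  choose s hs using Ideal.Quotient.mk_surjective (I := I)
  let u : κ → B := fun j => s (φ (Ideal.Quotient.mk 𝔞 (X j)))
  have hu (P : MvPolynomial κ R) : Ideal.Quotient.mk I (aeval u P) = φ (Ideal.Quotient.mk 𝔞 P) :=
    DFunLike.congr_fun (algHom_ext (f := (Ideal.Quotient.mkₐ R I).comp (aeval u))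
      (g := φ.comp (Ideal.Quotient.mkₐ R 𝔞)) fun j => by simp [u, hs]) P
  have hI2 {x y : B} (hx : x ∈ I) (hy : y ∈ I) : x * y = 0 :=
    Ideal.mem_bot.1 (hI ▸ pow_two I ▸ Ideal.mul_mem_mul hx hy)
  have h0 (a : ρ) : aeval u (g a) ∈ I :=
    Ideal.Quotient.eq_zero_iff_mem.1 (by rw [hu, hg, map_zero])
  let v : κ → B := fun j => -∑ b, s (φ (L b j)) * aeval u (g b)
  have hv (j : κ) : v j ∈ I := neg_mem (sum_mem fun b _ => I.mul_mem_left _ (h0 b))
  have hz (a : ρ) : aeval (u + v) (g a) = 0 := by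
    have e (b : ρ) : (∑ j, aeval u (pderiv j (g a)) * s (φ (L b j))) * aeval u (g b) =
        (if a = b then 1 else 0) * aeval u (g b) := by
      rw [← sub_eq_zero, ← sub_mul]
      refine hI2 (Ideal.Quotient.eq.1 ?_) (h0 b)
      have := congrArg φ (hL a b)
      simp only [map_sum, map_mul, hu, hs] at this ⊢
      rw [this]
      split_ifs <;> simp
    rw [taylor u v fun i j => hI2 (hv i) (hv j)]
    simp only [v, mul_neg, Finset.sum_neg_distrib, Finset.mul_sum, ← mul_assoc]
    rw [Finset.sum_comm]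
    simp only [← Finset.sum_mul, e]
    simp
  refine ⟨Ideal.Quotient.liftₐ 𝔞 (aeval (u + v)) fun P hP => ?_, Ideal.Quotient.algHom_ext _
    (algHom_ext fun j => ?_)⟩
  · exact (Ideal.span_le (I := RingHom.ker (aeval (u + v) : MvPolynomial κ R →ₐ[R] B))).2
      (by rintro _ ⟨a, rfl⟩; exact hz a) hP
  · change Ideal.Quotient.mk I (aeval (u + v) (X j : MvPolynomial κ R)) = _
    rw [aeval_X, Pi.add_apply, map_add, Ideal.Quotient.eq_zero_iff_mem.2 (hv j), add_zero]
    exact hs _

theorem map_aff {κ : Type} [Fintype κ] [DecidableEq κ] {A k : Type} [CommRing A] [CommRing k]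
    {c : ℕ} {e : Fin c → κ → ℕ} (cf : MI e → A) (ψ : A →+* k) (σ : κ → Fin 2) (a : Fin c) :
    map ψ (aff cf σ a) = aff (ψ ∘ cf) σ a := by
  simp [aff, gen, mon, apply_ite (map ψ)]

/-- The charts of a family of nonsingular complete intersections are smooth. -/
theorem smooth_aff {κ : Type} [Fintype κ] [DecidableEq κ] {R : Type} [CommRing R] {c : ℕ}
    {e : Fin c → κ → ℕ} (cf : MI e → R)
    (h : ∀ (k : Type) [Field k] (ψ : R →+* k), JC (ψ ∘ cf)) (σ : κ → Fin 2) :
    Algebra.Smooth R (MvPolynomial κ R ⧸ Ideal.span (Set.range (aff cf σ))) :=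
  smj _ fun k _ ψ t lam h₁ h₂ => h k ψ σ t lam
    (fun a => by rw [← map_aff, eval_map, h₁]) fun j => by
      simpa only [← map_aff, pderiv_map, eval_map] using h₂ j

end Pool.Agent.MP_855f4c_ag.T

end
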