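import Pool.Agent.MP_855f4c_ag.EC.Xb
import Pool.Agent.MP_855f4c_ag.EC.Da
import Pool.Agent.MP_855f4c_ag.EC.Pb
import Pool.Agent.MP_855f4c_ag.TC.Tb
import Pool.Agent.MP_855f4c_ag.EC.DUa
import Pool.Agent.MP_855f4c_ag.EC.F2e
import Pool.Agent.MP_855f4c_ag.EC.F2d
import Pool.Agent.MP_855f4c_ag.EC.Xa
import Pool.Agent.MP_855f4c_ag.EC.E4d
import Pool.Agent.MP_855f4c_ag.EC.Pa

section

/-! h12g: definitions with cohomology. -/

set_option autoImplicit false
set_option backward.isDefEq.respectTransparency false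

open CategoryTheory Limits Abelian Opposite AlgebraicGeometry

namespace Pool.Agent.MP_855f4c_ag.T

open E E3 E4

variable (l : ℕ) [Fact l.Prime] {T T' : Scheme.{0}}

/-- Pull-back of sheaves. -/
abbrev pbe (g : T' ⟶ T) : Sh (Scheme.etaleTopology.over T) ⥤ Sh (Scheme.etaleTopology.over T') := pb (J := Scheme.etaleTopology) g

/-- The constant sheaf `ℤ`. -/
noncomputable def Zs (T : Scheme.{0}) : Sh (Scheme.etaleTopology.over T) := (con T).obj (.of ℤ)

/-- The pull-back of `ℚ_l / ℤ_l`. -/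
noncomputable def lpb (g : T' ⟶ T) : (pbe g).obj (Linf l T) ≅ Linf l T' := (M2.cstPb g).app _

/-- The pull-back of `ℤ`. -/
noncomputable def zpb (g : T' ⟶ T) : (pbe g).obj (Zs T) ≅ Zs T' := (M2.cstPb g).app _

/-- Pull-back of classes. -/
noncomputable def gpb (g : T' ⟶ T) {A : Sh (Scheme.etaleTopology.over T)} {A' : Sh (Scheme.etaleTopology.over T')} (a : A' ⟶ (pbe g).obj A)
    (n : ℕ) : Ext A (Linf l T) n →+ Ext A' (Linf l T') n :=
  (post A' (lpb l g).hom n).comp (cmp (pbe g) a (Linf l T) n)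

/-- The groups `E^n`. -/
abbrev EE (T : Scheme.{0}) (n : ℕ) : Type 1 := Ext.{1} (Linf l T) (Linf l T) n

/-- The groups `H^n`. -/
abbrev HH (T : Scheme.{0}) (n : ℕ) : Type 1 := Ext.{1} (Zs T) (Linf l T) n

/-- Pull-back on `E^n`. -/
noncomputable def epb (g : T' ⟶ T) (n : ℕ) : EE l T n →+ EE l T' n := gpb l g (lpb l g).inv n

/-- Pull-back on `H^n`. -/
noncomputable def hpb (g : T' ⟶ T) (n : ℕ) : HH l T n →+ HH l T' n := gpb l g (zpb g).inv n

/-- The unit class. -/
noncomputable abbrev one (T : Scheme.{0}) : EE l T 0 := Ext.mk₀ (𝟙 _)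

/-- The constant section `a`. -/
noncomputable def ta (T : Scheme.{0}) (a : QZ l) : Zs T ⟶ Linf l T :=
  (con T).map (AddCommGrpCat.ofHom (zmultiplesHom (QZ l) a))

variable {l} in
/-- The product of a class with a constant section. -/
noncomputable def tau {n : ℕ} (x : EE l T n) (a : QZ l) : HH l T n := pre (ta l T a) _ n x

variable {l} in
/-- The product of a list of classes of degree two. -/
noncomputable def pw : (L : List (EE l T 2)) → EE l T (2 * L.length)
  | [] => one l T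
  | x :: L => x.comp (pw L) (by simp only [List.length_cons]; omega)

/-- The quotient of `ℚ_l / ℤ_l` by the part supported on `O`. -/
noncomputable def AU (O : T.Opens) : Sh (Scheme.etaleTopology.over T) := cokernel ((ezι O).app (Linf l T))

/-- The projection. -/
noncomputable def πU (O : T.Opens) : Linf l T ⟶ AU l O := cokernel.π ((ezι O).app (Linf l T))

/-- `a` is the comparison map of the quotients. -/
def Rp (g : T' ⟶ T) (O' : T'.Opens) (O : T.Opens) (a : AU l O' ⟶ (pbe g).obj (AU l O)) : Prop :=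
  πU l O' ≫ a = (lpb l g).inv ≫ (pbe g).map (πU l O)

/-- The complement of the zero set. -/
def opI {D : Type} [CommRing D] (I : Ideal D) : (Spec (.of D)).Opens :=
  ⟨(PrimeSpectrum.zeroLocus (I : Set D))ᶜ, (PrimeSpectrum.isClosed_zeroLocus _).isOpen_compl⟩

/-- Universally bijective on cohomology. -/
def UHB {J P : Scheme.{0}} (ρ : J ⟶ P) : Prop :=
  ∀ (S S' : Scheme.{0}) (t : S ⟶ P) (a : S' ⟶ J) (b : S' ⟶ S), IsPullback a b ρ t → Linv l S →
    ∀ F : Sh (Scheme.etaleTopology.over S), Tc l F → PB.HB (PB.top b) F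

/-! ### Cocycles -/

/-- Pull-back of functions. -/
noncomputable abbrev gam {U U' : Scheme.{0}} (g : U ⟶ U') : Γ(U', ⊤) →+* Γ(U, ⊤) := g.appTop.hom

lemma gam_id (U : Scheme.{0}) (x : Γ(U, ⊤)) : gam (𝟙 U) x = x := by simp [gam]

lemma gam_comp {U U' U'' : Scheme.{0}} (v : U ⟶ U') (w : U' ⟶ U'') (x : Γ(U'', ⊤)) :
    gam (v ≫ w) x = gam v (gam w x) := by simp [gam]

/-- A locally nonempty presheaf of sets. -/
structure Trv (T : Scheme.{0}) where
  tr : Over T → Type
  res : ∀ {U' U : Over T}, (U' ⟶ U) → tr U → tr U'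
  res_id : ∀ (U : Over T) (a : tr U), res (𝟙 U) a = a
  res_comp : ∀ {U'' U' U : Over T} (v : U'' ⟶ U') (w : U' ⟶ U) (a : tr U),
    res (v ≫ w) a = res v (res w a)
  loc : ∀ (U : Over T) (u : U.left), ∃ (W : Over T) (w : W ⟶ U), IsOpenImmersion w.left ∧
    u ∈ Set.range w.left ∧ Nonempty (tr W)

/-- A cocycle of units. -/
structure Coc (𝒯 : Trv T) where
  g : ∀ U : Over T, 𝒯.tr U → 𝒯.tr U → Γ(U.left, ⊤)ˣ
  res : ∀ {U' U : Over T} (w : U' ⟶ U) (a b : 𝒯.tr U),
    (g U' (𝒯.res w a) (𝒯.res w b) : Γ(U'.left, ⊤)) = gam w.left (g U a b)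
  mul : ∀ (U : Over T) (a b c : 𝒯.tr U), g U a b * g U b c = g U a c

/-- A section that is a unit over `O`. -/
structure Sec {𝒯 : Trv T} (γ : Coc 𝒯) (O : T.Opens) where
  s : ∀ U : Over T, 𝒯.tr U → Γ(U.left, ⊤)
  res : ∀ {U' U : Over T} (w : U' ⟶ U) (a : 𝒯.tr U), s U' (𝒯.res w a) = gam w.left (s U a)
  tr : ∀ (U : Over T) (a b : 𝒯.tr U), s U b = γ.g U a b * s U a
  unit : ∀ (U : Over T) (a : 𝒯.tr U), (∀ u, U.hom u ∈ O) → IsUnit (s U a)

/-- A morphism of cocycles along `g`. -/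
structure CHom (g : T' ⟶ T) {𝒯' : Trv T'} {𝒯 : Trv T} (γ' : Coc 𝒯') (γ : Coc 𝒯) where
  m : ∀ U : Over T', 𝒯'.tr U → 𝒯.tr ((Over.map g).obj U)
  res : ∀ {U' U : Over T'} (w : U' ⟶ U) (a : 𝒯'.tr U),
    m U' (𝒯'.res w a) = 𝒯.res ((Over.map g).map w) (m U a)
  g : ∀ (U : Over T') (a b : 𝒯'.tr U), γ'.g U a b = γ.g ((Over.map g).obj U) (m U a) (m U b)

/-- `y` is a covector for `x`. -/
def Cov {ι R : Type} [Fintype ι] [CommRing R] (x y : ι → R) : Prop := ∑ i, y i * x i = 1

/-- Homogeneous coordinates of a map to a projective space. -/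
structure IsLin {ι : Type} [Fintype ι] (co : ∀ U : Over T, (ι → Γ(U.left, ⊤)) → Prop) : Prop where
  res : ∀ {U' U : Over T} (w : U' ⟶ U) (x : ι → Γ(U.left, ⊤)), co U x → co U' (gam w.left ∘ x)
  min : ∀ (U : Over T) (x y x' y' : ι → Γ(U.left, ⊤)), co U x → co U x' → Cov x y → Cov x' y' →
    ∀ i j, x i * x' j = x j * x' i
  loc : ∀ (U : Over T) (u : U.left), ∃ (W : Over T) (w : W ⟶ U), IsOpenImmersion w.left ∧
    u ∈ Set.range w.left ∧ ∃ x y, co W x ∧ Cov x y

lemma cov_mul {ι R : Type} [Fintype ι] [CommRing R] (y x y' x' : ι → R) (h : Cov x y')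
    (hm : ∀ i j, x i * x' j = x j * x' i) :
    (∑ i, y i * x i) * ∑ j, y' j * x' j = ∑ i, y i * x' i := by
  have key (i) : x i * ∑ j, y' j * x' j = x' i * ∑ j, y' j * x j := by
    rw [Finset.mul_sum, Finset.mul_sum]
    exact Finset.sum_congr rfl fun j _ => by linear_combination y' j * hm i j
  rw [Finset.sum_mul]
  exact Finset.sum_congr rfl fun i _ => by rw [mul_assoc, key, show ∑ j, y' j * x j = 1 from h, mul_one]

section
variable {ι : Type} [Fintype ι] {co : ∀ U : Over T, (ι → Γ(U.left, ⊤)) → Prop} (h : IsLin co)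

/-- Coordinates together with a covector. -/
noncomputable def IsLin.trv : Trv T where
  tr U := {a : (ι → Γ(U.left, ⊤)) × (ι → Γ(U.left, ⊤)) // co U a.1 ∧ Cov a.1 a.2}
  res w a := ⟨(gam w.left ∘ a.1.1, gam w.left ∘ a.1.2), h.res w _ a.2.1, by
    simpa [Cov] using congrArg (gam w.left) a.2.2⟩
  res_id U a := Subtype.ext (Prod.ext (funext fun _ => gam_id _ _) (funext fun _ => gam_id _ _))
  res_comp v w a :=
    Subtype.ext (Prod.ext (funext fun _ => gam_comp _ _ _) (funext fun _ => gam_comp _ _ _))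
  loc U u := by
    obtain ⟨W, w, h1, h2, x, y, h3⟩ := h.loc U u
    exact ⟨W, w, h1, h2, ⟨⟨(x, y), h3⟩⟩⟩

/-- The ratio of two systems of coordinates. -/
noncomputable def IsLin.coc : Coc h.trv where
  g U a b := ⟨∑ i, a.1.2 i * b.1.1 i, ∑ i, b.1.2 i * a.1.1 i,
    (cov_mul _ _ _ _ b.2.2 (h.min U _ _ _ _ b.2.1 a.2.1 b.2.2 a.2.2)).trans a.2.2,
    (cov_mul _ _ _ _ a.2.2 (h.min U _ _ _ _ a.2.1 b.2.1 a.2.2 b.2.2)).trans b.2.2⟩
  res w a b := by simp [IsLin.trv]
  mul U a b c := Units.ext (cov_mul _ _ _ _ b.2.2 (h.min U _ _ _ _ b.2.1 c.2.1 b.2.2 c.2.2))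

end

/-- Pull-back of coordinates. -/
def copb {ι : Type} (g : T' ⟶ T) (co : ∀ U : Over T, (ι → Γ(U.left, ⊤)) → Prop) :
    ∀ U : Over T', (ι → Γ(U.left, ⊤)) → Prop := fun U x => co ((Over.map g).obj U) x

/-- Evaluation at an affine point. -/
noncomputable def ev {D : Type} [CommRing D] {U : Scheme.{0}} (w : Spec (.of D) ⟶ U) :
    Γ(U, ⊤) →+* D := (w.appTop ≫ (Scheme.ΓSpecIso (.of D)).hom).hom

/-- The ring map that belongs to a map to an affine scheme. -/
noncomputable def str {D : Type} [CommRing D] {U : Scheme.{0}} (h : U ⟶ Spec (.of D)) :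
    D →+* Γ(U, ⊤) := ((Scheme.ΓSpecIso (.of D)).inv ≫ h.appTop).hom

/-- `x` gives the point `z` if one of the coordinates is a unit. -/
def Pt {D : Type} [CommRing D] (z : Spec (.of D) ⟶ P1) (x : Fin 2 → D) : Prop :=
  (∀ a, IsUnit (x 0) → x 1 = x 0 * a → z = pt1 a) ∧ ∀ b, IsUnit (x 1) → x 0 = x 1 * b → z = pt2 b

/-- Coordinates of an affine point of the projective line. -/
def CoA {D : Type} [CommRing D] (z : Spec (.of D) ⟶ P1) (x : Fin 2 → D) : Prop :=
  ∀ (D' : Type) [CommRing D'] (ψ : D →+* D'), Pt (spc ψ ≫ z) (ψ ∘ x)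

/-- Coordinates of a map to the projective line. -/
def co1 (z : T ⟶ P1) (U : Over T) (x : Fin 2 → Γ(U.left, ⊤)) : Prop :=
  ∀ (D : Type) [CommRing D] (w : Spec (.of D) ⟶ U.left), Pt (w ≫ U.hom ≫ z) (ev w ∘ x)

/-- The columns of `e` are coordinates of `z`. -/
def Ad {κ D : Type} [CommRing D] (e : EV κ → D) (z : κ → (Spec (.of D) ⟶ P1)) : Prop :=
  ∀ k j, CoA (z k) fun i => e (k, i, j)

def P1L_s : Prop := ∀ (T : Scheme.{0}) (z : T ⟶ P1), IsLin (co1 z)

/-- `σ` raises the roots of unity to the power `1 / Q`. -/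
def Tw {Ω : Type} [Field Ω] (σ : Ω →+* Ω) (Q : ℕ) : Prop :=
  ∀ (ζ : Ω) (n : ℕ), ζ ^ l ^ n = 1 → σ ζ ^ Q = ζ

/-- First Chern classes, absolute and with supports. -/
structure Chern (Ω : Type) [Field Ω] where
  c : ∀ {T : Scheme.{0}} (_ : T ⟶ Spec (.of Ω)) {𝒯 : Trv T} (_ : Coc 𝒯), EE l T 2
  th : ∀ {T : Scheme.{0}} (_ : T ⟶ Spec (.of Ω)) {𝒯 : Trv T} {γ : Coc 𝒯} {O : T.Opens}
    (_ : Sec γ O), Ext (AU l O) (Linf l T) 2
  th_c : ∀ {T : Scheme.{0}} (t : T ⟶ Spec (.of Ω)) {𝒯 : Trv T} {γ : Coc 𝒯} {O : T.Opens}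
    (s : Sec γ O), pre (πU l O) _ 2 (th t s) = c t γ
  c_nat : ∀ {T' T : Scheme.{0}} (g : T' ⟶ T) (t : T ⟶ Spec (.of Ω)) {𝒯' : Trv T'} {𝒯 : Trv T}
    {γ' : Coc 𝒯'} {γ : Coc 𝒯}, CHom g γ' γ → epb l g 2 (c t γ) = c (g ≫ t) γ'
  th_nat : ∀ {T' T : Scheme.{0}} (g : T' ⟶ T) (t : T ⟶ Spec (.of Ω)) {𝒯' : Trv T'} {𝒯 : Trv T}
    {γ' : Coc 𝒯'} {γ : Coc 𝒯} {O' : T'.Opens} {O : T.Opens} (s' : Sec γ' O') (s : Sec γ O)
    (m : CHom g γ' γ) (a : AU l O' ⟶ (pbe g).obj (AU l O)), O' ≤ g ⁻¹ᵁ O → Rp l g O' O a →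
    (∀ U b, s'.s U b = s.s ((Over.map g).obj U) (m.m U b)) → gpb l g a 2 (th t s) = th (g ≫ t) s'
  c_add : ∀ {T : Scheme.{0}} (t : T ⟶ Spec (.of Ω)) {𝒯 : Trv T} (γ γ₁ γ₂ : Coc 𝒯),
    (∀ U a b, γ.g U a b = γ₁.g U a b * γ₂.g U a b) → c t γ = c t γ₁ + c t γ₂
  th_tw : ∀ {T : Scheme.{0}} (t : T ⟶ Spec (.of Ω)) {𝒯 : Trv T} {γ : Coc 𝒯} {O : T.Opens}
    (s : Sec γ O) (σ : Ω →+* Ω) (Q : ℕ), Tw l σ Q → th (t ≫ spc σ) s = Q • th t s
  ne : ∀ (L : PL (Spec (.of Ω))) (h : IsLin (co1 L.q)), c L.π h.coc ≠ 0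

variable {l}

/-- The class of a map to the projective line. -/
noncomputable def Chern.x {Ω : Type} [Field Ω] (Ch : Chern l Ω) (hP : P1L_s)
    (t : T ⟶ Spec (.of Ω)) (z : T ⟶ P1) : EE l T 2 := Ch.c t (hP T z).coc

/-- Linear combinations of these classes. -/
noncomputable def Chern.cl {Ω κ : Type} [Field Ω] [Fintype κ] (Ch : Chern l Ω) (hP : P1L_s)
    (t : T ⟶ Spec (.of Ω)) (z : κ → (T ⟶ P1)) (n : κ → ℤ) : EE l T 2 := ∑ k, n k • Ch.x hP t (z k)

/-- Transfer of classes from `W` to `X`. -/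
structure Tr {X W : Scheme.{0}} (ρ : W ⟶ X) {k k' : ℕ} (c : EE l X k) (c' : EE l X k') where
  ext : ∀ i n : ℕ, i + k = n → EE l W i →+ EE l X n
  mul : ∀ (i j n i' n' : ℕ) (h : i + k = n) (h' : i' + k = n') (hi : i + j = i') (hn : n + j = n')
    (γ : EE l W i) (z : EE l X j),
    ext i' n' h' (γ.comp (epb l ρ j z) hi) = (ext i n h γ).comp z hn
  one : ext 0 k (zero_add k) (one l W) = c
  lift : ∀ (i n : ℕ) (h : i + k' = n) (β : EE l W i), ∃ y : EE l X n,
    epb l ρ n y = β.comp (epb l ρ k' c') h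

/-- Equivariance of a transfer up to the factor `N`. -/
def Tr.Eqv {X W : Scheme.{0}} {ρ : W ⟶ X} {k k' : ℕ} {c : EE l X k} {c' : EE l X k'}
    (τ : Tr ρ c c') (g : X ⟶ X) (g' : W ⟶ W) (N : ℕ) : Prop :=
  ∀ (i n : ℕ) (h : i + k = n) (γ : EE l W i),
    epb l g n (τ.ext i n h γ) = N • τ.ext i n h (epb l g' i γ)

/-! ### Zero loci in products of projective lines -/

section
variable {κ : Type} [Fintype κ] [DecidableEq κ] {c : ℕ} {e : Fin c → κ → ℕ}

/-- The forms vanish at the point `y`. -/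
def VanAt {D : Type} [CommRing D] (cf : MI e → D) (y : κ → (Spec (.of D) ⟶ P1)) : Prop :=
  ∀ (D' : Type) [CommRing D'] (ψ : D →+* D') (x : XV κ → D'),
    (∀ k, CoA (spc ψ ≫ y k) (fun i => x (k, i)) ∧ ∃ b, Cov (fun i => x (k, i)) b) →
    ∀ a, gen (ψ ∘ cf) a x = 0

/-- `X` is the zero locus of the forms with coefficients `cf`. -/
structure ZL {R : Type} [CommRing R] {X : Scheme.{0}} (f : X ⟶ Spec (.of R)) (z : κ → (X ⟶ P1))
    (cf : MI e → R) : Prop where
  inj : ∀ (D : Type) [CommRing D] (w w' : Spec (.of D) ⟶ X), w ≫ f = w' ≫ f →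
    (∀ k, w ≫ z k = w' ≫ z k) → w = w'
  mem : ∀ (D : Type) [CommRing D] (τ : R →+* D) (y : κ → (Spec (.of D) ⟶ P1)),
    (∃ w : Spec (.of D) ⟶ X, w ≫ f = spc τ ∧ ∀ k, w ≫ z k = y k) ↔ VanAt (τ ∘ cf) y

end

/-- No equations. -/
def noEq (κ R : Type) : MI (Fin.elim0 : Fin 0 → κ → ℕ) → R := fun i => i.1.elim0

/-- The action of `σ` on the first factor. -/
noncomputable def tw {A Ω : Type} [CommRing A] [CommRing Ω] [Algebra A Ω] (σ : Ω ≃ₐ[A] Ω) (C : Type)
    [CommRing C] [Algebra A C] : TensorProduct A Ω C →+* TensorProduct A Ω C :=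
  (Algebra.TensorProduct.map (σ : Ω →ₐ[A] Ω) (AlgHom.id A C)).toRingHom

/-- Base change of an algebra map. -/
noncomputable def bc (A Ω C C' : Type) [CommRing A] [CommRing Ω] [Algebra A Ω] [CommRing C]
    [CommRing C'] [Algebra A C] [Algebra A C'] [Algebra C C'] [IsScalarTower A C C'] :
    TensorProduct A Ω C →+* TensorProduct A Ω C' :=
  (Algebra.TensorProduct.map (AlgHom.id A Ω) (IsScalarTower.toAlgHom A C C')).toRingHom

/-- The inclusion of the first factor. -/
noncomputable def iL (A Ω C : Type) [CommRing A] [CommRing Ω] [Algebra A Ω] [CommRing C]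
    [Algebra A C] : Ω →+* TensorProduct A Ω C := Algebra.TensorProduct.includeLeftRingHom

/-- The inclusion of the second factor. -/
noncomputable def iR (A Ω C : Type) [CommRing A] [CommRing Ω] [Algebra A Ω] [CommRing C]
    [Algebra A C] : C →+* TensorProduct A Ω C :=
  (Algebra.TensorProduct.includeRight (R := A) (A := Ω) (B := C)).toRingHom

/-- The action of `σ` on the fibre. -/
noncomputable abbrev fa {X S : Scheme.{0}} (f : X ⟶ S) {k : Type} [CommRing k]
    {t : Spec (.of k) ⟶ S} (ψ : k →+* k) (h : spc ψ ≫ t = t) : (fbr f t).left ⟶ (fbr f t).left :=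
  ((Over.pullback f).map (sph ψ h)).left

end Pool.Agent.MP_855f4c_ag.T

end

section

/-! The embedding `ℚ_l/ℤ_l → G_m` given by a system of roots of unity. -/

set_option autoImplicit false
set_option backward.isDefEq.respectTransparency false

open CategoryTheory Limits Abelian Opposite AlgebraicGeometry

namespace Pool.Agent.MP_855f4c_ag.T.Ze

open E E.M2 E3 E4 Function

section ab
universe v u w
variable {C : Type u} [Category.{v} C] [Abelian C]

lemma coker_iso {M G : C} (i : M ⟶ G) [Mono i] (l : ℕ) [Epi (l • 𝟙 M)] [Epi (l • 𝟙 G)]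
    (h : ∀ (A : C) (a : A ⟶ G), l • a = 0 → ∃ b, b ≫ i = a) : IsIso (l • 𝟙 (cokernel i)) := by
  have e : cokernel.π i ≫ (l • 𝟙 (cokernel i)) = (l • 𝟙 G) ≫ cokernel.π i := by simp
  have : Epi (l • 𝟙 (cokernel i)) := epi_of_epi_fac e
  have : Mono (l • 𝟙 (cokernel i)) := (Preadditive.mono_iff_cancel_zero _).2 fun A x hx => by
    obtain ⟨A', p, _, g, hg⟩ := surjective_up_to_refinements_of_epi (cokernel.π i) x
    have h1 : (l • g) ≫ cokernel.π i = 0 := by
      rw [Preadditive.nsmul_comp, ← hg, ← Preadditive.comp_nsmul]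
      simpa using congrArg (p ≫ ·) hx
    obtain ⟨m, hm⟩ := (ShortComplex.exact_cokernel i).lift' _ h1
    obtain ⟨A'', q, _, m', hm'⟩ := surjective_up_to_refinements_of_epi (l • 𝟙 M) m
    obtain ⟨b, hb⟩ := h _ (q ≫ g - m' ≫ i) (by
      rw [smul_sub, ← Preadditive.comp_nsmul, ← hm, ← Category.assoc, hm']
      simp)
    rw [← cancel_epi p, ← cancel_epi q, hg, ← Category.assoc, eq_add_of_sub_eq hb.symm]
    simp
  exact isIso_of_mono_of_epi _

lemma post_bij_of [HasExt.{w} C] {A M G : C} (i : M ⟶ G) [Mono i]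
    (h : ∀ (n : ℕ) (x : Ext.{w} A (cokernel i) n), x = 0) (n : ℕ) : Bijective (post A i n) := by
  have hS : (ShortComplex.mk _ _ (cokernel.condition i)).ShortExact :=
    { exact := ShortComplex.exact_cokernel _ }
  have H := cov_les A hS
  refine ⟨?_, fun x => (H.e₂ n x).1 (h _ _)⟩
  cases n with
  | zero => exact H.inj
  | succ n =>
    refine (injective_iff_map_eq_zero _).2 fun x hx => ?_
    obtain ⟨z, rfl⟩ := (H.e₁ n x).1 hx
    rw [h _ z, map_zero]

end ab

variable {Y Y' : Scheme.{0}}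

lemma cst_ext {M : Ab.{1}} {F : Sh (Scheme.etaleTopology.over Y)} {a b : (cst Y).obj M ⟶ F}
    (h : ∀ T m, a.hom.app (op T) (cstι M T m) = b.hom.app (op T) (cstι M T m)) : a = b :=
  ObjectProperty.hom_ext _ (sheafify_hom_ext (Scheme.etaleTopology.over Y) _ _ F.property (NatTrans.ext
    (funext fun T => AddCommGrpCat.hom_ext (AddMonoidHom.ext fun m => h T.unop m))))

lemma cstPb_app (g : Y' ⟶ Y) (M : Ab.{1}) (T : Over Y') (m : M) :
    ((cstPb g).hom.app M).hom.app (op T) (cstι M ((Over.map g).obj T) m) = cstι M T m := by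
  have h := congr(($((cstIso Y').hom_inv_id_app M)).hom.app (op T) (cstι M T m))
  refine Eq.trans ?_ h
  exact congrArg (((cstIso Y').inv.app M).hom.app (op T))
    ((cstIso_app Y M ((Over.map g).obj T) m).trans (cstIso_app Y' M T m).symm)

lemma pb_cst_ext (g : Y' ⟶ Y) {M : Ab.{1}} {F : Sh (Scheme.etaleTopology.over Y')}
    {a b : (pb (J := Scheme.etaleTopology) g).obj ((cst Y).obj M) ⟶ F}
    (h : ∀ T m, a.hom.app (op T) (cstι M ((Over.map g).obj T) m) =
      b.hom.app (op T) (cstι M ((Over.map g).obj T) m)) : a = b := by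
  rw [← cancel_epi ((cstPb g).inv.app M)]
  refine cst_ext fun T m => ?_
  have e : ((cstPb g).inv.app M).hom.app (op T) (cstι M T m) = cstι M ((Over.map g).obj T) m :=
    (congrArg _ (cstPb_app g M T m).symm).trans
      congr(($((cstPb g).hom_inv_id_app M)).hom.app (op T) _)
  exact (congrArg (a.hom.app (op T)) e).trans ((h T m).trans (congrArg (b.hom.app (op T)) e).symm)

variable {l : ℕ} [Fact l.Prime] {k : Type} [Field k]

/-- Constants as functions. -/
noncomputable def kap (y : Y ⟶ Spec (.of k)) (T : Over Y) : k →+* Γ(T.left, ⊤) :=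
  ((Scheme.ΓSpecIso (.of k)).inv ≫ (T.hom ≫ y).appTop).hom

lemma kap_res (y : Y ⟶ Spec (.of k)) {T T' : Over Y} (g : T' ⟶ T) (c : k) :
    g.left.appTop (kap y T c) = kap y T' c := by
  simp only [kap, ← Over.w g, Category.assoc, Scheme.Hom.comp_appTop g.left]
  rfl

lemma kap_pb (g : Y' ⟶ Y) (y : Y ⟶ Spec (.of k)) (T : Over Y') (c : k) :
    kap y ((Over.map g).obj T) c = kap (g ≫ y) T c := by
  simp only [kap, ← Category.assoc]
  rfl

lemma kap_spc {k' : Type} [Field k'] (y : Y ⟶ Spec (.of k)) (σ : k' →+* k) (T : Over Y) (c : k') :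
    kap (y ≫ spc σ) T c = kap y T (σ c) := by
  have h := ConcreteCategory.congr_hom (Scheme.ΓSpecIso_inv_naturality (CommRingCat.ofHom σ)) c
  simp only [kap, ← Category.assoc, Scheme.Hom.comp_appTop _ (spc σ)]
  exact congrArg (T.hom ≫ y).appTop h.symm

variable (f : QZ l →+ Additive kˣ) (y : Y ⟶ Spec (.of k))

/-- The root of unity `f c` as a section of `G_m`. -/
noncomputable def zeA (T : Over Y) : ULift.{1} (QZ l) →+ (Gm Y).obj.obj (op T) :=
  (GmTop _).symm.toAddMonoidHom.comp ((Units.map (kap y T).toMonoidHom).toAdditive.comp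
    (f.comp AddEquiv.ulift.toAddMonoidHom))

/-- The map of presheaves. -/
noncomputable def zeP :
    (Functor.const _).obj (AddCommGrpCat.of (ULift.{1} (QZ l))) ⟶ (muiS l Y).obj where
  app T := AddCommGrpCat.ofHom ((zeA f y T.unop).codRestrict _ fun c => (cof_QZ.1 c.down).elim
    fun n h => muiSub_tor n ((map_nsmul (zeA f y T.unop) _ c).symm.trans
      ((congrArg _ (ULift.ext _ _ h)).trans (map_zero _))))
  naturality T T' g := by ext c; exact Subtype.ext (Gm_ext (kap_res y g.unop _).symm)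

/-- `ℚ_l/ℤ_l → μ_(l^∞)`. -/
noncomputable def zeM : Linf l Y ⟶ muiS l Y := ⟨sheafifyLift _ (zeP f y) (muiS l Y).property⟩

/-- `ℚ_l/ℤ_l → G_m`. -/
noncomputable def ze : Linf l Y ⟶ Gm Y := zeM f y ≫ muiI l Y

lemma zeM_fac : toSheafify (Scheme.etaleTopology.over Y) ((Functor.const _).obj (AddCommGrpCat.of (ULift.{1} (QZ l)))) ≫
    (zeM f y).hom = zeP f y := toSheafify_sheafifyLift _ _ _

lemma ze_app (T : Over Y) (c : ULift.{1} (QZ l)) :
    ((GmTop T ((ze f y).hom.app (op T) (cstι (.of (ULift.{1} (QZ l))) T c))).toMul :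
      Γ(T.left, ⊤)) = kap y T (f c.down).toMul :=
  congrArg (fun s : (muiS l Y).obj.obj (op T) => ((GmTop T s.1).toMul : Γ(T.left, ⊤)))
    congr(($(zeM_fac f y)).app (op T) c)

/-- Compatibility with pull-backs. -/
lemma ze_pb (g : Y' ⟶ Y) : (pb (J := Scheme.etaleTopology) g).map (ze f y) ≫ (pbGm g).hom =
    (cstPb g).hom.app _ ≫ ze f (g ≫ y) :=
  pb_cst_ext g (M := .of (ULift.{1} (QZ l))) fun T c => Gm_ext
    (((ze_app f y ((Over.map g).obj T) c).trans (kap_pb g y T _)).trans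
      ((ze_app f (g ≫ y) T c).symm.trans (congrArg (fun s =>
        ((GmTop T ((ze f (g ≫ y)).hom.app (op T) s)).toMul : Γ(T.left, ⊤)))
        (cstPb_app g (.of (ULift.{1} (QZ l))) T c).symm)))

lemma nsmul_app {F G : Sh (Scheme.etaleTopology.over Y)} (a : F ⟶ G) (Q : ℕ) (T : (Over Y)ᵒᵖ) (s : F.obj.obj T) :
    (Q • a).hom.app T s = Q • a.hom.app T s := by
  induction Q with
  | zero => rw [zero_nsmul, zero_nsmul]; rfl
  | succ Q ih => rw [succ_nsmul, succ_nsmul, ← ih]; rfl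

/-- Twisting the structure map. -/
lemma ze_spc {k' : Type} [Field k'] (f' : QZ l →+ Additive k'ˣ) (σ : k' →+* k) (Q : ℕ)
    (h : ∀ c, σ (f' c).toMul ^ Q = (f c).toMul) : Q • ze f' (y ≫ spc σ) = ze f y :=
  cst_ext (M := .of (ULift.{1} (QZ l))) fun T c =>
    (nsmul_app (ze f' (y ≫ spc σ)) Q (op T) _).trans (Gm_ext (by
      refine Eq.trans ?_ (ze_app f y T c).symm
      rw [← h, map_pow, ← kap_spc, map_nsmul, toMul_nsmul, Units.val_pow_eq_pow_val]
      exact congrArg (· ^ Q) (ze_app f' _ T c)))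

/-- `f` is a full system of roots of unity. -/
def Sys : Prop := Injective f ∧ ∀ n, ∃ c, IsPrimitiveRoot ((f c).toMul : k) (l ^ n)

lemma exSys (l : ℕ) [Fact l.Prime] (k : Type) [Field k] [IsAlgClosed k] (hl : (l : k) ≠ 0) :
    ∃ f : QZ l →+ Additive kˣ, Sys f := mui_alg l k hl

lemma sys_pow {σ : k →+* k} {Q : ℕ} (h : ∀ (ζ : k) (n : ℕ), ζ ^ l ^ n = 1 → σ ζ ^ Q = ζ)
    (c : QZ l) : σ (f c).toMul ^ Q = (f c).toMul := by
  obtain ⟨n, hn⟩ := cof_QZ.1 c
  refine h _ n ?_
  rw [← Units.val_pow_eq_pow_val, ← toMul_nsmul, ← map_nsmul, hn, map_zero]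
  rfl

variable {f}

theorem zeM_iso (h : Sys f) : IsIso (zeM f y) := by
  obtain ⟨hf, hp⟩ := h
  have he := zeM_fac f y
  have : Presheaf.IsLocallyInjective (Scheme.etaleTopology.over Y) (zeP f y) := ⟨fun {T} a b h => mem_Jov_of _ fun t => by
    obtain rfl : a = b := by
      have : Nonempty (⊤ : T.unop.left.Opens) := ⟨⟨t, trivial⟩⟩
      exact ULift.ext _ _ (hf (Additive.toMul.injective (Units.ext ((kap y T.unop).injective
        (congrArg (fun s : (muiS l Y).obj.obj T => ((GmTop T.unop s.1).toMul).val) h)))))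
    exact ⟨_, 𝟙 _, (inferInstance : Etale (𝟙 _)), rfl, t, by simp⟩⟩
  have : Sheaf.IsLocallyInjective (zeM f y) :=
    Presheaf.isLocallyInjective_of_isLocallyInjective_of_isLocallySurjective_fac _ (zeP f y) he
  have := Sheaf.mono_of_isLocallyInjective (zeM f y)
  have : Epi (zeM f y) := epi_of_loc _ fun R _ u s m hm => by
    let := Ideal.Quotient.field m
    have : CompactSpace (ob u R).left := inferInstanceAs (CompactSpace (Spec _))
    obtain ⟨n, hn⟩ := mui_tor (T := ob u R) _ s.2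
    obtain ⟨c, hc⟩ := hp n
    have : NeZero (l ^ n) := ⟨pow_ne_zero n (Fact.out : l.Prime).ne_zero⟩
    let ν : k →+* R := (Scheme.ΓSpecIso (.of R)).hom.hom.comp (kap y (ob u R))
    obtain ⟨i, E, -, h2, h3⟩ := root_loc (n := l ^ n) (ζ := ν (f c).toMul)
      (σ := (GmEquiv (ob u R).hom s.1).toMul) (by rw [← map_pow, hc.pow_eq_one, map_one])
      (congrArg Units.val ((mu_pow _ _ _).2 hn)) m
      (hc.map_of_injective ((Ideal.Quotient.mk m).comp ν).injective)
    refine ⟨E, h2, (toSheafify (Scheme.etaleTopology.over Y) ((Functor.const _).obj (AddCommGrpCat.of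
      (ULift.{1} (QZ l))))).app (op (ob u E.E)) (ULift.up (i • c)),
      Eq.trans congr(($he).app _ (ULift.up (i • c))) (Subtype.ext (Gm_ext ?_))⟩
    refine (ConcreteCategory.bijective_of_isIso (Scheme.ΓSpecIso (.of E.E)).hom).1 ?_
    have h4 (z : Γ(Spec (.of R), ⊤)) : (Scheme.ΓSpecIso (.of E.E)).hom
        ((E4.hm u E.ι).left.appTop z) = E.ι ((Scheme.ΓSpecIso (.of R)).hom z) :=
      ConcreteCategory.congr_hom (Scheme.ΓSpecIso_naturality (CommRingCat.ofHom E.ι.toRingHom)) z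
    refine Eq.trans ?_ (h3.trans (h4 _).symm)
    change (Scheme.ΓSpecIso (.of E.E)).hom (kap y (ob u E.E) (f (i • c)).toMul) = _
    rw [← kap_res y (E4.hm u E.ι), h4, map_nsmul, toMul_nsmul, Units.val_pow_eq_pow_val, map_pow,
      map_pow, map_pow]
    rfl
  exact isIso_of_mono_of_epi _

theorem ze_mono (h : Sys f) : Mono (ze f y) :=
  have := zeM_iso y h
  mono_comp _ _

omit [Fact l.Prime] in
lemma mui_lift (A : Sh (Scheme.etaleTopology.over Y)) (a : A ⟶ Gm Y) (h : l • a = 0) : ∃ b, b ≫ muiI l Y = a := by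
  have h1 : a ≫ (((l ^ 1 : ℕ) : ℤ) • 𝟙 (Gm Y)) = 0 := by
    rw [pow_one, natCast_zsmul, Preadditive.comp_nsmul, Category.comp_id, h]
  exact ⟨kernel.lift _ a h1 ≫ muiJ l 1 Y, by
    rw [Category.assoc]
    exact kernel.lift_ι _ _ h1⟩

/-- The cokernel of `ze` is uniquely `l`-divisible. -/
theorem ze_coker (h : Sys f) (hl : (l : k) ≠ 0) : IsIso (l • 𝟙 (cokernel (ze f y))) := by
  have hY : Linv l Y := (Linv.spec (isUnit_iff_ne_zero.2 hl)).of_hom y
  have := zeM_iso y h
  have := ze_mono y h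
  have h1 : Epi (l • 𝟙 (muiS l Y)) := by simpa using mui_epi hY 1
  have h2 : Epi (l • 𝟙 (Gm Y)) := by simpa [kumS] using (kummer hY).epi_g
  have h3 : Epi (l • 𝟙 (Linf l Y)) := by
    have e : l • 𝟙 (Linf l Y) = zeM f y ≫ (l • 𝟙 (muiS l Y)) ≫ inv (zeM f y) := by simp
    rw [e]
    infer_instance
  refine coker_iso _ l fun A a ha => ?_
  obtain ⟨b, hb⟩ := mui_lift A a ha
  exact ⟨b ≫ inv (zeM f y), by rw [ze, Category.assoc, IsIso.inv_hom_id_assoc, hb]⟩

/-- `Ext(A, ℚ_l/ℤ_l) = Ext(A, G_m)` if `A` has no `Ext` to uniquely divisible sheaves. -/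
theorem ze_bij (h : Sys f) (hl : (l : k) ≠ 0) (A : Sh (Scheme.etaleTopology.over Y))
    (hA : ∀ D : Sh (Scheme.etaleTopology.over Y), IsIso (l • 𝟙 D) → ∀ (n : ℕ) (x : Ext.{1} A D n), x = 0) (n : ℕ) :
    Bijective (post A (ze f y) n) :=
  have := ze_mono y h
  post_bij_of _ (hA _ (ze_coker y h hl)) n

end Pool.Agent.MP_855f4c_ag.T.Ze

end

section

/-! Row TEL, the instance: constant sheaves followed by the cokernel of extension by zero. -/

set_option autoImplicit false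
set_option backward.isDefEq.respectTransparency false

open CategoryTheory Limits Abelian Function AlgebraicGeometry

namespace Pool.Agent.MP_855f4c_ag.T.Tel

open E E4

universe t s

variable {X : Scheme.{0}}

/-- `Q F` is the cokernel of `F_U ⟶ F`, functorially in `F`. -/
structure IsQ (U : X.Opens) (Q : Sh (Scheme.etaleTopology.over X) ⥤ Sh (Scheme.etaleTopology.over X)) (π : 𝟭 _ ⟶ Q) : Prop where
  w : ∀ F, (ezι U).app F ≫ π.app F = 0
  ex : ∀ F, (ShortComplex.mk _ _ (w F)).ShortExact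

/-- The cokernel functor. -/
noncomputable def QU (U : X.Opens) : Sh (Scheme.etaleTopology.over X) ⥤ Sh (Scheme.etaleTopology.over X) where
  obj F := cokernel ((ezι U).app F)
  map f := cokernel.map _ _ ((ez U).map f) f ((ezι U).naturality f).symm
  map_id F := coequalizer.hom_ext (by simp)
  map_comp f g := coequalizer.hom_ext (by simp)

/-- The projection onto the cokernel. -/
noncomputable def πU (U : X.Opens) : 𝟭 _ ⟶ QU U where
  app _ := cokernel.π _
  naturality _ _ _ := (cokernel.π_desc _ _ _).symm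

lemma isQ (U : X.Opens) : IsQ U (QU U) (πU U) :=
  ⟨fun _ => cokernel.condition _, fun _ => { exact := ShortComplex.exact_cokernel _
                                             epi_g := coequalizer.π_epi }⟩

namespace IsQ
variable {U : X.Opens} {Q : Sh (Scheme.etaleTopology.over X) ⥤ Sh (Scheme.etaleTopology.over X)} {π : 𝟭 _ ⟶ Q} (h : IsQ U Q π)
include h

lemma epi (F : Sh (Scheme.etaleTopology.over X)) : Epi (π.app F) := (h.ex F).epi_g

lemma additive : Q.Additive := ⟨fun {F G f g} => by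
  have := h.epi F
  rw [← cancel_epi (π.app F), Preadditive.comp_add, ← π.naturality, ← π.naturality,
    ← π.naturality]
  exact Preadditive.add_comp _ _ _ _ _ _⟩

lemma pb_π (F : Sh (Scheme.etaleTopology.over X)) : (pb (J := Scheme.etaleTopology) U.ι).map (π.app F) = 0 := by
  have := ez_pb_isIso U F
  rw [← cancel_epi ((pb (J := Scheme.etaleTopology) U.ι).map ((ezι U).app F)), ← Functor.map_comp,
    h.w, Functor.map_zero, comp_zero]

/-- A map that vanishes on `U` factors through `Q F`. -/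
lemma desc {F G : Sh (Scheme.etaleTopology.over X)} (φ : F ⟶ G) (hφ : (pb (J := Scheme.etaleTopology) U.ι).map φ = 0) :
    ∃ ψ : Q.obj F ⟶ G, π.app F ≫ ψ = φ :=
  have := h.epi F
  (h.ex F).exact.desc' φ ((ez_hom_bij U F G).1 (by
    simp only [Functor.map_comp, hφ, comp_zero, Functor.map_zero]))

lemma colim (J : Type t) [Category.{s} J] :
    PreservesColimitsOfShape J Q := ⟨fun {K} => ⟨fun {c} hc => by
  have := (pbpf U.ι).leftAdjoint_preservesColimits.{s, t}
  have key (s : Cocone (K ⋙ Q)) : ∃ ψ : Q.obj c.pt ⟶ s.pt,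
      π.app c.pt ≫ ψ = hc.desc ⟨s.pt, Functor.whiskerLeft K π ≫ s.ι⟩ :=
    h.desc _ ((isColimitOfPreserves (pb (J := Scheme.etaleTopology) U.ι) hc).hom_ext fun j => by
      rw [comp_zero, Functor.mapCocone_ι_app, ← Functor.map_comp, hc.fac]
      exact (Functor.map_comp _ (π.app _) _).trans (by rw [h.pb_π, zero_comp]))
  choose d hd using key
  refine ⟨⟨d, fun s j => ?_, fun s m hm => ?_⟩⟩
  · have := h.epi (K.obj j)
    rw [← cancel_epi (π.app (K.obj j)), Functor.mapCocone_ι_app, ← π.naturality_assoc, hd]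
    exact hc.fac _ j
  · have := h.epi c.pt
    rw [← cancel_epi (π.app c.pt), hd]
    refine hc.uniq ⟨s.pt, Functor.whiskerLeft K π ≫ s.ι⟩ _ fun j => ?_
    exact (π.naturality_assoc _ _).trans (congrArg (π.app _ ≫ ·) (hm j))⟩⟩

lemma shortExact [Q.Additive] {S : ShortComplex (Sh (Scheme.etaleTopology.over X))} (hS : S.ShortExact) :
    (S.map Q).ShortExact := by
  have : PreservesFiniteColimits Q := ⟨fun J _ _ => h.colim J⟩
  have := hS.mono_f
  have := hS.epi_g
  have h1 := (Functor.preservesFiniteColimits_iff_forall_exact_map_and_epi Q).1 inferInstance S hS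
  have h2 := ez_shortExact U hS
  have := h2.mono_f
  have := h.epi S.X₁
  have := (h.ex S.X₂).mono_f
  refine { exact := h1.1, epi_g := h1.2, mono_f := (Preadditive.mono_iff_cancel_zero _).2 ?_ }
  intro T x hx
  obtain ⟨T', p, _, y, hy⟩ := surjective_up_to_refinements_of_epi (π.app S.X₁) x
  obtain ⟨a, ha⟩ := (h.ex S.X₂).exact.lift' (y ≫ S.f) (by
    rw [Category.assoc]
    exact (congrArg (y ≫ ·) (π.naturality S.f)).trans (by
      rw [← Category.assoc, ← hy, Category.assoc]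
      exact (congrArg (p ≫ ·) hx).trans comp_zero))
  obtain ⟨b, rfl⟩ := h2.exact.lift' a (by
    rw [← cancel_mono ((ezι U).app S.X₃), zero_comp, Category.assoc]
    refine (congrArg (a ≫ ·) ((ezι U).naturality S.g)).trans ?_
    rw [← Category.assoc]
    exact (congrArg (· ≫ S.g) ha).trans (by rw [Category.assoc, S.zero, comp_zero]))
  obtain rfl : b ≫ (ezι U).app S.X₁ = y := by
    rw [← cancel_mono S.f, ← ha, Category.assoc, Category.assoc]
    exact congrArg (b ≫ ·) ((ezι U).naturality S.f).symm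
  rw [← cancel_epi p, hy, Category.assoc, h.w, comp_zero, comp_zero]

end IsQ

instance (U : X.Opens) : (QU U).Additive := (isQ U).additive

instance cst_add : (cst X).Additive := by
  unfold cst constantSheaf
  infer_instance

theorem good_cst : Good (cst X) := by
  have : PreservesFiniteLimits (cst X) := by
    unfold cst constantSheaf
    infer_instance
  have := (constantSheafAdj (Scheme.etaleTopology.over X) Ab.{1} Over.mkIdTerminal).leftAdjoint_preservesColimits.{0, 0}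
  have := (constantSheafAdj (Scheme.etaleTopology.over X) Ab.{1} Over.mkIdTerminal).leftAdjoint_preservesColimits.{1, 1}
  exact ⟨fun S hS => hS.map_of_exact _, fun _ => inferInstance⟩

lemma IsQ.good {U : X.Opens} {Q : Sh (Scheme.etaleTopology.over X) ⥤ Sh (Scheme.etaleTopology.over X)} {π : 𝟭 _ ⟶ Q} (h : IsQ U Q π)
    [Q.Additive] {Φ : Ab.{t} ⥤ Sh (Scheme.etaleTopology.over X)} [Φ.Additive] (hΦ : Good Φ) : Good (Φ ⋙ Q) :=
  ⟨fun S hS => h.shortExact (hΦ.ex S hS), fun ι => by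
    have := hΦ.sum ι
    have := h.colim (Discrete ι)
    infer_instance⟩

theorem good_QU (U : X.Opens) : Good (cst X ⋙ QU U) := (isQ U).good good_cst

variable (l : ℕ) [Fact l.Prime]

lemma prim_QZ : Prim l (.of (ULift.{1} (QZ l))) := by
  rintro ⟨x⟩
  obtain ⟨x, rfl⟩ := QuotientAddGroup.mk_surjective x
  obtain ⟨n, hn⟩ := ((tendsto_pow_atTop_nhds_zero_of_lt_one (norm_nonneg (l : ℚ_[l]))
    Padic.norm_p_lt_one).mul_const ‖x‖).eventually (ge_mem_nhds (by simp : 0 * ‖x‖ < 1)) |>.exists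
  refine ⟨n, ULift.ext _ _ ((QuotientAddGroup.eq_zero_iff (l ^ n • x)).2 ?_)⟩
  change ‖l ^ n • x‖ ≤ 1
  rwa [nsmul_eq_mul, norm_mul, Nat.cast_pow, norm_pow]

lemma linf_eq : Linf l X = (cst X).obj (.of (ULift.{1} (QZ l))) := rfl

/-- `Ext(A_U, D) = 0` for uniquely `l`-divisible `D`. -/
theorem IsQ.van {U : X.Opens} {Q : Sh (Scheme.etaleTopology.over X) ⥤ Sh (Scheme.etaleTopology.over X)} {π : 𝟭 _ ⟶ Q} (h : IsQ U Q π)
    (D : Sh (Scheme.etaleTopology.over X)) [IsIso (l • 𝟙 D)] (q : ℕ) (x : Ext (Q.obj (Linf l X)) D q) : x = 0 :=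
  have := h.additive
  tel0 (h.good good_cst) l D q _ (prim_QZ l) x

/-- `Ext(L, D) = 0` for uniquely `l`-divisible `D`. -/
theorem van (D : Sh (Scheme.etaleTopology.over X)) [IsIso (l • 𝟙 D)] (q : ℕ) (x : Ext (Linf l X) D q) : x = 0 :=
  tel0 good_cst l D q _ (prim_QZ l) x

end Pool.Agent.MP_855f4c_ag.T.Tel

end

section

/-! h12g, row JX: the classes `x_k` on an affine scheme with a family of rank one idempotents. -/

set_option autoImplicit false
set_option backward.isDefEq.respectTransparency false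

open CategoryTheory Limits Abelian Opposite AlgebraicGeometry MvPolynomial

namespace Pool.Agent.MP_855f4c_ag.T

open E E3 E4

namespace JX

section functions
variable {U U' : Scheme.{0}} {D D' : Type} [CommRing D] [CommRing D']

lemma str_comp (w : U' ⟶ U) (h : U ⟶ Spec (.of D)) (d : D) :
    str (w ≫ h) d = gam w (str h d) := by simp [str, gam]

lemma str_spc (h : U ⟶ Spec (.of D')) (ψ : D →+* D') (d : D) :
    str (h ≫ spc ψ) d = str h (ψ d) := by
  rw [str_comp]
  exact congrArg (gam h) congr(($(Scheme.ΓSpecIso_inv_naturality (CommRingCat.ofHom ψ))).hom d).symm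

lemma spc_ev (w : Spec (.of D') ⟶ U) (h : U ⟶ Spec (.of D)) :
    spc ((ev w).comp (str h)) = w ≫ h := by
  apply ext_of_isAffine
  rw [← cancel_epi (Scheme.ΓSpecIso (.of D)).inv, ← Scheme.ΓSpecIso_inv_naturality,
    ← cancel_mono (Scheme.ΓSpecIso (.of D')).hom]
  simp only [Category.assoc, Iso.inv_hom_id, Category.comp_id, Scheme.Hom.comp_appTop]
  rfl

lemma unit_of (f : Γ(U, ⊤)) (h : ∀ u, u ∈ U.basicOpen f) : IsUnit f :=
  RingedSpace.isUnit_of_isUnit_germ U.toRingedSpace ⊤ f fun x _ => (U.mem_basicOpen_top f x).1 (h x)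

lemma mem_str (h : U ⟶ Spec (.of D)) (d : D) (u : U) :
    u ∈ U.basicOpen (str h d) ↔ d ∉ (h u).asIdeal := by
  have e : str h d = h.appTop ((Scheme.ΓSpecIso (.of D)).inv d) := rfl
  rw [e, ← Scheme.preimage_basicOpen_top, basicOpen_eq_of_affine]
  rfl

lemma pt_of_cols (z : Spec (.of D) ⟶ P1) (x y : Fin 2 → D) (h : Cov x y)
    (hz : ∀ j, CoA z fun i => x i * y j) : Pt z x := by
  have hy : Ideal.span (Set.range y) = ⊤ := by
    rw [Ideal.eq_top_iff_one, ← h]
    exact Ideal.sum_mem _ fun i _ => Ideal.mul_mem_right _ _ (Ideal.subset_span ⟨i, rfl⟩)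
  have hu (j) : IsUnit (algebraMap D (Localization.Away (y j)) (y j)) :=
    IsLocalization.Away.algebraMap_isUnit _
  constructor
  · intro a h0 h1
    refine (Scheme.affineOpenCoverOfSpanRangeEqTop (R := .of D) y hy).openCover.hom_ext _ _ fun j => ?_
    refine ((hz j _ (algebraMap D (Localization.Away (y j)))).1 _ ?_ ?_).trans (map_pt1 _ a).symm
    · simpa using ⟨h0.map _, hu j⟩
    · simp only [Function.comp, h1, map_mul]; ring
  · intro a h0 h1
    refine (Scheme.affineOpenCoverOfSpanRangeEqTop (R := .of D) y hy).openCover.hom_ext _ _ fun j => ?_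
    refine ((hz j _ (algebraMap D (Localization.Away (y j)))).2 _ ?_ ?_).trans (map_pt2 _ a).symm
    · simpa using ⟨h0.map _, hu j⟩
    · simp only [Function.comp, h1, map_mul]; ring

end functions

section algebra
variable {κ R : Type} [CommRing R] {a b : XY κ → R}

lemma x_mul (ha : Rel b) (h : emat a = emat b) (k : κ) (i : Fin 2) :
    b (.inl (k, i)) = a (.inl (k, i)) * ∑ j, a (.inr (k, j)) * b (.inl (k, j)) := by
  have h0 : a (.inl (k, i)) * a (.inr (k, 0)) = b (.inl (k, i)) * b (.inr (k, 0)) :=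
    congrFun h (k, i, 0)
  have h1 : a (.inl (k, i)) * a (.inr (k, 1)) = b (.inl (k, i)) * b (.inr (k, 1)) :=
    congrFun h (k, i, 1)
  have := ha k
  rw [Fin.sum_univ_two] at this ⊢
  linear_combination (-b (.inl (k, 0))) * h0 - b (.inl (k, 1)) * h1 - b (.inl (k, i)) * this

lemma y_mul (ha : Rel b) (h : emat a = emat b) (k : κ) (i : Fin 2) :
    b (.inr (k, i)) = a (.inr (k, i)) * ∑ j, b (.inr (k, j)) * a (.inl (k, j)) := by
  have h0 : a (.inl (k, 0)) * a (.inr (k, i)) = b (.inl (k, 0)) * b (.inr (k, i)) :=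
    congrFun h (k, 0, i)
  have h1 : a (.inl (k, 1)) * a (.inr (k, i)) = b (.inl (k, 1)) * b (.inr (k, i)) :=
    congrFun h (k, 1, i)
  have := ha k
  rw [Fin.sum_univ_two] at this ⊢
  linear_combination (-b (.inr (k, 0))) * h0 - b (.inr (k, 1)) * h1 - b (.inr (k, i)) * this

lemma u_mul {c : XY κ → R} (hc : Rel c) (h : emat b = emat c) (k : κ) :
    (∑ j, a (.inr (k, j)) * b (.inl (k, j))) * ∑ j, b (.inr (k, j)) * c (.inl (k, j)) =
      ∑ j, a (.inr (k, j)) * c (.inl (k, j)) := by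
  rw [Finset.sum_mul]
  exact Finset.sum_congr rfl fun j _ => by rw [mul_assoc, ← x_mul hc h]

/-- The ratio of two trivialisations. -/
def eu (ha : Rel a) (hb : Rel b) (h : emat a = emat b) (k : κ) : Rˣ :=
  ⟨∑ j, a (.inr (k, j)) * b (.inl (k, j)), ∑ j, b (.inr (k, j)) * a (.inl (k, j)),
    (u_mul ha h.symm k).trans (ha k), (u_mul hb h k).trans (hb k)⟩

end algebra

variable {κ : Type} [Fintype κ] [DecidableEq κ] {D D' : Type} [CommRing D] [CommRing D']

/-- Trivialisations of `e`. -/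
noncomputable def eT {e : EV κ → D} (he : JP e) : Trv (Spec (.of D)) where
  tr U := {a : XY κ → Γ(U.left, ⊤) // emat a = str U.hom ∘ e}
  res w a := ⟨gam w.left ∘ a.1, funext fun v => by
    have := congrArg (gam w.left) (congrFun a.2 v)
    simp only [emat, Function.comp, map_mul] at this ⊢
    rw [this, ← str_comp, Over.w w]⟩
  res_id U a := Subtype.ext (funext fun _ => gam_id _ _)
  res_comp v w a := Subtype.ext (funext fun _ => gam_comp _ _ _)
  loc U u := by
    have h1 : ∀ k, ∃ i, e (k, i, i) ∉ (U.hom u).asIdeal := fun k => by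
      by_contra hc
      push Not at hc
      exact (U.hom u).2.ne_top ((Ideal.eq_top_iff_one _).2 ((he k).1 ▸ add_mem (hc 0) (hc 1)))
    choose σ hσ using h1
    have h2 : u ∈ U.left.basicOpen (str U.hom (∏ k, e (k, σ k, σ k))) := by
      rw [mem_str]
      intro hc
      obtain ⟨k, -, hk⟩ := (U.hom u).2.prod_mem_iff.1 hc
      exact hσ k hk
    refine ⟨_, opι U (U.left.basicOpen (str U.hom (∏ k, e (k, σ k, σ k)))),
      inferInstanceAs (IsOpenImmersion (Scheme.Opens.ι _)), ⟨⟨u, h2⟩, rfl⟩, ?_⟩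
    obtain ⟨a, ha⟩ := Ja.p3 (str (opn U (U.left.basicOpen (str U.hom (∏ k, e (k, σ k, σ k))))).hom ∘ e)
      σ (Ja.jp_map _ he) fun k => unit_of _ fun t => (mem_str _ _ _).2 fun hc =>
        (mem_str _ _ _).1 t.2 (Ideal.mem_of_dvd _ (Finset.dvd_prod_of_mem _ (Finset.mem_univ k)) hc)
    exact ⟨⟨a, ha⟩⟩

variable {e : EV κ → D} (he : JP e)

omit [DecidableEq κ] in
lemma rel {U : Over (Spec (.of D))} (a : (eT he).tr U) : Rel a.1 :=
  Ja.rel_of_jp (by rw [a.2]; exact Ja.jp_map _ he)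

/-- The cocycle of weight `n`. -/
noncomputable def eC (n : κ → ℤ) : Coc (eT he) where
  g U a b := ∏ k, eu (rel he a) (rel he b) (a.2.trans b.2.symm) k ^ n k
  res {U' U} w a b := by
    have : ∀ k, eu (rel he ((eT he).res w a)) (rel he ((eT he).res w b))
        (((eT he).res w a).2.trans ((eT he).res w b).2.symm) k =
        Units.map (gam w.left : _ →* _) (eu (rel he a) (rel he b) (a.2.trans b.2.symm) k) :=
      fun k => Units.ext (by simp [eu, eT])
    simp only [this, ← map_zpow, ← map_prod]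
    rfl
  mul U a b c := by
    rw [← Finset.prod_mul_distrib]
    refine Finset.prod_congr rfl fun k _ => ?_
    rw [← mul_zpow]
    exact congrArg (· ^ n k) (Units.ext (u_mul (rel he c) (b.2.trans c.2.symm) k))

/-- The section given by a polynomial of weight `n`. -/
noncomputable def eS {n : κ → ℤ} {s : MvPolynomial (XY κ) D} (hs : Hg n s) (O : (Spec (.of D)).Opens)
    (hO : ∀ (U : Over (Spec (.of D))) (a : (eT he).tr U), (∀ u, U.hom u ∈ O) →
      IsUnit (eval₂ (str U.hom) a.1 s)) : Sec (eC he n) O where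
  s U a := eval₂ (str U.hom) a.1 s
  res {U' U} w a := by
    rw [eval₂_comp_left]
    congr 1
    ext d
    rw [RingHom.comp_apply, ← str_comp, Over.w w]
  tr U a b := by
    refine Eq.trans ?_ (Ja.p4 n s _ _ a.1 (eu (rel he a) (rel he b) (a.2.trans b.2.symm)) hs)
    congr 1
    funext v
    rcases v with v | v
    · exact x_mul (rel he b) (a.2.trans b.2.symm) v.1 v.2
    · exact y_mul (rel he b) (a.2.trans b.2.symm) v.1 v.2
  unit := hO

omit [DecidableEq κ] in
lemma unit_opI {s : MvPolynomial (XY κ) D} {I : Ideal D}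
    (h : ∀ (D' : Type) [CommRing D'] (ψ : D →+* D') (a : XY κ → D'), emat a = ψ ∘ e →
      I.map ψ ≤ Ideal.span {eval₂ ψ a s})
    (U : Over (Spec (.of D))) (a : (eT he).tr U) (hU : ∀ u, U.hom u ∈ opI I) :
    IsUnit (eval₂ (str U.hom) a.1 s) := by
  refine unit_of _ fun u => ?_
  obtain ⟨f, hf, hu⟩ := Set.not_subset.1 (hU u)
  obtain ⟨r, hr⟩ := Ideal.mem_span_singleton'.1 (h _ _ a.1 a.2 (Ideal.mem_map_of_mem _ hf))
  have := (mem_str U.hom f u).2 hu
  rw [← hr, Scheme.basicOpen_mul] at this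
  exact this.2

/-- The section given by `s`, a unit off its zero set. -/
noncomputable def eZ {n : κ → ℤ} {s : MvPolynomial (XY κ) D} (hs : Hg n s) {I : Ideal D}
    (hI : Zer e s I) : Sec (eC he n) (opI I) :=
  eS he hs _ (unit_opI he fun D' _ ψ a h => (hI D' ψ a h).le)

/-- Naturality in the ring. -/
noncomputable def eH (ψ : D →+* D') {e' : EV κ → D'} (he' : JP e') (h : e' = ψ ∘ e) (n : κ → ℤ) :
    CHom (spc ψ) (eC he' n) (eC he n) where
  m U a := ⟨a.1, a.2.trans (funext fun v => by rw [h]; exact (str_spc U.hom ψ _).symm)⟩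
  res _ _ := rfl
  g _ _ _ := rfl

omit [DecidableEq κ] in
lemma eH_s (ψ : D →+* D') {e' : EV κ → D'} (he' : JP e') (h : e' = ψ ∘ e) (n : κ → ℤ)
    (s : MvPolynomial (XY κ) D) (U : Over (Spec (.of D'))) (a : (eT he').tr U) :
    eval₂ (str U.hom) a.1 (map ψ s) =
      eval₂ (str ((Over.map (spc ψ)).obj U).hom) ((eH he ψ he' h n).m U a).1 s := by
  rw [eval₂_map]
  congr 1
  ext d
  exact (str_spc U.hom ψ d).symm

section chern
variable {l : ℕ} [Fact l.Prime] {Ω : Type} [Field Ω] (Ch : Chern l Ω) {T T' : Scheme.{0}}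

lemma c_eq (t : T ⟶ Spec (.of Ω)) {𝒯' 𝒯 : Trv T} {γ' : Coc 𝒯'} {γ : Coc 𝒯}
    (m : CHom (𝟙 T) γ' γ) : Ch.c t γ' = Ch.c t γ := by
  let i (U : Over T) : (Over.map (𝟙 T)).obj U ⟶ U := Over.homMk (𝟙 U.left) (by simp)
  have h := Ch.c_nat (𝟙 T) t (γ' := γ) (γ := γ) ⟨fun U a => 𝒯.res (i U) a, fun w a => by
    rw [← 𝒯.res_comp, ← 𝒯.res_comp]
    congr 1, fun U a b => Units.ext ((γ.res (i U) a b).trans (gam_id _ _)).symm⟩
  have h' := Ch.c_nat (𝟙 T) t m
  rw [Category.id_comp] at h h'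
  exact h'.symm.trans h

lemma piU_top : πU l (⊤ : T.Opens) = 0 := by
  have : IsIso ((ezι (⊤ : T.Opens)).app (Linf l T)) :=
    Ez.isIso_of_bij _ fun _ => ezι_bij _ _ fun _ => trivial
  exact cokernel.π_of_epi _

lemma c_unit (t : T ⟶ Spec (.of Ω)) {𝒯 : Trv T} {γ : Coc 𝒯} (s : Sec γ ⊤) : Ch.c t γ = 0 := by
  rw [← Ch.th_c t s, piU_top, pre_apply, Ext.mk₀_zero, Ext.zero_comp]

lemma x_nat (hP : P1L_s) (g : T' ⟶ T) (t : T ⟶ Spec (.of Ω)) (z : T ⟶ P1) :
    epb l g 2 (Ch.x hP t z) = Ch.x hP (g ≫ t) (g ≫ z) :=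
  Ch.c_nat g t ⟨fun U a => ⟨a.1, fun D _ w => by
    have := a.2.1 D w
    rwa [← Category.assoc U.hom] at this, a.2.2⟩, fun _ _ => rfl, fun _ _ _ => rfl⟩

omit [DecidableEq κ] in
lemma cl_nat (hP : P1L_s) (g : T' ⟶ T) (t : T ⟶ Spec (.of Ω)) (z : κ → (T ⟶ P1)) (n : κ → ℤ) :
    epb l g 2 (Ch.cl hP t z n) = Ch.cl hP (g ≫ t) (fun k => g ≫ z k) n := by
  simp only [Chern.cl, map_sum, map_zsmul, x_nat]

variable (hP : P1L_s) (t : Spec (.of D) ⟶ Spec (.of Ω)) {z : κ → (Spec (.of D) ⟶ P1)}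

lemma c_single (hz : Ad e z) (k : κ) : Ch.c t (eC he (Pi.single k 1)) = Ch.x hP t (z k) := by
  refine c_eq Ch t ⟨fun U a => ⟨(fun i => a.1 (.inl (k, i)), fun i => a.1 (.inr (k, i))),
    fun D' _ w => ?_, rel he a k⟩, fun _ _ => rfl, fun U a b => ?_⟩
  · refine pt_of_cols _ _ (fun i => ev w (a.1 (.inr (k, i)))) ?_ fun j D'' _ ψ => ?_
    · simpa [Cov] using congrArg (ev w) (rel he a k)
    · have := hz k j D'' (ψ.comp ((ev w).comp (str U.hom)))
      have e1 : spc (ψ.comp ((ev w).comp (str U.hom))) = spc ψ ≫ w ≫ U.hom := by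
        rw [← spc_ev w U.hom, ← Spec.map_comp]; rfl
      rw [e1] at this
      convert this using 1
      · simp
      · funext i
        exact congrArg ψ (((ev w).map_mul _ _).symm.trans (congrArg (ev w) (congrFun a.2 (k, i, j))))
  · refine (Finset.prod_eq_single k (fun j _ h => ?_) (by simp)).trans ?_
    · rw [Pi.single_eq_of_ne h, zpow_zero]
    · rw [Pi.single_eq_same, zpow_one]; rfl

/-- the class of the cocycle of weight `n` -/
theorem c_eC (hz : Ad e z) (n : κ → ℤ) : Ch.c t (eC he n) = Ch.cl hP t z n := by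
  let f : (κ → ℤ) →+ EE l (Spec (.of D)) 2 := AddMonoidHom.mk' (fun n => Ch.c t (eC he n))
    fun n m => Ch.c_add t _ _ _ fun U a b => by
      simp only [eC, Pi.add_apply, zpow_add, Finset.prod_mul_distrib]
  have h : n = ∑ k, n k • (Pi.single k 1 : κ → ℤ) := by
    rw [← Finset.univ_sum_single n]
    simp [← Pi.single_smul]
  show f n = _
  conv_lhs => rw [h]
  rw [map_sum]
  exact Finset.sum_congr rfl fun k _ => by rw [map_zsmul, ← c_single he Ch hP t hz k]; rfl

/-- classes that vanish on the zero set of `I` are killed in the quotient -/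
def Cli (l : ℕ) [Fact l.Prime] (D : Type) [CommRing D] : Prop :=
  ∀ (I : Ideal D) (n : ℕ) (γ : EE l (Spec (.of D)) n), epb l (spc (Ideal.Quotient.mk I)) n γ = 0 →
    γ.comp (Ext.mk₀ (πU l (opI I))) (add_zero n) = 0

omit [DecidableEq κ] in
lemma kill (hC : Cli l D) {𝒯 : Trv (Spec (.of D))} {γ : Coc 𝒯} {I : Ideal D} (s : Sec γ (opI I))
    {n m : ℕ} (h : n + 2 = m) (α : EE l (Spec (.of D)) n)
    (hα : epb l (spc (Ideal.Quotient.mk I)) n α = 0) : α.comp (Ch.c t γ) h = 0 := by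
  rw [← Ch.th_c t s, pre_apply, ← Ext.comp_assoc _ _ _ (add_zero n) (zero_add 2) h, hC I n α hα,
    Ext.zero_comp]

lemma bez (hC : Cli l D) {n n' : κ → ℤ} {s s' : MvPolynomial (XY κ) D} (hs : Hg n s)
    (hs' : Hg n' s') (I : Ideal D)
    (h : ∀ (D' : Type) [CommRing D'] (ψ : D →+* D') (a : XY κ → D'), emat a = ψ ∘ e →
      I.map ψ ≤ Ideal.span {eval₂ ψ a s})
    (h' : ∀ (D' : Type) [CommRing D'] (ψ : D →+* D') (a : XY κ → D'), emat a = ψ ∘ e →
      (∀ d ∈ I, ψ d = 0) → IsUnit (eval₂ ψ a s')) {m : ℕ} (hm : 2 + 2 = m) :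
    (Ch.c t (eC he n')).comp (Ch.c t (eC he n)) hm = 0 := by
  refine kill Ch t hC (eS he hs _ (unit_opI he h)) hm _ ?_
  have he' := Ja.jp_map (Ideal.Quotient.mk I) he
  rw [Ch.c_nat _ t (eH he (Ideal.Quotient.mk I) he' rfl n')]
  refine c_unit Ch _ (eS he' (Ja.hom_map (Ideal.Quotient.mk I) hs') ⊤ fun U a _ => ?_)
  rw [eval₂_map]
  exact h' _ _ _ a.2 fun d hd => by
    rw [RingHom.comp_apply, Ideal.Quotient.eq_zero_iff_mem.2 hd, map_zero]

omit [Fintype κ] in
lemma hx (k : κ) (i : Fin 2) : Hg (Pi.single k 1) (X (.inl (k, i)) : MvPolynomial (XY κ) D) :=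
  isWeightedHomogeneous_X D wt _

omit [Fintype κ] in
lemma hy (k : κ) (i : Fin 2) : Hg (Pi.single k (-1)) (X (.inr (k, i)) : MvPolynomial (XY κ) D) :=
  isWeightedHomogeneous_X D wt _

include he in
theorem sq (hC : Cli l D) (hz : Ad e z) (k : κ) {m : ℕ} (hm : 2 + 2 = m) :
    (Ch.x hP t (z k)).comp (Ch.x hP t (z k)) hm = 0 := by
  rw [← c_single he Ch hP t hz k]
  refine bez he Ch t hC (hx k 0) (hx k 1) (Ideal.span (Set.range fun j => e (k, 0, j)))
    (fun D' _ ψ a ha => ?_) (fun D' _ ψ a ha h0 => ?_) hm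
  · rw [Ideal.map_span, Ideal.span_le]
    rintro _ ⟨_, ⟨j, rfl⟩, rfl⟩
    rw [eval₂_X, ← show emat a (k, 0, j) = ψ (e (k, 0, j)) from congrFun ha _]
    exact Ideal.mul_mem_right _ _ (Ideal.mem_span_singleton_self _)
  · have h1 := Ja.rel_of_jp (a := a) (by rw [ha]; exact Ja.jp_map _ he) k
    have h2 : a (.inl (k, 0)) * a (.inr (k, 0)) = 0 :=
      (congrFun ha (k, 0, 0)).trans (h0 _ (Ideal.subset_span ⟨0, rfl⟩))
    rw [Fin.sum_univ_two] at h1
    rw [eval₂_X]
    exact IsUnit.of_mul_eq_one (a (.inr (k, 1))) (by linear_combination h1 - h2)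

include he in
theorem com (hC : Cli l D) (hz : Ad e z) (i j : κ) {m : ℕ} (hm : 2 + 2 = m) :
    (Ch.x hP t (z i)).comp (Ch.x hP t (z j)) hm = (Ch.x hP t (z j)).comp (Ch.x hP t (z i)) hm := by
  have hs : Hg (Pi.single i 1 + Pi.single j 1) (X (.inl (i, 0)) * X (.inl (j, 1)) -
      X (.inl (i, 1)) * X (.inl (j, 0)) : MvPolynomial (XY κ) D) :=
    (weightedHomogeneousSubmodule D wt _).sub_mem ((hx i 0).mul (hx j 1)) ((hx i 1).mul (hx j 0))
  have hs' : Hg (Pi.single j (-1) + Pi.single i 1) (X (.inr (j, 0)) * X (.inl (i, 0)) +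
      X (.inr (j, 1)) * X (.inl (i, 1)) : MvPolynomial (XY κ) D) :=
    ((hy j 0).mul (hx i 0)).add ((hy j 1).mul (hx i 1))
  have key := bez he Ch t hC hs hs' (Ideal.span (Set.range fun p : Fin 2 × Fin 2 =>
      e (i, 0, p.1) * e (j, 1, p.2) - e (i, 1, p.1) * e (j, 0, p.2)))
    (fun D' _ ψ a ha => by
      rw [Ideal.map_span, Ideal.span_le]
      rintro _ ⟨_, ⟨p, rfl⟩, rfl⟩
      have h (v) : ψ (e v) = emat a v := (congrFun ha v).symm
      refine Ideal.mem_span_singleton'.2 ⟨a (.inr (i, p.1)) * a (.inr (j, p.2)), ?_⟩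
      simp only [eval₂_sub, eval₂_mul, eval₂_X, map_sub, map_mul, h, emat]
      ring)
    (fun D' _ ψ a ha h0 => by
      have hr := Ja.rel_of_jp (a := a) (by rw [ha]; exact Ja.jp_map _ he)
      have h (v) : ψ (e v) = emat a v := (congrFun ha v).symm
      have h1 (p q : Fin 2) := h0 _ (Ideal.subset_span ⟨(p, q), rfl⟩)
      simp only [map_sub, map_mul, h, emat] at h1
      have h2 := hr i
      have h3 := hr j
      rw [Fin.sum_univ_two] at h2 h3
      have h4 : a (.inl (i, 0)) * a (.inl (j, 1)) - a (.inl (i, 1)) * a (.inl (j, 0)) = 0 := by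
        linear_combination a (.inl (i, 0)) * a (.inl (j, 0)) * h1 0 0
          + a (.inl (i, 0)) * a (.inl (j, 1)) * h1 0 1 + a (.inl (i, 1)) * a (.inl (j, 0)) * h1 1 0
          + a (.inl (i, 1)) * a (.inl (j, 1)) * h1 1 1
          - (a (.inl (i, 0)) * a (.inl (j, 1)) - a (.inl (i, 1)) * a (.inl (j, 0))) *
            ((a (.inr (j, 0)) * a (.inl (j, 0)) + a (.inr (j, 1)) * a (.inl (j, 1))) * h2 + h3)
      simp only [eval₂_add, eval₂_mul, eval₂_X]
      refine IsUnit.of_mul_eq_one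
        (a (.inr (i, 0)) * a (.inl (j, 0)) + a (.inr (i, 1)) * a (.inl (j, 1))) ?_
      linear_combination (a (.inr (j, 0)) * a (.inr (i, 1)) - a (.inr (j, 1)) * a (.inr (i, 0))) * h4
        + (a (.inr (j, 0)) * a (.inl (j, 0)) + a (.inr (j, 1)) * a (.inl (j, 1))) * h2 + h3) hm
  have one (k : κ) (r : ℤ) : Ch.cl hP t z (Pi.single k r) = r • Ch.x hP t (z k) := by
    refine (Finset.sum_eq_single k (fun j _ h => ?_) (by simp)).trans ?_
    · rw [Pi.single_eq_of_ne h, zero_smul]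
    · rw [Pi.single_eq_same]
  have add (n n' : κ → ℤ) : Ch.cl hP t z (n + n') = Ch.cl hP t z n + Ch.cl hP t z n' := by
    simp only [Chern.cl, Pi.add_apply, add_smul, Finset.sum_add_distrib]
  rw [c_eC he Ch hP t hz, c_eC he Ch hP t hz, add, add, one, one, one, one_smul, one_smul,
    neg_one_zsmul, Ext.add_comp, Ext.comp_add, Ext.comp_add, Ext.neg_comp, Ext.neg_comp,
    sq he Ch hP t hC hz, sq he Ch hP t hC hz, neg_zero, add_zero, zero_add, neg_add_eq_zero] at key
  exact key.symm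

end chern

end JX

end Pool.Agent.MP_855f4c_ag.T

end

section

/-! h12g, row RH: the pull-back of the hyperplane class. -/

set_option autoImplicit false
set_option backward.isDefEq.respectTransparency false

open CategoryTheory Limits Abelian Opposite AlgebraicGeometry MvPolynomial

namespace Pool.Agent.MP_855f4c_ag.T

open E E3 E4

def RH_s : Prop := ∀ (l : ℕ) [Fact l.Prime] (Ω : Type) [Field Ω] (Ch : Chern l Ω) (hP : P1L_s)
  (κ ι K C D : Type) [Fintype κ] [DecidableEq κ] [Fintype ι] [CommRing K] [CommRing C] [CommRing D]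
  (χ : K →+* C) (F : C →+* D) (e : EV κ → C) (e₀ : ι × ι → C) (z : ι × ι → D) (n : κ → ℤ)
  (q lam : ι → MvPolynomial (XY κ) K) (Y : Scheme.{0}) (t : Y ⟶ Spec (.of Ω))
  (r : Spec (.of D) ⟶ Y) (co : ∀ U : Over Y, (ι → Γ(U.left, ⊤)) → Prop) (h : IsLin co)
  (y : κ → (Spec (.of D) ⟶ P1)), JP e → Ad (F ∘ e) y → (∀ i, Hg n (q i)) →
    (∀ (D' : Type) [CommRing D'] (ψ : C →+* D') (a : XY κ → D'), emat a = ψ ∘ e → ∀ v,
      ψ (e₀ v) = eval₂ (ψ.comp χ) a (q v.1) * eval₂ (ψ.comp χ) a (lam v.2)) →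
    (∀ i j, ∑ k, z (i, k) * z (k, j) = z (i, j)) → IsUnit (∑ v, z v * F (e₀ v.swap)) →
    (∀ (U : Over (Spec (.of D))) (v μ : ι → Γ(U.left, ⊤)),
      (∀ i, ∑ j, str U.hom (z (i, j)) * v j = v i) → Cov v μ → co ((Over.map r).obj U) v) →
    epb l r 2 (Ch.c t h.coc) = Ch.cl hP (r ≫ t) y n

namespace Rh

variable {ι R : Type} [Fintype ι] [CommRing R] {z : ι × ι → R}
  (hz : ∀ i j, ∑ k, z (i, k) * z (k, j) = z (i, j))
include hz

lemma fix (Q : ι → R) (i : ι) : ∑ j, z (i, j) * ∑ k, z (j, k) * Q k = ∑ k, z (i, k) * Q k := by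
  simp only [Finset.mul_sum, ← mul_assoc]
  rw [Finset.sum_comm]
  simp only [← Finset.sum_mul, hz]

lemma pair (Q Λ : ι → R) (w c : R) (h : (∑ v, z v * (Q v.2 * Λ v.1)) * w = 1) :
    ∑ j, (∑ i, Λ i * z (i, j)) * w * ∑ k, z (j, k) * (c * Q k) = c := by
  have : ∑ j, (∑ i, Λ i * z (i, j)) * ∑ k, z (j, k) * Q k = ∑ v, z v * (Q v.2 * Λ v.1) := by
    simp only [Finset.sum_mul, mul_assoc]
    rw [Finset.sum_comm, Fintype.sum_prod_type]
    simp only [← Finset.mul_sum, fix hz]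
    simp only [Finset.mul_sum]
    exact Finset.sum_congr rfl fun _ _ => Finset.sum_congr rfl fun _ _ => by ring
  simp only [mul_left_comm _ c, ← Finset.mul_sum, mul_right_comm _ w, ← Finset.sum_mul, this, h,
    mul_one]

end Rh

open Rh JX in
theorem rh : RH_s := by
  intro l _ Ω _ Ch hP κ ι K C D _ _ _ _ _ _ χ F e e₀ z n q lam Y t r co h y he hy hq h0 hz hu hco
  have he' : JP (F ∘ e) := Ja.jp_map _ he
  obtain ⟨w, hw⟩ := hu.exists_right_inv
  let E {U : Over (Spec (.of D))} (a : (eT he').tr U) (P : MvPolynomial (XY κ) K) : Γ(U.left, ⊤) :=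
    eval₂ (((str U.hom).comp F).comp χ) a.1 P
  have hr {U' U : Over (Spec (.of D))} (g : U' ⟶ U) (d : D) :
      gam g.left (str U.hom d) = str U'.hom d := by rw [← str_comp, Over.w g]
  have hE {U' U : Over (Spec (.of D))} (g : U' ⟶ U) (a : (eT he').tr U) (P) :
      gam g.left (E a P) = E ((eT he').res g a) P :=
    (eval₂_comp_left _ _ _ _).trans (congrArg (eval₂ · _ P) (RingHom.ext fun _ => hr g _))
  have hT {U : Over (Spec (.of D))} (a b : (eT he').tr U) (i) :
      E b (q i) = (eC he' n).g U a b * E a (q i) := by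
    have := (eS he' (s := map (F.comp χ) (q i))
      (fun _ hd => hq i fun h0 => hd (by rw [coeff_map, h0, map_zero])) ⊥
      fun U a h => unit_of _ fun u => (h u).elim).tr U a b
    change eval₂ _ _ _ = _ * eval₂ _ _ _ at this
    rwa [eval₂_map, eval₂_map] at this
  have hz' (U : Over (Spec (.of D))) (i j) : ∑ k, (str U.hom ∘ z) (i, k) * (str U.hom ∘ z) (k, j) =
      (str U.hom ∘ z) (i, j) := by simpa using congrArg (str U.hom) (hz i j)
  have key {U : Over (Spec (.of D))} (a : (eT he').tr U) (c) :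
      ∑ j, (∑ i, E a (lam i) * str U.hom (z (i, j))) * str U.hom w *
        ∑ k, str U.hom (z (j, k)) * (c * E a (q k)) = c := by
    refine pair (hz' U) _ _ _ c ?_
    have := congrArg (str U.hom) hw
    rw [map_mul, map_sum, map_one] at this
    rw [← this]
    exact congrArg (· * _) (Finset.sum_congr rfl fun v _ => by
      rw [map_mul]; exact congrArg _ (h0 _ ((str U.hom).comp F) a.1 a.2 v.swap).symm)
  have cv {U : Over (Spec (.of D))} (a : (eT he').tr U) :
      Cov (fun j => ∑ k, str U.hom (z (j, k)) * E a (q k))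
        fun j => (∑ i, E a (lam i) * str U.hom (z (i, j))) * str U.hom w := by
    simpa only [one_mul, Cov] using key a 1
  rw [← c_eC he' Ch hP (r ≫ t) hy n]
  refine Ch.c_nat r t
    { m := fun U a => ⟨(fun j => ∑ k, str U.hom (z (j, k)) * E a (q k),
        fun j => (∑ i, E a (lam i) * str U.hom (z (i, j))) * str U.hom w),
        hco U _ _ (fix (hz' U) _) (cv a), cv a⟩
      res := fun g a => Subtype.ext (Prod.ext (funext fun j => ?_) (funext fun j => ?_))
      g := fun U a b => Units.ext ?_ }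
  · change _ = gam g.left _
    simp only [map_sum, map_mul, hr, hE]
  · change _ = gam g.left _
    simp only [map_sum, map_mul, hr, hE]
  · refine (key a _).symm.trans ?_
    simp only [← hT]
    rfl

end Pool.Agent.MP_855f4c_ag.T

end
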