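import Pool.Agent.MP_855f4c_ag.TC.Tf
import Pool.Agent.MP_855f4c_ag.TC.Tg
import Pool.Agent.MP_855f4c_ag.TC.Te
import Pool.Agent.MP_855f4c_ag.EC.F2f
import Pool.Agent.MP_855f4c_ag.EC.F1b
import Pool.Agent.MP_855f4c_ag.EC.Ue
import Pool.Agent.MP_855f4c_ag.TC.Tb

section

/-! h12g section J: Bezout. -/

set_option autoImplicit false
set_option backward.isDefEq.respectTransparency false

open CategoryTheory Limits Abelian Opposite AlgebraicGeometry Function

namespace Pool.Agent.MP_855f4c_ag.T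

open E E3 E4 Pbc

namespace Bez

section alg
open MvPolynomial
variable {κ : Type} [Fintype κ] [DecidableEq κ] {c : ℕ} {e : Fin c → κ → ℕ}
  {D D' : Type} [CommRing D] [CommRing D']

lemma map_gen (ψ : D →+* D') (cf : MI e → D) (a : Fin c) (x : XV κ → D) :
    ψ (gen cf a x) = gen (ψ ∘ cf) a (ψ ∘ x) := by simp [gen, mon]

lemma gen_mul (cf : MI e → D) (a : Fin c) (x : XV κ → D) (y : κ → D) :
    gen cf a (fun v => x v * y v.1) = gen cf a x * ∏ k, y k ^ e a k := by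
  rw [gen, gen, Finset.sum_mul]
  refine Finset.sum_congr rfl fun j _ => ?_
  rw [mul_assoc, mon, mon, ← Finset.prod_mul_distrib]
  refine congrArg _ (Finset.prod_congr rfl fun k _ => ?_)
  have h : y k ^ e a k = y k ^ (e a k - j k) * y k ^ (j k : ℕ) := by
    rw [← pow_add, Nat.sub_add_cancel (Nat.lt_succ_iff.1 (j k).2)]
  rw [h]
  ring

/-- The form as a polynomial. -/
noncomputable def fm (cf : MI e → D) (a : Fin c) : MvPolynomial (XY κ) D :=
  gen (fun i => C (cf i)) a fun v => X (.inl v)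

/-- The ideal of one equation. -/
def eqI (cf : MI e → D) (a : Fin c) (ε : EV κ → D) : Ideal D :=
  Ideal.span (Set.range fun σ => gen cf a (col ε σ))

lemma fm_hg (cf : MI e → D) (a : Fin c) : Hg (fun k => (e a k : ℤ)) (fm cf a) := by
  refine IsWeightedHomogeneous.sum _ _ _ fun j _ => IsWeightedHomogeneous.C_mul ?_ _
  have := IsWeightedHomogeneous.prod (w := wt) Finset.univ
    (fun k => (X (.inl (k, 0)) : MvPolynomial (XY κ) D) ^ (e a k - j k) * X (.inl (k, 1)) ^ (j k : ℕ))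
    (fun k => Pi.single k (e a k : ℤ)) fun k _ => by
      have h : e a k - j k + j k = e a k := Nat.sub_add_cancel (Nat.lt_succ_iff.1 (j k).2)
      have := ((isWeightedHomogeneous_X D wt (.inl (k, 0) : XY κ)).pow (e a k - j k)).mul
        ((isWeightedHomogeneous_X D wt (.inl (k, 1) : XY κ)).pow (j k))
      convert this using 1
      simp only [wt, Sum.elim_inl]
      rw [← add_smul, h, ← Pi.single_smul', nsmul_eq_mul, mul_one]
  rwa [Finset.univ_sum_single] at this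

lemma fm_ev (cf : MI e → D) (a : Fin c) (ψ : D →+* D') (x : XY κ → D') :
    eval₂ ψ x (fm cf a) = gen (ψ ∘ cf) a fun v => x (.inl v) := by
  rw [fm, ← coe_eval₂Hom, map_gen]
  congr 1 <;> funext v <;> simp

lemma zer (cf : MI e → D) (a : Fin c) {ε : EV κ → D} (h : JP ε) :
    Zer ε (fm cf a) (eqI cf a ε) := fun D' _ ψ x hx => by
  have key (σ : κ → Fin 2) : ψ (gen cf a (col ε σ)) =
      eval₂ ψ x (fm cf a) * ∏ k, x (.inr (k, σ k)) ^ e a k := by
    rw [map_gen, fm_ev, ← gen_mul]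
    exact congrArg _ (funext fun v => (congrFun hx (v.1, v.2, σ v.1)).symm)
  refine le_antisymm ?_ ?_
  · rw [Ideal.map_le_iff_le_comap, eqI, Ideal.span_le]
    rintro _ ⟨σ, rfl⟩
    exact Ideal.mem_comap.2 (key σ ▸ Ideal.mul_mem_right _ _ (Ideal.mem_span_singleton_self _))
  · rw [Ideal.span_singleton_le_iff_mem]
    let J : Ideal D' :=
      Submodule.comap (LinearMap.mul D' D' (eval₂ ψ x (fm cf a))) ((eqI cf a ε).map ψ)
    suffices H : J = ⊤ by simpa [J] using (Ideal.eq_top_iff_one J).1 H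
    by_contra H
    obtain ⟨m, hm, hJ⟩ := Ideal.exists_le_maximal J H
    have ex (k : κ) : ∃ i, x (.inr (k, i)) ∉ m := by
      by_contra! H
      refine hm.ne_top ((Ideal.eq_top_iff_one m).2 ?_)
      have := congrArg ψ (h k).1
      rw [map_add, map_one] at this
      rw [← this]
      have b (i : Fin 2) : ψ (ε (k, i, i)) ∈ m :=
        (show x _ * x _ = ψ (ε _) from congrFun hx (k, i, i)) ▸ m.mul_mem_left _ (H i)
      exact m.add_mem (b 0) (b 1)
    choose σ hσ using ex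
    have : ∏ k, x (.inr (k, σ k)) ^ e a k ∈ m :=
      hJ (show _ * _ ∈ (eqI cf a ε).map ψ from
        key σ ▸ Ideal.mem_map_of_mem ψ (Ideal.subset_span (Set.mem_range_self σ)))
    obtain ⟨k, -, hk⟩ := (Ideal.IsPrime.prod_mem_iff (hp := hm.isPrime)).1 this
    exact hσ k (hm.isPrime.mem_of_pow_mem _ hk)

lemma jp_je (cf : MI e → D) : JP (je cf) := fun k =>
  ⟨sub_eq_zero.1 (Ideal.Quotient.eq_zero_iff_mem.2 (Ideal.subset_span (.inl (.inl ⟨k, rfl⟩))) :
      Ideal.Quotient.mk (JI cf) _ = 0),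
    sub_eq_zero.1 (Ideal.Quotient.eq_zero_iff_mem.2 (Ideal.subset_span (.inl (.inr ⟨k, rfl⟩))) :
      Ideal.Quotient.mk (JI cf) _ = 0)⟩

omit [Fintype κ] [DecidableEq κ] in
lemma jp_map (ψ : D →+* D') {ε : EV κ → D} (h : JP ε) : JP (ψ ∘ ε) := fun k =>
  ⟨by simpa using congrArg ψ (h k).1, by simpa using congrArg ψ (h k).2⟩

lemma gen_je (cf : MI e → D) (a : Fin c) (σ : κ → Fin 2) :
    gen (algebraMap D (JB cf) ∘ cf) a (col (je cf) σ) = 0 :=
  (map_gen (Ideal.Quotient.mk (JI cf)) (fun i => C (cf i)) a (col X σ)).symm.trans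
    (Ideal.Quotient.eq_zero_iff_mem.2 (Ideal.subset_span (.inr ⟨a, σ, rfl⟩)))

lemma jb_lift (cf : MI e → D) (τ : D →+* D') {ε : EV κ → D'} (h : JP ε)
    (h0 : ∀ a σ, gen (τ ∘ cf) a (col ε σ) = 0) :
    ∃ χ : JB cf →+* D', χ.comp (algebraMap D _) = τ ∧ χ ∘ je cf = ε := by
  refine ⟨Ideal.Quotient.lift _ (eval₂Hom τ ε) fun P hP => ?_, RingHom.ext fun r => eval₂_C _ _ r,
    funext fun v => eval₂_X _ _ v⟩
  refine (Ideal.span_le (I := RingHom.ker (eval₂Hom τ ε))).2 ?_ hP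
  rintro _ ((⟨k, rfl⟩ | ⟨k, rfl⟩) | ⟨a, σ, rfl⟩)
  · simp [(h k).1]
  · simp [(h k).2]
  · rw [SetLike.mem_coe, RingHom.mem_ker, map_gen, ← h0 a σ]
    congr 1 <;> funext v <;> simp [col]

end alg

variable {l : ℕ} [Fact l.Prime] {T T' : Scheme.{0}}

variable (l T) in
/-- Families of classes. -/
abbrev HS : Type 1 := ∀ n, HH l T n

/-- Multiplication by a class of degree two. -/
noncomputable def mf (x : EE l T 2) (γ : HS l T) : HS l T
  | 0 => 0
  | 1 => 0
  | n + 2 => (γ n).comp x rfl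

/-- The same as an additive map to the ring of endomorphisms. -/
noncomputable def mo : EE l T 2 →+ AddMonoid.End (HS l T) :=
  AddMonoidHom.mk' (fun x => AddMonoidHom.mk' (mf x) fun _ _ => funext fun
      | 0 => (add_zero _).symm
      | 1 => (add_zero _).symm
      | _ + 2 => Ext.add_comp _ _ _ rfl)
    fun _ _ => AddMonoidHom.ext fun _ => funext fun
      | 0 => (add_zero _).symm
      | 1 => (add_zero _).symm
      | _ + 2 => Ext.comp_add _ _ _ rfl

lemma mul_ap (f g : AddMonoid.End (HS l T)) (γ : HS l T) : (f * g) γ = f (g γ) := rfl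

lemma op_apply (x : EE l T 2) (γ : HS l T) {n m : ℕ} (h : n + 2 = m) :
    mo x γ m = (γ n).comp x h := by subst h; rfl

lemma op_op (x y : EE l T 2) (γ : HS l T) : ∀ m, (mo x * mo y) γ m = match m with
    | n + 4 => (γ n).comp (y.comp x (rfl : 2 + 2 = 4)) rfl
    | _ => 0
  | 0 => rfl
  | 1 => rfl
  | 2 => Ext.zero_comp _ _ _ _ rfl
  | 3 => Ext.zero_comp _ _ _ _ rfl
  | n + 4 => Ext.comp_assoc (γ n) y x rfl rfl rfl

lemma op_com {x y : EE l T 2} (h : x.comp y (rfl : 2 + 2 = 4) = y.comp x rfl) :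
    mo x * mo y = mo y * mo x := AddMonoidHom.ext fun γ => funext fun m => by
  rw [op_op, op_op, h]

lemma op_sq {x : EE l T 2} (h : x.comp x (rfl : 2 + 2 = 4) = 0) : mo x * mo x = 0 :=
  AddMonoidHom.ext fun γ => funext fun m => by
    rw [op_op, h]
    split
    · exact Ext.comp_zero _ _ _ _ _
    · rfl

lemma opL (L : List (EE l T 2)) : ∀ (γ : HS l T) (n m : ℕ) (h : n + 2 * L.length = m),
    (L.map mo).reverse.prod γ m = (γ n).comp (pw L) h := by
  induction L with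
  | nil => rintro γ n m rfl; exact (Ext.comp_mk₀_id _).symm
  | cons x L ih =>
    intro γ n m h
    rw [List.length_cons] at h
    rw [List.map_cons, List.reverse_cons, List.prod_append, List.prod_singleton,
      mul_ap, ih _ (n + 2) m (by omega), op_apply x γ rfl]
    exact Ext.comp_assoc _ _ _ rfl _ (by omega)

/-- Pull-back of families. -/
noncomputable def rs (g : T' ⟶ T) (γ : HS l T) : HS l T' := fun n => hpb l g n (γ n)

lemma rs_op (g : T' ⟶ T) (x : EE l T 2) (γ : HS l T) :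
    rs g (mo x γ) = mo (epb l g 2 x) (rs g γ) := funext fun
  | 0 => map_zero _
  | 1 => map_zero _
  | _ + 2 => hpb_mul g _ x rfl

lemma rs_prod (g : T' ⟶ T) {ι : Type} (x : ι → EE l T 2) (L : List ι) (γ : HS l T) :
    rs g ((L.map fun i => mo (x i)).prod γ) =
      (L.map fun i => mo (epb l g 2 (x i))).prod (rs g γ) := by
  induction L with
  | nil => rfl
  | cons i L ih =>
    rw [List.map_cons, List.map_cons, List.prod_cons, List.prod_cons, mul_ap,
      mul_ap, rs_op, ih]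

variable (T) in
/-- A constant section. -/
noncomputable def sg (a : QZ l) : HS l T
  | 0 => tau (one l T) a
  | _ + 1 => 0

lemma rs_sg (g : T' ⟶ T) (a : QZ l) : rs g (sg T a) = sg T' a := funext fun
  | 0 => (tau_pb g _ a).trans (congrArg (tau · a) (epb_one g))
  | _ + 1 => map_zero _

lemma op_sg {ι : Type} (x : ι → EE l T 2) (L : List ι) (a : QZ l) :
    (L.reverse.map fun i => mo (x i)).prod (sg T a) (2 * (L.map x).length) =
      tau (pw (L.map x)) a := by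
  have := opL (L.map x) (sg T a) 0 _ (zero_add _)
  rw [List.map_map, ← List.map_reverse] at this
  exact this.trans ((tau_mul _ _ _ a).symm.trans (congrArg (tau · a) (Ext.mk₀_id_comp _)))

lemma tau_smul {n : ℕ} (x : EE l T n) (N : ℤ) (a : QZ l) : tau x (N • a) = N • tau x a := by
  have : (con T).Additive := by
    unfold con cst constantSheaf
    infer_instance
  have h : ta l T (N • a) = N • ta l T a := by
    rw [ta, ta, ← Functor.map_zsmul]
    refine congrArg _ (AddCommGrpCat.hom_ext (AddMonoidHom.ext fun k => ?_))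
    exact smul_comm k N a
  rw [tau, tau, h, pre_apply, pre_apply]
  exact (congrArg (Ext.comp · x (zero_add n)) (map_zsmul Ext.addEquiv₀.symm N _)).trans
    (map_zsmul (x.postcomp _ (zero_add n)) N _)

variable {Ω : Type} [Field Ω] {Ch : Chern l Ω} {hP : P1L_s} {κ : Type} [Fintype κ]

lemma cl_pb (hK : KPB_s) (g : T' ⟶ T) (t : T ⟶ Spec (.of Ω)) (z : κ → (T ⟶ P1)) (n : κ → ℤ) :
    epb l g 2 (Ch.cl hP t z n) = Ch.cl hP (g ≫ t) (fun k => g ≫ z k) n := by
  simp only [Chern.cl, map_sum, map_zsmul, (hK l T' T g).2.2.2]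

omit [Fintype κ] in
lemma ad_map {D D' : Type} [CommRing D] [CommRing D'] (ψ : D →+* D') {ε : EV κ → D}
    {z : κ → (Spec (.of D) ⟶ P1)} (h : Ad ε z) : Ad (ψ ∘ ε) fun k => spc ψ ≫ z k :=
  fun k j => ZP.coA_map (h k j) ψ

variable (Ch hP) in
/-- The product of the classes with a constant section. -/
noncomputable def pv (t : T ⟶ Spec (.of Ω)) (z : κ → (T ⟶ P1)) (L : List (κ → ℤ)) (a : QZ l) :
    HS l T := (L.reverse.map fun n => mo (Ch.cl hP t z n)).prod (sg T a)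

lemma pv_iff (t : T ⟶ Spec (.of Ω)) (z : κ → (T ⟶ P1)) (L : List (κ → ℤ)) (N : ℤ) (a : QZ l) :
    pv Ch hP t z L (N • a) (2 * L.length) = 0 ↔ tau (N • pw (L.map (Ch.cl hP t z))) a = 0 := by
  rw [show tau (N • pw (L.map (Ch.cl hP t z))) a = N • tau _ a from map_zsmul _ _ _, ← tau_smul,
    ← op_sg, List.length_map, pv]

lemma pv_pb (hK : KPB_s) (g : T' ⟶ T) (t : T ⟶ Spec (.of Ω)) (z : κ → (T ⟶ P1))
    (L : List (κ → ℤ)) (a : QZ l) (n : ℕ) :
    hpb l g n (pv Ch hP t z L a n) = pv Ch hP (g ≫ t) (fun k => g ≫ z k) L a n := by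
  have := congrFun (rs_prod g (Ch.cl hP t z) L.reverse (sg _ a)) n
  simp only [cl_pb hK, rs_sg] at this
  exact this

variable [DecidableEq κ] [IsAlgClosed Ω] [CharZero Ω] {c : ℕ} {e : Fin c → κ → ℕ}

lemma kill (hZ : CLZ_s) (hJ : JXB_s) (hK : KPB_s) (A : List (Fin c)) :
    ∀ (D : Type) [CommRing D] (t : Spec (.of D) ⟶ Spec (.of Ω)) (cf : MI e → D) (ε : EV κ → D)
      (z : κ → (Spec (.of D) ⟶ P1)), JP ε → Ad ε z → ∀ (γ : HS l (Spec (.of D))) (n m : ℕ),
      n + 2 * A.length = m → (∀ (F : Type) [CommRing F] (φ : D →+* F),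
        (∀ a ∈ A, ∀ σ, φ (gen cf a (col ε σ)) = 0) → hpb l (spc φ) n (γ n) = 0) →
      (A.map fun a => mo (Ch.cl hP t z fun k => (e a k : ℤ))).prod γ m = 0 := by
  induction A with
  | nil =>
    rintro D _ t cf ε z - - γ n m rfl h
    have := h D (.id D) (by simp)
    rwa [show spc (RingHom.id D) = 𝟙 _ from Spec.map_id _, hpb_id] at this
  | cons a A ih =>
    intro D _ t cf ε z hε hz γ n m hm h
    rw [List.length_cons] at hm
    obtain ⟨θ, hθ⟩ := (hJ l Ω Ch hP κ D t ε z hε hz).2.2 _ _ _ (fm_hg cf a) (zer cf a hε)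
    let π := Ideal.Quotient.mk (eqI cf a ε)
    have hl : Linv l (Spec (.of D)) := (Linv.spec (isUnit_iff_ne_zero.2
      (Nat.cast_ne_zero.2 (Fact.out : l.Prime).ne_zero : (l : Ω) ≠ 0))).of_hom t
    obtain ⟨Ψ, hΨ⟩ := (hZ l _ _ (spc π) (opI (eqI cf a ε))
      (IsClosedImmersion.spec_of_surjective _ Ideal.Quotient.mk_surjective) (fun x => by
        have := range_comap_of_surjective _ π Ideal.Quotient.mk_surjective
        rw [Ideal.mk_ker] at this
        exact not_congr (Set.ext_iff.1 this x).symm) hl).2 (n + 2 * A.length)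
    have h1 := ih _ (spc π ≫ t) (π ∘ cf) (π ∘ ε) _ (jp_map π hε) (ad_map π hz) (rs (spc π) γ) n _ rfl
      fun F _ φ hφ => by
        rw [rs, ← hpb_comp, ZP.spc_spc]
        refine h F _ fun b hb σ => ?_
        rcases List.mem_cons.1 hb with rfl | hb
        · exact (congrArg φ (Ideal.Quotient.eq_zero_iff_mem.2
            (Ideal.subset_span (Set.mem_range_self σ)))).trans (map_zero φ)
        · exact (congrArg φ (map_gen π cf b _)).trans (hφ b hb σ)
    simp only [← cl_pb hK] at h1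
    rw [← rs_prod, rs, ← hΨ, EmbeddingLike.map_eq_zero_iff, post_apply] at h1
    rw [List.map_cons, List.prod_cons, mul_ap,
      op_apply _ _ (show n + 2 * A.length + 2 = m by omega), ← hθ, pre_apply,
      ← Ext.comp_assoc _ _ _ (add_zero _) (zero_add 2) (by omega), h1, Ext.zero_comp]

end Bez

open Bez in
theorem bez (hT : TOPJ_s) (hJ : JXB_s) (hZ : CLZ_s) (hK : KPB_s) (hM : PERM_s) (hE : ENDQ_s) :
    BEZ_s := by
  intro l _ Ω _ _ _ Ch hP κ _ _ c e cf z hz L N hN hL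
  by_contra! H
  have j0 := jp_je (noEq κ Ω)
  choose z₀ hz₀ using fun k => ZP.ad_exists (m := fun a b => je (noEq κ Ω) (k, a, b))
    (j0 k).1 (j0 k).2
  let t₀ := spc (algebraMap Ω (JB (noEq κ Ω)))
  obtain ⟨a₀, ha⟩ := hT l Ω Ch hP κ Finset.univ.toList (Finset.nodup_toList _) (by simp) z₀ hz₀
  obtain ⟨sq, com, -⟩ := hJ l Ω Ch hP κ _ t₀ _ z₀ j0 hz₀
  have ht : ((((List.finRange c).map fun a k => (e a k : ℤ)) ++ L.reverse).map lin).prod =
      (L.map lin).prod * ∏ a, lin fun k => (e a k : ℤ) := by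
    rw [List.map_append, List.prod_append, List.map_reverse, List.prod_reverse, mul_comm,
      List.map_map, Fin.prod_univ_def]
    rfl
  obtain ⟨p1, p2⟩ := hM κ _ (fun k => mo (Ch.x hP t₀ (z₀ k))) (fun i j => op_com (com i j))
    (fun k => op_sq (sq k)) _ Finset.univ.toList.reverse
    (List.nodup_reverse.2 (Finset.nodup_toList _)) (by simp) (ht ▸ hL)
  rw [ht] at p2
  obtain ⟨a, rfl⟩ := (hE l).2.2.1 _ a₀ (mul_ne_zero hL hN)
  have hc (n : κ → ℤ) : ∑ k, n k • mo (Ch.x hP t₀ (z₀ k)) = mo (Ch.cl hP t₀ z₀ n) := by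
    simp only [Chern.cl, map_sum, map_zsmul]
  simp only [hc, List.map_append, List.prod_append, List.map_map] at p2
  simp only [List.length_append, List.length_map, List.length_reverse] at p1
  have k1 := kill (Ch := Ch) (hP := hP) hZ hJ hK (List.finRange c) _ t₀ (algebraMap Ω _ ∘ cf) _ z₀ j0
    hz₀ (pv Ch hP t₀ z₀ L (N • a)) (2 * L.length)
    (2 * (Finset.univ.toList.map fun k => Ch.x hP t₀ (z₀ k)).length)
    (by rw [List.length_map]; omega) fun F _ φ hφ => by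
      obtain ⟨χ, c1, c2⟩ := jb_lift cf (φ.comp (algebraMap Ω _)) (jp_map φ j0) fun b σ =>
        (map_gen φ _ b _).symm.trans (hφ b (List.mem_finRange b) σ)
      have e1 : spc φ ≫ t₀ = spc χ ≫ spc (algebraMap Ω _) := by rw [ZP.spc_spc, ZP.spc_spc, c1]
      have e2 : (fun k => spc φ ≫ z₀ k) = fun k => spc χ ≫ z k := funext fun k =>
        ZP.ad_uniq (m := fun a b => φ (je _ (k, a, b))) (jp_map φ j0 k).1 (ad_map φ hz₀ k)
          ((c2 ▸ ad_map χ hz : Ad (φ ∘ je _) _) k)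
      rw [pv_pb hK, e1, e2, ← pv_pb hK, (pv_iff _ _ _ _ _).2 (H a), map_zero]
  have k2 := congrFun (DFunLike.congr_fun p2 (sg _ (N • a)))
    (2 * (Finset.univ.toList.map fun k => Ch.x hP t₀ (z₀ k)).length)
  refine ha ?_
  rw [mul_smul, tau_smul, ← op_sg]
  exact k2.symm.trans k1

open Bez in
theorem bezz (hB : BEZ_s) (hK : KPB_s) : BEZZ_s := by
  intro l _ Ω _ _ _ Ch hP κ _ _ c e cf Z f z hZ L N hN hL
  have j0 := jp_je cf
  choose y hy using fun k => ZP.ad_exists (m := fun a b => je cf (k, a, b)) (j0 k).1 (j0 k).2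
  obtain ⟨ρ, h1, h2⟩ := (hZ.mem _ (algebraMap Ω (JB cf)) y).2 fun D _ ψ x hx a =>
    ZP.eq_of_loc fun F _ _ φ => by
      choose σ hσ using fun k => show ∃ j, IsUnit (φ (ψ (je cf (k, j, j)))) from
        (IsLocalRing.isUnit_or_isUnit_of_add_one (jp_map φ (jp_map ψ j0) k).1).elim (⟨0, ·⟩) (⟨1, ·⟩)
      choose u hu using fun k => (hσ k).exists_right_inv
      have hx' : φ ∘ x = fun v => col (φ ∘ ψ ∘ je cf) σ v * (u v.1 * φ (x (v.1, σ v.1))) := by
        funext ⟨k, i⟩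
        obtain ⟨b, hb⟩ := (hx k).2
        have := ((hx k).1.map φ).min (((hy k (σ k)).map ψ).map φ) (P1L.cov_map φ hb)
          (y' := Pi.single (σ k) (u k)) (by simpa [Cov, Pi.single_apply, mul_comm] using hu k) i (σ k)
        simp only [comp_apply, col] at this ⊢
        linear_combination u k * this - φ (x (k, i)) * hu k
      rw [map_gen, hx', gen_mul _ _ _ fun k => u k * φ (x (k, σ k)), map_zero]
      have := congrArg (φ.comp ψ) (gen_je cf a σ)
      rw [map_gen, map_zero] at this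
      exact mul_eq_zero_of_left this _
  obtain ⟨a, ha⟩ := hB l Ω Ch hP κ c e cf y hy L N hN hL
  refine ⟨a, fun h => ha ?_⟩
  rw [← pv_iff] at h ⊢
  rw [← h1, ← funext h2, ← pv_pb hK, h, map_zero]

end Pool.Agent.MP_855f4c_ag.T

end

section

/-! Row EPS: the maps `ε` of section K from a transfer, Bezout and the numerical condition. -/

set_option autoImplicit false
set_option backward.isDefEq.respectTransparency false

open CategoryTheory Limits Abelian Function AlgebraicGeometry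

namespace Pool.Agent.MP_855f4c_ag.T

open E

def EPS_s : Prop := ∀ (l : ℕ) [Fact l.Prime] (Ω : Type) [Field Ω] [IsAlgClosed Ω] [CharZero Ω]
  (Ch : Chern l Ω) (hP : P1L_s) (κ : Type) [Fintype κ] [DecidableEq κ] (c : ℕ)
  (e : Fin c → κ → ℕ) (cf : MI e → Ω) (X W Y Z : Scheme.{0}) (f : Z ⟶ Spec (.of Ω))
  (z : κ → (Z ⟶ P1)) (t : X ⟶ Spec (.of Ω)) (x : κ → (X ⟶ P1)) (ρ : W ⟶ X) (r : W ⟶ Y)
  (s : X ⟶ Z) (S S' : List (κ → ℤ)) (m : κ → ℤ) (d : ℕ) (L L' : List (EE l X 2))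
  (tr : Tr ρ (pw L) (pw L')) (h : EE l Y 2), ZL f z cf → s ≫ f = t → (∀ k, s ≫ z k = x k) →
    (∀ n, Bijective (hpb l s n)) → L = S.map (Ch.cl hP t x) → L' = S'.map (Ch.cl hP t x) →
    epb l r 2 h = epb l ρ 2 (Ch.cl hP t x m) → (∀ i, 2 * d < i → ∀ y : HH l Y i, y = 0) →
    (∀ (i j : ℕ) (hij : i + j = 2 * d) (α : EE l Y i) η, (∃ a, tau α a ≠ 0) →
      ∃ (n : ℕ) (α' : EE l Y j), α.comp α' hij = l ^ n • η) →
    top ((S.map lin).prod * (S'.map lin).prod * lin m ^ d * ∏ a, lin fun k => (e a k : ℤ)) ≠ 0 →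
    ∃ ε : ∀ i, EE l Y i →+ QZ l →+ HH l Z (i + 2 * L.length),
      (∀ i α, ε i α = 0 → ∀ a, tau α a = 0) ∧
      ∀ (gX : X ⟶ X) (gW : W ⟶ W) (gY : Y ⟶ Y) (gZ : Z ⟶ Z) (M : ℕ), gX ≫ s = s ≫ gZ →
        gW ≫ r = r ≫ gY → tr.Eqv gX gW M →
        ∀ i α a, hpb l gZ _ (ε i α a) = M • ε i (epb l gY i α) a

/-- The numerical condition after scaling all degrees. -/
def NUMS_s : Prop := ∀ (κ τ : Type) [Fintype κ] [DecidableEq κ] [Fintype τ] (c : ℕ)
  (e : Fin c → κ → ℕ) (n : τ → κ → ℤ) (m : κ → ℤ) (d P : ℕ) (N : ℤ) (A A' : List τ), P ≠ 0 →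
    N ≠ 0 → A.Nodup → (∀ t, t ∈ A) → A'.Perm A →
    top ((∏ t, lin (n t)) ^ 2 * lin m ^ d * ∏ a, lin fun k => (e a k : ℤ)) ≠ 0 →
    top (((A.map fun t => N • n t).map lin).prod * ((A'.map fun t => N • n t).map lin).prod *
      lin (N • m) ^ d * ∏ a, lin fun k => ((P * e a k : ℕ) : ℤ)) ≠ 0

namespace Eps

variable {l : ℕ} [Fact l.Prime] {T T' : Scheme.{0}}

/-- The product in a given degree. -/
noncomputable def pn (L : List (EE l T 2)) {n : ℕ} (h : 2 * L.length = n) : EE l T n := h ▸ pw L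

lemma pn_congr {L L' : List (EE l T 2)} (e : L = L') {n : ℕ} (h : 2 * L.length = n)
    (h' : 2 * L'.length = n) : pn L h = pn L' h' := by
  subst e
  rfl

lemma pn_cons (x : EE l T 2) (L : List (EE l T 2)) {n k : ℕ} (h : 2 * L.length = n)
    (hk : 2 + n = k) (h' : 2 * (x :: L).length = k) : pn (x :: L) h' = x.comp (pn L h) hk := by
  subst h h'
  rfl

lemma pn_append (L L' : List (EE l T 2)) {n n' k : ℕ} (h : 2 * L.length = n)
    (h' : 2 * L'.length = n') (hk : n + n' = k) (h'' : 2 * (L ++ L').length = k) :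
    (pn L h).comp (pn L' h') hk = pn (L ++ L') h'' := by
  induction L generalizing n k with
  | nil =>
    subst h h' h''
    exact Ext.mk₀_id_comp _
  | cons x L ih =>
    simp only [List.length_cons, List.length_append] at h h''
    rw [pn_cons x L rfl (by omega), Ext.comp_assoc _ _ _ _ rfl (by omega),
      ih rfl rfl (by rw [List.length_append]; omega)]
    exact (pn_cons x (L ++ L') _ _ _).symm

lemma epb_pn (g : T' ⟶ T) (L : List (EE l T 2)) {n : ℕ} (h : 2 * L.length = n)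
    (h' : 2 * (L.map (epb l g 2)).length = n) : epb l g n (pn L h) = pn (L.map (epb l g 2)) h' := by
  induction L generalizing n with
  | nil =>
    subst h
    exact Pbc.epb_one g
  | cons x L ih =>
    simp only [List.length_cons] at h
    rw [pn_cons x L rfl (by omega), Pbc.epb_mul, ih rfl (by rw [List.length_map])]
    exact (pn_cons _ _ _ _ _).symm

lemma lin_smul {κ : Type} [Fintype κ] (N : ℤ) (n : κ → ℤ) :
    lin (N • n) = MvPolynomial.C N * lin n := by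
  simp only [lin, Finset.mul_sum, Pi.smul_apply, smul_eq_mul, map_mul, mul_assoc]

end Eps

open Eps in
theorem nums : NUMS_s := by
  intro κ τ _ _ _ c e n m d P N A A' hP hN h1 h2 h3 h
  classical
  have e1 : ((A.map fun t => N • n t).map lin).prod =
      MvPolynomial.C N ^ Fintype.card τ * ∏ t, lin (n t) := by
    rw [List.map_map, ← List.prod_toFinset _ h1, show A.toFinset = Finset.univ from
      Finset.eq_univ_of_forall fun t => List.mem_toFinset.2 (h2 t)]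
    simp only [comp, lin_smul, Finset.prod_mul_distrib, Finset.prod_const, Finset.card_univ]
  have e2 (a : Fin c) : (lin fun k => ((P * e a k : ℕ) : ℤ)) =
      MvPolynomial.C (P : ℤ) * lin fun k => (e a k : ℤ) := by
    rw [← lin_smul]
    exact congrArg _ (funext fun k => Nat.cast_mul _ _)
  rw [((h3.map _).map lin).prod_eq, e1, lin_smul]
  simp only [e2, Finset.prod_mul_distrib, Finset.prod_const]
  have : ∀ (a b u v w : MvPolynomial κ ℤ) (i j : ℕ), a ^ i * u * (a ^ i * u) * (a * v) ^ d *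
      (b ^ j * w) = a ^ (2 * i + d) * b ^ j * (u ^ 2 * v ^ d * w) := by
    intros
    ring
  rw [this, ← map_pow, ← map_pow, ← map_mul, top, MvPolynomial.coeff_C_mul]
  exact mul_ne_zero (mul_ne_zero (pow_ne_zero _ hN) (pow_ne_zero _ (Nat.cast_ne_zero.2 hP))) h

open Eps in
theorem eps (hB : BEZZ_s) : EPS_s := by
  intro l _ Ω _ _ _ Ch hP κ _ _ c e cf X W Y Z f z t x ρ r s S S' m d L L' tr h hZ e1 e2 hs hL hL'
    hr tp ha num
  have q (T : Scheme.{0}) (y : EE l T 2) : 2 * (List.replicate d y).length = 2 * d := by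
    rw [List.length_replicate]
  refine (inj l X W Y Z ρ r s _ _ (2 * d) _ _ tr (pn _ (q _ h))
    (pn _ (q _ (Ch.cl hP t x m))) (by
      rw [epb_pn _ _ _ (by simp), epb_pn _ _ _ (by simp)]
      exact pn_congr (by rw [List.map_replicate, List.map_replicate, hr]) _ _) tp
    (fun i j hij α => ha i j hij α _) (fun n => ?_) hs).imp fun ε h => h.2
  obtain ⟨a, h0⟩ := hB l Ω Ch hP κ c e cf Z f z hZ (S ++ List.replicate d m ++ S') (l ^ n : ℕ)
    (Nat.cast_ne_zero.2 (pow_ne_zero _ (Fact.out : l.Prime).ne_zero)) (by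
      rw [List.map_append, List.map_append, List.prod_append, List.prod_append, List.map_replicate,
        List.prod_replicate, mul_right_comm (S.map lin).prod]
      exact num)
  refine ⟨a, fun h3 => h0 ((hs _).1 ?_)⟩
  have e3 : (((S ++ List.replicate d m ++ S').map (Ch.cl hP f z)).map (epb l s 2)) =
      L ++ List.replicate d (Ch.cl hP t x m) ++ L' := by
    rw [List.map_map, show epb l s 2 ∘ Ch.cl hP f z = Ch.cl hP t x from funext fun n => by
      rw [comp_apply, JX.cl_nat, e1, funext e2], List.map_append, List.map_append,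
      List.map_replicate, hL, hL']
  have e4 := congrArg List.length e3
  rw [List.length_map] at e4
  rw [map_zero, Pbc.tau_pb, natCast_zsmul, map_nsmul]
  have key : ∀ {k : ℕ} (hk : 2 * (L ++ List.replicate d (Ch.cl hP t x m) ++ L').length = k),
      tau (l ^ n • pn _ hk) a = 0 := by
    intro k hk
    have := pn_append (L ++ List.replicate d (Ch.cl hP t x m)) L' (k := 2 * L.length + 2 * d +
      2 * L'.length) (n := 2 * L.length + 2 * d) (by simp; omega) rfl rfl (by simp; omega)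
    rw [← pn_append L _ rfl (q _ _) rfl] at this
    obtain rfl : k = 2 * L.length + 2 * d + 2 * L'.length := by
      simp at hk
      omega
    rw [← this]
    exact h3
  rw [show pw _ = pn ((S ++ List.replicate d m ++ S').map (Ch.cl hP f z)) rfl from rfl,
    epb_pn _ _ _ (by rw [List.length_map]), pn_congr e3 _ (by rw [e4])]
  exact key _

end Pool.Agent.MP_855f4c_ag.T

end

section

/-! h12g row KPB. -/

set_option autoImplicit false
set_option backward.isDefEq.respectTransparency false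

open CategoryTheory Limits Abelian Opposite AlgebraicGeometry

namespace Pool.Agent.MP_855f4c_ag.T

open E E3 E4 Pbc

variable {T T' : Scheme.{0}}

lemma co1_pb (g : T' ⟶ T) (z : T ⟶ P1) (U : Over T') (x : Fin 2 → Γ(U.left, ⊤))
    (h : co1 (g ≫ z) U x) : co1 z ((Over.map g).obj U) x := fun D _ w => by
  have := h D w
  rw [← Category.assoc U.hom] at this
  exact this

/-- The cocycle of `g ≫ z` is the pull-back of the cocycle of `z`. -/
noncomputable def chom1 (g : T' ⟶ T) (z : T ⟶ P1) (h' : IsLin (co1 (g ≫ z))) (h : IsLin (co1 z)) :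
    CHom g h'.coc h.coc where
  m U a := ⟨a.1, co1_pb g z U _ a.2.1, a.2.2⟩
  res _ _ := rfl
  g _ _ _ := rfl

lemma epb_x {l : ℕ} [Fact l.Prime] {Ω : Type} [Field Ω] (Ch : Chern l Ω) (hP : P1L_s) (g : T' ⟶ T)
    (t : T ⟶ Spec (.of Ω)) (z : T ⟶ P1) :
    epb l g 2 (Ch.x hP t z) = Ch.x hP (g ≫ t) (g ≫ z) := Ch.c_nat g t (chom1 g z _ _)

lemma epb_cl {l : ℕ} [Fact l.Prime] {Ω κ : Type} [Field Ω] [Fintype κ] (Ch : Chern l Ω)
    (hP : P1L_s) (g : T' ⟶ T) (t : T ⟶ Spec (.of Ω)) (z : κ → (T ⟶ P1)) (n : κ → ℤ) :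
    epb l g 2 (Ch.cl hP t z n) = Ch.cl hP (g ≫ t) (fun k => g ≫ z k) n := by
  simp only [Chern.cl, map_sum, map_zsmul, epb_x]

theorem kpb : KPB_s := fun l _ T' T g =>
  ⟨fun _ _ _ h y x => hpb_mul g y x h, fun _ x a => tau_pb g x a, fun L h => by
    have (m n : ℕ) (x : EE l T' m) (h1 : m + 0 = n) (h2 : 0 + m = n) :
        x.comp (one l T') h1 = (one l T').comp x h2 := by
      obtain rfl : m = n := h1
      rw [comp_one, one_comp]
    exact (epb_pw g L).trans (this _ _ _ _ h), fun _ _ Ch hP t z => epb_x Ch hP g t z⟩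

end Pool.Agent.MP_855f4c_ag.T

end

section

/-! Row EXCE: excision for `Ext(A_U, G)` along ind-etale maps. -/

set_option autoImplicit false
set_option backward.isDefEq.respectTransparency false

open CategoryTheory Limits Abelian Function AlgebraicGeometry Opposite

namespace Pool.Agent.MP_855f4c_ag.T.Exce

open E E3 E4
open Tel hiding πU

section abs
universe w v u
variable {A B : Type u} [Category.{v} A] [Abelian A] [HasExt.{w} A] [Category.{v} B] [Abelian B]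
  [HasExt.{w} B] (P : A ⥤ B) [P.Additive] [PreservesFiniteLimits P] [PreservesFiniteColimits P]
  (G : A)

/-- The functor `P` is bijective on `Ext(M, G)`. -/
def MB (M : A) : Prop := ∀ q, Bijective (E.cmp.{w, w} P (𝟙 (P.obj M)) G q)

variable {P G}

lemma cmp_one {M : A} {N : B} (a : N ⟶ P.obj M) (q : ℕ) :
    ⇑(E.cmp.{w, w} P a G q) = pre a _ q ∘ E.cmp P (𝟙 _) G q := funext fun x => by
  rw [comp_apply, cmp_apply, cmp_apply, Ext.mk₀_id_comp, pre_apply]

lemma cmp_map {M M' : A} {N : B} (a : N ⟶ P.obj M') (m : M' ⟶ M) (q : ℕ) :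
    ⇑(E.cmp.{w, w} P (a ≫ P.map m) G q) = E.cmp P a G q ∘ pre m G q :=
  funext fun x => (cmp_pre P a m x).symm

lemma mb_iff {M : A} {N : B} (a : N ⟶ P.obj M) (h : ExtBij.{w} a (P.obj G)) :
    MB.{w} P G M ↔ ∀ q, Bijective (E.cmp.{w, w} P a G q) :=
  forall_congr' fun q => by rw [cmp_one a, (h q).of_comp_iff']

lemma MB.of_iso {M M' : A} (h : MB.{w} P G M) (m : M' ⟶ M) [IsIso m] : MB.{w} P G M' := fun q => by
  rw [← Bijective.of_comp_iff _ (pre_bij m G q), ← cmp_map, Category.id_comp]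
  exact (mb_iff _ (pre_bij _ _)).1 h q

lemma mb_coker {S S' : ShortComplex A} {R : ShortComplex B} (hS : S.ShortExact)
    (hS' : S'.ShortExact) (hR : R.ShortExact) (ψ : S' ⟶ S) (η : R ⟶ S'.map P)
    (h₁ : ∀ q, Bijective (E.cmp.{w, w} P (A := S'.X₁) η.τ₁ G q))
    (h₂ : ∀ q, Bijective (E.cmp.{w, w} P (A := S'.X₂) η.τ₂ G q))
    [IsIso (η.τ₁ ≫ P.map ψ.τ₁)] [IsIso (η.τ₂ ≫ P.map ψ.τ₂)] (h₃ : ExtBij.{w} ψ.τ₃ G) :
    MB.{w} P G S.X₃ := by
  refine (mb_iff (η.τ₃ ≫ P.map ψ.τ₃) (ExtBij.τ₃ hR (hS.map_of_exact P)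
    (η ≫ P.mapShortComplex.map ψ) (pre_bij (η.τ₁ ≫ P.map ψ.τ₁) _)
    (pre_bij (η.τ₂ ≫ P.map ψ.τ₂) _))).2 fun q => ?_
  rw [cmp_map]
  refine Bijective.comp ?_ (h₃ q)
  exact (con_les hS' G).bij₁ (con_les hR (P.obj G)) (E.cmp P (A := S'.X₃) η.τ₃ G)
    (E.cmp P (A := S'.X₂) η.τ₂ G) (E.cmp P (A := S'.X₁) η.τ₁ G)
    (fun _ x => by
      rw [pre_apply S'.g, cmp_pre, cmp_apply, cmp_apply, ← pre_apply, pre_pre, ← η.comm₂₃]; rfl)
    (fun _ x => by
      rw [pre_apply S'.f, cmp_pre, cmp_apply, cmp_apply, ← pre_apply, pre_pre, ← η.comm₁₂]; rfl)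
    (fun _ x => by
      rw [cmp_apply, cmp_apply, map_dr]
      exact (pre_dr hR (hS'.map_of_exact P) η _).symm) h₂ h₁ q

lemma mb_coker' {A₁ A₂ A₁' A₂' : A} {B₁ B₂ : B} (i : A₁ ⟶ A₂) (i' : A₁' ⟶ A₂') (j : B₁ ⟶ B₂)
    [Mono i] [Mono i'] [Mono j] {c₁ : A₁' ⟶ A₁} {c₂ : A₂' ⟶ A₂} (e : i' ≫ c₂ = c₁ ≫ i)
    {t₁ : B₁ ⟶ P.obj A₁'} {t₂ : B₂ ⟶ P.obj A₂'} (n : j ≫ t₂ = t₁ ≫ P.map i')
    (h₁ : ∀ q, Bijective (E.cmp.{w, w} P t₁ G q)) (h₂ : ∀ q, Bijective (E.cmp.{w, w} P t₂ G q))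
    (i₁ : IsIso (t₁ ≫ P.map c₁)) (i₂ : IsIso (t₂ ≫ P.map c₂))
    (h₃ : ExtBij.{w} (cokernel.map i' i c₁ c₂ e) G) : MB.{w} P G (cokernel i) :=
  @mb_coker _ _ _ _ _ _ _ _ P _ _ _ G (.mk _ _ (cokernel.condition i))
    (.mk _ _ (cokernel.condition i')) (.mk _ _ (cokernel.condition j))
    { exact := ShortComplex.exact_cokernel _ } { exact := ShortComplex.exact_cokernel _ }
    { exact := ShortComplex.exact_cokernel _ }
    ⟨c₁, c₂, cokernel.map i' i c₁ c₂ e, e.symm, (cokernel.π_desc _ _ _).symm⟩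
    ⟨t₁, t₂, cokernel.desc _ (t₂ ≫ P.map (cokernel.π _)) (by
      rw [reassoc_of% n, ← Functor.map_comp, cokernel.condition, Functor.map_zero, comp_zero]),
      n.symm, (cokernel.π_desc _ _ _).symm⟩ h₁ h₂ i₁ i₂ h₃

end abs

variable {T T' : Scheme.{0}} (g : T' ⟶ T)

/-- `ℤ[V'] ⟶ g^* ℤ[V]` is an isomorphism for a cartesian square. -/
lemma fr_iso {V' : Over T'} {V : Over T} (v : (Over.map g).obj V' ⟶ V)
    (h : IsPullback v.left V'.hom V.hom g) :
    IsIso (frPs (Over.map g) _ _ V' ≫ (pbe g).map ((fr (Scheme.etaleTopology.over T)).map v)) := by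
  let e : V' ⟶ (Over.pullback g).obj V := Over.homMk h.isoPullback.hom h.isoPullback_hom_snd
  have : IsIso e := isIso_homMk _ (inferInstanceAs (IsIso h.isoPullback.hom))
  have he : (Over.map g).map e ≫ (Over.mapPullbackAdj g).counit.app V = v :=
    Over.OverMorphism.ext (by simp [e])
  have h1 : frPs (Over.map g) _ _ V' ≫ (pbe g).map ((fr (Scheme.etaleTopology.over T)).map v) =
      (fr _).map e ≫ frPb (Scheme.etaleTopology.over T') (Scheme.etaleTopology.over T) (Over.mapPullbackAdj g) V := by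
    rw [frPb, ← Category.assoc, taut_nat, Category.assoc, ← Functor.map_comp, ← Functor.map_comp,
      he]
    rfl
  rw [h1]
  infer_instance

/-- The open `O` as an object over `T`. -/
noncomputable abbrev uO (O : T.Opens) : Over.mk O.ι ⟶ E.top T := Over.homMk O.ι (Category.comp_id _)

instance (O : T.Opens) : Mono (uO O) := Over.mono_of_mono_left _

instance : IsIso (E.top T).hom := inferInstanceAs (IsIso (𝟙 T))

/-- `Q ℤ[T] = ℤ[T] / ℤ[O]`. -/
lemma q_fr {O : T.Opens} {Q : Sh (Scheme.etaleTopology.over T) ⥤ Sh (Scheme.etaleTopology.over T)} {π : 𝟭 _ ⟶ Q} (h : IsQ O Q π) :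
    ∃ m : Q.obj ((fr _).obj (E.top T)) ⟶ cokernel ((fr (Scheme.etaleTopology.over T)).map (uO O)), IsIso m ∧
      π.app _ ≫ m = cokernel.π _ := by
  obtain ⟨m, hm⟩ := h.desc (cokernel.π ((fr (Scheme.etaleTopology.over T)).map (uO O))) (by
    let v : (Over.map O.ι).obj (E.top O) ⟶ Over.mk O.ι := Over.homMk (𝟙 _) rfl
    have := fr_iso O.ι (v ≫ uO O) (IsPullback.of_vert_isIso ⟨by simp [v]⟩)
    rw [← cancel_epi (frPs (Over.map O.ι) _ _ (E.top O) ≫ (pbe O.ι).map ((fr _).map (v ≫ uO O))),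
      comp_zero, Category.assoc, ← Functor.map_comp, Functor.map_comp (fr _), Category.assoc,
      cokernel.condition, comp_zero, Functor.map_zero, comp_zero])
  have h0 : (fr (Scheme.etaleTopology.over T)).map (uO O) ≫ π.app ((fr _).obj (E.top T)) = 0 := (frEquiv _ _).injective (by
    obtain ⟨y, hy⟩ := (ezι_bij O ((fr _).obj (E.top T)) (T := Over.mk O.ι) fun t => t.2).2
      (frEquiv _ _ ((fr (Scheme.etaleTopology.over T)).map (uO O)))
    rw [map_zero]
    exact (frEquiv_post _ _).trans ((congrArg _ hy.symm).trans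
      congr(($(h.w ((fr _).obj (E.top T)))).hom.app _ y)))
  have := h.epi ((fr _).obj (E.top T))
  refine ⟨m, ⟨cokernel.desc _ _ h0, ?_, ?_⟩, hm⟩
  · rw [← cancel_epi (π.app _), reassoc_of% hm, cokernel.π_desc]
    exact (Category.comp_id _).symm
  · rw [← cancel_epi (cokernel.π _), cokernel.π_desc_assoc, hm, Category.comp_id]

/-- `ℤ = ℤ[T]`. -/
lemma cst_fr (T : Scheme.{0}) :
    Nonempty ((cst T).obj (.of (ULift ℤ)) ≅ (fr (Scheme.etaleTopology.over T)).obj (E.top T)) := by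
  obtain ⟨e⟩ := ez_cst_fr (⊤ : T.Opens)
  have : IsIso ((ezι (⊤ : T.Opens)).app ((cst T).obj (.of (ULift ℤ)))) :=
    Ez.isIso_of_bij _ fun V => ezι_bij _ _ fun _ => trivial
  have : IsIso (uO (⊤ : T.Opens)) := isIso_homMk _ T.topIso.isIso_hom
  exact ⟨(asIso ((ezι ⊤).app ((cst T).obj (.of (ULift ℤ))))).symm ≪≫ e ≪≫ asIso ((fr _).map (uO ⊤))⟩

/-- The comparison map of the quotients is an isomorphism for the inverse image. -/
lemma rp_iso (l : ℕ) [Fact l.Prime] {O : T.Opens} {a : AU l (g ⁻¹ᵁ O) ⟶ (pbe g).obj (AU l O)}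
    (ha : Rp l g _ O a) : IsIso a := by
  obtain ⟨e, he⟩ := ez_pb O g
  have hS := ((isQ O).ex (Linf l T)).map_of_exact (pbe g)
  have : Epi ((pbe g).map (πU l O)) := hS.epi_g
  have : Epi (πU l (g ⁻¹ᵁ O)) := coequalizer.π_epi
  obtain ⟨b, hb⟩ : ∃ b, (pbe g).map (πU l O) ≫ b = (lpb l g).hom ≫ πU l (g ⁻¹ᵁ O) :=
    have := hS.epi_g
    hS.exact.desc' ((lpb l g).hom ≫ πU l (g ⁻¹ᵁ O)) (by
      change (pbe g).map ((ezι O).app _) ≫ _ = 0
      rw [← he, Category.assoc, ← Category.assoc ((ezι _).app _)]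
      refine (congrArg (fun x => e.hom.app _ ≫ x ≫ _) ((ezι _).naturality (lpb l g).hom).symm).trans ?_
      rw [Category.assoc, (isQ (g ⁻¹ᵁ O)).w (Linf l T') |> fun h => (h : _ ≫ πU l _ = 0),
        comp_zero, comp_zero])
  refine ⟨b, ?_, ?_⟩
  · rw [← cancel_epi (πU l _), reassoc_of% (ha : _ = _), hb, Iso.inv_hom_id_assoc,
      Category.comp_id]
  · rw [← cancel_epi ((pbe g).map (πU l O)), reassoc_of% hb, (ha : _ = _), Iso.hom_inv_id_assoc,
      Category.comp_id]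

variable {C C₁ : Type} [CommRing C] [CommRing C₁] [Algebra C C₁] (H : IndEt C C₁)
  {O : (Spec (.of C)).Opens} (hO : IsCompact (O : Set (Spec (.of C))))
  (hg : ∀ (k : Type) [Field k] [IsAlgClosed k] (y : Spec (.of k) ⟶ Spec (.of C)), (∀ z, y z ∉ O) →
    ∃! y' : Spec (.of k) ⟶ Spec (.of C₁), y' ≫ spc (algebraMap C C₁) = y)
include H hO hg

lemma mb_fr {G : Sh (Scheme.etaleTopology.over (Spec (.of C)))} (hG : LFP G.obj) :
    MB.{1} (pbe (spc (algebraMap C C₁))) G (cokernel ((fr (Scheme.etaleTopology.over _)).map (uO O))) := by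
  let g := spc (algebraMap C C₁)
  have hab : Spec.map (CommRingCat.ofHom (algebraMap C C₁)) ≫ 𝟙 _ = 𝟙 _ ≫ g := by simp [g]
  let g' : (Over.map g).obj (Over.mk (g ⁻¹ᵁ O).ι) ⟶ Over.mk O.ι :=
    Over.homMk (g ∣_ O) (morphismRestrict_ι g O)
  have sq : IsPullback ((Over.map g).map (uO (g ⁻¹ᵁ O))) g' (sph _ hab) (uO O) :=
    IsPullback.of_map (Over.forget _) (Over.OverMorphism.ext (morphismRestrict_ι g O).symm)
      (isPullback_morphismRestrict g O).flip
  have : IsOpenImmersion (uO O).left := inferInstanceAs (IsOpenImmersion O.ι)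
  have : CompactSpace (Over.mk O.ι).left := isCompact_iff_compactSpace.1 hO
  have : Mono ((Over.map g).map (uO (g ⁻¹ᵁ O))).left := inferInstanceAs (Mono (g ⁻¹ᵁ O).ι)
  have : Mono ((Over.map g).map (uO (g ⁻¹ᵁ O))) := Over.mono_of_mono_left _
  have i1 := fr_iso g g' (isPullback_morphismRestrict g O)
  have i2 := fr_iso g (V' := E.top _) (V := E.top _) (sph _ hab) (IsPullback.of_vert_isIso ⟨hab⟩)
  exact mb_coker' _ _ _ (by rw [← Functor.map_comp, ← Functor.map_comp, sq.w])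
    (frPs_nat (Over.map g) (Scheme.etaleTopology.over _) (Scheme.etaleTopology.over _) (uO (g ⁻¹ᵁ O))) (slH_bij g _ G)
    (slH_bij g _ G) i1 i2
    (exc H hab sq (fun k _ _ y hy => hg k y fun z hz => hy z ⟨⟨_, hz⟩, rfl⟩) hG)

/-- Excision for every coefficient group and every LFP sheaf. -/
theorem mb {Q : Sh (Scheme.etaleTopology.over (Spec (.of C))) ⥤ Sh (Scheme.etaleTopology.over (Spec (.of C)))} {π : 𝟭 _ ⟶ Q} (h : IsQ O Q π)
    {G : Sh (Scheme.etaleTopology.over (Spec (.of C)))} (hG : LFP G.obj) (M : Ab.{1}) :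
    MB.{1} (pbe (spc (algebraMap C C₁))) G (Q.obj ((cst _).obj M)) := by
  have := h.additive
  obtain ⟨m, _, -⟩ := q_fr h
  obtain ⟨e⟩ := cst_fr (Spec (.of C))
  have h1 := h.good good_cst
  have := (pbpf (spc (algebraMap C C₁))).leftAdjoint_preservesColimits.{1, 1}
  exact telc h1 (Ψ := (cst _ ⋙ Q) ⋙ pbe (spc (algebraMap C C₁)))
    ⟨fun S hS => (h1.ex S hS).map_of_exact (pbe (spc (algebraMap C C₁))),
      fun ι => have := h1.sum ι; inferInstance⟩ _ (𝟙 _) G
    (((mb_fr H hO hg hG).of_iso m).of_iso (Q.map e.hom)) M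

/-- **EXCE**. -/
theorem exce (l : ℕ) [Fact l.Prime] {O' : (Spec (.of C₁)).Opens}
    (hO' : O' = spc (algebraMap C C₁) ⁻¹ᵁ O)
    (a : AU l O' ⟶ (pbe (spc (algebraMap C C₁))).obj (AU l O)) (ha : Rp l _ O' O a) (n : ℕ) :
    Bijective (gpb l (spc (algebraMap C C₁)) a n) := by
  subst hO'
  have := rp_iso _ l ha
  exact (post_bij _ _ n).comp ((mb_iff a (pre_bij _ _)).1
    (mb H hO hg (isQ O) (G0.linf_Tc l _).1.1 (.of (ULift.{1} (QZ l)))) n)

omit H hO hg

lemma opI_map {D D' : Type} [CommRing D] [CommRing D'] (φ : D →+* D') (I : Ideal D) :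
    opI (I.map φ) = spc φ ⁻¹ᵁ opI I :=
  TopologicalSpace.Opens.ext (Set.ext fun _ => not_congr Ideal.map_le_iff_le_comap)

lemma opI_compact {D : Type} [CommRing D] {I : Ideal D} (hI : I.FG) :
    IsCompact (opI I : Set (Spec (.of D))) :=
  (PrimeSpectrum.isCompact_isOpen_iff_ideal.2 ⟨I, hI, rfl⟩).1

/-- **EXCE** for the complement of the zero set of a finitely generated ideal. -/
theorem exce' (l : ℕ) [Fact l.Prime] {I : Ideal C} (h : Exs C C₁ I) (hI : I.FG)
    {O' : (Spec (.of C₁)).Opens} (hO' : O' = spc (algebraMap C C₁) ⁻¹ᵁ opI I)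
    (a : AU l O' ⟶ (pbe (spc (algebraMap C C₁))).obj (AU l (opI I))) (ha : Rp l _ O' _ a) (n : ℕ) :
    Bijective (gpb l (spc (algebraMap C C₁)) a n) := by
  refine exce h.1 (opI_compact hI) (fun k _ _ y hy => ?_) l hO' a ha n
  obtain ⟨φ, rfl⟩ := Spec.map_surjective y
  obtain ⟨ψ, h1, h2⟩ := h.2 k φ.hom fun x hx => by
    have := not_not.1 (hy (IsLocalRing.closedPoint k)) hx
    exact not_not.1 fun h0 => (IsLocalRing.mem_maximalIdeal _).1 this (IsUnit.mk0 _ h0)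
  refine ⟨spc ψ, ?_, fun y' hy' => ?_⟩
  · change spc ψ ≫ _ = _
    rw [← Spec.map_comp, ← CommRingCat.ofHom_comp, h1, CommRingCat.ofHom_hom]
  · obtain ⟨ψ', rfl⟩ := Spec.map_surjective y'
    rw [← h2 ψ'.hom congr($(Spec.map_injective ((Spec.map_comp _ _).trans hy')).hom)]
    rfl

end Pool.Agent.MP_855f4c_ag.T.Exce

end

section

/-! h12g: the transfer along a tower of henselisations. -/

set_option autoImplicit false
set_option backward.isDefEq.respectTransparency false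

open CategoryTheory Limits Abelian Opposite AlgebraicGeometry MvPolynomial TensorProduct

namespace Pool.Agent.MP_855f4c_ag.T

open E E3 E4

/-- Base change of an algebra homomorphism. -/
noncomputable def bcf {A : Type} (Ω : Type) {C D : Type} [CommRing A] [CommRing Ω] [Algebra A Ω]
    [CommRing C] [CommRing D] [Algebra A C] [Algebra A D] (f : C →ₐ[A] D) :
    Ω ⊗[A] C →+* Ω ⊗[A] D := (Algebra.TensorProduct.map (AlgHom.id A Ω) f).toRingHom

/-- One transfer on a point of the affine model. -/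
def JST_s : Prop := ∀ (l : ℕ) [Fact l.Prime] (Ω : Type) [Field Ω] (Ch : Chern l Ω) (hP : P1L_s)
  (κ : Type) [Fintype κ] [DecidableEq κ] (D D₁ : Type) [CommRing D] [CommRing D₁] [Algebra D D₁]
  (t : Ω →+* D) (e : EV κ → D) (z : κ → (Spec (.of D) ⟶ P1)) (n : κ → ℤ)
  (s : MvPolynomial (XY κ) D) (I : Ideal D), (l : Ω) ≠ 0 → JP e → Ad e z → Hg n s → I.FG →
    Zer e s I → Exs D D₁ I →
    ∃ τ : Tr (spc (algebraMap D D₁)) (Ch.cl hP (spc t) z n) (Ch.cl hP (spc t) z n),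
      ∀ (σ : Ω →+* Ω) (ψ : D →+* D) (ψ₁ : D₁ →+* D₁) (Q : ℕ), Tw l σ Q → ψ.comp t = t.comp σ →
        ψ₁.comp (algebraMap D D₁) = (algebraMap D D₁).comp ψ → ψ ∘ e = e → map ψ s = s →
        I.map ψ = I → τ.Eqv (spc ψ) (spc ψ₁) Q

/-- The transfer along a tower. -/
def TWT_s : Prop := ∀ (l : ℕ) [Fact l.Prime] (Ω : Type) [Field Ω] (Ch : Chern l Ω) (hP : P1L_s)
  (κ ι : Type) [Fintype κ] [DecidableEq κ] (O : Type) [CommRing O] [Algebra O Ω]
  (C D : Type) [CommRing C] [CommRing D] [Algebra O C] [Algebra O D] (f : C →ₐ[O] D)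
  (e : EV κ → C) (n : ι → κ → ℤ) (s : ι → MvPolynomial (XY κ) C) (I : ι → Ideal C) (S : List ι)
  (z : κ → (Spec (.of (Ω ⊗[O] C)) ⟶ P1)), (l : Ω) ≠ 0 → JP e → Ad (iR O Ω C ∘ e) z →
    (∀ i ∈ S, Hg (n i) (s i) ∧ (I i).FG ∧ Zer e (s i) (I i)) → Twr O C (S.map I) D f →
    ∃ τ : Tr (spc (bcf Ω f)) (pw (S.map fun i => Ch.cl hP (spc (iL O Ω C)) z (n i)))
        (pw (S.reverse.map fun i => Ch.cl hP (spc (iL O Ω C)) z (n i))),
      ∀ (σ : Ω ≃ₐ[O] Ω) (Q : ℕ), Tw l (σ : Ω →+* Ω) Q →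
        τ.Eqv (spc (tw σ C)) (spc (tw σ D)) (Q ^ S.length)

namespace Twt

section
variable {κ : Type} [Fintype κ] [DecidableEq κ] {C D : Type} [CommRing C] [CommRing D]
  (ψ : C →+* D) {e : EV κ → C}

omit [Fintype κ] [DecidableEq κ] in
lemma jp_map (h : JP e) : JP (ψ ∘ e) := fun k =>
  ⟨by simpa using congrArg ψ (h k).1, by simpa using congrArg ψ (h k).2⟩

omit [Fintype κ] in
lemma hg_map {n : κ → ℤ} {s : MvPolynomial (XY κ) C} (h : Hg n s) : Hg n (map ψ s) :=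
  fun d hd => h fun h0 => hd (by rw [coeff_map, h0, map_zero])

omit [Fintype κ] [DecidableEq κ] in
lemma zer_map {s : MvPolynomial (XY κ) C} {I : Ideal C} (h : Zer e s I) :
    Zer (ψ ∘ e) (map ψ s) (I.map ψ) := fun D' _ χ a ha => by
  rw [Ideal.map_map, eval₂_map]
  exact h D' (χ.comp ψ) a ha

lemma spc_spc {B : Type} [CommRing B] (φ : B →+* C) : spc ψ ≫ spc φ = spc (ψ.comp φ) :=
  (Spec.map_comp (CommRingCat.ofHom φ) (CommRingCat.ofHom ψ)).symm

omit [Fintype κ] [DecidableEq κ] in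
lemma ad_map {z : κ → (Spec (.of C) ⟶ P1)} (h : Ad e z) : Ad (ψ ∘ e) fun k => spc ψ ≫ z k :=
  fun k j D' _ χ => by
    rw [← Category.assoc, spc_spc]
    exact h k j D' (χ.comp ψ)

end

variable {l : ℕ} [Fact l.Prime] {T T' : Scheme.{0}}

lemma cast_eqv {ρ ρ₁ : T' ⟶ T} {k k' : ℕ} {c c₁ : EE l T k} {c' c₁' : EE l T k'} (τ : Tr ρ c c')
    (h : ρ = ρ₁) (hc : c = c₁) (hc' : c' = c₁') {g : T ⟶ T} {g' : T' ⟶ T'} {N : ℕ}
    (H : τ.Eqv g g' N) : (τ.cast h hc hc').Eqv g g' N := H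

/-- A product in a prescribed degree. -/
noncomputable def pk (L : List (EE l T 2)) (k : ℕ) (h : 2 * L.length = k) : EE l T k :=
  (pw L).comp (one l T) h

lemma pk_rfl (L : List (EE l T 2)) : pk L _ rfl = pw L := comp_one _

lemma pk_pb (g : T' ⟶ T) (L : List (EE l T 2)) (L' : List (EE l T' 2))
    (e : L.map (epb l g 2) = L') (k : ℕ) (h) (h') : epb l g k (pk L k h) = pk L' k h' := by
  subst e h
  rw [pk_rfl, epb_pw]; rfl

lemma pk_cons (x : EE l T 2) (L : List (EE l T 2)) (k K : ℕ) (h) (h') (hK : 2 + k = K) :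
    x.comp (pk L k h) hK = pk (x :: L) K h' := by
  subst h h'
  rw [pk_rfl, pk_rfl]; rfl

lemma pk_snoc (x : EE l T 2) (L L' : List (EE l T 2)) (e : L ++ [x] = L') (k K : ℕ) (h) (h')
    (hK : k + 2 = K) : (pk L k h).comp x hK = pk L' K h' := by
  subst e h h'
  rw [pk_rfl, pk_rfl, pw_append]
  exact congrArg (Ext.comp _ · hK) (comp_one x).symm

theorem aux (hX : EXS_s) (hJ : JST_s) {Ω : Type} [Field Ω] (Ch : Chern l Ω) (hP : P1L_s)
    {κ ι : Type} [Fintype κ] [DecidableEq κ] {O : Type} [CommRing O] [Algebra O Ω]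
    (hl : (l : Ω) ≠ 0) (n : ι → κ → ℤ) {C D : Type} [CommRing C] [CommRing D] [Algebra O C]
    [Algebra O D] {L : List (Ideal C)} {f : C →ₐ[O] D} (H : Twr O C L D f) :
    ∀ (e : EV κ → C) (s : ι → MvPolynomial (XY κ) C) (I : ι → Ideal C) (S : List ι)
      (z : κ → (Spec (.of (Ω ⊗[O] C)) ⟶ P1)), JP e → Ad (iR O Ω C ∘ e) z →
      (∀ i ∈ S, Hg (n i) (s i) ∧ (I i).FG ∧ Zer e (s i) (I i)) → S.map I = L → ∀ k k' h h',
      ∃ τ : Tr (spc (bcf Ω f)) (pk (S.map fun i => Ch.cl hP (spc (iL O Ω C)) z (n i)) k h)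
          (pk (S.reverse.map fun i => Ch.cl hP (spc (iL O Ω C)) z (n i)) k' h'),
        ∀ (σ : Ω ≃ₐ[O] Ω) (Q : ℕ), Tw l (σ : Ω →+* Ω) Q →
          τ.Eqv (spc (tw σ C)) (spc (tw σ D)) (Q ^ S.length) := by
  induction H with
  | nil C =>
    intro e s I S z _ _ _ hS k k' h h'
    obtain rfl := List.map_eq_nil_iff.1 hS
    obtain rfl : 0 = k := h
    obtain rfl : 0 = k' := h'
    have e1 : 𝟙 _ = spc (bcf Ω (AlgHom.id O C)) := by
      rw [bcf, Algebra.TensorProduct.map_id]; exact (Spec.map_id _).symm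
    exact ⟨(Tr.refl _).cast e1 (comp_one _).symm (comp_one _).symm, fun σ Q _ => Tr.refl_eqv _⟩
  | cons C C₁ D I₀ L f h1 h2 H ih =>
    intro e s I S z he hz hs hS k k' h h'
    obtain ⟨i, S, rfl, rfl, rfl⟩ := List.map_eq_cons_iff.1 hS
    obtain ⟨s1, s2, s3⟩ := hs i List.mem_cons_self
    let a := algebraMap C C₁
    let b := bcf Ω (IsScalarTower.toAlgHom O C C₁)
    let : Algebra (Ω ⊗[O] C) (Ω ⊗[O] C₁) := b.toAlgebra
    have ab : b.comp (iR O Ω C) = (iR O Ω C₁).comp a := RingHom.ext fun _ => rfl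
    have bL : b.comp (iL O Ω C) = iL O Ω C₁ := RingHom.ext fun x => by simp [b, bcf, iL]
    obtain ⟨τ, hτ⟩ := hJ l Ω Ch hP κ (Ω ⊗[O] C) (Ω ⊗[O] C₁) (iL O Ω C) _ z (n i) _ _ hl
      (jp_map _ he) hz (hg_map _ s1) (s2.map (iR O Ω C)) (zer_map _ s3)
      (exs_tensor hX O Ω C C₁ _ h1 h2)
    have hk : 2 + 2 * S.length = k := by simp at h; omega
    have hk' : 2 * S.length + 2 = k' := by simp at h'; omega
    obtain ⟨τ', hτ'⟩ := ih (a ∘ e) (fun j => map a (s j)) (fun j => (I j).map a) S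
      (fun k => spc b ≫ z k) (jp_map _ he) (ad_map b hz)
      (fun j hj => (hs j (List.mem_cons_of_mem _ hj)).imp (hg_map _)
        fun h => ⟨h.1.map a, zer_map _ h.2⟩) (by simp [a]) (2 * S.length) (2 * S.length) (by simp)
      (by simp)
    have pb : ∀ j, epb l (spc b) 2 (Ch.cl hP (spc (iL O Ω C)) z (n j)) =
        Ch.cl hP (spc (iL O Ω C₁)) (fun k => spc b ≫ z k) (n j) := fun j => by
      rw [JX.cl_nat, spc_spc, bL]
    refine ⟨(τ.comp τ' (pk_pb _ (S.map fun i => Ch.cl hP (spc (iL O Ω C)) z (n i)) _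
      (by rw [List.map_map]; exact List.map_congr_left fun j _ => pb j) _ (by simp) _)
      (pk_pb _ (S.reverse.map fun i => Ch.cl hP (spc (iL O Ω C)) z (n i)) _
      (by rw [List.map_map]; exact List.map_congr_left fun j _ => pb j) _ (by simp) _)
      hk hk').cast ?_ (pk_cons _ _ _ _ _ _ _) (pk_snoc _ _ _ (by simp) _ _ _ _ _),
      fun σ Q hQ => ?_⟩
    · refine (spc_spc _ _).trans (congrArg spc ?_)
      ext x <;> simp [bcf, RingHom.algebraMap_toAlgebra]
    · have fix : (tw σ C).comp (iR O Ω C) = iR O Ω C := RingHom.ext fun x => by simp [tw, iR]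
      rw [List.length_cons, pow_succ']
      refine cast_eqv _ _ _ _ (Tr.comp_eqv _ _ _ _ _ _
        (hτ σ (tw σ C) (tw σ C₁) Q hQ ?_ ?_ ?_ ?_ ?_) (hτ' σ Q hQ))
      · exact RingHom.ext fun x => by simp [tw, iL]
      · ext x <;> simp [tw, RingHom.algebraMap_toAlgebra]
      · exact congrArg (fun φ : C →+* _ => φ ∘ e) fix
      · rw [MvPolynomial.map_map, fix]
      · rw [Ideal.map_map, fix]

end Twt

theorem jst : JST_s := by
  intro l _ Ω _ Ch hP κ _ _ D D₁ _ _ _ t e z n s I _ he hz hs hI hZ hE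
  obtain ⟨a, ha⟩ := Pbc.exRp (l := l) (spc (algebraMap D D₁)) (O := opI I) le_rfl
  have hc := (Ch.th_c (spc t) (JX.eZ he hs hZ)).trans (JX.c_eC he Ch hP (spc t) hz n)
  refine ⟨(Stp.step ha (Exce.exce' l hE hI rfl a ha) (Ch.th (spc t) (JX.eZ he hs hZ))).cast rfl hc hc,
    fun σ ψ ψ₁ Q hQ h1 h2 h3 h4 h5 => Twt.cast_eqv _ _ _ _ ?_⟩
  have hO : opI I = spc ψ ⁻¹ᵁ opI I := by rw [← Exce.opI_map, h5]
  have hg : spc ψ₁ ≫ spc (algebraMap D D₁) = spc (algebraMap D D₁) ≫ spc ψ := by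
    rw [Twt.spc_spc, Twt.spc_spc, h2]
  obtain ⟨b, hb⟩ := Pbc.exRp (l := l) (spc ψ) hO.le
  refine Stp.step_eqv ha _ _ hg ?_ hb ?_
  · rw [← Scheme.Hom.comp_preimage, hg, Scheme.Hom.comp_preimage, ← hO]
  · rw [Ch.th_nat (spc ψ) (spc t) (JX.eZ he hs hZ) (JX.eZ he hs hZ) (JX.eH he ψ he h3.symm n) b hO.le
      hb fun U c => (congrArg _ h4.symm).trans (JX.eH_s he ψ he h3.symm n s U c),
      Twt.spc_spc, h1, ← Twt.spc_spc]
    exact Ch.th_tw _ _ σ Q hQ

theorem twt : TWT_s := by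
  intro l _ Ω _ Ch hP κ ι _ _ O _ _ C D _ _ _ _ f e n s I S z hl he hz hs H
  obtain ⟨τ, hτ⟩ := Twt.aux exs jst Ch hP hl n H e s I S z he hz hs rfl _ _ rfl rfl
  refine ⟨τ.cast rfl (Twt.pk_rfl _) (Twt.pk_rfl _), fun σ Q hQ i m h γ => ?_⟩
  exact hτ σ Q hQ i m h γ

end Pool.Agent.MP_855f4c_ag.T

end

section

/-! h12g: the transfer and the map to the variety. -/

set_option autoImplicit false
set_option backward.isDefEq.respectTransparency false

open CategoryTheory Limits Abelian Opposite AlgebraicGeometry MvPolynomial TensorProduct Function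

namespace Pool.Agent.MP_855f4c_ag.T

open E E3 E4

/-- The class of the line given by `z`. -/
def RHX_s : Prop := ∀ (l : ℕ) [Fact l.Prime] (Ω : Type) [Field Ω] (Ch : Chern l Ω) (hP : P1L_s)
  (κ ν : Type) [Fintype κ] [DecidableEq κ] [Fintype ν] (D : Type) [CommRing D]
  (t : Spec (.of D) ⟶ Spec (.of Ω)) (e : EV κ → D) (x : κ → (Spec (.of D) ⟶ P1))
  (q lam : ν → MvPolynomial (XY κ) D) (m : κ → ℤ) (e₀ z : ν × ν → D)
  (co : ∀ U : Over (Spec (.of D)), (ν → Γ(U.left, ⊤)) → Prop) (hco : IsLin co), JP e → Ad e x →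
    (∀ i, Hg m (q i)) → (∀ i, Hg (-m) (lam i)) →
    (∀ (D' : Type) [CommRing D'] (ψ : D →+* D') (a : XY κ → D'), emat a = ψ ∘ e → ∀ v,
      ψ (e₀ v) = eval₂ ψ a (q v.1) * eval₂ ψ a (lam v.2)) →
    YJ.RK z → IsUnit (∑ v, z v * e₀ v.swap) →
    (∀ (U : Over (Spec (.of D))) (v : ν → Γ(U.left, ⊤)),
      (∀ k, ∑ l, str U.hom (z (k, l)) * v l = v k) → co U v) →
    Ch.c t hco.coc = Ch.cl hP t x m

/-- The middle part of the main argument. -/
def MID_s : Prop := ∀ (l : ℕ) [Fact l.Prime] (K Ω : Type) [CommRing K] [Field Ω] (τ : K →+* Ω)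
  (Ch : Chern l Ω) (hP : P1L_s) (κ ι ν ρ : Type) [Fintype κ] [DecidableEq κ] [Fintype ι]
  [Fintype ν] [Finite ρ] (X : Scheme.{0}) (f : X ⟶ Spec (.of K)) (g : ρ → MvPolynomial (ν × ν) K)
  (co : ∀ U : Over (fbr f (spc τ)).left, (ν → Γ(U.left, ⊤)) → Prop) (hco : IsLin co)
  (O : Type) [CommRing O] [Algebra O Ω] (C : Type) [CommRing C] [Algebra O C] (χ : K →+* C)
  (e : EV κ → C) (x : κ → (Spec (.of (Ω ⊗[O] C)) ⟶ P1)) (n : ι → κ → ℤ) (m : κ → ℤ)
  (s : ι → MvPolynomial (XY κ) K) (q lam : ν → MvPolynomial (XY κ) K) (I : ι → Ideal C)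
  (e₀ z : ν × ν → C) (A : List ι), (l : Ω) ≠ 0 →
    Algebra.FormallySmooth K (MvPolynomial (ν × ν) K ⧸ Ideal.span (Set.range g)) →
    (∀ (D : Type) [CommRing D] (ω : Ω →+* D) (z : ν × ν → D),
      (∀ j, eval₂ (ω.comp τ) z (g j) = 0) → YJ.RK z ∧
      ∃ r : Spec (.of D) ⟶ (fbr f (spc τ)).left, r ≫ pullback.fst _ _ = spc ω ∧
        (∀ (σ : Ω →+* Ω) (h : spc σ ≫ spc τ = spc τ) (θ : D →+* D), θ.comp ω = ω.comp σ →
          (∀ p, θ (z p) = z p) → spc θ ≫ r = r ≫ fa f σ h) ∧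
        ∀ (U : Over (Spec (.of D))) (v : ν → Γ(U.left, ⊤)),
          (∀ k, ∑ l, str U.hom (z (k, l)) * v l = v k) → copb r co U v) →
    (iR O Ω C).comp χ = (iL O Ω C).comp τ → JP e → Ad (iR O Ω C ∘ e) x →
    (∀ t, Hg (n t) (s t)) → (∀ i, Hg m (q i)) → (∀ i, Hg (-m) (lam i)) →
    A.Nodup → (∀ t, t ∈ A) → (∀ t, (I t).FG ∧ Zer e (map χ (s t)) (I t)) →
    (∀ (D : Type) [CommRing D] (ψ : C →+* D) (a : XY κ → D), emat a = ψ ∘ e → ∀ v,
      ψ (e₀ v) = eval₂ (ψ.comp χ) a (q v.1) * eval₂ (ψ.comp χ) a (lam v.2)) →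
    (∀ j, eval₂ χ z (g j) ∈ ∑ t, I t) →
    IsUnit (Ideal.Quotient.mk (∑ t, I t) (∑ v, z v * e₀ v.swap)) →
    ∃ (W : Scheme.{0}) (π : W ⟶ Spec (.of (Ω ⊗[O] C))) (r : W ⟶ (fbr f (spc τ)).left)
      (tr : Tr π (pw (A.map fun t => Ch.cl hP (spc (iL O Ω C)) x (n t)))
        (pw (A.reverse.map fun t => Ch.cl hP (spc (iL O Ω C)) x (n t)))),
      epb l r 2 (Ch.c (pullback.fst _ _) hco.coc) = epb l π 2 (Ch.cl hP (spc (iL O Ω C)) x m) ∧
      ∀ (σ : Ω ≃ₐ[O] Ω) (h : spc (σ : Ω →+* Ω) ≫ spc τ = spc τ) (Q : ℕ), Tw l (σ : Ω →+* Ω) Q →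
        ∃ gW : W ⟶ W, gW ≫ r = r ≫ fa f (σ : Ω →+* Ω) h ∧
          tr.Eqv (spc (tw σ C)) gW (Q ^ A.length)

theorem mid_of (hC : CHAIN_s) (hR : RHX_s) : MID_s := by
  classical
  intro l _ K Ω _ _ τ Ch hP κ ι ν ρ _ _ _ _ _ X f g co hco O _ _ C _ _ χ e x n m s q lam I e₀ z A hl
    hg hY hχ he hx hs hq hlam hA hA' hI he₀ hz hu
  have sum : (A.map I).sum = ∑ t, I t := by
    rw [← List.sum_toFinset _ hA]
    exact Finset.sum_congr (Finset.eq_univ_of_forall fun t => List.mem_toFinset.2 (hA' t))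
      fun _ _ => rfl
  obtain ⟨D, _, _, φ, w, H, w1, w2, -⟩ := hC O K (ν × ν) ρ g hg C χ (A.map I) z
    (∑ v, MvPolynomial.X v * MvPolynomial.C (e₀ v.swap)) (fun j => sum ▸ hz j)
    (Cha.unit_congr sum (by simpa using hu))
  obtain ⟨tr, htr⟩ := twt l Ω Ch hP κ ι O C D φ e n (fun t => map χ (s t)) I A x hl he hx
    (fun t _ => ⟨Twt.hg_map _ (hs t), hI t⟩) H
  let ψ : C →+* Ω ⊗[O] D := (iR O Ω D).comp φ.toRingHom
  have bR : (bcf Ω φ).comp (iR O Ω C) = ψ := RingHom.ext fun _ => rfl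
  have bL : (bcf Ω φ).comp (iL O Ω C) = iL O Ω D := RingHom.ext fun x => by simp [bcf, iL]
  have hψ : ψ.comp χ = (iL O Ω D).comp τ := by
    rw [← bR, ← bL, RingHom.comp_assoc, hχ, RingHom.comp_assoc]
  obtain ⟨rk, r, r1, r2, r3⟩ := hY (Ω ⊗[O] D) (iL O Ω D) (iR O Ω D ∘ w) fun j => by
    rw [← hψ, RingHom.comp_assoc, ← eval₂_comp_left, w1, map_zero]
  refine ⟨_, spc (bcf Ω φ), r, tr, ?_, fun σ h Q hQ => ⟨spc (tw σ D), r2 σ h _ ?_ fun p => ?_,
    htr σ Q hQ⟩⟩
  · rw [JX.cl_nat, Twt.spc_spc, bL, Ch.c_nat r _ (γ' := (hco.pb r).coc)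
      ⟨fun _ a => a, fun _ _ => rfl, fun _ _ _ => rfl⟩, r1]
    refine hR l Ω Ch hP κ ν _ _ (ψ ∘ e) _ (fun i => map (ψ.comp χ) (q i))
      (fun i => map (ψ.comp χ) (lam i)) m (ψ ∘ e₀) (iR O Ω D ∘ w) _ _ (Twt.jp_map _ he)
      (Twt.ad_map (bcf Ω φ) hx) (fun i => Twt.hg_map _ (hq i)) (fun i => Twt.hg_map _ (hlam i))
      (fun D' _ θ a ha v => ?_) rk ?_ r3
    · rw [eval₂_map, eval₂_map]
      exact he₀ D' (θ.comp ψ) a ha v
    · simpa [ψ] using w2.map (iR O Ω D)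
  · exact RingHom.ext fun x => by simp [tw, iL]
  · simp [tw, iR]

end Pool.Agent.MP_855f4c_ag.T

end

section

/-! h12g, row RH in the form used by `MID`. -/

set_option autoImplicit false
set_option backward.isDefEq.respectTransparency false

open CategoryTheory Limits Abelian Opposite AlgebraicGeometry MvPolynomial

namespace Pool.Agent.MP_855f4c_ag.T

open E E3 E4

theorem rhx : RHX_s := by
  intro l _ Ω _ Ch hP κ ν _ _ _ D _ t e x q lam m e₀ z co hco he hx hq _ h0 hz hu h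
  have := rh l Ω Ch hP κ ν D D D (.id D) (.id D) e e₀ z m q lam _ t (𝟙 _) co hco x he hx hq h0
    (fun i j => hz.col j i) hu fun U v _ hv _ => h ((Over.map (𝟙 _)).obj U) v fun k => by
      rw [← hv k]
      exact Finset.sum_congr rfl fun j _ =>
        congrArg (fun g : U.left ⟶ _ => str g _ * v j) (Category.comp_id _)
  rwa [Pbc.epb_id, Category.id_comp] at this

end Pool.Agent.MP_855f4c_ag.T

end
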