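import Pool.Agent.MP_855f4c_ag.TC.Tb
import Pool.Agent.MP_855f4c_ag.EC.Sa
import Pool.Agent.MP_855f4c_ag.EC.F2b
import Pool.Agent.MP_855f4c_ag.EC.E3a
import Pool.Agent.MP_855f4c_ag.TC.Tc
import Pool.Agent.MP_855f4c_ag.LP.Transfer

section

/-! Final form of the approximation lemma: a family close to a `p`-power root of the given
equations, with discriminant close to a unit. -/

set_option autoImplicit false

open MvPolynomial

namespace Pool.Agent.MP_855f4c_ag.T

namespace Apxf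

/-- Evaluation of an integral polynomial. -/
noncomputable abbrev ev {σ A : Type} [CommRing A] (y : σ → A) : MvPolynomial σ ℤ →+* A :=
  eval₂Hom (Int.castRingHom A) y

theorem map_ev {σ A B : Type} [CommRing A] [CommRing B] (φ : A →+* B) (y : σ → A)
    (f : MvPolynomial σ ℤ) : φ (ev y f) = ev (fun i => φ (y i)) f :=
  RingHom.congr_fun (MvPolynomial.ringHom_ext' (f := φ.comp (ev y)) (RingHom.ext_int _ _)
    fun i => by simp) f

theorem map_ae {σ A B : Type} [CommRing A] [CommRing B] (φ : A →+* B) (y : σ → A)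
    (f : MvPolynomial σ ℤ) : φ (aeval y f) = aeval (fun i => φ (y i)) f := map_ev φ y f

section norm
variable {Ω : Type} [NormedField Ω] [IsUltrametricDist Ω]

/-- The closed unit ball. -/
def Bl (Ω : Type) [NormedField Ω] [IsUltrametricDist Ω] : Subring Ω where
  carrier := {z | ‖z‖ ≤ 1}
  mul_mem' := fun {a b} ha hb => by
    change ‖a * b‖ ≤ 1
    rw [norm_mul]; exact mul_le_one₀ ha (norm_nonneg _) hb
  one_mem' := norm_one.le
  add_mem' := fun {a b} ha hb => (IsUltrametricDist.norm_add_le_max a b).trans (max_le ha hb)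
  zero_mem' := by simp
  neg_mem' := fun {a} ha => (norm_neg a).trans_le ha

/-- The open unit ball. -/
def mx (Ω : Type) [NormedField Ω] [IsUltrametricDist Ω] : Ideal (Bl Ω) where
  carrier := {z | ‖(z : Ω)‖ < 1}
  add_mem' := fun {a b} ha hb =>
    (IsUltrametricDist.norm_add_le_max (a : Ω) b).trans_lt (max_lt ha hb)
  zero_mem' := by simp
  smul_mem' := fun c {a} ha => by
    change ‖(c : Ω) * a‖ < 1
    rw [norm_mul]
    exact mul_lt_one_of_nonneg_of_lt_one_right c.2 (norm_nonneg _) ha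

instance mx_prime : (mx Ω).IsPrime where
  ne_top' := (Ideal.ne_top_iff_one _).2 fun h => by
    have : ‖(1 : Ω)‖ < 1 := h
    simp at this
  mem_or_mem' := fun {a b} h => by
    by_contra hn
    rw [not_or] at hn
    have h1 : 1 ≤ ‖(a : Ω)‖ := not_lt.1 hn.1
    have h2 : 1 ≤ ‖(b : Ω)‖ := not_lt.1 hn.2
    have h3 : ‖(a : Ω) * b‖ < 1 := h
    rw [norm_mul] at h3
    nlinarith

theorem norm_sub_big {u x : Ω} (h : ‖u‖ < ‖x‖) : ‖u - x‖ = ‖x‖ := by
  rw [sub_eq_add_neg, IsUltrametricDist.norm_add_eq_max_of_norm_ne_norm (by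
    rw [norm_neg]; exact h.ne), norm_neg, max_eq_right h.le]

theorem avoid [IsAlgClosed Ω] (s : Finset Ω) :
    ∃ u : Ω, ‖u‖ ≤ 1 ∧ ∀ x ∈ s, ‖u - x‖ = max 1 ‖x‖ := by
  classical
  let t := insert 0 (s.filter fun x => ‖x‖ ≤ 1)
  have ht : ∀ x ∈ t, ‖x‖ ≤ 1 := fun x hx => by
    rcases Finset.mem_insert.1 hx with rfl | hx
    · simp
    · exact (Finset.mem_filter.1 hx).2
  have hd : (∏ x ∈ t, (Polynomial.X - Polynomial.C x) - 1 : Polynomial Ω).degree ≠ 0 := by
    have h1 : (∏ x ∈ t, (Polynomial.X - Polynomial.C x) : Polynomial Ω).natDegree = t.card := by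
      rw [Polynomial.natDegree_prod_of_monic _ _ fun x _ => Polynomial.monic_X_sub_C x]; simp
    have h2 : 0 < t.card := Finset.card_pos.2 ⟨0, Finset.mem_insert_self _ _⟩
    intro h
    have h3 := Polynomial.natDegree_eq_zero_iff_degree_le_zero.2 h.le
    rw [← Polynomial.C_1, Polynomial.natDegree_sub_C, h1] at h3
    omega
  obtain ⟨u, hu⟩ := IsAlgClosed.exists_root _ hd
  have h1 : ∏ x ∈ t, ‖u - x‖ = 1 := by
    have : ∏ x ∈ t, (u - x) = 1 := by
      simpa [Polynomial.eval_prod, sub_eq_zero] using hu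
    rw [← norm_prod, this, norm_one]
  have h2 : ‖u‖ ≤ 1 := by
    by_contra hn
    rw [not_le] at hn
    have : ∏ x ∈ t, ‖u - x‖ = ‖u‖ ^ t.card := by
      rw [← Finset.prod_const]
      exact Finset.prod_congr rfl fun x hx => by
        rw [norm_sub_rev, norm_sub_big ((ht x hx).trans_lt hn)]
    rw [h1] at this
    exact absurd this (one_lt_pow₀ hn (Finset.card_pos.2 ⟨0, Finset.mem_insert_self _ _⟩).ne').ne
  have h3 : ∀ x ∈ t, ‖u - x‖ ≤ 1 := fun x hx => (Bl Ω).sub_mem h2 (ht x hx)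
  refine ⟨u, h2, fun x hx => ?_⟩
  by_cases hx1 : ‖x‖ ≤ 1
  · have hxt : x ∈ t := Finset.mem_insert_of_mem (Finset.mem_filter.2 ⟨hx, hx1⟩)
    rw [max_eq_left hx1]
    refine le_antisymm (h3 x hxt) ?_
    rw [← Finset.mul_prod_erase t _ hxt] at h1
    have := Finset.prod_le_one (s := t.erase x) (f := fun y => ‖u - y‖) (fun _ _ => norm_nonneg _)
      fun y hy => h3 y (Finset.mem_of_mem_erase hy)
    nlinarith [norm_nonneg (u - x)]
  · rw [not_le] at hx1
    rw [max_eq_right hx1.le, norm_sub_big (h2.trans_lt hx1)]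

instance mx_inf [IsAlgClosed Ω] : Infinite (Bl Ω ⧸ mx Ω) := by
  classical
  rw [← not_finite_iff_infinite]
  intro hf
  have := Fintype.ofFinite (Bl Ω ⧸ mx Ω)
  choose g hg using Ideal.Quotient.mk_surjective (I := mx Ω)
  obtain ⟨u, hu, h⟩ := avoid (Finset.univ.image fun q => (g q : Ω))
  have h1 := h _ (Finset.mem_image_of_mem _ (Finset.mem_univ (Ideal.Quotient.mk _ ⟨u, hu⟩)))
  have h2 : ‖u - (g (Ideal.Quotient.mk _ ⟨u, hu⟩) : Ω)‖ < 1 :=
    Ideal.Quotient.eq.1 (hg (Ideal.Quotient.mk (mx Ω) ⟨u, hu⟩)).symm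
  rw [h1] at h2
  exact absurd (le_max_left _ _) (not_le.2 h2)

/-- An integral polynomial that is not divisible by `p` takes a unit value. -/
theorem ex_unit [IsAlgClosed Ω] {p : ℕ} (hp : p.Prime) (h1 : ‖(p : Ω)‖ < 1) {T : Type}
    (Δ : MvPolynomial T ℤ) (hΔ : ¬ (p : MvPolynomial T ℤ) ∣ Δ) :
    ∃ y : T → Ω, (∀ c, ‖y c‖ ≤ 1) ∧ 1 ≤ ‖ev y Δ‖ := by
  by_contra hn
  apply hΔ
  rw [← map_natCast (C : ℤ →+* MvPolynomial T ℤ), C_dvd_iff_dvd_coeff]
  have h0 : map (Int.castRingHom (Bl Ω ⧸ mx Ω)) Δ = 0 := by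
    refine MvPolynomial.funext fun x => ?_
    choose g hg using fun c => Ideal.Quotient.mk_surjective (I := mx Ω) (x c)
    have e : eval x (map (Int.castRingHom (Bl Ω ⧸ mx Ω)) Δ) = Ideal.Quotient.mk _ (ev g Δ) := by
      rw [map_ev, eval_map]; simp only [hg]; rfl
    rw [e, map_zero, Ideal.Quotient.eq_zero_iff_mem]
    by_contra hm
    refine hn ⟨fun c => g c, fun c => (g c).2, ?_⟩
    exact (not_lt.1 hm).trans_eq (congrArg norm (map_ev (Bl Ω).subtype g Δ))
  intro m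
  by_contra hm
  obtain ⟨a, b, hab⟩ := ((Nat.prime_iff_prime_int.1 hp).coprime_iff_not_dvd).2 hm
  have h2 : ((coeff m Δ : ℤ) : Bl Ω ⧸ mx Ω) = 0 := by
    have := congrArg (coeff m) h0
    rwa [coeff_map, coeff_zero] at this
  have h3 : ((p : ℕ) : Bl Ω ⧸ mx Ω) = 0 := by
    rw [← map_natCast (Ideal.Quotient.mk (mx Ω)), Ideal.Quotient.eq_zero_iff_mem]
    exact h1
  have h4 := congrArg (Int.cast : ℤ → Bl Ω ⧸ mx Ω) hab
  push_cast at h4
  rw [h2, h3] at h4
  simp at h4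

theorem poly_big [IsAlgClosed Ω] (P : Polynomial Ω) {s : Ω} (h0 : s ≠ 0) (h1 : ‖s‖ ≤ 1) :
    ∃ u : Ω, ‖u‖ ≤ 1 ∧ ‖s‖ ^ P.natDegree * ‖P.eval 1‖ ≤ ‖P.eval (s * u)‖ := by
  classical
  obtain ⟨u, hu, h⟩ := avoid (P.roots.toFinset.image (· / s))
  refine ⟨u, hu, ?_⟩
  have hs := IsAlgClosed.splits P
  have key : ∀ m : Multiset Ω, (∀ x ∈ m, x ∈ P.roots) →
      ‖s‖ ^ m.card * ‖(m.map (1 - ·)).prod‖ ≤ ‖(m.map (s * u - ·)).prod‖ := by
    intro m
    induction m using Multiset.induction_on with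
    | empty => simp
    | cons x m ih =>
      intro hm
      have a := ih fun y hy => hm y (Multiset.mem_cons_of_mem hy)
      have b := h _ (Finset.mem_image_of_mem _
        (Multiset.mem_toFinset.2 (hm x (Multiset.mem_cons_self _ _))))
      have c : ‖s‖ * ‖1 - x‖ ≤ ‖s * u - x‖ := by
        have e : s * u - x = s * (u - x / s) := by field_simp
        rw [e, norm_mul, b]
        refine mul_le_mul_of_nonneg_left ?_ (norm_nonneg _)
        rw [sub_eq_add_neg]
        refine (IsUltrametricDist.norm_add_le_max _ _).trans (max_le_max norm_one.le ?_)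
        rw [norm_neg, norm_div, le_div_iff₀ (norm_pos_iff.2 h0)]
        exact mul_le_of_le_one_right (norm_nonneg _) h1
      simp only [Multiset.card_cons, Multiset.map_cons, Multiset.prod_cons, norm_mul]
      calc ‖s‖ ^ (m.card + 1) * (‖1 - x‖ * ‖(m.map (1 - ·)).prod‖)
          = ‖s‖ * ‖1 - x‖ * (‖s‖ ^ m.card * ‖(m.map (1 - ·)).prod‖) := by ring
        _ ≤ _ := mul_le_mul c a (by positivity) (norm_nonneg _)
  rw [hs.eval_eq_prod_roots, hs.eval_eq_prod_roots, norm_mul, norm_mul, hs.natDegree_eq_card_roots,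
    mul_left_comm]
  exact mul_le_mul_of_nonneg_left (key _ fun _ hx => hx) (norm_nonneg _)

/-- Large values of `Δ` in every small residue disc. -/
theorem ex_big [IsAlgClosed Ω] {p : ℕ} (hp : p.Prime) (h1 : ‖(p : Ω)‖ < 1) {T : Type}
    (Δ : MvPolynomial T ℤ) (hΔ : ¬ (p : MvPolynomial T ℤ) ∣ Δ) :
    ∃ D : ℕ, ∀ c : T → Ω, (∀ i, ‖c i‖ ≤ 1) → ∀ s : Ω, s ≠ 0 → ‖s‖ ≤ 1 →
      ∃ h : T → Ω, (∀ i, ‖h i‖ ≤ 1) ∧ ‖s‖ ^ D ≤ ‖ev (fun i => c i + s * h i) Δ‖ := by
  obtain ⟨y, hy, hu⟩ := ex_unit hp h1 Δ hΔ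
  refine ⟨(map (Int.castRingHom Ω) Δ).totalDegree, fun c hc s h0 hs => ?_⟩
  let g : T → Polynomial Ω := fun i =>
    Polynomial.C (c i) + Polynomial.C (y i - c i) * Polynomial.X
  have hev : ∀ x, (ev g Δ).eval x = ev (fun i => c i + (y i - c i) * x) Δ := fun x => by
    rw [← Polynomial.coe_evalRingHom, map_ev]
    simp [g]
  have hdeg : (ev g Δ).natDegree ≤ (map (Int.castRingHom Ω) Δ).totalDegree := by
    have := aeval_natDegree_le (map (Int.castRingHom Ω) Δ) le_rfl g (n := 1) fun i => by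
      rw [show g i = Polynomial.C (y i - c i) * Polynomial.X + Polynomial.C (c i) from
        add_comm _ _]
      exact Polynomial.natDegree_linear_le
    rw [mul_one, aeval_def, eval₂_map, RingHom.ext_int (RingHom.comp _ _) (Int.castRingHom _)] at this
    exact this
  obtain ⟨u, hu1, hb⟩ := poly_big (ev g Δ) h0 hs
  refine ⟨fun i => (y i - c i) * u, fun i => (Bl Ω).mul_mem ((Bl Ω).sub_mem (hy i) (hc i)) hu1, ?_⟩
  rw [hev, hev] at hb
  simp only [mul_one, add_sub_cancel] at hb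
  simp only [mul_left_comm s]
  refine le_trans ?_ hb
  exact (pow_le_pow_of_le_one (norm_nonneg _) hs hdeg).trans
    (le_mul_of_one_le_right (by positivity) hu)

end norm

end Apxf

open Apxf in
theorem apx (h : APX0_s) : APX_s := by
  classical
  intro p hp κ _ _ c e cf hcf n
  have h0 : (p : PadicAlgCl p) ≠ 0 := Nat.cast_ne_zero.2 hp.out.ne_zero
  have h1 : ‖(p : PadicAlgCl p)‖ < 1 := by
    rw [← map_natCast (algebraMap ℚ_[p] (PadicAlgCl p)), norm_algebraMap']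
    exact Padic.norm_p_lt_one
  choose r₀ hr₀ using fun a => h p κ (e a) n
  refine ⟨∑ a, r₀ a, fun Δ hΔ ρ hρ => ?_⟩
  choose y hy using fun a => hr₀ a (∑ a, r₀ a)
    (Finset.single_le_sum (fun _ _ => Nat.zero_le _) (Finset.mem_univ a))
  generalize ∑ a, r₀ a = r at Δ hΔ y hy ⊢
  obtain ⟨D, hD⟩ := ex_big hp.out h1 Δ (by
    rintro ⟨Q, rfl⟩
    apply hΔ
    rw [map_mul, map_natCast, ← map_natCast (C : ZMod p →+* _), ZMod.natCast_self, map_zero,
      zero_mul])
  have hp0 : 0 < ‖(p : PadicAlgCl p)‖ := norm_pos_iff.2 h0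
  obtain ⟨k1, hk1⟩ := exists_pow_lt_of_lt_one (pow_pos hp0 (n * p ^ r * D)) (max_lt hρ one_pos)
  obtain ⟨k, hkn, hkk⟩ : ∃ k, r + n ≤ k ∧ k1 ≤ k := ⟨r + n + k1, by omega, by omega⟩
  have hq : 0 < p ^ k := pow_pos hp.out.pos _
  have root : ∀ b : PadicAlgCl p, ‖b‖ ≤ 1 →
      ∃ t : Bl (PadicAlgCl p), (t : PadicAlgCl p) ^ p ^ k = b := fun b hb => by
    obtain ⟨t, ht⟩ := IsAlgClosed.exists_pow_nat_eq b hq
    refine ⟨⟨t, ?_⟩, ht⟩
    change ‖t‖ ≤ 1
    rwa [← ht, norm_pow, pow_le_one_iff_of_nonneg (norm_nonneg _) hq.ne'] at hb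
  obtain ⟨t0, ht0⟩ := root p h1.le
  choose t ht using fun i => root _ (hcf i)
  have ht00 : (t0 : PadicAlgCl p) ≠ 0 := fun h => h0 (by rw [← ht0, h, zero_pow hq.ne'])
  obtain ⟨τ0, hτ0⟩ : ∃ τ0 : (MI fun a k => p ^ r * e a k) → Bl (PadicAlgCl p), ∀ i,
      τ0 i = aeval (fun o : Option _ => o.elim t0 fun j => t ⟨i.1, j⟩) (y i.1 i.2) :=
    ⟨_, fun _ => rfl⟩
  have hs1 : ‖(t0 : PadicAlgCl p) ^ (n * p ^ r)‖ ≤ 1 := (Bl _).pow_mem t0.2 _
  obtain ⟨g, hg, hb⟩ := hD (fun i => τ0 i) (fun i => (τ0 i).2) _ (pow_ne_zero _ ht00) hs1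
  refine ⟨k, insert (t0 : PadicAlgCl p)
    (Finset.univ.image (fun i => (t i : PadicAlgCl p)) ∪ Finset.univ.image g),
    fun z hz => ?_, fun O hO => ?_⟩
  · simp only [Finset.mem_insert, Finset.mem_union, Finset.mem_image] at hz
    rcases hz with rfl | ⟨i, -, rfl⟩ | ⟨i, -, rfl⟩
    exacts [t0.2, (t i).2, hg i]
  let u0 : O := ⟨t0, hO _ (Finset.mem_insert_self _ _)⟩
  let u : MI e → O := fun i => ⟨t i, hO _ (Finset.mem_insert_of_mem (Finset.mem_union_left _
    (Finset.mem_image_of_mem _ (Finset.mem_univ i))))⟩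
  let g' : (MI fun a k => p ^ r * e a k) → O := fun i => ⟨g i, hO _ (Finset.mem_insert_of_mem
    (Finset.mem_union_right _ (Finset.mem_image_of_mem _ (Finset.mem_univ i))))⟩
  have e0 : u0 ^ p ^ k = p := Subtype.ext (by simpa using ht0)
  refine ⟨fun i => u i ^ p ^ k, fun i => aeval (fun o => o.elim u0 fun j => u ⟨i.1, j⟩) (y i.1 i.2)
    + u0 ^ (n * p ^ r) * g' i, fun i => by simpa using ht i, ?_, fun W _ _ _ ψ x hx a => ?_⟩
  · refine ((le_max_left ρ 0).trans_lt ?_).trans_le (hb.trans_eq ?_)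
    · refine lt_of_pow_lt_pow_left₀ (p ^ k) (by positivity) ?_
      rw [norm_pow, ← pow_mul _ _ D, ← pow_mul, mul_comm _ (p ^ k), pow_mul _ (p ^ k), ← norm_pow,
        ht0]
      exact (pow_le_pow_of_le_one (le_max_right _ _) (max_lt hρ one_pos).le
        (hkk.trans (Nat.lt_pow_self hp.out.one_lt).le)).trans_lt hk1
    · refine congrArg (fun z => ‖ev z Δ‖) (funext fun i => ?_)
      rw [Subring.coe_add, Subring.coe_mul, Subring.coe_pow, hτ0]
      congr 1
      refine (map_ae (Bl _).subtype _ _).trans (Eq.trans ?_ (map_ae O.subtype _ _).symm)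
      congr 2
      funext o
      cases o <;> rfl
  have e1 : ψ u0 ^ p ^ k = p := by rw [← map_pow, e0, map_natCast]
  have h2 := hy a k hkn W (fun o => ψ (o.elim u0 fun j => u ⟨a, j⟩)) x e1 (by
    have h3 := hx a
    simp only [gen, Function.comp, map_add, map_mul, map_pow, add_mul, Finset.sum_add_distrib,
      map_ae, mul_assoc, ← Finset.mul_sum] at h3
    rw [eq_neg_of_add_eq_zero_left h3, ← mul_neg, mul_pow, ← pow_mul, mul_assoc, ← pow_add,
      Nat.add_sub_cancel' (by omega), mul_comm n, pow_mul, e1]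
    exact dvd_mul_right _ _)
  simpa only [gen, Function.comp, map_pow, Option.elim] using h2

end Pool.Agent.MP_855f4c_ag.T

end

section

/-! Row BERT: the universal complete intersection is smooth outside a hypersurface that does not
contain the generic point of characteristic `p`. -/

set_option autoImplicit false

open MvPolynomial Finset

namespace Pool.Agent.MP_855f4c_ag.T

namespace Bert

lemma cnt {R k C : Type} [CommRing R] [IsDomain R] [Field k] [Algebra R k] [FaithfulSMul R k]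
    [Fintype C] (τ g : C → k) (hτ : AlgebraicIndependent R τ) (c₀ : C)
    (h : ∀ T : Subring k, (∀ c, c ≠ c₀ → g c ∈ T) →
      (∀ x y, x ∈ T → x ≠ 0 → x * y ∈ T → y ∈ T) → ∀ c, τ c ∈ T) : False := by
  let M := AlgebraicIndependent.matroid R k
  have h1 : M.Indep (Set.range τ) := hτ.to_subtype_range
  have h2 : Set.range τ ⊆ M.closure (g '' {c₀}ᶜ) := by
    rintro _ ⟨c, rfl⟩
    rw [AlgebraicIndependent.matroid_closure_eq]
    refine h (Subalgebra.algebraicClosure (Algebra.adjoin R (g '' {c₀}ᶜ)) k).toSubring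
      (fun c hc => ?_) (fun x y hx h0 hy => ?_) c
    · exact (Subalgebra.mem_algebraicClosure _ _).2 (isAlgebraic_algebraMap
        (⟨g c, Algebra.subset_adjoin ⟨c, hc, rfl⟩⟩ : Algebra.adjoin R (g '' {c₀}ᶜ)))
    · exact (Subalgebra.mem_algebraicClosure _ _).2 (IsAlgebraic.of_mul
        (mem_nonZeroDivisors_of_ne_zero h0) ((Subalgebra.mem_algebraicClosure _ _).1 hx)
        ((Subalgebra.mem_algebraicClosure _ _).1 hy))
  have h3 : (Set.range τ).encard ≤ ({c₀}ᶜ : Set C).encard :=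
    h1.eRk_eq_encard.symm.trans_le ((M.eRk_mono h2).trans ((M.eRk_closure_eq _).trans_le
      ((M.eRk_le_encard _).trans (Set.encard_image_le _ _))))
  rw [← Set.image_univ, hτ.injective.encard_image] at h3
  exact absurd h3 (not_le.2 ((Set.toFinite _).encard_lt_encard
    ⟨Set.subset_univ _, fun hh => hh (Set.mem_univ c₀) rfl⟩))

section
variable {C A κ : Type} [Fintype C] [DecidableEq A] (a : C → A) (mon : C → κ →₀ ℕ)

/-- The value of the equation number `i`. -/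
noncomputable def E0 {S : Type} [CommRing S] (τ : C → S) (u : κ → S) (i : A) : S :=
  ∑ c with a c = i, τ c * (mon c).prod fun j n => u j ^ n

/-- The `j`-th coordinate of the combination of the gradients. -/
noncomputable def E1 {S : Type} [CommRing S] (τ : C → S) (u : κ → S) (lam : A → S) (j : κ) : S :=
  ∑ c, lam (a c) * (τ c * (mon c j : S) * (mon c - Finsupp.single j 1).prod fun j n => u j ^ n)

lemma map_E0 {S T : Type} [CommRing S] [CommRing T] (ψ : S →+* T) (τ : C → S) (u : κ → S) (i : A) :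
    ψ (E0 a mon τ u i) = E0 a mon (fun c => ψ (τ c)) (fun j => ψ (u j)) i := by
  simp [E0, Finsupp.prod]

omit [DecidableEq A] in
lemma map_E1 {S T : Type} [CommRing S] [CommRing T] (ψ : S →+* T) (τ : C → S) (u : κ → S)
    (lam : A → S) (j : κ) : ψ (E1 a mon τ u lam j) =
      E1 a mon (fun c => ψ (τ c)) (fun j => ψ (u j)) (fun i => ψ (lam i)) j := by
  simp [E1, Finsupp.prod]

/-- No singular zero at algebraically independent coefficients. -/
lemma core (h0 : ∀ i, ∃ c, a c = i ∧ mon c = 0)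
    (h1 : ∀ c j, mon c j ≠ 0 → ∃ c', a c' = a c ∧ mon c' = Finsupp.single j 1)
    {R k : Type} [CommRing R] [IsDomain R] [Field k] [Algebra R k] [FaithfulSMul R k]
    (τ : C → k) (hτ : AlgebraicIndependent R τ) (u : κ → k) (lam : A → k) (i₀ : A)
    (hi : lam i₀ = 1) (hz : ∀ i, E0 a mon τ u i = 0) (hs : ∀ j, E1 a mon τ u lam j = 0) :
    False := by
  classical
  choose c0 ha0 hm0 using h0
  have h2 : ∀ j : {j // ∃ c, lam (a c) ≠ 0 ∧ mon c j ≠ 0},
      ∃ c', lam (a c') ≠ 0 ∧ mon c' = Finsupp.single j.1 1 := fun ⟨j, c, hc, hj⟩ => by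
    obtain ⟨c', h, h'⟩ := h1 c j hj
    exact ⟨c', h ▸ hc, h'⟩
  choose c1 hl1 hm1 using h2
  have inj : Function.Injective c1 := fun j j' h => Subtype.ext
    (Finsupp.single_left_injective one_ne_zero (by rw [← hm1, ← hm1, h] :
      Finsupp.single j.1 1 = Finsupp.single j'.1 1))
  have ne : ∀ j i, c1 j ≠ c0 i := fun j i h =>
    Finsupp.single_ne_zero.2 one_ne_zero (by rw [← hm1 j, h, hm0])
  obtain ⟨g, g1, g2, g3⟩ : ∃ g : C → k, (∀ j, g (c1 j) = u j.1) ∧
      (∀ i, lam i ≠ 0 → g (c0 i) = lam i) ∧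
      ∀ c, (¬ ∃ j, c1 j = c) → ¬ (c = c0 (a c) ∧ lam (a c) ≠ 0) → g c = τ c := by
    refine ⟨fun c => if h : ∃ j, c1 j = c then u h.choose.1 else
      if c = c0 (a c) ∧ lam (a c) ≠ 0 then lam (a c) else τ c, fun j => ?_, fun i h => ?_,
      fun c h h' => ?_⟩
    · have h : ∃ j', c1 j' = c1 j := ⟨j, rfl⟩
      exact (dif_pos h).trans (congrArg (fun z => u z.1) (inj h.choose_spec))
    · refine (dif_neg fun ⟨j, e⟩ => ne j i e).trans ?_
      rw [ha0, if_pos ⟨rfl, h⟩]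
    · exact (dif_neg h).trans (if_neg h')
  refine cnt τ g hτ (c0 i₀) fun T hg hdiv => ?_
  have hu : ∀ c j, lam (a c) ≠ 0 → mon c j ≠ 0 → u j ∈ T := fun c j hc hj =>
    g1 ⟨j, c, hc, hj⟩ ▸ hg _ (ne ⟨j, c, hc, hj⟩ i₀)
  have hl : ∀ i, lam i ∈ T := fun i => by
    by_cases h : lam i = 0
    · exact h ▸ T.zero_mem
    by_cases h' : i = i₀
    · rw [h', hi]; exact T.one_mem
    exact g2 i h ▸ hg (c0 i) fun e => h' (by rw [← ha0 i, e, ha0])
  have ht : ∀ c, (¬ ∃ j, c1 j = c) → ¬ (c = c0 (a c) ∧ lam (a c) ≠ 0) → τ c ∈ T := fun c h h' =>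
    g3 c h h' ▸ hg c fun e => h' (by rw [e, ha0, hi]; exact ⟨rfl, one_ne_zero⟩)
  have hp : ∀ c (s : κ →₀ ℕ), lam (a c) ≠ 0 → (∀ j, s j ≠ 0 → mon c j ≠ 0) →
      (s.prod fun j n => u j ^ n) ∈ T := fun c s hc h =>
    prod_mem fun j hj => T.pow_mem (hu c j hc (h j (Finsupp.mem_support_iff.1 hj))) _
  have hlin : ∀ j, τ (c1 j) ∈ T := fun j => by
    have h3 := hs j.1
    rw [E1, ← add_sum_erase _ _ (mem_univ (c1 j)), hm1, add_eq_zero_iff_eq_neg] at h3
    simp only [Finsupp.single_eq_same, Nat.cast_one, mul_one, tsub_self,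
      Finsupp.prod_zero_index] at h3
    refine hdiv _ _ (hl _) (hl1 j) ?_
    rw [h3]
    refine T.neg_mem (sum_mem fun c hc => ?_)
    by_cases h4 : lam (a c) = 0
    · rw [h4, zero_mul]; exact T.zero_mem
    by_cases h5 : mon c j.1 = 0
    · rw [h5, Nat.cast_zero, mul_zero, zero_mul, mul_zero]; exact T.zero_mem
    refine T.mul_mem (hl _) (T.mul_mem (T.mul_mem (ht c ?_ fun h => h5 ?_) (natCast_mem T _))
      (hp c _ h4 fun j' hj' e => hj' ?_))
    · rintro ⟨j', rfl⟩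
      rw [hm1, Finsupp.single_apply] at h5
      exact ne_of_mem_erase hc (congrArg c1 (Subtype.ext (by_contra fun e => h5 (if_neg e))))
    · rw [h.1, hm0]; rfl
    · rw [Finsupp.tsub_apply, e, zero_tsub]
  intro c
  by_cases h : ∃ j, c1 j = c
  · obtain ⟨j, rfl⟩ := h
    exact hlin j
  by_cases h' : c = c0 (a c) ∧ lam (a c) ≠ 0
  · have h3 := hz (a c)
    rw [E0, ← add_sum_erase (univ.filter fun c' => a c' = a c) _ (mem_filter.2 ⟨mem_univ c, rfl⟩),
      add_eq_zero_iff_eq_neg] at h3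
    have h4 : mon c = 0 := by rw [h'.1, hm0]
    rw [h4, Finsupp.prod_zero_index, mul_one] at h3
    rw [h3]
    refine T.neg_mem (sum_mem fun c' hc' => ?_)
    have e : a c' = a c := (mem_filter.1 (mem_of_mem_erase hc')).2
    refine T.mul_mem ?_ (hp c' _ (e ▸ h'.2) fun _ h => h)
    by_cases h5 : ∃ j, c1 j = c'
    · obtain ⟨j, rfl⟩ := h5
      exact hlin j
    · exact ht c' h5 fun h6 => ne_of_mem_erase hc' (by rw [h6.1, e, ← h'.1])
  · exact ht c h h'

lemma prime_p (C : Type) {p : ℕ} (hp : p.Prime) : Prime (p : MvPolynomial C ℤ) := by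
  have := (MvPolynomial.prime_C_iff C).2 (Nat.prime_iff_prime_int.1 hp)
  rwa [map_natCast] at this

omit [Fintype C] in
/-- A point whose kernel is `0` or `(p)` has independent coordinates. -/
lemma indep {p : ℕ} (hp : p.Prime) {k : Type} [Field k] (ψ : MvPolynomial C ℤ →+* k)
    (h : RingHom.ker ψ ≤ Ideal.span {(p : MvPolynomial C ℤ)}) :
    AlgebraicIndependent (Int.castRingHom k).range fun c => ψ (X c) := by
  have hP := prime_p C hp
  rw [algebraicIndependent_iff]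
  intro Q hQ
  obtain ⟨Q, rfl⟩ := MvPolynomial.map_surjective _ (Int.castRingHom k).rangeRestrict_surjective Q
  have e : aeval (fun c => ψ (X c)) (MvPolynomial.map (Int.castRingHom k).rangeRestrict Q) = ψ Q :=
    RingHom.congr_fun (f := (aeval (R := (Int.castRingHom k).range) fun c => ψ (X c)).toRingHom.comp
      (MvPolynomial.map (Int.castRingHom k).rangeRestrict)) (g := ψ)
      (MvPolynomial.ringHom_ext' (Subsingleton.elim _ _) fun c => by simp) Q
  rw [e] at hQ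
  by_cases h0 : RingHom.ker ψ = ⊥
  · have : Q = 0 := by rw [← Ideal.mem_bot, ← h0]; exact hQ
    rw [this, map_zero]
  · obtain ⟨q, hq, hq'⟩ := (RingHom.ker_isPrime ψ).exists_mem_prime_of_ne_bot h0
    have h1 : (p : MvPolynomial C ℤ) ∈ RingHom.ker ψ :=
      Ideal.mem_of_dvd _ (hP.associated_of_dvd hq' (Ideal.mem_span_singleton.1 (h hq))).symm.dvd hq
    rw [RingHom.mem_ker, map_natCast] at h1
    obtain ⟨w, rfl⟩ := Ideal.mem_span_singleton.1 (h hQ)
    have h2 : (p : (Int.castRingHom k).range) = 0 := Subtype.ext (by simpa using h1)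
    rw [map_mul, map_natCast, ← map_natCast (MvPolynomial.C : (Int.castRingHom k).range →+* _), h2,
      map_zero, zero_mul]

lemma core' (h0 : ∀ i, ∃ c, a c = i ∧ mon c = 0)
    (h1 : ∀ c j, mon c j ≠ 0 → ∃ c', a c' = a c ∧ mon c' = Finsupp.single j 1)
    {p : ℕ} (hp : p.Prime) {k : Type} [Field k] (ψ : MvPolynomial C ℤ →+* k)
    (h : RingHom.ker ψ ≤ Ideal.span {(p : MvPolynomial C ℤ)}) (u : κ → k) (lam : A → k) (i₀ : A)
    (hi : lam i₀ = 1) (hz : ∀ i, E0 a mon (fun c => ψ (X c)) u i = 0)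
    (hs : ∀ j, E1 a mon (fun c => ψ (X c)) u lam j = 0) : False :=
  have : FaithfulSMul (Int.castRingHom k).range k :=
    (faithfulSMul_iff_algebraMap_injective _ _).2 Subtype.val_injective
  core a mon h0 h1 _ (indep hp ψ h) u lam i₀ hi hz hs

lemma key (h0 : ∀ i, ∃ c, a c = i ∧ mon c = 0)
    (h1 : ∀ c j, mon c j ≠ 0 → ∃ c', a c' = a c ∧ mon c' = Finsupp.single j 1)
    {p : ℕ} (hp : p.Prime) (i₀ : A) {P : Type} [CommRing P] (φ : MvPolynomial C ℤ →+* P)
    (u : κ → P) (l : A → P) : ∃ Δ : MvPolynomial C ℤ, ¬ (p : MvPolynomial C ℤ) ∣ Δ ∧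
      ∀ (S : Type) [CommRing S] (ψ : P →+* S), ψ (l i₀) = 1 →
        (∀ i, E0 a mon (fun c => ψ (φ (X c))) (fun j => ψ (u j)) i = 0) →
        (∀ j, E1 a mon (fun c => ψ (φ (X c))) (fun j => ψ (u j)) (fun i => ψ (l i)) j = 0) →
        ψ (φ Δ) = 0 := by
  have hP := prime_p C hp
  obtain ⟨G, hG⟩ : ∃ G : Set P, G = {l i₀ - 1} ∪ Set.range (E0 a mon (fun c => φ (X c)) u) ∪
    Set.range (E1 a mon (fun c => φ (X c)) u l) := ⟨_, rfl⟩
  have key : ¬ (Ideal.span G).comap φ ≤ Ideal.span {(p : MvPolynomial C ℤ)} := fun h => by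
    have := (Ideal.span_singleton_prime hP.ne_zero).2 hP
    obtain ⟨q, hq, hq'⟩ := Ideal.exists_minimalPrimes_le h
    obtain ⟨q', _, hI, rfl⟩ := Ideal.exists_comap_eq_of_mem_minimalPrimes _ q hq
    let ψ : P →+* FractionRing (P ⧸ q') := (algebraMap (P ⧸ q') _).comp (Ideal.Quotient.mk q')
    have hψ : ∀ x, ψ x = 0 ↔ x ∈ q' := fun x =>
      (map_eq_zero_iff _ (IsFractionRing.injective (P ⧸ q') _)).trans Ideal.Quotient.eq_zero_iff_mem
    have hI' : ∀ x ∈ G, ψ x = 0 := fun x hx => (hψ x).2 (hI (Ideal.subset_span hx))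
    rw [hG] at hI'
    refine core' a mon h0 h1 hp (ψ.comp φ) (fun x hx => hq' ((hψ _).1 hx))
      (fun j => ψ (u j)) (fun i => ψ (l i)) i₀ ?_ (fun i => ?_) fun j => ?_
    · have := hI' _ (.inl (.inl rfl))
      rwa [map_sub, map_one, sub_eq_zero] at this
    · exact (map_E0 a mon ψ _ u i).symm.trans (hI' _ (.inl (.inr ⟨i, rfl⟩)))
    · exact (map_E1 a mon ψ _ u l j).symm.trans (hI' _ (.inr ⟨j, rfl⟩))
  obtain ⟨Δ, hΔ, hn⟩ := SetLike.not_le_iff_exists.1 key
  refine ⟨Δ, fun h => hn (Ideal.mem_span_singleton.2 h), fun S _ ψ e1 e2 e3 => ?_⟩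
  have hI : Ideal.span G ≤ RingHom.ker ψ := Ideal.span_le.2 (by
    rw [hG]
    rintro _ ((rfl | ⟨i, rfl⟩) | ⟨j, rfl⟩)
    · change ψ _ = 0
      rw [map_sub, map_one, e1, sub_self]
    · change ψ _ = 0
      rw [map_E0, e2]
    · change ψ _ = 0
      rw [map_E1, e3])
  exact hI hΔ

lemma one (h0 : ∀ i, ∃ c, a c = i ∧ mon c = 0)
    (h1 : ∀ c j, mon c j ≠ 0 → ∃ c', a c' = a c ∧ mon c' = Finsupp.single j 1)
    {p : ℕ} (hp : p.Prime) (i₀ : A) : ∃ Δ : MvPolynomial C ℤ, ¬ (p : MvPolynomial C ℤ) ∣ Δ ∧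
      ∀ (S : Type) [CommRing S] (τ : C → S) (u : κ → S) (lam : A → S), lam i₀ = 1 →
        (∀ i, E0 a mon τ u i = 0) → (∀ j, E1 a mon τ u lam j = 0) → aeval τ Δ = 0 := by
  obtain ⟨Δ, hΔ, h⟩ := key a mon h0 h1 hp i₀ (P := MvPolynomial (κ ⊕ A) (MvPolynomial C ℤ))
    MvPolynomial.C (fun j => X (.inl j)) fun i => X (.inr i)
  refine ⟨Δ, hΔ, fun S _ τ v lam e1 e2 e3 => ?_⟩
  have := h S (eval₂Hom (aeval τ : MvPolynomial C ℤ →ₐ[ℤ] S).toRingHom (Sum.elim v lam))
    (by simpa using e1) (by simpa using e2) (by simpa using e3)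
  simpa using this

/-- The equation number `i` with coefficients `τ`. -/
noncomputable def fm {S : Type} [CommRing S] (τ : C → S) (i : A) : MvPolynomial κ S :=
  ∑ c with a c = i, monomial (mon c) (τ c)

lemma eval_fm {S : Type} [CommRing S] (τ : C → S) (u : κ → S) (i : A) :
    eval u (fm a mon τ i) = E0 a mon τ u i := by
  simp only [fm, E0, map_sum, eval_monomial]

lemma eval_pderiv_fm [Fintype A] {S : Type} [CommRing S] (τ : C → S) (u : κ → S) (lam : A → S)
    (j : κ) : ∑ i, lam i * eval u (pderiv j (fm a mon τ i)) = E1 a mon τ u lam j := by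
  simp only [fm, E1, map_sum, pderiv_monomial, eval_monomial, mul_sum]
  rw [← sum_fiberwise univ a]
  exact sum_congr rfl fun i _ => sum_congr rfl fun c hc => by rw [(mem_filter.1 hc).2]

/-- One chart. -/
theorem chart [Fintype A] (h0 : ∀ i, ∃ c, a c = i ∧ mon c = 0)
    (h1 : ∀ c j, mon c j ≠ 0 → ∃ c', a c' = a c ∧ mon c' = Finsupp.single j 1)
    {p : ℕ} (hp : p.Prime) : ∃ Δ : MvPolynomial C ℤ, ¬ (p : MvPolynomial C ℤ) ∣ Δ ∧
      ∀ (k : Type) [Field k] (τ : C → k), aeval τ Δ ≠ 0 → ∀ (u : κ → k) (lam : A → k),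
        (∀ i, E0 a mon τ u i = 0) → (∀ j, E1 a mon τ u lam j = 0) → lam = 0 := by
  have hP := prime_p C hp
  choose Δ hΔ h using one a mon h0 h1 hp
  refine ⟨∏ i, Δ i, fun e => ?_, fun k _ τ hτ u lam e2 e3 => funext fun i => ?_⟩
  · obtain ⟨i, -, hi⟩ := (hP.dvd_finsetProd_iff _).1 e
    exact hΔ i hi
  · by_contra hi
    refine hτ ?_
    rw [map_prod]
    refine prod_eq_zero (mem_univ i) (h i k τ u (fun i' => (lam i)⁻¹ * lam i')
      (inv_mul_cancel₀ hi) e2 fun j => ?_)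
    have := congrArg ((lam i)⁻¹ * ·) (e3 j)
    simpa only [E1, mul_sum, mul_zero, mul_assoc] using this

end

section
variable {κ : Type} [Fintype κ] [DecidableEq κ] {c : ℕ} {e : Fin c → κ → ℕ}

/-- The exponents in the chart `σ`. -/
noncomputable def ex (σ : κ → Fin 2) (i : MI e) : κ →₀ ℕ :=
  Finsupp.equivFunOnFinite.symm fun k => if σ k = 0 then (i.2 k : ℕ) else e i.1 k - i.2 k

lemma aff_eq {S : Type} [CommRing S] (cf : MI e → S) (σ : κ → Fin 2) (a : Fin c) :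
    aff cf σ a = fm Sigma.fst (ex σ) cf a := by
  rw [fm, sum_filter, Fintype.sum_sigma, sum_eq_single a (fun b _ h => by simp [h]) (by simp)]
  simp only [if_true, aff, gen, T.mon]
  refine sum_congr rfl fun j _ => ?_
  rw [monomial_eq, Finsupp.prod_fintype _ _ fun _ => pow_zero _]
  refine congrArg _ (prod_congr rfl fun k _ => ?_)
  have : σ k = 0 ∨ σ k = 1 := by omega
  rcases this with h | h <;> simp [ex, h]

omit [DecidableEq κ] in
lemma ex0 (σ : κ → Fin 2) (a : Fin c) : ∃ i : MI e, i.1 = a ∧ ex σ i = 0 :=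
  ⟨⟨a, fun k => if σ k = 0 then 0 else Fin.last _⟩, rfl, Finsupp.ext fun k => by
    by_cases h : σ k = 0 <;> simp [ex, h]⟩

lemma ex1 (σ : κ → Fin 2) (i : MI e) (j : κ) (h : ex σ i j ≠ 0) :
    ∃ i' : MI e, i'.1 = i.1 ∧ ex σ i' = Finsupp.single j 1 := by
  have h1 : 1 ≤ e i.1 j := by
    have := (i.2 j).2
    simp only [ex, Finsupp.equivFunOnFinite_symm_apply_apply] at h
    split_ifs at h <;> omega
  have h2 : ∀ k, (Finsupp.single j 1 : κ →₀ ℕ) k ≤ e i.1 k := fun k => by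
    rw [Finsupp.single_apply]
    split_ifs with h3
    · exact h3 ▸ h1
    · exact Nat.zero_le _
  refine ⟨⟨i.1, fun k => if σ k = 0 then ⟨Finsupp.single j 1 k, Nat.lt_succ_of_le (h2 k)⟩ else
    ⟨e i.1 k - Finsupp.single j 1 k, Nat.lt_succ_of_le (Nat.sub_le _ _)⟩⟩, rfl,
    Finsupp.ext fun k => ?_⟩
  have := h2 k
  by_cases h3 : σ k = 0 <;> simp only [ex, Finsupp.equivFunOnFinite_symm_apply_apply, h3, if_true,
    if_false]
  omega

end

end Bert

open Bert in
theorem bert : BERT_s := by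
  intro p hp κ _ _ c e
  choose Δ hΔ h using fun σ : κ → Fin 2 =>
    chart (Sigma.fst : MI e → Fin c) (ex σ) (ex0 σ) (ex1 σ) hp.out
  refine ⟨∏ σ, Δ σ, fun h0 => ?_, fun k _ cf hcf σ t lam e2 e3 => h σ k cf (fun h0 => hcf ?_) t lam
    (fun a => ?_) fun j => ?_⟩
  · rw [← C_dvd_iff_zmod, map_natCast] at h0
    obtain ⟨σ, -, hσ⟩ := ((prime_p _ hp.out).dvd_finsetProd_iff _).1 h0
    exact hΔ σ hσ
  · rw [map_prod]
    exact prod_eq_zero (mem_univ σ) h0
  · rw [← eval_fm, ← aff_eq, e2]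
  · rw [← eval_pderiv_fm, ← e3 j]
    simp only [aff_eq]

end Pool.Agent.MP_855f4c_ag.T

end

section

/-! h12g: the monodromy filtration is the weight filtration; transport and powers. -/

set_option autoImplicit false

open Polynomial

namespace Pool.Agent.MP_855f4c_ag.T

open E

/-- Transport between `Mw` and `MwV`, and passage from powers. -/
def MWV_s : Prop :=
  (∀ (l : ℕ) [Fact l.Prime] (W H : Type 1) [AddCommGroup W] [Module ℚ W] [AddCommGroup H]
    [Module ℚ_[l] H] (Θ : W ≃+ H) (φ u : Module.End ℚ W) (φ' u' : Module.End ℚ_[l] H) (Q : ℕ)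
    (i : ℤ), 1 < Q → (∀ v, Θ (φ v) = φ' (Θ v)) → (∀ v, Θ (u v) = u' (Θ v)) →
      (Mw Q i φ u ↔ MwV Q i φ' u')) ∧
  ∀ (W : Type 1) [AddCommGroup W] [Module ℚ W] (φ u : Module.End ℚ W) (Q m : ℕ) (i : ℤ), 1 < Q →
    0 < m → Mw (Q ^ m) i (φ ^ m) (u ^ m) → Mw Q i φ u

namespace Mwv

variable {W : Type 1} [AddCommGroup W] [Module ℚ W]

lemma stab {φ : Module.End ℚ W} {N : Submodule ℚ W} (h : ∀ v ∈ N, φ v ∈ N) (P : ℚ[X]) :
    ∀ v ∈ N, aeval φ P v ∈ N := by
  induction P using Polynomial.induction_on with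
  | C a => exact fun v hv => by simpa using N.smul_mem a hv
  | add P Q hP hQ => exact fun v hv => by simpa using N.add_mem (hP v hv) (hQ v hv)
  | monomial n a ih =>
    intro v hv
    rw [pow_succ, ← mul_assoc, map_mul, aeval_X]
    exact ih _ (h v hv)

lemma comm {φ c : Module.End ℚ W} (h : ∀ v, c (φ v) = φ (c v)) (P : ℚ[X]) :
    ∀ v, c (aeval φ P v) = aeval φ P (c v) := by
  induction P using Polynomial.induction_on with
  | C a => exact fun v => by simp
  | add P Q hP hQ => exact fun v => by simp [hP, hQ]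
  | monomial n a ih =>
    intro v
    rw [pow_succ, ← mul_assoc, map_mul, aeval_X, Module.End.mul_apply, ih, h]
    rfl

/-- A filtration with pure graded pieces is stable under all that commutes with `φ`. -/
theorem core {q : ℝ} (hq : 1 < q) {i : ℤ} {φ c : Module.End ℚ W} (h : ∀ v, c (φ v) = φ (c v))
    {M : ℤ → Submodule ℚ W} (hm : Monotone M) (h0 : ∃ a, M a = ⊥) (h1 : ∃ a, M a = ⊤)
    (hP : ∀ a, (∀ v ∈ M a, φ v ∈ M a) ∧ ∃ P : ℚ[X], P ≠ 0 ∧
      (∀ z : ℂ, aeval z P = 0 → ‖z‖ ^ 2 = q ^ (a + i)) ∧ ∀ v ∈ M a, aeval φ P v ∈ M (a - 1))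
    (a : ℤ) : ∀ v ∈ M a, c v ∈ M a := by
  obtain ⟨a0, h0⟩ := h0
  obtain ⟨a1, h1⟩ := h1
  have A : ∀ (n : ℕ) (a : ℤ), a ≤ a0 + n → ∀ v ∈ M a, ∃ R : ℚ[X],
      (∀ z : ℂ, aeval z R = 0 → ‖z‖ ^ 2 ≤ q ^ (a + i)) ∧ aeval φ R v = 0 := fun n => by
    induction n with
    | zero =>
      intro a ha v hv
      have : v ∈ M a0 := hm (by simpa using ha) hv
      rw [h0, Submodule.mem_bot] at this
      exact ⟨1, fun z hz => by simp at hz, by simp [this]⟩
    | succ n ih =>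
      intro a ha v hv
      obtain ⟨P, -, p1, p2⟩ := (hP a).2
      obtain ⟨R, r1, r2⟩ := ih (a - 1) (by push_cast at ha; omega) _ (p2 v hv)
      refine ⟨R * P, fun z hz => ?_, by rw [map_mul]; exact r2⟩
      rw [map_mul] at hz
      exact (mul_eq_zero.1 hz).elim
        (fun h => (r1 z h).trans (zpow_le_zpow_right₀ hq.le (by omega))) fun h => (p1 z h).le
  intro v hv
  obtain ⟨R, r1, r2⟩ := A (a - a0).toNat a (by omega) v hv
  have r3 : aeval φ R (c v) = 0 := by rw [← comm h, r2, map_zero]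
  have B : ∀ n : ℕ, c v ∈ M (a + n) → c v ∈ M a := fun n => by
    induction n with
    | zero => simp
    | succ n ih =>
      intro hw
      obtain ⟨P, -, p1, p2⟩ := (hP (a + (n + 1 : ℕ))).2
      obtain ⟨x, y, e⟩ : IsCoprime P R :=
        (isCoprime_iff_aeval_ne_zero_of_isAlgClosed ℚ ℂ P R).2 fun z => by
          by_contra hz
          rw [not_or, not_not, not_not] at hz
          have := (p1 z hz.1).ge.trans (r1 z hz.2)
          rw [zpow_le_zpow_iff_right₀ hq] at this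
          omega
      have e2 := congrArg (fun T : ℚ[X] => aeval φ T (c v)) e
      simp only [map_add, map_mul, map_one, LinearMap.add_apply, Module.End.mul_apply, r3,
        map_zero, add_zero, Module.End.one_apply] at e2
      have e3 : a + ((n + 1 : ℕ) : ℤ) - 1 = a + n := by omega
      refine ih (e2 ▸ stab (hP _).1 x _ (e3 ▸ p2 _ hw))
  exact B (a1 - a).toNat (hm (show a1 ≤ _ by omega) (h1 ▸ Submodule.mem_top))

theorem pow (φ u : Module.End ℚ W) (Q m : ℕ) (i : ℤ) (hQ : 1 < Q) (hm : 0 < m)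
    (h : Mw (Q ^ m) i (φ ^ m) (u ^ m)) : Mw Q i φ u := by
  obtain ⟨k, hk, M, a1, a2, a3, a4, a5, a6⟩ := h
  rw [← pow_mul] at a4 a5
  refine ⟨m * k, Nat.mul_pos hm hk, M, a1, a2, a3, a4, a5, fun a => ⟨core
    (Nat.one_lt_cast.2 (one_lt_pow₀ hQ hm.ne')) (fun v => ?_) a1 a2 a3 a6 a, ?_⟩⟩
  · rw [← Module.End.mul_apply, ← pow_succ', pow_succ, Module.End.mul_apply]
  · obtain ⟨P, p0, p1, p2⟩ := (a6 a).2
    refine ⟨expand ℚ m P, (expand_ne_zero hm).2 p0, fun z hz => ?_, fun v hv => ?_⟩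
    · rw [expand_aeval] at hz
      have := p1 _ hz
      rw [norm_pow, ← pow_mul, mul_comm, pow_mul, Nat.cast_pow, ← zpow_natCast (Q : ℝ), ← zpow_mul,
        mul_comm, zpow_mul, zpow_natCast] at this
      exact (pow_left_inj₀ (by positivity) (by positivity) hm.ne').1 this
    · rw [expand_aeval]; exact p2 v hv

theorem tr {l : ℕ} [Fact l.Prime] {H : Type 1} [AddCommGroup H] [Module ℚ_[l] H] (Θ : W ≃+ H)
    (φ u : Module.End ℚ W) (φ' u' : Module.End ℚ_[l] H) (Q : ℕ) (i : ℤ) (hQ : 1 < Q)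
    (h1 : ∀ v, Θ (φ v) = φ' (Θ v)) (h2 : ∀ v, Θ (u v) = u' (Θ v)) :
    Mw Q i φ u ↔ MwV Q i φ' u' := by
  let _ : Module ℚ H := Module.compHom _ (algebraMap ℚ ℚ_[l])
  have hq : ∀ (c : ℚ) (v : W), Θ (c • v) = (c : ℚ_[l]) • Θ v := fun c v =>
    Θ.toAddMonoidHom.toRatLinearMap.map_smul c v
  have hp : ∀ {f : Module.End ℚ W} {f' : Module.End ℚ_[l] H}, (∀ v, Θ (f v) = f' (Θ v)) →
      ∀ (n : ℕ) v, Θ ((f ^ n) v) = (f' ^ n) (Θ v) := fun {f f'} h n => by
    induction n with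
    | zero => exact fun _ => rfl
    | succ n ih => exact fun v => by rw [pow_succ, pow_succ, Module.End.mul_apply, ih, h]; rfl
  have ha : ∀ (P : ℚ[X]) v, Θ (aeval φ P v) = aeval φ' (P.map (algebraMap ℚ ℚ_[l])) (Θ v) :=
    fun P v => by
      induction P using Polynomial.induction_on' with
      | add P Q hP hQ => simp only [map_add, Polynomial.map_add, LinearMap.add_apply, hP, hQ]
      | monomial n a =>
        rw [Polynomial.map_monomial, aeval_monomial, aeval_monomial, Module.End.mul_apply,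
          Module.End.mul_apply, Module.algebraMap_end_apply, Module.algebraMap_end_apply, hq,
          hp h1]
        rfl
  have hN : ∀ (m : ℕ) v, Θ ((u ^ m - 1) v) = (u' ^ m - 1) (Θ v) := fun m v => by
    rw [LinearMap.sub_apply, map_sub, hp h2]; rfl
  have key : ∀ (M : ℤ → Submodule ℚ W) (M' : ℤ → Submodule ℚ_[l] H),
      (∀ a v, v ∈ M a ↔ Θ v ∈ M' a) → ∀ m : ℕ, ((Monotone M ∧ (∃ a, M a = ⊥) ∧ (∃ a, M a = ⊤) ∧
      (∀ a, ∀ v ∈ M a, (u ^ m - 1) v ∈ M (a - 2)) ∧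
      (∀ r : ℕ, (∀ v ∈ M r, ((u ^ m - 1) ^ r) v ∈ M (-r - 1) → v ∈ M (r - 1)) ∧
        ∀ w ∈ M (-r), ∃ v ∈ M r, w - ((u ^ m - 1) ^ r) v ∈ M (-r - 1)) ∧
      ∀ a, (∀ v ∈ M a, φ v ∈ M a) ∧ ∃ P : ℚ[X], P ≠ 0 ∧
        (∀ z : ℂ, aeval z P = 0 → ‖z‖ ^ 2 = (Q : ℝ) ^ (a + i)) ∧
          ∀ v ∈ M a, aeval φ P v ∈ M (a - 1)) ↔
      (Monotone M' ∧ (∃ a, M' a = ⊥) ∧ (∃ a, M' a = ⊤) ∧
      (∀ a, ∀ v ∈ M' a, (u' ^ m - 1) v ∈ M' (a - 2)) ∧
      (∀ r : ℕ, (∀ v ∈ M' r, ((u' ^ m - 1) ^ r) v ∈ M' (-r - 1) → v ∈ M' (r - 1)) ∧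
        ∀ w ∈ M' (-r), ∃ v ∈ M' r, w - ((u' ^ m - 1) ^ r) v ∈ M' (-r - 1)) ∧
      ∀ a, (∀ v ∈ M' a, φ' v ∈ M' a) ∧ ∃ P : ℚ[X], P ≠ 0 ∧
        (∀ z : ℂ, aeval z P = 0 → ‖z‖ ^ 2 = (Q : ℝ) ^ (a + i)) ∧
          ∀ v ∈ M' a, aeval φ' (P.map (algebraMap ℚ ℚ_[l])) v ∈ M' (a - 1))) := by
    intro M M' hM m
    simp only [Monotone, SetLike.le_def, Submodule.eq_bot_iff, Submodule.eq_top_iff',
      Θ.surjective.forall, Θ.surjective.exists, hM, ← hp (hN m), hN, h1, ha, map_sub,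
      EmbeddingLike.map_eq_zero_iff]
  constructor
  · rintro ⟨m, hm, M, h⟩
    refine ⟨m, hm, fun a => { (M a).toAddSubgroup.comap Θ.symm.toAddMonoidHom with
      smul_mem' := fun c v hv => ?_ }, (key M _ (fun a v => ?_) m).1 h⟩
    · obtain ⟨v, rfl⟩ := Θ.surjective v
      exact core (c := ((Θ.symm.toAddMonoidHom.comp (DistribSMul.toAddMonoidHom H c)).comp
        Θ.toAddMonoidHom).toRatLinearMap) (Nat.one_lt_cast.2 hQ) (fun w => Θ.injective (by
          simp [h1])) h.1 h.2.1 h.2.2.1 h.2.2.2.2.2 a v (by simpa using hv)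
    · exact (iff_of_eq (congrArg (· ∈ M a) (Θ.symm_apply_apply v))).symm
  · rintro ⟨m, hm, M, h⟩
    refine ⟨m, hm, fun a => { (M a).toAddSubgroup.comap Θ.toAddMonoidHom with
      smul_mem' := fun c v hv => ?_ }, (key _ M (fun a v => Iff.rfl) m).2 h⟩
    change Θ (c • v) ∈ M a
    rw [hq]
    exact (M a).smul_mem _ hv

end Mwv

theorem mwv : MWV_s := ⟨fun _ _ _ _ _ _ _ _ => Mwv.tr, fun _ _ _ => Mwv.pow⟩

end Pool.Agent.MP_855f4c_ag.T

end

section

/-! Row ENDQ: endomorphisms and characters with values in `ℚ_l / ℤ_l`. -/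

set_option autoImplicit false
set_option backward.isDefEq.respectTransparency false

namespace Pool.Agent.MP_855f4c_ag.T

open E Cardinal

namespace ENDQ

variable {l : ℕ} [Fact l.Prime]

theorem ex (w : QZ l →+ QZ l) : ∃ c : ℚ_[l], ∀ x : ℚ_[l],
    w (QuotientAddGroup.mk x) = QuotientAddGroup.mk (x * c) :=
  ⟨kap l _ w (eps0 l 1), fun x => by rw [← kap_spec, eps0_apply, mul_one]⟩

theorem ne {w : QZ l →+ QZ l} (hw : w ≠ 0) {c : ℚ_[l]}
    (h : ∀ x : ℚ_[l], w (QuotientAddGroup.mk x) = QuotientAddGroup.mk (x * c)) : c ≠ 0 := by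
  rintro rfl
  refine hw (AddMonoidHom.ext fun y => ?_)
  obtain ⟨x, rfl⟩ := QuotientAddGroup.mk_surjective y
  rw [h, mul_zero]
  rfl

theorem dv (n : ℤ) (a : QZ l) (hn : n ≠ 0) : ∃ b, n • b = a := by
  obtain ⟨x, rfl⟩ := QuotientAddGroup.mk_surjective a
  exact ⟨QuotientAddGroup.mk (x / n), by
    rw [← QuotientAddGroup.mk_zsmul, zsmul_eq_mul, mul_div_cancel₀ _ (Int.cast_ne_zero.2 hn)]⟩

theorem smul_inv (n : ℕ) (a : ℤ) :
    a • (QuotientAddGroup.mk ((l : ℚ_[l]) ^ n)⁻¹ : QZ l) = 0 ↔ ((l ^ n : ℕ) : ℤ) ∣ a := by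
  have hl : (0 : ℝ) < l := by exact_mod_cast (Fact.out : l.Prime).pos
  rw [← QuotientAddGroup.mk_zsmul, QZ.mk_zero, zsmul_eq_mul, norm_mul, norm_inv,
    Padic.norm_p_pow, ← div_eq_mul_inv, div_le_one (zpow_pos hl _), Padic.norm_int_le_pow_iff_dvd,
    Nat.cast_pow]

theorem sep (M : Type 1) [AddCommGroup M] (hM : ∀ m : M, ∃ n : ℕ, l ^ n • m = 0) (y : M)
    (hy : y ≠ 0) : ∃ χ : M →+ QZ l, χ y ≠ 0 := by
  obtain ⟨n, hn⟩ := hM y
  obtain ⟨k, -, hk⟩ := (Nat.dvd_prime_pow (Fact.out : l.Prime)).1 (addOrderOf_dvd_of_nsmul_eq_zero hn)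
  let _ : DivisibleBy (QZ l) ℤ := divisibleByOfSMulRightSurj _ _ fun {n} hn m => dv n m hn
  obtain ⟨χ, hχ⟩ := (Module.Baer.of_divisible (QZ l)).extension_property_addMonoidHom
    (QuotientAddGroup.kerLift (zmultiplesHom M y)) (QuotientAddGroup.kerLift_injective _)
    (QuotientAddGroup.lift _ (zmultiplesHom (QZ l) (QuotientAddGroup.mk ((l : ℚ_[l]) ^ k)⁻¹))
      fun a ha => (smul_inv k a).2 (hk ▸ addOrderOf_dvd_iff_zsmul_eq_zero.2 ha))
  refine ⟨χ, fun h => hy ?_⟩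
  have h1 : χ ((1 : ℤ) • y) = (1 : ℤ) • (QuotientAddGroup.mk ((l : ℚ_[l]) ^ k)⁻¹ : QZ l) :=
    DFunLike.congr_fun hχ (QuotientAddGroup.mk 1)
  rw [one_smul, h, eq_comm, smul_inv, ← hk, addOrderOf_dvd_iff_zsmul_eq_zero, one_smul] at h1
  exact h1

theorem big0 (F Q : Type) (M : Type 1) [Field F] [Fintype F] [AddCommGroup M] [Module F M]
    [Infinite M] [AddCommGroup Q] (j : F →+ Q) (hj : j 1 ≠ 0) :
    ∃ g : Set M → M →+ Q, Function.Injective g := by
  obtain ⟨ι, b⟩ : Σ ι : Set M, Module.Basis ι F M := ⟨_, Module.Basis.ofVectorSpace F M⟩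
  have : Infinite ι := by
    by_contra h
    have := not_infinite_iff_finite.1 h
    have : Finite M := Finite.of_equiv _ b.equivFun.symm.toEquiv
    exact not_finite M
  obtain ⟨e⟩ : Nonempty (M ≃ ι) := by
    refine Cardinal.eq.1 ?_
    rw [mk_congr b.repr.toEquiv, mk_finsupp_lift_of_infinite, lift_uzero, max_eq_left]
    rw [mk_fintype, lift_natCast]
    exact natCast_lt_aleph0.le.trans (aleph0_le_mk ι)
  classical
  refine ⟨fun s => j.comp (b.constr ℕ fun i => if e.symm i ∈ s then (1 : F) else 0).toAddMonoidHom,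
    fun s t h => Set.ext fun i => ?_⟩
  obtain ⟨i, rfl⟩ := e.symm.surjective i
  have h4 := DFunLike.congr_fun h (b i)
  simp only [AddMonoidHom.comp_apply, LinearMap.toAddMonoidHom_coe,
    Module.Basis.constr_basis] at h4
  by_cases hs : e.symm i ∈ s <;> by_cases ht : e.symm i ∈ t <;> simp_all

theorem big (M : Type 1) [AddCommGroup M] [Infinite M] (hM : ∀ m : M, l • m = 0) :
    #M < #(M →+ QZ l) := by
  let _ : Module (ZMod l) M := AddCommGroup.zmodModule hM
  let j : ZMod l →+ QZ l := ZMod.lift l ⟨zmultiplesHom _ (QuotientAddGroup.mk ((l : ℚ_[l]) ^ 1)⁻¹),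
    (smul_inv 1 l).2 (by rw [pow_one])⟩
  have hj : j 1 ≠ 0 := fun h => by
    have h2 : j ((1 : ℤ) : ZMod l) = (1 : ℤ) • _ := ZMod.lift_coe _ _ 1
    rw [Int.cast_one, h, eq_comm, smul_inv, pow_one] at h2
    exact (Fact.out : l.Prime).one_lt.ne' (Nat.dvd_one.1 (by exact_mod_cast h2))
  obtain ⟨g, hg⟩ := big0 (ZMod l) _ M j hj
  exact (cantor _).trans_le (mk_set.symm.trans_le (mk_le_of_injective hg))

end ENDQ

theorem endq : ENDQ_s := by
  intro l _
  refine ⟨fun w w' hw => ?_, ENDQ.sep, ENDQ.dv, fun w hw y => ?_, fun M M' _ _ h h' ⟨e⟩ ⟨e'⟩ => ?_⟩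
  · obtain ⟨c, hc⟩ := ENDQ.ex w
    obtain ⟨c', hc'⟩ := ENDQ.ex w'
    have h0 := ENDQ.ne hw hc
    obtain ⟨a, ha⟩ := exists_pow_lt_of_lt_one (inv_pos.2 (by positivity : 0 < ‖c' / c‖ + 1))
      (Padic.norm_p_lt_one (p := l))
    have h1 : ‖(l : ℚ_[l]) ^ a * (c' / c)‖ ≤ 1 := by
      rw [norm_mul, norm_pow]
      exact (mul_le_mul ha.le (le_add_of_nonneg_right zero_le_one) (norm_nonneg _)
        (by positivity)).trans (inv_mul_cancel₀ (by positivity)).le
    refine ⟨a, QZ.mul l ⟨_, h1⟩, AddMonoidHom.ext fun y => ?_⟩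
    obtain ⟨x, rfl⟩ := QuotientAddGroup.mk_surjective y
    rw [AddMonoidHom.comp_apply, hc, QZ.mul_mk, AddMonoidHom.nsmul_apply, hc',
      ← QuotientAddGroup.mk_nsmul, nsmul_eq_mul, Nat.cast_pow]
    congr 1
    field_simp
  · obtain ⟨c, hc⟩ := ENDQ.ex w
    obtain ⟨x, rfl⟩ := QuotientAddGroup.mk_surjective y
    exact ⟨QuotientAddGroup.mk (x / c), by rw [hc, div_mul_cancel₀ _ (ENDQ.ne hw hc)]⟩
  · by_contra hM
    have := not_finite_iff_infinite.1 hM
    have h1 := (ENDQ.big M h).trans_eq (mk_congr e)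
    have : Infinite M' := infinite_iff.2 ((aleph0_le_mk M).trans h1.le)
    exact lt_asymm h1 ((ENDQ.big M' h').trans_eq (mk_congr e'))

end Pool.Agent.MP_855f4c_ag.T

end

section

/-! Row HENS: the henselisation of a pair. -/

set_option autoImplicit false

open MvPolynomial TensorProduct

namespace Pool.Agent.MP_855f4c_ag.T

open E3

namespace HENS

variable {R : Type} [CommRing R]

/-- A weakly universal etale algebra for finitely many etale algebras. -/
theorem fin {ι : Type} (I : ι → Ideal (MvPolynomial ℕ R))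
    (hI : ∀ i, Algebra.Etale R (MvPolynomial ℕ R ⧸ I i)) (J : Finset ι) :
    ∃ (E : Type) (_ : CommRing E) (_ : Algebra R E) (_ : Algebra.Etale R E)
      (x : ι → (MvPolynomial ℕ R →ₐ[R] E)), (∀ i ∈ J, ∀ p ∈ I i, x i p = 0) ∧
      ∀ (B : Type) [CommRing B] [Algebra R B] (b : ι → (MvPolynomial ℕ R →ₐ[R] B)),
        (∀ i ∈ J, ∀ p ∈ I i, b i p = 0) → ∃ h : E →ₐ[R] B, ∀ i ∈ J, ∀ p, h (x i p) = b i p := by
  classical
  induction J using Finset.induction_on with
  | empty => exact ⟨R, inferInstance, inferInstance, inferInstance, fun _ => aeval 0, by simp,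
      fun B _ _ _ _ => ⟨Algebra.ofId R B, by simp⟩⟩
  | insert a J ha ih =>
    obtain ⟨E, _, _, _, x, hx, hE⟩ := ih
    have := hI a
    have : Algebra.Etale R (E ⊗[R] (MvPolynomial ℕ R ⧸ I a)) := .comp R E _
    refine ⟨E ⊗[R] (MvPolynomial ℕ R ⧸ I a), inferInstance, inferInstance, inferInstance,
      fun i => if i = a then Algebra.TensorProduct.includeRight.comp (Ideal.Quotient.mkₐ R (I a))
        else Algebra.TensorProduct.includeLeft.comp (x i), fun i hi p hp => ?_, fun B _ _ b hb => ?_⟩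
    · by_cases hia : i = a
      · subst hia
        simp [Ideal.Quotient.eq_zero_iff_mem.2 hp]
      · simp [hia, hx i ((Finset.mem_insert.1 hi).resolve_left hia) p hp]
    · obtain ⟨h, hh⟩ := hE B b fun i hi => hb i (Finset.mem_insert_of_mem hi)
      refine ⟨Algebra.TensorProduct.lift h
        (Ideal.Quotient.liftₐ (I a) (b a) (hb a (Finset.mem_insert_self _ _)))
        fun _ _ => Commute.all _ _, fun i hi p => ?_⟩
      by_cases hia : i = a
      · subst hia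
        simp only [if_true, AlgHom.comp_apply, Algebra.TensorProduct.includeRight_apply,
          Algebra.TensorProduct.lift_tmul, map_one, one_mul]
        rfl
      · simp [hia, hh i ((Finset.mem_insert.1 hi).resolve_left hia)]

theorem ev {ι B : Type} [CommRing B] [Algebra R B] (b : ι → (MvPolynomial ℕ R →ₐ[R] B)) (i : ι)
    (p : MvPolynomial ℕ R) :
    aeval (fun v : ι × ℕ => b v.1 (X v.2)) (rename (Prod.mk i) p) = b i p := by
  rw [aeval_rename]
  exact congr($(algHom_ext (f := aeval _) (g := b i) fun n => by simp) p)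

/-- A weakly universal ind-etale algebra for a family of etale algebras. -/
theorem univ {ι : Type} (I : ι → Ideal (MvPolynomial ℕ R))
    (hI : ∀ i, Algebra.Etale R (MvPolynomial ℕ R ⧸ I i)) :
    ∃ (T : Type) (_ : CommRing T) (_ : Algebra R T) (_ : IndEt R T)
      (x : ι → (MvPolynomial ℕ R →ₐ[R] T)), (∀ i, ∀ p ∈ I i, x i p = 0) ∧
      ∀ (B : Type) [CommRing B] [Algebra R B] (b : ι → (MvPolynomial ℕ R →ₐ[R] B)),
        (∀ i, ∀ p ∈ I i, b i p = 0) → ∃ h : T →ₐ[R] B, ∀ i p, h (x i p) = b i p := by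
  classical
  let rel : (Σ i, I i) → MvPolynomial (ι × ℕ) R := fun a => rename (Prod.mk a.1) a.2.1
  let N : Ideal (MvPolynomial (ι × ℕ) R) := Ideal.span (Set.range rel)
  let π : MvPolynomial (ι × ℕ) R →ₐ[R] MvPolynomial (ι × ℕ) R ⧸ N := Ideal.Quotient.mkₐ R N
  have hx : ∀ i, ∀ p ∈ I i, π.comp (rename (Prod.mk i)) p = 0 := fun i p hp =>
    Ideal.Quotient.eq_zero_iff_mem.2 (Ideal.subset_span ⟨⟨i, p, hp⟩, rfl⟩)
  refine ⟨_, inferInstance, inferInstance, ?_, _, hx, fun B _ _ b hb => ?_⟩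
  · refine IndEt.of_solve fun n m x F hF => ?_
    choose p hp using fun k => Ideal.Quotient.mkₐ_surjective R N (x k)
    have h1 : ∀ j, ∃ c : (Σ i, I i) →₀ MvPolynomial (ι × ℕ) R,
        c.sum (fun a r => r • rel a) = aeval p (F j) := by
      intro j
      refine Finsupp.mem_span_range_iff_exists_finsupp.1 (Ideal.Quotient.eq_zero_iff_mem.1 ?_)
      change π _ = 0
      rw [← AlgHom.comp_apply, comp_aeval, ← hF j]
      simp only [π, hp]
    choose c hc using h1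
    let J : Finset ι := (Finset.univ.biUnion fun j => (c j).support).image Sigma.fst ∪
      (Finset.univ.biUnion fun k => (p k).vars).image Prod.fst
    obtain ⟨E, _, _, _, y, hy, hE⟩ := fin I hI J
    obtain ⟨h, hh⟩ := hE _ _ fun i _ => hx i
    let ψ : MvPolynomial (ι × ℕ) R →ₐ[R] E := aeval fun v => y v.1 (X v.2)
    refine ⟨E, inferInstance, inferInstance, inferInstance, h, fun k => ψ (p k), fun k => ?_,
      fun j => ?_⟩
    · rw [← hp k]
      refine hom_congr_vars (f₁ := (h.comp ψ).toRingHom) (f₂ := π.toRingHom)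
        (RingHom.ext fun r => ((h.comp ψ).commutes r).trans (π.commutes r).symm) (fun a ha _ => ?_)
        rfl
      have hJ : a.1 ∈ J := Finset.mem_union_right _ (Finset.mem_image_of_mem _
        (Finset.mem_biUnion.2 ⟨k, Finset.mem_univ _, ha⟩))
      change h (ψ _) = π _
      simpa [ψ] using hh a.1 hJ (X a.2)
    · rw [← comp_aeval, AlgHom.comp_apply, ← hc, Finsupp.sum, map_sum]
      refine Finset.sum_eq_zero fun a ha => ?_
      have hJ : a.1 ∈ J := Finset.mem_union_left _ (Finset.mem_image_of_mem _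
        (Finset.mem_biUnion.2 ⟨j, Finset.mem_univ _, ha⟩))
      rw [smul_eq_mul, map_mul, ev y a.1, hy _ hJ _ a.2.2, mul_zero]
  · refine ⟨Ideal.Quotient.liftₐ N (aeval fun v => b v.1 (X v.2)) (fun a ha => ?_), fun i p => ?_⟩
    · refine (Ideal.span_le (I := RingHom.ker _)).2 ?_ ha
      rintro _ ⟨a, rfl⟩
      exact (ev b a.1 _).trans (hb _ _ a.2.2)
    · exact (Ideal.Quotient.lift_mk _ _ _).trans (ev b i p)

/-- An ind-etale algebra, local along `K`, to which all points of etale algebras lift. -/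
theorem exists_loc (K : Type) [CommRing K] [Algebra R K] :
    ∃ (A : Type) (_ : CommRing A) (_ : Algebra R A) (r : A →ₐ[R] K), IndEt R A ∧ IsLocalHom r ∧
      ∀ (E : Type) [CommRing E] [Algebra R E] [Algebra.Etale R E] (φ : E →ₐ[R] K),
        ∃ s : E →ₐ[R] A, r.comp s = φ := by
  obtain ⟨T, _, _, hT, x, hx, hU⟩ := univ
    (fun i : {a : Ideal (MvPolynomial ℕ R) × (MvPolynomial ℕ R →ₐ[R] K) //
      Algebra.Etale R (MvPolynomial ℕ R ⧸ a.1) ∧ ∀ p ∈ a.1, a.2 p = 0} => i.1.1) fun i => i.2.1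
  obtain ⟨φ, hφ⟩ := hU K (fun i => i.1.2) fun i => i.2.2
  let M : Submonoid T := (IsUnit.submonoid K).comap φ
  let A := Localization M
  let r : A →ₐ[R] K := IsLocalization.liftAlgHom (M := M) (f := φ) fun y => y.2
  have hr : ∀ t, r (algebraMap T A t) = φ t := fun t => IsLocalization.lift_eq _ t
  refine ⟨A, inferInstance, inferInstance, r, hT.comp (IndEt.of_isLocalization M),
    ⟨fun a ha => ?_⟩, fun E _ _ _ ψ => ?_⟩
  · obtain ⟨⟨b, c⟩, hb⟩ := IsLocalization.surj M a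
    have h1 : IsUnit (φ b) := by
      rw [← hr, ← hb, map_mul, hr]
      exact ha.mul c.2
    exact isUnit_of_mul_isUnit_left (hb ▸ IsLocalization.map_units A (⟨b, h1⟩ : M))
  · obtain ⟨n, f, hf⟩ := Algebra.FiniteType.iff_quotient_mvPolynomial''.1
      (inferInstance : Algebra.FiniteType R E)
    let g : MvPolynomial ℕ R →ₐ[R] E := f.comp (killCompl Fin.val_injective)
    have hg : Function.Surjective g := fun y => by
      obtain ⟨q, rfl⟩ := hf y
      exact ⟨rename Fin.val q, congrArg f (killCompl_rename_app _ q)⟩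
    let e := Ideal.quotientKerAlgEquivOfSurjective hg
    let i : {a : Ideal (MvPolynomial ℕ R) × (MvPolynomial ℕ R →ₐ[R] K) //
      Algebra.Etale R (MvPolynomial ℕ R ⧸ a.1) ∧ ∀ p ∈ a.1, a.2 p = 0} :=
      ⟨(RingHom.ker g, ψ.comp g), .of_equiv e.symm, fun p hp => by
        change ψ (g p) = 0
        rw [RingHom.mem_ker.1 hp, map_zero]⟩
    refine ⟨(IsScalarTower.toAlgHom R T A).comp
      ((Ideal.Quotient.liftₐ (RingHom.ker g) (x i) (hx i)).comp e.symm.toAlgHom), ?_⟩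
    ext y
    obtain ⟨q, rfl⟩ := hg y
    have h1 : e.symm (g q) = Ideal.Quotient.mk _ q := e.symm_apply_eq.2 rfl
    change r (algebraMap T A (Ideal.Quotient.liftₐ (RingHom.ker g) (x i) (hx i) (e.symm (g q)))) = _
    rw [h1, hr]
    exact hφ i q

/-- Points of etale algebras over `A` lift. -/
theorem lift {A K : Type} [CommRing A] [Algebra R A] (H : IndEt R A) [CommRing K] [Algebra R K]
    [Algebra A K] [IsScalarTower R A K] [IsLocalHom (algebraMap A K)]
    (h : ∀ (E : Type) [CommRing E] [Algebra R E] [Algebra.Etale R E] (φ : E →ₐ[R] K),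
      ∃ s : E →ₐ[R] A, (IsScalarTower.toAlgHom R A K).comp s = φ)
    (S : Type) [CommRing S] [Algebra A S] [Algebra.Etale A S] (φ : S →ₐ[A] K) :
    ∃ s : S →ₐ[A] A, ∀ x, algebraMap A K (s x) = φ x := by
  obtain ⟨E, _, _, _, _, _, S₀, _, _, _, ⟨e⟩⟩ := H.spread S
  let : Algebra R S₀ := ((algebraMap E S₀).comp (algebraMap R E)).toAlgebra
  have : IsScalarTower R E S₀ := IsScalarTower.of_algebraMap_eq fun _ => rfl
  have : Algebra.Etale R S₀ := .comp R E S₀
  let φ' : A ⊗[E] S₀ →ₐ[A] K := φ.comp e.symm.toAlgHom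
  let ψ : S₀ →ₐ[R] K := (φ'.restrictScalars R).comp
    ((Algebra.TensorProduct.includeRight (R := E) (A := A) (B := S₀)).restrictScalars R)
  obtain ⟨s₀, hs₀⟩ := h S₀ ψ
  have h1 : s₀.comp (IsScalarTower.toAlgHom R E S₀) = IsScalarTower.toAlgHom R E A := by
    refine unr_ext (algebraMap A K) fun x => ?_
    have h2 : algebraMap A K (s₀ (algebraMap E S₀ x)) = φ' (1 ⊗ₜ algebraMap E S₀ x) := congr($hs₀ _)
    rw [← Algebra.TensorProduct.includeRight_apply, AlgHom.commutes,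
      IsScalarTower.algebraMap_apply E A (A ⊗[E] S₀), φ'.commutes] at h2
    exact h2
  let s₁ : S₀ →ₐ[E] A := { (s₀ : S₀ →+* A) with commutes' := fun x => congr($h1 x) }
  let s : A ⊗[E] S₀ →ₐ[A] A :=
    Algebra.TensorProduct.lift (AlgHom.id A A) s₁ fun _ _ => Commute.all _ _
  have h3 : ∀ t, algebraMap A K (s t) = φ' t := by
    intro t
    induction t using TensorProduct.induction_on with
    | zero => simp
    | tmul a b =>
      have h4 : algebraMap A K (s₁ b) = φ' (1 ⊗ₜ b) := congr($hs₀ b)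
      have h5 : (a ⊗ₜ[E] b : A ⊗[E] S₀) = algebraMap A _ a * 1 ⊗ₜ b := by simp
      rw [h5, map_mul φ', φ'.commutes, ← h4, ← map_mul]
      simp [s]
    | add a b ha hb => simp only [map_add, ha, hb]
  refine ⟨s.comp e.toAlgHom, fun x => ?_⟩
  rw [AlgHom.comp_apply, h3]
  simp [φ']

end HENS

theorem hens : HENS_s := by
  intro B _ I
  obtain ⟨C, _, _, r, H, _, h⟩ := HENS.exists_loc (R := B) (B ⧸ I)
  let J := I.map (algebraMap B C)
  have hJ : ∀ a ∈ J, r a = 0 := fun a ha =>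
    (Ideal.map_le_iff_le_comap.2 fun b hb => (r.commutes b).trans
      (Ideal.Quotient.eq_zero_iff_mem.2 hb) : J ≤ RingHom.ker r) ha
  let r' : (C ⧸ J) →ₐ[B] B ⧸ I := Ideal.Quotient.liftₐ J r hJ
  let ι : (B ⧸ I) →ₐ[B] C ⧸ J := Ideal.Quotient.liftₐ I (Algebra.ofId B _) fun b hb =>
    Ideal.Quotient.eq_zero_iff_mem.2 (Ideal.mem_map_of_mem _ hb)
  have : IsLocalHom (r' : (C ⧸ J) →+* B ⧸ I) := ⟨fun a ha => by
    obtain ⟨a, rfl⟩ := Ideal.Quotient.mk_surjective a
    exact (isUnit_of_map_unit r a ha).map _⟩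
  have h1 : ∀ y, r' (ι y) = y := fun y => by
    obtain ⟨y, rfl⟩ := Ideal.Quotient.mk_surjective y
    exact r'.commutes y
  have h2 : ι.comp r = Ideal.Quotient.mkₐ B J := H.ext (r' : (C ⧸ J) →+* B ⧸ I) fun x => h1 _
  have h3 : ∀ y, ι (r' y) = y := fun y => by
    obtain ⟨y, rfl⟩ := Ideal.Quotient.mk_surjective y
    exact congr($h2 y)
  refine ⟨C, inferInstance, inferInstance, H, fun E _ _ _ σ => ?_, ?_⟩
  · let : Algebra C (B ⧸ I) := r.toRingHom.toAlgebra
    have : IsScalarTower B C (B ⧸ I) := IsScalarTower.of_algebraMap_eq fun a => (r.commutes a).symm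
    have : IsLocalHom (algebraMap C (B ⧸ I)) := ⟨fun a ha => isUnit_of_map_unit r a ha⟩
    obtain ⟨s, hs⟩ := HENS.lift H h E
      { (r' : (C ⧸ J) →+* B ⧸ I).comp (σ : E →+* C ⧸ J) with
        commutes' := fun c => congrArg r' (σ.commutes c) }
    refine ⟨s, AlgHom.ext fun x => ?_⟩
    exact (congr($h2 (s x))).symm.trans ((congrArg ι (hs x)).trans (h3 (σ x)))
  · have e : ⇑(Ideal.quotientMap J (algebraMap B C) Ideal.le_comap_map) = ι := funext fun y => by
      obtain ⟨y, rfl⟩ := Ideal.Quotient.mk_surjective y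
      rfl
    unfold QIso
    rw [e]
    exact ⟨Function.LeftInverse.injective h1, Function.RightInverse.surjective h3⟩

end Pool.Agent.MP_855f4c_ag.T

end

section

/-! Row LIN: from torsion coefficients to vector spaces. -/

set_option autoImplicit false

namespace Pool.Agent.MP_855f4c_ag.T

open E Module Function

namespace LIN

variable {l : ℕ} [Fact l.Prime] {E M M' N : Type 1} [AddCommGroup E] [AddCommGroup M]
  [AddCommGroup M'] [AddCommGroup N]

variable (l M) in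
/-- From the Tate module to the rational Tate module. -/
noncomputable def tv : (QZ l →+ M) →+ V l M :=
  AddMonoidHom.mk' (fun g => ⟨g.comp (QuotientAddGroup.mk' _), 1, one_pos,
    fun _ hx => (congrArg g (QZ.mk_zero.2 hx.le)).trans (map_zero g)⟩) fun _ _ => rfl

lemma tv_zero {g : QZ l →+ M} (h : tv l M g = 0) : g = 0 := AddMonoidHom.ext fun a => by
  obtain ⟨x, rfl⟩ := QuotientAddGroup.mk_surjective a
  exact congrArg (fun v : V l M => v.1 x) h

lemma tv_lin (e : (M' →+ QZ l) →+ QZ l →+ M) (c : ℤ_[l]) (f : M' →+ QZ l) :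
    tv l M (e ((QZ.mul l c).comp f)) = (c : ℚ_[l]) • tv l M (e f) := by
  refine V.ext fun x => ?_
  change e _ (QuotientAddGroup.mk x) = e f (QuotientAddGroup.mk (x * c))
  rw [mul_comm, ← QZ.mul_mk]
  generalize (QuotientAddGroup.mk x : QZ l) = y
  obtain ⟨n, hn⟩ := cof_QZ.1 y
  obtain ⟨a, d, h⟩ := QZ.mul_eq c n
  have e1 : (QZ.mul l c).comp f = a • f + l ^ n • (QZ.mul l d).comp f :=
    AddMonoidHom.ext fun x => h _
  rw [e1, map_add, e.map_nsmul, e.map_nsmul, h, ← map_nsmul (QZ.mul l d), hn, map_zero, add_zero,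
    map_nsmul]
  change a • e f y + l ^ n • e _ y = _
  rw [← map_nsmul (e _) (l ^ n), hn, map_zero, add_zero]

lemma pow_cancel {Y : Type*} [AddCommGroup Y] [Module ℚ_[l] Y] {n : ℕ} {y : Y}
    (h : l ^ n • y = 0) : y = 0 := by
  rw [← Nat.cast_smul_eq_nsmul ℚ_[l], Nat.cast_pow] at h
  exact (smul_eq_zero.1 h).resolve_left (pow_ne_zero n l_ne)

lemma lift (hM : Cof l M) {Y : Type*} [AddCommGroup Y] [Module ℚ_[l] Y] (e : (M →+ QZ l) →+ Y)
    (he : ∀ (c : ℤ_[l]) f, e ((QZ.mul l c).comp f) = (c : ℚ_[l]) • e f) :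
    ∃ t : Dual ℚ_[l] (V l M) →ₗ[ℚ_[l]] Y, ∀ f, t (kap l M f) = e f := by
  obtain ⟨c, hc⟩ := hM.kap_ker
  let G : Submodule ℚ_[l] (Dual ℚ_[l] (V l M) × Y) :=
    { carrier := {p | ∃ (n : ℕ) (f : M →+ QZ l), ((kap l M).prod e) f = (l : ℚ_[l]) ^ n • p}
      zero_mem' := ⟨0, 0, by simp⟩
      add_mem' := by
        rintro p q ⟨n, f, hf⟩ ⟨m, g, hg⟩
        refine ⟨n + m, l ^ m • f + l ^ n • g, ?_⟩
        rw [map_add, AddMonoidHom.map_nsmul, AddMonoidHom.map_nsmul, hf, hg,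
          ← Nat.cast_smul_eq_nsmul ℚ_[l], ← Nat.cast_smul_eq_nsmul ℚ_[l], Nat.cast_pow, Nat.cast_pow, smul_smul, smul_smul, smul_add,
          pow_add, mul_comm ((l : ℚ_[l]) ^ m)]
      smul_mem' := by
        rintro a p ⟨n, f, hf⟩
        obtain ⟨k, hk⟩ := exists_pow_lt_of_lt_one (inv_pos.2 (by positivity : 0 < ‖a‖ + 1))
          (Padic.norm_p_lt_one (p := l))
        have h1 : ‖(l : ℚ_[l]) ^ k * a‖ ≤ 1 := by
          rw [norm_mul, norm_pow]
          exact (mul_le_mul hk.le (le_add_of_nonneg_right zero_le_one) (norm_nonneg _)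
            (by positivity)).trans (inv_mul_cancel₀ (by positivity)).le
        refine ⟨k + n, (QZ.mul l ⟨_, h1⟩).comp f, ?_⟩
        have : ((kap l M).prod e) ((QZ.mul l ⟨_, h1⟩).comp f) =
            ((l : ℚ_[l]) ^ k * a) • ((kap l M).prod e) f := Prod.ext (kap_mul _ f) (he _ f)
        rw [this, hf, smul_smul, smul_smul, pow_add, mul_right_comm] }
  suffices hb : Bijective (Prod.fst ∘ G.subtype) by
    obtain ⟨t, ht⟩ := Submodule.exists_eq_graph hb
    exact ⟨t, fun f => ((LinearMap.mem_graph_iff t (kap l M f, e f)).1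
      (ht ▸ ⟨0, f, by simp⟩)).symm⟩
  constructor
  · refine (injective_iff_map_eq_zero ((LinearMap.fst _ _ _).comp G.subtype)).2 ?_
    rintro ⟨⟨p, q⟩, n, f, hf⟩ (rfl : p = 0)
    have h1 : kap l M f = 0 := (congrArg Prod.fst hf).trans (smul_zero _)
    have h2 : e f = (l : ℚ_[l]) ^ n • q := congrArg Prod.snd hf
    have h3 : l ^ c • e f = 0 := by rw [← map_nsmul, hc f h1, map_zero]
    rw [pow_cancel h3] at h2
    exact Subtype.ext (Prod.ext rfl ((smul_eq_zero.1 h2.symm).resolve_left (pow_ne_zero n l_ne)))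
  · intro lam
    obtain ⟨n, f, hf⟩ := hM.kap_surj lam
    exact ⟨⟨(lam, ((l : ℚ_[l]) ^ n)⁻¹ • e f), n, f, Prod.ext hf
      (smul_inv_smul₀ (pow_ne_zero n l_ne) _).symm⟩, rfl⟩

lemma half (hM : Cof l M') (ϖ : E →+ M' →+ QZ l) (hϖ : Bijective ϖ) (τ : E →+ QZ l →+ M) {n : ℕ}
    (hτ : ∀ x, τ x = 0 → l ^ n • x = 0) :
    ∃ t : Dual ℚ_[l] (V l M') →ₗ[ℚ_[l]] V l M, Injective t ∧
      ∀ x, t (kap l M' (ϖ x)) = tv l M (τ x) := by
  let ω := AddEquiv.ofBijective ϖ hϖ
  obtain ⟨t, ht⟩ := lift hM ((tv l M).comp (τ.comp ω.symm.toAddMonoidHom)) (tv_lin _)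
  have h : ∀ x, t (kap l M' (ϖ x)) = tv l M (τ x) := fun x =>
    (ht _).trans (congrArg (fun y => tv l M (τ y)) (ω.symm_apply_apply x))
  refine ⟨t, (injective_iff_map_eq_zero t).2 fun lam h0 => ?_, h⟩
  obtain ⟨m, f, hf⟩ := hM.kap_surj lam
  obtain ⟨x, rfl⟩ := hϖ.2 f
  have h1 := hτ x (tv_zero (by rw [← h, hf, map_smul, h0, smul_zero]))
  have h2 : l ^ n • kap l M' (ϖ x) = 0 := by rw [← map_nsmul, ← map_nsmul, h1, map_zero, map_zero]
  rw [pow_cancel h2] at hf
  exact (smul_eq_zero.1 hf.symm).resolve_left (pow_ne_zero m l_ne)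

lemma triv {H : Type 1} [AddCommGroup H] [Module ℚ_[l] H] (h : ∀ v : H, v = 0) (q : ℕ) (i : ℤ)
    (φ u : End ℚ_[l] H) : MwV q i φ u :=
  ⟨1, one_pos, fun _ => ⊥, monotone_const, ⟨0, rfl⟩, ⟨0, eq_top_iff.2 fun v _ => h v⟩,
    fun _ _ _ => h _, fun _ => ⟨fun _ _ _ => h _, fun _ _ => ⟨0, rfl, h _⟩⟩,
    fun _ => ⟨fun _ _ => h _, 1, one_ne_zero, fun z hz => by simp at hz, fun _ _ => h _⟩⟩

end LIN

open LIN in
theorem linT : LIN_s := by
  intro l _ Q d T E M N _ _ _ φE uE φM uM φN uN τ ε ϖ hQ cM cN top τφ τu εφ εu bij ϖφ kτ kε mw i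
  by_cases hi : 2 * d < i
  · exact triv (fun v => V.ext fun x => top i hi _) _ _ _ _
  obtain ⟨j, hj⟩ : ∃ j, j + i = 2 * d := ⟨2 * d - i, by omega⟩
  choose n hn using kτ
  have key : ∀ a b (h : b + a = 2 * d), ∃ (S : Dual ℚ_[l] (V l (M b)) ≃ₗ[ℚ_[l]] V l (M a))
      (J : V l (M a) →ₗ[ℚ_[l]] V l (N a)), Injective J ∧
      (∀ v, Vm l (φN a) (J v) = (Q : ℚ_[l]) ^ T • J (Vm l (φM a) v)) ∧
      (∀ v, Vm l (uN a) (J v) = J (Vm l (uM a) v)) ∧
      ∀ x y, S.symm (Vm l (φM a) x) (Vm l (φM b) y) = (Q : ℚ_[l]) ^ d * S.symm x y := by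
    intro a b h
    have := (cM a).finiteDimensional
    have := (cM b).finiteDimensional
    obtain ⟨t, t1, t2⟩ := half (cM b) (ϖ a b h) (bij a b h) (τ a) (hn a)
    obtain ⟨t', t1', -⟩ := half (cM a) (ϖ b a (by omega)) (bij b a _) (τ b) (hn b)
    obtain ⟨e, e1, e2⟩ := half (cM b) (ϖ a b h) (bij a b h) (ε a) fun x hx => hn a x (kε a x hx)
    have d1 := LinearMap.finrank_le_finrank_of_injective t1
    have d2 := LinearMap.finrank_le_finrank_of_injective t1'
    rw [Subspace.dual_finrank_eq] at d2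
    have d3 : finrank ℚ_[l] (Dual ℚ_[l] (V l (M b))) = finrank ℚ_[l] (V l (M a)) :=
      le_antisymm d1 (d2.trans Subspace.dual_finrank_eq.ge)
    let S := LinearEquiv.ofBijective t
      ⟨t1, (LinearMap.injective_iff_surjective_of_finrank_eq_finrank d3).1 t1⟩
    have s1 : ∀ x, S.symm (tv l _ (τ a x)) = kap l _ (ϖ a b h x) := fun x =>
      S.symm_apply_eq.2 (t2 x).symm
    have ext : ∀ {Y : Type 1} [AddCommGroup Y] [Module ℚ_[l] Y] (p q : V l (M a) →ₗ[ℚ_[l]] Y),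
        (∀ x, p (tv l _ (τ a x)) = q (tv l _ (τ a x))) → ∀ v, p v = q v := by
      intro Y _ _ p q H v
      obtain ⟨lam, rfl⟩ := S.surjective v
      refine LinearMap.congr_fun (kap_ext (cM b) (a := p ∘ₗ t) (b := q ∘ₗ t) fun f => ?_) lam
      obtain ⟨x, rfl⟩ := (bij a b h).2 f
      rw [LinearMap.comp_apply, LinearMap.comp_apply, t2, H]
    have v1 : ∀ x, Vm l (φM a) (tv l _ (τ a x)) = tv l _ (τ a (φE a x)) := fun x =>
      V.ext fun z => (τφ a x _).symm
    have v2 : ∀ x, Vm l (uM a) (tv l _ (τ a x)) = tv l _ (τ a (uE a x)) := fun x =>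
      V.ext fun z => (τu a x _).symm
    refine ⟨S, e ∘ₗ S.symm.toLinearMap, e1.comp S.symm.injective,
      ext (Vm l (φN a) ∘ₗ e ∘ₗ S.symm.toLinearMap)
        ((Q : ℚ_[l]) ^ T • ((e ∘ₗ S.symm.toLinearMap) ∘ₗ Vm l (φM a))) fun x => ?_,
      ext (Vm l (uN a) ∘ₗ e ∘ₗ S.symm.toLinearMap)
        ((e ∘ₗ S.symm.toLinearMap) ∘ₗ Vm l (uM a)) fun x => ?_, fun x y => ?_⟩
    · change Vm l (φN a) (e (S.symm _)) = (Q : ℚ_[l]) ^ T • e (S.symm (Vm l (φM a) _))
      rw [v1, s1, s1, e2, e2, ← Nat.cast_pow, Nat.cast_smul_eq_nsmul, ← map_nsmul]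
      exact V.ext fun z => εφ a x _
    · change Vm l (uN a) (e (S.symm _)) = e (S.symm (Vm l (uM a) _))
      rw [v2, s1, s1, e2, e2]
      exact V.ext fun z => εu a x _
    · refine LinearMap.congr_fun (ext ((Vm l (φM b)).dualMap ∘ₗ S.symm.toLinearMap ∘ₗ Vm l (φM a))
        ((Q : ℚ_[l]) ^ d • S.symm.toLinearMap) (fun x => ?_) x) y
      change (Vm l (φM b)).dualMap (S.symm (Vm l (φM a) _)) = (Q : ℚ_[l]) ^ d • S.symm _
      rw [v1, s1, s1, ← Nat.cast_pow, Nat.cast_smul_eq_nsmul, ← map_nsmul]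
      exact congrArg (kap l (M b))
        (AddMonoidHom.ext (ϖφ a b h x) : (ϖ a b h (φE a x)).comp (φM b) = Q ^ d • ϖ a b h x)
  have := (cM i).finiteDimensional
  have := (cM j).finiteDimensional
  obtain ⟨S, J, j1, j2, j3, j4⟩ := key i j hj
  obtain ⟨-, J', k1, k2, k3, -⟩ := key j i (by omega)
  refine linv (d := d) (i' := j) hQ (by omega) _ _ _ (Vm l (uM j)) _ _ _ _ J J' j1 k1 j2 j3 k2 k3
    S.symm.toLinearMap (fun x hx => S.symm.map_eq_zero_iff.1 (LinearMap.ext hx))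
    (fun y hy => (Module.forall_dual_apply_eq_zero_iff ℚ_[l] y).1 fun f => ?_) j4
    (by exact_mod_cast mw i) (by exact_mod_cast mw j)
  obtain ⟨x, rfl⟩ := S.symm.surjective f
  exact hy x

end Pool.Agent.MP_855f4c_ag.T

end

section

/-! h12g row POW: powers of Frobenius lifts and of inertia elements. -/

set_option autoImplicit false

namespace Pool.Agent.MP_855f4c_ag.T.Pow

open LP

variable {p : ℕ} [Fact p.Prime]

theorem small_of_lt {w : PadicAlgCl p} (h : ‖w‖ < 1) : Small ℤ_[p] w := by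
  have hp : (0 : ℝ) < ‖(p : ℤ_[p])‖ :=
    norm_pos_iff.2 (Nat.cast_ne_zero.2 (Fact.out : p.Prime).ne_zero)
  obtain ⟨n, hn⟩ := exists_pow_lt_of_lt_one hp h
  have e : ‖algebraMap ℤ_[p] (PadicAlgCl p) p‖ = ‖(p : ℤ_[p])‖ := f0_norm_alg _
  have h0 : algebraMap ℤ_[p] (PadicAlgCl p) p ≠ 0 := norm_pos_iff.1 (e ▸ hp)
  refine ⟨n, p, w ^ n / algebraMap ℤ_[p] (PadicAlgCl p) p, ?_, (norm_le_iff _).1 ?_, ?_⟩
  · exact PadicInt.irreducible_p.not_isUnit
  · rw [norm_div, e, norm_pow, div_le_one hp]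
    exact hn.le
  · field_simp

theorem pow_app (g : PadicAlgCl p ≃+* PadicAlgCl p) (m : ℕ) (z : PadicAlgCl p) :
    (g ^ m) z = (g : PadicAlgCl p →+* PadicAlgCl p)^[m] z := by
  induction m with
  | zero => rfl
  | succ m ih => rw [pow_succ', Function.iterate_succ_apply', ← ih]; rfl

theorem root {l Q : ℕ} (hl : l.Prime) (hlp : l ≠ p) (g : PadicAlgCl p ≃+* PadicAlgCl p)
    (h : Frob ℤ_[p] Q g) (ζ : PadicAlgCl p) (n : ℕ) (hζ : ζ ^ l ^ n = 1) : g ζ ^ Q = ζ := by
  have h0 : l ^ n ≠ 0 := pow_ne_zero _ hl.ne_zero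
  have hn : ‖ζ‖ = 1 := by
    have : ‖ζ‖ ^ l ^ n = 1 := by rw [← norm_pow, hζ, norm_one]
    exact (pow_eq_one_iff_of_nonneg (norm_nonneg _) h0).1 this
  have hz : ζ ≠ 0 := norm_pos_iff.1 (by rw [hn]; exact one_pos)
  have h1 := h.fr0 ζ hn.le
  have hc : p.Coprime (l ^ n) :=
    ((Nat.coprime_primes (Fact.out : p.Prime) hl).2 hlp.symm).pow_right n
  have h2 : g ζ ^ Q / ζ = 1 := by
    apply mv_root (l ^ n) hc _ _ h0
    · have e : g ζ ^ Q / ζ - 1 = (g ζ ^ Q - ζ) / ζ := by field_simp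
      rw [e, norm_div, hn, div_one]
      exact h1
    · rw [div_pow, ← pow_mul, mul_comm, pow_mul, ← map_pow, hζ, map_one, one_pow, div_one]
  exact (div_eq_one_iff_eq hz).1 h2

theorem pow : POW_s := by
  intro p l _ hl hlp
  refine ⟨fun Q g _ h => ⟨root hl.out hlp g h, fun z => ?_, fun m => ⟨fun o => ?_, fun z hz => ?_⟩,
    fun E => ?_⟩, ?_, norm_le_iff⟩
  · exact norm_map (g : PadicAlgCl p →+* PadicAlgCl p) h.1 z
  · rw [pow_app]
    exact Function.iterate_fixed (h.1 o) m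
  · rw [pow_app]
    exact small_of_lt (Fr0.iterate (g : PadicAlgCl p →+* PadicAlgCl p) h.1 h.fr0 m z
      ((norm_le_iff z).2 hz))
  · choose m h0 hm using f0_per (g : PadicAlgCl p →+* PadicAlgCl p) h.1
    refine ⟨∏ z ∈ E, m z, Finset.prod_pos fun z _ => Nat.pos_of_ne_zero (h0 z), fun z hz => ?_⟩
    obtain ⟨k, hk⟩ := Finset.dvd_prod_of_mem m hz
    rw [pow_app, hk, Function.iterate_mul]
    exact Function.iterate_fixed (hm z) k
  · rintro u m hm hu ⟨n, r, o, hr, hne⟩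
    have l1 : 1 < l := hl.out.one_lt
    obtain ⟨s, hs⟩ := IsAlgClosed.exists_pow_nat_eq r (pow_pos (zero_lt_one.trans l1) m)
    have hso : s ^ l ^ (m + n) = algebraMap _ _ o := by rw [pow_add, pow_mul, hs, hr]
    have r0 : r ≠ 0 := fun h => hne (by rw [h, map_zero])
    have s0 : s ≠ 0 := fun h => r0 (by
      rw [← hs, h, zero_pow (pow_pos (zero_lt_one.trans l1) m).ne'])
    refine ⟨m + n, s, o, hso, fun he => ?_⟩
    set ζ := u s / s with hζ
    have us : u s = ζ * s := by rw [hζ]; field_simp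
    have z1 : ζ ^ l ^ (m + n) = 1 := by
      rw [hζ, div_pow, ← map_pow, hso, hu.1, ← hso, div_self (pow_ne_zero _ s0)]
    have z2 : ζ ^ l ^ m ≠ 1 := fun h => hne (by
      rw [← hs, map_pow, us, mul_pow, h, one_mul])
    have uζ : u ζ = ζ := by simpa using root hl.out hlp u hu ζ _ z1
    have it : ∀ k : ℕ, (u ^ k) s = ζ ^ k * s := by
      intro k
      induction k with
      | zero => simp
      | succ k ih =>
        have : (u ^ (k + 1)) s = u ((u ^ k) s) := by rw [pow_succ']; rfl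
        rw [this, ih, map_mul, map_pow, uζ, us, pow_succ, mul_assoc]
    have z3 : ζ ^ m = 1 := by
      have := it m
      rw [he] at this
      exact mul_right_cancel₀ s0 (this.symm.trans (one_mul s).symm)
    obtain ⟨j, -, hj⟩ := (Nat.dvd_prime_pow hl.out).1 (orderOf_dvd_of_pow_eq_one z1)
    have h1 : l ^ j ≤ m := Nat.le_of_dvd hm (hj ▸ orderOf_dvd_of_pow_eq_one z3)
    have h2 : j ≤ m := (Nat.lt_pow_self l1).le.trans h1
    exact z2 (orderOf_dvd_iff_pow_eq_one.1 (hj ▸ pow_dvd_pow l h2))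

end Pool.Agent.MP_855f4c_ag.T.Pow

end

section

/-! h12g: the algebra of weights. -/

set_option autoImplicit false
set_option linter.unusedSectionVars false

open MvPolynomial

namespace Pool.Agent.MP_855f4c_ag.T

namespace W0

variable {κ : Type} [Fintype κ] [DecidableEq κ]

theorem prod_xy {M : Type} [CommMonoid M] (f : XY κ → M) : ∏ v, f v =
    ∏ k, (f (.inl (k, 0)) * f (.inl (k, 1)) * (f (.inr (k, 0)) * f (.inr (k, 1)))) := by
  rw [Fintype.prod_sum_type, Fintype.prod_prod_type, Fintype.prod_prod_type,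
    ← Finset.prod_mul_distrib]
  simp only [Fin.prod_univ_two]

theorem wt_apply (m : XY κ →₀ ℕ) (k : κ) : Finsupp.weight wt m k =
    (m (.inl (k, 0)) + m (.inl (k, 1)) : ℤ) - (m (.inr (k, 0)) + m (.inr (k, 1))) := by
  rw [Finsupp.weight_eq_sum, Finset.sum_apply, Fintype.sum_sum_type, Fintype.sum_prod_type,
    Fintype.sum_prod_type]
  simp [wt, Pi.single_apply]
  ring

theorem mem_range {A : Type} [CommRing A] (P : MvPolynomial (XY κ) A) (h : Hg 0 P) :
    P ∈ (aeval (emat X) : MvPolynomial (EV κ) A →ₐ[A] MvPolynomial (XY κ) A).range := by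
  set S := (aeval (emat X) : MvPolynomial (EV κ) A →ₐ[A] MvPolynomial (XY κ) A).range with hS
  have he : ∀ k i j, (X (.inl (k, i)) * X (.inr (k, j)) : MvPolynomial (XY κ) A) ∈ S :=
    fun k i j => ⟨X (k, i, j), by simp [emat]⟩
  induction h using IsWeightedHomogeneous.induction_on with
  | zero => exact S.zero_mem
  | add p q _ _ hp hq => exact S.add_mem hp hq
  | monomial d r hr =>
    rw [monomial_eq, Finsupp.prod_fintype _ _ fun _ => pow_zero _, prod_xy]
    refine S.mul_mem (S.algebraMap_mem r) (S.prod_mem fun k _ => ?_)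
    have h0 := congrFun hr k
    rw [wt_apply] at h0
    simp only [Pi.zero_apply] at h0
    generalize d (.inl (k, 0)) = a at h0 ⊢
    generalize d (.inl (k, 1)) = b at h0 ⊢
    generalize d (.inr (k, 0)) = c at h0 ⊢
    generalize d (.inr (k, 1)) = e at h0 ⊢
    rcases le_total a c with hac | hac
    · obtain ⟨t, rfl⟩ := Nat.exists_eq_add_of_le hac
      obtain rfl : b = t + e := by omega
      convert S.mul_mem (S.mul_mem (S.pow_mem (he k 0 0) a) (S.pow_mem (he k 1 0) t))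
        (S.pow_mem (he k 1 1) e) using 1
      ring
    · obtain ⟨t, rfl⟩ := Nat.exists_eq_add_of_le hac
      obtain rfl : e = t + b := by omega
      convert S.mul_mem (S.mul_mem (S.pow_mem (he k 0 0) c) (S.pow_mem (he k 0 1) t))
        (S.pow_mem (he k 1 1) b) using 1
      ring

/-- The monomial that cancels the weight. -/
noncomputable def cm (A : Type) [CommRing A] (n : κ → ℤ) (σ : κ → Fin 2) : MvPolynomial (XY κ) A :=
  ∏ k, (X (.inr (k, σ k)) ^ (n k).toNat * X (.inl (k, σ k)) ^ (-n k).toNat)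

theorem cm_hg (A : Type) [CommRing A] (n : κ → ℤ) (σ : κ → Fin 2) : Hg (-n) (cm A n σ) := by
  have h := IsWeightedHomogeneous.prod (w := wt) Finset.univ
    (fun k => (X (.inr (k, σ k)) ^ (n k).toNat * X (.inl (k, σ k)) ^ (-n k).toNat :
      MvPolynomial (XY κ) A)) _
    fun k _ => ((isWeightedHomogeneous_X A wt _).pow _).mul ((isWeightedHomogeneous_X A wt _).pow _)
  refine (congrArg (IsWeightedHomogeneous wt _) (funext fun k => ?_)).mpr h
  simp [wt, Finset.sum_apply, Pi.single_apply, Finset.sum_add_distrib]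
  omega

theorem zer {A : Type} [CommRing A] (e : EV κ → A) (n : κ → ℤ) (s : MvPolynomial (XY κ) A)
    (he : JP e) (hs : Hg n s) : ∃ I : Ideal A, I.FG ∧ Zer e s I := by
  have h : ∀ σ : κ → Fin 2, ∃ P' : MvPolynomial (EV κ) A, aeval (emat X) P' = cm A n σ * s :=
    fun σ => mem_range _ (by simpa using (cm_hg A n σ).mul hs)
  choose P hP using h
  refine ⟨Ideal.span (Set.range fun σ => eval₂ (RingHom.id A) e (P σ)),
    Submodule.fg_span (Set.finite_range _), fun D _ ψ a ha => ?_⟩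
  have h1 : ∀ σ, ψ (eval₂ (RingHom.id A) e (P σ)) = eval₂ ψ a (cm A n σ) * eval₂ ψ a s := by
    intro σ
    rw [← eval₂_mul, ← hP, eval₂_comp_left, ← ha, aeval_eq_bind₁, ← coe_eval₂Hom ψ a,
      eval₂Hom_bind₁]
    simp only [RingHom.comp_id, coe_eval₂Hom]
    congr 1
    funext v
    simp [emat]
  have h2 : Ideal.span (Set.range fun σ => eval₂ ψ a (cm A n σ)) = ⊤ := by
    by_contra hne
    obtain ⟨M, hM, hle⟩ := Ideal.exists_le_maximal _ hne
    have h3 : ∀ k, ∃ i, a (.inl (k, i)) * a (.inr (k, i)) ∉ M := by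
      intro k
      by_contra hc
      push Not at hc
      have h4 := M.add_mem (hc 0) (hc 1)
      have h5 : a (.inl (k, 0)) * a (.inr (k, 0)) + a (.inl (k, 1)) * a (.inr (k, 1)) = 1 := by
        have h6 := congrArg ψ (he k).1
        rw [map_add, map_one] at h6
        rw [← h6]
        exact congrArg₂ (· + ·) (congrFun ha (k, 0, 0)) (congrFun ha (k, 1, 1))
      exact hM.ne_top ((Ideal.eq_top_iff_one _).2 (h5 ▸ h4))
    choose σ hσ using h3
    have h4 : eval₂ ψ a (cm A n σ) ∈ M := hle (Ideal.subset_span ⟨σ, rfl⟩)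
    have hp := hM.isPrime
    rw [cm, ← coe_eval₂Hom, map_prod, Ideal.IsPrime.prod_mem_iff] at h4
    obtain ⟨k, -, hk⟩ := h4
    simp only [map_mul, map_pow, coe_eval₂Hom, eval₂_X] at hk
    rcases hp.mem_or_mem hk with h | h
    · exact hσ k (M.mul_mem_left _ (hp.mem_of_pow_mem _ h))
    · exact hσ k (M.mul_mem_right _ (hp.mem_of_pow_mem _ h))
  rw [Ideal.map_span, ← Set.range_comp, ← Ideal.top_mul (Ideal.span {eval₂ ψ a s}), ← h2,
    Ideal.span_mul_span']
  congr 1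
  ext x
  simp only [Function.comp_def, h1]
  simp

theorem triv {A : Type} [CommRing A] (e : EV κ → A) (σ : κ → Fin 2) (he : JP e)
    (hu : ∀ k, IsUnit (e (k, σ k, σ k))) : ∃ a : XY κ → A, emat a = e := by
  choose w hw using fun k => (hu k).exists_right_inv
  refine ⟨Sum.elim (fun v => e (v.1, v.2, σ v.1)) fun v => e (v.1, σ v.1, v.2) * w v.1, ?_⟩
  funext ⟨k, i, j⟩
  have h1 := hw k
  have h2 := (he k).2
  simp only [emat, Sum.elim_inl, Sum.elim_inr]
  generalize σ k = t at h1 ⊢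
  have h3 : e (k, i, t) * e (k, t, j) = e (k, i, j) * e (k, t, t) := by
    fin_cases i <;> fin_cases j <;> fin_cases t <;> simp only [Fin.zero_eta, Fin.mk_one] <;>
      first | ring1 | linear_combination h2 | linear_combination -h2
  rw [← mul_assoc, h3, mul_assoc, h1, mul_one]

theorem scal {A : Type} [CommRing A] (n : κ → ℤ) (s : MvPolynomial (XY κ) A) (D : Type)
    [CommRing D] (ψ : A →+* D) (a : XY κ → D) (u : κ → Dˣ) (hs : Hg n s) :
    eval₂ ψ (Sum.elim (fun v => a (.inl v) * u v.1) fun v => a (.inr v) * ((u v.1)⁻¹ : Dˣ)) s =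
      (∏ k, u k ^ n k : Dˣ) * eval₂ ψ a s := by
  induction hs using IsWeightedHomogeneous.induction_on with
  | zero => simp
  | add p q _ _ hp hq => rw [eval₂_add, eval₂_add, hp, hq, mul_add]
  | monomial d r hr =>
    rw [eval₂_monomial, eval₂_monomial, Finsupp.prod_fintype _ _ fun _ => pow_zero _,
      Finsupp.prod_fintype _ _ fun _ => pow_zero _, prod_xy, prod_xy, mul_left_comm,
      Units.coe_prod, ← Finset.prod_mul_distrib]
    congr 1
    refine Finset.prod_congr rfl fun k _ => ?_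
    rw [← hr, wt_apply, zpow_sub, zpow_add, zpow_add]
    simp only [Sum.elim_inl, Sum.elim_inr, zpow_natCast, mul_inv, ← inv_pow, Units.val_mul,
      Units.val_pow_eq_pow_val]
    ring

theorem hg_aeval {A : Type} [CommRing A] (N : ℤ) (Ψ : XY κ → MvPolynomial (XY κ) A)
    (h : ∀ v, Hg (N • wt v) (Ψ v)) (n : κ → ℤ) (s : MvPolynomial (XY κ) A) (hs : Hg n s) :
    Hg (N • n) (aeval Ψ s) := by
  induction hs using IsWeightedHomogeneous.induction_on with
  | zero => simpa using isWeightedHomogeneous_zero A wt _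
  | add p q _ _ hp hq => rw [map_add]; exact hp.add hq
  | monomial d r hr =>
    rw [aeval_monomial, Finsupp.prod_fintype _ _ fun _ => pow_zero _]
    have h1 := (IsWeightedHomogeneous.prod (w := wt) Finset.univ (fun v => Ψ v ^ d v) _
      fun v _ => (h v).pow (d v)).C_mul r
    refine (congrArg (IsWeightedHomogeneous wt _) ?_).mpr h1
    rw [← hr, Finsupp.weight_eq_sum, Finset.smul_sum]
    exact Finset.sum_congr rfl fun v _ => smul_comm _ _ _

theorem hg_poly (t : MvPolynomial (XY κ) ℤ) (ht : Hg 0 t) (p : Polynomial ℤ) :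
    Hg 0 (Polynomial.aeval t p) := by
  induction p using Polynomial.induction_on' with
  | add p q hp hq => rw [map_add]; exact hp.add hq
  | monomial n r =>
    rw [Polynomial.aeval_monomial]
    simpa using (ht.pow n).C_mul r

theorem fr (A : Type) [CommRing A] (N : ℕ) : ∃ Φ : XY κ → MvPolynomial (XY κ) ℤ,
    (∀ v, Φ (.inl v) = X (.inl v) ^ N) ∧ (∀ v, Hg ((N : ℤ) • wt v) (Φ v)) ∧
    (∀ (n : κ → ℤ) (s : MvPolynomial (XY κ) A), Hg n s →
      Hg ((N : ℤ) • n) (aeval (fun v => map (Int.castRingHom A) (Φ v)) s)) ∧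
    ∀ (D : Type) [CommRing D] (a : XY κ → D), Rel a → Rel fun v => aeval a (Φ v) := by
  have hc : IsCoprime (Polynomial.X : Polynomial ℤ) (1 - Polynomial.X) := ⟨1, 1, by ring⟩
  obtain ⟨p, q, hpq⟩ : IsCoprime ((Polynomial.X : Polynomial ℤ) ^ N) ((1 - Polynomial.X) ^ N) :=
    hc.pow
  let Φ : XY κ → MvPolynomial (XY κ) ℤ := Sum.elim (fun v => X (.inl v) ^ N) fun v =>
    Polynomial.aeval (X (.inl (v.1, 0)) * X (.inr (v.1, 0)) : MvPolynomial (XY κ) ℤ)
      (![p, q] v.2) * X (.inr v) ^ N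
  have h : ∀ v, Hg ((N : ℤ) • wt v) (Φ v) := by
    rintro (v | v)
    · simpa [Φ] using (isWeightedHomogeneous_X ℤ wt (.inl v : XY κ)).pow N
    · have h0 : Hg 0 (X (.inl (v.1, 0)) * X (.inr (v.1, 0)) : MvPolynomial (XY κ) ℤ) := by
        have h1 : wt (.inl (v.1, 0) : XY κ) + wt (.inr (v.1, 0) : XY κ) = 0 := by
          simp [wt, Pi.single_neg]
        exact h1 ▸ (isWeightedHomogeneous_X ℤ wt _).mul (isWeightedHomogeneous_X ℤ wt _)
      simpa [Φ] using (hg_poly _ h0 (![p, q] v.2)).mul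
        ((isWeightedHomogeneous_X ℤ wt (.inr v : XY κ)).pow N)
  refine ⟨Φ, fun _ => rfl, h, fun n s hs => hg_aeval _ _ (fun v d hd => h v ?_) n s hs,
    fun D _ a ha k => ?_⟩
  · rw [coeff_map] at hd
    exact fun h0 => hd (by rw [h0, map_zero])
  · have h1 := ha k
    have h2 := congrArg (Polynomial.aeval (a (.inl (k, 0)) * a (.inr (k, 0)))) hpq
    rw [Fin.sum_univ_two] at h1 ⊢
    have h3 : 1 - a (.inl (k, 0)) * a (.inr (k, 0)) = a (.inl (k, 1)) * a (.inr (k, 1)) := by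
      linear_combination -h1
    simp only [map_add, map_mul, map_pow, map_sub, map_one, Polynomial.aeval_X, h3] at h2
    simp only [Φ, Sum.elim_inl, Sum.elim_inr, map_mul, map_pow, aeval_X,
      ← Polynomial.aeval_algHom_apply, Matrix.cons_val_zero, Matrix.cons_val_one]
    linear_combination h2

end W0

theorem w0 : W0_s := fun _ _ _ A _ =>
  ⟨fun P h => W0.mem_range P h, W0.zer, W0.triv, W0.scal, fun N _ => W0.fr A N⟩

end Pool.Agent.MP_855f4c_ag.T

end
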