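import Pool.Agent.MP_855f4c_ag.TC.Tf
import Pool.Agent.MP_855f4c_ag.EC.F2d
import Pool.Agent.MP_855f4c_ag.EC.Ue
import Pool.Agent.MP_855f4c_ag.EC.E4d
import Pool.Agent.MP_855f4c_ag.TC.Tg
import Pool.Agent.MP_855f4c_ag.TC.Td
import Pool.Agent.MP_855f4c_ag.EC.Zb
import Pool.Agent.MP_855f4c_ag.TC.Te
import Pool.Agent.MP_855f4c_ag.EC.F2b
import Pool.Agent.MP_855f4c_ag.TC.Tc

section

/-! h12g section K: the quotient `AU` is the direct image from the closed complement. -/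

set_option autoImplicit false
set_option backward.isDefEq.respectTransparency false

open CategoryTheory Limits Abelian Opposite AlgebraicGeometry IsLocalRing Function

namespace Pool.Agent.MP_855f4c_ag.T

open E E3 E4

namespace CLZ
variable {l : ℕ} {D T : Scheme.{0}} (i : D ⟶ T) {O : T.Opens} {F : Sh (Scheme.etaleTopology.over T)}

lemma van {W : Over T} (h : ∀ t, W.hom t ∉ O) (s : ((ez O).obj F).obj.obj (op W)) : s.1 = 0 :=
  sepP F.property s.1 _ s.2 fun Y y hy => hy.elim id fun hy =>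
    have : IsEmpty Y.left := ⟨fun t => h (y.left t) (by have := hy t; rwa [← Over.w y] at this)⟩
    zero_of_isEmpty F Y _

lemma w (h : ∀ x : T, x ∈ O → x ∉ Set.range i) (F : Sh (Scheme.etaleTopology.over T)) :
    (ezι O).app F ≫ (pbpf i).unit.app F = 0 := by
  ext W s
  exact van (fun t ht => h _ ht ⟨_, rfl⟩)
    (((ez O).obj F).obj.map ((Over.mapPullbackAdj i).counit.app W.unop).op s)

lemma lift [IsIntegralHom i] {k : Type} [Field k] [IsAlgClosed k] (x : Spec (.of k) ⟶ T)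
    {t : Spec (.of k)} (h : x t ∈ Set.range i) : Nonempty (Over.mk x ⟶ Over.mk i) := by
  obtain ⟨R, _, _, u', K⟩ := exists_fib i x
  have := fib_integral K
  obtain ⟨d, hd⟩ := h
  obtain ⟨p, -⟩ := Scheme.exists_preimage_of_isPullback K t d hd.symm
  obtain ⟨q, hq, -⟩ := Ideal.exists_le_maximal _ p.isPrime.ne_top
  obtain ⟨τ, -⟩ := exists_point (R := k) (M := k) q
    ((liesOver_of_integral (A := k) q).over.symm.trans (ker_eq_max _).symm)
  exact ⟨lf K τ⟩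

lemma ez_cc (hF : Cc l F) : Cc l ((ez O).obj F) :=
  ⟨ez_LFP O (hF.pb O.ι).1, ez_Rig O (hF.pb O.ι).2⟩

/-- The sequence `0 → F_O → F → i_* i^* F → 0`. -/
theorem iso [IsClosedImmersion i] (h : ∀ x : T, x ∈ O ↔ x ∉ Set.range i) (hl : Linv l T)
    (hF : Cc l F) : IsIso (cokernel.desc _ _ (w i (fun x => (h x).1) F)) := by
  have : Epi ((pbpf i).unit.app F) := epi_of_pts _ hF (pf_cc i (pb_cc i hF)) hl fun k _ _ x s => by
    rcases isEmpty_or_nonempty (Over.mk x ⟶ Over.mk i) with e | ⟨⟨y⟩⟩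
    · exact ⟨0, stalk_inj i (pb_cc i hF) (hl k x) x (funext e.elim)⟩
    · obtain ⟨a, ha⟩ := (atLift_unit i F y).2 (atLift i _ _ s)
      refine ⟨a, stalk_inj i (pb_cc i hF) (hl k x) x (funext fun y' => ?_)⟩
      obtain rfl : y' = y :=
        Over.OverMorphism.ext ((cancel_mono i).1 ((Over.w y').trans (Over.w y).symm))
      exact ha
  have := epi_of_epi_fac (cokernel.π_desc _ _ (w i (fun x => (h x).1) F))
  have := mono_of_pts (cokernel.desc _ _ (w i (fun x => (h x).1) F))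
    (Cc.coker _ (ez_cc hF) hF) hl fun k _ _ x => (injective_iff_map_eq_zero _).2 fun t ht => by
    have : Presheaf.IsLocallySurjective (Scheme.etaleTopology.over T) (cokernel.π ((ezι O).app F)).hom :=
      (Sheaf.isLocallySurjective_iff_epi' Ab.{1} _).2 inferInstance
    obtain ⟨s, rfl⟩ := shl_surj x (cokernel.π ((ezι O).app F)).hom t
    have hs : ((pbpf i).unit.app F).hom.app _ s = 0 :=
      (congrArg (fun a => a.hom.app (op (Over.mk x)) s)
        (cokernel.π_desc _ _ (w i (fun x => (h x).1) F))).symm.trans ht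
    rcases isEmpty_or_nonempty (Over.mk x ⟶ Over.mk i) with e | ⟨⟨y⟩⟩
    · obtain ⟨s, rfl⟩ := (ezι_bij O F (T := Over.mk x) fun t =>
        (h _).2 fun ht => e.elim (lift i x ht).some).2 s
      exact congrArg (fun a => a.hom.app (op (Over.mk x)) s) (cokernel.condition ((ezι O).app F))
    · rw [(atLift_unit i F y).1 (a₁ := s) (a₂ := 0) (by simp only [hs, map_zero]), map_zero]
  exact isIso_of_mono_of_epi _

/-- `Ext(i^* A, G) = Ext(A, i_* G)`. -/
theorem adj_bij [IsIntegralHom i] {A : Sh (Scheme.etaleTopology.over T)} {A' : Sh (Scheme.etaleTopology.over D)} (e : (pbe i).obj A ≅ A')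
    (G : Sh (Scheme.etaleTopology.over D)) (n : ℕ) :
    Bijective (cmp (pf i) ((pbpf i).unit.app A ≫ (pf i).map e.hom) G n) :=
  cmp_bij _ _ (fun Y => by
    refine (congrArg Bijective (funext fun x => ?_)).mp
      (((pbpf i).homEquiv A Y).bijective.comp (Iso.homFromEquiv e).symm.bijective)
    simp [Adjunction.homEquiv_unit]) (fun _ _ _ y => Ext.eq_zero_of_injective y) n G

theorem adj_pb [IsIntegralHom i] {A : Sh (Scheme.etaleTopology.over T)} {A' G : Sh (Scheme.etaleTopology.over D)} (e : (pbe i).obj A ≅ A')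
    (c : (pbe i).obj F ⟶ G) (n : ℕ) (y : Ext A F n) :
    cmp (pf i) ((pbpf i).unit.app A ≫ (pf i).map e.hom) G n
      (post _ c n (cmp (pbe i) e.inv F n y)) =
      post _ ((pbpf i).unit.app F ≫ (pf i).map c) n y := by
  refine (cmp_comp _ _ _ _ (add_zero n)).trans ?_
  rw [cmp_apply (pbe i), cmp_pre, Category.assoc, ← Functor.map_comp, e.hom_inv_id,
    CategoryTheory.Functor.map_id, Ext.mapExactFunctor_mk₀]
  erw [Category.comp_id]
  exact (congrArg (post _ _ n) (ext_unit_nat (pb i) (pf i) (pbpf i).unit.app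
    (fun f => ((pbpf i).unit.naturality f).symm) n F y)).trans (post_post _ _ y)
end CLZ

open CLZ in
theorem clz : CLZ_s := by
  intro l _ D T i O _ h hl
  have hL := G0.linf_Tc l T
  refine ⟨Tc.coker _ (ez_cc hL.1) hL, fun n => ?_⟩
  have := iso i h hl hL.1
  let e : AU l O ⟶ (pf i).obj (Linf l D) :=
    cokernel.desc _ _ (w i (fun x => (h x).1) _) ≫ (pf i).map (lpb l i).hom
  have : IsIso e := IsIso.comp_isIso' this inferInstance
  let Φ := AddEquiv.ofBijective _ (adj_bij i (zpb i) (Linf l D) n)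
  refine ⟨(AddEquiv.ofBijective _ (post_bij (Zs T) e n)).trans Φ.symm,
    fun y => Φ.symm_apply_eq.2 ?_⟩
  refine ((post_post _ _ y).trans ?_).trans (adj_pb i (zpb i) (lpb l i).hom n y).symm
  exact congrArg (fun a => post _ a n y) (cokernel.π_desc_assoc _ _ _ _)

end Pool.Agent.MP_855f4c_ag.T

end

section

/-! Row END: from the map `ε` to the conclusion for `Y`. -/

set_option autoImplicit false
set_option backward.isDefEq.respectTransparency false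

open CategoryTheory Limits Abelian Function AlgebraicGeometry

namespace Pool.Agent.MP_855f4c_ag.T

open E

namespace End

variable {l : ℕ} [Fact l.Prime] {X : Scheme.{0}}

lemma th (hZ : ZB_s) (U : Over X) (hc : ∀ n, Cof l (HH l U.left n)) (i : ℕ) :
    ∃ Θ : Hl l i U ≃+ V l (HH l U.left i), ∀ (g : U ⟶ U) y,
      Θ (Hl.res l i g y) = Vm l (hpb l g.left i) (Θ y) := by
  obtain ⟨Θ, hΘ⟩ := EZ.hl_V l U i fun j _ => (hZ.2 l X j).elim fun e _ => EZ.cof_tr (e U) (hc j)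
  obtain ⟨e, he⟩ := hZ.2 l X i
  refine ⟨Θ.trans (Ve l (e U)).toAddEquiv, fun g y => ?_⟩
  change Ve l (e U) (Θ _) = Vm l _ (Ve l (e U) (Θ y))
  rw [hΘ]
  exact V.ext fun _ => he U U g _

lemma fa_pow {K Ω : Type} [CommRing K] [Field Ω] [Algebra K Ω] (f : X ⟶ Spec (.of K))
    (φ : Ω ≃ₐ[K] Ω) (h : spc (φ : Ω →+* Ω) ≫ spc (algebraMap K Ω) = spc (algebraMap K Ω))
    (i m : ℕ) : ∀ (ψ : Ω →+* Ω) (hψ : spc ψ ≫ spc (algebraMap K Ω) = spc (algebraMap K Ω)),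
      (∀ z, ψ z = (φ ^ m) z) →
      Vm l (hpb l (fa f ψ hψ) i) = Vm l (hpb l (fa f (φ : Ω →+* Ω) h) i) ^ m := by
  induction m with
  | zero =>
    intro ψ hψ e
    obtain rfl : ψ = RingHom.id Ω := RingHom.ext e
    have : sph _ hψ = 𝟙 _ := Over.OverMorphism.ext (Spec.map_id _)
    rw [fa, this, CategoryTheory.Functor.map_id]
    exact LinearMap.ext fun v => V.ext fun x => Pbc.hpb_id _
  | succ m ih =>
    intro ψ hψ e
    obtain rfl : ψ = ((φ ^ m : Ω ≃ₐ[K] Ω) : Ω →+* Ω).comp (φ : Ω →+* Ω) :=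
      RingHom.ext fun z => (e z).trans (by rw [pow_succ]; rfl)
    have h' : spc ((φ ^ m : Ω ≃ₐ[K] Ω) : Ω →+* Ω) ≫ spc (algebraMap K Ω) =
        spc (algebraMap K Ω) := by
      rw [← Spec.map_comp, ← CommRingCat.ofHom_comp]
      congr 2
      exact RingHom.ext (φ ^ m).commutes
    have : sph _ hψ = sph _ h' ≫ sph _ h :=
      Over.OverMorphism.ext (Spec.map_comp (CommRingCat.ofHom (φ : Ω →+* Ω))
        (CommRingCat.ofHom ((φ ^ m : Ω ≃ₐ[K] Ω) : Ω →+* Ω)))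
    have e2 : fa f _ hψ = fa f _ h' ≫ fa f _ h := by
      rw [fa, this, CategoryTheory.Functor.map_comp, Over.comp_left]
    rw [e2, pow_succ, ← ih _ h' fun _ => rfl]
    exact LinearMap.ext fun v => V.ext fun x => Pbc.hpb_comp (fa f _ h') (fa f _ h) (v.1 x)

end End

theorem endT (hL : LIN_s) (hK : KPD_s) (hZ : ZB_s) (hC : COFZ_s) : END_s := by
  intro l _ K R Ω _ _ _ _ _ _ _ _ X X' f _ _ f' _ d T k Q m M M' φ u φ' u' ψ v hψ hv hψ' hv' hd hi
    hQ hm ek eM eM' eψ ev eφ eu tw mw ε e0 e1 e2 i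
  subst ek eM eM'
  obtain rfl : ψ = (φ' : Ω →+* Ω) := RingHom.ext eφ
  obtain rfl : v = (u' : Ω →+* Ω) := RingHom.ext eu
  have hc := hC l R Ω (algebraMap R Ω) X' f'
  let U := fbr f' (spc (algebraMap R Ω))
  let a : U ⟶ U := (Over.pullback f').map (sph _ hψ')
  let b : U ⟶ U := (Over.pullback f').map (sph _ hv')
  have hQ' : 1 < Q ^ m := Nat.one_lt_pow hm.ne' hQ
  obtain ⟨c1, c2, c3, -, ϖ, w1, w2⟩ := hK l K Ω (algebraMap K Ω) X f d hd hi
  have key := hL l (Q ^ m) d T (EE l (fbr f (spc (algebraMap K Ω))).left)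
    (HH l (fbr f (spc (algebraMap K Ω))).left) (fun i => HH l U.left (i + 2 * T))
    (epb l (fa f _ hψ)) (epb l (fa f _ hv)) (hpb l (fa f _ hψ)) (hpb l (fa f _ hv))
    (fun _ => hpb l a.left _) (fun _ => hpb l b.left _) (Inj.tauH l _) ε ϖ hQ' c1 (fun _ => hc _) c2
    (fun _ _ _ => (Pbc.tau_pb _ _ _).symm) (fun _ _ _ => (Pbc.tau_pb _ _ _).symm) e1
    (fun i x y => (e2 i x y).trans (one_smul _ _)) w1 (w2 _ hψ _ tw)
    (fun i => (c3 i).imp fun n hn x hx => hn x fun y => DFunLike.congr_fun hx y)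
    (fun i x hx => AddMonoidHom.ext (e0 i x hx))
    (fun i => (End.th hZ U hc (i + 2 * T)).elim fun Θ hΘ =>
      (mwv.1 l _ _ Θ _ _ _ _ _ _ hQ' (hΘ a) (hΘ b)).1 (mw _)) i
  obtain ⟨Θ, hΘ⟩ := End.th hZ (fbr f (spc (algebraMap K Ω))) c1 i
  have pw : ∀ (σ : Ω ≃ₐ[K] Ω) (χ : Ω →+* Ω) hχ, (∀ z, χ z = (σ ^ m) z) → ∀ y,
      Θ ((gal f l i σ ^ m) y) = Vm l (hpb l (fa f χ hχ) i) (Θ y) := fun σ χ hχ e y => by
    rw [End.fa_pow f σ _ i m χ hχ e, Module.End.pow_apply, Module.End.pow_apply]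
    exact (Semiconj.iterate_right (hΘ _) m y)
  exact mwv.2 _ _ _ Q m i hQ hm
    ((mwv.1 l _ _ Θ _ _ _ _ _ _ hQ' (pw φ _ hψ eψ) (pw u _ hv ev)).2 key)

end Pool.Agent.MP_855f4c_ag.T

end

section

/-! h12g: statements on zero loci. -/

set_option autoImplicit false

open CategoryTheory Limits AlgebraicGeometry

namespace Pool.Agent.MP_855f4c_ag.T

open E

/-- The zero locus exists and is proper. -/
def ZLX_s : Prop := ∀ (κ : Type) [Fintype κ] [DecidableEq κ] (c : ℕ) (e : Fin c → κ → ℕ) (R : Type)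
  [CommRing R] (cf : MI e → R),
    ∃ (X : Scheme.{0}) (f : X ⟶ Spec (.of R)) (z : κ → (X ⟶ P1)), IsProper f ∧ ZL f z cf

/-- Base change, and its converse. -/
def ZLB_s : Prop := ∀ (κ : Type) [Fintype κ] [DecidableEq κ] (c : ℕ) (e : Fin c → κ → ℕ)
  (R C : Type) [CommRing R] [CommRing C] (cf : MI e → R) (ψ : R →+* C) (X X' : Scheme.{0})
  (f : X ⟶ Spec (.of R)) (z : κ → (X ⟶ P1)) (f' : X' ⟶ Spec (.of C)), ZL f z cf →
    (∀ a : X' ⟶ X, IsPullback a f' f (spc ψ) → ZL f' (fun k => a ≫ z k) (ψ ∘ cf)) ∧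
    ∀ z' : κ → (X' ⟶ P1), ZL f' z' (ψ ∘ cf) →
      ∃ a : X' ⟶ X, IsPullback a f' f (spc ψ) ∧ ∀ k, a ≫ z k = z' k

/-- Smoothness from the Jacobian criterion. -/
def ZSM_s : Prop := ∀ (κ : Type) [Fintype κ] [DecidableEq κ] (c : ℕ) (e : Fin c → κ → ℕ) (R : Type)
  [CommRing R] (cf : MI e → R) (X : Scheme.{0}) (f : X ⟶ Spec (.of R)) (z : κ → (X ⟶ P1)),
    ZL f z cf → (∀ (k : Type) [Field k] (ψ : R →+* k), JC (ψ ∘ cf)) → Smooth f

/-- Points of the affine model. -/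
def ZAD_s : Prop := ∀ (κ : Type) [Fintype κ] [DecidableEq κ] (D : Type) [CommRing D]
  (m : EV κ → D), JP m → (∃! y, Ad m y) ∧ ∀ (c : ℕ) (e : Fin c → κ → ℕ) (cf : MI e → D) (y),
    Ad m y → (∀ a σ, gen cf a (col m σ) = 0) → VanAt cf y

/-- The map from the affine model. -/
def ZJU_s : Prop := ∀ (κ : Type) [Fintype κ] [DecidableEq κ] (c : ℕ) (e : Fin c → κ → ℕ) (R : Type)
  [CommRing R] (cf : MI e → R) (X : Scheme.{0}) (f : X ⟶ Spec (.of R)) (z : κ → (X ⟶ P1)),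
    ZL f z cf → ∃ ρ : Spec (.of (JB cf)) ⟶ X, ρ ≫ f = spc (algebraMap R (JB cf)) ∧
      Ad (je cf) (fun k => ρ ≫ z k) ∧ GG.AffB ρ

end Pool.Agent.MP_855f4c_ag.T

end

section

/-! h12g row CLI: classes with values in `AU` are classes on the closed complement. -/

set_option autoImplicit false
set_option backward.isDefEq.respectTransparency false

open CategoryTheory Limits Abelian Opposite AlgebraicGeometry Function

namespace Pool.Agent.MP_855f4c_ag.T.CLI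

open E E3 E4 CLZ

variable {D T : Scheme.{0}} (i : D ⟶ T) [IsClosedImmersion i] {O : T.Opens}
  (h : ∀ x : T, x ∈ O ↔ x ∉ Set.range i) {l : ℕ} [Fact l.Prime] (hl : Linv l T)
include h hl

/-- Classes with values in `AU` are classes on the closed part. -/
theorem ext (A : Sh (Scheme.etaleTopology.over T)) {A' : Sh (Scheme.etaleTopology.over D)} (a : (pbe i).obj A ≅ A') (n : ℕ) :
    ∃ Ψ : Ext.{1} A (AU l O) n ≃+ Ext.{1} A' (Linf l D) n,
      ∀ y, Ψ (post _ (πU l O) n y) = gpb l i a.inv n y := by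
  have := iso i h hl (G0.linf_Tc l T).1
  let e : AU l O ⟶ (pf i).obj (Linf l D) :=
    cokernel.desc _ _ (w i (fun x => (h x).1) _) ≫ (pf i).map (lpb l i).hom
  have : IsIso e := IsIso.comp_isIso' this inferInstance
  let Φ := AddEquiv.ofBijective _ (adj_bij i a (Linf l D) n)
  refine ⟨(AddEquiv.ofBijective _ (post_bij A e n)).trans Φ.symm,
    fun y => Φ.symm_apply_eq.2 ?_⟩
  refine ((post_post _ _ y).trans ?_).trans (adj_pb i a (lpb l i).hom n y).symm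
  exact congrArg (fun a => post _ a n y) (cokernel.π_desc_assoc _ _ _ _)

/-- A class dies on the closed part if and only if it dies in the quotient. -/
theorem zero (A : Sh (Scheme.etaleTopology.over T)) {A' : Sh (Scheme.etaleTopology.over D)} (a : (pbe i).obj A ≅ A') (n : ℕ)
    (y : Ext.{1} A (Linf l T) n) : gpb l i a.inv n y = 0 ↔ post _ (πU l O) n y = 0 := by
  obtain ⟨Ψ, e⟩ := ext i h hl A a n
  exact (congrArg (· = 0) (e y)).symm.to_iff.trans Ψ.map_eq_zero_iff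

theorem cli (n : ℕ) (γ : EE l T n) : epb l i n γ = 0 ↔ post _ (πU l O) n γ = 0 :=
  zero i h hl _ (lpb l i) n γ

theorem clh (n : ℕ) (y : HH l T n) : hpb l i n y = 0 ↔ post _ (πU l O) n y = 0 :=
  zero i h hl _ (zpb i) n y

end Pool.Agent.MP_855f4c_ag.T.CLI

end

section

/-! h12g, row JXB: the relations on an affine point, without hypotheses. -/

set_option autoImplicit false
set_option backward.isDefEq.respectTransparency false

open CategoryTheory Limits Abelian Opposite AlgebraicGeometry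

namespace Pool.Agent.MP_855f4c_ag.T

open E E3 E4

theorem JX.cli {l : ℕ} [Fact l.Prime] {D : Type} [CommRing D] (hl : Linv l (Spec (.of D))) :
    JX.Cli l D := fun I n γ h => by
  have : IsClosedImmersion (spc (Ideal.Quotient.mk I)) :=
    IsClosedImmersion.spec_of_surjective _ Ideal.Quotient.mk_surjective
  refine (CLI.cli (spc (Ideal.Quotient.mk I)) (fun x => ?_) hl n γ).1 h
  have := range_comap_of_surjective _ (Ideal.Quotient.mk I)
    Ideal.Quotient.mk_surjective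
  rw [Ideal.mk_ker] at this
  exact not_congr (Set.ext_iff.1 this x).symm

theorem jxb : JXB_s := by
  intro l hl Ω _ _ _ Ch hP κ _ _ D _ t e z he hz
  have hC : JX.Cli l D :=
    JX.cli ((Linv.spec (IsUnit.mk0 (l : Ω) (Nat.cast_ne_zero.2 hl.out.ne_zero))).of_hom t)
  exact ⟨fun k => JX.sq he Ch hP t hC hz k rfl, fun i j => JX.com he Ch hP t hC hz i j rfl,
    fun n s I hs hI => ⟨Ch.th t (JX.eZ he hs hI), (Ch.th_c _ _).trans (JX.c_eC he Ch hP t hz n)⟩⟩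

end Pool.Agent.MP_855f4c_ag.T

end

section

/-! Row KTOP: consequences of duality in the top degree. -/

set_option autoImplicit false
set_option backward.isDefEq.respectTransparency false

open CategoryTheory Limits Abelian Opposite AlgebraicGeometry Function

namespace Pool.Agent.MP_855f4c_ag.T

open E E3 E4

namespace KTop

variable {l : ℕ} [Fact l.Prime] {T : Scheme.{0}}

lemma ta_add (a b : QZ l) : ta l T (a + b) = ta l T a + ta l T b := by
  have h : (con T).Additive := by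
    unfold con cst constantSheaf
    infer_instance
  unfold ta
  rw [← Functor.map_add]
  congr 1
  ext
  change (1 : ℤ) • (a + b) = (1 : ℤ) • a + (1 : ℤ) • b
  exact zsmul_add a b 1

/-- `tau x` is additive. -/
noncomputable def tauH {n : ℕ} (x : EE l T n) : QZ l →+ HH l T n :=
  AddMonoidHom.mk' (tau x) fun a b => by
    change (Ext.mk₀ (ta l T (a + b))).comp x (zero_add n) =
      (Ext.mk₀ (ta l T a)).comp x (zero_add n) + (Ext.mk₀ (ta l T b)).comp x (zero_add n)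
    rw [ta_add, Ext.mk₀_add, Ext.add_comp]

lemma tau_comp {i j n : ℕ} (h : i + j = n) (x : EE l T i) (y : EE l T j) (a : QZ l) :
    tau (x.comp y h) a = (tau x a).comp y h :=
  (Ext.comp_assoc (Ext.mk₀ (ta l T a)) x y (zero_add i) h (by omega)).symm

lemma tau_nsmul {n : ℕ} (m : ℕ) (x : EE l T n) (a : QZ l) : tau (m • x) a = m • tau x a :=
  map_nsmul (pre (ta l T a) _ n) m x

end KTop

open KTop in
theorem ktop (hE : ENDQ_s) (hK : KH_s) : KTOP_s := by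
  intro l _ T N t hq hc hP
  obtain ⟨e1, e2, -, e4, -⟩ := hE l
  obtain ⟨k1, k2, k3⟩ := hK l T
  have hL := hP _ (G0.linf_Tc l T)
  have inj : Injective t := (injective_iff_map_eq_zero _).2 fun y hy => by
    by_contra h0
    obtain ⟨χ, hχ⟩ := e2 _ (k2 hq N) y h0
    obtain ⟨x, rfl⟩ := (hL 0 N (add_zero N)).2 χ
    obtain ⟨φ, rfl⟩ := (Ext.mk₀_bijective _ _).2 x
    obtain ⟨c, h⟩ := k3 hc hq N y φ
    exact hχ (((congrArg t h).trans (map_nsmul t c y)).trans (by rw [hy, smul_zero]))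
  refine ⟨inj, fun x ⟨a, ha⟩ y => ?_, fun i j h α η ⟨a, ha⟩ => ?_⟩
  · obtain ⟨b, hb⟩ := e4 (t.comp (tauH x))
      (fun h0 => ha (inj ((DFunLike.congr_fun h0 a).trans (map_zero t).symm))) (t y)
    exact ⟨b, inj hb⟩
  · obtain ⟨χ, hχ⟩ := e2 _ (k2 hq i) _ ha
    obtain ⟨m, ρ, hρ⟩ := e1 (χ.comp (tauH α)) (t.comp (tauH η))
      fun h0 => hχ (DFunLike.congr_fun h0 a)
    obtain ⟨α', hα⟩ := (hL j i h).2 (ρ.comp χ)
    refine ⟨m, α', (hL N 0 (zero_add N)).1 (AddMonoidHom.ext fun y => ?_)⟩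
    obtain ⟨b, rfl⟩ := (k1 hc).2 y
    change t (tau (α.comp α' h) b) = t (tau (l ^ m • η) b)
    rw [tau_comp, tau_nsmul, map_nsmul]
    exact (DFunLike.congr_fun hα (tau α b)).trans (DFunLike.congr_fun hρ b)

end Pool.Agent.MP_855f4c_ag.T

end

section

/-! h12g: the use of the sandwich in the main argument. -/

set_option autoImplicit false
set_option backward.isDefEq.respectTransparency false

open CategoryTheory Limits Abelian Opposite AlgebraicGeometry Function TensorProduct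

namespace Pool.Agent.MP_855f4c_ag.T

open E E3 E4 GG ZP

/-- The generic fibre of the henselisation has the cohomology of the zero locus. -/
def SU0_s : Prop := ∀ (l : ℕ) [Fact l.Prime] (O V Ω : Type) [CommRing O] [CommRing V] [SHL V]
  [CommRing Ω] [Algebra O V] [Algebra V Ω] [Algebra O Ω] [IsScalarTower O V Ω]
  [Algebra.IsIntegral O V] (ϖ : O) [IsLocalization.Away (algebraMap O V ϖ) Ω]
  (κ : Type) [Fintype κ] [DecidableEq κ] (c : ℕ) (e : Fin c → κ → ℕ) (c' : MI e → O)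
  (B C₀ : Type) [CommRing B] [CommRing C₀] [Algebra (JB c') B] [Algebra O B]
  [IsScalarTower O (JB c') B] [Algebra B C₀] [Algebra O C₀] [IsScalarTower O B C₀]
  [IsLocalization.Away (algebraMap O B ϖ) C₀] (Z : Scheme.{0}) (f : Z ⟶ Spec (.of Ω))
  (z : κ → (Z ⟶ P1)), ¬ IsUnit (algebraMap O V ϖ) → IsUnit (l : V) → IndEt (JB c') B →
    QIso (JB c') B (Ideal.span {algebraMap O (JB c') ϖ}) →
    Hens B ((Ideal.span {algebraMap O (JB c') ϖ}).map (algebraMap (JB c') B)) →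
    ZL f z (algebraMap O Ω ∘ c') →
    ∃ s : Spec (.of (Ω ⊗[O] C₀)) ⟶ Z, s ≫ f = spc (iL O Ω C₀) ∧
      Ad (iR O Ω C₀ ∘ algebraMap B C₀ ∘ algebraMap (JB c') B ∘ je c') (fun k => s ≫ z k) ∧
      (∀ n, Bijective (hpb l s n)) ∧
      ∀ (σ : Ω ≃ₐ[O] Ω) (g : Z ⟶ Z), g ≫ f = f ≫ spc (σ : Ω →+* Ω) → (∀ k, g ≫ z k = z k) →
        spc (tw σ C₀) ≫ s = s ≫ g

/-- The same over the algebraic closure of `ℚ_p`. -/
def SU_s : Prop := ∀ (p l : ℕ) [Fact p.Prime] [Fact l.Prime] (O : Subring (PadicAlgCl p))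
  (κ : Type) [Fintype κ] [DecidableEq κ] (c : ℕ) (e : Fin c → κ → ℕ) (c' : MI e → O)
  (B C₀ : Type) [CommRing B] [CommRing C₀] [Algebra (JB c') B] [Algebra O B]
  [IsScalarTower O (JB c') B] [Algebra B C₀] [Algebra O C₀] [IsScalarTower O B C₀]
  [IsLocalization.Away (p : B) C₀] (Z : Scheme.{0}) (f : Z ⟶ Spec (.of (PadicAlgCl p)))
  (z : κ → (Z ⟶ P1)), l ≠ p → (∀ x ∈ O, ‖x‖ ≤ 1) → (∀ x : ℤ_[p], algebraMap _ _ x ∈ O) →
    IndEt (JB c') B → QIso (JB c') B (Ideal.span {(p : JB c')}) →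
    Hens B ((Ideal.span {(p : JB c')}).map (algebraMap (JB c') B)) →
    ZL f z (fun i => (c' i : PadicAlgCl p)) →
    ∃ s : Spec (.of (PadicAlgCl p ⊗[O] C₀)) ⟶ Z, s ≫ f = spc (iL O (PadicAlgCl p) C₀) ∧
      Ad (iR O (PadicAlgCl p) C₀ ∘ algebraMap B C₀ ∘ algebraMap (JB c') B ∘ je c')
        (fun k => s ≫ z k) ∧
      (∀ n, Bijective (hpb l s n)) ∧
      ∀ (σ : PadicAlgCl p ≃ₐ[O] PadicAlgCl p) (g : Z ⟶ Z),
        g ≫ f = f ≫ spc (σ : PadicAlgCl p →+* PadicAlgCl p) → (∀ k, g ≫ z k = z k) →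
        spc (tw σ C₀) ≫ s = s ≫ g

namespace Su

section zl
variable {κ : Type} [Fintype κ] [DecidableEq κ] {c : ℕ} {e : Fin c → κ → ℕ} {R R' : Type}
  [CommRing R] [CommRing R'] {X X' : Scheme.{0}} {f : X ⟶ Spec (.of R)} {f' : X' ⟶ Spec (.of R')}
  {z : κ → (X ⟶ P1)} {cf : MI e → R} {φ : R →+* R'}

/-- Base change of a zero locus. -/
theorem zbc (h : ZL f z cf) {a : X' ⟶ X} (hp : IsPullback a f' f (spc φ)) :
    ZL f' (fun k => a ≫ z k) (φ ∘ cf) where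
  inj D _ w w' h1 h2 := hp.hom_ext (h.inj D _ _
    (by rw [Category.assoc, Category.assoc, hp.w, reassoc_of% h1])
    fun k => by simpa only [Category.assoc] using h2 k) h1
  mem D _ τ y := by
    refine Iff.trans ⟨?_, ?_⟩ (h.mem D (τ.comp φ) y)
    · rintro ⟨w, h1, h2⟩
      exact ⟨w ≫ a, by rw [Category.assoc, hp.w, reassoc_of% h1, spc_spc],
        fun k => by rw [Category.assoc, h2]⟩
    · rintro ⟨w, h1, h2⟩
      refine ⟨hp.lift w (spc τ) (h1.trans (spc_spc _ _).symm), hp.lift_snd _ _ _, fun k => ?_⟩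
      rw [hp.lift_fst_assoc, h2]

/-- A zero locus with the image coefficients is the base change. -/
theorem zlu (h : ZL f z cf) {z' : κ → (X' ⟶ P1)} (h' : ZL f' z' (φ ∘ cf)) :
    ∃ a : X' ⟶ X, IsPullback a f' f (spc φ) ∧ ∀ k, a ≫ z k = z' k := by
  have ex : ∀ (C : Type) [CommRing C] (x : Spec (.of C) ⟶ X'), ∃ y : Spec (.of C) ⟶ X,
      y ≫ f = x ≫ f' ≫ spc φ ∧ ∀ k, y ≫ z k = x ≫ z' k := fun C _ x => by
    obtain ⟨τ, hτ⟩ := exists_spc (x ≫ f')
    rw [reassoc_of% hτ, spc_spc]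
    exact (h.mem C (τ.comp φ) _).2 ((h'.mem C τ _).1 ⟨x, hτ, fun _ => rfl⟩)
  obtain ⟨a, ha⟩ := glue (X := X') (Y := X)
    (fun C _ x y => y ≫ f = x ≫ f' ≫ spc φ ∧ ∀ k, y ≫ z k = x ≫ z' k)
    (fun C _ x y y' h1 h2 => h.inj C _ _ (h1.1.trans h2.1.symm) fun k => (h1.2 k).trans (h2.2 k).symm)
    (fun C D _ _ ψ x y h1 => ⟨by rw [Category.assoc, h1.1, Category.assoc],
      fun k => by rw [Category.assoc, h1.2, Category.assoc]⟩) fun p => by
      obtain ⟨i, q, hq⟩ := X'.affineCover.exists_eq p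
      obtain ⟨y, hy⟩ := ex _ (X'.affineOpenCover.f i)
      exact ⟨_, _, _, y, inferInstance, ⟨q, hq⟩, hy⟩
  have w : a ≫ f = f' ≫ spc φ := ext_pts fun C _ x => by
    obtain ⟨y, hy⟩ := ex C x
    rw [reassoc_of% ha C x y hy, hy.1]
  have hz : ∀ k, a ≫ z k = z' k := fun k => ext_pts fun C _ x => by
    obtain ⟨y, hy⟩ := ex C x
    rw [reassoc_of% ha C x y hy, hy.2]
  refine ⟨a, isPullback_of_pts w fun C _ x y hxy => ?_, hz⟩
  obtain ⟨τ, rfl⟩ := exists_spc y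
  obtain ⟨p, h1, h2⟩ := (h'.mem C τ fun k => x ≫ z k).2
    ((h.mem C (τ.comp φ) _).1 ⟨x, hxy.trans (spc_spc _ _), fun _ => rfl⟩)
  refine ⟨p, ⟨ha C p x ⟨by rw [reassoc_of% h1, hxy], fun k => (h2 k).symm⟩, h1⟩, fun q hq => ?_⟩
  exact h'.inj C _ _ (hq.2.trans h1.symm) fun k => by rw [h2, ← hq.1, Category.assoc, hz]

end zl

theorem zlb : ZLB_s := fun _ _ _ _ _ _ _ _ _ _ _ _ _ _ _ _ h =>
  ⟨fun _ hp => zbc h hp, fun _ h' => zlu h h'⟩

theorem ad_map {κ C D : Type} [CommRing C] [CommRing D] {m : EV κ → C}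
    {z : κ → (Spec (.of C) ⟶ P1)} (h : Ad m z) (ψ : C →+* D) :
    Ad (ψ ∘ m) fun k => spc ψ ≫ z k := fun k j => coA_map (h k j) ψ

theorem hpb_bij (hZ : ZB_s) (l : ℕ) [Fact l.Prime] {W Z : Scheme.{0}} (s : W ⟶ Z)
    (h : SA.AB (AddCommGrpCat.uliftFunctor.{1}.obj (.of (QZ l))) s) (n : ℕ) :
    Bijective (hpb l s n) := by
  obtain ⟨Θ, hΘ⟩ := hZ.2 l Z n
  have e : ⇑(hpb l s n) = Θ (Over.mk s) ∘ res (SA.tp s) (Linf l Z) n ∘ (Θ (E.top Z)).symm :=
    funext fun y => by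
      have := hΘ _ _ (SA.tp s) ((Θ (E.top Z)).symm y)
      rw [AddEquiv.apply_symm_apply] at this
      exact this.symm
  rw [e]
  exact (Θ _).bijective.comp ((h n).comp (Θ _).symm.bijective)

section alg
variable (O V Ω B C₀ : Type) [CommRing O] [CommRing V] [CommRing Ω] [CommRing B] [CommRing C₀]
  [Algebra O V] [Algebra V Ω] [Algebra O Ω] [IsScalarTower O V Ω] [Algebra O B] [Algebra B C₀]
  [Algebra O C₀] [IsScalarTower O B C₀]

/-- The map of tensor products. -/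
noncomputable def tm : V ⊗[O] B →+* Ω ⊗[O] C₀ :=
  (Algebra.TensorProduct.map (IsScalarTower.toAlgHom O V Ω)
    (IsScalarTower.toAlgHom O B C₀)).toRingHom

theorem away (ϖ : O) [IsLocalization.Away (algebraMap O V ϖ) Ω]
    [IsLocalization.Away (algebraMap O B ϖ) C₀] :
    @IsLocalization.Away _ _ (iL O V B (algebraMap O V ϖ)) (Ω ⊗[O] C₀) _
      (tm O V Ω B C₀).toAlgebra := by
  let : Algebra (V ⊗[O] B) (Ω ⊗[O] B) := (tm O V Ω B B).toAlgebra
  let : Algebra (Ω ⊗[O] B) (Ω ⊗[O] C₀) := (tm O Ω Ω B C₀).toAlgebra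
  let : Algebra (V ⊗[O] B) (Ω ⊗[O] C₀) := (tm O V Ω B C₀).toAlgebra
  have : IsScalarTower V (V ⊗[O] B) (Ω ⊗[O] B) := .of_algebraMap_eq fun x => by
    change algebraMap V Ω x ⊗ₜ 1 = algebraMap V Ω x ⊗ₜ algebraMap B B 1
    rw [map_one]
  have : IsScalarTower Ω (Ω ⊗[O] B) (Ω ⊗[O] C₀) := .of_algebraMap_eq fun x => by
    change x ⊗ₜ 1 = x ⊗ₜ algebraMap B C₀ 1
    rw [map_one]
  have h1 := IsLocalization.tensorProduct_tensorProduct O B (Submonoid.powers (algebraMap O V ϖ)) Ω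
    (RingHom.ext fun b => by
      change algebraMap V Ω 1 ⊗ₜ b = 1 ⊗ₜ b
      rw [map_one])
  have h2 := IsLocalization.tensorProduct_tensorProduct_right O Ω
    (Submonoid.powers (algebraMap O B ϖ)) C₀ (RingHom.ext fun b => rfl)
  have hu : IsUnit (algebraMap O Ω ϖ) := by
    rw [IsScalarTower.algebraMap_apply O V Ω]
    exact IsLocalization.Away.algebraMap_isUnit _
  let hb : (Ω ⊗[O] B) ≃ₐ[Ω ⊗[O] B] Ω ⊗[O] C₀ := IsLocalization.atUnits _ ((Submonoid.powers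
      (algebraMap O B ϖ)).map (Algebra.TensorProduct.includeRight (R := O) (A := Ω))) (by
    rintro _ ⟨_, ⟨n, rfl⟩, rfl⟩
    rw [map_pow, AlgHom.commutes, IsScalarTower.algebraMap_apply O Ω (Ω ⊗[O] B)]
    exact (hu.map (algebraMap Ω (Ω ⊗[O] B))).pow n)
  have : IsScalarTower (V ⊗[O] B) (Ω ⊗[O] B) (Ω ⊗[O] C₀) := .of_algebraMap_eq fun x => by
    induction x with
    | zero => simp only [map_zero]
    | tmul a b => rfl
    | add a b ha hb => simp only [map_add, ha, hb]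
  rw [Algebra.algebraMapSubmonoid_powers] at h1
  exact @IsLocalization.isLocalization_of_algEquiv _ _ _ _ _ _ _ _ _ h1
    (hb.restrictScalars (V ⊗[O] B))

theorem tm_int [Algebra.IsIntegral O V] : (iR O V B).IsIntegral := by
  let : Algebra B (V ⊗[O] B) := Algebra.TensorProduct.rightAlgebra
  have : Algebra.IsIntegral B (V ⊗[O] B) := Algebra.IsPushout.isIntegral (R := O) (S := V) (A := B) _
  exact Algebra.IsIntegral.isIntegral (R := B)

theorem pbT : IsPullback (spc (iR O V B)) (spc (iL O V B)) (spc (algebraMap O B))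
    (spc (algebraMap O V)) :=
  (isPullback_SpecMap_of_isPushout _ _ _ _ (CommRingCat.isPushout_tensorProduct O V B)).flip

end alg

theorem bcq (hX : EXS_s) (O V Ω B : Type) [CommRing O] [CommRing V] [CommRing Ω] [CommRing B]
    [Algebra O V] [Algebra O Ω] [Algebra O B] [Algebra V B] [IsScalarTower O V B] (I : Ideal V)
    (h1 : IndEt V B) (h2 : QIso V B I) (J : Ideal (Ω ⊗[O] V)) (hJ : I.map (iR O Ω V) ≤ J) :
    @IndEt (Ω ⊗[O] V) (Ω ⊗[O] B) _ _ (tm O Ω Ω V B).toAlgebra ∧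
      @QIso (Ω ⊗[O] V) (Ω ⊗[O] B) _ _ (tm O Ω Ω V B).toAlgebra J := by
  let : Algebra (Ω ⊗[O] V) (Ω ⊗[O] B) := (tm O Ω Ω V B).toAlgebra
  let : Algebra V (Ω ⊗[O] V) := Algebra.TensorProduct.rightAlgebra
  let : Algebra B (Ω ⊗[O] B) := Algebra.TensorProduct.rightAlgebra
  let : Algebra V (Ω ⊗[O] B) := ((algebraMap B (Ω ⊗[O] B)).comp (algebraMap V B)).toAlgebra
  have : IsScalarTower V B (Ω ⊗[O] B) := .of_algebraMap_eq fun _ => rfl
  have : IsScalarTower V (Ω ⊗[O] V) (Ω ⊗[O] B) := .of_algebraMap_eq fun _ => rfl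
  have : IsScalarTower Ω (Ω ⊗[O] V) (Ω ⊗[O] B) := .of_algebraMap_eq fun x => by
    change x ⊗ₜ 1 = x ⊗ₜ algebraMap V B 1
    rw [map_one]
  have : IsScalarTower O (Ω ⊗[O] V) (Ω ⊗[O] B) := .to₁₃₄ O Ω _ _
  have : IsScalarTower O V (Ω ⊗[O] B) := .to₁₂₄ O V (Ω ⊗[O] V) _
  have : Algebra.IsPushout V B (Ω ⊗[O] V) (Ω ⊗[O] B) :=
    (Algebra.IsPushout.comp_iff O V Ω (Ω ⊗[O] V)).1 (Algebra.IsPushout.symm inferInstance)
  exact hX.1 V B (Ω ⊗[O] V) (Ω ⊗[O] B) I J hJ h1 h2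

theorem core (hS : SAND_s) (hA : ABU_s) (hH : HP_s) (hX : EXS_s) (l : ℕ) [Fact l.Prime]
    (R O V Ω J B C₀ : Type) [CommRing R] [IsNoetherianRing R] [CommRing O] [CommRing V] [SHL V]
    [CommRing Ω] [Algebra O V] [Algebra V Ω] [Algebra O Ω] [IsScalarTower O V Ω]
    [Algebra.IsIntegral O V] (ϖ : O) [IsLocalization.Away (algebraMap O V ϖ) Ω] [CommRing J]
    [CommRing B] [CommRing C₀] [Algebra O J] [Algebra J B] [Algebra O B] [IsScalarTower O J B]
    [Algebra B C₀] [Algebra O C₀] [IsScalarTower O B C₀]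
    [IsLocalization.Away (algebraMap O B ϖ) C₀] {Z₀ Y Z : Scheme.{0}} {f₀ : Z₀ ⟶ Spec (.of R)}
    [IsProper f₀] {y : Y ⟶ Spec (.of O)} {f : Z ⟶ Spec (.of Ω)} {a₀ : Y ⟶ Z₀} {a : Z ⟶ Y}
    {τ : R →+* O} (p₁ : IsPullback a₀ y f₀ (spc τ)) (p₀ : IsPullback a f y (spc (algebraMap O Ω)))
    {ρ : Spec (.of J) ⟶ Y} (r1 : ρ ≫ y = spc (algebraMap O J)) (r3 : AffB ρ)
    (hϖ : ¬ IsUnit (algebraMap O V ϖ)) (hl : IsUnit (l : V)) (h1 : IndEt J B)
    (h2 : QIso J B (Ideal.span {algebraMap O J ϖ}))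
    (h3 : Hens B ((Ideal.span {algebraMap O J ϖ}).map (algebraMap J B))) :
    ∃ s : Spec (.of (Ω ⊗[O] C₀)) ⟶ Z, s ≫ f = spc (iL O Ω C₀) ∧
      s ≫ a = spc ((iR O Ω C₀).comp ((algebraMap B C₀).comp (algebraMap J B))) ≫ ρ ∧
      SA.AB (AddCommGrpCat.uliftFunctor.{1}.obj (.of (QZ l))) s := by
  have p₂ := IsPullback.of_hasPullback y (spc (algebraMap O V))
  have eO : spc (algebraMap V Ω) ≫ spc (algebraMap O V) = spc (algebraMap O Ω) := by
    rw [spc_spc, ← IsScalarTower.algebraMap_eq]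
  let a' := p₂.lift a (f ≫ spc (algebraMap V Ω)) (by rw [p₀.w, Category.assoc, eO])
  have t1 : a' ≫ _ = a := p₂.lift_fst _ _ _
  have p₃ : IsPullback a' f _ (spc (algebraMap V Ω)) :=
    IsPullback.of_right (by rw [t1, eO]; exact p₀) (p₂.lift_snd _ _ _) p₂
  let ρ' := p₂.lift (spc (iR O V J) ≫ ρ) (spc (iL O V J))
    (by rw [Category.assoc, r1]; exact (pbT O V J).w)
  have q1 : ρ' ≫ _ = spc (iR O V J) ≫ ρ := p₂.lift_fst _ _ _
  have q2 : ρ' ≫ _ = spc (iL O V J) := p₂.lift_snd _ _ _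
  have p₄ : IsPullback (spc (iR O V J)) ρ' ρ _ :=
    IsPullback.of_bot (by rw [q2, r1]; exact pbT O V J) q1.symm p₂
  let : Algebra (V ⊗[O] J) (V ⊗[O] B) := (tm O V V J B).toAlgebra
  let : Algebra (V ⊗[O] B) (Ω ⊗[O] C₀) := (tm O V Ω B C₀).toAlgebra
  have e1 : algebraMap (V ⊗[O] J) (V ⊗[O] B) (algebraMap V (V ⊗[O] J) (algebraMap O V ϖ)) =
      iL O V B (algebraMap O V ϖ) := by
    change algebraMap O V ϖ ⊗ₜ algebraMap J B 1 = algebraMap O V ϖ ⊗ₜ 1
    rw [map_one]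
  have : IsLocalization.Away (algebraMap (V ⊗[O] J) (V ⊗[O] B)
      (algebraMap V (V ⊗[O] J) (algebraMap O V ϖ))) (Ω ⊗[O] C₀) := e1 ▸ away O V Ω B C₀ ϖ
  let ψ := (algebraMap (V ⊗[O] B) (Ω ⊗[O] C₀)).comp (algebraMap (V ⊗[O] J) (V ⊗[O] B))
  have e2 : ψ.comp (iL O V J) = (iL O Ω C₀).comp (algebraMap V Ω) := RingHom.ext fun v => by
    change algebraMap V Ω v ⊗ₜ algebraMap B C₀ (algebraMap J B 1) = algebraMap V Ω v ⊗ₜ 1
    rw [map_one, map_one]
  have e3 : ψ.comp (iR O V J) =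
      (iR O Ω C₀).comp ((algebraMap B C₀).comp (algebraMap J B)) := RingHom.ext fun v => by
    change algebraMap V Ω 1 ⊗ₜ algebraMap B C₀ (algebraMap J B v) = 1 ⊗ₜ _
    rw [map_one]; rfl
  let s := p₃.lift (spc ψ ≫ ρ') (spc (iL O Ω C₀))
    (by rw [Category.assoc, q2, spc_spc, spc_spc, e2])
  have s1 : s ≫ a' = spc ψ ≫ ρ' := p₃.lift_fst _ _ _
  have e4 : iR O V J (algebraMap O J ϖ) = algebraMap V (V ⊗[O] J) (algebraMap O V ϖ) :=
    ((Algebra.TensorProduct.includeRight (R := O) (A := V)).commutes ϖ).trans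
      (IsScalarTower.algebraMap_apply O V _ ϖ)
  obtain ⟨b1, b2⟩ := bcq hX O J V B _ h1 h2
    (Ideal.span {algebraMap V (V ⊗[O] J) (algebraMap O V ϖ)})
    (by rw [Ideal.map_span, Set.image_singleton, e4])
  have b3 : T.HP (V ⊗[O] B) ((Ideal.span {algebraMap V (V ⊗[O] J) (algebraMap O V ϖ)}).map
      (algebraMap (V ⊗[O] J) (V ⊗[O] B))) := by
    refine hH.2 B _ (iR O V B) _ _ (tm_int O V B) ?_ (hH.1 _ _ h3)
    simp only [Ideal.map_span, Set.image_singleton, ← e4]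
    rfl
  refine ⟨s, p₃.lift_snd _ _ _, ?_, ?_⟩
  · rw [← t1, reassoc_of% s1, q1, ← e3, ← Category.assoc, spc_spc]
  · exact hS l R V Ω (V ⊗[O] J) (V ⊗[O] B) (Ω ⊗[O] C₀) (algebraMap O V ϖ) Z₀ _ Z f₀ _ _ _ f a'
      ρ' s _ (p₂.paste_horiz p₁) p₃ q2 (hA.1 _ _ _ _ ρ ρ' _ _ p₄ r3) s1 hϖ hl b1 b2 b3
      fun m => ((cof_QZ (l := l)).1 m.down).imp fun _ hn => ULift.ext _ _ hn

end Su

open Su in
theorem su0 (hS : SAND_s) (hA : ABU_s) (hH : HP_s) (hX : EXS_s) (hZ : ZB_s) (hL : ZLX_s)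
    (hJ : ZJU_s) : SU0_s := by
  intro l _ O V Ω _ _ _ _ _ _ _ _ _ ϖ _ κ _ _ c e c' B C₀ _ _ _ _ _ _ _ _ _ Z f z hϖ hl h1 h2 h3 hz
  obtain ⟨Z₀, f₀, z₀, _, h₀⟩ := hL κ c e (MvPolynomial (MI e) ℤ) MvPolynomial.X
  let τ : MvPolynomial (MI e) ℤ →+* O := (MvPolynomial.aeval c').toRingHom
  have p₁ := IsPullback.of_hasPullback f₀ (spc τ)
  have hO := zbc h₀ p₁
  rw [show τ ∘ MvPolynomial.X = c' from funext fun i => MvPolynomial.aeval_X _ _] at hO
  obtain ⟨ρ, r1, r2, r3⟩ := hJ κ c e O c' _ _ _ hO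
  obtain ⟨a, p₀, ha⟩ := zlu hO hz
  obtain ⟨s, s2, s1, s3⟩ := core hS hA hH hX l _ O V Ω (JB c') B C₀ ϖ p₁ p₀ r1 r3 hϖ hl h1 h2 h3
  have sz : ∀ k, s ≫ z k = spc ((iR O Ω C₀).comp ((algebraMap B C₀).comp (algebraMap (JB c') B))) ≫
      ρ ≫ pullback.fst f₀ (spc τ) ≫ z₀ k := fun k => by rw [← ha k, reassoc_of% s1]
  have had := ad_map r2 ((iR O Ω C₀).comp ((algebraMap B C₀).comp (algebraMap (JB c') B)))
  refine ⟨s, s2, by simp only [sz]; exact had, hpb_bij hZ l s s3, fun σ g g1 g2 => ?_⟩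
  refine hz.inj _ _ _ ?_ fun k => ?_
  · rw [Category.assoc, Category.assoc, s2, g1, reassoc_of% s2, spc_spc, spc_spc]
    exact congrArg spc (RingHom.ext fun x => rfl)
  · rw [Category.assoc, Category.assoc, g2, sz, ← Category.assoc, spc_spc]
    exact congrArg (spc · ≫ _) (RingHom.ext fun x => by
      change σ 1 ⊗ₜ _ = 1 ⊗ₜ _
      rw [map_one]; rfl)

theorem su (h : SU0_s) (hW : POW_s) : SU_s := by
  intro p l _ _ O κ _ _ c e c' B C₀ _ _ _ _ _ _ _ _ hA Z f z hlp h1 h2 h3 h4 h5 hz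
  let v : Valuation (PadicAlgCl p) NNReal := Valued.v
  let V := v.valuationSubring
  have mem : ∀ x, x ∈ V ↔ ‖x‖ ≤ 1 := fun _ => Iff.rfl
  let : Algebra O V := (O.subtype.codRestrict V fun x => (mem _).2 (h1 _ x.2)).toAlgebra
  have : IsScalarTower O V (PadicAlgCl p) := .of_algebraMap_eq fun _ => rfl
  have : Algebra.IsIntegral O V := ⟨fun x => by
    let : Algebra ℤ_[p] O := ((algebraMap ℤ_[p] (PadicAlgCl p)).codRestrict O h2).toAlgebra
    have : IsScalarTower ℤ_[p] O (PadicAlgCl p) := .of_algebraMap_eq fun _ => rfl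
    exact (isIntegral_algHom_iff (IsScalarTower.toAlgHom O V (PadicAlgCl p))
      Subtype.val_injective).1 ((((hW p l hlp).2.2 x).1 ((mem _).1 x.2)).tower_top)⟩
  have : SHL V := Aic.shl fun P hP hd => by
    obtain ⟨x, hx⟩ := IsAlgClosed.exists_aeval_eq_zero (PadicAlgCl p) P
      fun h => hd (Polynomial.natDegree_eq_of_degree_eq_some h)
    obtain ⟨y, rfl⟩ := IsIntegrallyClosed.algebraMap_eq_of_integral (R := V) ⟨P, hP, hx⟩
    refine ⟨y, Subtype.val_injective ?_⟩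
    rwa [Polynomial.aeval_algebraMap_apply, Polynomial.coe_aeval_eq_eval] at hx
  have np : ‖(p : PadicAlgCl p)‖ < 1 := by
    rw [← map_natCast (algebraMap ℚ_[p] _), norm_algebraMap']; exact Padic.norm_p_lt_one
  have p0 : (p : PadicAlgCl p) ≠ 0 := Nat.cast_ne_zero.2 (Fact.out : p.Prime).ne_zero
  have un : ∀ x : V, IsUnit x ↔ ‖(x : PadicAlgCl p)‖ = 1 := fun x =>
    (Valuation.Integers.isUnit_iff_valuation_eq_one
      (Valuation.valuationSubring.integers v)).trans NNReal.coe_inj.symm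
  have : IsLocalization.Away (algebraMap O V p) (PadicAlgCl p) := by
    rw [map_natCast]
    refine IsLocalization.Away.mk _ (by rw [map_natCast]; exact p0.isUnit) (fun x => ?_)
      fun a b hab => ⟨0, by rw [Subtype.val_injective hab]⟩
    obtain ⟨n, hn⟩ := exists_pow_lt_of_lt_one (show 0 < (‖x‖ + 1)⁻¹ by positivity) np
    refine ⟨n, ⟨x * p ^ n, (mem _).2 ?_⟩, by rw [map_natCast]; rfl⟩
    rw [norm_mul, norm_pow]
    rw [lt_inv_comm₀ (by positivity) (by positivity), lt_inv_comm₀ (by positivity) (by positivity),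
      inv_eq_one_div, lt_div_iff₀ (by positivity)] at hn
    nlinarith [pow_nonneg (norm_nonneg (p : PadicAlgCl p)) n]
  have : IsLocalization.Away (algebraMap O B p) C₀ := by rwa [map_natCast]
  refine h l O V (PadicAlgCl p) p κ c e c' B C₀ Z f z ?_ ?_ h3 (by rwa [map_natCast])
    (by rwa [map_natCast]) hz
  · rw [map_natCast, un]; exact np.ne
  · rw [un]
    change ‖(l : PadicAlgCl p)‖ = 1
    rw [← map_natCast (algebraMap ℚ_[p] _), norm_algebraMap']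
    exact Padic.norm_natCast_eq_one_iff.2 ((Nat.coprime_primes Fact.out Fact.out).2 hlp.symm)

end Pool.Agent.MP_855f4c_ag.T

end

section

/-! h12g row TOPJ: the top class on the affine model of a power of the projective line. -/

set_option autoImplicit false
set_option backward.isDefEq.respectTransparency false

open CategoryTheory Limits Abelian Opposite AlgebraicGeometry Function

namespace Pool.Agent.MP_855f4c_ag.T

open E E3 E4

/-- The affine model is an affine space bundle over the zero locus. -/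
def JUH_s : Prop := ∀ (κ : Type) [Fintype κ] [DecidableEq κ] (c : ℕ) (e : Fin c → κ → ℕ) (R : Type)
  [CommRing R] (cf : MI e → R) (X : Scheme.{0}) (f : X ⟶ Spec (.of R)) (z : κ → (X ⟶ P1)),
    ZL f z cf → ∃ ρ : Spec (.of (JB cf)) ⟶ X, ρ ≫ f = spc (algebraMap R (JB cf)) ∧
      Ad (je cf) (fun k => ρ ≫ z k) ∧ GG.AffB ρ

lemma je_tr {κ : Type} [Fintype κ] [DecidableEq κ] {A : Type} [CommRing A] {c : ℕ}
    {e : Fin c → κ → ℕ} (cf : MI e → A) (k : κ) : je cf (k, 0, 0) + je cf (k, 1, 1) = 1 := by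
  rw [← sub_eq_zero, je, je, ← map_add, ← map_one (Ideal.Quotient.mk (JI cf)), ← map_sub]
  exact Ideal.Quotient.eq_zero_iff_mem.2 (Ideal.subset_span (.inl (.inl ⟨k, rfl⟩)))

lemma hpb_of_hb (hZ : ZB_s) (l : ℕ) [Fact l.Prime] {W X : Scheme.{0}} (ρ : W ⟶ X)
    (h : SA.HB (SA.tp ρ) (Linf l X)) (n : ℕ) : Bijective (hpb l ρ n) := by
  obtain ⟨Θ, hΘ⟩ := hZ.2 l X n
  have e : ⇑(hpb l ρ n) ∘ Θ (E.top X) = Θ (Over.mk ρ) ∘ res (SA.tp ρ) _ n :=
    funext fun x => (hΘ _ _ (SA.tp ρ) x).symm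
  exact (Bijective.of_comp_iff _ (Θ _).bijective).1 (e ▸ (Θ _).bijective.comp (h n))

/-- An affine space bundle over a proper scheme in characteristic zero. -/
lemma hpb_aff (hZ : ZB_s) (hA : GG.ABU_s) (l : ℕ) [Fact l.Prime] {Ω : Type} [Field Ω] [CharZero Ω]
    {W X : Scheme.{0}} (g : X ⟶ Spec (.of Ω)) [IsProper g] (ρ : W ⟶ X) (h : GG.AffB ρ) (n : ℕ) :
    Bijective (hpb l ρ n) := by
  have hl : (l : Ω) ≠ 0 := Nat.cast_ne_zero.2 (Fact.out : l.Prime).ne_zero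
  have : IsSeparated (terminal.from X) := by
    rw [← terminal.comp_from g]
    infer_instance
  exact hpb_of_hb hZ l ρ (hA.2 l W X ρ _ h (QuasiCompact.compactSpace_of_compactSpace g) ⟨this⟩
    ((Linv.spec hl.isUnit).of_hom g) (G0.linf_Tc l X)) n

lemma tau_cast {l : ℕ} [Fact l.Prime] {T : Scheme.{0}} {m n : ℕ} (x : EE l T m) (h : 0 + m = n)
    (a : QZ l) (h0 : tau x a = 0) : tau ((one l T).comp x h) a = 0 := by
  obtain rfl : m = n := by omega
  rwa [Ext.mk₀_id_comp]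

theorem topj (hT : TOP_s) (hJ : JUH_s) (hA : GG.ABU_s) (hZ : ZB_s) (hK : KPB_s) (hW : D.TWF_s) :
    TOPJ_s := by
  intro l _ Ω _ _ _ Ch hP κ _ _ K h1 h2 z hz
  obtain ⟨P, g, y, tw, zl, -, -, a, ha⟩ := hT l Ω Ch hP κ K h1 h2
  obtain ⟨ρ, r1, r2, r3⟩ := hJ κ _ _ Ω _ P g y zl
  have := (hW.1 _ _ _ g tw).1
  obtain rfl : z = fun k => ρ ≫ y k := funext fun k =>
    ZP.ad_uniq (m := fun i j => je (noEq κ Ω) (k, i, j)) (je_tr _ k) (hz k) (r2 k)
  obtain ⟨-, k2, k3, k4⟩ := hK l _ _ ρ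
  refine ⟨a, fun h0 => ha ((hpb_aff hZ hA l g ρ r3 _).1 ?_)⟩
  rw [map_zero, k2, k3 _ (by simp)]
  refine tau_cast _ _ a ?_
  have e : (K.map fun k => Ch.x hP g (y k)).map (epb l ρ 2) =
      K.map fun k => Ch.x hP (spc (algebraMap Ω (JB (noEq κ Ω)))) (ρ ≫ y k) := by
    rw [List.map_map, ← r1]
    exact congrArg (List.map · K) (funext fun k => k4 Ω Ch hP g (y k))
  rw [e]
  exact h0

end Pool.Agent.MP_855f4c_ag.T

end

section

/-! h12g: zero loci in products of projective lines. -/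

set_option autoImplicit false
set_option backward.isDefEq.respectTransparency false

open CategoryTheory Limits AlgebraicGeometry MvPolynomial

namespace Pool.Agent.MP_855f4c_ag.T.ZP

open E

variable {κ : Type} [Fintype κ] [DecidableEq κ] {c : ℕ} {e : Fin c → κ → ℕ}
  {R C D : Type} [CommRing R] [CommRing C] [CommRing D]

/-- The coordinates in the chart `σ`. -/
def xv (σ : κ → Fin 2) (t : κ → D) : XV κ → D := fun v => vc (σ v.1) (t v.1) v.2

theorem map_gen (ψ : C →+* D) (cf : MI e → C) (a : Fin c) (x : XV κ → C) :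
    ψ (gen cf a x) = gen (ψ ∘ cf) a (ψ ∘ x) := by simp [gen, mon]

omit [Fintype κ] [DecidableEq κ] in
theorem map_xv (ψ : C →+* D) (σ : κ → Fin 2) (t : κ → C) : ψ ∘ xv σ t = xv σ (ψ ∘ t) :=
  funext fun _ => map_vc _ _ _ _

theorem gen_scale (cf : MI e → D) (a : Fin c) (x : XV κ → D) (u : κ → D) :
    gen cf a (fun v => x v * u v.1) = gen cf a x * ∏ k, u k ^ e a k := by
  simp only [gen, mon, Finset.sum_mul, mul_assoc, ← Finset.prod_mul_distrib]
  refine Finset.sum_congr rfl fun j _ => congrArg _ (Finset.prod_congr rfl fun k _ => ?_)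
  rw [← pow_sub_mul_pow (u k) (Nat.lt_succ_iff.1 (j k).2)]
  ring

theorem vanAt_map {cf : MI e → C} {y : κ → (Spec (.of C) ⟶ P1)} (h : VanAt cf y) (ψ : C →+* D) :
    VanAt (ψ ∘ cf) fun k => spc ψ ≫ y k := fun D' _ χ x hx =>
  h D' (χ.comp ψ) x fun k => by rw [← spc_spc, Category.assoc]; exact hx k

theorem vanAt_pts {cf : MI e → C} {σ : κ → Fin 2} {t : κ → C} :
    VanAt cf (fun k => pts (σ k) (t k)) ↔ ∀ a, gen cf a (xv σ t) = 0 := by
  refine ⟨fun h => h C (.id _) _ fun k => ⟨?_, Pi.single (σ k) 1, ?_⟩, fun h D _ ψ x hx a => ?_⟩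
  · rw [map_pts]; simpa [xv] using coA_pts (σ k) (t k) 1
  · rw [Cov, Finset.sum_eq_single (σ k)] <;> simp +contextual [xv, vc]
  have key : x = fun v => xv σ (ψ ∘ t) v * x (v.1, σ v.1) := funext fun v =>
    eq_of_loc fun D' _ _ φ => by
      obtain ⟨h1, b, hb⟩ := hx v.1
      obtain ⟨j, -, hj⟩ := IsLocalRing.exists_of_isUnit_sum (s := Finset.univ)
        (f := fun i => φ (b i) * φ (x (v.1, i))) (by
          simpa [Cov] using (show IsUnit (∑ i, b i * x (v.1, i)) from hb ▸ isUnit_one).map φ)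
      have := coA_map h1 φ
      rw [map_pts, map_pts] at this
      rw [map_mul, xv, map_vc]
      exact coA_unit this (isUnit_of_mul_isUnit_right hj) v.2
  rw [key, gen_scale _ _ _ fun k => x (k, σ k), ← map_xv, ← map_gen, h, map_zero, zero_mul]

theorem vanAt_of_loc {cf : MI e → C} {y : κ → (Spec (.of C) ⟶ P1)}
    (h : ∀ (D : Type) [CommRing D] [IsLocalRing D] (ψ : C →+* D) (σ : κ → Fin 2) (t : κ → D),
      (∀ k, spc ψ ≫ y k = pts (σ k) (t k)) → ∀ a, gen (ψ ∘ cf) a (xv σ t) = 0) : VanAt cf y :=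
  fun D _ ψ x hx a => eq_of_loc fun D' _ _ φ => by
    have : ∀ k, ∃ i t, spc (φ.comp ψ) ≫ y k = pts i t := fun k =>
      (pt_local _).elim (fun ⟨a, h⟩ => ⟨0, a, h⟩) fun ⟨b, _, h⟩ => ⟨1, b, h⟩
    choose σ t ht using this
    rw [map_gen, map_zero]
    refine vanAt_pts.2 (h D' _ σ t ht) D' (.id _) (φ ∘ x) (fun k => ?_) a
    obtain ⟨h1, b, hb⟩ := hx k
    refine ⟨?_, φ ∘ b, by simpa [Cov] using congrArg φ hb⟩
    rw [map_pts, RingHom.id_apply, ← ht, ← spc_spc, Category.assoc]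
    exact coA_map h1 φ

theorem vanAt_of_ad {cf : MI e → C} {m : EV κ → C} {y : κ → (Spec (.of C) ⟶ P1)} (h : JP m)
    (hy : Ad m y) (h0 : ∀ a σ, gen cf a (col m σ) = 0) : VanAt cf y :=
  vanAt_of_loc fun D _ _ ψ σ t ht a => by
    have h1 := fun k => (map_add ψ _ _).symm.trans ((congrArg ψ (h k).1).trans ψ.map_one)
    have key := fun k => ad_pts (m := fun a b => ψ (m (k, a, b))) (h1 k)
      (by simpa using congrArg ψ (h k).2) fun j => ht k ▸ coA_map (hy k j) ψ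
    have : ∀ k, ∃ j, IsUnit (ψ (m (k, j, j))) := fun k =>
      (IsLocalRing.isUnit_or_isUnit_of_add_one (h1 k)).elim (⟨0, ·⟩) (⟨1, ·⟩)
    choose σ' hu using this
    have h2 := congrArg ψ (h0 a σ')
    rw [map_gen, map_zero, show ψ ∘ col m σ' = fun v => xv σ t v * ψ (m (v.1, σ v.1, σ' v.1)) from
      funext fun v => key _ _ _, gen_scale _ _ _ fun k => ψ (m (k, σ k, σ' k))] at h2
    exact (IsUnit.prod_iff.2 fun k _ =>
      (isUnit_of_mul_isUnit_right (key k _ _ ▸ hu k)).pow _).mul_left_eq_zero.1 h2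

omit [Fintype κ] [DecidableEq κ] in
/-- A point of the affine model gives points of the line. -/
theorem exists_ad {m : EV κ → C} (h : JP m) : ∃ y, Ad m y := by
  choose y hy using fun k => ad_exists (m := fun a b => m (k, a, b)) (h k).1 (h k).2
  exact ⟨y, hy⟩

omit [Fintype κ] [DecidableEq κ] in
theorem ad_unique {m : EV κ → C} (h : JP m) {y y' : κ → (Spec (.of C) ⟶ P1)} (h1 : Ad m y)
    (h2 : Ad m y') : y = y' :=
  funext fun k => ad_uniq (m := fun a b => m (k, a, b)) (h k).1 (h1 k) (h2 k)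

omit [Fintype κ] [DecidableEq κ] in
theorem ad_map {m : EV κ → C} {y : κ → (Spec (.of C) ⟶ P1)} (h : Ad m y) (ψ : C →+* D) :
    Ad (ψ ∘ m) fun k => spc ψ ≫ y k := fun k j => coA_map (h k j) ψ

section rings
variable (cf : MI e → R) (σ : κ → Fin 2)

/-- The ring of the chart `σ`. -/
abbrev Ch : Type := MvPolynomial κ R ⧸ Ideal.span (Set.range (aff cf σ))

/-- Its coordinates. -/
noncomputable def ct (k : κ) : Ch cf σ := Ideal.Quotient.mk _ (X k)

theorem eval_aff (τ : R →+* D) (t : κ → D) (a : Fin c) :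
    eval₂Hom τ t (aff cf σ a) = gen (τ ∘ cf) a (xv σ t) := by
  rw [aff, map_gen]
  congr 1 <;> funext v <;> simp [xv, vc, apply_ite (eval₂ τ t)]

theorem ch_gen (ψ : Ch cf σ →+* D) (a : Fin c) :
    gen (ψ.comp (algebraMap R _) ∘ cf) a (xv σ fun k => ψ (ct cf σ k)) = 0 := by
  have : (eval₂Hom (ψ.comp (algebraMap R _)) fun k => ψ (ct cf σ k)) =
      ψ.comp (Ideal.Quotient.mk _) :=
    MvPolynomial.ringHom_ext (fun r => eval₂Hom_C _ _ r) fun k => eval₂Hom_X' _ _ k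
  rw [← eval_aff, this, RingHom.comp_apply,
    Ideal.Quotient.eq_zero_iff_mem.2 (Ideal.subset_span (Set.mem_range_self a)), map_zero]

variable {cf σ} in
theorem ch_lift (τ : R →+* D) (t : κ → D) (h : ∀ a, gen (τ ∘ cf) a (xv σ t) = 0) :
    ∃ ψ : Ch cf σ →+* D, ψ.comp (algebraMap R _) = τ ∧ ∀ k, ψ (ct cf σ k) = t k :=
  ⟨Ideal.Quotient.lift _ (eval₂Hom τ t) fun _ hx => (Ideal.span_le (I := RingHom.ker _)).2
    (by rintro _ ⟨a, rfl⟩; exact (eval_aff _ _ _ _ _).trans (h a)) hx,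
    RingHom.ext fun r => eval₂Hom_C _ _ r, fun k => eval₂Hom_X' _ _ k⟩

variable {cf σ} in
theorem ch_ext {ψ ψ' : Ch cf σ →+* D} (h : ψ.comp (algebraMap R _) = ψ'.comp (algebraMap R _))
    (h' : ∀ k, ψ (ct cf σ k) = ψ' (ct cf σ k)) : ψ = ψ' :=
  Ideal.Quotient.ringHom_ext (MvPolynomial.ringHom_ext (RingHom.congr_fun h) h')

theorem jp_je : JP (je cf) := fun k =>
  ⟨Ideal.Quotient.eq.2 (Ideal.subset_span (.inl (.inl ⟨k, rfl⟩))),
    Ideal.Quotient.eq.2 (Ideal.subset_span (.inl (.inr ⟨k, rfl⟩)))⟩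

theorem gen_je (a : Fin c) : gen (algebraMap R (JB cf) ∘ cf) a (col (je cf) σ) = 0 :=
  (map_gen (Ideal.Quotient.mk (JI cf)) (fun i => MvPolynomial.C (cf i)) a (col X σ)).symm.trans
    (Ideal.Quotient.eq_zero_iff_mem.2 (Ideal.subset_span (.inr ⟨a, σ, rfl⟩)))

variable {cf} in
theorem j_lift (τ : R →+* D) {m : EV κ → D} (h : JP m)
    (h0 : ∀ a σ, gen (τ ∘ cf) a (col m σ) = 0) :
    ∃ φ : JB cf →+* D, φ.comp (algebraMap R _) = τ ∧ ∀ v, φ (je cf v) = m v :=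
  ⟨Ideal.Quotient.lift _ (eval₂Hom τ m) fun _ hx => (Ideal.span_le (I := RingHom.ker _)).2 (by
      rintro _ ((⟨k, rfl⟩ | ⟨k, rfl⟩) | ⟨a, σ, rfl⟩)
      · simp [(h k).1]
      · simp [(h k).2]
      · refine (map_gen _ _ _ _).trans (Eq.trans ?_ (h0 a σ))
        congr 1 <;> funext v <;> simp [col]) hx,
    RingHom.ext fun r => eval₂Hom_C _ _ r, fun k => eval₂Hom_X' _ _ k⟩

variable {cf} in
theorem j_ext {φ φ' : JB cf →+* D} (h : φ.comp (algebraMap R _) = φ'.comp (algebraMap R _))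
    (h' : ∀ v, φ (je cf v) = φ' (je cf v)) : φ = φ' :=
  Ideal.Quotient.ringHom_ext (MvPolynomial.ringHom_ext (RingHom.congr_fun h) h')

end rings

variable {X U : Scheme.{0}} {f : X ⟶ Spec (.of R)} {z : κ → (X ⟶ P1)} {cf : MI e → R}
  {σ : κ → Fin 2}

/-- `g` is the chart `σ`. -/
def IsCh (f : X ⟶ Spec (.of R)) (z : κ → (X ⟶ P1)) (g : Spec (.of (Ch cf σ)) ⟶ X) : Prop :=
  g ≫ f = spc (algebraMap R _) ∧ ∀ k, g ≫ z k = pts (σ k) (ct cf σ k)

theorem IsCh.mem {g : Spec (.of (Ch cf σ)) ⟶ X} (h : IsCh f z g) (u) (k : κ) :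
    z k (g u) ∈ op1 (σ k) := by
  rw [← Scheme.Hom.comp_apply, h.2]; exact pts_mem _ _ _

theorem exists_ch (h : ZL f z cf) (σ : κ → Fin 2) : ∃ g : Spec (.of (Ch cf σ)) ⟶ X, IsCh f z g :=
  (h.mem _ _ _).2 (vanAt_pts.2 (ch_gen cf σ (.id _)))

omit [DecidableEq κ] in
theorem isOpen_ch (z : κ → (X ⟶ P1)) (σ : κ → Fin 2) : IsOpen {p | ∀ k, z k p ∈ op1 (σ k)} := by
  rw [Set.ofPred_forall]
  exact isOpen_iInter_of_finite fun k => (z k ⁻¹ᵁ op1 (σ k)).2

theorem IsCh.open (h : ZL f z cf) {g : Spec (.of (Ch cf σ)) ⟶ X} (hg : IsCh f z g) :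
    IsOpenImmersion g ∧ ∀ p, (∀ k, z k p ∈ op1 (σ k)) → p ∈ Set.range g := by
  refine open_of_pts g ⟨_, isOpen_ch z σ⟩ hg.mem (fun C _ x x' hx => ?_) fun C _ q hq => ?_
  · obtain ⟨φ, rfl⟩ := exists_spc x
    obtain ⟨φ', rfl⟩ := exists_spc x'
    refine congrArg spc (ch_ext (spc_inj ?_) fun k => pts_inj (i := σ k) ?_)
    · rw [← spc_spc, ← spc_spc, ← hg.1, reassoc_of% hx]
    · rw [← map_pts, ← map_pts, ← hg.2, reassoc_of% hx]
  · obtain ⟨τ, hτ⟩ := exists_spc (q ≫ f)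
    choose t ht using fun k => exists_pts (σ k) (q ≫ z k) fun p => hq p k
    obtain ⟨ψ, h1, h2⟩ := ch_lift τ t (vanAt_pts.1 ((h.mem _ _ _).1 ⟨q, hτ, ht⟩))
    exact ⟨spc ψ, h.inj _ _ _ (by rw [Category.assoc, hg.1, spc_spc, h1, hτ]) fun k => by
      rw [Category.assoc, hg.2, map_pts, h2, ht]⟩

theorem charts (h : ZL f z cf) : ∃ g : ∀ σ, Spec (.of (Ch cf σ)) ⟶ X,
    (∀ σ, IsCh f z (g σ) ∧ IsOpenImmersion (g σ)) ∧ ∀ p, ∃ σ, p ∈ Set.range (g σ) := by
  choose g hg using exists_ch h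
  refine ⟨g, fun σ => ⟨hg σ, ((hg σ).open h).1⟩, fun p => ?_⟩
  choose σ hσ using fun k => op1_cov (z k p)
  exact ⟨σ, ((hg σ).open h).2 p hσ⟩

theorem smooth (h : ZL f z cf) (hJ : ∀ (k : Type) [Field k] (ψ : R →+* k), JC (ψ ∘ cf)) :
    Smooth f := by
  obtain ⟨g, h1, h2⟩ := charts h
  refine IsZariskiLocalAtSource.of_openCover (.mkOfCovers _ _ g h2 fun σ => (h1 σ).2) fun σ => ?_
  have := smooth_aff cf hJ σ
  exact (h1 σ).1.1 ▸ (HasRingHomProperty.Spec_iff (P := @Smooth)).2 (RingHom.smooth_algebraMap.2 this)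

/-- The universal property of the chart ring. -/
structure UCh (cf : MI e → R) (σ : κ → Fin 2) (al : R →+* C) (tt : κ → C) : Prop where
  zero : ∀ a, gen (al ∘ cf) a (xv σ tt) = 0
  lift : ∀ (D : Type) [CommRing D] (τ : R →+* D) (t : κ → D), (∀ a, gen (τ ∘ cf) a (xv σ t) = 0) →
    ∃ ψ : C →+* D, ψ.comp al = τ ∧ ∀ k, ψ (tt k) = t k
  ext : ∀ (D : Type) [CommRing D] (ψ ψ' : C →+* D), ψ.comp al = ψ'.comp al →
    (∀ k, ψ (tt k) = ψ' (tt k)) → ψ = ψ'

/-- The universal property of the affine model. -/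
structure UJ (cf : MI e → R) (bl : R →+* C) (m : EV κ → C) : Prop where
  jp : JP m
  zero : ∀ a σ, gen (bl ∘ cf) a (col m σ) = 0
  lift : ∀ (D : Type) [CommRing D] (τ : R →+* D) (n : EV κ → D), JP n →
    (∀ a σ, gen (τ ∘ cf) a (col n σ) = 0) → ∃ φ : C →+* D, φ.comp bl = τ ∧ ∀ v, φ (m v) = n v
  ext : ∀ (D : Type) [CommRing D] (φ φ' : C →+* D), φ.comp bl = φ'.comp bl →
    (∀ v, φ (m v) = φ' (m v)) → φ = φ'

theorem uch (cf : MI e → R) (σ : κ → Fin 2) : UCh cf σ (algebraMap R _) (ct cf σ) :=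
  ⟨ch_gen cf σ (.id _), fun _ _ => ch_lift, fun _ _ _ _ => ch_ext⟩

theorem uj (cf : MI e → R) : UJ cf (algebraMap R _) (je cf) :=
  ⟨jp_je cf, fun a σ => gen_je cf σ a, fun _ _ τ _ => j_lift τ, fun _ _ _ _ => j_ext⟩

/-- Over a chart the affine model is an affine space. -/
theorem jsq {A B : Type} [CommRing A] [CommRing B] {al : R →+* A} {tt : κ → A} {bl : R →+* B}
    {n : EV κ → B} (hA : UCh cf σ al tt) (hB : UJ cf bl n)
    (inj : ∀ (D : Type) [CommRing D] (w w' : Spec (.of D) ⟶ X), w ≫ f = w' ≫ f →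
      (∀ k, w ≫ z k = w' ≫ z k) → w = w') {ρ : Spec (.of B) ⟶ X} (h1 : ρ ≫ f = spc bl)
    (h2 : Ad n fun k => ρ ≫ z k) (c₀ : U ⟶ X) [Mono c₀] (h3 : ∀ u k, z k (c₀ u) ∈ op1 (σ k))
    {g : Spec (.of A) ⟶ U} (g1 : g ≫ c₀ ≫ f = spc al) (g2 : ∀ k, g ≫ c₀ ≫ z k = pts (σ k) (tt k)) :
    ∃ w, IsPullback w (spc (algebraMap A (MvPolynomial κ A)) ≫ g) ρ c₀ := by
  let ι := algebraMap A (MvPolynomial κ A)
  let s : κ → Fin 2 → MvPolynomial κ A := fun k b =>
    if b = σ k then 1 - ι (tt k) * MvPolynomial.X k else MvPolynomial.X k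
  let m : EV κ → _ := fun v => vc (σ v.1) (ι (tt v.1)) v.2.1 * s v.1 v.2.2
  have hm : JP m := fun k => ⟨by
    simp only [m, s, vc]
    generalize σ k = i
    fin_cases i <;> simp, by simp only [m]; ring⟩
  obtain ⟨φ, p1, p2⟩ := hB.lift _ (ι.comp al) m hm fun a σ' =>
    (gen_scale _ a (xv σ (ι ∘ tt)) fun k => s k (σ' k)).trans (by
      rw [← map_xv, RingHom.coe_comp, Function.comp_assoc, ← map_gen, hA.zero, map_zero, zero_mul])
  have am := ad_map h2 φ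
  rw [show φ ∘ n = m from funext p2] at am
  refine ⟨spc φ, isPullback_of_pts (inj _ _ _ ?_ fun k => ?_) fun C _ x y hxy => ?_⟩
  · simp only [Category.assoc, h1, g1, spc_spc, p1, ι]
  · simp only [Category.assoc, g2, map_pts]
    exact congrFun (ad_unique hm (y' := fun k => pts (σ k) (ι (tt k))) am
      fun k j => coA_pts (σ k) _ (s k j)) k
  obtain ⟨ψ, rfl⟩ := exists_spc x
  choose t ht using fun k => exists_pts (σ k) (y ≫ c₀ ≫ z k) fun p => h3 _ k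
  have an := ad_map h2 ψ
  simp only [reassoc_of% hxy, ht] at an
  have hj : JP (ψ ∘ n) := fun k => ⟨by simpa using congrArg ψ (hB.jp k).1,
    by simpa using congrArg ψ (hB.jp k).2⟩
  obtain ⟨χ, q1, q2⟩ := hA.lift _ (ψ.comp bl) t (vanAt_pts.1
    (vanAt_of_ad hj an fun a σ' => (map_gen ψ _ a _).symm.trans
      ((congrArg ψ (hB.zero a σ')).trans ψ.map_zero)))
  have key := fun k => ad_pts (m := fun a b => ψ (n (k, a, b))) (hj k).1 (hj k).2 (an k)
  have hy : spc χ ≫ g = y := by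
    rw [← cancel_mono c₀]
    refine inj _ _ _ ?_ fun k => ?_
    · rw [← hxy]
      simp only [Category.assoc, g1, h1, spc_spc, q1]
    · simp only [Category.assoc, g2, map_pts, q2, ht]
  have mono : ∀ χ' : A →+* C, spc χ' ≫ g = y → χ' = χ := fun χ' h =>
    hA.ext _ _ _ (spc_inj (by rw [← spc_spc, ← spc_spc, ← g1, reassoc_of% h, reassoc_of% hy]))
      fun k => pts_inj (i := σ k) (by rw [← map_pts, ← map_pts, ← g2, reassoc_of% h, reassoc_of% hy])
  let θ := eval₂Hom χ fun k => ψ (n (k, σ k, (σ k).rev))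
  have hθ : θ.comp ι = χ := RingHom.ext fun r => eval₂Hom_C _ _ r
  refine ⟨spc θ, ⟨(spc_spc _ _).trans (congrArg spc (hB.ext _ _ _ ?_ fun ⟨k, a, b⟩ => ?_)), ?_⟩,
    fun p ⟨r1, r2⟩ => ?_⟩
  · rw [RingHom.comp_assoc, p1, ← RingHom.comp_assoc, hθ, q1]
  · have e1 : θ (ι (tt k)) = t k := (RingHom.congr_fun hθ _).trans (q2 k)
    have e2 : θ (MvPolynomial.X k) = _ := eval₂Hom_X' _ _ k
    have e3 := (hj k).1
    have e4 := key k (σ k).rev (σ k).rev
    rw [RingHom.comp_apply, p2, key, map_mul, map_vc, e1]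
    congr 1
    simp only [s, apply_ite θ, map_sub, map_mul, map_one, e1, e2]
    generalize σ k = i at e4 ⊢
    fin_cases i <;> fin_cases b <;> simp [vc] at e3 e4 ⊢ <;> grind
  · rw [← Category.assoc, spc_spc, hθ, hy]
  · obtain ⟨θ', rfl⟩ := exists_spc p
    rw [← Category.assoc, spc_spc] at r2
    refine congrArg spc (MvPolynomial.ringHom_ext
      (RingHom.congr_fun ((mono _ r2).trans hθ.symm)) fun k => ?_)
    rw [eval₂Hom_X', ← spc_inj ((spc_spc _ _).symm.trans r1), RingHom.comp_apply, p2]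
    have : (σ k).rev ≠ σ k := by generalize σ k = i; revert i; decide
    simp [m, s, vc, this]

theorem affB (h : ZL f z cf) {bl : R →+* C} {n : EV κ → C} (hB : UJ cf bl n) {ρ : Spec (.of C) ⟶ X}
    (h1 : ρ ≫ f = spc bl) (h2 : Ad n fun k => ρ ≫ z k) : GG.AffB ρ := fun p => by
  obtain ⟨g, h3, h4⟩ := charts h
  obtain ⟨σ, hp⟩ := h4 p
  have := (h3 σ).2
  obtain ⟨w, hw⟩ := jsq (uch cf σ) hB h.inj h1 h2 (g σ) (h3 σ).1.mem (g := 𝟙 _)
    ((Category.id_comp _).trans (h3 σ).1.1) fun k => (Category.id_comp _).trans ((h3 σ).1.2 k)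
  exact ⟨_, _, g σ, κ, inferInstance, w, this, hp, by rwa [Category.comp_id] at hw⟩

/-- The map from the affine model. -/
theorem exists_rho (h : ZL f z cf) : ∃ ρ : Spec (.of (JB cf)) ⟶ X,
    ρ ≫ f = spc (algebraMap R _) ∧ (Ad (je cf) fun k => ρ ≫ z k) ∧ GG.AffB ρ := by
  obtain ⟨y, hy⟩ := exists_ad (jp_je cf)
  obtain ⟨ρ, h1, h2⟩ := (h.mem _ _ y).2 (vanAt_of_ad (jp_je cf) hy fun a σ => gen_je cf σ a)
  have h3 : Ad (je cf) fun k => ρ ≫ z k := funext h2 ▸ hy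
  exact ⟨ρ, h1, h3, affB h (uj cf) h1 h3⟩

theorem zl_bc (h : ZL f z cf) {X' : Scheme.{0}} {a : X' ⟶ X} {f' : X' ⟶ Spec (.of C)}
    {ψ : R →+* C} (H : IsPullback a f' f (spc ψ)) : ZL f' (fun k => a ≫ z k) (ψ ∘ cf) := by
  refine ⟨fun D _ w w' h1 h2 => H.hom_ext (h.inj _ _ _ ?_ ?_) h1, fun D _ τ y => ?_⟩
  · rw [Category.assoc, Category.assoc, H.w, reassoc_of% h1]
  · simpa using h2
  refine Iff.trans ⟨?_, ?_⟩ (h.mem D (τ.comp ψ) y)
  · rintro ⟨w, h1, h2⟩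
    exact ⟨w ≫ a, by rw [Category.assoc, H.w, reassoc_of% h1, spc_spc], by simpa using h2⟩
  · rintro ⟨w, h1, h2⟩
    exact ⟨H.lift w (spc τ) (by rw [h1, spc_spc]), by simp, by simpa using h2⟩

theorem zl_pb (h : ZL f z cf) {X' : Scheme.{0}} {f' : X' ⟶ Spec (.of C)} {z' : κ → (X' ⟶ P1)}
    {ψ : R →+* C} (h' : ZL f' z' (ψ ∘ cf)) :
    ∃ a : X' ⟶ X, IsPullback a f' f (spc ψ) ∧ ∀ k, a ≫ z k = z' k := by
  have ex : ∀ (D : Type) [CommRing D] (w' : Spec (.of D) ⟶ X'), ∃ w : Spec (.of D) ⟶ X,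
      w ≫ f = w' ≫ f' ≫ spc ψ ∧ ∀ k, w ≫ z k = w' ≫ z' k := fun D _ w' => by
    obtain ⟨τ, hτ⟩ := exists_spc (w' ≫ f')
    rw [reassoc_of% hτ, spc_spc]
    exact (h.mem D (τ.comp ψ) _).2 ((h'.mem D τ _).1 ⟨w', hτ, fun _ => rfl⟩)
  obtain ⟨a, ha⟩ := glue (fun D _ w' w => w ≫ f = w' ≫ f' ≫ spc ψ ∧ ∀ k, w ≫ z k = w' ≫ z' k)
    (fun D _ w' w w₁ p q => h.inj _ _ _ (p.1.trans q.1.symm) fun k => (p.2 k).trans (q.2 k).symm)
    (fun D D' _ _ φ w' w p => by simp only [Category.assoc, p.1, p.2, implies_true, and_self])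
    fun p => by
      obtain ⟨i, q, hq⟩ := X'.affineCover.exists_eq p
      obtain ⟨w, hw⟩ := ex _ (X'.affineOpenCover.f i)
      exact ⟨_, _, _, w, inferInstance, ⟨q, hq⟩, hw⟩
  have h1 : a ≫ f = f' ≫ spc ψ := ext_pts fun D _ w' =>
    let ⟨w, hw⟩ := ex D w'; by rw [← Category.assoc, ha _ _ _ hw, hw.1]
  have h2 : ∀ k, a ≫ z k = z' k := fun k => ext_pts fun D _ w' =>
    let ⟨w, hw⟩ := ex D w'; by rw [← Category.assoc, ha _ _ _ hw, hw.2]
  refine ⟨a, isPullback_of_pts h1 fun D _ x y hxy => ?_, h2⟩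
  obtain ⟨τ, rfl⟩ := exists_spc y
  obtain ⟨w, p, q⟩ := (h'.mem D τ _).2
    ((h.mem D (τ.comp ψ) _).1 ⟨x, hxy.trans (spc_spc _ _), fun _ => rfl⟩)
  refine ⟨w, ⟨h.inj _ _ _ ?_ fun k => ?_, p⟩, fun w' r => h'.inj _ _ _ (r.2.trans p.symm) fun k => ?_⟩
  · rw [Category.assoc, h1, reassoc_of% p, hxy]
  · rw [Category.assoc, h2, q]
  · rw [q, ← h2, reassoc_of% r.1]

/-- The zero locus of no equations is a tower. -/
theorem exists_tower (κ R : Type) [Fintype κ] [DecidableEq κ] [CommRing R] :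
    ∃ (P : Scheme.{0}) (π : P ⟶ Spec (.of R)) (z : κ → (P ⟶ P1)),
      E.D.TwN (Fintype.card κ) π ∧ IsProper π ∧ ZL π z (noEq κ R) := by
  obtain ⟨P, π, z, h1, h2, h3⟩ := exists_prod κ (Spec (.of R))
  exact ⟨P, π, z, Nat.card_eq_fintype_card (α := κ) ▸ h1, h2,
    fun D _ w w' e e' => (h3 _ _ _).unique ⟨e, e'⟩ ⟨rfl, fun _ => rfl⟩,
    fun D _ τ y => iff_of_true (h3 _ _ y).exists fun _ _ _ _ _ a => a.elim0⟩

/-- The zero locus exists and is proper. -/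
theorem exists_zl (cf : MI e → R) : ∃ (X : Scheme.{0}) (f : X ⟶ Spec (.of R)) (z : κ → (X ⟶ P1)),
    IsProper f ∧ ZL f z cf := by
  obtain ⟨P, π, z, -, hπ, h⟩ := exists_tower κ R
  obtain ⟨y₀, hy₀⟩ := exists_ad (jp_je cf)
  obtain ⟨ρ, h1, h2⟩ := (h.mem _ (algebraMap R (JB cf)) y₀).2 fun _ _ _ _ _ a => a.elim0
  have : QuasiCompact (ρ ≫ π) := h1 ▸ inferInstance
  have : QuasiCompact ρ := .of_comp ρ π
  obtain ⟨c₀, h3, -⟩ := charts h
  have key : ∀ σ, ∃ (g : Spec (.of (Ch cf σ)) ⟶ _) (j : _ ⟶ ρ.image), IsCh π z (g ≫ c₀ σ) ∧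
      IsPullback g j (c₀ σ) ρ.imageι := fun σ => by
    have := (h3 σ).2
    obtain ⟨ψ, p1, p2⟩ := ch_lift (cf := noEq κ R) (σ := σ) (algebraMap R (Ch cf σ)) (ct cf σ)
      fun a => a.elim0
    have hg : IsCh π z (spc ψ ≫ c₀ σ) := ⟨by rw [Category.assoc, (h3 σ).1.1, spc_spc, p1],
      fun k => by rw [Category.assoc, (h3 σ).1.2, map_pts, p2]⟩
    have : IsClosedImmersion (spc ψ) := .spec_of_surjective _ fun x => by
      obtain ⟨x, rfl⟩ := Ideal.Quotient.mk_surjective x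
      exact ⟨Ideal.Quotient.mk _ x, RingHom.congr_fun (MvPolynomial.ringHom_ext
        (f := ψ.comp (Ideal.Quotient.mk _)) (g := Ideal.Quotient.mk _) (RingHom.congr_fun p1) p2) x⟩
    obtain ⟨w, hw⟩ := jsq (uch cf σ) (uj cf) h.inj h1 (funext h2 ▸ hy₀) (c₀ σ) (h3 σ).1.mem
      ((Category.assoc ..).symm.trans hg.1) fun k => (Category.assoc ..).symm.trans (hg.2 k)
    exact ⟨_, _, hg, image_chart ρ _ _ (s := spc constantCoeff) ((spc_spc _ _).trans
      ((congrArg spc (RingHom.ext fun r => constantCoeff_C _ r)).trans (Spec.map_id _))) hw⟩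
  choose g j hg hj using key
  refine ⟨ρ.image, ρ.imageι ≫ π, fun k => ρ.imageι ≫ z k, inferInstance, fun D _ w w' e e' => ?_,
    fun D _ τ y => ⟨?_, fun hv => ?_⟩⟩
  · rw [← cancel_mono ρ.imageι]
    exact h.inj _ _ _ (by simpa using e) (by simpa using e')
  · rintro ⟨w, e, e'⟩
    refine vanAt_of_loc fun D' _ _ ψ σ t ht => ?_
    obtain ⟨χ₀, p1, p2⟩ := ch_lift (cf := noEq κ R) (σ := σ) (ψ.comp τ) t fun a => a.elim0
    have E : spc χ₀ ≫ c₀ σ = (spc ψ ≫ w) ≫ ρ.imageι := h.inj _ _ _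
      (by simp only [Category.assoc, (h3 σ).1.1, e, spc_spc, p1]) fun k => by
        simp only [Category.assoc, (h3 σ).1.2, e', map_pts, p2, ht]
    obtain ⟨χ, hχ⟩ := exists_spc ((hj σ).lift _ _ E)
    have E' : spc χ ≫ g σ ≫ c₀ σ = spc χ₀ ≫ c₀ σ := by rw [← hχ, (hj σ).lift_fst_assoc]
    have q1 : χ.comp (algebraMap R _) = ψ.comp τ := spc_inj (by
      rw [← spc_spc, ← (hg σ).1, Category.assoc, reassoc_of% E', (h3 σ).1.1, spc_spc, p1])
    have q2 : (fun k => χ (ct cf σ k)) = t := funext fun k => pts_inj (i := σ k) (by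
      rw [← map_pts, ← (hg σ).2, Category.assoc, reassoc_of% E', (h3 σ).1.2, map_pts, p2])
    simpa only [q1, q2] using! ch_gen cf σ χ
  obtain ⟨v, e, e'⟩ := (h.mem D τ y).2 fun _ _ _ _ _ a => a.elim0
  have loc : ∀ p : Spec (.of D), ∃ (C : Type) (_ : CommRing C) (x : Spec (.of C) ⟶ Spec (.of D))
      (w : Spec (.of C) ⟶ ρ.image), IsOpenImmersion x ∧ p ∈ Set.range x ∧
        w ≫ ρ.imageι = x ≫ v := fun p => by
    choose σ hσ using fun k => op1_cov (y k p)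
    let V : (Spec (.of D)).Opens := ⟨_, isOpen_ch y σ⟩
    obtain ⟨i, q, hq⟩ := V.toScheme.affineCover.exists_eq ⟨p, hσ⟩
    obtain ⟨ψ, hψ⟩ := exists_spc (V.toScheme.affineOpenCover.f i ≫ V.ι)
    choose t ht using fun k => exists_pts (σ k) (spc ψ ≫ y k) fun p => by
      rw [← hψ]; exact (V.toScheme.affineOpenCover.f i p).2 k
    have hv' := vanAt_map hv ψ
    simp only [ht] at hv'
    obtain ⟨χ, p1, p2⟩ := ch_lift (cf := cf) (ψ.comp τ) t (vanAt_pts.1 hv')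
    refine ⟨_, _, spc ψ, spc χ ≫ j σ, hψ ▸ inferInstance, ⟨q, hψ ▸ congrArg Subtype.val hq⟩, ?_⟩
    rw [Category.assoc, ← (hj σ).w]
    exact h.inj _ _ _ (by rw [Category.assoc, (hg σ).1, Category.assoc, e, spc_spc, spc_spc, p1])
      fun k => by rw [Category.assoc, (hg σ).2, Category.assoc, e', map_pts, p2, ht]
  obtain ⟨W, hW⟩ := glue (fun C _ x w => w ≫ ρ.imageι = x ≫ v)
    (fun C _ x w w' a b => (cancel_mono ρ.imageι).1 (a.trans b.symm))
    (fun C C' _ _ φ x w a => by rw [Category.assoc, a, Category.assoc]) loc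
  have hv : W ≫ ρ.imageι = v := ext_cov fun p =>
    let ⟨C, _, x, w, a, b, d⟩ := loc p
    ⟨C, _, x, a, b, by rw [← Category.assoc, hW _ _ _ d, d]⟩
  exact ⟨W, by rw [reassoc_of% hv, e], fun k => by rw [reassoc_of% hv, e']⟩

end Pool.Agent.MP_855f4c_ag.T.ZP

namespace Pool.Agent.MP_855f4c_ag.T

open ZP

theorem zlx : ZLX_s := fun _ _ _ _ _ _ _ cf => exists_zl cf

theorem zlb : ZLB_s := fun _ _ _ _ _ _ _ _ _ _ _ _ _ _ _ _ h =>
  ⟨fun _ H => zl_bc h H, fun _ h' => zl_pb h h'⟩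

theorem zsm : ZSM_s := fun _ _ _ _ _ _ _ _ _ _ _ => smooth

theorem zad : ZAD_s := fun _ _ _ _ _ _ h =>
  ⟨let ⟨y, hy⟩ := exists_ad h; ⟨y, hy, fun _ h' => ad_unique h h' hy⟩,
    fun _ _ _ _ => vanAt_of_ad h⟩

theorem zju : ZJU_s := fun _ _ _ _ _ _ _ _ _ _ _ => exists_rho

end Pool.Agent.MP_855f4c_ag.T

end
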