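import Pool.Agent.MP_855f4c_ag.TC.Tf
import Pool.Agent.MP_855f4c_ag.TC.Th
import Pool.Agent.MP_855f4c_ag.TC.Ti
import Pool.Agent.MP_855f4c_ag.TC.Tb

section

/-! h12g section M: the main argument. -/

set_option autoImplicit false
set_option backward.isDefEq.respectTransparency false

open CategoryTheory Limits Abelian Opposite AlgebraicGeometry TensorProduct MvPolynomial Function

namespace Pool.Agent.MP_855f4c_ag.T

open E E3 E4 LP

attribute [local instance] MvPolynomial.gradedAlgebra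

lemma jp_je {κ : Type} [Fintype κ] [DecidableEq κ] {c : ℕ} {e : Fin c → κ → ℕ} {A : Type}
    [CommRing A] (cf : MI e → A) : JP (je cf) := fun k =>
  ⟨by
    have : Ideal.Quotient.mk (JI cf) (X (k, 0, 0) + X (k, 1, 1) - 1) = 0 :=
      Ideal.Quotient.eq_zero_iff_mem.2 (Ideal.subset_span (.inl (.inl ⟨k, rfl⟩)))
    rw [map_sub, map_add, map_one] at this
    exact sub_eq_zero.1 this, by
    have : Ideal.Quotient.mk (JI cf) (X (k, 0, 0) * X (k, 1, 1) - X (k, 0, 1) * X (k, 1, 0)) = 0 :=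
      Ideal.Quotient.eq_zero_iff_mem.2 (Ideal.subset_span (.inl (.inr ⟨k, rfl⟩)))
    rw [map_sub, map_mul, map_mul] at this
    exact sub_eq_zero.1 this⟩

namespace Mglue

/-- The conclusion. -/
def MG {R Ω : Type} [CommRing R] [Field Ω] [Algebra R Ω] {X : Scheme.{0}} (f : X ⟶ Spec (.of R))
    (l i Q : ℕ) (φ u : Ω ≃ₐ[R] Ω) : Prop := Mw Q i (E.gal f l i φ) (E.gal f l i u)

/-- The last clause of `YO_s`. -/
def YT {K Ω ν ρ : Type} [CommRing K] [CommRing Ω] [Fintype ν] (τ : K →+* Ω) {X : Scheme.{0}}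
    (f : X ⟶ Spec (.of K)) (g : ρ → MvPolynomial (ν × ν) K)
    (co : ∀ U : Over (fbr f (spc τ)).left, (ν → Γ(U.left, ⊤)) → Prop) : Prop :=
      ∀ (D : Type) [CommRing D] (ω : Ω →+* D) (z : ν × ν → D),
        (∀ j, eval₂ (ω.comp τ) z (g j) = 0) → YJ.RK z ∧
        ∃ r : Spec (.of D) ⟶ (fbr f (spc τ)).left, r ≫ pullback.fst _ _ = spc ω ∧
          (∀ (σ : Ω →+* Ω) (h : spc σ ≫ spc τ = spc τ) (θ : D →+* D), θ.comp ω = ω.comp σ →
            (∀ p, θ (z p) = z p) → spc θ ≫ r = r ≫ fa f σ h) ∧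
          ∀ (U : Over (Spec (.of D))) (v : ν → Γ(U.left, ⊤)),
            (∀ k, ∑ l, str U.hom (z (k, l)) * v l = v k) → copb r co U v

/-- `FAM_s` -/
def FAM : Prop := ∀ (p l : ℕ) [Fact p.Prime] [Fact l.Prime], l ≠ p →
  ∀ (κ : Type) [Fintype κ] [DecidableEq κ] (c : ℕ) (e : Fin c → κ → ℕ),
    ∃ Δ : MvPolynomial (MI e) ℤ, map (Int.castRingHom (ZMod p)) Δ ≠ 0 ∧ ∃ ρ : ℝ, ρ < 1 ∧
      ∃ (R : Type) (_ : CommRing R) (_ : Algebra.FiniteType ℤ R) (X : Scheme.{0})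
        (f : X ⟶ Spec (.of R)) (z : κ → (X ⟶ P1)) (cf : MI e → R), Smooth f ∧ IsProper f ∧
        ZL f z cf ∧ ∀ c' : MI e → PadicAlgCl p, (∀ i, ‖c' i‖ ≤ 1) → ρ < ‖aeval c' Δ‖ →
          ∃ _ : Algebra R (PadicAlgCl p), (∀ i, algebraMap R (PadicAlgCl p) (cf i) = c' i) ∧
            (∀ g : PadicAlgCl p →+* PadicAlgCl p, (∀ i, g (c' i) = c' i) →
              ∀ a, g (algebraMap R _ a) = algebraMap R _ a) ∧
            ∀ (i : ℕ) (φ u : PadicAlgCl p ≃ₐ[R] PadicAlgCl p) (Q : ℕ), 1 < Q →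
              Frob ℤ_[p] Q φ → Frob ℤ_[p] 1 u →
              (∃ (n : ℕ) (r : PadicAlgCl p) (o : ℤ_[p]), r ^ l ^ n = algebraMap _ _ o ∧ u r ≠ r) →
              MG f l i Q φ u

/-- `END_s` -/
def END : Prop := ∀ (l : ℕ) [Fact l.Prime] (K R Ω : Type) [Field K] [CommRing R]
  [Algebra.FiniteType ℤ R] [Field Ω] [IsAlgClosed Ω] [CharZero Ω] [Algebra K Ω] [Algebra R Ω]
  (X X' : Scheme.{0}) (f : X ⟶ Spec (.of K)) [Smooth f] [IsProper f] (f' : X' ⟶ Spec (.of R))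
  [IsProper f'] (d T k Q m M M' : ℕ) (φ u : Ω ≃ₐ[K] Ω) (φ' u' : Ω ≃ₐ[R] Ω) (ψ v : Ω →+* Ω)
  (hψ : spc ψ ≫ spc (algebraMap K Ω) = spc (algebraMap K Ω))
  (hv : spc v ≫ spc (algebraMap K Ω) = spc (algebraMap K Ω))
  (hψ' : spc ψ ≫ spc (algebraMap R Ω) = spc (algebraMap R Ω))
  (hv' : spc v ≫ spc (algebraMap R Ω) = spc (algebraMap R Ω)),
  D.Chart d f → IrreducibleSpace (fbr f (spc (algebraMap K Ω))).left → 1 < Q → 0 < m →
    k = 2 * T → M = (Q ^ m) ^ T → M' = 1 → (∀ z, ψ z = (φ ^ m) z) → (∀ z, v z = (u ^ m) z) →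
    (∀ z, ψ z = φ' z) → (∀ z, v z = u' z) → Tw l ψ (Q ^ m) →
    (∀ i : ℕ, MG f' l i (Q ^ m) φ' u') →
    ∀ ε : ∀ i, EE l (fbr f (spc (algebraMap K Ω))).left i →+ QZ l →+
        HH l (fbr f' (spc (algebraMap R Ω))).left (i + k),
      (∀ i α, ε i α = 0 → ∀ x, tau α x = 0) →
      (∀ i α x, hpb l (fa f' ψ hψ') _ (ε i α x) = M • ε i (epb l (fa f ψ hψ) i α) x) →
      (∀ i α x, hpb l (fa f' v hv') _ (ε i α x) = M' • ε i (epb l (fa f v hv) i α) x) →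
      ∀ i : ℕ, MG f l i Q φ u

/-- `YO_s` -/
def YO : Prop := ∀ (K Ω ν : Type) [Field K] [CommRing Ω] [Fintype ν] (τ : K →+* Ω)
  (X : Scheme.{0}) (f : X ⟶ Spec (.of K)) [Smooth f] (ι : X ⟶ Proj (homogeneousSubmodule ν K))
  [IsClosedImmersion ι],
    ι ≫ Proj.toSpecZero _ ≫ spc (algebraMap K (homogeneousSubmodule ν K 0)) = f →
    ∃ (n : ℕ) (g : Fin n → MvPolynomial (ν × ν) K)
      (co : ∀ U : Over (fbr f (spc τ)).left, (ν → Γ(U.left, ⊤)) → Prop), IsLin co ∧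
      Algebra.FormallySmooth K (MvPolynomial (ν × ν) K ⧸ Ideal.span (Set.range g)) ∧
      (∀ (L : Type) [Field L] [Algebra K L] (v μ : ν → L), ∑ i, μ i * v i = 1 →
        (∀ (G : MvPolynomial ν K) (n : ℕ), 0 < n → G.IsHomogeneous n →
          (∀ y, ι y ∉ Proj.basicOpen (homogeneousSubmodule ν K) G) → aeval v G = 0) →
        ∀ j, aeval (fun p : ν × ν => v p.1 * μ p.2) (g j) = 0) ∧
      YT τ f g co

theorem zl (hZ : ZLB_s) {κ : Type} [Fintype κ] [DecidableEq κ] {c : ℕ} {e : Fin c → κ → ℕ}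
    {R Ω : Type} [CommRing R] [Field Ω] [Algebra R Ω] {X : Scheme.{0}} {f : X ⟶ Spec (.of R)}
    {z : κ → (X ⟶ P1)} {cf : MI e → R} (h : ZL f z cf) {c' : MI e → Ω}
    (hc : ∀ i, algebraMap R Ω (cf i) = c' i) :
    ZL (X := (fbr f (spc (algebraMap R Ω))).left) (pullback.fst _ _)
      (fun k => pullback.snd _ _ ≫ z k) c' :=
  (funext hc : algebraMap R Ω ∘ cf = c') ▸ (hZ κ c _ R _ cf (algebraMap R Ω) X _ f z _ h).1 _
    (IsPullback.of_hasPullback (spc (algebraMap R Ω)) f).flip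

theorem fam (h : FAM_s) : FAM := h

theorem endq (h : END_s) : END := h

theorem yo (h : YO_s) : YO := h

end Mglue

theorem qq (hC : CHERN_s) (hP : P1L_s) (hY : YO_s) (hM : M0_s) (hF : FAM_s) (hO : OPR_s)
    (hH : HENS_s) (hN : NEWT_s) (hχ : CHI_s) (hZ : ZLB_s) (hS : SU_s) (hI : MID_s) (hE : EPS_s)
    (hU : NUMS_s) (hK : KPD_s) (hT : D.TWF_s) (hD : END_s) : Q_s := by
  classical
  intro p l _ _ hlp K _ _ X f _ d _ ν _ ι _ κ _ _ c e cf τ _ s n q m hι hirr hs hq H1 H2 i φ u Q hQ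
    hφ hu hr
  change Mglue.MG f l i Q φ u
  have hl : (l : PadicAlgCl p) ≠ 0 := Nat.cast_ne_zero.2 (Fact.out : l.Prime).ne_zero
  have hp : p ≠ 0 := (Fact.out : p.Prime).ne_zero
  have : Smooth f := SmoothOfRelativeDimension.smooth d f
  obtain ⟨Ch⟩ := hC l (PadicAlgCl p) hl
  obtain ⟨w, g, co, hco, g1, g2, g3⟩ := Mglue.yo hY K (PadicAlgCl p) ν (algebraMap K _) X f ι hι
  obtain ⟨r, hr'⟩ := hM p K (PadicAlgCl p) κ c e cf τ ν (Fin w) s n q m g hs hq g1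
    fun a a1 a2 a3 => ⟨(H1 a a1 a2 a3).1, fun lam h j =>
      g2 (PadicAlgCl p) (fun i => aeval a (q i)) lam h (fun G k _ h2 h3 =>
        (H1 a a1 a2 a3).2 G k h2 fun x => not_not.1 fun h4 => h3 x h4) j⟩
  obtain ⟨Δ, hΔ, ρ, hρ, R, _, _, Z, F, z, cu, -, _, zl, fam⟩ :=
    Mglue.fam hF p l hlp κ c fun a k => p ^ r * e a k
  obtain ⟨N, E, s', q', lam, hE1, w1, w2, w3, hM2⟩ := hr' Δ hΔ ρ hρ
  obtain ⟨k, O, σ, υ, hk, o1, o2, o3, o4, o5, o6, o7, o8, o9, t1, t2⟩ :=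
    hO p l hlp K φ u Q E hQ hφ hu hr hE1
  obtain ⟨c', hc', hM3⟩ := hM2 O o2 o4
  obtain ⟨_, r1, r2, mw⟩ := fam (fun j => c' j) (fun j => o1 _ (c' j).2) hc'
  obtain ⟨B, _, _, b1, b2, b3⟩ := hH (JB c') (Ideal.span {(p : JB c')})
  let _ : Algebra O B := ((algebraMap (JB c') B).comp (algebraMap O (JB c'))).toAlgebra
  have := IsScalarTower.of_algebraMap_eq (R := O) (S := JB c') (A := B) fun _ => rfl
  let C := Localization.Away (p : B)
  obtain ⟨χ, c1, c2⟩ := hχ p K O C o4 (by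
    simpa using IsLocalization.Away.algebraMap_isUnit (S := C) (p : B))
  obtain ⟨I, e₀, y, m1, m2, m3, m4⟩ := hM3 B C (algebraMap _ B) χ
    (by simpa [Ideal.map_span] using hN.1 B _ b2) c1
  have zl' := Mglue.zl hZ zl r1
  obtain ⟨t, s1, s2, s3, s4⟩ := hS p l O κ c _ c' B C _ _ _ hlp o1 o3 b1 b3 b2 zl'
  obtain ⟨W, π, a, tr, i1, i2⟩ := hI l K _ (algebraMap K _) Ch hP κ τ ν (Fin w) X f g co hco O C χ
    (algebraMap B C ∘ algebraMap _ B ∘ je c') _ _ _ s' q' lam I e₀ y Finset.univ.toList hl g1 g3 c2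
    (Twt.jp_map _ (Twt.jp_map _ (jp_je c'))) s2 w1 w2 (fun j => smul_neg (M := ℤ) _ m ▸ w3 j)
    (Finset.nodup_toList _) (fun _ => Finset.mem_toList.2 (Finset.mem_univ _)) m1 m2 m3 m4
  obtain ⟨-, k2, -, k4, -⟩ := hK l K _ (algebraMap K (PadicAlgCl p)) X f d (chart_of hT K X f d) hirr
  obtain ⟨ε, e1, e2⟩ := hE l _ Ch hP κ c _ _ _ W _ _ _ _ _ _ π a t _ _ _ d _ _ tr _ zl' s1
    (fun _ => rfl) s3 (by rw [List.map_map]; rfl) (by rw [List.map_map]; rfl) i1 k2 k4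
    (hU κ τ c e n m d (p ^ r) ((p ^ N : ℕ) : ℤ) _ _ (pow_ne_zero _ hp)
      (Nat.cast_ne_zero.2 (pow_ne_zero _ hp)) (Finset.nodup_toList _)
      (fun _ => Finset.mem_toList.2 (Finset.mem_univ _)) (List.reverse_perm _) H2)
  have fK (g : PadicAlgCl p ≃ₐ[O] PadicAlgCl p) (g' : PadicAlgCl p ≃ₐ[K] PadicAlgCl p)
      (h : ∀ x, g x = g' x) : spc (g : PadicAlgCl p →+* PadicAlgCl p) ≫
        spc (algebraMap K (PadicAlgCl p)) = spc (algebraMap K _) :=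
    (ZP.spc_spc _ _).trans (congrArg spc (RingHom.ext fun x => (h _).trans (g'.commutes x)))
  have fR (g : PadicAlgCl p ≃ₐ[O] PadicAlgCl p) (x : R) : g (algebraMap R _ x) = algebraMap R _ x :=
    r2 (g : PadicAlgCl p →+* PadicAlgCl p) (fun j => g.commutes (c' j)) x
  have fR' (g : PadicAlgCl p ≃ₐ[O] PadicAlgCl p) : spc (g : PadicAlgCl p →+* PadicAlgCl p) ≫
      spc (algebraMap R (PadicAlgCl p)) = spc (algebraMap R _) :=
    (ZP.spc_spc _ _).trans (congrArg spc (RingHom.ext (fR g)))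
  have key (g : PadicAlgCl p ≃ₐ[O] PadicAlgCl p) (h) (M : ℕ)
      (hg : Tw l (g : PadicAlgCl p →+* PadicAlgCl p) M) (j α x) :
      hpb l (fa F _ (fR' g)) _ (ε j α x) = (M ^ (Finset.univ : Finset τ).toList.length) •
        ε j (epb l (fa f (g : PadicAlgCl p →+* PadicAlgCl p) h) j α) x := by
    obtain ⟨gW, h1, h2⟩ := i2 g h M hg
    exact e2 _ gW _ _ _ (s4 g _ (pullback.lift_fst _ _ _) fun k => by
      rw [← Category.assoc]; exact congrArg (· ≫ z k) (pullback.lift_snd _ _ _)) h1 h2 j α x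
  exact Mglue.endq hD l K R _ X Z f F d _ _ Q k _ _ φ u (.ofRingEquiv (f := σ.toRingEquiv) (fR σ))
    (.ofRingEquiv (f := υ.toRingEquiv) (fR υ)) σ υ (fK σ _ o5) (fK υ _ o6) (fR' σ) (fR' υ)
    (chart_of hT K X f d) hirr hQ hk (by rw [List.length_map]) rfl (one_pow _) o5 o6 (fun _ => rfl)
    (fun _ => rfl) t1 (fun j => mw j _ _ _ (Nat.one_lt_pow hk.ne' hQ) o7 o8 o9) ε e1
    (key σ _ _ t1) (key υ _ _ t2) i

end Pool.Agent.MP_855f4c_ag.T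

end
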