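import Pool.Agent.MP_855f4c_ag.TC.Te
import Pool.Agent.MP_855f4c_ag.EC.M3a
import Pool.Agent.MP_855f4c_ag.EC.F2b
import Pool.Agent.MP_855f4c_ag.TC.Tg
import Pool.Agent.MP_855f4c_ag.TC.Tf
import Pool.Agent.MP_855f4c_ag.EC.Ce
import Pool.Agent.MP_855f4c_ag.EC.Cf
import Pool.Agent.MP_855f4c_ag.EC.Dg
import Pool.Agent.MP_855f4c_ag.TC.Tc
import Pool.Agent.MP_855f4c_ag.EC.Xb
import Pool.Agent.MP_855f4c_ag.EC.F2e
import Pool.Agent.MP_855f4c_ag.TC.Td
import Pool.Agent.MP_855f4c_ag.EC.F2d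
import Pool.Agent.MP_855f4c_ag.TC.Tb

section

/-! The sequence `ℤ → ℤ[1/l] → ℚ_l/ℤ_l`. -/

set_option autoImplicit false
set_option backward.isDefEq.respectTransparency false

open CategoryTheory Limits Abelian Opposite AlgebraicGeometry Polynomial

namespace Pool.Agent.MP_855f4c_ag.T.Ne

open E E3 E4 Function

variable (l : ℕ) [Fact l.Prime]

lemma pow_ne (n : ℕ) : (l : ℚ_[l]) ^ n ≠ 0 :=
  pow_ne_zero n (Nat.cast_ne_zero.2 (Fact.out : l.Prime).ne_zero)

/-- `ℤ[1/l]`. -/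
def ZI : AddSubgroup ℚ_[l] where
  carrier := {x | ∃ (n : ℕ) (a : ℤ), (l : ℚ_[l]) ^ n * x = a}
  zero_mem' := ⟨0, 0, by simp⟩
  add_mem' := by
    rintro x y ⟨n, a, h⟩ ⟨m, b, h'⟩
    exact ⟨n + m, l ^ m * a + l ^ n * b, by push_cast; rw [← h, ← h']; ring⟩
  neg_mem' := by
    rintro x ⟨n, a, h⟩
    exact ⟨n, -a, by push_cast; rw [← h]; ring⟩

/-- `ℤ → ℤ[1/l] → ℚ_l/ℤ_l`. -/
noncomputable def zS : ShortComplex Ab.{0} :=
  ShortComplex.mk (X₁ := .of ℤ) (X₂ := .of (ZI l)) (X₃ := .of (QZ l))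
    (AddCommGrpCat.ofHom ((Int.castAddHom ℚ_[l]).codRestrict _ fun a => ⟨0, a, by simp⟩))
    (AddCommGrpCat.ofHom ((QuotientAddGroup.mk' _).comp (ZI l).subtype))
    (AddCommGrpCat.hom_ext (AddMonoidHom.ext fun a =>
      (QuotientAddGroup.eq_zero_iff _).2 (Padic.norm_int_le_one a)))

theorem zS_exact : (zS l).ShortExact where
  exact := (zS l).ab_exact_iff.2 fun ⟨x, n, a, h⟩ hx => by
    have h1 : ‖x‖ ≤ 1 := (QuotientAddGroup.eq_zero_iff _).1 hx
    obtain ⟨b, rfl⟩ : ((l : ℤ) ^ n) ∣ a := by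
      rw [← Padic.norm_int_le_pow_iff_dvd, ← h, norm_mul, Padic.norm_p_pow]
      exact mul_le_of_le_one_right (by positivity) h1
    refine ⟨b, Subtype.ext (mul_left_cancel₀ (pow_ne l n) ?_)⟩
    rw [h]
    push_cast
    rfl
  mono_f := (AddCommGrpCat.mono_iff_injective _).2 fun a b h =>
    Int.cast_injective (α := ℚ_[l]) (congrArg Subtype.val h)
  epi_g := (AddCommGrpCat.epi_iff_surjective _).2 fun y => by
    obtain ⟨n, hn⟩ := cof_QZ.1 y
    obtain ⟨x, rfl⟩ := QuotientAddGroup.mk_surjective y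
    rw [← QuotientAddGroup.mk_nsmul, QuotientAddGroup.eq_zero_iff] at hn
    obtain ⟨w, hw⟩ := Ideal.mem_span_singleton'.1 (PadicInt.appr_spec n ⟨l ^ n • x, hn⟩)
    have h1 := congrArg (fun z : ℤ_[l] => (z : ℚ_[l])) hw
    set a := PadicInt.appr (⟨l ^ n • x, hn⟩ : ℤ_[l]) n
    simp only [PadicInt.coe_mul, PadicInt.coe_pow, PadicInt.coe_natCast, PadicInt.coe_sub,
      nsmul_eq_mul, Nat.cast_pow] at h1
    refine ⟨⟨x - w, n, a, by push_cast; linear_combination -h1⟩, QuotientAddGroup.eq.2 ?_⟩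
    change ‖-(x - w) + x‖ ≤ 1
    simpa using w.2

instance : IsIso (l • 𝟙 (zS l).X₂) := (ConcreteCategory.isIso_iff_bijective _).2
  ⟨fun x y h => Subtype.ext (mul_left_cancel₀ (pow_ne l 1) (by
    have : l • x.1 = l • y.1 := congrArg Subtype.val h
    rwa [pow_one, ← nsmul_eq_mul, ← nsmul_eq_mul])), fun ⟨x, n, a, h⟩ =>
    ⟨⟨x / l, n + 1, a, by rw [← h, pow_succ, mul_assoc, mul_div_cancel₀ _ (by simpa using pow_ne l 1)]⟩,
      Subtype.ext (by
        change l • (x / l) = x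
        rw [nsmul_eq_mul, mul_div_cancel₀ _ (by simpa using pow_ne l 1)])⟩⟩

variable (T : Scheme.{0})

/-- The sequence of constant sheaves; its ends are `Zs T` and `Linf l T`. -/
theorem zT_exact : ((zS l).map (con T)).ShortExact := (zS_exact l).map_of_exact _

instance : IsIso (l • 𝟙 ((zS l).map (con T)).X₂) := by
  have : IsIso ((con T).map (l • 𝟙 (zS l).X₂)) := inferInstance
  rwa [Functor.map_nsmul, CategoryTheory.Functor.map_id] at this

variable {T l}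

lemma ext_nsmul {A B : Sh (Scheme.etaleTopology.over T)} {q : ℕ} (n : ℕ) (x : Ext.{1} A B q) :
    pre (n • 𝟙 A) B q x = n • x ∧ post A (n • 𝟙 B) q x = n • x := by
  induction n with
  | zero => simp
  | succ n ih =>
    simp only [pre_apply, post_apply] at ih ⊢
    rw [succ_nsmul, succ_nsmul, succ_nsmul, Ext.mk₀_add, Ext.mk₀_add, Ext.add_comp, Ext.comp_add,
      ih.1, ih.2, Ext.mk₀_id_comp, Ext.comp_mk₀_id]
    exact ⟨rfl, rfl⟩

/-- A class that dies in `Ext(ℚ_l/ℤ_l, -)` is divisible. -/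
lemma div_of {G : Sh (Scheme.etaleTopology.over T)} {q : ℕ} (x : Ext.{1} (Zs T) G q)
    (h : dr (zT_exact l T) G q x = 0) : ∃ y, l • y = x := by
  obtain ⟨z, hz⟩ := ((con_les (zT_exact l T) G).e₃ q x).1 h
  obtain ⟨z, rfl⟩ := (pre_bij (l • 𝟙 ((zS l).map (con T)).X₂) G q).2 z
  exact ⟨_, ((map_nsmul _ l z).symm.trans (congrArg _ (ext_nsmul l z).1.symm)).trans hz⟩

end Pool.Agent.MP_855f4c_ag.T.Ne

end

section

/-! Row NEL: the class of `O(1)` on the projective line is not divisible by `l`. -/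

set_option autoImplicit false
set_option backward.isDefEq.respectTransparency false

open CategoryTheory Limits Abelian Opposite AlgebraicGeometry Polynomial

namespace Pool.Agent.MP_855f4c_ag.T

open E E3 E4 Function CV

attribute [local irreducible] Ext.comp Ext.mk₀ Ext.mapExactFunctor ShortComplex.ShortExact.extClass

namespace Ne

variable {T : Scheme.{0}}

lemma sec_empty (F : Sh (Scheme.etaleTopology.over T)) (U : Over T) (h : IsEmpty U.left) (s : sec F U) : s = 0 :=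
  sepP F.property s ⊥ (mem_Jov_of _ fun t => h.elim t) fun _ _ hy => hy.elim

lemma ez_bot (F : Sh (Scheme.etaleTopology.over T)) : (ezι ⊥).app F = 0 :=
  ObjectProperty.hom_ext _ (NatTrans.ext (funext fun _ => AddCommGrpCat.hom_ext
    (AddMonoidHom.ext fun s => sepP F.property s.1 _ s.2 fun Y _ hy =>
      hy.elim id fun h => sec_empty F Y ⟨fun t => h t⟩ _)))

lemma desc_bot {G : Sh (Scheme.etaleTopology.over T)} (φ : Zs T ⟶ G) : ∃ κ, πZ ⊥ ≫ κ = φ :=
  ⟨cokernel.desc _ φ (by rw [ez_bot, Limits.zero_comp]), cokernel.π_desc _ _ _⟩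

lemma exZ (F : Sh (Scheme.etaleTopology.over T)) (s : sec F (E.top T)) :
    ∃ κ : Zs T ⟶ F, ∀ (U : Over T) (u : U ⟶ E.top T), κ.hom.app (op U) (un U) = rsec u F s := by
  let φ : (Functor.const _).obj (AddCommGrpCat.of (ULift.{1} ℤ)) ⟶ F.obj :=
    { app U := AddCommGrpCat.ofHom ((zmultiplesHom _ (rsec (Over.mkIdTerminal.from U.unop) F s)).comp
        AddEquiv.ulift.toAddMonoidHom)
      naturality U U' g := by
        ext c
        change c.down • _ = F.obj.map g (c.down • _)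
        rw [map_zsmul]
        exact congrArg _ ((congrArg (fun a => rsec a F s) (Over.mkIdTerminal.hom_ext _ _)).trans
          (res_res F.obj g.unop _ s).symm) }
  refine ⟨⟨sheafifyLift _ φ F.property⟩, fun U u => ?_⟩
  rw [Over.mkIdTerminal.hom_ext u (Over.mkIdTerminal.from U)]
  exact congr(($(toSheafify_sheafifyLift (Scheme.etaleTopology.over T) φ F.property)).app (op U) (ULift.up 1)).trans
    (one_zsmul _)

lemma gs_res {𝒯 : Trv T} (γ : Coc 𝒯) {U' U : Over T} (w : U' ⟶ U) (a b : 𝒯.tr U) :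
    rsec w (Gm T) (gs (γ.g U a b)) = gs (γ.g U' (𝒯.res w a) (𝒯.res w b)) :=
  Gm_ext (γ.res w a b).symm

lemma gs_self {𝒯 : Trv T} (γ : Coc 𝒯) (U : Over T) (a : 𝒯.tr U) : gs (γ.g U a a) = 0 := by
  rw [mul_eq_left.1 (γ.mul U a a a)]
  rfl

lemma gs_neg {𝒯 : Trv T} (γ : Coc 𝒯) (U : Over T) (a b : 𝒯.tr U) :
    gs (γ.g U a b) = -gs (γ.g U b a) := by
  rw [eq_neg_iff_add_eq_zero, ← gs_self γ U a, ← γ.mul U a b a]
  rfl

section two
variable {𝒯 : Trv T} (γ : Coc 𝒯) {W U₁ U₂ : Over T} {w₁ : W ⟶ U₁} {w₂ : W ⟶ U₂}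
  {i₁ : U₁ ⟶ E.top T} {i₂ : U₂ ⟶ E.top T} (a₁ : 𝒯.tr U₁) (a₂ : 𝒯.tr U₂)
  [IsOpenImmersion U₁.hom] [IsOpenImmersion U₂.hom]
  (hc : ∀ t : T, t ∈ Set.range U₁.hom ∨ t ∈ Set.range U₂.hom)

lemma loc1 (V : Over T) [IsOpenImmersion V.hom] (U : Over T) (u : U.left)
    (h : U.hom u ∈ Set.range V.hom) : ∃ (W : Over T) (w : W ⟶ U), IsOpenImmersion w.left ∧
      u ∈ Set.range w.left ∧ Nonempty (W ⟶ V) :=
  ⟨Over.mk (pullback.fst U.hom V.hom ≫ U.hom), Over.homMk (pullback.fst U.hom V.hom) rfl,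
    inferInstanceAs (IsOpenImmersion (pullback.fst U.hom V.hom)),
    (pb_mem_range (IsPullback.of_hasPullback U.hom V.hom).flip u).2 h,
    ⟨Over.homMk (pullback.snd U.hom V.hom) pullback.condition.symm⟩⟩

/-- Maps to one of two charts. -/
def two : Trv T where
  tr U := (U ⟶ U₁) ⊕ (U ⟶ U₂)
  res w := Sum.map (w ≫ ·) (w ≫ ·)
  res_id U a := by cases a <;> simp
  res_comp v w a := by cases a <;> simp
  loc U u := (hc (U.hom u)).elim
    (fun h => (loc1 U₁ U u h).imp fun _ => Exists.imp fun _ h => ⟨h.1, h.2.1, h.2.2.map .inl⟩)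
    fun h => (loc1 U₂ U u h).imp fun _ => Exists.imp fun _ h => ⟨h.1, h.2.1, h.2.2.map .inr⟩

/-- The trivialisation on a chart. -/
def mm (U : Over T) : (two hc).tr U → 𝒯.tr U :=
  Sum.elim (fun u => 𝒯.res u a₁) fun u => 𝒯.res u a₂

lemma mm_res {U' U : Over T} (w : U' ⟶ U) (a : (two hc).tr U) :
    mm a₁ a₂ hc U' ((two hc).res w a) = 𝒯.res w (mm a₁ a₂ hc U a) := by
  cases a <;> exact 𝒯.res_comp _ _ _

/-- The cocycle on two charts. -/
def co2 : Coc (two hc) where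
  g U a b := γ.g U (mm a₁ a₂ hc U a) (mm a₁ a₂ hc U b)
  res w a b := by rw [mm_res, mm_res, γ.res]
  mul U _ _ _ := γ.mul U _ _ _

/-- The comparison. -/
def ch2 : CHom (𝟙 T) (co2 γ a₁ a₂ hc) γ where
  m U a := 𝒯.res (Over.homMk (𝟙 U.left) (by simp) : (Over.map (𝟙 T)).obj U ⟶ U) (mm a₁ a₂ hc U a)
  res w a := by
    rw [mm_res, ← 𝒯.res_comp, ← 𝒯.res_comp]
    congr 1
  g U a b := Units.ext ((γ.res (Over.homMk (𝟙 U.left) (by simp) : (Over.map (𝟙 T)).obj U ⟶ U)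
    _ _).trans (gam_id U.left _)).symm

lemma lam_two (Λ : Lam) (sq : IsPullback w₁ w₂ i₁ i₂) (hS : (mvS (Scheme.etaleTopology.over T) sq.w).ShortExact) :
    ∃ o : (fr (Scheme.etaleTopology.over T)).obj (E.top T) ⟶ ZU ⊥, pre o _ 1 (Λ.lam (co2 γ a₁ a₂ hc).sec0) =
      dr hS (Gm T) 0 (Ext.mk₀ ((frEquiv W _).symm (gs (γ.g W (𝒯.res w₂ a₂) (𝒯.res w₁ a₁))))) := by
  obtain ⟨κ₀, h₀⟩ := exZ ((fr (Scheme.etaleTopology.over T)).obj (E.top T)) (frEquiv _ _ (𝟙 _))
  obtain ⟨κ, hκ⟩ := desc_bot κ₀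
  have t : ∀ {U : Over T} (a b : U ⟶ E.top T), a = b := fun a b => Over.mkIdTerminal.hom_ext a b
  have m : ∀ (V : Over T) [IsOpenImmersion V.hom] {U : Over T} (a b : U ⟶ V), a = b :=
    fun V _ _ a b => Over.OverMorphism.ext ((cancel_mono V.hom).1 (by rw [Over.w, Over.w]))
  let B : ∀ U, (two hc).tr U → ((fr (Scheme.etaleTopology.over T)).obj U ⟶ (mvS (Scheme.etaleTopology.over T) sq.w).X₂) := fun U =>
    Sum.elim (fun u => (fr _).map u ≫ biprod.inl) fun u => (fr _).map u ≫ biprod.inr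
  have inj (U : Over T) := (have := hS.mono_f; sec_exact hS.exact U).1
  let ω : (mvS (Scheme.etaleTopology.over T) sq.w).X₁ ⟶ Gm T :=
    (frEquiv W _).symm (gs (γ.g W (𝒯.res w₂ a₂) (𝒯.res w₁ a₁)))
  have key (U : Over T) (u : U ⟶ U₁) (v : U ⟶ U₂) : ∃ x, (mvS (Scheme.etaleTopology.over T) sq.w).f.hom.app (op U) x =
      frEquiv U _ (B U (.inl u)) - frEquiv U _ (B U (.inr v)) ∧
      ω.hom.app (op U) x = gs (γ.g U (𝒯.res v a₂) (𝒯.res u a₁)) := by
    have e1 := sq.lift_fst u v (t _ _)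
    have e2 := sq.lift_snd u v (t _ _)
    refine ⟨frEquiv U _ ((fr _).map (sq.lift u v (t _ _))), ?_, ?_⟩
    · rw [← map_sub]
      refine (frEquiv_post _ _).symm.trans (congrArg _ ?_)
      refine biprod.hom_ext _ _ ?_ ?_ <;> simp [B, mvS, ← Functor.map_comp, e1, e2]
    · refine (frEquiv_post _ ω).symm.trans ((frEquiv_pre _ _).trans ?_)
      rw [AddEquiv.apply_symm_apply]
      refine (gs_res γ _ _ _).trans ?_
      rw [← 𝒯.res_comp, ← 𝒯.res_comp, e1, e2]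
  have H := Λ.recog (co2 γ a₁ a₂ hc).sec0 _ hS ω κ (fun U a => frEquiv U _ (B U a))
    (fun v a => by
      refine Eq.trans (congrArg _ ?_) (frEquiv_pre v _)
      cases a <;> simp [B, two])
    (fun U a => by
      rw [hκ]
      refine (frEquiv_post _ _).symm.trans (Eq.trans (congrArg _ ?_)
        ((frEquiv_pre (Over.mkIdTerminal.from U) _).trans (h₀ U _).symm))
      cases a <;> simp only [B, mvS, Sum.elim_inl, Sum.elim_inr, Category.assoc, biprod.inl_desc,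
        biprod.inr_desc, ← Functor.map_comp, Category.comp_id] <;> exact congrArg _ (t _ _))
    (fun U a b x hx => by
      rcases a with u | u <;> rcases b with v | v
      · rw [m U₁ u v, sub_self] at hx
        rw [m U₁ u v, inj U (hx.trans (map_zero _).symm), map_zero, gs_self]
      · obtain ⟨y, h1, h2⟩ := key U u v
        rw [inj U (hx.trans (((neg_sub _ _).symm.trans (congrArg _ h1.symm)).trans
          (map_neg _ _).symm)), map_neg, h2]
        exact (gs_neg γ U _ _).symm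
      · obtain ⟨y, h1, h2⟩ := key U v u
        rw [inj U (hx.trans h1.symm), h2]
        rfl
      · rw [m U₂ u v, sub_self] at hx
        rw [m U₂ u v, inj U (hx.trans (map_zero _).symm), map_zero, gs_self])
    fun U a h x _ => (sec_empty (Gm T) U ⟨fun u => h u⟩ _).trans
      (sec_empty (Gm T) U ⟨fun u => h u⟩ _).symm
  refine ⟨(frEquiv _ _).symm (un _) ≫ πZ ⊥, ?_⟩
  have e : ((frEquiv _ _).symm (un (E.top T)) ≫ πZ ⊥) ≫ κ = 𝟙 _ := (frEquiv _ _).injective (by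
    rw [Category.assoc, hκ, frEquiv_post, AddEquiv.apply_symm_apply, h₀ _ (𝟙 _)]
    exact res_id _ _)
  rw [H, pre_pre, e]
  exact pre_id _

include hc in
lemma div_two (Λ : Lam) (sq : IsPullback w₁ w₂ i₁ i₂) (hS : (mvS (Scheme.etaleTopology.over T) sq.w).ShortExact) {l : ℕ}
    {y} (h : Λ.lam γ.sec0 = l • y) : ∃ μ, l • μ =
      dr hS (Gm T) 0 (Ext.mk₀ ((frEquiv W _).symm (gs (γ.g W (𝒯.res w₂ a₂) (𝒯.res w₁ a₁))))) := by
  obtain ⟨o, ho⟩ := lam_two γ a₁ a₂ hc Λ sq hS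
  obtain ⟨a, ha⟩ := desc_bot ((zpb (𝟙 T)).inv ≫ (pbe (𝟙 T)).map (πZ ⊥))
  have := Λ.nat (𝟙 T) (co2 γ a₁ a₂ hc).sec0 γ.sec0 (ch2 γ a₁ a₂ hc) a bot_le ha fun _ _ => rfl
  rw [← ho, ← this, h, map_nsmul, map_nsmul, map_nsmul]
  exact ⟨_, rfl⟩

end two

lemma kum_dr {n : ℕ} (hn : Linv n T) {S : ShortComplex (Sh (Scheme.etaleTopology.over T))} (hS : S.ShortExact)
    (z : S.X₁ ⟶ Gm T) (μ : Ext.{1} S.X₃ (Gm T) 1) (h : n • μ = dr hS (Gm T) 0 (Ext.mk₀ z)) :
    dr hS (mu T n) 1 ((Ext.mk₀ z).comp (kummer hn).extClass (zero_add 1)) = 0 := by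
  have h1 : dl _ (kummer hn) 1 (n • μ) = 0 :=
    ((cov_les _ (kummer hn)).e₃ 1 _).2 ⟨μ, (congrArg (fun a => post _ a 1 μ)
      (natCast_zsmul (𝟙 (Gm T)) n)).trans (ext_nsmul n μ).2⟩
  rw [h] at h1
  exact (Ext.comp_assoc _ _ _ (add_comm 1 0) rfl (by omega)).symm.trans h1

open P1L CV.P1L

section line
variable {k : Type} [Field k] (L : PL (Spec (.of k))) (h : IsLin (co1 L.q))

/-- Coordinates on an affine chart. -/
noncomputable def crd {z : T ⟶ P1} (h : IsLin (co1 z)) {D : Type} [CommRing D]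
    (c : Spec (.of D) ⟶ T) (x y : Fin 2 → D) (h1 : CoA (c ≫ z) x) (h2 : Cov x y) :
    h.trv.tr (Over.mk c) :=
  ⟨(str (𝟙 _) ∘ x, str (𝟙 _) ∘ y), CoA.co1 (U := Over.mk c) h1 (𝟙 _) (Category.id_comp _).symm,
    cov_map (str (𝟙 _)) h2⟩

/-- Coordinates on the first chart. -/
noncomputable def a₁ : h.trv.tr (Over.mk (L.c₁ ≫ 𝟙 _)) :=
  crd h _ ![1, X] ![1, 0] (by rw [Category.comp_id, PL.pnt_q]; exact coA_pt1 _) (by simp [Cov])

/-- Coordinates on the second chart. -/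
noncomputable def a₂ : h.trv.tr (Over.mk (L.c₂ ≫ 𝟙 _)) :=
  crd h _ ![X, 1] ![0, 1] (by rw [Category.comp_id, PL.pnt_q]; exact coA_pt2 _) (by simp [Cov])

lemma coc_val {D : Type} [CommRing D] {w : Spec (.of D) ⟶ L.P} (ψ₁ ψ₂ : k[X] →+* D)
    (e₁ : spc ψ₁ ≫ L.c₁ ≫ 𝟙 _ = w) (e₂ : spc ψ₂ ≫ L.c₂ ≫ 𝟙 _ = w) :
    ((GmEquiv w (gs (h.coc.g (Over.mk w) (h.trv.res (sph ψ₂ e₂) (a₂ L h))
      (h.trv.res (sph ψ₁ e₁) (a₁ L h))))).toMul : D) = ψ₁ X := by
  have e (ψ : k[X] →+* D) (c : k[X]) :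
      (Scheme.ΓSpecIso (.of D)).hom.hom (gam (spc ψ) (str (𝟙 _) c)) = ψ c :=
    ev_str (spc ψ) (𝟙 _) ψ (Category.comp_id _) c
  refine (GmEquiv_val _ _).trans ((map_sum (Scheme.ΓSpecIso (.of D)).hom.hom (fun i : Fin 2 =>
    gam (spc ψ₂) (str (𝟙 _) ((![0, 1] : Fin 2 → k[X]) i)) *
      gam (spc ψ₁) (str (𝟙 _) ((![1, X] : Fin 2 → k[X]) i))) Finset.univ).trans ?_)
  simp only [map_mul, e]
  simp

end line

lemma kap_eq {n : ℕ} (hn : Linv n T) {A : Type} [CommRing A] (a : Spec (.of A) ⟶ T) (u : Aˣ)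
    (s : sec (Gm T) (Over.mk a)) (h : ((GmEquiv a s).toMul : A) = u) : CV.kap hn a u =
      (Ext.mk₀ ((frEquiv _ _).symm s)).comp (kummer hn).extClass (zero_add 1) := by
  obtain rfl : u = (GmEquiv a s).toMul := Units.ext h.symm
  exact (congrArg (kappa hn _) ((GmEquiv a).symm_apply_apply s)).trans (kappa_apply hn _ s)

theorem _root_.Pool.Agent.MP_855f4c_ag.T.nel (hK : KAP_s) (hP : PID_s) : NEL_s := by
  intro Λ l _ k _ _ hl L h y hy
  have hn : Linv l L.P := (Linv.spec (isUnit_iff_ne_zero.2 hl)).of_hom L.π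
  have : IsOpenImmersion (Over.mk (L.c₁ ≫ 𝟙 _)).hom := inferInstanceAs (IsOpenImmersion (_ ≫ _))
  have : IsOpenImmersion (Over.mk (L.c₂ ≫ 𝟙 _)).hom := inferInstanceAs (IsOpenImmersion (_ ≫ _))
  obtain ⟨μ, hμ⟩ := div_two h.coc (a₁ L h) (a₂ L h) (by simpa using L.cover) Λ (sq L (𝟙 _))
    (mv L (𝟙 _)) hy
  have h1 := kum_dr hn (mv L (𝟙 _)) _ μ hμ
  have h2 := ((fibre L (𝟙 _) hK hP (l := l) (m := 1) (by simp) hl hn _ rfl).2.2 1).1
    ((one_zsmul _).trans ((congrArg (dr (mv L (𝟙 _)) (mu L.P l) 1) (kap_eq hn _ (xu k) _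
      ((coc_val L h _ _ _ _).trans (toLaurent_X (R := k))))).trans h1))
  exact (Fact.out : l.Prime).one_lt.ne' (by exact_mod_cast Int.eq_one_of_dvd_one (by positivity) h2)

end Ne

end Pool.Agent.MP_855f4c_ag.T

end

section

/-! h12g section C: Chern classes exist. -/

set_option autoImplicit false

namespace Pool.Agent.MP_855f4c_ag.T

theorem chernAll : CHERN_s := fun l _ Ω _ _ hl =>
  chern lam bet rp tela (nel E.CV.kapR E.CV.pidA) l Ω hl

end Pool.Agent.MP_855f4c_ag.T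

end

section

/-! From `ℤ_p` to an arbitrary discrete valuation ring, for one scheme. -/

set_option autoImplicit false
set_option backward.isDefEq.respectTransparency false

open CategoryTheory Limits Abelian Opposite AlgebraicGeometry Function

namespace Pool.Agent.MP_855f4c_ag.T

open E E3 E4 LP M2 M3

theorem geno (hP : PBCX_s) (hE : EMB_s) (hI : ISO_s) (hX : EXT_s) (hF : FRB_s) {R : Type}
    [CommRing R] [IsNoetherianRing R] {X : Scheme.{0}} (f : X ⟶ Spec (.of R)) [IsProper f]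
    (O Ω : Type) [CommRing O] [IsDomain O] [IsDiscreteValuationRing O]
    [Finite (IsLocalRing.ResidueField O)] [Field Ω] [CharZero Ω] [IsAlgClosed Ω] [Algebra O Ω]
    [FaithfulSMul O Ω] [Algebra.IsAlgebraic O Ω] [Algebra R Ω] (l : ℕ) [Fact l.Prime]
    (ul : IsUnit (l : O)) (i : ℕ)
    (hM : ∀ (p : ℕ) [Fact p.Prime] [Algebra R (PadicAlgCl p)] (_ : Ω →ₐ[R] PadicAlgCl p), l ≠ p →
      ∀ (φ u : PadicAlgCl p ≃ₐ[R] PadicAlgCl p) (Q : ℕ), 1 < Q → Frob ℤ_[p] Q φ →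
        Frob ℤ_[p] 1 u →
        (∃ (n : ℕ) (r : PadicAlgCl p) (o : ℤ_[p]), r ^ l ^ n = algebraMap _ _ o ∧ u r ≠ r) →
        Mw Q i (E.gal f l i φ) (E.gal f l i u))
    (φ u : Ω ≃ₐ[R] Ω) (Q : ℕ) (hQ : 1 < Q) (hφ : Frob O Q φ) (hu : Frob O 1 u)
    (h : ∃ (n : ℕ) (r : Ω) (o : O), r ^ l ^ n = algebraMap O Ω o ∧ u r ≠ r) :
    Mw Q i (E.gal f l i φ) (E.gal f l i u) := by
  obtain ⟨n, r, o, hr, hur⟩ := h
  obtain ⟨p, hp⟩ := CharP.exists (IsLocalRing.ResidueField O)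
  have : Fact p.Prime := ⟨CharP.char_is_prime (IsLocalRing.ResidueField O) p⟩
  have up : ¬ IsUnit (p : O) := fun h =>
    (h.map (IsLocalRing.residue O)).ne_zero (by rw [map_natCast, CharP.cast_eq_zero])
  have : CharZero O := (algebraMap O Ω).charZero
  obtain ⟨χ, c1, c2⟩ := hE p O up
  obtain ⟨ι, hι⟩ := exists_iota (Ω := Ω) χ c1
  let : Algebra R (PadicAlgCl p) := (ι.comp (algebraMap R Ω)).toAlgebra
  have ext (g : Ω ≃ₐ[R] Ω) (q : ℕ) (hq : 0 < q) (hg : Frob O q g) :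
      ∃ (g' : PadicAlgCl p ≃ₐ[ℚ_[p]] PadicAlgCl p) (g'' : PadicAlgCl p ≃ₐ[R] PadicAlgCl p),
        ⇑g' = g'' ∧ (∀ z, g'' (ι z) = ι (g z)) ∧ Frob ℤ_[p] q g' := by
    obtain ⟨a1, a2⟩ := hI p O Ω ι up (fun o => (hι o).symm ▸ c2 o) q g hq hg
    obtain ⟨g', hg'⟩ := (hX p Ω ι).2 g a1
    refine ⟨g', { g'.toRingEquiv with
      commutes' := fun r => (hg' _).trans (congrArg ι (g.commutes r)) }, rfl, hg',
      (hF p g').1 q _ (hX p Ω ι).1 ?_⟩
    rintro _ ⟨z, rfl⟩ hz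
    rw [hg']
    exact a2 z hz
  obtain ⟨φ', φ'', a1, a2, a3⟩ := ext φ Q (by omega) hφ
  obtain ⟨u', u'', b1, b2, b3⟩ := ext u 1 one_pos hu
  have hl : l ≠ p := fun e => up (e ▸ ul)
  have b4 := (hF p u').2 l hl b3 n (ι r) (by rw [← map_pow, hr, b1, b2, hu.1]) fun e =>
    hur (ι.injective (by rwa [b1, b2] at e))
  rw [a1] at a3
  rw [b1] at b3 b4
  have e : spc ι ≫ spc (algebraMap R Ω) = spc (algebraMap R (PadicAlgCl p)) := by
    rw [← Spec.map_comp, ← CommRingCat.ofHom_comp]; rfl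
  have H : MwG f l i Q φ'' u'' := hM p { ι with commutes' := fun _ => rfl } hl φ'' u'' Q
    hQ a3 b3 b4
  have H' : MwG f l i Q φ u :=
    mwG_ext hP f l ι e (Nat.cast_ne_zero.2 (Fact.out : l.Prime).ne_zero) a2 b2 H
  exact H'

end Pool.Agent.MP_855f4c_ag.T

end

section

/-! Row L: the final statement from the statement for products of projective lines. -/

set_option autoImplicit false
set_option backward.isDefEq.respectTransparency false

open CategoryTheory Limits AlgebraicGeometry MvPolynomial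

namespace Pool.Agent.MP_855f4c_ag.T

attribute [local instance] MvPolynomial.gradedAlgebra

open Et in
/-- The final statement. -/
def FINAL_s : Prop := ∀ (K : Type) [Field K] (Y : Scheme.{0}) (f : Y ⟶ Spec (.of K)) (d N : ℕ)
    [SmoothOfRelativeDimension d f] [GeometricallyIrreducible f]
    (ι : Y ⟶ Proj (homogeneousSubmodule (Fin (N + 1)) K)) [IsClosedImmersion ι]
    (_ : ι ≫ Proj.toSpecZero _ ≫ Spec.map (CommRingCat.ofHom (algebraMap K _)) = f)
    (s c : ℕ) (k n : Fin s → ℕ)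
    (F : Fin c → MvPolynomial (Σ a : Σ b, Fin (k b), Fin (n a.1 + 1)) K)
    (e : Fin c → (Σ b, Fin (k b)) → ℕ)
    (_ : ∀ j, (F j).IsWeightedHomogeneous (fun t => Pi.single t.1 1) (e j))
    (q : Fin (N + 1) → MvPolynomial (Σ a : Σ b, Fin (k b), Fin (n a.1 + 1)) K)
    (m : (Σ b, Fin (k b)) → ℕ)
    (_ : ∀ j, (q j).IsWeightedHomogeneous (fun t => Pi.single t.1 1) m)
    (_ : coeff (Finsupp.equivFunOnFinite.symm fun a : Σ b, Fin (k b) => n a.1)
      ((∏ b, ∏ i : Fin (k b), ∏ j ∈ Finset.Ioi i, (X ⟨b, j⟩ - X ⟨b, i⟩)) ^ 2 *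
        (∑ a, m a • X a) ^ d * ∏ j, ∑ a, e j a • X a : MvPolynomial _ ℤ) ≠ 0)
    (O Ω : Type) [CommRing O] [IsDomain O] [IsDiscreteValuationRing O]
    [Finite (IsLocalRing.ResidueField O)] [Field Ω] [CharZero Ω] [IsAlgClosed Ω] [Algebra O Ω]
    [FaithfulSMul O Ω] [Algebra.IsAlgebraic O Ω] [Algebra K Ω]
    (_ : ∀ v : (Σ a : Σ b, Fin (k b), Fin (n a.1 + 1)) → Ω,
      (∀ b, LinearIndependent Ω fun (i : Fin (k b)) (x : Fin (n b + 1)) => v ⟨⟨b, i⟩, x⟩) →
      (∀ j, aeval v (F j) = 0) → (∃ j, aeval v (q j) ≠ 0) ∧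
        ∀ (G : MvPolynomial (Fin (N + 1)) K) (r : ℕ), G.IsHomogeneous r →
          (∀ y : Y, G ∈ (ι y).asHomogeneousIdeal) → aeval (fun j => aeval v (q j)) G = 0)
    (l : ℕ) [Fact l.Prime] (_ : IsUnit (l : O)) (i : ℕ) (φ u : Ω ≃ₐ[K] Ω) (Q : ℕ) (_ : 1 < Q)
    (_ : Frob O Q φ) (_ : Frob O 1 u)
    (_ : ∃ (n : ℕ) (r : Ω) (o : O), r ^ l ^ n = algebraMap O Ω o ∧ u r ≠ r),
    Mw Q i (gal f l i φ) (gal f l i u)

theorem Lr.prp (K ν : Type) [CommRing K] [Finite ν] {Y : Scheme.{0}}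
    (ι : Y ⟶ Proj (homogeneousSubmodule ν K)) [IsClosedImmersion ι] :
    IsProper (ι ≫ Proj.toSpecZero _ ≫
      Spec.map (CommRingCat.ofHom (algebraMap K (homogeneousSubmodule ν K 0)))) := by
  have : IsScalarTower K (homogeneousSubmodule ν K 0) (MvPolynomial ν K) :=
    ⟨fun a b c => smul_mul_assoc a b.1 c⟩
  have : Algebra.FiniteType (homogeneousSubmodule ν K 0) (MvPolynomial ν K) :=
    .of_restrictScalars_finiteType K _ _
  have : IsClosedImmersion
      (Spec.map (CommRingCat.ofHom (algebraMap K (homogeneousSubmodule ν K 0)))) :=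
    .spec_of_surjective _ fun x => ⟨coeff 0 x.1, Subtype.ext
      (totalDegree_eq_zero_iff_eq_C.1 (x.2.totalDegree_le.antisymm (Nat.zero_le _))).symm⟩
  infer_instance

theorem Lr.lin_nat {Λ : Type} [Fintype Λ] (m : Λ → ℕ) :
    (∑ a, m a • X a : MvPolynomial Λ ℤ) = lin fun a => m a := by simp [lin]

open E M3 Lr in
theorem final (hQ : Q_s) (hP : PBCX_s) (hE : EMB_s) (hI : ISO_s) (hX : EXT_s) (hF : FRB_s) :
    FINAL_s := by
  intro K _ Y f d N _ _ ι _ hι s c k n F e hFe q m hq H2 O Ω _ _ _ _ _ _ _ _ _ _ _ H1 l _ ul i φ u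
    Q h1 h2 h3 h4
  have : IsProper f := hι ▸ prp K _ ι
  simp only [lin_nat] at H2
  obtain ⟨e', cf, s', ns, q', m', a1, a2, a3, a4⟩ := lred K Ω F e q m hFe hq
    (fun z => (∃ j, z j ≠ 0) ∧ ∀ G : MvPolynomial (Fin (N + 1)) K, (∃ r, G.IsHomogeneous r ∧
      ∀ y : Y, G ∈ (ι y).asHomogeneousIdeal) → aeval z G = 0)
    (fun v hv hv' => ⟨(H1 v hv hv').1, fun G ⟨r, b1, b2⟩ => (H1 v hv hv').2 G r b1 b2⟩) d H2
  refine Et.mw_of f l i Q φ u (geno hP hE hI hX hF f O Ω l ul i (fun p _ _ _ hl => hQ p l hl K Y f d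
    _ ι _ c e' cf _ s' ns q' m' hι (GeometricallyIrreducible.geometrically_irreducibleSpace _ _ _
      (IsPullback.of_hasPullback _ f).flip) a1 a2 (fun a b1 b2 b3 => ?_) a4 i) φ u Q h1 h2 h3 h4)
  have := tr2 Ω (PadicAlgCl p) cf s' q' _ a3 a b1 b2 b3
  exact ⟨this.1, fun G r c1 c2 => this.2 G ⟨r, c1, c2⟩⟩

end Pool.Agent.MP_855f4c_ag.T

end

section

/-! Row KCOF: finiteness from duality. -/

set_option autoImplicit false
set_option backward.isDefEq.respectTransparency false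

open CategoryTheory Limits Abelian Function AlgebraicGeometry

namespace Pool.Agent.MP_855f4c_ag.T

open E EZ

namespace Kcof

/-- A group is in bijection with the product of the image and the kernel of a map. -/
noncomputable def split {G H : Type 1} [AddCommGroup G] [AddCommGroup H] (f : G →+ H) :
    G ≃ f.range × f.ker :=
  (AddSubgroup.addGroupEquivQuotientProdAddSubgroup (s := f.ker)).trans
    ((QuotientAddGroup.quotientKerEquivRange f).toEquiv.prodCongr (Equiv.refl _))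

theorem les_equiv {X X' Y : ℕ → Type 1} [∀ q, AddCommGroup (X q)] [∀ q, AddCommGroup (X' q)]
    [∀ q, AddCommGroup (Y q)] {f : ∀ q, X q →+ Y q} {f' : ∀ q, X' q →+ Y q}
    {g g' : ∀ q, Y q →+ Y q} {d : ∀ q, Y q →+ X (q + 1)} {d' : ∀ q, Y q →+ X' (q + 1)}
    (h : IsLES f g d) (h' : IsLES f' g' d') (e : g = g') (q : ℕ) : Nonempty (X q ≃ X' q) := by
  subst e
  have hr : (f q).range = (f' q).range :=
    (h.e₂ q).addMonoidHom_ker_eq.symm.trans (h'.e₂ q).addMonoidHom_ker_eq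
  suffices hk : Nonempty ((f q).ker ≃ (f' q).ker) from hk.map fun k =>
    (split _).trans (((AddEquiv.addSubgroupCongr hr).toEquiv.prodCongr k).trans (split _).symm)
  cases q with
  | zero =>
    rw [(AddMonoidHom.ker_eq_bot_iff _).2 h.inj, (AddMonoidHom.ker_eq_bot_iff _).2 h'.inj]
    exact ⟨Equiv.ofUnique _ _⟩
  | succ q =>
    rw [(h.e₁ q).addMonoidHom_ker_eq, (h'.e₁ q).addMonoidHom_ker_eq]
    exact ⟨((QuotientAddGroup.quotientKerEquivRange (d q)).symm.trans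
      ((QuotientAddGroup.quotientAddEquivOfEq
        ((h.e₃ q).addMonoidHom_ker_eq.trans (h'.e₃ q).addMonoidHom_ker_eq.symm)).trans
          (QuotientAddGroup.quotientKerEquivRange (d' q)))).toEquiv⟩

section
universe w v u
variable {C : Type u} [Category.{v} C] [Abelian C] [HasExt.{w} C] {A F : C} {q : ℕ}

theorem pre_n (m : ℕ) (x : Ext.{w} A F q) : pre (m • 𝟙 A) F q x = m • x := by
  rw [pre_apply]
  induction m with
  | zero => simp
  | succ m ih => rw [succ_nsmul, succ_nsmul, Ext.mk₀_add, Ext.add_comp, ih, Ext.mk₀_id_comp]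

theorem post_n (m : ℕ) (x : Ext.{w} A F q) : post A (m • 𝟙 F) q x = m • x := by
  rw [post_apply]
  induction m with
  | zero => simp
  | succ m ih => rw [succ_nsmul, succ_nsmul, Ext.mk₀_add, Ext.comp_add, ih, Ext.comp_mk₀_id]

end

/-- The presentation of `ℤ / m`. -/
noncomputable def zS (m : ℕ) : ShortComplex Ab.{0} :=
  ShortComplex.mk (m • 𝟙 (AddCommGrpCat.of ℤ))
    (AddCommGrpCat.ofHom (Int.castAddHom (ZMod m))) (by ext; simp)

theorem zS_exact {m : ℕ} (hm : m ≠ 0) : (zS m).ShortExact where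
  exact := (zS m).ab_exact_iff.2 fun (y : ℤ) hy => by
    obtain ⟨a, rfl⟩ := (ZMod.intCast_zmod_eq_zero_iff_dvd y m).1 hy
    exact ⟨a, nsmul_eq_mul m a⟩
  mono_f := (AddCommGrpCat.mono_iff_injective _).2 (nsmul_right_injective (M := ℤ) hm)
  epi_g := (AddCommGrpCat.epi_iff_surjective _).2 ZMod.intCast_surjective

variable (l : ℕ) [Fact l.Prime] (T : Scheme.{0})

omit [Fact l.Prime] in
theorem zl_kill : l • 𝟙 (Zl T l 1) = 0 := by
  rw [Zl, ← (con T).map_id, ← Functor.map_nsmul, ← (con T).map_zero]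
  congr 1
  ext x
  change l • x = 0
  have h : ((l ^ 1 : ℕ) : ZMod (l ^ 1)) * x = 0 := by rw [ZMod.natCast_self, zero_mul]
  exact (nsmul_eq_mul _ _).trans ((congrArg (fun n : ℕ => (n : ZMod (l ^ 1)) * x)
    (pow_one l).symm).trans h)

omit [Fact l.Prime] in
theorem zl_Tc : Tc l (Zl T l 1) :=
  cst_Tc (AddCommGrpCat.uliftFunctor.{1}.obj (.of (ZMod (l ^ 1)))) fun m =>
    ⟨1, ULift.ext _ _ (by
      change l ^ 1 • m.down = 0
      rw [nsmul_eq_mul, ZMod.natCast_self, zero_mul])⟩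

theorem eqv (q : ℕ) :
    Nonempty (Ext.{1} (Zl T l 1) (Linf l T) q ≃ Ext.{1} (Zs T) (Zl T l 1) q) := by
  have h := con_les.{1} ((zS_exact (pow_ne_zero 1 (Fact.out : l.Prime).ne_zero)).map_of_exact
    (con T)) (Linf l T)
  refine les_equiv (Y := fun q => HH l T q) h (cov_les.{1} (Zs T) (Zj_exact l T 1)) ?_ q
  funext q
  ext x
  refine Eq.trans ?_ (post_n _ x).symm
  refine Eq.trans ?_ (pre_n _ x)
  exact congrArg (fun t => pre t _ q x) (((con T).map_nsmul).trans (congrArg _ ((con T).map_id _)))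

end Kcof

open Kcof in
theorem kcof (hE : ENDQ_s) (hK : KH_s) : KCOF_s := by
  intro l _ T N t hT hD i hi
  refine ⟨(hK l T).2.1 hT i, ?_⟩
  obtain ⟨j, rfl⟩ := Nat.exists_eq_add_of_le hi
  have hk (q) (m : Ext.{1} (Zs T) (Zl T l 1) q) : l • m = 0 := by
    rw [← post_n, zl_kill, post_apply, Ext.mk₀_zero, Ext.comp_zero]
  have he (a b) (h : a + b = i + j) :
      Nonempty ((Ext.{1} (Zs T) (Zl T l 1) a →+ QZ l) ≃ Ext.{1} (Zs T) (Zl T l 1) b) :=
    (eqv l T b).map fun e => (Equiv.ofBijective _ (hD _ (zl_Tc l T) b a h)).symm.trans e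
  have := (hE l).2.2.2.2 _ _ (hk i) (hk j) (he i j rfl) (he j i (add_comm _ _))
  refine (Set.finite_range (post (Zs T) (Zj l T 1) i)).subset fun y hy => ?_
  refine ((cov_les.{1} (Zs T) (Zj_exact l T 1)).e₂ i y).1 ((post_n _ y).trans ?_)
  exact (congrArg (· • y) (pow_one l)).trans hy

end Pool.Agent.MP_855f4c_ag.T

end

section

/-! Row KH: degree zero, torsion, endomorphisms of the coefficients. -/

set_option autoImplicit false
set_option backward.isDefEq.respectTransparency false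

open CategoryTheory Limits Abelian Opposite AlgebraicGeometry Function

namespace Pool.Agent.MP_855f4c_ag.T

open E EZ

namespace KH

theorem cst_bij (T : Scheme.{0}) [ConnectedSpace T] (A M : Ab.{1}) :
    Bijective fun f : A ⟶ M => (cst T).map f := by
  let adj := constantSheafAdj (Scheme.etaleTopology.over T) Ab.{1} Over.mkIdTerminal
  have : ConnectedSpace (Over.mk (𝟙 T)).left := ‹_›
  have : IsIso (adj.unit.app M) :=
    (ConcreteCategory.isIso_iff_bijective _).2 (cstι_connected M (Over.mk (𝟙 T)))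
  refine (Bijective.of_comp_iff' (adj.homEquiv _ _).bijective _).1 ?_
  have e : (adj.homEquiv _ _ ∘ fun f : A ⟶ M => (cst T).map f) = fun f => f ≫ adj.unit.app M :=
    funext fun f => (adj.homEquiv_unit _ _ _).trans (adj.unit_naturality f)
  rw [e]
  exact ⟨fun _ _ h => (cancel_mono _).1 h, fun g => ⟨g ≫ inv (adj.unit.app M), by simp⟩⟩

theorem con_bij (T : Scheme.{0}) [ConnectedSpace T] (A M : Ab.{0}) :
    Bijective fun f : A ⟶ M => (con T).map f :=
  (cst_bij T _ _).comp AddCommGrpCat.uliftFunctorFullyFaithful.{0, 1}.homEquiv.bijective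

theorem split {l : ℕ} [Fact l.Prime] (w : QZ l →+ QZ l) (m : ℕ) :
    ∃ (c : ℕ) (w' : QZ l →+ QZ l), w = c • AddMonoidHom.id _ + l ^ m • w' := by
  obtain ⟨c, hc⟩ := ENDQ.ex w
  have h1 : ‖c‖ ≤ 1 := by
    rw [← qz_zero, ← one_mul c]
    exact (hc 1).symm.trans ((congrArg w ((qz_zero l 1).2 norm_one.le)).trans (map_zero w))
  obtain ⟨b, hb⟩ := Ideal.mem_span_singleton.1 (PadicInt.appr_spec m ⟨c, h1⟩)
  refine ⟨PadicInt.appr ⟨c, h1⟩ m, QZ.mul l b, AddMonoidHom.ext fun y => ?_⟩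
  obtain ⟨x, rfl⟩ := QuotientAddGroup.mk_surjective y
  have e : c - PadicInt.appr ⟨c, h1⟩ m = l ^ m * b := by exact_mod_cast congrArg Subtype.val hb
  rw [hc, AddMonoidHom.add_apply, AddMonoidHom.nsmul_apply, AddMonoidHom.nsmul_apply, QZ.mul_mk,
    AddMonoidHom.id_apply, ← QuotientAddGroup.mk_nsmul, ← QuotientAddGroup.mk_nsmul,
    ← QuotientAddGroup.mk_add, nsmul_eq_mul, nsmul_eq_mul, Nat.cast_pow]
  congr 1
  linear_combination x * e

end KH

theorem kh (hZ : ZB_s) : KH_s := by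
  intro l _ T
  have tor : Qcs T → ∀ (n : ℕ) (y : HH l T n), ∃ m : ℕ, l ^ m • y = 0 := fun ⟨h1, h2⟩ n y => by
    obtain ⟨e⟩ := hZ.1 T
    have : CompactSpace (E.top T).left := h1
    have : (E.top T).left.IsSeparated := h2
    obtain ⟨m, hm⟩ := H_tor (l := l) (E.top T) (cst_Tc (X := T) (l := l) (.of (ULift.{1} (QZ l)))
      fun a => (cof_QZ.1 a.down).imp fun n hn => ULift.ext _ _ hn).2 n (pre e.hom _ n y)
    exact ⟨m, (pre_bij e.hom _ n).1 ((map_nsmul _ _ _).trans (hm.trans (map_zero _).symm))⟩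
  refine ⟨fun _ => ?_, tor, fun _ h n y φ => ?_⟩
  · exact (Ext.mk₀_bijective _ _).comp ((KH.con_bij T (.of ℤ) (.of (QZ l))).comp
      ((ConcreteCategory.homEquiv (X := AddCommGrpCat.of ℤ) (Y := .of (QZ l))).symm.bijective.comp
        (zmultiplesHom (QZ l)).bijective))
  · obtain ⟨m, hm⟩ := tor h n y
    obtain ⟨w, rfl⟩ := (KH.con_bij T (.of (QZ l)) (.of (QZ l))).2 φ
    obtain ⟨c, w', e⟩ := KH.split w.hom m
    have e' : w = c • 𝟙 _ + l ^ m • AddCommGrpCat.ofHom w' := AddCommGrpCat.hom_ext e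
    refine ⟨c, ?_⟩
    rw [e']
    beta_reduce
    rw [Functor.map_add, Functor.map_nsmul, Functor.map_nsmul, CategoryTheory.Functor.map_id, post_apply,
      Ext.mk₀_add, Ext.comp_add, ← post_apply, ← post_apply, ← CLM.smul_post, ← CLM.smul_post,
      ← map_nsmul _ (l ^ m), hm, map_zero, add_zero]
    exact congrArg _ (post_id y)

end Pool.Agent.MP_855f4c_ag.T

end

section

/-! Row KERT: the kernel of `tau` is killed by a power of `l`. -/

set_option autoImplicit false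
set_option backward.isDefEq.respectTransparency false

open CategoryTheory Limits Abelian Function AlgebraicGeometry

namespace Pool.Agent.MP_855f4c_ag.T

open E EZ

def KERT_s : Prop := ∀ (l : ℕ) [Fact l.Prime] (T : Scheme.{0}) (i : ℕ),
  (∀ k, k + 1 = i → Cof l (HH l T k)) →
    ∃ n : ℕ, ∀ x : EE l T i, (∀ a, tau x a = 0) → l ^ n • x = 0

namespace Kert

variable (l : ℕ) [Fact l.Prime]

/-- The generators. -/
noncomputable def eZ (n : ℕ) : ℤ →+ (ℕ →₀ ℤ) := Finsupp.singleAddHom n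

/-- The shift. -/
noncomputable def sh : (ℕ →₀ ℤ) →+ (ℕ →₀ ℤ) :=
  Finsupp.comapDomain.addMonoidHom Nat.succ_injective

/-- The relations. -/
noncomputable def dd : (ℕ →₀ ℤ) →+ (ℕ →₀ ℤ) := l • AddMonoidHom.id _ - sh

/-- The presentation. -/
noncomputable def pp : (ℕ →₀ ℤ) →+ QZ l :=
  Finsupp.liftAddHom fun n => zmultiplesHom _ (qe l (n + 1))

lemma sh_zero (a : ℤ) : sh (eZ 0 a) = 0 := by
  ext n
  exact Finsupp.single_eq_of_ne n.succ_ne_zero

lemma sh_succ (n : ℕ) (a : ℤ) : sh (eZ (n + 1) a) = eZ n a :=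
  Finsupp.comapDomain_single _ _ _ _

lemma pp_e (n : ℕ) (a : ℤ) : pp l (eZ n a) = a • qe l (n + 1) :=
  Finsupp.liftAddHom_apply_single _ _ _

lemma qe_zero : qe l 0 = 0 := by
  simpa using (qe_smul l 0 1).2 (by simp)

omit [Fact l.Prime] in
lemma dd_zero (a : ℤ) : dd l (eZ 0 a) = l • eZ 0 a := by
  change l • eZ 0 a - sh (eZ 0 a) = _
  rw [sh_zero, sub_zero]

omit [Fact l.Prime] in
lemma dd_succ (n : ℕ) (a : ℤ) : dd l (eZ (n + 1) a) = l • eZ (n + 1) a - eZ n a := by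
  change l • eZ (n + 1) a - sh (eZ (n + 1) a) = _
  rw [sh_succ]

lemma pp_dd (f : ℕ →₀ ℤ) : pp l (dd l f) = 0 := by
  have : (pp l).comp (dd l) = 0 := Finsupp.addHom_ext fun n a => by
    change pp l (dd l (eZ n a)) = 0
    cases n with
    | zero => rw [dd_zero, map_nsmul, pp_e, smul_comm, qe_succ, qe_zero, smul_zero]
    | succ n => rw [dd_succ, map_sub, map_nsmul, pp_e, pp_e, smul_comm, qe_succ, sub_self]
  exact DFunLike.congr_fun this f

lemma dd_inj : Injective (dd l) := (injective_iff_map_eq_zero _).2 fun f hf => by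
  have h (n : ℕ) : l • f n - f (n + 1) = 0 := DFunLike.congr_fun hf n
  have h' (n k : ℕ) : f (n + k) = l ^ k • f n := by
    induction k with
    | zero => simp
    | succ k ih => rw [← add_assoc, ← sub_eq_zero.1 (h _), ih, smul_smul, pow_succ']
  ext n
  obtain ⟨k, hk⟩ := f.support.exists_nat_subset_range
  have := Finsupp.notMem_support_iff.1 fun h : n + k ∈ f.support =>
    (Finset.mem_range.1 (hk h)).not_ge (Nat.le_add_left _ _)
  rw [h'] at this
  exact (smul_eq_zero.1 this).resolve_left (pow_ne_zero _ (Fact.out : l.Prime).ne_zero)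

omit [Fact l.Prime] in
lemma red (f : ℕ →₀ ℤ) : ∃ N, ∀ n ≥ N, ∃ a g, f = eZ n a + dd l g := by
  have st (f : ℕ →₀ ℤ) (n : ℕ) (h : ∃ a g, f = eZ n a + dd l g) :
      ∀ m ≥ n, ∃ a g, f = eZ m a + dd l g := fun m hm => by
    induction hm with
    | refl => exact h
    | step _ ih =>
      obtain ⟨a, g, rfl⟩ := ih
      exact ⟨l • a, g - eZ _ a, by rw [map_sub, dd_succ, map_nsmul]; abel⟩
  induction f using Finsupp.induction_linear with
  | zero => exact ⟨0, fun n _ => ⟨0, 0, by simp⟩⟩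
  | add f g hf hg =>
    obtain ⟨N, hN⟩ := hf
    obtain ⟨M, hM⟩ := hg
    refine ⟨max N M, fun n hn => ?_⟩
    obtain ⟨a, u, rfl⟩ := hN n (le_of_max_le_left hn)
    obtain ⟨b, v, rfl⟩ := hM n (le_of_max_le_right hn)
    exact ⟨a + b, u + v, by rw [map_add, map_add]; abel⟩
  | single n a => exact ⟨n, st _ n ⟨a, 0, by simp [eZ]⟩⟩

omit [Fact l.Prime] in
lemma pow_mem (n : ℕ) (a : ℤ) : ∃ g, dd l g = l ^ (n + 1) • eZ n a := by
  induction n with
  | zero => exact ⟨eZ 0 a, by rw [dd_zero, zero_add, pow_one]⟩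
  | succ n ih =>
    obtain ⟨g, hg⟩ := ih
    exact ⟨l ^ (n + 1) • eZ (n + 1) a + g, by
      rw [map_add, map_nsmul, dd_succ, hg, smul_sub, smul_smul, ← pow_succ, sub_add_cancel]⟩

/-- The free presentation of `ℚ_l / ℤ_l`. -/
noncomputable def SS : ShortComplex Ab.{0} :=
  ShortComplex.mk (AddCommGrpCat.ofHom (dd l)) (AddCommGrpCat.ofHom (pp l))
    (AddCommGrpCat.ext (pp_dd l))

lemma SS_exact : (SS l).ShortExact where
  exact := (SS l).ab_exact_iff.2 fun (f : ℕ →₀ ℤ) hf => by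
    obtain ⟨N, hN⟩ := red l f
    obtain ⟨a, g, rfl⟩ := hN N le_rfl
    have h : pp l (eZ N a + dd l g) = 0 := hf
    rw [map_add, pp_dd, add_zero, pp_e, qe_smul] at h
    obtain ⟨b, rfl⟩ := h
    obtain ⟨u, hu⟩ := pow_mem l N b
    exact ⟨u + g, (map_add (dd l) u g).trans (by rw [hu, ← map_nsmul, nsmul_eq_mul])⟩
  mono_f := (AddCommGrpCat.mono_iff_injective _).2 (dd_inj l)
  epi_g := (AddCommGrpCat.epi_iff_surjective _).2 fun (y : QZ l) => by
    obtain ⟨n, hn⟩ := cof_QZ.1 y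
    obtain ⟨x, rfl⟩ := (qj_ex l (n + 1) y).1 (by rw [pow_succ', mul_smul, hn, smul_zero])
    obtain ⟨a, rfl⟩ := ZMod.intCast_surjective x
    exact ⟨eZ n a, (pp_e l n a).trans (qj_int l _ a).symm⟩

/-- The free group as a coproduct. -/
noncomputable def cf : Cofan fun _ : ℕ => (AddCommGrpCat.of ℤ : Ab.{0}) :=
  Cofan.mk (.of (ℕ →₀ ℤ)) fun n => AddCommGrpCat.ofHom (eZ n)

/-- It is a colimit. -/
noncomputable def cfc : IsColimit cf :=
  Cofan.IsColimit.mk _ (fun s => AddCommGrpCat.ofHom (Finsupp.liftAddHom fun n => (s.inj n).hom))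
    (fun s n => AddCommGrpCat.ext fun a =>
      Finsupp.liftAddHom_apply_single (fun n => (s.inj n).hom) n a)
    fun s m hm => by
      ext : 1
      refine Finsupp.addHom_ext fun n a => ?_
      exact (ConcreteCategory.congr_hom (hm n) a).trans
        (Finsupp.liftAddHom_apply_single (fun n => (s.inj n).hom) _ _).symm

omit [Fact l.Prime] in
lemma solve {M : Type*} [AddCommGroup M] {c : ℕ}
    (hc : ∀ m : M, ∃ m', l ^ c • m = l ^ (c + 1) • m') (b : ℕ → M) :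
    ∃ y : ℕ → M, l • y 0 = l ^ c • b 0 ∧ ∀ n, l • y (n + 1) - y n = l ^ c • b (n + 1) := by
  choose s hs using hc
  let z : ℕ → M := fun n => Nat.rec (s (b 0)) (fun n w => s (b (n + 1) + w)) n
  refine ⟨fun n => l ^ c • z n, ?_, fun n => ?_⟩
  · rw [smul_smul, ← pow_succ']
    exact (hs _).symm
  · rw [smul_smul, ← pow_succ', sub_eq_iff_eq_add, ← smul_add]
    exact (hs _).symm

universe w v u

variable {A : Type u} [Category.{v} A] [Abelian A] [HasExt.{w} A] [EnoughInjectives A]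

theorem core {Φ : Ab.{0} ⥤ A} [Φ.Additive] (hΦ : Tel.Good Φ) (G : A) (i : ℕ)
    (hc : ∀ k, k + 1 = i → Cof l (Ext.{w} (Φ.obj (.of ℤ)) G k)) :
    ∃ n : ℕ, ∀ x : Ext.{w} (Φ.obj (.of (QZ l))) G i,
      (∀ a, pre (Φ.map (AddCommGrpCat.ofHom (zmultiplesHom (QZ l) a))) G i x = 0) →
        l ^ n • x = 0 := by
  have := hΦ.sum ℕ
  have hb := fun q => Tel.sigma_bij.{w} (isColimitOfPreserves Φ cfc) q G
  have hL := con_les.{w} (hΦ.ex _ (SS_exact l)) G
  have h0 (x : Ext.{w} (Φ.obj (.of (QZ l))) G i)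
      (hx : ∀ a, pre (Φ.map (AddCommGrpCat.ofHom (zmultiplesHom (QZ l) a))) G i x = 0) :
      pre ((SS l).map Φ).g G i x = 0 := (hb i).1 (funext fun n => by
    refine ((pre_pre _ _ x).trans ?_).trans (map_zero _).symm
    refine Eq.trans ?_ (hx (qe l (n.as + 1)))
    refine congrArg (fun t => pre t G i x) ((Φ.map_comp _ _).symm.trans (congrArg _ ?_))
    ext
    exact pp_e l _ _)
  cases i with
  | zero => exact ⟨0, fun x hx => by rw [hL.inj ((h0 x hx).trans (map_zero _).symm), smul_zero]⟩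
  | succ k =>
    obtain ⟨c, hc⟩ := (hc k rfl).div
    refine ⟨c, fun x hx => ?_⟩
    obtain ⟨β, rfl⟩ := (hL.e₁ k x).1 (h0 x hx)
    let e : ℕ → Ext.{w} (Φ.obj (.of (ℕ →₀ ℤ))) G k →+ Ext.{w} (Φ.obj (.of ℤ)) G k :=
      fun n => pre (Φ.map (AddCommGrpCat.ofHom (eZ n))) G k
    obtain ⟨y, h1, h2⟩ := solve l (hc (c + 1)) fun n => e n β
    obtain ⟨z, hz⟩ := (hb k).2 fun n => y n.as
    have hz' (n : ℕ) : e n z = y n := congrFun hz ⟨n⟩
    refine (map_nsmul (dr _ G k) _ β).symm.trans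
      ((hL.e₃ k _).2 ⟨z, (hb k).1 (funext fun n => ?_)⟩)
    change e n.as (pre (Φ.map (AddCommGrpCat.ofHom (dd l))) G k z) = e n.as (l ^ c • β)
    have hp (a : Φ.obj (.of ℤ) ⟶ Φ.obj (.of (ℕ →₀ ℤ))) :
        pre a G k z = Ext.bilinearComp _ _ _ 0 k k (zero_add k) (Ext.addEquiv₀.symm a) z := rfl
    rw [map_nsmul, pre_pre, ← Φ.map_comp]
    obtain ⟨n⟩ := n
    cases n with
    | zero =>
      rw [← h1, ← hz', show AddCommGrpCat.ofHom (eZ 0) ≫ AddCommGrpCat.ofHom (dd l) =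
        l • AddCommGrpCat.ofHom (eZ 0) from AddCommGrpCat.ext (dd_zero l), Φ.map_nsmul, hp,
        map_nsmul, map_nsmul]
      rfl
    | succ n =>
      rw [← h2, ← hz', ← hz', show AddCommGrpCat.ofHom (eZ (n + 1)) ≫ AddCommGrpCat.ofHom (dd l) =
        l • AddCommGrpCat.ofHom (eZ (n + 1)) - AddCommGrpCat.ofHom (eZ n) from
          AddCommGrpCat.ext (dd_succ l n), Φ.map_sub, Φ.map_nsmul, hp, map_sub, map_sub,
        map_nsmul, map_nsmul]
      rfl

end Kert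

theorem kert : KERT_s := fun l _ T i hc =>
  Kert.core l (Φ := con T) ⟨fun _ h => h.map_of_exact _, fun ι => by
    unfold con cst constantSheaf
    infer_instance⟩ (Linf l T) i hc

end Pool.Agent.MP_855f4c_ag.T

end

section

/-! h12g row KPD: duality on the geometric fibre. -/

set_option autoImplicit false
set_option backward.isDefEq.respectTransparency false

open CategoryTheory Limits Abelian Opposite AlgebraicGeometry Function

namespace Pool.Agent.MP_855f4c_ag.T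

open E E3 E4

namespace Kpd

variable {l : ℕ} [Fact l.Prime]

lemma tc (X : Scheme.{0}) : Tc l (Linf l X) :=
  cst_Tc (.of (ULift.{1} (QZ l))) fun m =>
    ((cof_QZ (l := l)).1 m.down).imp fun _ hn => ULift.ext _ _ hn

/-- Duality in terms of `HH`. -/
lemma pdh (hZ : ZB_s) {T : Scheme.{0}} {N : ℕ} (h : D.PD l T N) :
    ∃ t : HH l T N →+ QZ l, PDh t := by
  obtain ⟨t, ht⟩ := h
  obtain ⟨e⟩ := hZ.1 T
  refine ⟨t.comp (pre e.hom _ N), fun A hA i j h => ?_⟩
  let a := AddEquiv.ofBijective _ (pre_bij e.hom A j)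
  have key (x) : dm (t.comp (pre e.hom _ N)) A h x =
      (D.phi l t A h x).comp a.toAddMonoidHom := AddMonoidHom.ext fun y =>
    congrArg t (Ext.comp_assoc _ _ _ (zero_add j) h (by omega)).symm
  refine ⟨fun x y e => (ht A hA i j h).1 (AddMonoidHom.ext fun z => ?_), fun χ => ?_⟩
  · obtain ⟨z, rfl⟩ := a.surjective z
    rw [key, key] at e
    exact DFunLike.congr_fun e z
  · obtain ⟨x, hx⟩ := (ht A hA i j h).2 (χ.comp a.symm.toAddMonoidHom)
    refine ⟨x, (key x).trans (AddMonoidHom.ext fun y => ?_)⟩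
    rw [hx]
    exact congrArg χ (a.symm_apply_apply y)

lemma qcs {Ω : Type} [CommRing Ω] {T : Scheme.{0}} (g : T ⟶ Spec (.of Ω)) [IsProper g] : Qcs T :=
  ⟨QuasiCompact.compactSpace_of_compactSpace g, ⟨by
    rw [← terminal.comp_from g]; infer_instance⟩⟩

lemma van (hZ : ZB_s) {T : Scheme.{0}} {N : ℕ} (h : D.CD l T N) {i : ℕ} (hi : N < i)
    (x : HH l T i) : x = 0 := by
  obtain ⟨e⟩ := hZ.1 T
  exact (pre_bij e.hom _ i).1 ((h _ (tc T) i hi _).trans (map_zero _).symm)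

end Kpd

open Kpd in
theorem kpd (h1 : D.PDX_s) (h2 : D.CDG_s) (h4 : D.TOPQ_s) (h6 : D.TWF_s) (hZ : ZB_s)
    (hC : KCOF_s) (hT : KTOP_s) (hP : KPB_s) (hK : KERT_s) : KPD_s := by
  intro l _ K Ω _ _ _ _ τ X f _ _ d hd hI
  have hd' : D.Chart d (pullback.fst (spc τ) f) :=
    h6.2.2 d X _ _ _ f _ (spc τ) _ (IsPullback.of_hasPullback (spc τ) f).flip inferInstance hd
  have : IrreducibleSpace (pullback (spc τ) f : Scheme.{0}) := hI
  obtain ⟨t, ht⟩ : ∃ t : HH l (fbr f (spc τ)).left (2 * d) →+ QZ l, PDh t :=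
    pdh hZ (h1 l Ω _ _ d hd')
  have hq : Qcs (fbr f (spc τ)).left := qcs (pullback.fst (spc τ) f)
  have hv : ∀ i, 2 * d < i → ∀ x : HH l (fbr f (spc τ)).left i, x = 0 := fun i hi x =>
    van hZ (h2 l Ω _ _ d hd').1 hi x
  have hc : ∀ i, Cof l (HH l (fbr f (spc τ)).left i) := fun i => by
    rcases le_or_gt i (2 * d) with hi | hi
    · exact hC l _ _ t hq ht i hi
    · exact ⟨fun m => ⟨0, by rw [hv i hi m, smul_zero]⟩,
        (Set.finite_singleton 0).subset fun m _ => hv i hi m⟩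
  refine ⟨hc, hv, fun i => hK l _ i fun k _ => hc k,
    (hT l _ _ t hq inferInstance ht).2.2,
    fun i j h => (Ext.bilinearComp _ _ _ j i _ h).flip.compr₂ t,
    fun i j h => ht _ (tc _) i j h, fun ψ hψ Q hQ i j h x y => ?_⟩
  obtain ⟨Θ, hΘ⟩ := hZ.2 l X (2 * d)
  change t ((hpb l (fa f ψ hψ) j y).comp (epb l (fa f ψ hψ) i x) h) = Q ^ d • t (y.comp x h)
  rw [← (hP l _ _ (fa f ψ hψ)).1, ← map_nsmul]
  obtain ⟨w, hw⟩ := (Θ (fbr f (spc τ))).surjective (y.comp x h)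
  rw [← hw, ← hΘ, ← map_nsmul]
  exact congrArg (fun z => t (Θ _ z)) (h4 l K Ω τ X f d hd hI ψ hψ Q hQ w)

end Pool.Agent.MP_855f4c_ag.T

end
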