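import Pool.Agent.MP_855f4c_ag.TC.Tf
import Pool.Agent.MP_855f4c_ag.EG.Ga
import Pool.Agent.MP_855f4c_ag.EC.F2c
import Pool.Agent.MP_855f4c_ag.TC.Ti
import Pool.Agent.MP_855f4c_ag.TC.Tg
import Pool.Agent.MP_855f4c_ag.EG.Gb
import Pool.Agent.MP_855f4c_ag.EC.F2f
import Pool.Agent.MP_855f4c_ag.TC.Td

section

/-! Row COFZ: finiteness on the geometric fibres of a proper family. -/

set_option autoImplicit false
set_option backward.isDefEq.respectTransparency false

open CategoryTheory Opposite AlgebraicGeometry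

namespace Pool.Agent.MP_855f4c_ag.T

open E

theorem cof_inj {l : ℕ} {M N : Type 1} [AddCommGroup M] [AddCommGroup N] (e : M →+ N)
    (he : Function.Injective e) (h : Cof l N) : Cof l M :=
  ⟨fun m => (h.1 (e m)).imp fun n hn => he (by rw [map_nsmul, hn, map_zero]),
    Set.Finite.of_finite_image (f := e) (h.2.subset (by
      rintro _ ⟨m, hm, rfl⟩
      exact (map_nsmul e l m).symm.trans ((congrArg e hm).trans (map_zero e)))) he.injOn⟩

theorem cofz (hW : G.WTX_s) (hZ : ZB_s) : COFZ_s := by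
  intro l _ R k _ _ _ _ _ τ X f _ n
  have h : Cof l (H (fbr f (spc τ)) (Linf l X) n) := cof_inj
    ((toSheafify (Scheme.etaleTopology.over _) ((Over.pullback f).op ⋙ E.HP (Linf l X) n)).app
      (op (Over.mk (spc τ)))).hom (shl_inj (spc τ) _)
    ((hW l R X f n).2 k _ (Nat.cast_ne_zero.2 (Fact.out : l.Prime).ne_zero))
  obtain ⟨Θ, -⟩ := hZ.2 l X n
  exact cof_inj (Θ _).symm.toAddMonoidHom (Θ _).symm.injective h

end Pool.Agent.MP_855f4c_ag.T

end

section

/-! h12g: the universal family near good reduction. -/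

set_option autoImplicit false
set_option backward.isDefEq.respectTransparency false

open CategoryTheory AlgebraicGeometry MvPolynomial

namespace Pool.Agent.MP_855f4c_ag.T

open E

theorem fam (hB : BERT_s) (hN : G.NGL_s) (hX : ZLX_s) (hS : ZSM_s) : FAM_s := by
  intro p l _ _ hl κ _ _ c e
  obtain ⟨Δ, h1, h2⟩ := hB p κ c e
  let P := MvPolynomial (MI e) ℤ
  obtain ⟨R, _, _, _⟩ : ∃ (R : Type) (_ : CommRing R) (_ : Algebra P R), IsLocalization.Away Δ R :=
    ⟨Localization.Away Δ, _, _, inferInstance⟩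
  let cf : MI e → R := fun i => algebraMap P R (X i)
  have ev {k : Type} [CommRing k] (ψ : R →+* k) (a : P) :
      aeval (ψ ∘ cf) a = ψ (algebraMap P R a) :=
    DFunLike.congr_fun (show (aeval (ψ ∘ cf)).toRingHom = ψ.comp (algebraMap P R) from
      ringHom_ext' (RingHom.ext_int _ _) fun i => aeval_X _ i) a
  have : Algebra.Smooth P R := .of_isLocalization_Away Δ
  have : Algebra.Smooth ℤ P := ⟨inferInstance, inferInstance⟩
  have : IsScalarTower ℤ P R := .of_algebraMap_eq' (RingHom.ext_int _ _)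
  have : Algebra.Smooth ℤ R := .comp ℤ P R
  obtain ⟨X, f, z, hp, hz⟩ := hX κ c e R cf
  have hs := hS κ c e R cf X f z hz fun k _ ψ => h2 k _ (by
    rw [ev]; exact ((IsLocalization.Away.algebraMap_isUnit Δ).map ψ).ne_zero)
  obtain ⟨r, r1, hr⟩ := hN R (insert (IsLocalization.Away.invSelf Δ) (Set.range cf))
    ((Set.finite_range _).insert _) (by
      rw [eq_top_iff]
      rintro a -
      obtain ⟨n, b, hb⟩ := IsLocalization.Away.surj Δ a
      have e : a = algebraMap P R b * IsLocalization.Away.invSelf Δ ^ n := by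
        rw [← hb, mul_assoc, ← mul_pow, IsLocalization.Away.mul_invSelf, one_pow, mul_one]
      rw [e]
      refine mul_mem ?_ (pow_mem (Algebra.subset_adjoin (Set.mem_insert _ _)) n)
      refine Algebra.adjoin_mono (Set.subset_insert _ _) ?_
      rw [Algebra.adjoin_range_eq_range_aeval]
      exact ⟨b, ev (.id R) b⟩) X f p l hl
  refine ⟨Δ, h1, r⁻¹, inv_lt_one_of_one_lt₀ r1, R, _, inferInstance, X, f, z, cf, hs, hp, hz,
    fun c' hc hΔ => ?_⟩
  have h0 : 0 < ‖aeval c' Δ‖ := (inv_pos.2 (one_pos.trans r1)).trans hΔ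
  have hu : IsUnit ((aeval c').toRingHom Δ) := (norm_pos_iff.1 h0).isUnit
  let τ : R →+* PadicAlgCl p := IsLocalization.Away.lift Δ hu
  have hτ (a : P) : τ (algebraMap P R a) = aeval c' a := IsLocalization.Away.lift_eq Δ hu a
  have hc' (i) : τ (cf i) = c' i := (hτ _).trans (aeval_X _ _)
  refine ⟨τ.toAlgebra, hc', fun g hg => DFunLike.congr_fun (show g.comp τ = τ from
    IsLocalization.ringHom_ext (.powers Δ) (ringHom_ext' (RingHom.ext_int _ _) fun i =>
      (congrArg g (hc' i)).trans ((hg i).trans (hc' i).symm))), @hr τ.toAlgebra ?_⟩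
  rintro _ (rfl | ⟨i, rfl⟩)
  · have := congrArg (fun a => ‖τ a‖) (IsLocalization.Away.mul_invSelf (S := R) Δ)
    simp only [map_mul, map_one, norm_mul, norm_one] at this
    rw [hτ] at this
    exact (eq_inv_of_mul_eq_one_right this).trans_le (inv_le_of_inv_le₀ (by linarith) hΔ.le)
  · exact (congrArg _ (hc' i)).trans_le ((hc i).trans r1.le)

end Pool.Agent.MP_855f4c_ag.T

end

section

/-! h12g, section G: tools, Gabber's theorem and homotopy invariance. -/

set_option autoImplicit false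
set_option backward.isDefEq.respectTransparency false

open CategoryTheory Limits Abelian Opposite AlgebraicGeometry Polynomial IsLocalRing TensorProduct
open Function

namespace Pool.Agent.MP_855f4c_ag.T.GG

open E E3 E4 E.SA E.SB

section hs
variable {X T T' T'' : Scheme.{0}} {F : Sh (Scheme.etaleTopology.over X)}

/-- `g` as an arrow over `X`. -/
noncomputable def ar (g : T' ⟶ T) (t : T ⟶ X) : Over.mk (g ≫ t) ⟶ Over.mk t := Over.homMk g

/-- Restriction along `g` is bijective on cohomology. -/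
def Hs (t : T ⟶ X) (g : T' ⟶ T) (F : Sh (Scheme.etaleTopology.over X)) : Prop := HB (ar g t) F

lemma hs_iff {U' U : Over X} (p : U' ⟶ U) : HB p F ↔ Hs U.hom p.left F :=
  hb_of_sq p _ (Over.isoMk (Iso.refl U'.left) (by simp) : U' ≅ Over.mk (p.left ≫ U.hom)).hom (𝟙 U)
    (Over.OverMorphism.ext ((Category.id_comp _).trans (Category.comp_id _).symm))

variable {t : T ⟶ X} {g : T' ⟶ T} {f : T'' ⟶ T'}

lemma Hs.comp (hf : Hs (g ≫ t) f F) (hg : Hs t g F) : Hs t (f ≫ g) F :=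
  (hs_iff (ar f (g ≫ t) ≫ ar g t)).1 (HB.comp hf hg)

lemma Hs.left (h : Hs t (f ≫ g) F) (hf : Hs (g ≫ t) f F) : Hs t g F :=
  HB.of_comp_left ((hs_iff (ar f (g ≫ t) ≫ ar g t)).2 h) hf

lemma Hs.right (h : Hs t (f ≫ g) F) (hg : Hs t g F) : Hs (g ≫ t) f F :=
  HB.of_comp_right ((hs_iff (ar f (g ≫ t) ≫ ar g t)).2 h) hg

lemma hs_iso (t : T ⟶ X) (g : T' ⟶ T) [IsIso g] : Hs t g F :=
  hb_of_isIso (Over.isoMk (asIso g) rfl : Over.mk (g ≫ t) ≅ Over.mk t).hom F

lemma hs_cst (t : T ⟶ X) (g : T' ⟶ T) (M : Ab.{1}) : Hs t g ((cst X).obj M) ↔ AB M g :=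
  hb_cst_iff (ar g t) M

variable {M : Ab.{1}}

lemma ab_comp (hf : AB M f) (hg : AB M g) : AB M (f ≫ g) :=
  (hs_cst (𝟙 T) _ M).1 (((hs_cst _ _ M).2 hf).comp ((hs_cst _ _ M).2 hg))

lemma ab_left (h : AB M (f ≫ g)) (hf : AB M f) : AB M g :=
  (hs_cst (𝟙 T) _ M).1 (((hs_cst _ _ M).2 h).left ((hs_cst _ _ M).2 hf))

lemma ab_right (h : AB M (f ≫ g)) (hg : AB M g) : AB M f :=
  (hs_cst _ _ M).1 (((hs_cst (𝟙 T) _ M).2 h).right ((hs_cst _ _ M).2 hg))

lemma ab_iso (g : T' ⟶ T) [IsIso g] : AB M g := (hs_cst (𝟙 T) _ M).1 (hs_iso _ g)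

end hs

section ring
variable {A B C : Type} [CommRing A] [CommRing B] [CommRing C]

lemma spc_comp (φ : A →+* B) (ψ : B →+* C) : spc (ψ.comp φ) = spc ψ ≫ spc φ := by
  rw [← Spec.map_comp, ← CommRingCat.ofHom_comp]

lemma spc_iso (φ : A →+* B) (h : Bijective φ) : IsIso (spc φ) :=
  have : IsIso (CommRingCat.ofHom φ) := (ConcreteCategory.isIso_iff_bijective _).2 h
  inferInstance

lemma hs_hm {X : Scheme.{0}} [Algebra A B] (u : Spec (.of A) ⟶ X) (F : Sh (Scheme.etaleTopology.over X)) :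
    HB (hm u (Algebra.ofId A B)) F ↔ Hs u (spc (algebraMap A B)) F := by
  rw [hs_iff]
  change Hs (Spec.map (𝟙 _) ≫ u) _ F ↔ _
  rw [Spec.map_id, Category.id_comp]
  rfl

lemma conn [Nontrivial A] (h : ∀ e : A, IsIdempotentElem e → e = 0 ∨ e = 1) :
    ConnectedSpace (Spec (.of A)) := by
  have : PreconnectedSpace (PrimeSpectrum A) := preconnectedSpace_of_forall_constant fun f hf x y => by
    obtain ⟨e, he, hs⟩ := PrimeSpectrum.isClopen_iff.1 ((isClopen_discrete {f x}).preimage hf)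
    have hx : x ∈ f ⁻¹' {f x} := rfl
    rcases h e he with rfl | rfl
    · simp [hs] at hx
    · exact (show y ∈ f ⁻¹' {f x} by simp [hs]).symm
  exact (⟨inferInstance⟩ : ConnectedSpace (PrimeSpectrum A))

end ring

lemma zm_tor (l : ℕ) (m : ZM l) : ∃ n : ℕ, l ^ n • m = 0 := ⟨1, ULift.ext _ _ (by
  change l ^ 1 • m.down = (0 : ZMod l)
  rw [pow_one, nsmul_eq_mul, ZMod.natCast_self, zero_mul])⟩

/-- Devissage for a quotient. -/
lemma dev (hD : DVS_s) (hC : COVA_s) (l : ℕ) [Fact l.Prime] {X : Scheme.{0}} {A E E' : Type}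
    [CommRing A] [CommRing E] [CommRing E'] [Algebra A E] [Algebra A E'] (φ : E →ₐ[A] E')
    (u : Spec (.of A) ⟶ X) {F : Sh (Scheme.etaleTopology.over X)} (hl : IsUnit (l : A)) (hφ : Surjective φ) (hF : Tc l F)
    (h : ∀ (D : Type) [CommRing D] [IsDomain D] [Algebra A D] [Algebra.IsIntegral A D], Aic D →
      AB (ZM l) (spc (Algebra.TensorProduct.map (AlgHom.id A D) φ).toRingHom)) :
    HB (hm u φ) F := by
  obtain ⟨B, _, _, hB, _, hs⟩ := hC A
  exact hb_of_con fun N => (con_hm_pb u φ).1 ((hD l A B E E' φ hl hB hs hφ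
    (fun q _ => h _ (hB.of_surjective _ Ideal.Quotient.mk_surjective)) _ (hF.pb u)).con _)

theorem gab (hD : DVS_s) (hC : COVA_s) (ha : AFFV_s) : GAB_s := by
  intro l _ X A A' _ _ _ u F hl hs hP hF
  refine dev hD hC l _ u hl hs hF fun D _ _ _ _ hA => ?_
  let e := Algebra.TensorProduct.rid A A D
  let π := (Algebra.TensorProduct.map (AlgHom.id A D) (Algebra.ofId A A')).toRingHom
  have hπ : Surjective π := LinearMap.lTensor_surjective D (g := Algebra.linearMap A A') hs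
  have : IsDomain (D ⊗[A] A) := e.toMulEquiv.isDomain _
  have h0 : Aic (D ⊗[A] A) := hA.of_surjective (e.symm : D →+* D ⊗[A] A) e.symm.surjective
  have hl0 : IsUnit (l : D ⊗[A] A) := by simpa using hl.map (algebraMap A (D ⊗[A] A))
  have : Algebra.IsIntegral A (D ⊗[A] A) := ⟨fun x => by
    simpa using (Algebra.IsIntegral.isIntegral (R := A) (e x)).map e.symm⟩
  obtain ⟨h1, h2⟩ := hP (D ⊗[A] A) (algebraMap A _) Algebra.IsIntegral.isIntegral
  have hk : (RingHom.ker (algebraMap A A')).map (algebraMap A (D ⊗[A] A)) = RingHom.ker π := by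
    refine Eq.trans ?_ (Algebra.TensorProduct.lTensor_ker (A := D) (Algebra.ofId A A') hs).symm
    exact congrArg (fun f : A →+* D ⊗[A] A => Ideal.map f _) (RingHom.ext fun a =>
      ((Algebra.TensorProduct.includeRight : A →ₐ[A] D ⊗[A] A).commutes a).symm)
  rw [hk] at h1 h2
  have : Nontrivial (D ⊗[A] A') := nontrivial_of_ne 1 0 fun h =>
    h1 ((Ideal.eq_top_iff_one _).2 ((map_one π).trans h))
  have : ConnectedSpace (Spec (.of (D ⊗[A] A'))) := conn fun x hx => by
    obtain ⟨x, rfl⟩ := hπ x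
    refine (h2 x ?_).imp id fun h => ?_
    · rw [RingHom.mem_ker, map_sub, map_mul, hx.eq, sub_self]
    · rwa [RingHom.mem_ker, map_sub, map_one, sub_eq_zero] at h
  exact ab_of_van _ _ (ha l _ _ (𝟙 _) h0 hl0)
    (ha l _ _ (spc π) (h0.of_surjective π hπ) (by simpa using hl0.map π))

lemma a1k (hP : PIDV_s) (l : ℕ) [Fact l.Prime] (K : Type) [Field K] [IsAlgClosed K]
    (hl : IsUnit (l : K)) : AB (ZM l) (spc (algebraMap K K[X])) := by
  have h1 : ∀ n : Ideal K[X], n.IsMaximal → n ≠ ⊥ → Bijective (algebraMap K (K[X] ⧸ n)) := by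
    intro n _ _
    let := Ideal.Quotient.field n
    have : Module.Finite K (K[X] ⧸ n) := finite_of_finite_type_of_isJacobsonRing _ _
    exact IsAlgClosed.algebraMap_bijective_of_isIntegral
  have h2 : ∀ v : K[X], IsUnit v → ∃ w, w ^ l = v := fun v hv => by
    obtain ⟨c, -, rfl⟩ := Polynomial.isUnit_iff.1 hv
    obtain ⟨w, rfl⟩ := IsAlgClosed.exists_pow_nat_eq c (Fact.out : l.Prime).pos
    exact ⟨C w, (map_pow C w l).symm⟩
  have : FaithfulSMul K[X] K[X] := (faithfulSMul_iff_algebraMap_injective _ _).2 fun _ _ h => h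
  exact ab_of_van _ _ (shl_H (𝟙 _) _)
    (hP l _ K K[X] (spc (algebraMap K K[X])) hl.ne_zero h1 h2)

attribute [local instance] Polynomial.algebra in
lemma a1c (hL : LA_s) (ha : AFFV_s) (hP : PIDV_s) (l : ℕ) [Fact l.Prime] (D : Type) [CommRing D]
    [IsDomain D] (hD : Aic D) (hl : IsUnit (l : D)) : AB (ZM l) (spc (algebraMap D D[X])) := by
  let K := FractionRing D
  have := hD.isAlgClosed K
  have hK : Aic K := hD.of_isLocalization (nonZeroDivisors D)
  have hl' : IsUnit (l : K) := by simpa using hl.map (algebraMap D K)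
  have : Gen D D[X] K[X] := Polynomial.isLocalization (nonZeroDivisors D) K
  have h1 : AB (ZM l) (spc (algebraMap D[X] K[X])) :=
    (hb_cst_iff (sph (algebraMap D[X] K[X]) (a := 𝟙 _) rfl) (ZM l)).1
      (hL l _ D D[X] K[X] (𝟙 _) (ZM l) hD hl IndEt.of_etale (zm_tor l))
  have h2 : AB (ZM l) (spc (algebraMap K K[X])) := a1k hP l K hl'
  refine ab_left ?_ h1
  rw [← spc_comp, ← IsScalarTower.algebraMap_eq, IsScalarTower.algebraMap_eq D K K[X], spc_comp]
  exact ab_comp h2 (aicb ha l _ hD hK hl)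

lemma a1p (hD : DVS_s) (hC : COVA_s) (hL : LA_s) (ha : AFFV_s) (hP : PIDV_s) (l : ℕ) [Fact l.Prime]
    {X : Scheme.{0}} (A : Type) [CommRing A] (u : Spec (.of A) ⟶ X) {F : Sh (Scheme.etaleTopology.over X)}
    (hl : IsUnit (l : A)) (hF : Tc l F) : HB (hm u (Algebra.ofId A A[X])) F := by
  let φ : A[X] →ₐ[A] A := aeval 0
  refine HB.of_comp_left (f := hm u φ) ?_ (dev hD hC l φ u hl (fun a => ⟨C a, aeval_C _ a⟩) hF
    fun D _ _ _ _ hA => ?_)
  · rw [← hm_comp, Subsingleton.elim (φ.comp _) (AlgHom.id A A), hm_id]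
    exact hb_of_isIso _ F
  · let e := Algebra.TensorProduct.rid A A D
    have : IsDomain (D ⊗[A] A) := e.toMulEquiv.isDomain _
    have hl' : IsUnit (l : D) := by simpa using hl.map (algebraMap A D)
    have := spc_iso (polyEquivTensor' A D : D[X] →+* D ⊗[A] A[X]) (polyEquivTensor' A D).bijective
    refine ab_right ?_ (ab_comp (ab_iso (spc (polyEquivTensor' A D : D[X] →+* D ⊗[A] A[X])))
      (a1c hL ha hP l D hA hl'))
    rw [← spc_comp, ← spc_comp]
    exact aicb ha l _ hA (hA.of_surjective (e.symm : D →+* D ⊗[A] A) e.symm.surjective) hl'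

theorem a1 (hD : DVS_s) (hC : COVA_s) (hL : LA_s) (ha : AFFV_s) (hP : PIDV_s) : A1_s := by
  intro l _ X A σ _ _ u F hl hF
  have iso {B B' : Type} [CommRing B] [CommRing B'] [Algebra A B] [Algebra A B'] (e : B ≃ₐ[A] B')
      (h : HB (hm u (Algebra.ofId A B)) F) : HB (hm u (Algebra.ofId A B')) F := by
    rw [Subsingleton.elim (Algebra.ofId A B') ((e : B →ₐ[A] B').comp (Algebra.ofId A B)), hm_comp]
    have := spc_iso (e : B →+* B') e.bijective
    exact HB.comp ((hs_iff _).2 (hs_iso _ (spc (e : B →+* B')))) h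
  induction σ using Finite.induction_empty_option with
  | of_equiv e ih => exact iso (MvPolynomial.renameEquiv A e) ih
  | h_empty =>
    refine iso (MvPolynomial.isEmptyAlgEquiv A _).symm ?_
    rw [Subsingleton.elim (Algebra.ofId A A) (AlgHom.id A A), hm_id]
    exact hb_of_isIso _ F
  | @h_option σ _ ih =>
    refine iso (MvPolynomial.optionEquivLeft A σ).symm ?_
    rw [hs_hm, IsScalarTower.algebraMap_eq A (MvPolynomial σ A), spc_comp]
    exact ((hs_hm _ F).1 (a1p hD hC hL ha hP l _ _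
      (by simpa using hl.map (algebraMap A (MvPolynomial σ A))) hF)).comp ((hs_hm u F).1 ih)

end Pool.Agent.MP_855f4c_ag.T.GG

end

section

/-! h12g, section G: base change, excision and the sandwich. -/

set_option autoImplicit false
set_option backward.isDefEq.respectTransparency false

open CategoryTheory Limits Abelian Opposite AlgebraicGeometry Polynomial IsLocalRing TensorProduct
open Function

namespace Pool.Agent.MP_855f4c_ag.T.GG

open E E3 E4 E.SA

theorem exo : EXO_s := by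
  intro X B B' C C' _ _ _ _ _ _ _ _ _ p _ _ ψ u F hE hF h
  let := ψ.toRingHom.toAlgebra
  have : IsScalarTower B C C' := .of_algebraMap_eq fun b => (ψ.commutes b).symm
  have : IsLocalization (Algebra.algebraMapSubmonoid B' (Submonoid.powers p)) C' := by
    rwa [Algebra.algebraMapSubmonoid_powers]
  have : Algebra.IsPushout B C B' C' :=
    (Algebra.isPushout_of_isLocalization (Submonoid.powers p) C B' C').symm
  have hp := isPullback_hm u B C B' C'
  have : IsOpenImmersion (hm u (up B B C)).left := IsOpenImmersion.of_isLocalization p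
  have : IsOpenImmersion (hm u (up B B' C')).left :=
    IsOpenImmersion.of_isLocalization (algebraMap B B' p)
  have : CompactSpace (ob u C).left := inferInstanceAs (CompactSpace (PrimeSpectrum C))
  have := exc_mono (hm u (up B B C))
  have := exc_mono (hm u (up B B' C'))
  refine ExtBij.τ₁ (pair_exact _ _) (pair_exact _ _) (pairMap _ _ _ hp.w) h
    (exc hE.1 (Over.w (hm u (up B B B'))) hp (fun k _ _ y hy => ?_) hF)
  obtain ⟨φ, rfl⟩ := Spec.map_surjective y
  obtain ⟨χ, e, he⟩ := hE.2 k φ.hom (by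
    rw [Ideal.span_singleton_le_iff_mem]
    by_contra h0
    refine hy (closedPoint k) ((Set.ext_iff.1
      (PrimeSpectrum.localization_away_comap_range C p) _).2 fun h1 => h0 ?_)
    change φ.hom p ∈ maximalIdeal k at h1
    rwa [maximalIdeal_eq_bot] at h1)
  refine ⟨spc χ, (Spec.map_comp _ _).symm.trans (congrArg Spec.map (CommRingCat.hom_ext e)),
    fun w hw => ?_⟩
  obtain ⟨w, rfl⟩ := Spec.map_surjective w
  exact congrArg Spec.map (CommRingCat.hom_ext (he w.hom (congrArg CommRingCat.Hom.hom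
    (Spec.map_injective ((Spec.map_comp _ _).trans hw)))))

lemma pb_quot {V B : Type} [CommRing V] [CommRing B] (φ : V →+* B) (I : Ideal V) :
    IsPullback (spc (Ideal.Quotient.mk (I.map φ)))
      (spc (Ideal.quotientMap (I.map φ) φ Ideal.le_comap_map)) (spc φ) (spc (Ideal.Quotient.mk I)) := by
  refine isPullback_SpecMap_of_isPushout _ _ _ _ ⟨⟨rfl⟩, ⟨PushoutCocone.IsColimit.mk _
    (fun s => CommRingCat.ofHom (Ideal.Quotient.lift _ s.inl.hom fun x hx => ?_))
    (fun s => rfl) (fun s => ?_) fun s m h _ => ?_⟩⟩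
  · refine (Ideal.map_le_iff_le_comap (K := RingHom.ker s.inl.hom)).2 (fun y hy => ?_) hx
    refine (congr($(s.condition).hom y)).trans ?_
    change s.inr.hom (Ideal.Quotient.mk I y) = 0
    rw [Ideal.Quotient.eq_zero_iff_mem.2 hy, map_zero]
  · exact CommRingCat.hom_ext (Ideal.Quotient.ringHom_ext congr($(s.condition).hom))
  · exact CommRingCat.hom_ext (Ideal.Quotient.ringHom_ext congr(($h).hom))

lemma ab_hm {A B D : Type} [CommRing A] [CommRing B] [CommRing D] [Algebra A B] [Algebra A D]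
    (φ : B →ₐ[A] D) (M : Ab.{1}) :
    HB (hm (𝟙 _) φ) ((cst _).obj M) ↔ AB M (spc (φ : B →+* D)) := hb_cst_iff (hm (𝟙 _) φ) M

lemma pb_loc (V K B C : Type) [CommRing V] [CommRing K] [CommRing B] [CommRing C] [Algebra V K]
    [Algebra V B] [Algebra B C] (p : V) [IsLocalization.Away p K]
    [IsLocalization.Away (algebraMap V B p) C] : ∃ χ : K →+* C,
      IsPullback (spc (algebraMap B C)) (spc χ) (spc (algebraMap V B)) (spc (algebraMap V K)) := by
  let : Algebra V C := ((algebraMap B C).comp (algebraMap V B)).toAlgebra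
  have : IsScalarTower V B C := .of_algebraMap_eq fun _ => rfl
  have hu : IsUnit (algebraMap V C p) := IsLocalization.Away.algebraMap_isUnit (algebraMap V B p)
  let : Algebra K C := (IsLocalization.Away.lift p hu).toAlgebra
  have : IsScalarTower V K C := .of_algebraMap_eq fun v => (IsLocalization.Away.lift_eq p hu v).symm
  have : IsLocalization (Algebra.algebraMapSubmonoid B (Submonoid.powers p)) C := by
    rwa [Algebra.algebraMapSubmonoid_powers]
  have := Algebra.isPushout_of_isLocalization (Submonoid.powers p) K B C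
  exact ⟨_, isPullback_SpecMap_of_isPushout _ _ _ _ (CommRingCat.isPushout_of_isPushout V B K C)⟩

theorem sand (h1 : GAB_s) (h2 : ABU_s) (h3 : PBL_s) (h4 : EXO_s) (h5 : EXS_s) : SAND_s := by
  intro l _ R V K B B' C _ _ _ _ _ _ _ _ _ _ _ _ p _ _ Z₀ Z Z' f₀ _ f a b f' a' ρ g M hZ hZ' hρ hA hg
    hp hl hI hQ hH hM
  have ab {A : Type} [CommRing A] {W Y : Scheme.{0}} (t : Spec (.of A) ⟶ Spec (.of V))
      (y : Y ⟶ Spec (.of A)) (c : Y ⟶ Z) (r : W ⟶ Y) (w : W ⟶ Spec (.of B))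
      (q : IsPullback c y f t) (q' : IsPullback w (r ≫ y) (spc (algebraMap V B)) t)
      (e : w ≫ ρ = r ≫ c) : AB M r := by
    have : IsProper y := MorphismProperty.of_isPullback (q.paste_horiz hZ) ‹_›
    have : CompactSpace Y := QuasiCompact.compactSpace_of_compactSpace y
    exact h2.2 l W Y r _ (h2.1 _ _ _ _ ρ r w c (IsPullback.of_bot (hρ ▸ q') e q) hA) this
      ((IsSeparated.hasAffineProperty.iff_of_isAffine (f := y)).1 inferInstance) ((Linv.spec hl).of_hom (y ≫ t)) (cst_Tc M hM)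
  have hlB : IsUnit (l : B) := by simpa using hl.map (algebraMap V B)
  let I : Ideal V := Ideal.span {p}
  have eI : I.map (algebraMap V B) = Ideal.span {algebraMap V B p} := by
    rw [Ideal.map_span, Set.image_singleton]
  rw [← eI] at hQ hH
  have : Nontrivial (V ⧸ I) := Ideal.Quotient.nontrivial_iff.2 (mt Ideal.span_singleton_eq_top.1 hp)
  have : IsLocalRing (V ⧸ I) := .of_surjective' _ Ideal.Quotient.mk_surjective
  have : SHL (V ⧸ I) := SHL.of_integral V _
  have : IsLocalHom (Ideal.Quotient.mk I) := .of_surjective _ Ideal.Quotient.mk_surjective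
  have q1 := IsPullback.of_hasPullback f (spc (Ideal.Quotient.mk I))
  have q2 := pb_quot (algebraMap V B) I
  let r := q1.lift (spc (Ideal.Quotient.mk _) ≫ ρ) _ (by rw [Category.assoc, hρ]; exact q2.w)
  have a1 : AB M (spc (Ideal.Quotient.mk (I.map (algebraMap V B)))) := by
    refine ab_right ?_ (ab (𝟙 _) f (𝟙 _) ρ (𝟙 _) (IsPullback.of_horiz_isIso ⟨by simp⟩)
      (IsPullback.of_horiz_isIso ⟨by simp [hρ]⟩) (by simp))
    rw [← q1.lift_fst (spc (Ideal.Quotient.mk _) ≫ ρ) _ (by rw [Category.assoc, hρ]; exact q2.w)]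
    exact ab_comp (ab _ _ _ r _ q1 (by rw [q1.lift_snd]; exact q2) (q1.lift_fst _ _ _).symm)
      (h3 l R V _ _ Z₀ Z _ f₀ f a b _ _ _ hZ q1 hl (cst_Tc M hM))
  have a2 : AB M (spc (algebraMap B B')) := by
    have := spc_iso _ hQ
    refine ab_left (f := spc (algebraMap B' (B' ⧸ (I.map (algebraMap V B)).map (algebraMap B B'))))
      ?_ ((ab_hm (Algebra.ofId _ _) M).1 (h1 l _ B' _ (𝟙 _) _ (by simpa using hlB.map (algebraMap B B'))
        Ideal.Quotient.mk_surjective (by rwa [Ideal.Quotient.algebraMap_eq, Ideal.mk_ker])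
        (cst_Tc M hM)))
    rw [← spc_comp, Ideal.Quotient.algebraMap_eq, ← Ideal.quotientMap_comp_mk Ideal.le_comap_map,
      spc_comp]
    exact ab_comp (ab_iso _) a1
  rw [eI] at hQ
  let C₀ := Localization.Away (algebraMap V B p)
  let : Algebra B C := ((algebraMap B' C).comp (algebraMap B B')).toAlgebra
  have : IsScalarTower B B' C := .of_algebraMap_eq fun _ => rfl
  let ψ : C₀ →ₐ[B] C := IsLocalization.Away.liftAlgHom (algebraMap V B p) (f := Algebra.ofId B C)
    (IsLocalization.Away.algebraMap_isUnit (algebraMap B B' (algebraMap V B p)))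
  have a3 : AB M (spc (ψ : C₀ →+* C)) := (ab_hm ψ M).1 (h4 _ B B' C₀ C _ ψ (𝟙 _) _
    (h5.2 B B' _ hI hQ) (cst_Tc M hM).1.1 ((ab_hm (Algebra.ofId B B') M).2 a2))
  obtain ⟨χ, q3⟩ := pb_loc V K B C₀ p
  let s := hZ'.lift (spc (algebraMap B C₀) ≫ ρ) _ (by rw [Category.assoc, hρ]; exact q3.w)
  have : IsOpenImmersion a' :=
    MorphismProperty.of_isPullback hZ'.flip (IsOpenImmersion.of_isLocalization p)
  have e : g = spc (ψ : C₀ →+* C) ≫ s := by
    rw [← cancel_mono a', hg, Category.assoc, hZ'.lift_fst, ← Category.assoc, ← spc_comp,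
      ψ.comp_algebraMap]
    rfl
  rw [e]
  exact ab_comp a3 (ab _ _ _ s _ hZ' (by rw [hZ'.lift_snd]; exact q3) (hZ'.lift_fst _ _ _).symm)

end Pool.Agent.MP_855f4c_ag.T.GG

end

section

/-! Row ABU: affine space bundles. -/

set_option autoImplicit false
set_option backward.isDefEq.respectTransparency false

open CategoryTheory Limits Abelian Opposite AlgebraicGeometry Function

namespace Pool.Agent.MP_855f4c_ag.T.GG

open E E3 E4 E.SA E.SB.MVG

namespace Abu

variable {W X : Scheme.{0}} {ρ : W ⟶ X}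

/-- `ρ` is an affine space over `j`. -/
def Ch (ρ : W ⟶ X) {A : Type} [CommRing A] (j : Spec (.of A) ⟶ X) : Prop :=
  ∃ (σ : Type) (_ : Finite σ) (w : Spec (.of (MvPolynomial σ A)) ⟶ W),
    IsPullback w (spc (algebraMap A (MvPolynomial σ A))) ρ j

attribute [local instance] MvPolynomial.algebraMvPolynomial in
lemma Ch.bc {W' X' : Scheme.{0}} {ρ' : W' ⟶ X'} {w : W' ⟶ W} {a : X' ⟶ X}
    (h : IsPullback w ρ' ρ a) {A A' : Type} [CommRing A] [CommRing A'] {j : Spec (.of A) ⟶ X}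
    {j' : Spec (.of A') ⟶ X'} [IsOpenImmersion j] (e : Set.range (j' ≫ a) ⊆ Set.range j)
    (c : Ch ρ j) : Ch ρ' j' := by
  obtain ⟨σ, _, v, hv⟩ := c
  obtain ⟨φ, hφ⟩ := Spec.map_surjective (IsOpenImmersion.lift j (j' ≫ a) e)
  let := φ.hom.toAlgebra
  have p := (isPullback_SpecMap_of_isPushout _ _ _ _ (CommRingCat.isPushout_of_isPushout A
    (MvPolynomial σ A) A' (MvPolynomial σ A'))).paste_horiz hv
  have q : spc (algebraMap A A') ≫ j = j' ≫ a :=
    (congrArg (· ≫ j) hφ).trans (IsOpenImmersion.lift_fac _ _ _)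
  exact ⟨σ, ‹_›, _, (q ▸ p).of_right' h⟩

/-- Affine opens inside a chart. -/
def Sm (ρ : W ⟶ X) (U : X.Opens) : Prop :=
  IsAffineOpen U ∧ ∃ (A : Type) (_ : CommRing A) (j : Spec (.of A) ⟶ X), IsOpenImmersion j ∧
    (U : Set X) ⊆ Set.range j ∧ Ch ρ j

lemma Ch.hb (h : A1_s) {l : ℕ} [Fact l.Prime] {F : Sh (Scheme.etaleTopology.over X)} (hl : Linv l X) (hF : Tc l F)
    {U : X.Opens} {A : Type} [CommRing A] (e : Spec (.of A) ≅ U.toScheme)
    (c : Ch ρ (e.hom ≫ U.ι)) : HB (rs ρ U) F := by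
  obtain ⟨σ, _, v, hv⟩ := c
  have p : IsPullback v (spc (algebraMap A (MvPolynomial σ A)) ≫ e.hom) ρ U.ι :=
    hv.of_iso (.refl _) (.refl _) e (.refl _) (by simp) (by simp) (by simp) (Category.comp_id _)
  have q := (isPullback_morphismRestrict ρ U).flip
  let a : ob (e.hom ≫ U.ι) (MvPolynomial σ A) ≅ ov ρ (ρ ⁻¹ᵁ U) :=
    Over.isoMk (p.isoIsPullback _ _ q) ((p.isoIsPullback_hom_fst_assoc _ _ q ρ).trans hv.w)
  let b : ob (e.hom ≫ U.ι) A ≅ ov (𝟙 X) U := Over.isoMk e ((congrArg (e.hom ≫ ·)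
    (Category.comp_id _)).trans ((congrArg (· ≫ e.hom ≫ U.ι) (Spec.map_id (.of A))).trans
      (Category.id_comp _)).symm)
  exact (hb_of_sq (hm (e.hom ≫ U.ι) (Algebra.ofId A (MvPolynomial σ A))) (rs ρ U) a.hom b.hom
    (Over.OverMorphism.ext (p.isoIsPullback_hom_snd _ _ q))).1
      (h l X A σ _ F (hl.isUnit (e.hom ≫ U.ι)) hF)

lemma Sm.hb (h : A1_s) {l : ℕ} [Fact l.Prime] {F : Sh (Scheme.etaleTopology.over X)} (hl : Linv l X) (hF : Tc l F)
    {U : X.Opens} (hU : Sm ρ U) : HB (rs ρ U) F := by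
  obtain ⟨hU, A, _, j, _, hj, c⟩ := hU
  refine Ch.hb h hl hF (A := Γ(X, U)) hU.isoSpec.symm (Ch.bc
    (.of_horiz_isIso ⟨(Category.id_comp _).trans (Category.comp_id _).symm⟩ :
      IsPullback (𝟙 W) ρ ρ (𝟙 X)) ?_ c)
  rw [Category.comp_id]
  exact hU.range_fromSpec.le.trans hj

lemma mv {F : Sh (Scheme.etaleTopology.over X)} {U V : X.Opens} (hU : HB (rs ρ U) F) (hV : HB (rs ρ V) F)
    (hW : HB (rs ρ (U ⊓ V)) F) : HB (rs ρ (U ⊔ V)) F :=
  have e {U V : X.Opens} (h : U ≤ V) :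
      inc ρ (ρ.preimage_mono h) ≫ rs ρ V = rs ρ U ≫ inc (𝟙 X) h :=
    Over.OverMorphism.ext (morphismRestrict_homOfLE ρ U V h).symm
  hb_of_con fun _ => con ρ _ _ _ _ ρ.preimage_inf ρ.preimage_sup _ _ _ _
    (e _) (e _) (e _) (e _) (hW.con _) (hU.con _) (hV.con _)

end Abu

open Abu in
theorem abu (h : A1_s) : ABU_s := by
  refine ⟨fun W X W' X' ρ ρ' w a hp hρ x => ?_, fun l _ W X ρ F hρ _ _ hl hF => ?_⟩
  · obtain ⟨A, _, j, σ, _, v, _, hx, hv⟩ := hρ (a x)
    obtain ⟨R, j', _, hx', hj⟩ := Scheme.exists_affine_mem_range_and_range_subset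
      (x := x) (U := a ⁻¹ᵁ j.opensRange) hx
    obtain ⟨σ', _, v', hv'⟩ := Ch.bc (A' := R) (j' := j') hp
      (by rintro _ ⟨z, rfl⟩; exact hj ⟨z, rfl⟩) ⟨σ, ‹_›, v, hv⟩
    exact ⟨R, _, j', σ', ‹_›, v', ‹_›, hx', hv'⟩
  have sm (x : X) : ∃ U : X.Opens, Sm ρ U ∧ x ∈ U := by
    obtain ⟨A, _, j, σ, _, v, _, hx, hv⟩ := hρ x
    exact ⟨j.opensRange, ⟨isAffineOpen_opensRange j, A, _, j, ‹_›, le_rfl, σ, ‹_›, v, hv⟩, hx⟩
  choose U hU hx using sm
  obtain ⟨t, ht⟩ := (isCompact_univ (X := X)).elim_finite_subcover (fun x => (U x : Set X))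
    (fun x => (U x).2) fun x _ => Set.mem_iUnion.2 ⟨x, hx x⟩
  have h0 : HB (rs ρ ⊥) F :=
    have : IsIso ((Over.forget X).map (rs ρ ⊥)) :=
      @isIso_of_isEmpty _ (⊥ : X.Opens).toScheme _ ⟨fun z => z.2⟩
    have := isIso_of_reflects_iso (rs ρ ⊥) (Over.forget X)
    hb_of_isIso _ F
  have h1 (t : Finset X) : ∀ V : X.Opens, V = ⊤ ∨ IsAffineOpen V → HB (rs ρ (t.sup U ⊓ V)) F := by
    classical
    refine t.induction_on (fun V _ => by rwa [Finset.sup_empty, bot_inf_eq]) fun x t _ ih V hV => ?_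
    have a : IsAffineOpen (U x ⊓ V) :=
      hV.elim (fun e => by rw [e, inf_top_eq]; exact (hU x).1) (hU x).1.inf
    obtain ⟨-, A, _, j, _, hj, c⟩ := hU x
    rw [Finset.sup_insert, inf_sup_right]
    refine mv (Sm.hb h hl hF ⟨a, A, _, j, ‹_›, fun _ hz => hj hz.1, c⟩) (ih V hV) ?_
    rw [← inf_inf_distrib_right, inf_comm (U x), inf_assoc]
    exact ih _ (.inr a)
  have h2 : HB (rs ρ ⊤) F := by
    have e : t.sup U ⊓ ⊤ = ⊤ := (inf_top_eq _).trans (top_le_iff.1 fun x _ => by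
      obtain ⟨y, hy, hz⟩ := Set.mem_iUnion₂.1 (ht (Set.mem_univ x))
      exact (Finset.le_sup hy : U y ≤ t.sup U) hz)
    exact e ▸ h1 t ⊤ (.inl rfl)
  let a : ov ρ (ρ ⁻¹ᵁ ⊤) ≅ Over.mk ρ := Over.isoMk W.topIso rfl
  let b : ov (𝟙 X) ⊤ ≅ E.top X := Over.isoMk X.topIso rfl
  exact (hb_of_sq (rs ρ ⊤) (tp ρ) a.hom b.hom
    (Over.OverMorphism.ext (morphismRestrict_ι ρ ⊤).symm)).1 h2

end Pool.Agent.MP_855f4c_ag.T.GG

end

section

/-! h12g, section G assembled. -/

namespace Pool.Agent.MP_855f4c_ag.T.GG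

open E E.SA E.SB

theorem gab_of (ha : AFFV_s) : GAB_s := gab dvs cova ha

theorem a1_of (hL : LA_s) (ha : AFFV_s) (hP : PIDV_s) : A1_s := a1 dvs cova hL ha hP

theorem abu_of (hL : LA_s) (ha : AFFV_s) (hP : PIDV_s) : ABU_s := abu (a1_of hL ha hP)

theorem sand_of (hL : LA_s) (ha : AFFV_s) (hP : PIDV_s) (hB : PBCX_s) (hE : EXS_s) : SAND_s :=
  sand (gab_of ha) (abu_of hL ha hP) (pbl hB) exo hE

end Pool.Agent.MP_855f4c_ag.T.GG

end

section

/-! h12g row OPR: the ring fixed by powers of the two automorphisms. -/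

set_option autoImplicit false

namespace Pool.Agent.MP_855f4c_ag.T

open LP

/-- Elements of norm at most one fixed by `g` and `h`. -/
def Opr.fix {p : ℕ} [Fact p.Prime] (g h : PadicAlgCl p ≃+* PadicAlgCl p) :
    Subring (PadicAlgCl p) where
  carrier := {z | ‖z‖ ≤ 1 ∧ g z = z ∧ h z = z}
  one_mem' := ⟨norm_one.le, map_one _, map_one _⟩
  zero_mem' := ⟨by simp, map_zero _, map_zero _⟩
  mul_mem' := fun {a b} ha hb => ⟨by
    rw [norm_mul]; exact mul_le_one₀ ha.1 (norm_nonneg _) hb.1,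
    by rw [map_mul, ha.2.1, hb.2.1], by rw [map_mul, ha.2.2, hb.2.2]⟩
  add_mem' := fun {a b} ha hb =>
    ⟨(IsUltrametricDist.norm_add_le_max a b).trans (max_le ha.1 hb.1),
    by rw [map_add, ha.2.1, hb.2.1], by rw [map_add, ha.2.2, hb.2.2]⟩
  neg_mem' := fun {a} ha => ⟨by rw [norm_neg]; exact ha.1,
    by rw [map_neg, ha.2.1], by rw [map_neg, ha.2.2]⟩

theorem Opr.pw {K Ω : Type} [Field K] [Field Ω] [Algebra K Ω] (g : Ω ≃ₐ[K] Ω) (m : ℕ) (z : Ω) :
    (g.toRingEquiv ^ m) z = (g ^ m) z := by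
  induction m with
  | zero => rfl
  | succ m ih => rw [pow_succ', pow_succ', AlgEquiv.mul_apply, ← ih]; rfl

theorem Opr.mul {Ω : Type} [Field Ω] {g : Ω ≃+* Ω} {a : ℕ} {z : Ω} (h : (g ^ a) z = z) (b : ℕ) :
    (g ^ (a * b)) z = z := by
  induction b with
  | zero => rfl
  | succ b ih =>
    have : (g ^ (a * (b + 1))) z = (g ^ a) ((g ^ (a * b)) z) := by
      rw [Nat.mul_succ, add_comm, pow_add]; rfl
    rw [this, ih, h]

theorem opr : OPR_s := by
  intro p l _ _ hlp K _ _ φ u Q E hQ hφ hu hr hE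
  obtain ⟨h1, h2, h3⟩ := Pow.pow p l hlp
  obtain ⟨-, -, a3, a4⟩ := h1 Q φ.toRingEquiv (by omega) hφ
  obtain ⟨-, -, b3, b4⟩ := h1 1 u.toRingEquiv one_pos hu
  obtain ⟨a, a0, ha⟩ := a4 E
  obtain ⟨b, b0, hb⟩ := b4 E
  have m0 : 0 < a * b := Nat.mul_pos a0 b0
  have c1 := a3 (a * b)
  have c2 := b3 (a * b)
  rw [one_pow] at c2
  let O := Opr.fix (φ.toRingEquiv ^ (a * b)) (u.toRingEquiv ^ (a * b))
  refine ⟨a * b, O, { φ.toRingEquiv ^ (a * b) with commutes' := fun o => o.2.2.1 },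
    { u.toRingEquiv ^ (a * b) with commutes' := fun o => o.2.2.2 }, m0, fun z hz => hz.1,
    fun z hz => ⟨hE z hz, Opr.mul (ha z hz) b, mul_comm b a ▸ Opr.mul (hb z hz) a⟩,
    fun o => ⟨(h3 _).2 isIntegral_algebraMap, c1.1 o, c2.1 o⟩,
    fun x hx => ⟨hx, (Opr.pw φ _ _).trans (AlgEquiv.commutes _ x),
      (Opr.pw u _ _).trans (AlgEquiv.commutes _ x)⟩,
    Opr.pw φ _, Opr.pw u _, c1, c2, h2 u.toRingEquiv _ m0 hu hr,
    (h1 _ _ (by positivity) c1).1, (h1 _ _ one_pos c2).1⟩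

end Pool.Agent.MP_855f4c_ag.T

end
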