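import Pool.Agent.MP_855f4c_ag.EC.All
import Pool.Agent.MP_855f4c_ag.EG.GAll
import Pool.Agent.MP_855f4c_ag.TC.Tc
import Pool.Agent.MP_855f4c_ag.TC.Td
import Pool.Agent.MP_855f4c_ag.TC.Th
import Pool.Agent.MP_855f4c_ag.TC.Tb
import Pool.Agent.MP_855f4c_ag.TC.Tj
import Pool.Agent.MP_855f4c_ag.TC.Tf
import Pool.Agent.MP_855f4c_ag.TC.Ti
import Pool.Agent.MP_855f4c_ag.TC.Tk
import Pool.Agent.MP_855f4c_ag.TC.QQ

section

/-! h12g: every row without hypotheses. -/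

namespace Pool.Agent.MP_855f4c_ag.T.All

open E E.D

theorem hPIDV : SA.PIDV_s := CV.pidv CV.nsl CV.kapR CV.pidA

theorem hTOW : TOW_s :=
  tow (stepAll (killAll (d1All CV.curveA CV.p1muA CV.cd3A) E.All.pbc E.All.gx E.All.la) E.All.pbc
    CV.cd3A CV.gzA CV.curveA CV.p1muA) (cdzs (lerp' E.All.pbc CV.cd3A) E.All.pbc CV.gzA) twf

theorem hTWS : TWS_s := tws (lerp' E.All.pbc CV.cd3A) (D.gam CV.p1muA D.smul) D.smul E.All.pbc lnm

theorem hCDG : CDG_s :=
  cdg E.All.cdx (ind2 (ind E.All.pbcx lnm)) hTOW (genb lnm) lnm intb (dense lnm) twf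

theorem hPDT : PDT_s := pdt hTOW hTWS twf (dense lnm) dsetAll

theorem hPDX : PDX_s :=
  pdx hCDG hPDT (conn lnm) (dense lnm) (ind2 (ind E.All.pbcx lnm)) hTOW hTWS twf dsetAll intb

theorem hTOPQ : TOPQ_s :=
  topq hCDG hPDT (conn lnm) (dense lnm) (ind2 (ind E.All.pbcx lnm)) hTWS twf slw lnm

theorem hAPX : APX_s := apx apx0

theorem hCHERN : CHERN_s := chernAll

theorem hCOFZ : COFZ_s := cofz Vp.wtxA zb

theorem hKH : KH_s := kh zb

theorem hKCOF : KCOF_s := kcof endq hKH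

theorem hKTOP : KTOP_s := ktop endq hKH

theorem hKPD : KPD_s := kpd hPDX hCDG hTOPQ twf zb hKCOF hKTOP kpb kert

theorem hTOP : TOP_s := topT hPDT twf zb hKH hKTOP clz kpb ksec

theorem hABU : GG.ABU_s := GG.abu_of E.All.la PB.affv_final hPIDV

theorem hSAND : GG.SAND_s := GG.sand_of E.All.la PB.affv_final hPIDV E.All.pbcx exs

theorem hTOPJ : TOPJ_s := topj hTOP zju hABU zb kpb twf

theorem hFAM : FAM_s := fam bert E.G.nglA zlx zsm

theorem hM0 : M0_s := m0 null w0 hAPX newt elkA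

theorem hCHAIN : CHAIN_s := chain (cstA hens newt elkA)

theorem hMID : MID_s := mid_of hCHAIN rhx

theorem hSU : SU_s := su (su0 hSAND hABU hp exs zb zlx zju) Pow.pow

theorem hEND : END_s := endT linT hKPD zb hCOFZ

theorem hBEZZ : BEZZ_s := bezz (bez hTOPJ jxb clz kpb perm endq) kpb

theorem hEPS : EPS_s := eps hBEZZ

theorem hQ : Q_s :=
  qq hCHERN p1l yo hM0 hFAM opr hens newt chi zlb hSU hMID hEPS nums hKPD twf hEND

theorem hFINAL : FINAL_s := final hQ E.All.pbcx M3.emb M3.iso M3.ext M3.frb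

end Pool.Agent.MP_855f4c_ag.T.All

end
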